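import Pool.Agent.Lib.MP_cb0de5_an.SpecC

/-!
# Algebra of trigonometric polynomials (module C0a)
-/

open MeasureTheory Filter Topology Set

noncomputable section

namespace GKdV

open LP

namespace AlgF

lemma ext_coeff {f g : LP} (h : ∀ n, f.coeff n = g.coeff n) : f = g := by
  apply AddMonoidAlgebra.coeff_injective
  ext n
  exact h n

lemma coeff_D (f : LP) (n : ℤ) : (D f).coeff n = Complex.I * n * f.coeff n := rfl

lemma coeff_cut (K : ℕ) (f : LP) (n : ℤ) :
    (cut K f).coeff n = if |n| ≤ (K : ℤ) then f.coeff n else 0 := by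
  unfold cut
  rw [AddMonoidAlgebra.coeff_ofCoeff, Finsupp.filter_apply]

lemma coeff_add' (f g : LP) (n : ℤ) : (f + g).coeff n = f.coeff n + g.coeff n := rfl

lemma coeff_sub' (f g : LP) (n : ℤ) : (f - g).coeff n = f.coeff n - g.coeff n := rfl

lemma coeff_neg' (f : LP) (n : ℤ) : (-f).coeff n = -f.coeff n := rfl

lemma coeff_smul' (c : ℂ) (f : LP) (n : ℤ) : (c • f).coeff n = c * f.coeff n := rfl

/-- The coefficients of a product. -/
lemma coeff_mul' (f g : LP) (n : ℤ) (s : Finset ℤ) (hs : f.coeff.support ⊆ s) :
    (f * g).coeff n = ∑ m ∈ s, f.coeff m * g.coeff (n - m) := by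
  classical
  rw [AddMonoidAlgebra.coeff_mul]
  have h1 : ∀ (m : ℤ) (r : ℂ),
      (g.coeff.sum fun m₂ r₂ => if m + m₂ = n then r * r₂ else 0) = r * g.coeff (n - m) := by
    intro m r
    rw [Finsupp.sum, Finset.sum_eq_single (n - m)]
    · rw [if_pos (by ring)]
    · intro b _ hb
      exact if_neg (by omega)
    · intro h
      rw [Finsupp.notMem_support_iff] at h
      rw [h, mul_zero, ite_self]
  simp only [h1]
  rw [Finsupp.sum]
  apply Finset.sum_subset hs
  intro m _ hm
  rw [Finsupp.notMem_support_iff] at hm
  rw [hm, zero_mul]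

lemma coeff_mul'' (f g : LP) (n : ℤ) :
    (f * g).coeff n = ∑ m ∈ f.coeff.support, f.coeff m * g.coeff (n - m) :=
  coeff_mul' f g n _ (Finset.Subset.refl _)

lemma support_D (f : LP) : (D f).coeff.support ⊆ f.coeff.support := by
  intro n hn
  rw [Finsupp.mem_support_iff] at hn ⊢
  intro h
  apply hn
  rw [coeff_D, h, mul_zero]

lemma support_cut (K : ℕ) (f : LP) : (cut K f).coeff.support ⊆ f.coeff.support := by
  intro n hn
  rw [Finsupp.mem_support_iff] at hn ⊢
  intro h
  apply hn
  rw [coeff_cut, h, ite_self]

end AlgF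

open AlgF

/-- **C0a**. -/
theorem algFacts : AlgFacts where
  D_coeff f n := rfl
  D_add f g := by
    apply ext_coeff; intro n
    simp only [coeff_D, coeff_add']; ring
  D_sub f g := by
    apply ext_coeff; intro n
    simp only [coeff_D, coeff_sub']; ring
  D_neg f := by
    apply ext_coeff; intro n
    simp only [coeff_D, coeff_neg']; ring
  D_smul c f := by
    apply ext_coeff; intro n
    simp only [coeff_D, coeff_smul']; ring
  D_mul f g := by
    apply ext_coeff; intro n
    rw [coeff_D, coeff_add', coeff_mul'' f g, coeff_mul'' f (D g),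
      coeff_mul' (D f) g n f.coeff.support (support_D f), Finset.mul_sum, ← Finset.sum_add_distrib]
    apply Finset.sum_congr rfl
    intro m _
    rw [coeff_D, coeff_D]
    push_cast
    ring
  I0_D f := by
    unfold I0
    rw [coeff_D]; simp
  I0_add f g := rfl
  I0_sub f g := rfl
  I0_smul c f := rfl
  cut_add K f g := by
    apply ext_coeff; intro n
    simp only [coeff_cut, coeff_add']
    split_ifs <;> simp
  cut_sub K f g := by
    apply ext_coeff; intro n
    simp only [coeff_cut, coeff_sub']
    split_ifs <;> simp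
  cut_smul K c f := by
    apply ext_coeff; intro n
    simp only [coeff_cut, coeff_smul']
    split_ifs <;> simp
  D_cut K f := by
    apply ext_coeff; intro n
    simp only [coeff_cut, coeff_D]
    split_ifs <;> simp
  cut_of_supp K f h := by
    apply ext_coeff; intro n
    rw [coeff_cut]
    split_ifs with h1
    · rfl
    · exact (h n (not_le.1 h1)).symm
  supp_cut K f := by
    intro n hn
    rw [coeff_cut, if_neg (not_le.2 hn)]
  cut_cut K L f hKL := by
    apply ext_coeff; intro n
    rw [coeff_cut, coeff_cut]
    have h0 : (K : ℤ) ≤ L := by exact_mod_cast hKL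
    by_cases h1 : |n| ≤ (K : ℤ)
    · rw [if_pos h1, if_pos (h1.trans h0)]
    · rw [if_neg h1, ite_self]
  I0_cut K f g := by
    unfold I0
    rw [coeff_mul'' f (cut K g), coeff_mul' (cut K f) g 0 f.coeff.support (support_cut K f)]
    apply Finset.sum_congr rfl
    intro m _
    rw [coeff_cut, coeff_cut, zero_sub, abs_neg]
    split_ifs <;> simp
  real_add f g hf hg := by
    intro n
    rw [coeff_add', coeff_add', hf n, hg n, map_add]
  real_sub f g hf hg := by
    intro n
    rw [coeff_sub', coeff_sub', hf n, hg n, map_sub]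
  real_mul f g hf hg := by
    intro n
    rw [coeff_mul'', coeff_mul'', map_sum]
    apply Finset.sum_equiv (Equiv.neg ℤ)
    · intro m
      simp only [Equiv.neg_apply, Finsupp.mem_support_iff]
      rw [hf m]
      simp
    · intro m _
      simp only [Equiv.neg_apply, map_mul]
      rw [← hf (-m), ← hg (n - -m), neg_neg]
      congr 2
      ring
  real_D f hf := by
    intro n
    rw [coeff_D, coeff_D, hf n, map_mul, map_mul, Complex.conj_I]
    simp
  real_cut K f hf := by
    intro n
    rw [coeff_cut, coeff_cut, abs_neg, hf n]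
    split_ifs <;> simp
  real_smul c f hf := by
    intro n
    rw [coeff_smul', coeff_smul', hf n, map_mul, Complex.conj_ofReal]
  mz_D f := by
    unfold MZ
    rw [coeff_D]; simp
  supp_D K f hf := by
    intro n hn
    rw [coeff_D, hf n hn, mul_zero]
  supp_mul K L f g hf hg := by
    intro n hn
    rw [coeff_mul'']
    apply Finset.sum_eq_zero
    intro m _
    by_cases h1 : (K : ℤ) < |m|
    · rw [hf m h1, zero_mul]
    · have h2 : (L : ℤ) < |n - m| := by
        have h3 : |n| ≤ |m| + |n - m| := by
          have := abs_add_le m (n - m)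
          rwa [add_sub_cancel] at this
        push_cast at hn
        omega
      rw [hg _ h2, mul_zero]
  supp_mono K L f hKL hf := by
    intro n hn
    have h0 : (K : ℤ) ≤ L := by exact_mod_cast hKL
    exact hf n (lt_of_le_of_lt h0 hn)
  supp_add K f g hf hg := by
    intro n hn
    rw [coeff_add', hf n hn, hg n hn, add_zero]
  supp_sub K f g hf hg := by
    intro n hn
    rw [coeff_sub', hf n hn, hg n hn, sub_zero]
  supp_smul K c f hf := by
    intro n hn
    rw [coeff_smul', hf n hn, mul_zero]

end GKdV
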