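import Pool.Agent.Lib.MP_cb0de5_an.SpecC

/-!
# C5c3: the approximants satisfy the equation
-/

open MeasureTheory Filter Topology Set

noncomputable section

namespace GKdV

open LP

namespace ApproxEqn

lemma supp_sub {K : ℕ} {f : LP} (hf : Supp K f) :
    f.coeff.support ⊆ Finset.Icc (-(K : ℤ)) K := by
  intro n hn
  rw [Finsupp.mem_support_iff] at hn
  rw [Finset.mem_Icc, ← abs_le]
  by_contra h
  exact hn (hf n (not_le.1 h))

lemma cut_coeff (K : ℕ) (f : LP) (n : ℤ) :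
    (cut K f).coeff n = if |n| ≤ (K : ℤ) then f.coeff n else 0 := by
  unfold cut
  rw [AddMonoidAlgebra.coeff_ofCoeff, Finsupp.filter_apply]

/-- Families of trigonometric polynomials with continuous coefficients, and bounded degree. -/
def CB (s : Set ℝ) (g : ℝ → LP) : Prop :=
  (∃ L : ℕ, ∀ t ∈ s, Supp L (g t)) ∧ ∀ n, ContinuousOn (fun t => (g t).coeff n) s

lemma cb_D (h1 : AlgFacts) {s : Set ℝ} {g : ℝ → LP} (hg : CB s g) : CB s (fun t => D (g t)) := by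
  obtain ⟨⟨L, hL⟩, hc⟩ := hg
  refine ⟨⟨L, fun t ht => h1.supp_D L _ (hL t ht)⟩, fun n => ?_⟩
  simp only [h1.D_coeff]
  exact continuousOn_const.mul (hc n)

lemma cb_cut (h1 : AlgFacts) {s : Set ℝ} {g : ℝ → LP} (hg : CB s g) (K : ℕ) :
    CB s (fun t => cut K (g t)) := by
  obtain ⟨⟨L, hL⟩, hc⟩ := hg
  refine ⟨⟨K, fun t _ => h1.supp_cut K _⟩, fun n => ?_⟩
  simp only [cut_coeff]
  by_cases h : |n| ≤ (K : ℤ)
  · simp only [h, if_true]
    exact hc n
  · simp only [h, if_false]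
    exact continuousOn_const

lemma cb_mul (h1 : AlgFacts) {s : Set ℝ} {f g : ℝ → LP} (hf : CB s f) (hg : CB s g) :
    CB s (fun t => f t * g t) := by
  obtain ⟨⟨L, hL⟩, hc⟩ := hf
  obtain ⟨⟨L', hL'⟩, hc'⟩ := hg
  refine ⟨⟨L + L', fun t ht => h1.supp_mul _ _ _ _ (hL t ht) (hL' t ht)⟩, fun n => ?_⟩
  have h : ContinuousOn (fun t => ∑ m ∈ Finset.Icc (-(L : ℤ)) L,
      (f t).coeff m * (g t).coeff (-m + n)) s :=
    continuousOn_finsetSum _ fun m _ => (hc m).mul (hc' _)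
  refine h.congr fun t ht => ?_
  simp only
  rw [AddMonoidAlgebra.coeff_mul_apply_left, Finsupp.sum]
  refine Finset.sum_subset (supp_sub (hL t ht)) ?_
  intro m _ hm
  rw [Finsupp.notMem_support_iff.1 hm, zero_mul]

lemma cb_pow4 (h1 : AlgFacts) {s : Set ℝ} {f : ℝ → LP} (hf : CB s f) :
    CB s (fun t => f t ^ 4) := by
  have h : CB s (fun t => (f t * f t) * (f t * f t)) :=
    cb_mul h1 (cb_mul h1 hf hf) (cb_mul h1 hf hf)
  have e : (fun t => f t ^ 4) = fun t => (f t * f t) * (f t * f t) := by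
    funext t
    ring
  rw [e]
  exact h

lemma cb_neg_sub_smul {s : Set ℝ} {f g : ℝ → LP} (hf : CB s f) (hg : CB s g)
    (c : ℂ) : CB s (fun t => -f t - c • g t) := by
  obtain ⟨⟨L, hL⟩, hc⟩ := hf
  obtain ⟨⟨L', hL'⟩, hc'⟩ := hg
  have e : ∀ t n, (-f t - c • g t).coeff n = -(f t).coeff n - c * (g t).coeff n := by
    intro t n
    rw [AddMonoidAlgebra.coeff_sub, Finsupp.sub_apply, AddMonoidAlgebra.coeff_neg,
      Finsupp.neg_apply, AddMonoidAlgebra.coeff_smul_apply, smul_eq_mul]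
  refine ⟨⟨max L L', fun t ht n hn => ?_⟩, fun n => ?_⟩
  · rw [e, hL t ht n (lt_of_le_of_lt (by exact_mod_cast le_max_left L L') hn),
      hL' t ht n (lt_of_le_of_lt (by exact_mod_cast le_max_right L L') hn)]
    simp
  · simp only [e]
    exact (hc n).neg.sub (continuousOn_const.mul (hc' n))

lemma cb_comp {s s' : Set ℝ} {g : ℝ → LP} (hg : CB s g) (r : ℝ)
    (hs : ∀ t ∈ s', r * t ∈ s) : CB s' (fun t => g (r * t)) := by
  obtain ⟨⟨L, hL⟩, hc⟩ := hg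
  refine ⟨⟨L, fun t ht => hL _ (hs t ht)⟩, fun n => ?_⟩
  exact (hc n).comp (continuousOn_const.mul continuousOn_id) hs

lemma cb_cont (h3 : EvFacts) {s : Set ℝ} {g : ℝ → LP} (hg : CB s g) (c : ℝ) (N : ℕ) :
    ContinuousOn (Function.uncurry fun t x => dil c N (g t) x) (s ×ˢ univ) := by
  obtain ⟨⟨L, hL⟩, hc⟩ := hg
  have h : ContinuousOn (fun p : ℝ × ℝ => c * (∑ n ∈ Finset.Icc (-(L : ℤ)) L,
      (g p.1).coeff n * Complex.exp (Complex.I * n * ((N * p.2 : ℝ) : ℂ))).re) (s ×ˢ univ) := by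
    refine continuousOn_const.mul (Complex.continuous_re.comp_continuousOn ?_)
    refine continuousOn_finsetSum _ fun n _ => ContinuousOn.mul ?_ ?_
    · exact (hc n).comp continuousOn_fst fun p hp => hp.1
    · refine Continuous.continuousOn ?_
      fun_prop
  refine h.congr fun p hp => ?_
  obtain ⟨t, x⟩ := p
  simp only [Function.uncurry, dil]
  rw [h3.ev_sum (g t) _ (supp_sub (hL t hp.1))]

lemma dil_deriv (h3 : EvFacts) (c : ℝ) (N : ℕ) (f : LP) (x : ℝ) :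
    HasDerivAt (dil c N f) (dil (c * N) N (D f) x) x := by
  have h := (h3.ev_deriv f (N * x)).comp x ((hasDerivAt_id x).const_mul (N : ℝ))
  have h' := h.const_mul c
  refine h'.congr_deriv ?_
  simp only [dil, mul_one]
  ring

lemma deriv_dil (h3 : EvFacts) (c : ℝ) (N : ℕ) (f : LP) :
    deriv (dil c N f) = dil (c * N) N (D f) := by
  funext x
  exact (dil_deriv h3 c N f x).deriv

lemma contDiff_dil (h3 : EvFacts) (n : ℕ) : ∀ (c : ℝ) (N : ℕ) (f : LP),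
    ContDiff ℝ n (dil c N f) := by
  induction n with
  | zero =>
    intro c N f
    exact contDiff_zero.2 (continuous_iff_continuousAt.mpr fun x =>
      (dil_deriv h3 c N f x).continuousAt)
  | succ n ih =>
    intro c N f
    have : ((n + 1 : ℕ) : WithTop ℕ∞) = (n : WithTop ℕ∞) + 1 := by push_cast; rfl
    rw [this, contDiff_succ_iff_deriv]
    refine ⟨fun x => (dil_deriv h3 c N f x).differentiableAt, by simp, ?_⟩
    rw [deriv_dil h3]
    exact ih _ _ _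

lemma iter3_dil (h3 : EvFacts) (c : ℝ) (N : ℕ) (f : LP) (x : ℝ) :
    iteratedDeriv 3 (dil c N f) x = dil (c * N ^ 3) N (D (D (D f))) x := by
  rw [iteratedDeriv_succ, iteratedDeriv_succ, iteratedDeriv_one, deriv_dil h3, deriv_dil h3,
    deriv_dil h3]
  congr 1
  ring

lemma periodic_dil (h3 : EvFacts) (c : ℝ) (N : ℕ) (f : LP) :
    Function.Periodic (dil c N f) (2 * Real.pi) := by
  intro x
  have h := (h3.ev_periodic f).nat_mul N
  simp only [dil]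
  rw [mul_add]
  rw [h (N * x)]

/-- derivative in time -/
lemma time_deriv (h3 : EvFacts) {s : Set ℝ} {g g' : ℝ → LP} {K : ℕ} (hg : ∀ t ∈ s, Supp K (g t))
    (hg' : ∀ t ∈ s, Supp K (g' t))
    (hd : ∀ t ∈ s, ∀ n, HasDerivAt (fun τ => (g τ).coeff n) ((g' t).coeff n) t)
    {s' : Set ℝ} (r : ℝ) (hs : ∀ t ∈ s', r * t ∈ s) (c : ℝ) (N : ℕ) (x : ℝ) {t : ℝ}
    (ht : t ∈ s') : HasDerivWithinAt (fun τ => dil c N (g (r * τ)) x)
      (dil (c * r) N (g' (r * t)) x) s' t := by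
  have h1 : HasDerivAt (fun τ => ∑ n ∈ Finset.Icc (-(K : ℤ)) K,
      (g (r * τ)).coeff n * Complex.exp (Complex.I * n * ((N * x : ℝ) : ℂ)))
      (∑ n ∈ Finset.Icc (-(K : ℤ)) K,
        (r * (g' (r * t)).coeff n) * Complex.exp (Complex.I * n * ((N * x : ℝ) : ℂ))) t := by
    refine HasDerivAt.fun_sum fun n _ => HasDerivAt.mul_const ?_ _
    have h := (hd (r * t) (hs t ht) n).scomp t ((hasDerivAt_id t).const_mul r)
    refine h.congr_deriv ?_
    simp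
  have h2 : HasDerivAt (fun τ => (∑ n ∈ Finset.Icc (-(K : ℤ)) K,
      (g (r * τ)).coeff n * Complex.exp (Complex.I * n * ((N * x : ℝ) : ℂ))).re)
      ((∑ n ∈ Finset.Icc (-(K : ℤ)) K,
        (r * (g' (r * t)).coeff n) * Complex.exp (Complex.I * n * ((N * x : ℝ) : ℂ))).re) t :=
    Complex.reCLM.hasFDerivAt.comp_hasDerivAt t h1
  have h3' := (h2.const_mul c).hasDerivWithinAt (s := s')
  have h5 : HasDerivWithinAt (fun τ => dil c N (g (r * τ)) x)
      (c * (∑ n ∈ Finset.Icc (-(K : ℤ)) K,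
        (r * (g' (r * t)).coeff n) * Complex.exp (Complex.I * n * ((N * x : ℝ) : ℂ))).re) s' t := by
    refine h3'.congr (fun y hy => ?_) ?_
    · simp only [dil]
      rw [h3.ev_sum (g (r * y)) _ (supp_sub (hg _ (hs y hy)))]
    · simp only [dil]
      rw [h3.ev_sum (g (r * t)) _ (supp_sub (hg _ (hs t ht)))]
  refine h5.congr_deriv ?_
  simp only [dil]
  rw [h3.ev_sum (g' (r * t)) _ (supp_sub (hg' _ (hs t ht)))]
  have e : (∑ n ∈ Finset.Icc (-(K : ℤ)) K,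
      (r * (g' (r * t)).coeff n) * Complex.exp (Complex.I * n * ((N * x : ℝ) : ℂ))) =
      r * ∑ n ∈ Finset.Icc (-(K : ℤ)) K,
        (g' (r * t)).coeff n * Complex.exp (Complex.I * n * ((N * x : ℝ) : ℂ)) := by
    rw [Finset.mul_sum]
    refine Finset.sum_congr rfl fun n _ => ?_
    ring
  rw [e, Complex.re_ofReal_mul]
  ring

end ApproxEqn

open ApproxEqn in
theorem approxEqnStmt (h1 : AlgFacts) (_h2 : NormFacts) (h3 : EvFacts) (h4 : WeakLimitStmt) :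
    ApproxEqnStmt := by
  intro Mb lam σ T c N K₁ φ a hc hN hlam hG u hu
  have hN0 : (0 : ℝ) < (N : ℝ) := by exact_mod_cast hN
  have hN3 : (0 : ℝ) < (N : ℝ) ^ 3 := by positivity
  have hT' : 0 < T / (N : ℝ) ^ 3 := div_pos hG.T_pos hN3
  have hmem : ∀ t ∈ Icc 0 (T / (N : ℝ) ^ 3), (N : ℝ) ^ 3 * t ∈ Icc 0 T := by
    intro t ht
    refine ⟨mul_nonneg hN3.le ht.1, ?_⟩
    have := (le_div_iff₀ hN3).mp ht.2
    linarith
  have hgal : ∀ j, Gal (K₁ + j) lam σ T (a (K₁ + j)) := fun j => hG.gal _ (Nat.le_add_right _ _)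
  -- the time derivative
  set R : ℕ → ℝ → LP := fun j t => -D (D (D (a (K₁ + j) t))) -
    ((lam * σ : ℝ) : ℂ) • cut (K₁ + j) (D (a (K₁ + j) t ^ 4)) with hR
  have cba : ∀ j, CB (Icc 0 T) (a (K₁ + j)) := fun j =>
    ⟨⟨K₁ + j, (hgal j).supp⟩, fun n t ht => ((hgal j).ode t ht n).continuousAt.continuousWithinAt⟩
  have cbD3 : ∀ j, CB (Icc 0 T) (fun t => D (D (D (a (K₁ + j) t)))) := fun j =>
    cb_D h1 (cb_D h1 (cb_D h1 (cba j)))
  have cbR : ∀ j, CB (Icc 0 T) (R j) := fun j =>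
    cb_neg_sub_smul (cbD3 j) (cb_cut h1 (cb_D h1 (cb_pow4 h1 (cba j))) (K₁ + j)) _
  have cbW : ∀ j, CB (Icc 0 T) (fun t => cut (K₁ + j) (a (K₁ + j) t ^ 4)) := fun j =>
    cb_cut h1 (cb_pow4 h1 (cba j)) (K₁ + j)
  have suppR : ∀ j, ∀ t ∈ Icc 0 T, Supp (K₁ + j) (R j t) := by
    intro j t ht
    have e1 : Supp (K₁ + j) (D (D (D (a (K₁ + j) t)))) :=
      h1.supp_D _ _ (h1.supp_D _ _ (h1.supp_D _ _ ((hgal j).supp t ht)))
    have e2 : Supp (K₁ + j) (((lam * σ : ℝ) : ℂ) • cut (K₁ + j) (D (a (K₁ + j) t ^ 4))) :=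
      h1.supp_smul _ _ _ (h1.supp_cut _ _)
    refine h1.supp_sub _ _ _ ?_ e2
    intro n hn
    rw [AddMonoidAlgebra.coeff_neg, Finsupp.neg_apply, e1 n hn, neg_zero]
  refine h4 σ (T / (N : ℝ) ^ 3)
    (fun j t x => dil c N (a (K₁ + j) (N ^ 3 * t)) x)
    (fun j t x => dil (c * N ^ 3) N (R j (N ^ 3 * t)) x)
    (fun j t x => dil (c * N ^ 3) N (D (D (D (a (K₁ + j) (N ^ 3 * t))))) x)
    (fun j t x => dil (c ^ 4) N (cut (K₁ + j) (a (K₁ + j) (N ^ 3 * t) ^ 4)) x)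
    (fun j t x => dil (c ^ 4 * N) N (D (cut (K₁ + j) (a (K₁ + j) (N ^ 3 * t) ^ 4))) x)
    u hT' ?_ ?_ ?_ ?_ ?_ ?_ ?_ ?_ ?_ ?_ ?_ ?_
  · intro j t ht x
    exact time_deriv h3 (hgal j).supp (suppR j) (hgal j).ode ((N : ℝ) ^ 3) hmem c N x ht
  · intro j t _
    exact ⟨contDiff_dil h3 3 _ _ _, fun x => iter3_dil h3 _ _ _ x⟩
  · intro j t _
    exact ⟨contDiff_dil h3 1 _ _ _, fun x => congrFun (deriv_dil h3 _ _ _) x⟩
  · intro j t _
    exact periodic_dil h3 _ _ _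
  · intro j t _
    exact periodic_dil h3 _ _ _
  · intro j
    exact cb_cont h3 (cb_comp (cba j) ((N : ℝ) ^ 3) hmem) c N
  · intro j
    exact cb_cont h3 (cb_comp (cbR j) ((N : ℝ) ^ 3) hmem) _ N
  · intro j
    exact cb_cont h3 (cb_comp (cbD3 j) ((N : ℝ) ^ 3) hmem) _ N
  · intro j
    exact cb_cont h3 (cb_comp (cbW j) ((N : ℝ) ^ 3) hmem) _ N
  · intro j
    exact cb_cont h3 (cb_comp (cb_D h1 (cbW j)) ((N : ℝ) ^ 3) hmem) _ N
  · intro j t ht x
    simp only [dil, hR]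
    rw [h1.D_cut]
    set A := D (D (D (a (K₁ + j) (N ^ 3 * t)))) with hA
    set B := cut (K₁ + j) (D (a (K₁ + j) (N ^ 3 * t) ^ 4)) with hB
    have e0 : -A - ((lam * σ : ℝ) : ℂ) • B = ((-1 : ℝ) : ℂ) • A - ((lam * σ : ℝ) : ℂ) • B := by
      simp
    rw [e0, h3.ev_sub, h3.ev_smul, h3.ev_smul, hlam]
    field_simp
    ring
  · intro ε hε
    obtain ⟨J, hJ, hJ'⟩ := hu ε hε
    refine ⟨J, fun j hj t ht x => ?_⟩
    exact hJ' (K₁ + j) (by omega) t ht x

end GKdV
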