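import Pool.Agent.Lib.MP_cb0de5_an.SpecC

/-!
# C2: the corrected approximate solution
-/

open MeasureTheory Filter Topology Set

noncomputable section

namespace GKdV

open LP

namespace ApproxExists

/-! ### Trigonometric polynomials with given coefficients -/

/-- the polynomial with coefficients `g n`, `n ∈ s` -/
def pol (s : Finset ℤ) (g : ℤ → ℂ) : LP := ∑ n ∈ s, AddMonoidAlgebra.single n (g n)

lemma pol_coeff (s : Finset ℤ) (g : ℤ → ℂ) (k : ℤ) :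
    (pol s g).coeff k = if k ∈ s then g k else 0 := by
  unfold pol
  rw [AddMonoidAlgebra.coeff_sum, Finsupp.finsetSum_apply]
  simp only [AddMonoidAlgebra.coeff_single, Finsupp.single_apply]
  rw [Finset.sum_ite_eq' s k g]

lemma supp_support {K : ℕ} {f : LP} (hf : Supp K f) :
    f.coeff.support ⊆ Finset.Icc (-(K : ℤ)) K := by
  intro n hn
  rw [Finsupp.mem_support_iff] at hn
  rw [Finset.mem_Icc, ← abs_le]
  by_contra h
  exact hn (hf n (not_le.mp h))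

lemma supp_D (h1 : AlgFacts) {K : ℕ} {f : LP} (hf : Supp K f) : Supp K (D f) := by
  intro n hn
  rw [h1.D_coeff, hf n hn, mul_zero]

lemma supp_add {K : ℕ} {f g : LP} (hf : Supp K f) (hg : Supp K g) : Supp K (f + g) := by
  intro n hn
  rw [AddMonoidAlgebra.coeff_add, Finsupp.add_apply, hf n hn, hg n hn, add_zero]

lemma supp_sub {K : ℕ} {f g : LP} (hf : Supp K f) (hg : Supp K g) : Supp K (f - g) := by
  intro n hn
  rw [AddMonoidAlgebra.coeff_sub, Finsupp.sub_apply, hf n hn, hg n hn, sub_zero]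

lemma supp_smul {K : ℕ} (c : ℂ) {f : LP} (hf : Supp K f) : Supp K (c • f) := by
  intro n hn
  rw [AddMonoidAlgebra.coeff_smul_apply, hf n hn, smul_zero]

lemma supp_mono {K K' : ℕ} (h : K ≤ K') {f : LP} (hf : Supp K f) : Supp K' f := by
  intro n hn
  apply hf n
  have : (K : ℤ) ≤ K' := by exact_mod_cast h
  omega

lemma supp_pow4 (h3 : Pow4Stmt) {K : ℕ} {f : LP} (hf : Supp K f) : Supp (4 * K) (f ^ 4) := by
  intro n hn
  rw [h3 (Finset.Icc (-(K : ℤ)) K) f ?_ n]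
  · apply Finset.sum_eq_zero
    intro p hp
    exfalso
    simp only [Finset.mem_filter, Finset.mem_product, Finset.mem_Icc] at hp
    obtain ⟨⟨⟨a1, a2⟩, ⟨b1, b2⟩, ⟨c1, c2⟩, d1, d2⟩, h⟩ := hp
    push_cast at hn
    rw [lt_abs] at hn
    omega
  · intro k hk
    apply hf k
    by_contra h
    apply hk
    rw [Finset.mem_Icc, ← abs_le]
    exact not_lt.mp h

lemma nA_pol_le (h2 : NormFacts) (s : Finset ℤ) (g : ℤ → ℂ) (c : ℝ) (hg : ∀ n ∈ s, ‖g n‖ ≤ c) :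
    nA (pol s g) ≤ s.card * c := by
  rw [h2.nA_eq (pol s g) s ?_]
  · calc ∑ n ∈ s, ‖(pol s g).coeff n‖ ≤ ∑ _n ∈ s, c := by
          apply Finset.sum_le_sum
          intro n hn
          rw [pol_coeff, if_pos hn]
          exact hg n hn
      _ = s.card * c := by rw [Finset.sum_const, nsmul_eq_mul]
  · intro k hk
    rw [Finsupp.mem_support_iff, pol_coeff] at hk
    by_contra h
    exact hk (if_neg h)

lemma nA_D_le (h1 : AlgFacts) (h2 : NormFacts) {K : ℕ} {f : LP} (hf : Supp K f) :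
    nA (D f) ≤ K * nA f := by
  rw [h2.nA_eq (D f) _ (supp_support (supp_D h1 hf)), h2.nA_eq f _ (supp_support hf),
    Finset.mul_sum]
  apply Finset.sum_le_sum
  intro n hn
  rw [h1.D_coeff, norm_mul, norm_mul, Complex.norm_I, one_mul, Complex.norm_intCast]
  apply mul_le_mul_of_nonneg_right _ (norm_nonneg _)
  rw [Finset.mem_Icc, ← abs_le] at hn
  exact_mod_cast hn

/-! ### Quadruples -/

/-- quadruples of frequencies -/
abbrev Q4 := ℤ × ℤ × ℤ × ℤ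

/-- all quadruples -/
def L4 (Λ : Finset ℤ) : Finset Q4 := Λ ×ˢ Λ ×ˢ Λ ×ˢ Λ

/-- quadruples with sum `n` -/
def Qd (Λ : Finset ℤ) (n : ℤ) : Finset Q4 :=
  (L4 Λ).filter (fun p => p.1 + p.2.1 + p.2.2.1 + p.2.2.2 = n)

/-- the modulation -/
def Om (n : ℤ) (p : Q4) : ℤ := p.1 ^ 3 + p.2.1 ^ 3 + p.2.2.1 ^ 3 + p.2.2.2 ^ 3 - n ^ 3

/-- the product -/
def Pr (a : ℤ → ℂ) (p : Q4) : ℂ := a p.1 * a p.2.1 * a p.2.2.1 * a p.2.2.2

/-- the derivative of the product -/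
def dPr (a a' : ℤ → ℂ) (p : Q4) : ℂ :=
  ((a' p.1 * a p.2.1 + a p.1 * a' p.2.1) * a p.2.2.1 + a p.1 * a p.2.1 * a' p.2.2.1) * a p.2.2.2 +
    a p.1 * a p.2.1 * a p.2.2.1 * a' p.2.2.2

/-- the resonant field -/
def dA (σ : ℝ) (Λ : Finset ℤ) (a : ℤ → ℂ) (n : ℤ) : ℂ :=
  -(Complex.I * σ * n) * ∑ p ∈ (Qd Λ n).filter (fun p => Om n p = 0), Pr a p

/-- the normal form correction with weights `G` -/
def Wg (σ : ℝ) (Λ : Finset ℤ) (G : Q4 → ℂ) (t : ℝ) (n : ℤ) : ℂ :=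
  -(σ * n : ℂ) * ∑ p ∈ (Qd Λ n).filter (fun p => ¬ Om n p = 0),
    Complex.exp (Complex.I * (Om n p : ℂ) * t) / (Om n p : ℂ) * G p

variable {σ S : ℝ} {Λ : Finset ℤ} {A : ℝ → ℤ → ℂ}

lemma mem_L4 {p : Q4} : p ∈ L4 Λ ↔ p.1 ∈ Λ ∧ p.2.1 ∈ Λ ∧ p.2.2.1 ∈ Λ ∧ p.2.2.2 ∈ Λ := by
  unfold L4
  simp only [Finset.mem_product]

lemma mem_Qd {n : ℤ} {p : Q4} : p ∈ Qd Λ n ↔
    (p.1 ∈ Λ ∧ p.2.1 ∈ Λ ∧ p.2.2.1 ∈ Λ ∧ p.2.2.2 ∈ Λ) ∧
      p.1 + p.2.1 + p.2.2.1 + p.2.2.2 = n := by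
  unfold Qd
  rw [Finset.mem_filter, mem_L4]

lemma Qd_empty {m : ℕ} (hm : ∀ n ∈ Λ, |n| ≤ (m : ℤ)) {n : ℤ} (hn : 4 * (m : ℤ) < |n|) :
    Qd Λ n = ∅ := by
  rw [Finset.eq_empty_iff_forall_notMem]
  intro p hp
  rw [mem_Qd] at hp
  obtain ⟨⟨ha, hb, hc, hd⟩, h⟩ := hp
  have h1 := abs_le.mp (hm _ ha)
  have h2 := abs_le.mp (hm _ hb)
  have h3 := abs_le.mp (hm _ hc)
  have h4 := abs_le.mp (hm _ hd)
  rw [lt_abs] at hn
  omega

lemma deriv_A (h : RSSol σ S Λ A) {s : ℝ} (hs : s ∈ Icc 0 S) (n : ℤ) :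
    HasDerivAt (fun τ => A τ n) (dA σ Λ (A s) n) s := by
  by_cases hn : n ∈ Λ
  · have h1 := h.deriv s hs n hn
    convert h1 using 1
    unfold dA
    congr 1
    apply Finset.sum_congr
    · unfold Qd L4
      rw [Finset.filter_filter]
      apply Finset.filter_congr
      intro p _
      unfold Om
      rw [sub_eq_zero]
    · intro p _
      rfl
  · have h1 : (fun τ => A τ n) = fun _ => (0 : ℂ) := by
      funext τ
      exact h.supp τ n hn
    have h2 : dA σ Λ (A s) n = 0 := by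
      unfold dA
      by_cases h0 : n = 0
      · rw [h0]
        simp
      · rw [Finset.sum_eq_zero, mul_zero]
        intro p hp
        exfalso
        rw [Finset.mem_filter, mem_Qd] at hp
        obtain ⟨⟨⟨ha, hb, hc, hd⟩, h3⟩, h4⟩ := hp
        unfold Om at h4
        rw [← h3] at h0 h4 hn
        exact hn (h.closed _ ha _ hb _ hc _ hd h0 (by linarith))
    rw [h1, h2]
    exact hasDerivAt_const _ _

lemma deriv_Al (h : RSSol σ S Λ A) {lam t : ℝ} (hs : lam * t ∈ Icc 0 S) (n : ℤ) :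
    HasDerivAt (fun τ => A (lam * τ) n) ((lam : ℂ) * dA σ Λ (A (lam * t)) n) t := by
  have h1 : HasDerivAt (fun τ : ℝ => lam * τ) lam t := by
    simpa using (hasDerivAt_id t).const_mul lam
  have h2 := HasDerivAt.scomp t (deriv_A h hs n) h1
  simpa [Function.comp_def] using h2

lemma deriv_Pr {a : ℝ → ℤ → ℂ} {a' : ℤ → ℂ} {t : ℝ}
    (h : ∀ n, HasDerivAt (fun τ => a τ n) (a' n) t) (p : Q4) :
    HasDerivAt (fun τ => Pr (a τ) p) (dPr (a t) a' p) t := by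
  unfold Pr dPr
  exact (((h _).mul (h _)).mul (h _)).mul (h _)

lemma dPr_mul (a a' : ℤ → ℂ) (c : ℂ) (p : Q4) :
    dPr a (fun n => c * a' n) p = c * dPr a a' p := by
  unfold dPr
  ring

lemma deriv_exp (c : ℂ) (t : ℝ) :
    HasDerivAt (fun τ : ℝ => Complex.exp (Complex.I * c * τ))
      (Complex.I * c * Complex.exp (Complex.I * c * t)) t := by
  have h1 : HasDerivAt (fun τ : ℝ => Complex.I * c * (τ : ℂ)) (Complex.I * c) t := by
    simpa using (Complex.ofRealCLM.hasDerivAt (x := t)).const_mul (Complex.I * c)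
  have h2 := h1.cexp
  rwa [mul_comm (Complex.exp _)] at h2

lemma deriv_W (h : RSSol σ S Λ A) {lam t : ℝ} (hs : lam * t ∈ Icc 0 S) (n : ℤ) :
    HasDerivAt (fun τ => Wg σ Λ (Pr (A (lam * τ))) τ n)
      (-(Complex.I * σ * n) * (∑ p ∈ (Qd Λ n).filter (fun p => ¬ Om n p = 0),
        Complex.exp (Complex.I * (Om n p : ℂ) * t) * Pr (A (lam * t)) p) +
        lam * Wg σ Λ (dPr (A (lam * t)) (dA σ Λ (A (lam * t)))) t n) t := by
  have h1 : HasDerivAt (fun τ => Wg σ Λ (Pr (A (lam * τ))) τ n)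
      (-(σ * n : ℂ) * ∑ p ∈ (Qd Λ n).filter (fun p => ¬ Om n p = 0),
        ((Complex.I * (Om n p : ℂ) * Complex.exp (Complex.I * (Om n p : ℂ) * t)) / (Om n p : ℂ) *
          Pr (A (lam * t)) p + Complex.exp (Complex.I * (Om n p : ℂ) * t) / (Om n p : ℂ) *
          ((lam : ℂ) * dPr (A (lam * t)) (dA σ Λ (A (lam * t))) p))) t := by
    unfold Wg
    apply HasDerivAt.const_mul
    apply HasDerivAt.fun_sum
    intro p _
    apply HasDerivAt.mul
    · exact (deriv_exp (Om n p : ℂ) t).div_const _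
    · have h2 := deriv_Pr (a := fun τ => A (lam * τ))
        (a' := fun n => (lam : ℂ) * dA σ Λ (A (lam * t)) n) (fun k => deriv_Al h hs k) p
      rw [dPr_mul] at h2
      exact h2
  convert h1 using 1
  unfold Wg
  rw [Finset.mul_sum, Finset.mul_sum, Finset.mul_sum, Finset.mul_sum, ← Finset.sum_add_distrib]
  apply Finset.sum_congr rfl
  intro p hp
  rw [Finset.mem_filter] at hp
  have h3 : (Om n p : ℂ) ≠ 0 := by exact_mod_cast hp.2
  field_simp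
  ring

/-! ### The approximate solution -/

/-- the correction -/
def Wp (σ : ℝ) (Λ : Finset ℤ) (m : ℕ) (G : Q4 → ℂ) (t : ℝ) : LP :=
  pol (Finset.Icc (-(4 * m : ℤ)) (4 * m)) fun n =>
    Complex.exp (Complex.I * (n : ℂ) ^ 3 * t) * Wg σ Λ G t n

lemma Wp_coeff {m : ℕ} (hm : ∀ n ∈ Λ, |n| ≤ (m : ℤ)) (G : Q4 → ℂ) (t : ℝ) (n : ℤ) :
    (Wp σ Λ m G t).coeff n = Complex.exp (Complex.I * (n : ℂ) ^ 3 * t) * Wg σ Λ G t n := by
  unfold Wp
  rw [pol_coeff]
  split_ifs with h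
  · rfl
  · have h1 : 4 * (m : ℤ) < |n| := by
      by_contra h2
      apply h
      rw [Finset.mem_Icc, ← abs_le]
      exact not_lt.mp h2
    unfold Wg
    rw [Qd_empty hm h1]
    simp

lemma Aph_coeff (h : RSSol σ S Λ A) (lam t : ℝ) (n : ℤ) :
    (Aph Λ A lam t).coeff n = Complex.exp (Complex.I * (n : ℂ) ^ 3 * t) * A (lam * t) n := by
  have h1 : Aph Λ A lam t = pol Λ fun n =>
      Complex.exp (Complex.I * (n : ℂ) ^ 3 * t) * A (lam * t) n := rfl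
  rw [h1, pol_coeff]
  split_ifs with h2
  · rfl
  · rw [h.supp _ _ h2, mul_zero]

/-- the approximate solution -/
def bb (σ : ℝ) (Λ : Finset ℤ) (A : ℝ → ℤ → ℂ) (m : ℕ) (lam t : ℝ) : LP :=
  Aph Λ A lam t + (lam : ℂ) • Wp σ Λ m (Pr (A (lam * t))) t

/-- the residual -/
def rr (σ : ℝ) (Λ : Finset ℤ) (A : ℝ → ℤ → ℂ) (m : ℕ) (lam t : ℝ) : LP :=
  ((lam * σ : ℝ) : ℂ) • D (bb σ Λ A m lam t ^ 4 - Aph Λ A lam t ^ 4) +
    ((lam ^ 2 : ℝ) : ℂ) • Wp σ Λ m (dPr (A (lam * t)) (dA σ Λ (A (lam * t)))) t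

lemma bb_coeff (h : RSSol σ S Λ A) {m : ℕ} (hm : ∀ n ∈ Λ, |n| ≤ (m : ℤ)) (lam t : ℝ) (n : ℤ) :
    (bb σ Λ A m lam t).coeff n = Complex.exp (Complex.I * (n : ℂ) ^ 3 * t) *
      (A (lam * t) n + lam * Wg σ Λ (Pr (A (lam * t))) t n) := by
  unfold bb
  rw [AddMonoidAlgebra.coeff_add, Finsupp.add_apply, Aph_coeff h,
    AddMonoidAlgebra.coeff_smul_apply, Wp_coeff hm, smul_eq_mul]
  ring

lemma Aph_pow (h3 : Pow4Stmt) (h : RSSol σ S Λ A) (lam t : ℝ) (n : ℤ) :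
    (Aph Λ A lam t ^ 4).coeff n = ∑ p ∈ Qd Λ n,
      Complex.exp (Complex.I * ((n : ℂ) ^ 3) * t) *
        (Complex.exp (Complex.I * (Om n p : ℂ) * t) * Pr (A (lam * t)) p) := by
  rw [h3 Λ (Aph Λ A lam t) ?_ n]
  · apply Finset.sum_congr rfl
    intro p _
    rw [Aph_coeff h, Aph_coeff h, Aph_coeff h, Aph_coeff h]
    unfold Pr Om
    have e : Complex.exp (Complex.I * ((n : ℂ) ^ 3) * t) *
        Complex.exp (Complex.I * ((p.1 ^ 3 + p.2.1 ^ 3 + p.2.2.1 ^ 3 + p.2.2.2 ^ 3 - n ^ 3 : ℤ) : ℂ)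
          * t) = Complex.exp (Complex.I * (p.1 : ℂ) ^ 3 * t) *
            Complex.exp (Complex.I * (p.2.1 : ℂ) ^ 3 * t) *
            Complex.exp (Complex.I * (p.2.2.1 : ℂ) ^ 3 * t) *
            Complex.exp (Complex.I * (p.2.2.2 : ℂ) ^ 3 * t) := by
      rw [← Complex.exp_add, ← Complex.exp_add, ← Complex.exp_add, ← Complex.exp_add]
      congr 1
      push_cast
      ring
    linear_combination (-(A (lam * t) p.1 * A (lam * t) p.2.1 * A (lam * t) p.2.2.1 *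
      A (lam * t) p.2.2.2)) * e
  · intro k hk
    rw [Aph_coeff h, h.supp _ _ hk, mul_zero]

lemma ode (h1 : AlgFacts) (h3 : Pow4Stmt) (h : RSSol σ S Λ A) {m : ℕ}
    (hm : ∀ n ∈ Λ, |n| ≤ (m : ℤ)) {lam t : ℝ} (hs : lam * t ∈ Icc 0 S) (n : ℤ) :
    HasDerivAt (fun τ => (bb σ Λ A m lam τ).coeff n)
      ((-D (D (D (bb σ Λ A m lam t))) - ((lam * σ : ℝ) : ℂ) • D (bb σ Λ A m lam t ^ 4) +
        rr σ Λ A m lam t).coeff n) t := by
  have e1 : (fun τ => (bb σ Λ A m lam τ).coeff n) = fun τ : ℝ =>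
      Complex.exp (Complex.I * (n : ℂ) ^ 3 * τ) *
      (A (lam * τ) n + lam * Wg σ Λ (Pr (A (lam * τ))) τ n) := by
    funext τ
    exact bb_coeff h hm lam τ n
  rw [e1]
  have h4 := (deriv_exp ((n : ℂ) ^ 3) t).fun_mul
    ((deriv_Al h hs n).fun_add ((deriv_W h hs n).const_mul (lam : ℂ)))
  refine h4.congr_deriv ?_
  symm
  unfold rr
  rw [h1.D_sub, AddMonoidAlgebra.coeff_add, Finsupp.add_apply, AddMonoidAlgebra.coeff_add,
    Finsupp.add_apply, AddMonoidAlgebra.coeff_sub, Finsupp.sub_apply, AddMonoidAlgebra.coeff_neg,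
    Finsupp.neg_apply, AddMonoidAlgebra.coeff_smul_apply, AddMonoidAlgebra.coeff_smul_apply,
    AddMonoidAlgebra.coeff_smul_apply, AddMonoidAlgebra.coeff_sub, Finsupp.sub_apply,
    h1.D_coeff, h1.D_coeff, h1.D_coeff, h1.D_coeff, h1.D_coeff, Aph_pow h3 h,
    bb_coeff h hm, Wp_coeff hm]
  simp only [smul_eq_mul]
  have e2 : ∑ p ∈ Qd Λ n, Complex.exp (Complex.I * ((n : ℂ) ^ 3) * t) *
        (Complex.exp (Complex.I * (Om n p : ℂ) * t) * Pr (A (lam * t)) p) =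
      Complex.exp (Complex.I * ((n : ℂ) ^ 3) * t) *
        (∑ p ∈ (Qd Λ n).filter (fun p => Om n p = 0), Pr (A (lam * t)) p +
          ∑ p ∈ (Qd Λ n).filter (fun p => ¬ Om n p = 0),
            Complex.exp (Complex.I * (Om n p : ℂ) * t) * Pr (A (lam * t)) p) := by
    rw [← Finset.mul_sum, ← Finset.sum_filter_add_sum_filter_not (Qd Λ n) (fun p => Om n p = 0)]
    congr 2
    apply Finset.sum_congr rfl
    intro p hp
    rw [Finset.mem_filter] at hp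
    rw [hp.2]
    simp
  rw [e2]
  unfold dA
  have e3 : Complex.I ^ 3 = -Complex.I := Complex.I_pow_three
  push_cast
  ring_nf
  rw [e3]
  ring

/-! ### Reality -/

lemma exp_conj (c t : ℝ) : (starRingEnd ℂ) (Complex.exp (Complex.I * (c : ℂ) * t)) =
    Complex.exp (Complex.I * ((-c : ℝ) : ℂ) * t) := by
  rw [← Complex.exp_conj]
  congr 1
  rw [map_mul, map_mul, Complex.conj_I, Complex.conj_ofReal, Complex.conj_ofReal]
  push_cast
  ring

lemma Wg_conj (hs : ∀ n ∈ Λ, -n ∈ Λ) (G : Q4 → ℂ) (hG : ∀ p, G (-p) = (starRingEnd ℂ) (G p))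
    (t : ℝ) (n : ℤ) : Wg σ Λ G t (-n) = (starRingEnd ℂ) (Wg σ Λ G t n) := by
  have hsub : ∀ p : Q4, p.1 ∈ Λ ∧ p.2.1 ∈ Λ ∧ p.2.2.1 ∈ Λ ∧ p.2.2.2 ∈ Λ →
      (-p).1 ∈ Λ ∧ (-p).2.1 ∈ Λ ∧ (-p).2.2.1 ∈ Λ ∧ (-p).2.2.2 ∈ Λ := fun p hp =>
    ⟨hs _ hp.1, hs _ hp.2.1, hs _ hp.2.2.1, hs _ hp.2.2.2⟩
  have hOm : ∀ (n : ℤ) (p : Q4), Om (-n) (-p) = -Om n p := by
    intro n p
    unfold Om
    simp only [Prod.fst_neg, Prod.snd_neg]
    ring
  have hmem : ∀ (n : ℤ) (p : Q4), p ∈ (Qd Λ n).filter (fun p => ¬ Om n p = 0) →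
      -p ∈ (Qd Λ (-n)).filter (fun p => ¬ Om (-n) p = 0) := by
    intro n p hp
    rw [Finset.mem_filter, mem_Qd] at hp ⊢
    obtain ⟨⟨h1, h2⟩, h3⟩ := hp
    refine ⟨⟨hsub p h1, ?_⟩, ?_⟩
    · rw [← h2]
      simp only [Prod.fst_neg, Prod.snd_neg]
      ring
    · rw [hOm, neg_eq_zero]
      exact h3
  have h1 : ∑ p ∈ (Qd Λ (-n)).filter (fun p => ¬ Om (-n) p = 0),
      Complex.exp (Complex.I * (Om (-n) p : ℂ) * t) / (Om (-n) p : ℂ) * G p =
      ∑ p ∈ (Qd Λ n).filter (fun p => ¬ Om n p = 0),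
        -(starRingEnd ℂ) (Complex.exp (Complex.I * (Om n p : ℂ) * t) / (Om n p : ℂ) * G p) := by
    symm
    refine Finset.sum_nbij' (fun p => -p) (fun p => -p) ?_ ?_ ?_ ?_ ?_
    · intro p hp
      exact hmem n p hp
    · intro p hp
      have := hmem (-n) p hp
      rwa [neg_neg] at this
    · intro p _
      exact neg_neg p
    · intro p _
      exact neg_neg p
    · intro p _
      rw [hOm, hG, map_mul, map_div₀]
      have e := exp_conj (Om n p : ℝ) t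
      have e1 : (((Om n p : ℤ) : ℝ) : ℂ) = ((Om n p : ℤ) : ℂ) := by push_cast; rfl
      rw [e1] at e
      rw [e]
      have e2 : (starRingEnd ℂ) ((Om n p : ℤ) : ℂ) = ((Om n p : ℤ) : ℂ) := by
        rw [← e1, Complex.conj_ofReal]
      rw [e2]
      push_cast
      rw [div_neg]
      ring
  unfold Wg
  rw [h1, Finset.sum_neg_distrib, ← map_sum, map_mul]
  have e3 : (starRingEnd ℂ) (-(σ * n : ℂ)) = -(σ * n : ℂ) := by
    rw [map_neg, map_mul, Complex.conj_ofReal]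
    congr 2
    exact Complex.conj_ofReal n
  rw [e3]
  push_cast
  ring

lemma Pr_conj (h : RSSol σ S Λ A) (s : ℝ) (p : Q4) :
    Pr (A s) (-p) = (starRingEnd ℂ) (Pr (A s) p) := by
  unfold Pr
  simp only [Prod.fst_neg, Prod.snd_neg, h.real, map_mul]

lemma bb_real (h : RSSol σ S Λ A) {m : ℕ} (hm : ∀ n ∈ Λ, |n| ≤ (m : ℤ)) (lam t : ℝ) :
    IsReal (bb σ Λ A m lam t) := by
  intro n
  rw [bb_coeff h hm, bb_coeff h hm, map_mul, map_add, map_mul, Complex.conj_ofReal,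
    Wg_conj h.symm _ (Pr_conj h _), h.real]
  congr 1
  have e := exp_conj ((n : ℝ) ^ 3) t
  have e1 : (((n : ℝ) ^ 3 : ℝ) : ℂ) = (n : ℂ) ^ 3 := by push_cast; rfl
  rw [e1] at e
  rw [e]
  congr 3
  push_cast
  ring

lemma bb_mz (h : RSSol σ S Λ A) {m : ℕ} (hm : ∀ n ∈ Λ, |n| ≤ (m : ℤ)) (lam t : ℝ) :
    MZ (bb σ Λ A m lam t) := by
  show (bb σ Λ A m lam t).coeff 0 = 0
  rw [bb_coeff h hm, h.supp _ _ h.zero_notMem]
  unfold Wg
  simp

lemma Wp_supp {m : ℕ} (G : Q4 → ℂ) (t : ℝ) : Supp (4 * m) (Wp σ Λ m G t) := by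
  intro n hn
  unfold Wp
  rw [pol_coeff, if_neg]
  intro h
  rw [Finset.mem_Icc, ← abs_le] at h
  push_cast at hn
  omega

lemma Aph_supp (h : RSSol σ S Λ A) {m : ℕ} (hm : ∀ n ∈ Λ, |n| ≤ (m : ℤ)) (lam t : ℝ) :
    Supp (4 * m) (Aph Λ A lam t) := by
  intro n hn
  rw [Aph_coeff h, h.supp, mul_zero]
  intro h1
  have := hm n h1
  push_cast at hn
  omega

lemma bb_supp (h : RSSol σ S Λ A) {m : ℕ} (hm : ∀ n ∈ Λ, |n| ≤ (m : ℤ)) (lam t : ℝ) :
    Supp (4 * m) (bb σ Λ A m lam t) :=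
  supp_add (Aph_supp h hm lam t) (supp_smul _ (Wp_supp _ _))

/-! ### Bounds -/

lemma norm_exp' (c t : ℝ) : ‖Complex.exp (Complex.I * (c : ℂ) * t)‖ = 1 := by
  have : Complex.I * (c : ℂ) * t = ((c * t : ℝ) : ℂ) * Complex.I := by push_cast; ring
  rw [this, Complex.norm_exp_ofReal_mul_I]

lemma norm_Wg {G : Q4 → ℂ} {c : ℝ} (hG : ∀ p ∈ L4 Λ, ‖G p‖ ≤ c) (hc : 0 ≤ c) (t : ℝ) (n : ℤ) :
    ‖Wg σ Λ G t n‖ ≤ |σ| * |(n : ℝ)| * ((L4 Λ).card * c) := by
  unfold Wg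
  rw [norm_mul, norm_neg, norm_mul, Complex.norm_real, Complex.norm_intCast, Real.norm_eq_abs]
  apply mul_le_mul_of_nonneg_left _ (by positivity)
  calc ‖∑ p ∈ (Qd Λ n).filter (fun p => ¬ Om n p = 0),
        Complex.exp (Complex.I * (Om n p : ℂ) * t) / (Om n p : ℂ) * G p‖
      ≤ ∑ _p ∈ (Qd Λ n).filter (fun p => ¬ Om n p = 0), c := by
        apply norm_sum_le_of_le
        intro p hp
        rw [Finset.mem_filter] at hp
        have h1 : p ∈ L4 Λ := mem_L4.mpr (mem_Qd.mp hp.1).1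
        rw [norm_mul, norm_div]
        have e := norm_exp' (Om n p : ℝ) t
        have e1 : (((Om n p : ℤ) : ℝ) : ℂ) = ((Om n p : ℤ) : ℂ) := by push_cast; rfl
        rw [e1] at e
        rw [e, Complex.norm_intCast]
        have h2 : (1 : ℝ) ≤ |((Om n p : ℤ) : ℝ)| := by
          have : 1 ≤ |Om n p| := Int.one_le_abs hp.2
          exact_mod_cast this
        have h3 : 1 / |((Om n p : ℤ) : ℝ)| ≤ 1 := by
          rw [div_le_one (by linarith)]
          exact h2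
        calc 1 / |((Om n p : ℤ) : ℝ)| * ‖G p‖ ≤ 1 * c :=
              mul_le_mul h3 (hG p h1) (norm_nonneg _) zero_le_one
          _ = c := one_mul c
    _ = ((Qd Λ n).filter (fun p => ¬ Om n p = 0)).card * c := by
        rw [Finset.sum_const, nsmul_eq_mul]
    _ ≤ (L4 Λ).card * c := by
        apply mul_le_mul_of_nonneg_right _ hc
        have : ((Qd Λ n).filter (fun p => ¬ Om n p = 0)).card ≤ (L4 Λ).card := by
          apply Finset.card_le_card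
          intro p hp
          rw [Finset.mem_filter] at hp
          exact mem_L4.mpr (mem_Qd.mp hp.1).1
        exact_mod_cast this

lemma nA_Wp (h2 : NormFacts) {m : ℕ} {G : Q4 → ℂ} {c : ℝ} (hG : ∀ p ∈ L4 Λ, ‖G p‖ ≤ c)
    (hc : 0 ≤ c) (t : ℝ) : nA (Wp σ Λ m G t) ≤ (Finset.Icc (-(4 * m : ℤ)) (4 * m)).card *
      (|σ| * (4 * m) * ((L4 Λ).card * c)) := by
  apply nA_pol_le h2
  intro n hn
  rw [norm_mul]
  have e := norm_exp' ((n : ℝ) ^ 3) t
  have e1 : (((n : ℝ) ^ 3 : ℝ) : ℂ) = (n : ℂ) ^ 3 := by push_cast; rfl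
  rw [e1] at e
  rw [e, one_mul]
  refine (norm_Wg hG hc t n).trans ?_
  have h3 : |(n : ℝ)| ≤ 4 * m := by
    rw [Finset.mem_Icc, ← abs_le] at hn
    exact_mod_cast hn
  gcongr

lemma norm_Pr {a : ℤ → ℂ} {M : ℝ} (hM : ∀ n, ‖a n‖ ≤ M) (p : Q4) :
    ‖Pr a p‖ ≤ M ^ 4 := by
  have hM0 : 0 ≤ M := (norm_nonneg _).trans (hM 0)
  unfold Pr
  rw [norm_mul, norm_mul, norm_mul]
  calc ‖a p.1‖ * ‖a p.2.1‖ * ‖a p.2.2.1‖ * ‖a p.2.2.2‖ ≤ M * M * M * M := by
        gcongr <;> exact hM _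
    _ = M ^ 4 := by ring

lemma norm_dA {a : ℤ → ℂ} {M : ℝ} (hM : ∀ n, ‖a n‖ ≤ M) {m : ℕ} {n : ℤ}
    (hn : |n| ≤ (m : ℤ)) : ‖dA σ Λ a n‖ ≤ |σ| * m * ((L4 Λ).card * M ^ 4) := by
  have hM0 : 0 ≤ M := (norm_nonneg _).trans (hM 0)
  unfold dA
  rw [norm_mul, norm_neg, norm_mul, norm_mul, Complex.norm_I, one_mul, Complex.norm_real,
    Complex.norm_intCast, Real.norm_eq_abs]
  have h3 : |(n : ℝ)| ≤ m := by exact_mod_cast hn
  have h4 : ‖∑ p ∈ (Qd Λ n).filter (fun p => Om n p = 0), Pr a p‖ ≤ (L4 Λ).card * M ^ 4 := by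
    calc ‖∑ p ∈ (Qd Λ n).filter (fun p => Om n p = 0), Pr a p‖
        ≤ ∑ _p ∈ (Qd Λ n).filter (fun p => Om n p = 0), M ^ 4 :=
          norm_sum_le_of_le _ fun p _ => norm_Pr hM p
      _ = ((Qd Λ n).filter (fun p => Om n p = 0)).card * M ^ 4 := by
          rw [Finset.sum_const, nsmul_eq_mul]
      _ ≤ (L4 Λ).card * M ^ 4 := by
          apply mul_le_mul_of_nonneg_right _ (by positivity)
          have : ((Qd Λ n).filter (fun p => Om n p = 0)).card ≤ (L4 Λ).card := by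
            apply Finset.card_le_card
            intro p hp
            rw [Finset.mem_filter] at hp
            exact mem_L4.mpr (mem_Qd.mp hp.1).1
          exact_mod_cast this
  gcongr

lemma norm_dPr {a a' : ℤ → ℂ} {M M1 : ℝ} (hM : ∀ n, ‖a n‖ ≤ M)
    (hM1 : ∀ n ∈ Λ, ‖a' n‖ ≤ M1) (hM10 : 0 ≤ M1) {p : Q4} (hp : p ∈ L4 Λ) :
    ‖dPr a a' p‖ ≤ 4 * (M1 * M ^ 3) := by
  have hM0 : 0 ≤ M := (norm_nonneg _).trans (hM 0)
  obtain ⟨ha, hb, hc, hd⟩ := mem_L4.mp hp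
  have e : dPr a a' p = a' p.1 * a p.2.1 * a p.2.2.1 * a p.2.2.2 +
      a p.1 * a' p.2.1 * a p.2.2.1 * a p.2.2.2 + a p.1 * a p.2.1 * a' p.2.2.1 * a p.2.2.2 +
      a p.1 * a p.2.1 * a p.2.2.1 * a' p.2.2.2 := by
    unfold dPr
    ring
  rw [e]
  have k1 : ‖a' p.1 * a p.2.1 * a p.2.2.1 * a p.2.2.2‖ ≤ M1 * M * M * M := by
    rw [norm_mul, norm_mul, norm_mul]
    gcongr
    · exact hM1 _ ha
    · exact hM _
    · exact hM _
    · exact hM _
  have k2 : ‖a p.1 * a' p.2.1 * a p.2.2.1 * a p.2.2.2‖ ≤ M * M1 * M * M := by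
    rw [norm_mul, norm_mul, norm_mul]
    gcongr
    · exact hM _
    · exact hM1 _ hb
    · exact hM _
    · exact hM _
  have k3 : ‖a p.1 * a p.2.1 * a' p.2.2.1 * a p.2.2.2‖ ≤ M * M * M1 * M := by
    rw [norm_mul, norm_mul, norm_mul]
    gcongr
    · exact hM _
    · exact hM _
    · exact hM1 _ hc
    · exact hM _
  have k4 : ‖a p.1 * a p.2.1 * a p.2.2.1 * a' p.2.2.2‖ ≤ M * M * M * M1 := by
    rw [norm_mul, norm_mul, norm_mul]
    gcongr
    · exact hM _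
    · exact hM _
    · exact hM _
    · exact hM1 _ hd
  refine (norm_add_le_of_le (norm_add_le_of_le (norm_add_le_of_le k1 k2) k3) k4).trans
    (le_of_eq ?_)
  ring

/-- bound for the fourth powers -/
lemma pow4_sub (h2 : NormFacts) {a b : LP} {c d : ℝ} (ha : nA a ≤ c) (hb : nA b ≤ c)
    (hd : nA (b - a) ≤ d) : nA (b ^ 4 - a ^ 4) ≤ d * (4 * c ^ 3) := by
  have hc : 0 ≤ c := (h2.nA_nonneg a).trans ha
  have hd0 : 0 ≤ d := (h2.nA_nonneg _).trans hd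
  have e : b ^ 4 - a ^ 4 = (b - a) * (b * (b * b) + b * (b * a) + b * (a * a) + a * (a * a)) := by
    ring
  have k : ∀ x y z : LP, nA x ≤ c → nA y ≤ c → nA z ≤ c → nA (x * (y * z)) ≤ c * (c * c) := by
    intro x y z hx hy hz
    refine (h2.nA_mul _ _).trans ?_
    apply mul_le_mul hx _ (h2.nA_nonneg _) hc
    refine (h2.nA_mul _ _).trans ?_
    exact mul_le_mul hy hz (h2.nA_nonneg _) hc
  rw [e]
  refine (h2.nA_mul _ _).trans ?_
  apply mul_le_mul hd _ (h2.nA_nonneg _) hd0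
  have k1 := k b b b hb hb hb
  have k2 := k b b a hb hb ha
  have k3 := k b a a hb ha ha
  have k4 := k a a a ha ha ha
  have j1 := h2.nA_add (b * (b * b) + b * (b * a) + b * (a * a)) (a * (a * a))
  have j2 := h2.nA_add (b * (b * b) + b * (b * a)) (b * (a * a))
  have j3 := h2.nA_add (b * (b * b)) (b * (b * a))
  have e2 : c * (c * c) = c ^ 3 := by ring
  rw [e2] at k1 k2 k3 k4
  linarith

lemma exists_bound (h : RSSol σ S Λ A) : ∃ M : ℝ, 0 ≤ M ∧ ∀ s ∈ Icc 0 S, ∀ n, ‖A s n‖ ≤ M := by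
  have h1 : ∀ n : ℤ, ∃ M : ℝ, 0 ≤ M ∧ ∀ s ∈ Icc 0 S, ‖A s n‖ ≤ M := by
    intro n
    have hc : ContinuousOn (fun s => A s n) (Icc 0 S) := fun s hs =>
      (deriv_A h hs n).continuousAt.continuousWithinAt
    obtain ⟨M, hM⟩ := isCompact_Icc.exists_bound_of_continuousOn hc
    exact ⟨max M 0, le_max_right _ _, fun s hs => (hM s hs).trans (le_max_left _ _)⟩
  choose M hM0 hM using h1
  refine ⟨∑ n ∈ Λ, M n, Finset.sum_nonneg fun n _ => hM0 n, fun s hs n => ?_⟩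
  by_cases hn : n ∈ Λ
  · exact (hM n s hs).trans (Finset.single_le_sum (f := M) (fun k _ => hM0 k) hn)
  · rw [h.supp _ _ hn, norm_zero]
    exact Finset.sum_nonneg fun n _ => hM0 n

lemma exists_m (Λ : Finset ℤ) : ∃ m : ℕ, ∀ n ∈ Λ, |n| ≤ (m : ℤ) := by
  refine ⟨∑ n ∈ Λ, n.natAbs, fun n hn => ?_⟩
  have h1 : n.natAbs ≤ ∑ n ∈ Λ, n.natAbs :=
    Finset.single_le_sum (f := fun n : ℤ => n.natAbs) (fun _ _ => Nat.zero_le _) hn
  rw [Int.abs_eq_natAbs]
  exact_mod_cast h1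

end ApproxExists

open ApproxExists in
theorem approxExistsStmt (h1 : AlgFacts) (h2 : NormFacts) (h3 : Pow4Stmt) :
    ApproxExistsStmt := by
  intro σ S Λ A hS h
  obtain ⟨m, hm⟩ := exists_m Λ
  obtain ⟨M, hM0, hM⟩ := exists_bound h
  -- constants
  set N : ℝ := ((L4 Λ).card : ℝ) with hN
  set M1 : ℝ := |σ| * m * (N * M ^ 4) with hM1
  set J : ℝ := ((Finset.Icc (-(4 * m : ℤ)) (4 * m)).card : ℝ) with hJ
  set CA : ℝ := (Λ.card : ℝ) * M with hCA
  set CW : ℝ := J * (|σ| * (4 * m) * (N * M ^ 4)) with hCW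
  set CE : ℝ := J * (|σ| * (4 * m) * (N * (4 * (M1 * M ^ 3)))) with hCE
  set CB : ℝ := CA + CW with hCB
  have hN0 : 0 ≤ N := Nat.cast_nonneg _
  have hJ0 : 0 ≤ J := Nat.cast_nonneg _
  have hM10 : 0 ≤ M1 := by positivity
  have hCA0 : 0 ≤ CA := by positivity
  have hCW0 : 0 ≤ CW := by positivity
  have hCE0 : 0 ≤ CE := by positivity
  have hCB0 : 0 ≤ CB := by positivity
  set L : ℕ := 4 * (4 * m) with hL
  have hL0 : (0 : ℝ) ≤ L := Nat.cast_nonneg _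
  have hDn : ∀ f : LP, Supp L f → nA (D f) ≤ L * nA f := fun f hf => nA_D_le h1 h2 hf
  refine ⟨L, (L + 1) ^ 3 * CB + 1,
    (L : ℝ) ^ 2 * (|σ| * (L * (CW * (4 * CB ^ 3))) + CE) + (L : ℝ) ^ 2 * CW + 1,
    by positivity, by positivity, fun lam hl hl1 =>
      ⟨bb σ Λ A m lam, rr σ Λ A m lam, ?_, ?_⟩⟩
  all_goals
    have hst : ∀ t ∈ Icc 0 (S / lam), lam * t ∈ Icc 0 S := by
      intro t ht
      refine ⟨mul_nonneg hl.le ht.1, ?_⟩
      have := ht.2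
      rw [le_div_iff₀ hl] at this
      linarith
    have bA : ∀ t ∈ Icc 0 (S / lam), nA (Aph Λ A lam t) ≤ CA := by
      intro t ht
      apply nA_pol_le h2 Λ
      intro n _
      rw [norm_mul]
      have e := norm_exp' ((n : ℝ) ^ 3) t
      have e1 : (((n : ℝ) ^ 3 : ℝ) : ℂ) = (n : ℂ) ^ 3 := by push_cast; rfl
      rw [e1] at e
      rw [e, one_mul]
      exact hM _ (hst t ht) n
    have bW : ∀ t ∈ Icc 0 (S / lam), nA (Wp σ Λ m (Pr (A (lam * t))) t) ≤ CW := by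
      intro t ht
      exact nA_Wp h2 (fun p _ => norm_Pr (hM _ (hst t ht)) p) (by positivity) t
    have bE : ∀ t ∈ Icc 0 (S / lam),
        nA (Wp σ Λ m (dPr (A (lam * t)) (dA σ Λ (A (lam * t)))) t) ≤ CE := by
      intro t ht
      refine nA_Wp h2 (fun p hp => norm_dPr (hM _ (hst t ht)) (fun n hn => ?_) hM10 hp)
        (by positivity) t
      exact norm_dA (hM _ (hst t ht)) (hm n hn)
    have e0 : ∀ t, bb σ Λ A m lam t - Aph Λ A lam t =
        (lam : ℂ) • Wp σ Λ m (Pr (A (lam * t))) t := by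
      intro t
      unfold bb
      rw [add_sub_cancel_left]
    have bd : ∀ t ∈ Icc 0 (S / lam), nA (bb σ Λ A m lam t - Aph Λ A lam t) ≤ lam * CW := by
      intro t ht
      rw [e0, h2.nA_smul, Complex.norm_real, Real.norm_eq_abs, abs_of_pos hl]
      exact mul_le_mul_of_nonneg_left (bW t ht) hl.le
    have bB : ∀ t ∈ Icc 0 (S / lam), nA (bb σ Λ A m lam t) ≤ CB := by
      intro t ht
      have k1 : bb σ Λ A m lam t = Aph Λ A lam t + (bb σ Λ A m lam t - Aph Λ A lam t) := by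
        rw [add_sub_cancel]
      rw [k1]
      refine (h2.nA_add _ _).trans ?_
      have k2 := bd t ht
      have k3 : lam * CW ≤ 1 * CW := mul_le_mul_of_nonneg_right hl1 hCW0
      have k4 := bA t ht
      linarith
    have sB : ∀ t, Supp L (bb σ Λ A m lam t) := fun t =>
      supp_mono (by omega) (bb_supp h hm lam t)
    have sA : ∀ t, Supp (4 * m) (Aph Λ A lam t) := fun t => Aph_supp h hm lam t
    have s4 : ∀ t, Supp L (bb σ Λ A m lam t ^ 4 - Aph Λ A lam t ^ 4) := fun t =>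
      supp_sub (supp_pow4 h3 (bb_supp h hm lam t)) (supp_pow4 h3 (sA t))
    have sE : ∀ t, Supp L (Wp σ Λ m (dPr (A (lam * t)) (dA σ Λ (A (lam * t)))) t) := fun t =>
      supp_mono (by omega) (Wp_supp _ _)
    have sR : ∀ t, Supp L (rr σ Λ A m lam t) := fun t =>
      supp_add (supp_smul _ (supp_D h1 (s4 t))) (supp_smul _ (sE t))
  · have hL1 : (1 : ℝ) ≤ L + 1 := by linarith
    have hpow : ∀ k : ℕ, k ≤ 3 → (L : ℝ) ^ k * CB ≤ (L + 1) ^ 3 * CB + 1 := by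
      intro k hk
      have k1 : (L : ℝ) ^ k ≤ (L + 1) ^ 3 :=
        (pow_le_pow_left₀ hL0 (by linarith) k).trans (pow_le_pow_right₀ hL1 hk)
      have k2 := mul_le_mul_of_nonneg_right k1 hCB0
      linarith
    have d1 : ∀ t ∈ Icc 0 (S / lam), nA (D (bb σ Λ A m lam t)) ≤ L ^ 1 * CB := by
      intro t ht
      have k1 := hDn _ (sB t)
      have k2 := mul_le_mul_of_nonneg_left (bB t ht) hL0
      rw [pow_one]
      linarith
    have d2 : ∀ t ∈ Icc 0 (S / lam), nA (D (D (bb σ Λ A m lam t))) ≤ L ^ 2 * CB := by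
      intro t ht
      have k1 := hDn _ (supp_D h1 (sB t))
      have k2 := mul_le_mul_of_nonneg_left (d1 t ht) hL0
      have k3 : (L : ℝ) * (L ^ 1 * CB) = L ^ 2 * CB := by ring
      linarith
    have d3 : ∀ t ∈ Icc 0 (S / lam), nA (D (D (D (bb σ Λ A m lam t)))) ≤ L ^ 3 * CB := by
      intro t ht
      have k1 := hDn _ (supp_D h1 (supp_D h1 (sB t)))
      have k2 := mul_le_mul_of_nonneg_left (d2 t ht) hL0
      have k3 : (L : ℝ) * (L ^ 2 * CB) = L ^ 3 * CB := by ring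
      linarith
    refine ⟨fun t _ => bb_real h hm lam t, fun t _ => bb_mz h hm lam t, fun t _ => sB t,
      fun t _ => sR t, fun t ht => ?_, fun t ht => (d1 t ht).trans (hpow 1 (by norm_num)),
      fun t ht => (d2 t ht).trans (hpow 2 (by norm_num)),
      fun t ht => (d3 t ht).trans (hpow 3 le_rfl), fun t ht => ?_,
      fun t ht n => ode h1 h3 h hm (hst t ht) n⟩
    · have := hpow 0 (by norm_num)
      rw [pow_zero, one_mul] at this
      exact (bB t ht).trans this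
    · -- the residual
      have k1 : nA (rr σ Λ A m lam t) ≤
          lam ^ 2 * (|σ| * (L * (CW * (4 * CB ^ 3))) + CE) := by
        have j1 : nA (bb σ Λ A m lam t ^ 4 - Aph Λ A lam t ^ 4) ≤ lam * CW * (4 * CB ^ 3) :=
          pow4_sub h2 ((bA t ht).trans (by linarith)) (bB t ht) (bd t ht)
        have j2 := hDn _ (s4 t)
        have j3 := mul_le_mul_of_nonneg_left j1 hL0
        have j4 := h2.nA_add (((lam * σ : ℝ) : ℂ) • D (bb σ Λ A m lam t ^ 4 - Aph Λ A lam t ^ 4))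
          (((lam ^ 2 : ℝ) : ℂ) • Wp σ Λ m (dPr (A (lam * t)) (dA σ Λ (A (lam * t)))) t)
        rw [h2.nA_smul, h2.nA_smul, Complex.norm_real, Complex.norm_real, Real.norm_eq_abs,
          Real.norm_eq_abs, abs_mul, abs_of_pos hl, abs_of_nonneg (sq_nonneg lam)] at j4
        have j5 : lam * |σ| * nA (D (bb σ Λ A m lam t ^ 4 - Aph Λ A lam t ^ 4)) ≤
            lam * |σ| * (L * (lam * CW * (4 * CB ^ 3))) :=
          mul_le_mul_of_nonneg_left (j2.trans j3) (by positivity)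
        have j6 : lam ^ 2 * nA (Wp σ Λ m (dPr (A (lam * t)) (dA σ Λ (A (lam * t)))) t) ≤
            lam ^ 2 * CE := mul_le_mul_of_nonneg_left (bE t ht) (by positivity)
        have j7 : lam * |σ| * (L * (lam * CW * (4 * CB ^ 3))) + lam ^ 2 * CE =
            lam ^ 2 * (|σ| * (L * (CW * (4 * CB ^ 3))) + CE) := by ring
        unfold rr
        linarith
      have k2 := h2.n2_le_nA (D (D (rr σ Λ A m lam t)))
      have k3 := hDn _ (supp_D h1 (sR t))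
      have k4 := mul_le_mul_of_nonneg_left (hDn _ (sR t)) hL0
      have k5 := mul_le_mul_of_nonneg_left (mul_le_mul_of_nonneg_left k1 hL0) hL0
      have k6 : (L : ℝ) * (L * (lam ^ 2 * (|σ| * (L * (CW * (4 * CB ^ 3))) + CE))) ≤
          ((L : ℝ) ^ 2 * (|σ| * (L * (CW * (4 * CB ^ 3))) + CE) + (L : ℝ) ^ 2 * CW + 1) *
            lam ^ 2 := by
        have : 0 ≤ ((L : ℝ) ^ 2 * CW + 1) * lam ^ 2 := by positivity
        nlinarith
      linarith
  · intro t ht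
    have sD : Supp L (bb σ Λ A m lam t - Aph Λ A lam t) :=
      supp_sub (sB t) (supp_mono (by omega) (sA t))
    have k2 := h2.n2_le_nA (D (D (bb σ Λ A m lam t - Aph Λ A lam t)))
    have k3 := hDn _ (supp_D h1 sD)
    have k4 := mul_le_mul_of_nonneg_left (hDn _ sD) hL0
    have k5 := mul_le_mul_of_nonneg_left (mul_le_mul_of_nonneg_left (bd t ht) hL0) hL0
    have k6 : (L : ℝ) * (L * (lam * CW)) ≤
        ((L : ℝ) ^ 2 * (|σ| * (L * (CW * (4 * CB ^ 3))) + CE) + (L : ℝ) ^ 2 * CW + 1) * lam := by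
      have : 0 ≤ ((L : ℝ) ^ 2 * (|σ| * (L * (CW * (4 * CB ^ 3))) + CE) + 1) * lam := by positivity
      nlinarith
    linarith

end GKdV
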