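import Pool.Agent.Lib.MP_cb0de5_an.SpecB

/-!
# MP_cb0de5_an, module B6: assembly of the arithmetic networks
-/

open MeasureTheory Filter Topology Set

noncomputable section

namespace GKdV

namespace ArithFrom

/-- The network of depth `0`. -/
def base : Net 0 Unit Empty where
  lv := fun _ => 0
  ql := fun q => q.elim
  par := fun q => q.elim
  chi := fun q => q.elim
  lv_par := fun q => q.elim
  lv_chi := fun q => q.elim
  lv_le := fun _ => le_refl 0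
  par_inj := fun q => q.elim
  chi_inj := fun q => q.elim
  par_surj := fun _ h => absurd h (lt_irrefl 0)
  chi_surj := fun _ h => absurd h (lt_irrefl 0)

theorem pm_one {a : ℚ} (h : ∃ m : Unit, |a| = (fun _ : Unit => (1 : ℚ)) m) : a = 1 ∨ a = -1 := by
  obtain ⟨_, h⟩ := h
  rcases abs_eq (by norm_num : (0 : ℚ) ≤ 1) |>.1 h with h | h
  · exact Or.inl h
  · exact Or.inr h

theorem base_arith : IsArithQ base (fun _ => (1 : ℚ)) where
  pos := fun _ => one_pos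
  inj := fun _ _ _ => rfl
  lin := fun q => q.elim
  cub := fun q => q.elim
  closed := by
    intro a b c d ha hb hc hd hne h
    exfalso
    rcases pm_one ha with rfl | rfl <;> rcases pm_one hb with rfl | rfl <;>
      rcases pm_one hc with rfl | rfl <;> rcases pm_one hd with rfl | rfl <;>
      first
        | (norm_num at hne; done)
        | (norm_num at h; done)
        | (norm_num at h hne)

/-- Induction hypothesis. -/
def Good (θ : ℝ) (g : ℕ) : Prop :=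
  ∃ (M Q : Type) (_ : Fintype M) (_ : DecidableEq M) (_ : Fintype Q) (N : Net g M Q) (f : M → ℚ),
    Nonempty M ∧ IsArithQ N f ∧
      (101 / 100 : ℝ) ^ g * ∑ m with N.lv m = 0, ((f m : ℚ) : ℝ) ^ θ
        ≤ ∑ m with N.lv m = g, ((f m : ℚ) : ℝ) ^ θ

theorem good_zero (θ : ℝ) : Good θ 0 := by
  refine ⟨Unit, Empty, inferInstance, inferInstance, inferInstance, base, fun _ => 1,
    ⟨()⟩, base_arith, ?_⟩
  simp

theorem good_succ (hsel : SelectStmt) (hstep : StepArithStmt) {θ : ℝ} (h1 : 3 / 2 ≤ θ)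
    (h2 : θ ≤ 5 / 3) (g : ℕ) (h : Good θ g) : Good θ (g + 1) := by
  classical
  obtain ⟨M, Q, iM, iD, iQ, N, f, hne, hf, hs⟩ := h
  set S : Finset ℚ := (Finset.univ.image f) ∪ (Finset.univ.image fun m => -(f m)) with hS
  have memS : ∀ x : ℚ, (∃ m, |x| = f m) → x ∈ S := by
    rintro x ⟨m, hm⟩
    rw [hS, Finset.mem_union, Finset.mem_image, Finset.mem_image]
    rcases abs_choice x with h | h
    · left; exact ⟨m, Finset.mem_univ _, by rw [← hm, h]⟩
    · right; exact ⟨m, Finset.mem_univ _, by rw [← hm, h, neg_neg]⟩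
  have h0 : (0 : ℚ) ∉ S := by
    rw [hS, Finset.mem_union, Finset.mem_image, Finset.mem_image]
    rintro (⟨m, _, hm⟩ | ⟨m, _, hm⟩)
    · exact (hf.pos m).ne' hm
    · have := hf.pos m
      linarith
  set 𝓑 : Finset ((Fin 5 → ℚ) × (Fin 5 → ℚ)) :=
    ((Fintype.piFinset fun _ : Fin 4 => S ×ˢ (Finset.univ : Finset (Fin 5))).image pairOf).filter
      (fun p => ¬ Special p.1 p.2) with hB
  obtain ⟨w, w0, w1, w2, w3, w4, ws, wc, wB, wX, wg⟩ := hsel θ h1 h2 𝓑 S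
    (fun p hp => (Finset.mem_filter.1 hp).2) h0
  have hA : IsArithQ N.step (N.stepF f w) := by
    refine hstep g M Q N f w hf w0 w1 w2 w3 w4 ws wc ?_ ?_
    · intro c hc hns
      apply wB
      rw [hB, Finset.mem_filter]
      refine ⟨Finset.mem_image.2 ⟨c, ?_, rfl⟩, hns⟩
      rw [Fintype.mem_piFinset]
      intro i
      exact Finset.mem_product.2 ⟨memS _ (hc i), Finset.mem_univ _⟩
    · intro x y hx hy i j hij
      exact wX x (memS x hx) y (memS y hy) i j hij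
  refine ⟨M × Fin 3 ⊕ N.Top × Fin 2, Q × Fin 3 ⊕ N.Top, inferInstance, inferInstance,
    inferInstance, N.step, N.stepF f w, ?_, hA, ?_⟩
  · obtain ⟨m⟩ := hne
    exact ⟨Sum.inl (m, 0)⟩
  -- the sums
  have hpos : ∀ m, (0 : ℝ) < ((f m : ℚ) : ℝ) := fun m => by exact_mod_cast hf.pos m
  have e0 : ∑ m with N.step.lv m = 0, ((N.stepF f w m : ℚ) : ℝ) ^ θ
      = (∑ m with N.lv m = 0, ((f m : ℚ) : ℝ) ^ θ)
        * (((w 0 : ℚ) : ℝ) ^ θ + ((w 1 : ℚ) : ℝ) ^ θ + ((w 2 : ℚ) : ℝ) ^ θ) := by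
    rw [Finset.sum_filter, Fintype.sum_sum_type]
    have hz : ∑ p : N.Top × Fin 2, (if N.step.lv (Sum.inr p) = 0
        then ((N.stepF f w (Sum.inr p) : ℚ) : ℝ) ^ θ else 0) = 0 := by
      apply Finset.sum_eq_zero
      intro p _
      have : N.step.lv (Sum.inr p) = g + 1 := rfl
      rw [this, if_neg (Nat.succ_ne_zero g)]
    rw [hz, add_zero, Fintype.sum_prod_type, Finset.sum_filter, Finset.sum_mul]
    apply Finset.sum_congr rfl
    intro m _
    have hlv : ∀ k : Fin 3, N.step.lv (Sum.inl (m, k)) = N.lv m := fun _ => rfl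
    by_cases hm : N.lv m = 0
    · simp only [hlv, hm, if_true]
      rw [Fin.sum_univ_three]
      have hk : ∀ k : Fin 3, ((N.stepF f w (Sum.inl (m, k)) : ℚ) : ℝ)
          = ((f m : ℚ) : ℝ) * ((w (Fin.castLE (by norm_num) k) : ℚ) : ℝ) := by
        intro k
        have : N.stepF f w (Sum.inl (m, k)) = f m * w (Fin.castLE (by norm_num) k) := rfl
        rw [this]
        push_cast
        rfl
      rw [hk, hk, hk]
      have c0 : (Fin.castLE (by norm_num : 3 ≤ 5) (0 : Fin 3)) = (0 : Fin 5) := rfl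
      have c1 : (Fin.castLE (by norm_num : 3 ≤ 5) (1 : Fin 3)) = (1 : Fin 5) := rfl
      have c2 : (Fin.castLE (by norm_num : 3 ≤ 5) (2 : Fin 3)) = (2 : Fin 5) := rfl
      rw [c0, c1, c2]
      have r0 : (0 : ℝ) ≤ ((w 0 : ℚ) : ℝ) := by exact_mod_cast w0.le
      have r1 : (0 : ℝ) ≤ ((w 1 : ℚ) : ℝ) := by exact_mod_cast w1.le
      have r2 : (0 : ℝ) ≤ ((w 2 : ℚ) : ℝ) := by exact_mod_cast w2.le
      rw [Real.mul_rpow (hpos m).le r0, Real.mul_rpow (hpos m).le r1,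
        Real.mul_rpow (hpos m).le r2]
      ring
    · simp only [hlv, hm, if_false, Finset.sum_const_zero, zero_mul]
  have e1 : ∑ m with N.step.lv m = g + 1, ((N.stepF f w m : ℚ) : ℝ) ^ θ
      = (∑ m with N.lv m = g, ((f m : ℚ) : ℝ) ^ θ)
        * (((-(w 3) : ℚ) : ℝ) ^ θ + ((-(w 4) : ℚ) : ℝ) ^ θ) := by
    rw [Finset.sum_filter, Fintype.sum_sum_type]
    have hz : ∑ p : M × Fin 3, (if N.step.lv (Sum.inl p) = g + 1
        then ((N.stepF f w (Sum.inl p) : ℚ) : ℝ) ^ θ else 0) = 0 := by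
      apply Finset.sum_eq_zero
      intro p _
      have h3 : N.step.lv (Sum.inl p) = N.lv p.1 := rfl
      have h4 := N.lv_le p.1
      rw [h3, if_neg (by omega)]
    rw [hz, zero_add, Fintype.sum_prod_type, Finset.sum_mul]
    have hsub : ∑ m with N.lv m = g, ((f m : ℚ) : ℝ) ^ θ
          * (((-(w 3) : ℚ) : ℝ) ^ θ + ((-(w 4) : ℚ) : ℝ) ^ θ)
        = ∑ m : N.Top, ((f m.1 : ℚ) : ℝ) ^ θ
          * (((-(w 3) : ℚ) : ℝ) ^ θ + ((-(w 4) : ℚ) : ℝ) ^ θ) := by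
      rw [← Finset.sum_subtype_eq_sum_filter]
      apply Finset.sum_congr
      · ext x; simp
      · intro _ _; rfl
    rw [hsub]
    apply Finset.sum_congr rfl
    intro m _
    have hlv : ∀ b : Fin 2, N.step.lv (Sum.inr (m, b)) = g + 1 := fun _ => rfl
    simp only [hlv, if_true]
    rw [Fin.sum_univ_two]
    have k0 : ((N.stepF f w (Sum.inr (m, 0)) : ℚ) : ℝ)
        = ((f m.1 : ℚ) : ℝ) * ((-(w 3) : ℚ) : ℝ) := by
      have : N.stepF f w (Sum.inr (m, 0)) = -(f m.1 * w 3) := rfl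
      rw [this]
      push_cast
      ring
    have k1 : ((N.stepF f w (Sum.inr (m, 1)) : ℚ) : ℝ)
        = ((f m.1 : ℚ) : ℝ) * ((-(w 4) : ℚ) : ℝ) := by
      have : N.stepF f w (Sum.inr (m, 1)) = -(f m.1 * w 4) := rfl
      rw [this]
      push_cast
      ring
    rw [k0, k1]
    have r3 : (0 : ℝ) ≤ ((-(w 3) : ℚ) : ℝ) := by
      have : (0 : ℚ) ≤ -(w 3) := by linarith
      exact_mod_cast this
    have r4 : (0 : ℝ) ≤ ((-(w 4) : ℚ) : ℝ) := by
      have : (0 : ℚ) ≤ -(w 4) := by linarith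
      exact_mod_cast this
    rw [Real.mul_rpow (hpos m.1).le r3, Real.mul_rpow (hpos m.1).le r4]
    ring
  rw [e0, e1]
  have nn0 : 0 ≤ ∑ m with N.lv m = 0, ((f m : ℚ) : ℝ) ^ θ :=
    Finset.sum_nonneg fun m _ => Real.rpow_nonneg (hpos m).le _
  have nn1 : 0 ≤ ∑ m with N.lv m = g, ((f m : ℚ) : ℝ) ^ θ :=
    Finset.sum_nonneg fun m _ => Real.rpow_nonneg (hpos m).le _
  have nw : 0 ≤ ((w 0 : ℚ) : ℝ) ^ θ + ((w 1 : ℚ) : ℝ) ^ θ + ((w 2 : ℚ) : ℝ) ^ θ := by
    have r0 : (0 : ℝ) ≤ ((w 0 : ℚ) : ℝ) := by exact_mod_cast w0.le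
    have r1 : (0 : ℝ) ≤ ((w 1 : ℚ) : ℝ) := by exact_mod_cast w1.le
    have r2 : (0 : ℝ) ≤ ((w 2 : ℚ) : ℝ) := by exact_mod_cast w2.le
    have := Real.rpow_nonneg r0 θ
    have := Real.rpow_nonneg r1 θ
    have := Real.rpow_nonneg r2 θ
    linarith
  calc (101 / 100 : ℝ) ^ (g + 1) * ((∑ m with N.lv m = 0, ((f m : ℚ) : ℝ) ^ θ)
        * (((w 0 : ℚ) : ℝ) ^ θ + ((w 1 : ℚ) : ℝ) ^ θ + ((w 2 : ℚ) : ℝ) ^ θ))
      = ((101 / 100 : ℝ) ^ g * ∑ m with N.lv m = 0, ((f m : ℚ) : ℝ) ^ θ)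
        * ((101 / 100 : ℝ) * (((w 0 : ℚ) : ℝ) ^ θ + ((w 1 : ℚ) : ℝ) ^ θ
          + ((w 2 : ℚ) : ℝ) ^ θ)) := by ring
    _ ≤ (∑ m with N.lv m = g, ((f m : ℚ) : ℝ) ^ θ)
        * ((101 / 100 : ℝ) * (((w 0 : ℚ) : ℝ) ^ θ + ((w 1 : ℚ) : ℝ) ^ θ
          + ((w 2 : ℚ) : ℝ) ^ θ)) := by
        apply mul_le_mul_of_nonneg_right hs
        positivity
    _ ≤ _ := mul_le_mul_of_nonneg_left wg nn1

theorem good_all (hsel : SelectStmt) (hstep : StepArithStmt) {θ : ℝ} (h1 : 3 / 2 ≤ θ)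
    (h2 : θ ≤ 5 / 3) (g : ℕ) : Good θ g := by
  induction g with
  | zero => exact good_zero θ
  | succ g ih => exact good_succ hsel hstep h1 h2 g ih

/-- Clearing denominators. -/
theorem clear {g : ℕ} {M Q : Type} [Fintype M] (N : Net g M Q) (f : M → ℚ)
    (hf : IsArithQ N f) : ∃ (D : ℕ) (F : M → ℤ), 0 < D ∧ (∀ m, ((F m : ℤ) : ℚ) = D * f m) ∧
      IsArith N F := by
  classical
  set D : ℕ := ∏ m, (f m).den with hD
  have hDpos : 0 < D := Finset.prod_pos fun m _ => (f m).den_pos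
  have hDq : (0 : ℚ) < D := by exact_mod_cast hDpos
  have hF : ∀ m, ∃ z : ℤ, (z : ℚ) = D * f m := by
    intro m
    have hdvd : (f m).den ∣ D := Finset.dvd_prod_of_mem _ (Finset.mem_univ m)
    obtain ⟨e, he⟩ := hdvd
    refine ⟨e * (f m).num, ?_⟩
    have h1 : (f m) * (f m).den = (f m).num := Rat.mul_den_eq_num (f m)
    rw [he]
    push_cast
    rw [← h1]
    ring
  choose F hF using hF
  have hFf : ∀ m, f m = (F m : ℚ) / D := by
    intro m
    rw [hF]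
    field_simp
  refine ⟨D, F, hDpos, hF, ?_⟩
  refine ⟨?_, ?_, ?_, ?_, ?_⟩
  · intro m
    have h1 : (0 : ℚ) < F m := by
      rw [hF]
      exact mul_pos hDq (hf.pos m)
    exact_mod_cast h1
  · intro m m' h
    apply hf.inj
    rw [hFf, hFf, h]
  · intro q
    have h1 := hf.lin q
    have h2 : ((F (N.par q 0) + F (N.par q 1) + F (N.par q 2) : ℤ) : ℚ)
        = ((F (N.chi q 0) + F (N.chi q 1) : ℤ) : ℚ) := by
      push_cast
      rw [hF, hF, hF, hF, hF]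
      linear_combination (D : ℚ) * h1
    exact_mod_cast h2
  · intro q
    have h1 := hf.cub q
    have h2 : ((F (N.par q 0) ^ 3 + F (N.par q 1) ^ 3 + F (N.par q 2) ^ 3 : ℤ) : ℚ)
        = ((F (N.chi q 0) ^ 3 + F (N.chi q 1) ^ 3 : ℤ) : ℚ) := by
      push_cast
      rw [hF, hF, hF, hF, hF]
      linear_combination (D : ℚ) ^ 3 * h1
    exact_mod_cast h2
  · intro a b c d ha hb hc hd hne h
    have hab : ∀ x : ℤ, (∃ m, |x| = F m) → ∃ m, |(x : ℚ) / D| = f m := by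
      rintro x ⟨m, hm⟩
      refine ⟨m, ?_⟩
      rw [abs_div, abs_of_pos hDq, hFf, ← hm]
      push_cast
      rfl
    have hsum : ((a : ℚ) / D + (b : ℚ) / D + (c : ℚ) / D + (d : ℚ) / D)
        = ((a + b + c + d : ℤ) : ℚ) / D := by
      push_cast
      ring
    obtain ⟨q, e, he, hms⟩ := hf.closed ((a : ℚ) / D) ((b : ℚ) / D) ((c : ℚ) / D) ((d : ℚ) / D)
      (hab a ha) (hab b hb) (hab c hc) (hab d hd) (by
        rw [hsum]
        have : ((a + b + c + d : ℤ) : ℚ) ≠ 0 := by exact_mod_cast hne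
        exact div_ne_zero this hDq.ne') (by
        rw [hsum]
        have h3 : ((a ^ 3 + b ^ 3 + c ^ 3 + d ^ 3 : ℤ) : ℚ) = (((a + b + c + d) ^ 3 : ℤ) : ℚ) := by
          rw [h]
        push_cast at h3 ⊢
        field_simp
        linear_combination h3)
    have hez : ∃ e' : ℤ, (e' = 1 ∨ e' = -1) ∧ (e' : ℚ) = e := by
      rcases he with rfl | rfl
      · exact ⟨1, Or.inl rfl, by norm_num⟩
      · exact ⟨-1, Or.inr rfl, by norm_num⟩
    obtain ⟨e', he', hee⟩ := hez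
    refine ⟨q, e', he', ?_⟩
    apply Multiset.map_injective (Int.cast_injective (α := ℚ))
    have h5 := congrArg (Multiset.map fun x : ℚ => (D : ℚ) * x) hms
    simp only [Multiset.insert_eq_cons, Multiset.map_cons, Multiset.map_singleton] at h5 ⊢
    push_cast
    have k : ∀ x : ℤ, (D : ℚ) * ((x : ℚ) / D) = x := by
      intro x
      field_simp
    have k2 : (D : ℚ) * (-((a : ℚ) / D + (b : ℚ) / D + (c : ℚ) / D + (d : ℚ) / D))
        = -((a : ℚ) + b + c + d) := by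
      field_simp
    rw [k, k, k, k, k2] at h5
    rw [h5, ← hee, hF, hF, hF, hF, hF]
    congr 1
    · ring
    congr 1
    · ring
    congr 1
    · ring
    congr 1
    · ring
    congr 1
    ring

end ArithFrom

theorem arithFromStmt : ArithFromStmt := by
  intro hsel hstep θ h1 h2 K
  obtain ⟨g, hg⟩ : ∃ g : ℕ, K < (101 / 100 : ℝ) ^ g := pow_unbounded_of_one_lt K (by norm_num)
  obtain ⟨M, Q, iM, iD, iQ, N, f, hne, hf, hs⟩ := ArithFrom.good_all hsel hstep h1 h2 g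
  obtain ⟨D, F, hD, hF, hA⟩ := ArithFrom.clear N f hf
  refine ⟨g, M, Q, iM, iD, iQ, N, F, hne, hA, ?_⟩
  have hDr : (0 : ℝ) ≤ D := by positivity
  have hpos : ∀ m, (0 : ℝ) < ((f m : ℚ) : ℝ) := fun m => by exact_mod_cast hf.pos m
  have hFr : ∀ m, ((F m : ℤ) : ℝ) = (D : ℝ) * ((f m : ℚ) : ℝ) := by
    intro m
    have h3 : (((F m : ℤ) : ℚ) : ℝ) = (((D : ℚ) * f m : ℚ) : ℝ) := by rw [hF]
    push_cast at h3
    exact h3
  have hterm : ∀ m, ((F m : ℤ) : ℝ) ^ θ = (D : ℝ) ^ θ * ((f m : ℚ) : ℝ) ^ θ := by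
    intro m
    rw [hFr, Real.mul_rpow hDr (hpos m).le]
  simp only [hterm]
  rw [← Finset.mul_sum, ← Finset.mul_sum]
  have nn0 : 0 ≤ ∑ m with N.lv m = 0, ((f m : ℚ) : ℝ) ^ θ :=
    Finset.sum_nonneg fun m _ => Real.rpow_nonneg (hpos m).le _
  have hDθ : 0 ≤ (D : ℝ) ^ θ := Real.rpow_nonneg hDr _
  calc K * ((D : ℝ) ^ θ * ∑ m with N.lv m = 0, ((f m : ℚ) : ℝ) ^ θ)
      = (D : ℝ) ^ θ * (K * ∑ m with N.lv m = 0, ((f m : ℚ) : ℝ) ^ θ) := by ring
    _ ≤ (D : ℝ) ^ θ * ((101 / 100 : ℝ) ^ g * ∑ m with N.lv m = 0, ((f m : ℚ) : ℝ) ^ θ) := by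
        apply mul_le_mul_of_nonneg_left _ hDθ
        exact mul_le_mul_of_nonneg_right hg.le nn0
    _ ≤ _ := mul_le_mul_of_nonneg_left hs hDθ

end GKdV
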