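import Pool.Agent.Lib.MP_cb0de5_an.SpecC

/-!
# C3c: Gronwall and bootstrap
-/

open MeasureTheory Filter Topology Set

noncomputable section

namespace GKdV

/-- The algebraic inequality at a point where `E ≤ 1`. -/
theorem Boot.alg {B C lam E E' c : ℝ} (hB : 0 < B) (hlam : 0 < lam)
    (hc : c = 500 * (B + 2) ^ 3 + 1) (hE : 0 ≤ E) (hE1 : E ≤ 1)
    (h : E' ≤ 2 * lam * (250 * (B + 2 * Real.sqrt E) ^ 3 * E) +
      2 * Real.sqrt E * (C * lam ^ 2)) : E' ≤ lam * c * E + C ^ 2 * lam ^ 3 := by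
  set s := Real.sqrt E with hs
  have hs0 : 0 ≤ s := Real.sqrt_nonneg _
  have hs2 : s ^ 2 = E := Real.sq_sqrt hE
  have hs1 : s ≤ 1 := by
    rw [hs]
    exact Real.sqrt_le_one.mpr hE1
  have h1 : (B + 2 * s) ^ 3 ≤ (B + 2) ^ 3 :=
    pow_le_pow_left₀ (by positivity) (by linarith) 3
  have h2 : 2 * lam * (250 * (B + 2 * s) ^ 3 * E) ≤ 2 * lam * (250 * (B + 2) ^ 3 * E) := by
    apply mul_le_mul_of_nonneg_left _ (by positivity)
    apply mul_le_mul_of_nonneg_right _ hE
    linarith
  have h3 : 2 * s * (C * lam ^ 2) ≤ lam * E + C ^ 2 * lam ^ 3 := by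
    have h4 : 0 ≤ lam * (s - C * lam) ^ 2 := by positivity
    have h5 : lam * (s - C * lam) ^ 2 = lam * s ^ 2 - 2 * s * (C * lam ^ 2) + C ^ 2 * lam ^ 3 := by
      ring
    rw [h5, hs2] at h4
    linarith
  rw [hc]
  nlinarith

/-- C3c. -/
theorem bootStmt : BootStmt := by
  intro B C S hB hC hS
  set c : ℝ := 500 * (B + 2) ^ 3 + 1 with hc
  have hc0 : 0 < c := by positivity
  set K : ℝ := C ^ 2 * (1 + 2 * S) * Real.exp (c * S) with hK
  have hK0 : 0 < K := by positivity
  refine ⟨1 / (1 + K), Real.sqrt K, by positivity, ?_, Real.sqrt_pos.mpr hK0, ?_⟩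
  · rw [div_le_one (by positivity)]
    linarith
  intro lam hlam hlam0 E E' hE hE0 hinit hE' t ht
  have hlam1 : lam ≤ 1 := by
    refine hlam0.trans ?_
    rw [div_le_one (by positivity)]
    linarith
  have hKlam : K * lam ^ 2 < 1 := by
    have h1 : lam * (1 + K) ≤ 1 := by
      rwa [le_div_iff₀ (by positivity)] at hlam0
    have h2 : K * lam ^ 2 ≤ K * lam := by
      apply mul_le_mul_of_nonneg_left _ hK0.le
      nlinarith
    nlinarith
  have hT : 0 ≤ S / lam := by positivity
  let F : ℝ → ℝ := fun t => C ^ 2 * lam ^ 2 * ((1 + 2 * lam * t) * Real.exp (lam * c * t))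
  let F' : ℝ → ℝ := fun t => C ^ 2 * lam ^ 2 * (2 * lam * Real.exp (lam * c * t) +
    (1 + 2 * lam * t) * (Real.exp (lam * c * t) * (lam * c)))
  have hF : ∀ t, HasDerivAt F (F' t) t := by
    intro t
    have h1 : HasDerivAt (fun t => 1 + 2 * lam * t) (2 * lam) t := by
      simpa using ((hasDerivAt_id t).const_mul (2 * lam)).const_add 1
    have h2 : HasDerivAt (fun t => Real.exp (lam * c * t))
        (Real.exp (lam * c * t) * (lam * c)) t := by
      have h3 : HasDerivAt (fun t => lam * c * t) (lam * c) t := by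
        simpa using (hasDerivAt_id t).const_mul (lam * c)
      exact h3.exp
    exact (h1.mul h2).const_mul _
  have hFK : ∀ t ∈ Icc 0 (S / lam), F t ≤ K * lam ^ 2 := by
    intro t ht
    have h1 : lam * t ≤ S := by
      have := ht.2
      rw [le_div_iff₀ hlam] at this
      linarith
    have h0 : 0 ≤ lam * t := mul_nonneg hlam.le ht.1
    have h2 : Real.exp (lam * c * t) ≤ Real.exp (c * S) := by
      apply Real.exp_le_exp.mpr
      nlinarith
    have h3 : (1 + 2 * lam * t) * Real.exp (lam * c * t) ≤ (1 + 2 * S) * Real.exp (c * S) :=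
      mul_le_mul (by linarith) h2 (Real.exp_pos _).le (by linarith)
    calc F t = C ^ 2 * lam ^ 2 * ((1 + 2 * lam * t) * Real.exp (lam * c * t)) := rfl
      _ ≤ C ^ 2 * lam ^ 2 * ((1 + 2 * S) * Real.exp (c * S)) :=
          mul_le_mul_of_nonneg_left h3 (by positivity)
      _ = K * lam ^ 2 := by
          rw [hK]
          ring
  have hmain : E t ≤ F t := by
    refine image_le_of_deriv_right_lt_deriv_boundary (f := E) (f' := E') (a := 0) (b := S / lam)
      (fun x hx => (hE x hx).continuousWithinAt)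
      (fun x hx => (hE x (Ico_subset_Icc_self hx)).mono_of_mem_nhdsWithin
        (Icc_mem_nhdsGE_of_mem hx)) ?_ hF ?_ ht
    · show E 0 ≤ C ^ 2 * lam ^ 2 * ((1 + 2 * lam * 0) * Real.exp (lam * c * 0))
      rw [mul_zero, mul_zero, Real.exp_zero]
      calc E 0 ≤ (C * lam) ^ 2 := hinit
        _ = C ^ 2 * lam ^ 2 * ((1 + 0) * 1) := by ring
    · intro x hx hEF
      have hx' := Ico_subset_Icc_self hx
      have h1 : E x ≤ 1 := by
        rw [hEF]
        exact ((hFK x hx').trans hKlam.le)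
      have h2 := Boot.alg hB hlam hc (hE0 x hx') h1 (hE' x hx')
      refine lt_of_le_of_lt h2 ?_
      rw [hEF]
      have h3 : 1 ≤ Real.exp (lam * c * x) := by
        apply Real.one_le_exp
        have := hx.1
        positivity
      show lam * c * (C ^ 2 * lam ^ 2 * ((1 + 2 * lam * x) * Real.exp (lam * c * x))) +
        C ^ 2 * lam ^ 3 < C ^ 2 * lam ^ 2 * (2 * lam * Real.exp (lam * c * x) +
        (1 + 2 * lam * x) * (Real.exp (lam * c * x) * (lam * c)))
      have h4 : 0 < C ^ 2 * lam ^ 3 := by positivity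
      nlinarith
  refine (hmain.trans (hFK t ht)).trans (le_of_eq ?_)
  rw [mul_pow, Real.sq_sqrt hK0.le]

end GKdV
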