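import Pool.Agent.Lib.MP_cb0de5_an.SpecB

/-!
# AB2: from the real cascade system to the resonant system
-/

open MeasureTheory Filter Topology Set

noncomputable section

namespace GKdV

namespace Bridge

/-- phases -/
def al (σ : ℝ) : ℕ → ℝ
  | 0 => 0
  | j + 1 => (3 * al σ j - σ * (Real.pi / 2)) / 2

/-- unit complex numbers -/
def uu (σ : ℝ) (j : ℕ) : ℂ := Complex.exp ((al σ j : ℂ) * Complex.I)

theorem norm_uu (σ : ℝ) (j : ℕ) : ‖uu σ j‖ = 1 := by
  unfold uu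
  exact Complex.norm_exp_ofReal_mul_I _

theorem uu_mul_conj (σ : ℝ) (j : ℕ) : uu σ j * (starRingEnd ℂ) (uu σ j) = 1 := by
  rw [Complex.mul_conj, Complex.normSq_eq_norm_sq, norm_uu]
  norm_num

theorem exp_sigma (σ : ℝ) (hσ : σ = 1 ∨ σ = -1) :
    Complex.exp (((σ * (Real.pi / 2) : ℝ) : ℂ) * Complex.I) = Complex.I * σ := by
  rcases hσ with h | h
  · subst h
    rw [Complex.exp_mul_I, ← Complex.ofReal_cos, ← Complex.ofReal_sin, one_mul,
      Real.cos_pi_div_two, Real.sin_pi_div_two]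
    simp
  · subst h
    rw [Complex.exp_mul_I, ← Complex.ofReal_cos, ← Complex.ofReal_sin, neg_one_mul,
      Real.cos_neg, Real.sin_neg, Real.cos_pi_div_two, Real.sin_pi_div_two]
    simp

theorem uu_rel (σ : ℝ) (hσ : σ = 1 ∨ σ = -1) (j : ℕ) :
    uu σ j ^ 3 = Complex.I * σ * uu σ (j + 1) ^ 2 := by
  rw [← exp_sigma σ hσ]
  unfold uu
  rw [← Complex.exp_nat_mul, ← Complex.exp_nat_mul, ← Complex.exp_add]
  congr 1
  simp only [al]
  push_cast
  ring

theorem child_id (σ : ℝ) (hσ : σ = 1 ∨ σ = -1) (U V : ℂ)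
    (hV : V * (starRingEnd ℂ) V = 1) (h : U ^ 3 = Complex.I * σ * V ^ 2) :
    -(Complex.I * σ) * (U ^ 3 * (starRingEnd ℂ) V) = V := by
  have hs : (σ : ℂ) ^ 2 = 1 := by
    rcases hσ with h | h <;> subst h <;> norm_num
  rw [h]
  have : -(Complex.I * σ) * (Complex.I * σ * V ^ 2 * (starRingEnd ℂ) V)
      = -(Complex.I ^ 2) * (σ : ℂ) ^ 2 * V * (V * (starRingEnd ℂ) V) := by ring
  rw [this, hs, hV, Complex.I_sq]
  ring

theorem par_id (σ : ℝ) (U V : ℂ)
    (hU : U * (starRingEnd ℂ) U = 1) (h : U ^ 3 = Complex.I * σ * V ^ 2) :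
    -(Complex.I * σ) * ((starRingEnd ℂ) U ^ 2 * V ^ 2) = -U := by
  have : -(Complex.I * σ) * ((starRingEnd ℂ) U ^ 2 * V ^ 2)
      = -((starRingEnd ℂ) U ^ 2 * (Complex.I * σ * V ^ 2)) := by ring
  rw [this, ← h]
  have : -((starRingEnd ℂ) U ^ 2 * U ^ 3) = -((U * (starRingEnd ℂ) U) ^ 2 * U) := by ring
  rw [this, hU]
  ring

variable {g : ℕ} {M Q : Type}

/-- amplitudes -/
def amp (N : Net g M Q) (f : M → ℤ) (σ : ℝ) (m : M) : ℂ :=
  ((Real.sqrt (f m : ℝ) : ℝ) : ℂ) * uu σ (N.lv m)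

/-- the solution of the resonant system -/
def AA [Fintype M] (N : Net g M Q) (f : M → ℤ) (σ : ℝ) (x : ℝ → M → ℝ) (t : ℝ) (n : ℤ) : ℂ :=
  (∑ m, if f m = n then amp N f σ m * (x t m : ℂ) else 0) +
    ∑ m, if -f m = n then (starRingEnd ℂ) (amp N f σ m) * (x t m : ℂ) else 0

theorem AA_neg [Fintype M] (N : Net g M Q) (f : M → ℤ) (σ : ℝ) (x : ℝ → M → ℝ) (t : ℝ) (n : ℤ) :
    AA N f σ x t (-n) = (starRingEnd ℂ) (AA N f σ x t n) := by
  unfold AA
  rw [map_add, map_sum, map_sum, add_comm]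
  congr 1
  · refine Finset.sum_congr rfl fun m _ => ?_
    by_cases h : f m = n
    · rw [if_pos (by rw [h]), if_pos h]; simp
    · rw [if_neg (by intro h'; exact h (neg_injective h')), if_neg h]; simp
  · refine Finset.sum_congr rfl fun m _ => ?_
    by_cases h : f m = -n
    · rw [if_pos h, if_pos (by rw [h]; simp)]; simp
    · rw [if_neg h, if_neg (by intro h'; exact h (by rw [← h']; simp))]; simp

theorem AA_f [Fintype M] (N : Net g M Q) (f : M → ℤ) (hf : IsArith N f) (σ : ℝ)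
    (x : ℝ → M → ℝ) (t : ℝ) (m : M) :
    AA N f σ x t (f m) = amp N f σ m * (x t m : ℂ) := by
  classical
  unfold AA
  rw [Finset.sum_eq_single m, Finset.sum_eq_zero]
  · simp
  · intro m' _
    have h1 := hf.pos m
    have h2 := hf.pos m'
    rw [if_neg (by intro h; omega)]
  · intro m' _ hne
    rw [if_neg (fun h => hne (hf.inj h))]
  · intro h; exact absurd (Finset.mem_univ m) h

theorem mem_lam [Fintype M] (f : M → ℤ) (n : ℤ) :
    n ∈ lam f ↔ ∃ m, |n| = |f m| := by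
  unfold lam
  simp only [Finset.mem_union, Finset.mem_image, Finset.mem_univ, true_and]
  constructor
  · rintro (⟨m, hm⟩ | ⟨m, hm⟩)
    · exact ⟨m, by rw [hm]⟩
    · exact ⟨m, by rw [← hm, abs_neg]⟩
  · rintro ⟨m, hm⟩
    rcases abs_eq_abs.mp hm with h | h
    · exact Or.inl ⟨m, h.symm⟩
    · exact Or.inr ⟨m, h.symm⟩

theorem conj_sum_neg (Λ : Finset ℤ) (hΛ : ∀ n ∈ Λ, -n ∈ Λ) (B : ℤ → ℂ)
    (hB : ∀ n, B (-n) = (starRingEnd ℂ) (B n)) (n : ℤ) :
    ∑ p ∈ (Λ ×ˢ Λ ×ˢ Λ ×ˢ Λ).filter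
      (fun p => p.1 + p.2.1 + p.2.2.1 + p.2.2.2 = -n ∧
        p.1 ^ 3 + p.2.1 ^ 3 + p.2.2.1 ^ 3 + p.2.2.2 ^ 3 = (-n) ^ 3),
      B p.1 * B p.2.1 * B p.2.2.1 * B p.2.2.2 =
    (starRingEnd ℂ) (∑ p ∈ (Λ ×ˢ Λ ×ˢ Λ ×ˢ Λ).filter
      (fun p => p.1 + p.2.1 + p.2.2.1 + p.2.2.2 = n ∧
        p.1 ^ 3 + p.2.1 ^ 3 + p.2.2.1 ^ 3 + p.2.2.2 ^ 3 = n ^ 3),
      B p.1 * B p.2.1 * B p.2.2.1 * B p.2.2.2) := by
  rw [map_sum]
  refine Finset.sum_bij' (fun p _ => -p) (fun p _ => -p) ?_ ?_ ?_ ?_ ?_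
  · intro p hp
    simp only [Finset.mem_filter, Finset.mem_product] at hp ⊢
    obtain ⟨⟨h1, h2, h3, h4⟩, h5, h6⟩ := hp
    refine ⟨⟨hΛ _ h1, hΛ _ h2, hΛ _ h3, hΛ _ h4⟩, ?_, ?_⟩
    · simp only [Prod.fst_neg, Prod.snd_neg]; linarith
    · simp only [Prod.fst_neg, Prod.snd_neg]
      have e : ∀ a : ℤ, (-a) ^ 3 = -(a ^ 3) := fun a => by ring
      rw [e] at h6
      rw [e, e, e, e]; linarith
  · intro p hp
    simp only [Finset.mem_filter, Finset.mem_product] at hp ⊢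
    obtain ⟨⟨h1, h2, h3, h4⟩, h5, h6⟩ := hp
    refine ⟨⟨hΛ _ h1, hΛ _ h2, hΛ _ h3, hΛ _ h4⟩, ?_, ?_⟩
    · simp only [Prod.fst_neg, Prod.snd_neg]; linarith
    · simp only [Prod.fst_neg, Prod.snd_neg]
      have e : ∀ a : ℤ, (-a) ^ 3 = -(a ^ 3) := fun a => by ring
      rw [e, e, e, e, e]; linarith
  · intro p _; exact neg_neg p
  · intro p _; exact neg_neg p
  · intro p _
    simp only [Prod.fst_neg, Prod.snd_neg, map_mul]
    rw [← hB, ← hB, ← hB, ← hB]
    simp only [neg_neg]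

/-- the algebraic identity for one quintet -/
theorem term_id [DecidableEq M] (N : Net g M Q) (f : M → ℤ) (hf : IsArith N f) (σ : ℝ)
    (hσ : σ = 1 ∨ σ = -1) (y : M → ℝ) (m : M) (q : Q) (B : M → ℂ)
    (hB : ∀ m, B m = amp N f σ m * (y m : ℂ)) :
    -(Complex.I * σ * (f m : ℂ)) * (24 *
      ((if N.chi q 0 = m then B (N.par q 0) * B (N.par q 1) * B (N.par q 2) *
          (starRingEnd ℂ) (B (N.chi q 1)) else 0)
      + (if N.chi q 1 = m then B (N.par q 0) * B (N.par q 1) * B (N.par q 2) *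
          (starRingEnd ℂ) (B (N.chi q 0)) else 0)
      + (if N.par q 0 = m then (starRingEnd ℂ) (B (N.par q 1)) *
          (starRingEnd ℂ) (B (N.par q 2)) * B (N.chi q 0) * B (N.chi q 1) else 0)
      + (if N.par q 1 = m then (starRingEnd ℂ) (B (N.par q 0)) *
          (starRingEnd ℂ) (B (N.par q 2)) * B (N.chi q 0) * B (N.chi q 1) else 0)
      + (if N.par q 2 = m then (starRingEnd ℂ) (B (N.par q 0)) *
          (starRingEnd ℂ) (B (N.par q 1)) * B (N.chi q 0) * B (N.chi q 1) else 0))) =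
    amp N f σ m * (((24 * (√(f (N.par q 0) : ℝ) * √(f (N.par q 1) : ℝ) * √(f (N.par q 2) : ℝ) *
      √(f (N.chi q 0) : ℝ) * √(f (N.chi q 1) : ℝ)) *
    ((if N.chi q 0 = m then y (N.par q 0) * y (N.par q 1) * y (N.par q 2) * y (N.chi q 1) else 0)
    + (if N.chi q 1 = m then y (N.par q 0) * y (N.par q 1) * y (N.par q 2) * y (N.chi q 0) else 0)
    - (if N.par q 0 = m then y (N.par q 1) * y (N.par q 2) * y (N.chi q 0) * y (N.chi q 1) else 0)
    - (if N.par q 1 = m then y (N.par q 0) * y (N.par q 2) * y (N.chi q 0) * y (N.chi q 1) else 0)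
    - (if N.par q 2 = m then y (N.par q 0) * y (N.par q 1) * y (N.chi q 0) * y (N.chi q 1)
        else 0)) : ℝ)) : ℂ) := by
  -- levels
  have e1 : N.lv (N.par q 1) = N.lv (N.par q 0) := by
    have h1 := N.lv_par q 0
    have h2 := N.lv_par q 1
    omega
  have e2 : N.lv (N.par q 2) = N.lv (N.par q 0) := by
    have h1 := N.lv_par q 0
    have h2 := N.lv_par q 2
    omega
  have e3 : N.lv (N.chi q 0) = N.lv (N.par q 0) + 1 := by
    rw [N.lv_par q 0, N.lv_chi q 0]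
  have e4 : N.lv (N.chi q 1) = N.lv (N.par q 0) + 1 := by
    rw [N.lv_par q 0, N.lv_chi q 1]
  have hrel := uu_rel σ hσ (N.lv (N.par q 0))
  have hU := uu_mul_conj σ (N.lv (N.par q 0))
  have hV := uu_mul_conj σ (N.lv (N.par q 0) + 1)
  have hc := child_id σ hσ _ _ hV hrel
  have hp := par_id σ _ _ hU hrel
  have hsq : ∀ m, (f m : ℂ) = ((√(f m : ℝ) : ℝ) : ℂ) ^ 2 := by
    intro m
    have h1 : (0 : ℝ) ≤ (f m : ℝ) := by exact_mod_cast (hf.pos m).le
    rw [← Complex.ofReal_pow, Real.sq_sqrt h1]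
    simp
  have t1 : -(Complex.I * σ * (f m : ℂ)) *
      (if N.chi q 0 = m then B (N.par q 0) * B (N.par q 1) * B (N.par q 2) *
          (starRingEnd ℂ) (B (N.chi q 1)) else 0) =
      amp N f σ m * (((√(f (N.par q 0) : ℝ) * √(f (N.par q 1) : ℝ) * √(f (N.par q 2) : ℝ) *
        √(f (N.chi q 0) : ℝ) * √(f (N.chi q 1) : ℝ)) *
      (if N.chi q 0 = m then y (N.par q 0) * y (N.par q 1) * y (N.par q 2) * y (N.chi q 1)
        else 0) : ℝ) : ℂ) := by
    by_cases h : N.chi q 0 = m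
    · subst h
      rw [if_pos rfl, if_pos rfl]
      simp only [hB, amp, e1, e2, e3, e4, map_mul, Complex.conj_ofReal, hsq (N.chi q 0)]
      push_cast
      linear_combination (((√(f (N.par q 0) : ℝ) : ℝ) : ℂ) * ((√(f (N.par q 1) : ℝ) : ℝ) : ℂ) *
        ((√(f (N.par q 2) : ℝ) : ℝ) : ℂ) * ((√(f (N.chi q 0) : ℝ) : ℝ) : ℂ) ^ 2 *
        ((√(f (N.chi q 1) : ℝ) : ℝ) : ℂ) * (y (N.par q 0) : ℂ) * (y (N.par q 1) : ℂ) *
        (y (N.par q 2) : ℂ) * (y (N.chi q 1) : ℂ)) * hc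
    · rw [if_neg h, if_neg h]; simp
  have t2 : -(Complex.I * σ * (f m : ℂ)) *
      (if N.chi q 1 = m then B (N.par q 0) * B (N.par q 1) * B (N.par q 2) *
          (starRingEnd ℂ) (B (N.chi q 0)) else 0) =
      amp N f σ m * (((√(f (N.par q 0) : ℝ) * √(f (N.par q 1) : ℝ) * √(f (N.par q 2) : ℝ) *
        √(f (N.chi q 0) : ℝ) * √(f (N.chi q 1) : ℝ)) *
      (if N.chi q 1 = m then y (N.par q 0) * y (N.par q 1) * y (N.par q 2) * y (N.chi q 0)
        else 0) : ℝ) : ℂ) := by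
    by_cases h : N.chi q 1 = m
    · subst h
      rw [if_pos rfl, if_pos rfl]
      simp only [hB, amp, e1, e2, e3, e4, map_mul, Complex.conj_ofReal, hsq (N.chi q 1)]
      push_cast
      linear_combination (((√(f (N.par q 0) : ℝ) : ℝ) : ℂ) * ((√(f (N.par q 1) : ℝ) : ℝ) : ℂ) *
        ((√(f (N.par q 2) : ℝ) : ℝ) : ℂ) * ((√(f (N.chi q 1) : ℝ) : ℝ) : ℂ) ^ 2 *
        ((√(f (N.chi q 0) : ℝ) : ℝ) : ℂ) * (y (N.par q 0) : ℂ) * (y (N.par q 1) : ℂ) *
        (y (N.par q 2) : ℂ) * (y (N.chi q 0) : ℂ)) * hc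
    · rw [if_neg h, if_neg h]; simp
  have t3 : -(Complex.I * σ * (f m : ℂ)) *
      (if N.par q 0 = m then (starRingEnd ℂ) (B (N.par q 1)) *
          (starRingEnd ℂ) (B (N.par q 2)) * B (N.chi q 0) * B (N.chi q 1) else 0) =
      - (amp N f σ m * (((√(f (N.par q 0) : ℝ) * √(f (N.par q 1) : ℝ) * √(f (N.par q 2) : ℝ) *
        √(f (N.chi q 0) : ℝ) * √(f (N.chi q 1) : ℝ)) *
      (if N.par q 0 = m then y (N.par q 1) * y (N.par q 2) * y (N.chi q 0) * y (N.chi q 1)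
        else 0) : ℝ) : ℂ)) := by
    by_cases h : N.par q 0 = m
    · subst h
      rw [if_pos rfl, if_pos rfl]
      simp only [hB, amp, e1, e2, e3, e4, map_mul, Complex.conj_ofReal, hsq (N.par q 0)]
      push_cast
      linear_combination (((√(f (N.par q 0) : ℝ) : ℝ) : ℂ) ^ 2 *
        ((√(f (N.par q 1) : ℝ) : ℝ) : ℂ) *
        ((√(f (N.par q 2) : ℝ) : ℝ) : ℂ) * ((√(f (N.chi q 0) : ℝ) : ℝ) : ℂ) *
        ((√(f (N.chi q 1) : ℝ) : ℝ) : ℂ) * (y (N.par q 1) : ℂ) * (y (N.par q 2) : ℂ) *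
        (y (N.chi q 0) : ℂ) * (y (N.chi q 1) : ℂ)) * hp
    · rw [if_neg h, if_neg h]; simp
  have t4 : -(Complex.I * σ * (f m : ℂ)) *
      (if N.par q 1 = m then (starRingEnd ℂ) (B (N.par q 0)) *
          (starRingEnd ℂ) (B (N.par q 2)) * B (N.chi q 0) * B (N.chi q 1) else 0) =
      - (amp N f σ m * (((√(f (N.par q 0) : ℝ) * √(f (N.par q 1) : ℝ) * √(f (N.par q 2) : ℝ) *
        √(f (N.chi q 0) : ℝ) * √(f (N.chi q 1) : ℝ)) *
      (if N.par q 1 = m then y (N.par q 0) * y (N.par q 2) * y (N.chi q 0) * y (N.chi q 1)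
        else 0) : ℝ) : ℂ)) := by
    by_cases h : N.par q 1 = m
    · subst h
      rw [if_pos rfl, if_pos rfl]
      simp only [hB, amp, e1, e2, e3, e4, map_mul, Complex.conj_ofReal, hsq (N.par q 1)]
      push_cast
      linear_combination (((√(f (N.par q 1) : ℝ) : ℝ) : ℂ) ^ 2 *
        ((√(f (N.par q 0) : ℝ) : ℝ) : ℂ) *
        ((√(f (N.par q 2) : ℝ) : ℝ) : ℂ) * ((√(f (N.chi q 0) : ℝ) : ℝ) : ℂ) *
        ((√(f (N.chi q 1) : ℝ) : ℝ) : ℂ) * (y (N.par q 0) : ℂ) * (y (N.par q 2) : ℂ) *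
        (y (N.chi q 0) : ℂ) * (y (N.chi q 1) : ℂ)) * hp
    · rw [if_neg h, if_neg h]; simp
  have t5 : -(Complex.I * σ * (f m : ℂ)) *
      (if N.par q 2 = m then (starRingEnd ℂ) (B (N.par q 0)) *
          (starRingEnd ℂ) (B (N.par q 1)) * B (N.chi q 0) * B (N.chi q 1) else 0) =
      - (amp N f σ m * (((√(f (N.par q 0) : ℝ) * √(f (N.par q 1) : ℝ) * √(f (N.par q 2) : ℝ) *
        √(f (N.chi q 0) : ℝ) * √(f (N.chi q 1) : ℝ)) *
      (if N.par q 2 = m then y (N.par q 0) * y (N.par q 1) * y (N.chi q 0) * y (N.chi q 1)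
        else 0) : ℝ) : ℂ)) := by
    by_cases h : N.par q 2 = m
    · subst h
      rw [if_pos rfl, if_pos rfl]
      simp only [hB, amp, e1, e2, e3, e4, map_mul, Complex.conj_ofReal, hsq (N.par q 2)]
      push_cast
      linear_combination (((√(f (N.par q 2) : ℝ) : ℝ) : ℂ) ^ 2 *
        ((√(f (N.par q 0) : ℝ) : ℝ) : ℂ) *
        ((√(f (N.par q 1) : ℝ) : ℝ) : ℂ) * ((√(f (N.chi q 0) : ℝ) : ℝ) : ℂ) *
        ((√(f (N.chi q 1) : ℝ) : ℝ) : ℂ) * (y (N.par q 0) : ℂ) * (y (N.par q 1) : ℂ) *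
        (y (N.chi q 0) : ℂ) * (y (N.chi q 1) : ℂ)) * hp
    · rw [if_neg h, if_neg h]; simp
  simp only [mul_sub, mul_add, Complex.ofReal_add, Complex.ofReal_sub, Complex.ofReal_mul]
    at t1 t2 t3 t4 t5 ⊢
  push_cast at t1 t2 t3 t4 t5 ⊢
  linear_combination 24 * t1 + 24 * t2 + 24 * t3 + 24 * t4 + 24 * t5

end Bridge

open Bridge in
theorem bridgeStmt (h1 : ResSumStmt) : BridgeStmt := by
  intro g M Q iM iD iQ N f hf σ hσ
  refine ⟨fun q => 24 * (√(f (N.par q 0) : ℝ) * √(f (N.par q 1) : ℝ) * √(f (N.par q 2) : ℝ) *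
      √(f (N.chi q 0) : ℝ) * √(f (N.chi q 1) : ℝ)), ?_, ?_⟩
  · intro q
    have hpos : ∀ m, 0 < √(f m : ℝ) := fun m =>
      Real.sqrt_pos.mpr (by exact_mod_cast hf.pos m)
    have a1 := hpos (N.par q 0)
    have a2 := hpos (N.par q 1)
    have a3 := hpos (N.par q 2)
    have a4 := hpos (N.chi q 0)
    have a5 := hpos (N.chi q 1)
    positivity
  intro S x hS hx
  have hsymm : ∀ n ∈ lam f, -n ∈ lam f := by
    intro n hn
    rw [mem_lam] at hn ⊢
    rwa [abs_neg]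
  refine ⟨AA N f σ x, ?_, ?_⟩
  · refine ⟨?_, hsymm, ?_, ?_, ?_, ?_⟩
    · -- zero not in the set
      intro h0
      rw [mem_lam] at h0
      obtain ⟨m, hm⟩ := h0
      have := hf.pos m
      rw [abs_zero] at hm
      have := abs_pos.mpr this.ne'
      omega
    · -- closed
      intro a ha b hb c hc d hd hne hcub
      rw [mem_lam] at ha hb hc hd
      have habs : ∀ m, |f m| = f m := fun m => abs_of_pos (hf.pos m)
      simp only [habs] at ha hb hc hd
      obtain ⟨q, e, he, hms⟩ := hf.closed a b c d ha hb hc hd hne hcub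
      have hmem : -(a + b + c + d) ∈ ({a, b, c, d, -(a + b + c + d)} : Multiset ℤ) := by
        simp
      rw [hms] at hmem
      simp only [Multiset.insert_eq_cons, Multiset.mem_cons, Multiset.mem_singleton] at hmem
      rw [mem_lam]
      have hab : |e| = 1 := by rcases he with h | h <;> subst h <;> simp
      rcases hmem with h | h | h | h | h
      · exact ⟨N.par q 0, by rw [← abs_neg (a + b + c + d), h, abs_mul, hab, one_mul]⟩
      · exact ⟨N.par q 1, by rw [← abs_neg (a + b + c + d), h, abs_mul, hab, one_mul]⟩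
      · exact ⟨N.par q 2, by rw [← abs_neg (a + b + c + d), h, abs_mul, hab, one_mul]⟩
      · exact ⟨N.chi q 0, by rw [neg_injective h, abs_mul, hab, one_mul]⟩
      · exact ⟨N.chi q 1, by rw [neg_injective h, abs_mul, hab, one_mul]⟩
    · -- support
      intro t n hn
      unfold AA
      have h2 : ∀ m, f m ≠ n := fun m h => hn (by rw [mem_lam]; exact ⟨m, by rw [h]⟩)
      have h3 : ∀ m, -f m ≠ n := fun m h => hn (by rw [mem_lam]; exact ⟨m, by rw [← h, abs_neg]⟩)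
      simp [h2, h3]
    · -- reality
      intro t n
      exact AA_neg N f σ x t n
    · -- the equation
      intro t ht n hn
      have key : ∀ m, HasDerivAt (fun τ => AA N f σ x τ (f m))
          (-(Complex.I * σ * ((f m : ℤ) : ℂ)) * ∑ p ∈ (lam f ×ˢ lam f ×ˢ lam f ×ˢ lam f).filter
            (fun p => p.1 + p.2.1 + p.2.2.1 + p.2.2.2 = f m ∧
              p.1 ^ 3 + p.2.1 ^ 3 + p.2.2.1 ^ 3 + p.2.2.2 ^ 3 = f m ^ 3),
            AA N f σ x t p.1 * AA N f σ x t p.2.1 * AA N f σ x t p.2.2.1 *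
              AA N f σ x t p.2.2.2) t := by
        intro m
        rw [h1 g M Q N f hf (AA N f σ x t) (fun n => AA_neg N f σ x t n) m]
        have hd := ((hx t ht m).ofReal_comp).const_mul (amp N f σ m)
        have hfun : (fun τ => AA N f σ x τ (f m)) = fun τ => amp N f σ m * (x τ m : ℂ) := by
          funext τ
          exact AA_f N f hf σ x τ m
        rw [hfun]
        refine hd.congr_deriv ?_
        symm
        unfold Net.field
        rw [Finset.mul_sum, Finset.mul_sum, Complex.ofReal_sum, Finset.mul_sum]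
        refine Finset.sum_congr rfl fun q _ => ?_
        have := term_id N f hf σ hσ (x t) m q (fun m => AA N f σ x t (f m))
          (fun m => AA_f N f hf σ x t m)
        exact this
      rw [lam, Finset.mem_union, Finset.mem_image, Finset.mem_image] at hn
      rcases hn with ⟨m, -, rfl⟩ | ⟨m, -, rfl⟩
      · exact key m
      · have hk := (key m).star
        have hfun : (fun τ => AA N f σ x τ (-f m)) = fun τ => star (AA N f σ x τ (f m)) := by
          funext τ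
          exact AA_neg N f σ x τ (f m)
        rw [hfun]
        refine hk.congr_deriv ?_
        rw [conj_sum_neg (lam f) hsymm (AA N f σ x t) (fun n => AA_neg N f σ x t n) (f m)]
        rw [← starRingEnd_apply, map_mul]
        congr 1
        rw [map_neg, map_mul, map_mul, Complex.conj_I, Complex.conj_ofReal]
        have hci : (starRingEnd ℂ) ((f m : ℤ) : ℂ) = ((f m : ℤ) : ℂ) := by simp
        push_cast
        rw [hci]
        ring
  · -- norms
    intro t s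
    have habs : ∀ m, |(f m : ℝ)| = (f m : ℝ) := fun m =>
      abs_of_pos (by exact_mod_cast hf.pos m)
    have hterm : ∀ m, |(f m : ℝ)| ^ (2 * s) * ‖AA N f σ x t (f m)‖ ^ 2
        = (f m : ℝ) ^ (1 + 2 * s) * x t m ^ 2 := by
      intro m
      have hp : (0 : ℝ) < (f m : ℝ) := by exact_mod_cast hf.pos m
      rw [AA_f N f hf σ x t m, amp, norm_mul, norm_mul, norm_uu, habs, Complex.norm_real,
        Complex.norm_real, Real.norm_eq_abs, Real.norm_eq_abs, mul_one, mul_pow, sq_abs, sq_abs,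
        Real.sq_sqrt hp.le, Real.rpow_add hp, Real.rpow_one]
      ring
    have hterm2 : ∀ m, |((-f m : ℤ) : ℝ)| ^ (2 * s) * ‖AA N f σ x t (-f m)‖ ^ 2
        = (f m : ℝ) ^ (1 + 2 * s) * x t m ^ 2 := by
      intro m
      rw [← hterm m, AA_neg, RCLike.norm_conj]
      push_cast
      rw [abs_neg]
    unfold rsNormSq lam
    rw [Finset.sum_union, Finset.sum_image, Finset.sum_image]
    · have e1 := Finset.sum_congr (rfl : (Finset.univ : Finset M) = Finset.univ)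
        fun m _ => hterm m
      have e2 := Finset.sum_congr (rfl : (Finset.univ : Finset M) = Finset.univ)
        fun m _ => hterm2 m
      rw [e1, e2]
      ring
    · intro m _ m' _ h
      exact hf.inj (neg_injective h)
    · intro m _ m' _ h
      exact hf.inj h
    · rw [Finset.disjoint_left]
      intro n hn hn'
      rw [Finset.mem_image] at hn hn'
      obtain ⟨m, -, rfl⟩ := hn
      obtain ⟨m', -, hm'⟩ := hn'
      have h1 := hf.pos m
      have h2 := hf.pos m'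
      omega

end GKdV
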