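import Pool.Agent.Lib.MP_cb0de5_an.SpecA

/-!
# The cascade theorem
-/

open MeasureTheory Filter Topology Set

noncomputable section

namespace GKdV

namespace CascadeFrom

variable {g : ℕ} {M Q : Type}

theorem Dl_pos (g : ℕ) {K R : ℝ} (hK : 3 ≤ K) (hR : 1 ≤ R) (j : ℕ) : 0 < Dl g K R j := by
  unfold Dl
  positivity

theorem le_Dl (g : ℕ) {K R : ℝ} (hK : 3 ≤ K) (hR : 1 ≤ R) (j : ℕ) : R ≤ Dl g K R j := by
  unfold Dl
  have h1 : (1 : ℝ) ≤ K ^ (g + 1 - j) := one_le_pow₀ (by linarith)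
  nlinarith

theorem st_pos (g : ℕ) {K R : ℝ} (hK : 3 ≤ K) (hR : 1 ≤ R) : 0 < st g K R (g + 1) := by
  unfold st
  exact Finset.sum_pos (fun i _ => Dl_pos g hK hR _) (by simp)

theorem st_nonneg (g : ℕ) {K R : ℝ} (hK : 3 ≤ K) (hR : 1 ≤ R) (j : ℕ) : 0 ≤ st g K R j := by
  unfold st
  exact Finset.sum_nonneg fun i _ => (Dl_pos g hK hR _).le

theorem st_last (g : ℕ) (K R : ℝ) : st g K R (g + 1) = st g K R g + R := by
  unfold st
  rw [Finset.sum_range_succ]
  unfold Dl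
  simp

/-- continuity induction -/
theorem nonneg [Fintype M] {T : ℝ} (hT : 0 < T) {x : ℝ → M → ℝ}
    (hc : ∀ m, ContinuousOn (fun t => x t m) (Icc 0 T)) (h0 : ∀ m, 0 < x 0 m)
    (hstep : ∀ t ∈ Icc 0 T, NonnegTo x t → ∀ m, 0 < x t m) : NonnegTo x T := by
  intro s hs m
  by_contra hneg
  push Not at hneg
  have hclosed : ∀ m, IsClosed (Icc 0 T ∩ (fun t => x t m) ⁻¹' Iic 0) := fun m =>
    (hc m).preimage_isClosed_of_isClosed isClosed_Icc isClosed_Iic
  have hBc : IsCompact (⋃ m, Icc 0 T ∩ (fun t => x t m) ⁻¹' Iic 0) := by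
    refine isCompact_iUnion fun m => ?_
    exact isCompact_Icc.of_isClosed_subset (hclosed m) inter_subset_left
  have hne : (⋃ m, Icc 0 T ∩ (fun t => x t m) ⁻¹' Iic 0).Nonempty :=
    ⟨s, mem_iUnion.mpr ⟨m, hs, hneg.le⟩⟩
  obtain ⟨t₁, ht₁, hleast⟩ := hBc.exists_isLeast hne
  obtain ⟨m₁, ht₁T, hm₁⟩ := mem_iUnion.mp ht₁
  have hm₁' : x t₁ m₁ ≤ 0 := hm₁
  have hlt : ∀ u ∈ Icc 0 T, ∀ m, x u m ≤ 0 → t₁ ≤ u := fun u hu m hm =>
    hleast (mem_iUnion.mpr ⟨m, hu, hm⟩)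
  have hnn : NonnegTo x t₁ := by
    intro u hu m
    have huT : u ∈ Icc 0 T := ⟨hu.1, hu.2.trans ht₁T.2⟩
    by_contra hcon
    push Not at hcon
    have hsub : Icc 0 u ⊆ Icc 0 T := Icc_subset_Icc le_rfl huT.2
    obtain ⟨v, hv, hv0⟩ := intermediate_value_Icc' hu.1 ((hc m).mono hsub)
      (show (0 : ℝ) ∈ Icc (x u m) (x 0 m) from ⟨hcon.le, (h0 m).le⟩)
    have hv0' : x v m = 0 := hv0
    have h1 := hlt v (hsub hv) m hv0'.le
    have h2 : v = u := le_antisymm hv.2 (hu.2.trans h1)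
    rw [h2] at hv0'
    linarith
  have := hstep t₁ ht₁T hnn m₁
  linarith

end CascadeFrom

open CascadeFrom in
theorem cascadeFromStmt : CascadeFromStmt := by
  intro hRun hSq hCr hFill hLate hEarly g M Q _ _ _ N κ hκ ε hε
  rcases Nat.eq_zero_or_pos g with hg | hg
  · -- depth zero
    subst hg
    have hQ : ∀ _ : Q, False := by
      intro q
      have h1 := N.lv_chi q 0
      have h2 := N.lv_par q 0
      have h3 := N.lv_le (N.chi q 0)
      omega
    refine ⟨1, one_pos, fun _ _ => 1, ?_, fun _ _ => rfl, ?_, ?_⟩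
    · intro t _ m
      have h1 : N.field κ (fun _ => 1) m = 0 := by
        unfold Net.field
        exact Finset.sum_eq_zero fun q _ => (hQ q).elim
      rw [h1]
      exact hasDerivAt_const t 1
    · intro m hm
      have := N.lv_le m
      omega
    · intro m _
      linarith
  -- the constants
  obtain ⟨k, hk, hklo⟩ : ∃ k : ℝ, 0 < k ∧ ∀ q, k ≤ κ q := by
    have hs : 0 ≤ ∑ q, (κ q)⁻¹ := Finset.sum_nonneg fun q _ => (inv_pos.mpr (hκ q)).le
    refine ⟨(1 + ∑ q, (κ q)⁻¹)⁻¹, by positivity, fun q => ?_⟩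
    rw [inv_le_comm₀ (by positivity) (hκ q)]
    have h1 : (κ q)⁻¹ ≤ ∑ q, (κ q)⁻¹ :=
      Finset.single_le_sum (f := fun q => (κ q)⁻¹) (fun q _ => (inv_pos.mpr (hκ q)).le)
        (Finset.mem_univ q)
    linarith
  obtain ⟨kk, hkk, hkhi⟩ : ∃ kk : ℝ, 1 ≤ kk ∧ ∀ q, κ q ≤ kk := by
    have hs : 0 ≤ ∑ q, κ q := Finset.sum_nonneg fun q _ => (hκ q).le
    refine ⟨1 + ∑ q, κ q, by linarith, fun q => ?_⟩
    have h1 : κ q ≤ ∑ q, κ q :=
      Finset.single_le_sum (f := κ) (fun q _ => (hκ q).le) (Finset.mem_univ q)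
    linarith
  have hBB : 0 < BB k := by
    unfold BB
    positivity
  obtain ⟨K, hK, hK2⟩ : ∃ K : ℝ, 3 ≤ K ∧ 49 * kk ^ 2 * (4 * BB k + 1) < K ^ 2 := by
    have hc : 0 ≤ 49 * kk ^ 2 * (4 * BB k + 1) := by positivity
    refine ⟨3 + 49 * kk ^ 2 * (4 * BB k + 1), by linarith, ?_⟩
    nlinarith
  obtain ⟨A, μ, R₁, hA, hμ, hμ1, hF⟩ := hFill g k kk K hk hkk hK
  obtain ⟨R₂, hL⟩ := hLate g k kk K hk hkk hK hK2
  obtain ⟨R₃, hE⟩ := hEarly g k kk K hk hkk hK
  obtain ⟨R, hR1, hR2, hR3, hR4, hR5, hR6, hR7⟩ : ∃ R : ℝ, R₁ ≤ R ∧ R₂ ≤ R ∧ R₃ ≤ R ∧ 1 ≤ R ∧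
      A ≤ R ∧ 4 * BB k / ε ≤ R ∧ 1 / (k * ε) ≤ R := by
    refine ⟨max R₁ (max R₂ (max R₃ (max 1 (max A (max (4 * BB k / ε) (1 / (k * ε))))))),
      ?_, ?_, ?_, ?_, ?_, ?_, ?_⟩ <;> simp
  obtain ⟨x, hx⟩ := hRun g M Q N κ k kk K R hk hkk hklo hkhi hK hR4
  obtain ⟨hc, hth, hta, hsq1, hsq2, hsq3⟩ := hSq g M Q N κ k kk K R x hx
  have hT := st_pos g hK hR4
  -- positivity at time zero
  have hchi : ∀ q b, 0 < x 0 (N.chi q b) := by
    intro q b
    fin_cases b
    · change 0 < x 0 (N.chi q 0)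
      rw [hx.init1]
      exact Real.exp_pos _
    · change 0 < x 0 (N.chi q 1)
      rw [hx.init2]
      exact Real.exp_pos _
  have h0 : ∀ m, 0 < x 0 m := by
    intro m
    rcases Nat.eq_zero_or_pos (N.lv m) with h | h
    · rw [hx.init0 m h]
      exact one_pos
    · obtain ⟨q, b, rfl⟩ := N.chi_surj m h
      exact hchi q b
  -- the step
  have hstep : ∀ t ∈ Icc 0 (st g K R (g + 1)), NonnegTo x t → ∀ m, 0 < x t m := by
    intro t ht hnn m
    rcases Nat.lt_or_ge (N.lv m) g with h | h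
    · obtain ⟨q, i, rfl⟩ := N.par_surj m h
      rcases le_total t (st g K R (N.ql q) - Ap k kk (N.ql q)) with h1 | h1
      · exact hE R hR3 M Q N κ x hx t ht hnn q i h1
      · exact hL R hR2 M Q N κ x hx t ht hnn q i h1
    · have hlv : N.lv m = g := le_antisymm (N.lv_le m) h
      obtain ⟨q, b, rfl⟩ := N.chi_surj m (by omega)
      have hql : N.ql q = g := by rw [← N.lv_chi q b, hlv]
      have h2 := hsq2 t ht q b hql
      have h3 := (hCr g M Q N κ k kk K R x hx t ht hnn).1 q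
      have h4 := pow_pos (hchi q b) 2
      have h5 := hnn t ⟨ht.1, le_rfl⟩ (N.chi q b)
      refine lt_of_le_of_ne h5 fun h6 => ?_
      rw [← h6] at h2
      simp only [ne_eq, OfNat.ofNat_ne_zero, not_false_eq_true, zero_pow] at h2
      linarith
  have hNN := nonneg hT hc h0 hstep
  refine ⟨st g K R (g + 1), hT, x, hx.ode, hx.init0, ?_, ?_⟩
  · -- seeds
    have hexp : ∀ y : ℝ, k * R ≤ y → Real.exp (-y) ≤ ε := by
      intro y hy
      have hkR : 0 < k * R := by positivity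
      have h1 : 1 / ε ≤ k * R := by
        have h2 : 1 / (k * ε) ≤ R := hR7
        rw [div_le_iff₀ (by positivity)] at h2 ⊢
        nlinarith
      have h3 : y + 1 ≤ Real.exp y := Real.add_one_le_exp y
      have h4 : 1 / ε ≤ Real.exp y := by linarith
      rw [Real.exp_neg]
      rw [inv_le_comm₀ (Real.exp_pos y) hε, ← one_div]
      exact h4
    intro m hm
    refine ⟨(h0 m).le, ?_⟩
    obtain ⟨q, b, rfl⟩ := N.chi_surj m hm
    fin_cases b
    · change x 0 (N.chi q 0) ≤ ε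
      rw [hx.init1]
      refine hexp _ ?_
      exact mul_le_mul (hklo q) (le_Dl g hK hR4 _) (by linarith) (hκ q).le
    · change x 0 (N.chi q 1) ≤ ε
      rw [hx.init2]
      refine hexp _ ?_
      exact mul_le_mul ((hklo q).trans (hkhi q)) (le_Dl g hK hR4 _) (by linarith) (by linarith)
  · -- the final time
    intro m hm
    obtain ⟨q, b, rfl⟩ := N.chi_surj m (by omega)
    have hql : N.ql q = g := by rw [← N.lv_chi q b, hm]
    have hTm : st g K R (g + 1) ∈ Icc 0 (st g K R (g + 1)) := ⟨hT.le, le_rfl⟩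
    have h2 := hsq2 _ hTm q b hql
    have h3 := (hF R hR1 M Q N κ x hx _ hTm hNN q (by
      rw [hql, st_last]
      linarith)).2.2
    unfold FillAt at h3
    rw [hql, st_last] at h3
    have h4 := h3 (by linarith)
    have hDl : Dl g K R (g + 1) = R := by
      unfold Dl
      simp
    have hmin : min (st g K R g + R - st g K R g) (Dl g K R (g + 1) / 2) = R / 2 := by
      rw [hDl, add_sub_cancel_left]
      exact min_eq_right (by linarith)
    rw [hmin] at h4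
    have h5 : BB k / (R / 2) ^ 2 ≤ ε := by
      rw [div_le_iff₀ (by positivity)]
      have h6 : 4 * BB k ≤ R * ε := (div_le_iff₀ hε).mp hR6
      have h7 : R ≤ R ^ 2 := by nlinarith
      nlinarith [mul_le_mul_of_nonneg_right h7 hε.le]
    have h8 : 0 ≤ x 0 (N.chi q b) ^ 2 := sq_nonneg _
    have h9 := hNN _ hTm (N.chi q b)
    rw [st_last] at h2 h9 ⊢
    have h10 : 1 - ε ≤ x (st g K R g + R) (N.chi q b) ^ 2 := by linarith
    by_contra hcon
    push Not at hcon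
    have h11 : 0 < 1 - ε := lt_of_le_of_lt h9 hcon
    nlinarith [mul_self_nonneg (x (st g K R g + R) (N.chi q b))]

end GKdV
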