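import Pool.Agent.Lib.MP_cb0de5_an.SpecC

/-!
# C4: the Cauchy estimate for Galerkin solutions
-/

open Set

noncomputable section

namespace GKdV

open LP

namespace Cauchy

/-- the box of frequencies `|n| ≤ K` -/
def box (K : ℕ) : Finset ℤ := Finset.Icc (-(K : ℤ)) K

theorem sub_box {K : ℕ} {f : LP} (h : Supp K f) : f.coeff.support ⊆ box K := by
  intro n hn
  rw [Finsupp.mem_support_iff] at hn
  by_contra hc
  apply hn
  apply h
  rw [box, Finset.mem_Icc] at hc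
  by_contra h'
  apply hc
  rw [not_lt, abs_le] at h'
  exact h'

theorem coeff_add' (f g : LP) (n : ℤ) : (f + g).coeff n = f.coeff n + g.coeff n := rfl

theorem coeff_sub' (f g : LP) (n : ℤ) : (f - g).coeff n = f.coeff n - g.coeff n := rfl

theorem I0_re (h1 : AlgFacts) (h2 : NormFacts) {f g : LP} (hf : IsReal f) (hg : IsReal g)
    {s : Finset ℤ} (hfs : f.coeff.support ⊆ s) (hgs : g.coeff.support ⊆ s) :
    (I0 (f * g)).re = ∑ n ∈ s, inner ℝ (f.coeff n) (g.coeff n) := by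
  have e1 := h2.I0_sq f hf
  have e2 := h2.I0_sq g hg
  have e3 := h2.I0_sq (f + g) (h1.real_add f g hf hg)
  have hs : (f + g).coeff.support ⊆ s := by
    intro n hn
    by_contra hc
    rw [Finsupp.mem_support_iff] at hn
    apply hn
    have h3 : f.coeff n = 0 := by
      by_contra h; exact hc (hfs (Finsupp.mem_support_iff.2 h))
    have h4 : g.coeff n = 0 := by
      by_contra h; exact hc (hgs (Finsupp.mem_support_iff.2 h))
    rw [coeff_add', h3, h4, add_zero]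
  rw [h2.n2_sq f s hfs] at e1
  rw [h2.n2_sq g s hgs] at e2
  rw [h2.n2_sq (f + g) s hs] at e3
  have e4 : (f + g) * (f + g) = f * f + (2 : ℂ) • (f * g) + g * g := by
    rw [two_smul]; ring
  rw [e4, h1.I0_add, h1.I0_add, h1.I0_smul, e1, e2] at e3
  have e6 : ∀ n, ‖(f + g).coeff n‖ ^ 2 =
      ‖f.coeff n‖ ^ 2 + 2 * inner ℝ (f.coeff n) (g.coeff n) + ‖g.coeff n‖ ^ 2 := by
    intro n
    rw [coeff_add']
    exact norm_add_sq_real _ _
  have e5 := congrArg Complex.re e3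
  simp only [e6, Finset.sum_add_distrib, ← Finset.mul_sum] at e5
  rw [Complex.add_re, Complex.add_re, Complex.ofReal_re, Complex.ofReal_re, Complex.ofReal_re] at e5
  have e7 : ((2 : ℂ) * I0 (f * g)).re = 2 * (I0 (f * g)).re := by simp
  rw [e7] at e5
  linarith

theorem I0_half (h1 : AlgFacts) (f : LP) (h : f + f = 0) : I0 f = 0 := by
  have := h1.I0_add f f
  rw [h] at this
  have h0 : I0 (0 : LP) = 0 := rfl
  rw [h0] at this
  have h2 : (2 : ℂ) * I0 f = 0 := by linear_combination -this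
  rcases mul_eq_zero.1 h2 with h3 | h3
  · norm_num at h3
  · exact h3

theorem I0_d3 (h1 : AlgFacts) (d : LP) : I0 (d * D (D (D d))) = 0 := by
  have e : (2 : ℂ) • (d * D (D (D d))) = D ((2 : ℂ) • (d * D (D d)) - D d * D d) := by
    rw [h1.D_sub, h1.D_smul, h1.D_mul, h1.D_mul, two_smul, two_smul]
    ring
  have h := h1.I0_smul 2 (d * D (D (D d)))
  rw [e, h1.I0_D] at h
  rcases mul_eq_zero.1 h.symm with h3 | h3
  · norm_num at h3
  · exact h3

theorem I0_dG (h1 : AlgFacts) (d G : LP) : 2 * I0 (d * D (d * G)) = I0 (d * (d * D G)) := by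
  have e : (2 : ℂ) • (d * D (d * G)) = d * (d * D G) + D (d * (d * G)) := by
    simp only [h1.D_mul, two_smul]
    ring
  rw [← h1.I0_smul, e, h1.I0_add, h1.I0_D, add_zero]

theorem nA_D3 (h1 : AlgFacts) (h2 : NormFacts) {R : ℝ} (x y z : LP) (hx : nA x ≤ R)
    (hy : nA y ≤ R) (hz : nA z ≤ R) (hx' : nA (D x) ≤ R) (hy' : nA (D y) ≤ R)
    (hz' : nA (D z) ≤ R) : nA (D (x * (y * z))) ≤ 3 * R ^ 3 := by
  have hR : 0 ≤ R := (h2.nA_nonneg x).trans hx
  have key : ∀ u v w : LP, nA u ≤ R → nA v ≤ R → nA w ≤ R → nA (u * (v * w)) ≤ R ^ 3 := by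
    intro u v w hu hv hw
    calc nA (u * (v * w)) ≤ nA u * (nA v * nA w) := (h2.nA_mul _ _).trans
          (mul_le_mul_of_nonneg_left (h2.nA_mul _ _) (h2.nA_nonneg _))
      _ ≤ R * (R * R) := mul_le_mul hu (mul_le_mul hv hw (h2.nA_nonneg _) hR)
          (mul_nonneg (h2.nA_nonneg _) (h2.nA_nonneg _)) hR
      _ = R ^ 3 := by ring
  have e : D (x * (y * z)) = D x * (y * z) + (x * (D y * z) + x * (y * D z)) := by
    rw [h1.D_mul, h1.D_mul]; ring
  rw [e]
  have b1 := key (D x) y z hx' hy hz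
  have b2 := key x (D y) z hx hy' hz
  have b3 := key x y (D z) hx hy hz'
  have b4 := h2.nA_add (D x * (y * z)) (x * (D y * z) + x * (y * D z))
  have b5 := h2.nA_add (x * (D y * z)) (x * (y * D z))
  linarith

theorem n2_DD4 (h1 : AlgFacts) (h2 : NormFacts) {Mb : ℝ} (hMb : 0 < Mb) (a : LP) (ha : nA a ≤ 2 * Mb)
    (ha' : nA (D a) ≤ 2 * Mb) (ha2 : n2 (D a) ≤ Mb) (ha3 : n2 (D (D a)) ≤ Mb) :
    n2 (D (D (a ^ 4))) ≤ 128 * Mb ^ 4 := by
  have e : D (D (a ^ 4)) = (12 : ℂ) • (a * (a * (D a * D a))) + (4 : ℂ) • (a * (a * (a * D (D a)))) := by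
    have e4 : a ^ 4 = a * (a * (a * a)) := by ring
    rw [e4]
    simp only [h1.D_mul, h1.D_add, Algebra.smul_def, map_ofNat]
    ring
  have key : ∀ u v w x : LP, nA u ≤ 2 * Mb → nA v ≤ 2 * Mb → nA w ≤ 2 * Mb → n2 x ≤ Mb →
      n2 (u * (v * (w * x))) ≤ 8 * Mb ^ 4 := by
    intro u v w x hu hv hw hx
    have g1 : n2 (w * x) ≤ 2 * Mb * Mb := (h2.n2_mul _ _).trans
      (mul_le_mul hw hx (h2.n2_nonneg _) (by positivity))
    have g2 : n2 (v * (w * x)) ≤ 2 * Mb * (2 * Mb * Mb) := (h2.n2_mul _ _).trans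
      (mul_le_mul hv g1 (h2.n2_nonneg _) (by positivity))
    have g3 : n2 (u * (v * (w * x))) ≤ 2 * Mb * (2 * Mb * (2 * Mb * Mb)) := (h2.n2_mul _ _).trans
      (mul_le_mul hu g2 (h2.n2_nonneg _) (by positivity))
    calc _ ≤ _ := g3
      _ = 8 * Mb ^ 4 := by ring
  rw [e]
  have b1 := key a a (D a) (D a) ha ha ha' ha2
  have b2 := key a a a (D (D a)) ha ha ha ha3
  have b3 := h2.n2_add ((12 : ℂ) • (a * (a * (D a * D a)))) ((4 : ℂ) • (a * (a * (a * D (D a)))))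
  rw [h2.n2_smul, h2.n2_smul] at b3
  have b4 : ‖(12 : ℂ)‖ = 12 := by simp
  have b5 : ‖(4 : ℂ)‖ = 4 := by simp
  rw [b4, b5] at b3
  linarith

theorem rhs_bound (h1 : AlgFacts) (h2 : NormFacts) {Mb : ℝ} (hMb : 0 < Mb) (mu : ℝ) {K K' : ℕ}
    (hK : 0 < K) (hKK : K ≤ K') {a b : LP} (ma : MZ a) (mb : MZ b) (sa : Supp K a)
    (sb : Supp K' b) (ba : n2 (D (D a)) ≤ Mb) (bb : n2 (D (D b)) ≤ Mb) :
    (I0 ((b - a) * ((-D (D (D b)) - (mu : ℂ) • cut K' (D (b ^ 4))) -
      (-D (D (D a)) - (mu : ℂ) • cut K (D (a ^ 4)))))).re ≤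
      |mu| * (48 * Mb ^ 3 * n2 (b - a) ^ 2 + n2 (b - a) * (128 * Mb ^ 4 / K)) := by
  have a2 : n2 (D a) ≤ Mb := (h2.poinc_2 _ (h1.mz_D a)).trans ba
  have b2 : n2 (D b) ≤ Mb := (h2.poinc_2 _ (h1.mz_D b)).trans bb
  have aA : nA a ≤ 2 * Mb := (h2.poinc_A a ma).trans (by linarith)
  have bA : nA b ≤ 2 * Mb := (h2.poinc_A b mb).trans (by linarith)
  have aA' : nA (D a) ≤ 2 * Mb := (h2.poinc_A _ (h1.mz_D a)).trans (by linarith)
  have bA' : nA (D b) ≤ 2 * Mb := (h2.poinc_A _ (h1.mz_D b)).trans (by linarith)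
  set d := b - a with hd
  set G : LP := b * (b * b) + b * (b * a) + b * (a * a) + a * (a * a) with hG
  have hfac : b ^ 4 - a ^ 4 = d * G := by rw [hd, hG]; ring
  have hds : Supp K' d := h1.supp_sub K' b a sb (h1.supp_mono K K' a hKK sa)
  have hF : (-D (D (D b)) - (mu : ℂ) • cut K' (D (b ^ 4))) -
      (-D (D (D a)) - (mu : ℂ) • cut K (D (a ^ 4))) =
      -(D (D (D d)) + (mu : ℂ) • (cut K' (D (d * G)) +
        (cut K' (D (a ^ 4)) - cut K (D (a ^ 4))))) := by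
    rw [← hfac, hd, h1.D_sub, h1.D_sub, h1.D_sub, h1.D_sub, h1.cut_sub]
    simp only [smul_add, smul_sub]
    ring
  rw [hF]
  have e1 : d * -(D (D (D d)) + (mu : ℂ) • (cut K' (D (d * G)) +
        (cut K' (D (a ^ 4)) - cut K (D (a ^ 4))))) =
      ((-1 : ℂ)) • (d * D (D (D d))) + ((-mu : ℂ)) • (d * cut K' (D (d * G))) +
        ((-mu : ℂ)) • (d * (cut K' (D (a ^ 4)) - cut K (D (a ^ 4)))) := by
    simp only [smul_add, neg_smul, one_smul, mul_neg, mul_add, mul_smul_comm]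
    ring
  rw [e1, h1.I0_add, h1.I0_add, h1.I0_smul, h1.I0_smul, h1.I0_smul, I0_d3 h1, mul_zero, zero_add]
  have n1 : ‖I0 (d * cut K' (D (d * G)))‖ ≤ 48 * Mb ^ 3 * n2 d ^ 2 := by
    have s1 : I0 (d * cut K' (D (d * G))) = I0 (d * D (d * G)) := by
      rw [← h1.I0_cut, h1.cut_of_supp K' d hds]
    rw [s1]
    have s2 := I0_dG h1 d G
    have s3 : ‖I0 (d * (d * D G))‖ ≤ n2 d * (nA (D G) * n2 d) := by
      refine (h2.I0_mul _ _).trans (mul_le_mul_of_nonneg_left ?_ (h2.n2_nonneg _))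
      rw [mul_comm d (D G)]
      exact h2.n2_mul _ _
    have s4 : nA (D G) ≤ 96 * Mb ^ 3 := by
      rw [hG, h1.D_add, h1.D_add, h1.D_add]
      have t1 := nA_D3 h1 h2 b b b bA bA bA bA' bA' bA'
      have t2 := nA_D3 h1 h2 b b a bA bA aA bA' bA' aA'
      have t3 := nA_D3 h1 h2 b a a bA aA aA bA' aA' aA'
      have t4 := nA_D3 h1 h2 a a a aA aA aA aA' aA' aA'
      have t5 := h2.nA_add (D (b * (b * b)) + D (b * (b * a)) + D (b * (a * a))) (D (a * (a * a)))
      have t6 := h2.nA_add (D (b * (b * b)) + D (b * (b * a))) (D (b * (a * a)))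
      have t7 := h2.nA_add (D (b * (b * b))) (D (b * (b * a)))
      have t8 : (2 * Mb) ^ 3 = 8 * Mb ^ 3 := by ring
      rw [t8] at t1 t2 t3 t4
      linarith
    have s5 : 2 * ‖I0 (d * D (d * G))‖ = ‖I0 (d * (d * D G))‖ := by
      rw [← s2, norm_mul]; simp
    have s6 : n2 d * (nA (D G) * n2 d) ≤ n2 d * (96 * Mb ^ 3 * n2 d) :=
      mul_le_mul_of_nonneg_left (mul_le_mul_of_nonneg_right s4 (h2.n2_nonneg _)) (h2.n2_nonneg _)
    nlinarith
  have n2' : ‖I0 (d * (cut K' (D (a ^ 4)) - cut K (D (a ^ 4))))‖ ≤ n2 d * (128 * Mb ^ 4 / K) := by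
    refine (h2.I0_mul _ _).trans (mul_le_mul_of_nonneg_left ?_ (h2.n2_nonneg _))
    have s1 : cut K' (D (a ^ 4)) - cut K (D (a ^ 4)) =
        cut K' (D (a ^ 4) - cut K (D (a ^ 4))) := by
      rw [h1.cut_sub, h1.cut_cut K K' _ hKK]
    rw [s1]
    refine (h2.n2_cut _ _).trans ((h2.tail_2 K _ hK).trans ?_)
    have hK' : (0 : ℝ) < K := by exact_mod_cast hK
    exact div_le_div_of_nonneg_right (n2_DD4 h1 h2 hMb a aA aA' a2 ba) hK'.le
  refine (Complex.re_le_norm _).trans ((norm_add_le _ _).trans ?_)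
  rw [norm_mul, norm_mul]
  have hm : ‖(-mu : ℂ)‖ = |mu| := by
    rw [norm_neg, Complex.norm_real, Real.norm_eq_abs]
  rw [hm]
  have := mul_le_mul_of_nonneg_left n1 (abs_nonneg mu)
  have := mul_le_mul_of_nonneg_left n2' (abs_nonneg mu)
  linarith

/-- Gronwall with zero initial value. -/
theorem gron {T c q : ℝ} (hc : 0 ≤ c) (hq : 0 ≤ q) (E E' : ℝ → ℝ)
    (hE : ∀ t ∈ Icc 0 T, HasDerivAt E (E' t) t) (h0 : E 0 = 0)
    (hb : ∀ t ∈ Icc 0 T, E' t ≤ c * E t + q) :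
    ∀ t ∈ Icc 0 T, E t ≤ Real.exp (c * T) * (q * T) := by
  intro t ht
  have hT : 0 ≤ T := ht.1.trans ht.2
  have hder : ∀ s ∈ Icc 0 T, HasDerivAt (fun τ => Real.exp (-(c * τ)) * E τ - q * τ)
      (Real.exp (-(c * s)) * (-(c * 1)) * E s + Real.exp (-(c * s)) * E' s - q * 1) s := by
    intro s hs
    exact ((((hasDerivAt_id s).const_mul c).neg.exp).mul (hE s hs)).sub
      ((hasDerivAt_id s).const_mul q)
  have hanti : AntitoneOn (fun τ => Real.exp (-(c * τ)) * E τ - q * τ) (Icc 0 T) := by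
    apply antitoneOn_of_deriv_nonpos (convex_Icc 0 T)
    · intro s hs
      exact (hder s hs).continuousAt.continuousWithinAt
    · intro s hs
      rw [interior_Icc] at hs
      exact (hder s ⟨hs.1.le, hs.2.le⟩).differentiableAt.differentiableWithinAt
    · intro s hs
      rw [interior_Icc] at hs
      have hs' : s ∈ Icc 0 T := ⟨hs.1.le, hs.2.le⟩
      rw [(hder s hs').deriv]
      have h1 := hb s hs'
      have h2 : Real.exp (-(c * s)) ≤ 1 := by
        rw [Real.exp_le_one_iff]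
        have := mul_nonneg hc hs'.1
        linarith
      have h3 := Real.exp_pos (-(c * s))
      have h4 : Real.exp (-(c * s)) * E' s ≤ Real.exp (-(c * s)) * (c * E s + q) :=
        mul_le_mul_of_nonneg_left h1 h3.le
      nlinarith
  have h5 := hanti (left_mem_Icc.2 hT) ht ht.1
  simp only [h0, mul_zero, sub_zero] at h5
  have h6 : Real.exp (-(c * t)) * E t ≤ q * t := by linarith
  have h7 : E t ≤ Real.exp (c * t) * (q * t) := by
    have h8 := mul_le_mul_of_nonneg_left h6 (Real.exp_pos (c * t)).le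
    rw [← mul_assoc, ← Real.exp_add, add_neg_cancel, Real.exp_zero, one_mul] at h8
    exact h8
  refine h7.trans ?_
  apply mul_le_mul
  · exact Real.exp_le_exp.2 (mul_le_mul_of_nonneg_left ht.2 hc)
  · exact mul_le_mul_of_nonneg_left ht.2 hq
  · exact mul_nonneg hq ht.1
  · exact (Real.exp_pos _).le

end Cauchy

open GKdV.Cauchy in
theorem cauchyStmt (h1 : AlgFacts) (h2 : NormFacts) : CauchyStmt := by
  intro Mb lam σ T hMb hT
  set mu : ℝ := lam * σ with hmu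
  set c : ℝ := |mu| * (96 * Mb ^ 3 + 1) with hc
  set q : ℝ := |mu| * (128 * Mb ^ 4) ^ 2 with hq
  have hc0 : 0 ≤ c := by rw [hc]; positivity
  have hq0 : 0 ≤ q := by rw [hq]; positivity
  refine ⟨Real.sqrt (Real.exp (c * T) * (q * T)) + 1, by positivity, ?_⟩
  intro K K' hK hKK a a' ga ga' hinit ba ba'
  have hKr : (0 : ℝ) < K := by exact_mod_cast hK
  set E : ℝ → ℝ := fun t => ∑ n ∈ box K', ‖(a' t).coeff n - (a t).coeff n‖ ^ 2 with hE
  set F : ℝ → LP := fun t => (-D (D (D (a' t))) - ((mu : ℝ) : ℂ) • cut K' (D (a' t ^ 4))) -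
      (-D (D (D (a t))) - ((mu : ℝ) : ℂ) • cut K (D (a t ^ 4))) with hF
  have hsa : ∀ t ∈ Icc 0 T, Supp K' (a t) := fun t ht => h1.supp_mono K K' _ hKK (ga.supp t ht)
  have hdsupp : ∀ t ∈ Icc 0 T, (a' t - a t).coeff.support ⊆ box K' := fun t ht =>
    sub_box (h1.supp_sub K' _ _ (ga'.supp t ht) (hsa t ht))
  have hEn : ∀ t ∈ Icc 0 T, n2 (a' t - a t) ^ 2 = E t := by
    intro t ht
    rw [h2.n2_sq _ (box K') (hdsupp t ht), hE]
    rfl
  have hder : ∀ t ∈ Icc 0 T, HasDerivAt E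
      (∑ n ∈ box K', 2 * inner ℝ ((a' t).coeff n - (a t).coeff n) ((F t).coeff n)) t := by
    intro t ht
    rw [hE]
    apply HasDerivAt.fun_sum
    intro n _
    exact ((ga'.ode t ht n).sub (ga.ode t ht n)).norm_sq
  have hbd : ∀ t ∈ Icc 0 T,
      (∑ n ∈ box K', 2 * inner ℝ ((a' t).coeff n - (a t).coeff n) ((F t).coeff n)) ≤
        c * E t + q / (K : ℝ) ^ 2 := by
    intro t ht
    have r1 : IsReal (a' t - a t) := h1.real_sub _ _ (ga'.real t ht) (ga.real t ht)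
    have rneg : ∀ f : LP, IsReal f → IsReal (-f) := by
      intro f hf
      have := h1.real_smul (-1) f hf
      have e : (((-1 : ℝ) : ℝ) : ℂ) • f = -f := by
        rw [Complex.ofReal_neg, Complex.ofReal_one, neg_smul, one_smul]
      rwa [e] at this
    have rpow : ∀ f : LP, IsReal f → IsReal (f ^ 4) := by
      intro f hf
      have e : f ^ 4 = (f * f) * (f * f) := by ring
      rw [e]
      exact h1.real_mul _ _ (h1.real_mul _ _ hf hf) (h1.real_mul _ _ hf hf)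
    have rF : IsReal (F t) := by
      rw [hF]
      apply h1.real_sub
      · exact h1.real_sub _ _ (rneg _ (h1.real_D _ (h1.real_D _ (h1.real_D _ (ga'.real t ht)))))
          (h1.real_smul _ _ (h1.real_cut _ _ (h1.real_D _ (rpow _ (ga'.real t ht)))))
      · exact h1.real_sub _ _ (rneg _ (h1.real_D _ (h1.real_D _ (h1.real_D _ (ga.real t ht)))))
          (h1.real_smul _ _ (h1.real_cut _ _ (h1.real_D _ (rpow _ (ga.real t ht)))))
    have sneg : ∀ f : LP, Supp K' f → Supp K' (-f) := by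
      intro f hf
      have := h1.supp_smul K' (-1) f hf
      rwa [neg_smul, one_smul] at this
    have sF : Supp K' (F t) := by
      rw [hF]
      apply h1.supp_sub
      · exact h1.supp_sub _ _ _ (sneg _ (h1.supp_D _ _ (h1.supp_D _ _ (h1.supp_D _ _
          (ga'.supp t ht))))) (h1.supp_smul _ _ _ (h1.supp_cut _ _))
      · exact h1.supp_sub _ _ _ (sneg _ (h1.supp_D _ _ (h1.supp_D _ _ (h1.supp_D _ _
          (hsa t ht))))) (h1.supp_smul _ _ _ (h1.supp_mono K K' _ hKK (h1.supp_cut _ _)))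
    have e1 := I0_re h1 h2 r1 rF (hdsupp t ht) (sub_box sF)
    have e2 := rhs_bound h1 h2 hMb mu hK hKK (ga.mz t ht) (ga'.mz t ht) (ga.supp t ht)
      (ga'.supp t ht) (ba t ht) (ba' t ht)
    have e3 : (∑ n ∈ box K', 2 * inner ℝ ((a' t).coeff n - (a t).coeff n) ((F t).coeff n)) =
        2 * (I0 ((a' t - a t) * F t)).re := by
      rw [e1, Finset.mul_sum]
      rfl
    rw [e3]
    have e4 : (I0 ((a' t - a t) * F t)).re ≤
      |mu| * (48 * Mb ^ 3 * n2 (a' t - a t) ^ 2 + n2 (a' t - a t) * (128 * Mb ^ 4 / K)) := e2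
    have e5 : 2 * (n2 (a' t - a t) * (128 * Mb ^ 4 / K)) ≤
        n2 (a' t - a t) ^ 2 + (128 * Mb ^ 4 / K) ^ 2 := by
      nlinarith [sq_nonneg (n2 (a' t - a t) - 128 * Mb ^ 4 / K)]
    have e6 := mul_le_mul_of_nonneg_left e5 (abs_nonneg mu)
    rw [hEn t ht] at e4 e6
    have e7 : q / (K : ℝ) ^ 2 = |mu| * (128 * Mb ^ 4 / K) ^ 2 := by
      rw [hq, div_pow]; ring
    rw [e7, hc]
    nlinarith
  have h0 : E 0 = 0 := by
    rw [hE]
    simp [hinit]
  have hg := gron hc0 (q := q / (K : ℝ) ^ 2) (by positivity) E _ hder h0 hbd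
  intro t ht
  have hg' := hg t ht
  rw [← hEn t ht] at hg'
  have e8 : Real.exp (c * T) * (q / (K : ℝ) ^ 2 * T) = (Real.exp (c * T) * (q * T)) / (K : ℝ) ^ 2 := by
    ring
  rw [e8] at hg'
  have hX : 0 ≤ Real.exp (c * T) * (q * T) := by positivity
  have h9 : n2 (a' t - a t) ≤ Real.sqrt (Real.exp (c * T) * (q * T)) / K := by
    apply le_of_sq_le_sq _ (by positivity)
    rw [div_pow, Real.sq_sqrt hX]
    exact hg'
  refine h9.trans (div_le_div_of_nonneg_right (by linarith) hKr.le)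

end GKdV
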