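import Pool.Agent.Lib.MP_cb0de5_an.SpecA

/-!
# A3b: upper bound for the children
-/

open MeasureTheory Filter Topology Set

noncomputable section

namespace GKdV

namespace ChildUp

theorem es_le_de {g : ℕ} {M Q : Type} [DecidableEq M] [Fintype Q] (N : Net g M Q) (κ : Q → ℝ)
    {k kk K R : ℝ} {x : ℝ → M → ℝ} (hrun : Run N κ k kk K R x) (q : Q) :
    es g kk K R ≤ N.de κ K R q := by
  unfold es Net.de
  apply Real.exp_le_exp.2
  have hK := hrun.K_three
  have hR := hrun.R_one
  have h1 := hrun.κ_hi q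
  have h2 := hrun.kk_one
  have h4 : 1 ≤ N.ql q := by
    have := N.lv_par q 0
    omega
  have h5 : Dl g K R (N.ql q) ≤ Dl g K R 1 := by
    unfold Dl
    apply mul_le_mul_of_nonneg_right _ (by linarith)
    exact pow_le_pow_right₀ (by linarith) (by omega)
  have h6 : 0 ≤ Dl g K R (N.ql q) := by
    unfold Dl
    have : (0 : ℝ) ≤ K := by linarith
    have : (0 : ℝ) ≤ R := by linarith
    positivity
  have h7 : κ q * Dl g K R (N.ql q) ≤ kk * Dl g K R 1 :=
    mul_le_mul h1 h5 h6 (by linarith)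
  linarith

end ChildUp

open ChildUp in
theorem childUpStmt (h1 : NetAlgStmt) (h2 : SqStmt) (h3 : CrudeStmt) (h4 : CompStmt) :
    ChildUpStmt := by
  intro g M Q _ _ _ N κ k kk K R x hrun t ht hnn q
  obtain ⟨hcont, hth, hta, -, -, -⟩ := h2 g M Q N κ k kk K R x hrun
  have hsub : Icc 0 t ⊆ Icc 0 (st g K R (g + 1)) := Icc_subset_Icc (le_refl _) ht.2
  have hκ0 : ∀ q, 0 ≤ κ q := fun q => (hrun.k_pos.le).trans (hrun.κ_lo q)
  set f : ℝ → ℝ := fun s => κ q * N.P3 (x s) q with hf
  set θ : ℝ → ℝ := N.th κ x q with hθ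
  set δ : ℝ := N.de κ K R q with hδ
  set ε : ℝ := es g kk K R with hε
  have hδ0 : 0 < δ := Real.exp_pos _
  have hε0 : 0 < ε := Real.exp_pos _
  have hεδ : ε ≤ δ := es_le_de N κ hrun q
  have hfc : ContinuousOn f (Icc 0 t) := by
    have c0 := (hcont (N.par q 0)).mono hsub
    have c1 := (hcont (N.par q 1)).mono hsub
    have c2 := (hcont (N.par q 2)).mono hsub
    have := ((c0.mul c1).mul c2).const_mul (κ q)
    exact this
  have hP3 : ∀ s ∈ Icc 0 t, 0 ≤ N.P3 (x s) q := fun s hs =>
    mul_nonneg (mul_nonneg (hnn s hs _) (hnn s hs _)) (hnn s hs _)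
  have hf0 : ∀ s ∈ Icc 0 t, 0 ≤ f s := fun s hs => mul_nonneg (hκ0 q) (hP3 s hs)
  have hθd : ∀ s ∈ Icc 0 t, HasDerivWithinAt θ (f s) (Icc 0 t) s := fun s hs =>
    (hth q s (hsub hs)).mono hsub
  have hθ0 : θ 0 = 0 := by
    simp [hθ, Net.th]
  -- derivative of the unperturbed children
  have hu0 : ∀ s ∈ Icc 0 t, HasDerivWithinAt (fun s => δ * Real.cosh (θ s) + ε * Real.sinh (θ s))
      (f s * (δ * Real.sinh (θ s) + ε * Real.cosh (θ s))) (Icc 0 t) s := by
    intro s hs
    have e1 := (hθd s hs).cosh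
    have e2 := (hθd s hs).sinh
    have := (e1.const_mul δ).add (e2.const_mul ε)
    refine this.congr_deriv ?_
    ring
  have hu1 : ∀ s ∈ Icc 0 t, HasDerivWithinAt (fun s => δ * Real.sinh (θ s) + ε * Real.cosh (θ s))
      (f s * (δ * Real.cosh (θ s) + ε * Real.sinh (θ s))) (Icc 0 t) s := by
    intro s hs
    have e1 := (hθd s hs).cosh
    have e2 := (hθd s hs).sinh
    have := (e2.const_mul δ).add (e1.const_mul ε)
    refine this.congr_deriv ?_
    ring
  have hx : ∀ s ∈ Icc 0 t, ∀ m, HasDerivWithinAt (fun s => x s m) (N.field κ (x s) m)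
      (Icc 0 t) s := fun s hs m => (hrun.ode s (hsub hs) m).hasDerivWithinAt
  have hcomp := h4 t f
    (fun s => (δ * Real.cosh (θ s) + ε * Real.sinh (θ s)) - x s (N.chi q 0))
    (fun s => (δ * Real.sinh (θ s) + ε * Real.cosh (θ s)) - x s (N.chi q 1))
    (fun s => f s * (δ * Real.sinh (θ s) + ε * Real.cosh (θ s)) - N.field κ (x s) (N.chi q 0))
    (fun s => f s * (δ * Real.cosh (θ s) + ε * Real.sinh (θ s)) - N.field κ (x s) (N.chi q 1))
    ht.1 hfc hf0 (fun s hs => (hu0 s hs).sub (hx s hs _)) (fun s hs => (hu1 s hs).sub (hx s hs _))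
    (fun s hs => by
      have e1 := (h1 g M Q N κ (x s)).1 q
      have e2 := (h1 g M Q N κ (x s)).2.2.2.2.2.2.2.2.1 hκ0 (fun m => hnn s hs m) (N.chi q 0)
      simp only [hf]
      rw [e1]
      nlinarith)
    (fun s hs => by
      have e1 := (h1 g M Q N κ (x s)).2.1 q
      have e2 := (h1 g M Q N κ (x s)).2.2.2.2.2.2.2.2.1 hκ0 (fun m => hnn s hs m) (N.chi q 1)
      simp only [hf]
      rw [e1]
      nlinarith)
    (by
      have e1 := hrun.init1 q
      simp only [hθ0, Real.cosh_zero, Real.sinh_zero]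
      rw [e1]
      have : δ = Real.exp (-(κ q * Dl g K R (N.ql q))) := rfl
      linarith)
    (by
      have e1 := hrun.init2 q
      simp only [hθ0, Real.cosh_zero, Real.sinh_zero]
      rw [e1]
      have : ε = Real.exp (-(kk * Dl g K R 1)) := rfl
      linarith)
  have htI : t ∈ Icc 0 t := ⟨ht.1, le_refl t⟩
  have hθt : 0 ≤ θ t := (h3 g M Q N κ k kk K R x hrun t ht hnn).2.2.2.1 q
  have hsh : 0 ≤ Real.sinh (θ t) := Real.sinh_nonneg_iff.2 hθt
  have hch : 0 < Real.cosh (θ t) := Real.cosh_pos _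
  have hexp : Real.exp (θ t) = Real.cosh (θ t) + Real.sinh (θ t) := (Real.cosh_add_sinh _).symm
  have hx0 := (hcomp t htI).1
  have hx1 := (hcomp t htI).2
  have hv0 : δ * Real.cosh (θ t) + ε * Real.sinh (θ t) ≤ δ * Real.exp (θ t) := by
    rw [hexp]
    nlinarith
  have hv1 : δ * Real.sinh (θ t) + ε * Real.cosh (θ t) ≤ δ * Real.exp (θ t) := by
    rw [hexp]
    nlinarith
  have hδe : 0 < δ * Real.exp (θ t) := mul_pos hδ0 (Real.exp_pos _)
  refine ⟨?_, ?_, ?_⟩
  · intro b
    fin_cases b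
    · simp [uu]
      linarith
    · simp [uu]
      linarith
  · intro b
    fin_cases b
    · simp
      linarith
    · simp
      linarith
  · -- extent of the reaction
    have hw := h4 t (fun _ => 0)
      (fun s => (δ * Real.sinh (θ s) + ε * Real.cosh (θ s)) ^ 2 - N.ta κ x q s)
      (fun _ => 0)
      (fun s => 2 * (δ * Real.sinh (θ s) + ε * Real.cosh (θ s)) *
        (f s * (δ * Real.cosh (θ s) + ε * Real.sinh (θ s))) - 2 * κ q * N.P5 (x s) q)
      (fun _ => 0)
      ht.1 continuousOn_const (fun _ _ => le_refl _)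
      (fun s hs => by
        have e1 := (hu1 s hs).pow 2
        have e2 := (hta q s (hsub hs)).mono hsub
        refine (e1.sub e2).congr_deriv ?_
        push_cast
        ring)
      (fun s _ => hasDerivWithinAt_const _ _ _)
      (fun s hs => by
        have a0 := (hcomp s hs).1
        have a1 := (hcomp s hs).2
        have b0 := hnn s hs (N.chi q 0)
        have b1 := hnn s hs (N.chi q 1)
        have e1 : x s (N.chi q 0) * x s (N.chi q 1) ≤
            (δ * Real.cosh (θ s) + ε * Real.sinh (θ s)) *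
              (δ * Real.sinh (θ s) + ε * Real.cosh (θ s)) :=
          mul_le_mul (by linarith) (by linarith) b1 (by linarith)
        have e2 := mul_le_mul_of_nonneg_left e1 (hf0 s hs)
        have e3 : κ q * N.P5 (x s) q = f s * (x s (N.chi q 0) * x s (N.chi q 1)) := by
          simp only [hf, Net.P5]
          ring
        simp only [zero_mul]
        nlinarith)
      (fun s _ => by simp)
      (by
        have : N.ta κ x q 0 = 0 := by simp [Net.ta]
        simp only [this, sub_zero]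
        positivity)
      (le_refl _)
    have hlast := (hw t htI).1
    have e1 : 0 ≤ δ * Real.sinh (θ t) + ε * Real.cosh (θ t) := by positivity
    have e2 : (δ * Real.sinh (θ t) + ε * Real.cosh (θ t)) ^ 2 ≤ (δ * Real.exp (θ t)) ^ 2 :=
      pow_le_pow_left₀ e1 hv1 2
    have e3 : (δ * Real.exp (θ t)) ^ 2 = δ ^ 2 * Real.exp (2 * θ t) := by
      rw [mul_pow, ← Real.exp_nat_mul]
      push_cast
      ring
    have e4 : 0 ≤ δ ^ 2 * Real.exp (2 * θ t) := by positivity
    have e5 : 4 * δ ^ 2 * Real.exp (2 * θ t) = 4 * (δ ^ 2 * Real.exp (2 * θ t)) := by ring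
    rw [e5]
    linarith

end GKdV
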