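import Pool.Agent.Lib.MP_cb0de5_an.SpecA

/-!
# A3a: comparison lemma for a cooperative linear system
-/

open MeasureTheory Filter Topology Set

noncomputable section

namespace GKdV

namespace Comp

/-- A differential inequality of Gronwall type. -/
lemma gron (t : ℝ) (c w w' : ℝ → ℝ) (ht : 0 ≤ t) (hc : ContinuousOn c (Icc 0 t))
    (hw : ∀ s ∈ Icc 0 t, HasDerivWithinAt w (w' s) (Icc 0 t) s)
    (h : ∀ s ∈ Icc 0 t, c s * w s ≤ w' s) (h0 : 0 ≤ w 0) : ∀ s ∈ Icc 0 t, 0 ≤ w s := by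
  obtain ⟨g, hg, hgf⟩ : ∃ g : ℝ → ℝ, Continuous g ∧ ∀ s ∈ Icc 0 t, g s = c s := by
    refine ⟨fun s => c (projIcc 0 t ht s), ?_, ?_⟩
    · exact hc.comp_continuous (continuous_subtype_val.comp continuous_projIcc)
        (fun s => (projIcc 0 t ht s).2)
    · intro s hs
      simp only [projIcc_of_mem ht hs]
  have hF : ∀ s, HasDerivAt (fun u => ∫ r in (0 : ℝ)..u, g r) (g s) s := fun s =>
    (hg.integral_hasStrictDerivAt 0 s).hasDerivAt
  let F : ℝ → ℝ := fun u => ∫ r in (0 : ℝ)..u, g r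
  let ψ : ℝ → ℝ := fun u => w u * Real.exp (-F u)
  have hψ : ∀ s ∈ Icc 0 t, HasDerivWithinAt ψ ((w' s - c s * w s) * Real.exp (-F s)) (Icc 0 t) s := by
    intro s hs
    have h1 : HasDerivAt (fun u => Real.exp (-F u)) (Real.exp (-F s) * (-g s)) s :=
      ((hF s).neg).exp
    have h2 := (hw s hs).mul h1.hasDerivWithinAt
    refine h2.congr_deriv ?_
    rw [hgf s hs]
    ring
  have hmono : MonotoneOn ψ (Icc 0 t) := by
    apply monotoneOn_of_deriv_nonneg (convex_Icc 0 t)
    · exact fun s hs => (hψ s hs).continuousWithinAt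
    · intro s hs
      rw [interior_Icc] at hs
      have h1 := (hψ s (Ioo_subset_Icc_self hs)).hasDerivAt (Icc_mem_nhds hs.1 hs.2)
      exact h1.differentiableAt.differentiableWithinAt
    · intro s hs
      rw [interior_Icc] at hs
      have h1 := (hψ s (Ioo_subset_Icc_self hs)).hasDerivAt (Icc_mem_nhds hs.1 hs.2)
      rw [h1.deriv]
      have h2 := h s (Ioo_subset_Icc_self hs)
      exact mul_nonneg (by linarith) (Real.exp_pos _).le
  intro s hs
  have h1 := hmono (left_mem_Icc.2 ht) hs hs.1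
  have h2 : 0 ≤ ψ 0 := mul_nonneg h0 (Real.exp_pos _).le
  have h3 : 0 ≤ w s * Real.exp (-F s) := h2.trans h1
  exact nonneg_of_mul_nonneg_left h3 (Real.exp_pos _)

end Comp

theorem compStmt : CompStmt := by
  intro t f w₁ w₂ w₁' w₂' ht hf hf0 h1 h2 h3 h4 h5 h6
  have ha : ∀ s ∈ Icc 0 t, 0 ≤ w₁ s + w₂ s := by
    apply Comp.gron t f (fun s => w₁ s + w₂ s) (fun s => w₁' s + w₂' s) ht hf
    · exact fun s hs => (h1 s hs).add (h2 s hs)
    · intro s hs
      have := h3 s hs
      have := h4 s hs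
      simp only [mul_add]
      linarith
    · exact add_nonneg h5 h6
  have hw1 : ∀ s ∈ Icc 0 t, 0 ≤ w₁ s := by
    apply Comp.gron t (fun s => - f s) w₁ w₁' ht hf.neg h1
    · intro s hs
      have e1 := h3 s hs
      have e2 := mul_nonneg (hf0 s hs) (ha s hs)
      nlinarith
    · exact h5
  have hw2 : ∀ s ∈ Icc 0 t, 0 ≤ w₂ s := by
    apply Comp.gron t (fun s => - f s) w₂ w₂' ht hf.neg h2
    · intro s hs
      have e1 := h4 s hs
      have e2 := mul_nonneg (hf0 s hs) (ha s hs)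
      nlinarith
    · exact h6
  exact fun s hs => ⟨hw1 s hs, hw2 s hs⟩

end GKdV
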