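import Pool.Agent.Lib.MP_cb0de5_an.SpecA

/-!
# A2: crude bounds
-/

open MeasureTheory Filter Topology Set

noncomputable section

namespace GKdV

namespace Crude

lemma mono_of_deriv {t T : ℝ} (htT : t ≤ T) (φ φ' : ℝ → ℝ)
    (h : ∀ s ∈ Icc 0 T, HasDerivWithinAt φ (φ' s) (Icc 0 T) s) (h0 : ∀ s ∈ Icc 0 t, 0 ≤ φ' s) :
    MonotoneOn φ (Icc 0 t) := by
  have hsub : Icc (0 : ℝ) t ⊆ Icc 0 T := Icc_subset_Icc_right htT
  have hφ : ∀ s ∈ Icc 0 t, HasDerivWithinAt φ (φ' s) (Icc 0 t) s := fun s hs =>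
    (h s (hsub hs)).mono hsub
  apply monotoneOn_of_deriv_nonneg (convex_Icc 0 t)
  · exact fun s hs => (hφ s hs).continuousWithinAt
  · intro s hs
    rw [interior_Icc] at hs
    have h1 := (hφ s (Ioo_subset_Icc_self hs)).hasDerivAt (Icc_mem_nhds hs.1 hs.2)
    exact h1.differentiableAt.differentiableWithinAt
  · intro s hs
    rw [interior_Icc] at hs
    have h1 := (hφ s (Ioo_subset_Icc_self hs)).hasDerivAt (Icc_mem_nhds hs.1 hs.2)
    rw [h1.deriv]
    exact h0 s (Ioo_subset_Icc_self hs)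

lemma Dl_ge (g : ℕ) (K R : ℝ) (hK : 3 ≤ K) (hR : 1 ≤ R) (j : ℕ) : R ≤ Dl g K R j := by
  unfold Dl
  have h1 : (1 : ℝ) ≤ K ^ (g + 1 - j) := one_le_pow₀ (by linarith)
  nlinarith

end Crude

theorem crudeStmt (h1 : NetAlgStmt) (h2 : SqStmt) : CrudeStmt := by
  intro g M Q _ _ _ N κ k kk K R x hrun t ht hnn
  obtain ⟨hcont, hth, hta, hsq1, hsq2, hsq3⟩ := h2 g M Q N κ k kk K R x hrun
  have hκ0 : ∀ q, 0 ≤ κ q := fun q => hrun.k_pos.le.trans (hrun.κ_lo q)
  have htT : t ≤ st g K R (g + 1) := ht.2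
  have hsub : Icc (0 : ℝ) t ⊆ Icc 0 (st g K R (g + 1)) := Icc_subset_Icc_right htT
  have hP3 : ∀ q, ∀ s ∈ Icc 0 t, 0 ≤ N.P3 (x s) q := fun q s hs =>
    mul_nonneg (mul_nonneg (hnn s hs _) (hnn s hs _)) (hnn s hs _)
  have hP5 : ∀ q, ∀ s ∈ Icc 0 t, 0 ≤ N.P5 (x s) q := fun q s hs =>
    mul_nonneg (mul_nonneg (hP3 q s hs) (hnn s hs _)) (hnn s hs _)
  have hmth : ∀ q, MonotoneOn (N.th κ x q) (Icc 0 t) := fun q =>
    Crude.mono_of_deriv htT _ _ (hth q) fun s hs => mul_nonneg (hκ0 q) (hP3 q s hs)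
  have hmta : ∀ q, MonotoneOn (N.ta κ x q) (Icc 0 t) := fun q =>
    Crude.mono_of_deriv htT _ _ (hta q) fun s hs =>
      mul_nonneg (mul_nonneg (by norm_num) (hκ0 q)) (hP5 q s hs)
  have h0t : (0 : ℝ) ∈ Icc 0 t := left_mem_Icc.2 ht.1
  have htt : t ∈ Icc 0 t := right_mem_Icc.2 ht.1
  have hth0 : ∀ q, N.th κ x q 0 = 0 := fun q => by simp [Net.th]
  have hta0 : ∀ q, N.ta κ x q 0 = 0 := fun q => by simp [Net.ta]
  have hta_nn : ∀ q, 0 ≤ N.ta κ x q t := fun q => by
    have := hmta q h0t htt ht.1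
    rwa [hta0] at this
  have hth_nn : ∀ q, 0 ≤ N.th κ x q t := fun q => by
    have := hmth q h0t htt ht.1
    rwa [hth0] at this
  -- seeds
  have he : ∀ q b, x 0 (N.chi q b) ^ 2 ≤ Real.exp (-(2 * k * R)) := by
    intro q b
    have hk : k ≤ κ q := hrun.κ_lo q
    have hkk : k ≤ kk := hk.trans (hrun.κ_hi q)
    have hR := hrun.R_one
    have hkp := hrun.k_pos
    have key : ∀ a j, k ≤ a → Real.exp (-(a * Dl g K R j)) ^ 2 ≤ Real.exp (-(2 * k * R)) := by
      intro a j ha
      rw [← Real.exp_nat_mul]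
      apply Real.exp_le_exp.2
      have hD := Crude.Dl_ge g K R hrun.K_three hR j
      have : k * R ≤ a * Dl g K R j := mul_le_mul ha hD (by linarith) (by linarith)
      push_cast
      linarith
    fin_cases b
    · have h3 := hrun.init1 q
      change x 0 (N.chi q 0) ^ 2 ≤ _
      rw [h3]
      exact key _ _ hk
    · have h3 := hrun.init2 q
      change x 0 (N.chi q 1) ^ 2 ≤ _
      rw [h3]
      exact key _ _ hkk
  have hE : 0 ≤ Real.exp (-(2 * k * R)) := (Real.exp_pos _).le
  -- level of a quintet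
  have hql1 : ∀ q, 1 ≤ N.ql q := fun q => by
    have := N.lv_par q 0
    omega
  have hqlg : ∀ q, N.ql q ≤ g := fun q => by
    have h3 := N.lv_chi q 0
    have h4 := N.lv_le (N.chi q 0)
    omega
  have hone : ∀ q, N.ql q = 1 → N.ta κ x q t ≤ 1 := by
    intro q hq
    have h3 := hsq3 t ht q 0 hq
    have h4 := sq_nonneg (x t (N.par q 0))
    linarith
  have hind : ∀ j : ℕ, ∀ q, N.ql q = j + 1 →
      N.ta κ x q t ≤ 1 + j * Real.exp (-(2 * k * R)) := by
    intro j
    induction j with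
    | zero =>
      intro q hq
      have := hone q hq
      simpa using this
    | succ j ih =>
      intro q hq
      have hlv : N.lv (N.par q 0) = j + 1 := by
        have := N.lv_par q 0
        omega
      obtain ⟨q', b, hb⟩ := N.chi_surj (N.par q 0) (by omega)
      have hq' : N.ql q' = j + 1 := by
        rw [← N.lv_chi q' b, hb, hlv]
      have h3 := hsq1 t ht q' b q 0 hb.symm
      have h4 := ih q' hq'
      have h5 := he q' b
      have h6 := sq_nonneg (x t (N.chi q' b))
      push_cast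
      linarith
  have hbound : ∀ q, N.ta κ x q t ≤ 1 + ((g : ℝ) - 1) * Real.exp (-(2 * k * R)) := by
    intro q
    have h3 := hql1 q
    have h4 := hqlg q
    obtain ⟨j, hj⟩ : ∃ j, N.ql q = j + 1 := ⟨N.ql q - 1, by omega⟩
    have h5 := hind j q hj
    have h6 : (j : ℝ) ≤ (g : ℝ) - 1 := by
      have : j + 1 ≤ g := by omega
      have h7 : ((j + 1 : ℕ) : ℝ) ≤ (g : ℝ) := by exact_mod_cast this
      push_cast at h7
      linarith
    nlinarith
  have hlow : ∀ m, N.lv m = 0 → x t m ^ 2 ≤ 1 := by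
    intro m hm
    by_cases hg : 0 < g
    · obtain ⟨q, i, hq⟩ := N.par_surj m (by omega)
      have hq1 : N.ql q = 1 := by
        have := N.lv_par q i
        rw [hq, hm] at this
        omega
      have h3 := hsq3 t ht q i hq1
      rw [hq] at h3
      have := hta_nn q
      linarith
    · have hg0 : g = 0 := by omega
      have hder : ∀ s ∈ Icc 0 t, HasDerivAt (fun τ => x τ m) 0 s := by
        intro s hs
        have h3 := hrun.ode s (hsub hs) m
        obtain ⟨-, -, e3, e4, -⟩ := h1 g M Q N κ (x s)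
        rw [e3 m hm, e4 m (by omega), neg_zero] at h3
        exact h3
      have h4 : x t m = x 0 m := by
        have := constant_of_has_deriv_right_zero (f := fun τ => x τ m) (a := 0) (b := t)
          (fun s hs => (hder s hs).continuousAt.continuousWithinAt)
          (fun s hs => (hder s (Ico_subset_Icc_self hs)).hasDerivWithinAt)
        exact this t htt
      rw [h4, hrun.init0 m hm]
      norm_num
  refine ⟨hta_nn, ?_, ?_, hth_nn, ?_, hone, ?_, ?_⟩
  · intro q s hs
    exact hmta q hs htt hs.2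
  · intro q s hs
    exact hmth q hs htt hs.2
  · intro q
    have h3 := hbound q
    unfold om
    nlinarith
  · intro m
    by_cases hm : N.lv m = 0
    · have h3 := hlow m hm
      unfold om
      have : (0 : ℝ) ≤ (g : ℝ) := Nat.cast_nonneg g
      nlinarith [mul_nonneg this hE]
    · obtain ⟨q, b, hb⟩ := N.chi_surj m (by omega)
      have h3 := hbound q
      have h4 := he q b
      have hle := N.lv_le m
      by_cases hmg : N.lv m = g
      · have hqg : N.ql q = g := by rw [← N.lv_chi q b, hb, hmg]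
        have h5 := hsq2 t ht q b hqg
        rw [hb] at h5 h4
        unfold om
        nlinarith
      · obtain ⟨q', i, hi⟩ := N.par_surj m (by omega)
        have h5 := hsq1 t ht q b q' i (by rw [hi, hb])
        rw [hb] at h5 h4
        have h6 := hta_nn q'
        unfold om
        nlinarith
  · intro m hm
    have h3 := hlow m hm
    have h4 := hnn t htt m
    nlinarith

end GKdV
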