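import Pool.Agent.Lib.MP_cb0de5_an.SpecC

/-!
# Sobolev norms of dilated trigonometric polynomials
-/

set_option autoImplicit false

open MeasureTheory Filter Topology Set

noncomputable section

namespace GKdV

open LP

namespace DilF

lemma continuous_ev (h3 : EvFacts) (f : LP) : Continuous (ev f) :=
  continuous_iff_continuousAt.mpr fun x => (h3.ev_deriv f x).continuousAt

lemma continuous_dil (h3 : EvFacts) (c : ℝ) (N : ℕ) (f : LP) : Continuous (dil c N f) := by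
  unfold dil
  exact continuous_const.mul ((continuous_ev h3 f).comp (continuous_const.mul continuous_id))

lemma fc_dil (h3 : EvFacts) (c : ℝ) {N : ℕ} (hN : 0 < N) {f : LP} (hf : IsReal f) (m : ℤ) :
    fc (dil c N f) m = if (N : ℤ) ∣ m then c * f.coeff (m / N) else 0 :=
  h3.fc_ev f hf c N hN m

/-- the summand vanishes off the dilated support -/
lemma term_zero (h3 : EvFacts) (s c : ℝ) {N : ℕ} (hN : 0 < N) {f : LP} (hf : IsReal f)
    {F : Finset ℤ} (hF : f.coeff.support ⊆ F) (m : ℤ)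
    (hm : m ∉ F.image fun n => (N : ℤ) * n) :
    (1 + (m : ℝ) ^ 2) ^ s * ‖fc (dil c N f) m‖ ^ 2 = 0 := by
  rw [fc_dil h3 c hN hf]
  by_cases hd : (N : ℤ) ∣ m
  · rw [if_pos hd]
    obtain ⟨k, rfl⟩ := hd
    have hN0 : (N : ℤ) ≠ 0 := by exact_mod_cast hN.ne'
    rw [Int.mul_ediv_cancel_left _ hN0]
    have hk : k ∉ F := fun h => hm (Finset.mem_image_of_mem _ h)
    have h0 : f.coeff k = 0 := by
      by_contra h
      exact hk (hF (Finsupp.mem_support_iff.mpr h))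
    rw [h0]
    simp
  · rw [if_neg hd]
    simp

lemma term_eq (h3 : EvFacts) (s c : ℝ) {N : ℕ} (hN : 0 < N) {f : LP} (hf : IsReal f) (n : ℤ) :
    (1 + (((N : ℤ) * n : ℤ) : ℝ) ^ 2) ^ s * ‖fc (dil c N f) ((N : ℤ) * n)‖ ^ 2 =
      (1 + ((N : ℝ) * n) ^ 2) ^ s * (c ^ 2 * ‖f.coeff n‖ ^ 2) := by
  have hN0 : (N : ℤ) ≠ 0 := by exact_mod_cast hN.ne'
  rw [fc_dil h3 c hN hf, if_pos (dvd_mul_right _ _), Int.mul_ediv_cancel_left _ hN0, norm_mul,
    Complex.norm_real, mul_pow, Real.norm_eq_abs, sq_abs]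
  push_cast
  rfl

lemma tsum_eq (h3 : EvFacts) (s c : ℝ) {N : ℕ} (hN : 0 < N) {f : LP} (hf : IsReal f)
    {F : Finset ℤ} (hF : f.coeff.support ⊆ F) :
    ∑' m : ℤ, (1 + (m : ℝ) ^ 2) ^ s * ‖fc (dil c N f) m‖ ^ 2 =
      ∑ n ∈ F, (1 + ((N : ℝ) * n) ^ 2) ^ s * (c ^ 2 * ‖f.coeff n‖ ^ 2) := by
  have hN0 : (N : ℤ) ≠ 0 := by exact_mod_cast hN.ne'
  rw [tsum_eq_sum (s := F.image fun n => (N : ℤ) * n)
    (fun m hm => term_zero h3 s c hN hf hF m hm)]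
  rw [Finset.sum_image fun a _ b _ h => mul_left_cancel₀ hN0 h]
  exact Finset.sum_congr rfl fun n _ => term_eq h3 s c hN hf n

lemma normSq_eq (h3 : EvFacts) (s c : ℝ) {N : ℕ} (hN : 0 < N) {f : LP} (hf : IsReal f)
    {F : Finset ℤ} (hF : f.coeff.support ⊆ F) :
    hsNorm s (dil c N f) ^ 2 = ∑ n ∈ F, (1 + ((N : ℝ) * n) ^ 2) ^ s * (c ^ 2 * ‖f.coeff n‖ ^ 2) := by
  unfold hsNorm
  rw [Real.sq_sqrt (tsum_nonneg fun m => by positivity), tsum_eq h3 s c hN hf hF]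

lemma supp_D_sub (h1 : AlgFacts) (f : LP) : (D f).coeff.support ⊆ f.coeff.support := by
  intro n hn
  rw [Finsupp.mem_support_iff] at hn ⊢
  intro h
  exact hn (by rw [h1.D_coeff, h, mul_zero])

lemma n2_D (h1 : AlgFacts) (h2 : NormFacts) (f : LP) :
    n2 (D f) ^ 2 = ∑ n ∈ f.coeff.support, (n : ℝ) ^ 2 * ‖f.coeff n‖ ^ 2 := by
  rw [h2.n2_sq (D f) f.coeff.support (supp_D_sub h1 f)]
  refine Finset.sum_congr rfl fun n _ => ?_
  rw [h1.D_coeff, norm_mul, norm_mul, Complex.norm_I, one_mul, mul_pow, Complex.norm_intCast,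
    sq_abs]

lemma n2_DD (h1 : AlgFacts) (h2 : NormFacts) (f : LP) :
    n2 (D (D f)) ^ 2 = ∑ n ∈ f.coeff.support, (n : ℝ) ^ 4 * ‖f.coeff n‖ ^ 2 := by
  rw [h2.n2_sq (D (D f)) f.coeff.support ((supp_D_sub h1 _).trans (supp_D_sub h1 f))]
  refine Finset.sum_congr rfl fun n _ => ?_
  rw [h1.D_coeff, h1.D_coeff, norm_mul, norm_mul, norm_mul, norm_mul, Complex.norm_I, one_mul,
    Complex.norm_intCast]
  have : |(n : ℝ)| ^ 4 = (n : ℝ) ^ 4 := by
    rw [show 4 = 2 * 2 from rfl, pow_mul, pow_mul, sq_abs]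
  calc _ = |(n : ℝ)| ^ 4 * ‖f.coeff n‖ ^ 2 := by ring
    _ = _ := by rw [this]

lemma one_le_sq {n : ℤ} (hn : n ≠ 0) : (1 : ℝ) ≤ (n : ℝ) ^ 2 := by
  have h : (1 : ℤ) ≤ n ^ 2 := by
    have := sq_pos_of_ne_zero hn
    omega
  exact_mod_cast h

lemma ne_zero_of_mem {f : LP} (hz : MZ f) {n : ℤ} (hn : n ∈ f.coeff.support) : n ≠ 0 := by
  rintro rfl
  exact (Finsupp.mem_support_iff.mp hn) hz

end DilF

open DilF

theorem dilFacts (h1 : AlgFacts) (h2 : NormFacts) (h3 : EvFacts) : DilFacts where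
  mem := by
    intro s c N f hN hf
    refine ⟨?_, (continuous_dil h3 c N f).aestronglyMeasurable,
      ((continuous_dil h3 c N f).pow 2).intervalIntegrable _ _, ?_⟩
    · intro x
      unfold dil
      have h := (h3.ev_periodic f).nat_mul N (N * x)
      rw [mul_add]
      rw [h]
    · exact summable_of_ne_finset_zero (s := f.coeff.support.image fun n => (N : ℤ) * n)
        fun m hm => term_zero h3 s c hN hf (Finset.Subset.refl _) m hm
  normSq := by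
    intro s c N f hN hf F hF
    exact normSq_eq h3 s c hN hf hF
  le_D := by
    intro s c N f hs0 hs1 hN hf hz
    rw [normSq_eq h3 s c hN hf (Finset.Subset.refl _), n2_D h1 h2, Finset.mul_sum]
    refine Finset.sum_le_sum fun n hn => ?_
    have hn2 := one_le_sq (ne_zero_of_mem hz hn)
    have hN1 : (1 : ℝ) ≤ (N : ℝ) ^ 2 := by
      have : (1 : ℝ) ≤ N := by exact_mod_cast hN
      nlinarith
    have hb : (1 : ℝ) ≤ 1 + ((N : ℝ) * n) ^ 2 := by nlinarith [sq_nonneg ((N : ℝ) * n)]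
    have e1 : (1 + ((N : ℝ) * n) ^ 2) ^ s ≤ 1 + ((N : ℝ) * n) ^ 2 := by
      calc _ ≤ (1 + ((N : ℝ) * n) ^ 2) ^ (1 : ℝ) := Real.rpow_le_rpow_of_exponent_le hb hs1
        _ = _ := Real.rpow_one _
    have e2 : 1 + ((N : ℝ) * n) ^ 2 ≤ 2 * (N : ℝ) ^ 2 * (n : ℝ) ^ 2 := by
      rw [mul_pow]
      nlinarith
    calc (1 + ((N : ℝ) * n) ^ 2) ^ s * (c ^ 2 * ‖f.coeff n‖ ^ 2)
        ≤ (2 * (N : ℝ) ^ 2 * (n : ℝ) ^ 2) * (c ^ 2 * ‖f.coeff n‖ ^ 2) :=
          mul_le_mul_of_nonneg_right (e1.trans e2) (by positivity)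
      _ = _ := by ring
  le_DD := by
    intro s N f hs0 hs1 hN hf hz
    have hNp : (0 : ℝ) < N := by exact_mod_cast hN
    have hsq : hsNorm s (dil ((N : ℝ) ^ (-s)) N f) ^ 2 ≤ (2 * n2 (D (D f))) ^ 2 := by
      rw [normSq_eq h3 s _ hN hf (Finset.Subset.refl _), mul_pow, n2_DD h1 h2, Finset.mul_sum]
      refine Finset.sum_le_sum fun n hn => ?_
      have hn2 := one_le_sq (ne_zero_of_mem hz hn)
      have hN1 : (1 : ℝ) ≤ (N : ℝ) ^ 2 := by
        have : (1 : ℝ) ≤ N := by exact_mod_cast hN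
        nlinarith
      have hc : ((N : ℝ) ^ (-s)) ^ 2 = (((N : ℝ) ^ 2)⁻¹) ^ s := by
        rw [Real.inv_rpow (by positivity), ← Real.rpow_natCast, ← Real.rpow_mul hNp.le,
          ← Real.rpow_natCast (N : ℝ) 2, ← Real.rpow_mul hNp.le, ← Real.rpow_neg hNp.le]
        congr 1
        push_cast
        ring
      have e1 : (1 + ((N : ℝ) * n) ^ 2) ^ s * ((N : ℝ) ^ (-s)) ^ 2 ≤ 2 * (n : ℝ) ^ 2 := by
        rw [hc, ← Real.mul_rpow (by positivity) (by positivity)]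
        have e2 : (1 + ((N : ℝ) * n) ^ 2) * ((N : ℝ) ^ 2)⁻¹ ≤ 2 * (n : ℝ) ^ 2 := by
          rw [← div_eq_mul_inv, div_le_iff₀ (by positivity), mul_pow]
          nlinarith
        have e3 : (1 : ℝ) ≤ 2 * (n : ℝ) ^ 2 := by linarith
        calc _ ≤ (2 * (n : ℝ) ^ 2) ^ s := Real.rpow_le_rpow (by positivity) e2 hs0
          _ ≤ (2 * (n : ℝ) ^ 2) ^ (1 : ℝ) := Real.rpow_le_rpow_of_exponent_le e3 hs1
          _ = _ := Real.rpow_one _
      have e4 : 2 * (n : ℝ) ^ 2 ≤ 2 ^ 2 * (n : ℝ) ^ 4 := by nlinarith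
      calc (1 + ((N : ℝ) * n) ^ 2) ^ s * (((N : ℝ) ^ (-s)) ^ 2 * ‖f.coeff n‖ ^ 2)
          = ((1 + ((N : ℝ) * n) ^ 2) ^ s * ((N : ℝ) ^ (-s)) ^ 2) * ‖f.coeff n‖ ^ 2 := by ring
        _ ≤ (2 ^ 2 * (n : ℝ) ^ 4) * ‖f.coeff n‖ ^ 2 :=
            mul_le_mul_of_nonneg_right (e1.trans e4) (by positivity)
        _ = _ := by ring
    have h0 : 0 ≤ 2 * n2 (D (D f)) := mul_nonneg (by norm_num) (h2.n2_nonneg _)
    exact (pow_le_pow_iff_left₀ (Real.sqrt_nonneg _) h0 (by norm_num)).mp hsq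

end GKdV
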