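import Pool.Agent.Lib.MP_cb0de5_an.SpecD

/-!
# The lemma of du Bois-Reymond
-/

open MeasureTheory Filter Topology Set

noncomputable section

namespace GKdV

open LP

namespace DuBois

theorem isub {a b : ℝ} (F G : ℝ → ℝ) (hF : Continuous F) (hG : Continuous G) :
    ∫ t in a..b, (F t - G t) = (∫ t in a..b, F t) - ∫ t in a..b, G t :=
  intervalIntegral.integral_sub (hF.intervalIntegrable _ _) (hG.intervalIntegrable _ _)

theorem iadd {a b : ℝ} (F G : ℝ → ℝ) (hF : Continuous F) (hG : Continuous G) :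
    ∫ t in a..b, (F t + G t) = (∫ t in a..b, F t) + ∫ t in a..b, G t :=
  intervalIntegral.integral_add (hF.intervalIntegrable _ _) (hG.intervalIntegrable _ _)

theorem avg {a b : ℝ} (hab : a ≤ b) {f H : ℝ → ℝ} (hf : Continuous f) (hH : Continuous H)
    (hf0 : ∀ t, 0 ≤ f t) (hf1 : ∫ t in a..b, f t = 1) {c η : ℝ}
    (h : ∀ t, f t ≠ 0 → |H t - c| ≤ η) : |(∫ t in a..b, f t * H t) - c| ≤ η := by
  have e1 : (∫ t in a..b, f t * H t) - c = ∫ t in a..b, f t * (H t - c) := by
    have e2 : ∀ t, f t * (H t - c) = f t * H t - c * f t := fun t => by ring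
    have e3 : ∫ t in a..b, (f t * H t - c * f t) = (∫ t in a..b, f t * H t) -
        ∫ t in a..b, c * f t := isub _ _ (hf.mul hH) (continuous_const.mul hf)
    simp only [e2]
    rw [e3, intervalIntegral.integral_const_mul, hf1, mul_one]
  rw [e1]
  have h2 : ∀ t, ‖f t * (H t - c)‖ ≤ f t * η := by
    intro t
    rw [norm_mul, Real.norm_of_nonneg (hf0 t), Real.norm_eq_abs]
    by_cases h0 : f t = 0
    · rw [h0, zero_mul, zero_mul]
    · exact mul_le_mul_of_nonneg_left (h t h0) (hf0 t)
  have h3 := intervalIntegral.norm_integral_le_of_norm_le (μ := volume) hab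
    (f := fun t => f t * (H t - c)) (g := fun t => f t * η)
    (Filter.Eventually.of_forall fun t _ => h2 t)
    ((hf.mul continuous_const).intervalIntegrable _ _)
  rw [intervalIntegral.integral_mul_const, hf1, one_mul, Real.norm_eq_abs] at h3
  exact h3

/-- A smooth bump function with integral one and support in `[c - r, c + r]`. -/
theorem bump (c r : ℝ) (hr : 0 < r) : ∃ f : ℝ → ℝ, ContDiff ℝ (⊤ : ℕ∞) f ∧ (∀ t, 0 ≤ f t) ∧
    (∀ t, f t ≠ 0 → c - r < t ∧ t < c + r) ∧ ∫ t, f t = 1 := by
  let φ : ContDiffBump c := ⟨r / 2, r, by linarith, by linarith⟩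
  refine ⟨φ.normed volume, φ.contDiff_normed, φ.nonneg_normed, fun t ht => ?_, φ.integral_normed⟩
  have h1 : t ∈ Function.support (φ.normed volume) := ht
  rw [φ.support_normed_eq, Metric.mem_ball, Real.dist_eq, abs_lt] at h1
  exact ⟨by linarith [h1.1], by linarith [h1.2]⟩

theorem main (a b : ℝ) (h G : ℝ → ℝ) (hab : a < b) (hh : Continuous h) (hG : Continuous G)
    (H : ∀ χ : ℝ → ℝ, ContDiff ℝ (⊤ : ℕ∞) χ →
      (∃ a' b', a < a' ∧ b' < b ∧ ∀ t ∉ Icc a' b', χ t = 0) →
      ∫ t in a..b, (deriv χ t * h t + χ t * G t) = 0) : h b - h a = ∫ t in a..b, G t := by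
  set P : ℝ → ℝ := fun t => ∫ τ in a..t, G τ with hP
  have hPd : ∀ t, HasDerivAt P (G t) t := fun t =>
    intervalIntegral.integral_hasDerivAt_right (hG.intervalIntegrable _ _)
      (hG.stronglyMeasurableAtFilter _ _) hG.continuousAt
  have hPc : Continuous P := continuous_iff_continuousAt.2 fun t => (hPd t).continuousAt
  have hPa : P a = 0 := intervalIntegral.integral_same
  set K : ℝ → ℝ := fun t => h t - P t with hK
  have hKc : Continuous K := hh.sub hPc
  suffices hs : K a = K b by
    have h1 : h a - P a = h b - P b := hs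
    rw [hPa] at h1
    have h2 : P b = ∫ t in a..b, G t := rfl
    linarith
  by_contra hne
  set η : ℝ := |K a - K b| / 3 with hη
  have hη0 : 0 < η := by
    have : 0 < |K a - K b| := abs_pos.2 (sub_ne_zero.2 hne)
    positivity
  obtain ⟨ε₁, hε₁, h1⟩ := Metric.continuousAt_iff.1 (hKc.continuousAt (x := a)) η hη0
  obtain ⟨ε₂, hε₂, h2⟩ := Metric.continuousAt_iff.1 (hKc.continuousAt (x := b)) η hη0
  obtain ⟨ε, hε, he1, he2, he3⟩ : ∃ ε > 0, 2 * ε ≤ ε₁ ∧ 2 * ε ≤ ε₂ ∧ 4 * ε ≤ b - a := by
    refine ⟨min (ε₁ / 2) (min (ε₂ / 2) ((b - a) / 4)), ?_, ?_, ?_, ?_⟩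
    · have : 0 < b - a := by linarith
      positivity
    · have := min_le_left (ε₁ / 2) (min (ε₂ / 2) ((b - a) / 4))
      linarith
    · have := (min_le_right (ε₁ / 2) (min (ε₂ / 2) ((b - a) / 4))).trans (min_le_left _ _)
      linarith
    · have := (min_le_right (ε₁ / 2) (min (ε₂ / 2) ((b - a) / 4))).trans (min_le_right _ _)
      linarith
  obtain ⟨f, hf, hf0, hfs, hf1⟩ := bump (a + 3 / 2 * ε) (ε / 2) (by linarith)
  obtain ⟨g, hg, hg0, hgs, hg1⟩ := bump (b - 3 / 2 * ε) (ε / 2) (by linarith)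
  have hfs' : ∀ t, f t ≠ 0 → a + ε < t ∧ t < a + 2 * ε := fun t ht =>
    ⟨by linarith [(hfs t ht).1], by linarith [(hfs t ht).2]⟩
  have hgs' : ∀ t, g t ≠ 0 → b - 2 * ε < t ∧ t < b - ε := fun t ht =>
    ⟨by linarith [(hgs t ht).1], by linarith [(hgs t ht).2]⟩
  have hfi : ∀ t, a + 2 * ε ≤ t → ∫ τ in a..t, f τ = 1 := by
    intro t ht
    rw [intervalIntegral.integral_eq_integral_of_support_subset, hf1]
    intro τ hτ
    have := hfs' τ hτ
    exact ⟨by linarith, by linarith⟩
  have hgi : ∀ t, b - ε ≤ t → ∫ τ in a..t, g τ = 1 := by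
    intro t ht
    rw [intervalIntegral.integral_eq_integral_of_support_subset, hg1]
    intro τ hτ
    have := hgs' τ hτ
    exact ⟨by linarith, by linarith⟩
  set χ : ℝ → ℝ := fun t => ∫ τ in a..t, (f τ - g τ) with hχ
  have hfg : Continuous (fun τ => f τ - g τ) := hf.continuous.sub hg.continuous
  have hχd : ∀ t, HasDerivAt χ (f t - g t) t := fun t =>
    intervalIntegral.integral_hasDerivAt_right (hfg.intervalIntegrable _ _)
      (hfg.stronglyMeasurableAtFilter _ _) hfg.continuousAt
  have hχd' : deriv χ = fun t => f t - g t := funext fun t => (hχd t).deriv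
  have hχs : ContDiff ℝ (⊤ : ℕ∞) χ := by
    rw [contDiff_infty_iff_deriv]
    refine ⟨fun t => (hχd t).differentiableAt, ?_⟩
    rw [hχd']
    exact hf.sub hg
  have hχc : Continuous χ := hχs.continuous
  have hχz : ∀ t ∉ Icc (a + ε) (b - ε), χ t = 0 := by
    intro t ht
    rcases lt_or_ge t (a + ε) with h3 | h3
    · have e : ∫ τ in a..t, (f τ - g τ) = ∫ τ in a..t, (0 : ℝ) := by
        refine intervalIntegral.integral_congr fun τ hτ => ?_
        have hτ' : τ ≤ a + ε := by
          rcases le_total a t with h4 | h4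
          · rw [uIcc_of_le h4] at hτ
            exact hτ.2.trans h3.le
          · rw [uIcc_of_ge h4] at hτ
            exact hτ.2.trans (by linarith)
        have e1 : f τ = 0 := by
          by_contra h5
          linarith [(hfs' τ h5).1]
        have e2 : g τ = 0 := by
          by_contra h5
          linarith [(hgs' τ h5).1]
        show f τ - g τ = 0
        rw [e1, e2, sub_zero]
      show ∫ τ in a..t, (f τ - g τ) = 0
      rw [e, intervalIntegral.integral_zero]
    · have h4 : b - ε < t := by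
        by_contra h5
        exact ht ⟨h3, not_lt.1 h5⟩
      show ∫ τ in a..t, (f τ - g τ) = 0
      rw [intervalIntegral.integral_sub (hf.continuous.intervalIntegrable _ _)
        (hg.continuous.intervalIntegrable _ _), hfi t (by linarith), hgi t h4.le, sub_self]
  have hχa : χ a = 0 := hχz a (fun h => by linarith [h.1])
  have hχb : χ b = 0 := hχz b (fun h => by linarith [h.2])
  have key := H χ hχs ⟨a + ε, b - ε, by linarith, by linarith, hχz⟩
  rw [hχd'] at key
  have hparts : ∫ t in a..b, χ t * G t = -∫ t in a..b, (f t - g t) * P t := by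
    have := intervalIntegral.integral_mul_deriv_eq_deriv_mul (a := a) (b := b) (u := χ) (v := P)
      (u' := fun t => f t - g t) (v' := G) (fun t _ => hχd t) (fun t _ => hPd t)
      (hfg.intervalIntegrable _ _) (hG.intervalIntegrable _ _)
    rw [this, hχa, hχb]
    ring
  have key2 : ∫ t in a..b, (f t - g t) * K t = 0 := by
    have e1 : ∀ t, (f t - g t) * K t = (f t - g t) * h t - (f t - g t) * P t := fun t => by
      rw [hK]
      ring
    have e3 : ∫ t in a..b, ((f t - g t) * h t - (f t - g t) * P t) =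
        (∫ t in a..b, (f t - g t) * h t) - ∫ t in a..b, (f t - g t) * P t :=
      isub _ _ (hfg.mul hh) (hfg.mul hPc)
    have e4 : ∫ t in a..b, ((f t - g t) * h t + χ t * G t) =
        (∫ t in a..b, (f t - g t) * h t) + ∫ t in a..b, χ t * G t :=
      iadd _ _ (hfg.mul hh) (hχc.mul hG)
    simp only [e1]
    rw [e3]
    rw [e4, hparts] at key
    linarith
  have key3 : ∫ t in a..b, f t * K t = ∫ t in a..b, g t * K t := by
    have e1 : ∀ t, (f t - g t) * K t = f t * K t - g t * K t := fun t => by ring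
    have e3 : ∫ t in a..b, (f t * K t - g t * K t) =
        (∫ t in a..b, f t * K t) - ∫ t in a..b, g t * K t :=
      isub _ _ (hf.continuous.mul hKc) (hg.continuous.mul hKc)
    simp only [e1] at key2
    rw [e3] at key2
    linarith
  have b1 : |(∫ t in a..b, f t * K t) - K a| ≤ η := by
    refine avg hab.le hf.continuous hKc hf0 (hfi b (by linarith)) fun t ht => ?_
    have h3 := hfs' t ht
    have h4 := h1 (x := t) (by
      rw [Real.dist_eq, abs_lt]
      exact ⟨by linarith, by linarith⟩)
    rw [Real.dist_eq] at h4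
    exact h4.le
  have b2 : |(∫ t in a..b, g t * K t) - K b| ≤ η := by
    refine avg hab.le hg.continuous hKc hg0 (hgi b (by linarith)) fun t ht => ?_
    have h3 := hgs' t ht
    have h4 := h2 (x := t) (by
      rw [Real.dist_eq, abs_lt]
      exact ⟨by linarith, by linarith⟩)
    rw [Real.dist_eq] at h4
    exact h4.le
  rw [key3] at b1
  have b3 : |K a - K b| ≤ 2 * η := by
    rw [abs_le] at b1 b2 ⊢
    exact ⟨by linarith [b1.1, b1.2, b2.1, b2.2], by linarith [b1.1, b1.2, b2.1, b2.2]⟩
  linarith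

end DuBois

theorem duBoisStmt : DuBoisStmt := by
  intro a b h G hab hh hG H
  let h' : ℝ → ℝ := IccExtend hab.le ((Icc a b).domRestrict h)
  let G' : ℝ → ℝ := IccExtend hab.le ((Icc a b).domRestrict G)
  have hh' : Continuous h' := (continuousOn_iff_continuous_domRestrict.1 hh).Icc_extend'
  have hG' : Continuous G' := (continuousOn_iff_continuous_domRestrict.1 hG).Icc_extend'
  have e1 : ∀ t ∈ Icc a b, h' t = h t := fun t ht => IccExtend_of_mem _ _ ht
  have e2 : ∀ t ∈ Icc a b, G' t = G t := fun t ht => IccExtend_of_mem _ _ ht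
  have key := DuBois.main a b h' G' hab hh' hG' (by
    intro χ hχ hχs
    rw [← H χ hχ hχs]
    refine intervalIntegral.integral_congr fun t ht => ?_
    rw [uIcc_of_le hab.le] at ht
    show deriv χ t * h' t + χ t * G' t = deriv χ t * h t + χ t * G t
    rw [e1 t ht, e2 t ht])
  rw [e1 b (right_mem_Icc.2 hab.le), e1 a (left_mem_Icc.2 hab.le)] at key
  rw [key]
  refine intervalIntegral.integral_congr fun t ht => ?_
  rw [uIcc_of_le hab.le] at ht
  exact e2 t ht

end GKdV
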