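import Pool.Agent.Lib.MP_cb0de5_an.SpecC

/-!
# The bound of the energy terms
-/

set_option autoImplicit false

open MeasureTheory Filter Topology Set

noncomputable section

namespace GKdV

open LP

namespace EnergyBound

lemma nA_mul_le (h2 : NormFacts) {f g : LP} {X Y : ℝ} (hf : nA f ≤ X) (hg : nA g ≤ Y) :
    nA (f * g) ≤ X * Y :=
  (h2.nA_mul f g).trans (mul_le_mul hf hg (h2.nA_nonneg g) ((h2.nA_nonneg f).trans hf))

lemma nA_add_le (h2 : NormFacts) {f g : LP} {X Y : ℝ} (hf : nA f ≤ X) (hg : nA g ≤ Y) :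
    nA (f + g) ≤ X + Y := (h2.nA_add f g).trans (add_le_add hf hg)

lemma n2_mul_le (h2 : NormFacts) {f g : LP} {X Y : ℝ} (hf : nA f ≤ X) (hg : n2 g ≤ Y) :
    n2 (f * g) ≤ X * Y :=
  (h2.n2_mul f g).trans (mul_le_mul hf hg (h2.n2_nonneg g) ((h2.nA_nonneg f).trans hf))

lemma n2_add_le (h2 : NormFacts) {f g : LP} {X Y : ℝ} (hf : n2 f ≤ X) (hg : n2 g ≤ Y) :
    n2 (f + g) ≤ X + Y := (h2.n2_add f g).trans (add_le_add hf hg)

lemma I0_mul_le (h2 : NormFacts) {f g : LP} {X Y : ℝ} (hf : n2 f ≤ X) (hg : n2 g ≤ Y) :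
    ‖I0 (f * g)‖ ≤ X * Y :=
  (h2.I0_mul f g).trans (mul_le_mul hf hg (h2.n2_nonneg g) ((h2.n2_nonneg f).trans hf))

end EnergyBound

open EnergyBound

theorem energyBoundStmt (h1 : AlgFacts) (h2 : NormFacts) (h3 : EnergyIdStmt) :
    EnergyBoundStmt := by
  intro a b z B hz hmz hB hb0 hb1 hb2 hb3
  rw [h3 a b z hz]
  set e : ℝ := n2 (D (D z)) with he
  have he0 : 0 ≤ e := h2.n2_nonneg _
  have hz1 : n2 (D z) ≤ e := h2.poinc_2 _ (h1.mz_D z)
  have hz0 : n2 z ≤ e := (h2.poinc_2 _ hmz).trans hz1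
  have hzA : nA z ≤ 2 * e := (h2.poinc_A _ hmz).trans (by linarith)
  have hzA1 : nA (D z) ≤ 2 * e := h2.poinc_A _ (h1.mz_D z)
  set X : ℝ := B + 2 * e with hX
  have hX0 : 0 ≤ X := by positivity
  have hBX : B ≤ X := by linarith
  have hab : a = b + z := by rw [hz]; ring
  have ha0 : nA a ≤ X := by
    rw [hab]
    exact nA_add_le h2 hb0 hzA
  have ha1 : nA (D a) ≤ X := by
    rw [hab, h1.D_add]
    exact nA_add_le h2 hb1 hzA1
  have hb0' := hb0.trans hBX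
  have hb1' := hb1.trans hBX
  have hb2' := hb2.trans hBX
  have hb3' := hb3.trans hBX
  -- term 1
  have t1 : ‖I0 (a ^ 2 * D a * (D (D z) * D (D z)))‖ ≤ X ^ 3 * e ^ 2 := by
    have e1 : a ^ 2 * D a * (D (D z) * D (D z)) = (a * a * D a * D (D z)) * D (D z) := by ring
    rw [e1]
    have e2 : n2 (a * a * D a * D (D z)) ≤ X * X * X * e :=
      n2_mul_le h2 (nA_mul_le h2 (nA_mul_le h2 ha0 ha0) ha1) le_rfl
    refine (I0_mul_le h2 e2 le_rfl).trans (le_of_eq ?_)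
    ring
  -- term 2
  have t2 : ‖I0 ((a ^ 3 - b ^ 3) * D (D (D b)) * D (D z))‖ ≤ 3 * (X ^ 3 * e ^ 2) := by
    have e1 : (a ^ 3 - b ^ 3) * D (D (D b)) * D (D z) =
        (D (D (D b)) * ((a * a + a * b + b * b) * z)) * D (D z) := by rw [hz]; ring
    rw [e1]
    have e2 : n2 (D (D (D b)) * ((a * a + a * b + b * b) * z)) ≤
        X * ((X * X + X * X + X * X) * e) :=
      n2_mul_le h2 hb3' (n2_mul_le h2 (nA_add_le h2 (nA_add_le h2 (nA_mul_le h2 ha0 ha0)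
        (nA_mul_le h2 ha0 hb0')) (nA_mul_le h2 hb0' hb0')) hz0)
    refine (I0_mul_le h2 e2 le_rfl).trans (le_of_eq ?_)
    ring
  -- term 3
  have t3 : ‖I0 ((a ^ 2 * D a - b ^ 2 * D b) * D (D b) * D (D z))‖ ≤ 3 * (X ^ 3 * e ^ 2) := by
    have e1 : (a ^ 2 * D a - b ^ 2 * D b) * D (D b) * D (D z) =
        (D (D b) * (a * a * D z + (a + b) * D b * z)) * D (D z) := by
      have hDz : D z = D a - D b := by rw [hz, h1.D_sub]
      rw [hDz]
      have hzz : z = a - b := hz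
      rw [hzz]
      ring
    rw [e1]
    have e2 : n2 (D (D b) * (a * a * D z + (a + b) * D b * z)) ≤
        X * (X * X * e + (X + X) * X * e) :=
      n2_mul_le h2 hb2' (n2_add_le h2 (n2_mul_le h2 (nA_mul_le h2 ha0 ha0) hz1)
        (n2_mul_le h2 (nA_mul_le h2 (nA_add_le h2 ha0 hb0') hb1') hz0))
    refine (I0_mul_le h2 e2 le_rfl).trans (le_of_eq ?_)
    ring
  -- term 4
  have t4 : ‖I0 ((a * D a ^ 3 - b * D b ^ 3) * D (D z))‖ ≤ 4 * (X ^ 3 * e ^ 2) := by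
    have e1 : (a * D a ^ 3 - b * D b ^ 3) * D (D z) =
        (D a * D a * D a * z + b * (D a * D a + D a * D b + D b * D b) * D z) * D (D z) := by
      have hDz : D z = D a - D b := by rw [hz, h1.D_sub]
      rw [hDz]
      have hzz : z = a - b := hz
      rw [hzz]
      ring
    rw [e1]
    have e2 : n2 (D a * D a * D a * z + b * (D a * D a + D a * D b + D b * D b) * D z) ≤
        X * X * X * e + X * (X * X + X * X + X * X) * e :=
      n2_add_le h2 (n2_mul_le h2 (nA_mul_le h2 (nA_mul_le h2 ha1 ha1) ha1) hz0)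
        (n2_mul_le h2 (nA_mul_le h2 hb0' (nA_add_le h2 (nA_add_le h2 (nA_mul_le h2 ha1 ha1)
          (nA_mul_le h2 ha1 hb1')) (nA_mul_le h2 hb1' hb1'))) hz1)
    refine (I0_mul_le h2 e2 le_rfl).trans (le_of_eq ?_)
    ring
  have hY : 0 ≤ X ^ 3 * e ^ 2 := by positivity
  have n30 : ‖(30 : ℂ)‖ = 30 := by norm_num
  have n4 : ‖(4 : ℂ)‖ = 4 := by norm_num
  have n36 : ‖(36 : ℂ)‖ = 36 := by norm_num
  have n24 : ‖(24 : ℂ)‖ = 24 := by norm_num
  calc _ ≤ ‖(30 : ℂ) * I0 (a ^ 2 * D a * (D (D z) * D (D z)))‖ +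
        ‖(4 : ℂ) * I0 ((a ^ 3 - b ^ 3) * D (D (D b)) * D (D z))‖ +
        ‖(36 : ℂ) * I0 ((a ^ 2 * D a - b ^ 2 * D b) * D (D b) * D (D z))‖ +
        ‖(24 : ℂ) * I0 ((a * D a ^ 3 - b * D b ^ 3) * D (D z))‖ := by
        refine (norm_add_le _ _).trans (add_le_add_left ?_ _)
        refine (norm_add_le _ _).trans (add_le_add_left ?_ _)
        exact norm_add_le _ _
    _ ≤ 250 * X ^ 3 * e ^ 2 := by
        rw [norm_mul, norm_mul, norm_mul, norm_mul, n30, n4, n36, n24]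
        nlinarith

end GKdV
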