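import Pool.Agent.Lib.MP_cb0de5_an.SpecC

/-!
# C3a: the energy identity
-/

noncomputable section

namespace GKdV

open LP

namespace EnergyId

theorem I0_num (h1 : AlgFacts) (n : ℕ) (f : LP) : I0 ((n : LP) * f) = (n : ℂ) * I0 f := by
  rw [← h1.I0_smul, Algebra.smul_def, map_natCast]

theorem D3_pow (h1 : AlgFacts) (f : LP) : D (D (D (f ^ 4))) =
    4 * (f ^ 3 * D (D (D f))) + 36 * (f ^ 2 * D f * D (D f)) + 24 * (f * D f ^ 3) := by
  have e4 : f ^ 4 = f * (f * (f * f)) := by ring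
  rw [e4]
  simp only [h1.D_mul, h1.D_add]
  ring

end EnergyId

theorem energyIdStmt (h1 : AlgFacts) : EnergyIdStmt := by
  intro a b z hz
  have hw1 : D (D (D a)) = D (D (D z)) + D (D (D b)) := by
    rw [← h1.D_add, ← h1.D_add, ← h1.D_add, hz, sub_add_cancel]
  have hw2 : D (D a) = D (D z) + D (D b) := by
    rw [← h1.D_add, ← h1.D_add, hz, sub_add_cancel]
  have hmain : D (D z) * D (D (D (a ^ 4 - b ^ 4))) =
      ((30 : ℕ) : LP) * (a ^ 2 * D a * (D (D z) * D (D z))) +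
      ((4 : ℕ) : LP) * ((a ^ 3 - b ^ 3) * D (D (D b)) * D (D z)) +
      ((36 : ℕ) : LP) * ((a ^ 2 * D a - b ^ 2 * D b) * D (D b) * D (D z)) +
      ((24 : ℕ) : LP) * ((a * D a ^ 3 - b * D b ^ 3) * D (D z)) +
      ((2 : ℕ) : LP) * D (a * (a * a) * (D (D z) * D (D z))) := by
    rw [h1.D_sub, h1.D_sub, h1.D_sub, EnergyId.D3_pow h1, EnergyId.D3_pow h1, hw1, hw2]
    simp only [h1.D_mul]
    push_cast
    ring
  rw [hmain]
  simp only [h1.I0_add, EnergyId.I0_num h1, h1.I0_D]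
  push_cast
  ring

end GKdV
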