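import Pool.Agent.Lib.MP_cb0de5_an.SpecC

/-!
# MP_cb0de5_an, module C0c: evaluation of trigonometric polynomials
-/

open MeasureTheory Filter Topology Set

noncomputable section

namespace GKdV

open LP

namespace EvF

/-- the character `n ↦ e^{inx}` -/
def chr (x : ℝ) : Multiplicative ℤ →* ℂ where
  toFun n := Complex.exp (Complex.I * (n.toAdd : ℂ) * x)
  map_one' := by simp
  map_mul' a b := by
    rw [← Complex.exp_add]
    congr 1
    rw [toAdd_mul]
    push_cast
    ring

/-- the complex value -/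
def cev (x : ℝ) : LP →ₐ[ℂ] ℂ := AddMonoidAlgebra.lift ℂ ℂ ℤ (chr x)

theorem cev_eq_supp (f : LP) (x : ℝ) :
    cev x f = ∑ n ∈ f.coeff.support, f.coeff n * Complex.exp (Complex.I * n * x) := by
  rw [cev, AddMonoidAlgebra.lift_apply, Finsupp.sum]
  refine Finset.sum_congr rfl fun n _ => ?_
  rw [smul_eq_mul]
  rfl

theorem cev_eq (f : LP) (x : ℝ) (s : Finset ℤ) (hs : f.coeff.support ⊆ s) :
    cev x f = ∑ n ∈ s, f.coeff n * Complex.exp (Complex.I * n * x) := by
  rw [cev_eq_supp]
  refine Finset.sum_subset hs fun n _ hn => ?_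
  rw [Finsupp.notMem_support_iff.1 hn, zero_mul]

theorem ev_eq (f : LP) (x : ℝ) : ev f x = (cev x f).re := by
  rw [cev_eq_supp]
  rfl

theorem cev_conj (f : LP) (hf : IsReal f) (x : ℝ) : (starRingEnd ℂ) (cev x f) = cev x f := by
  rw [cev_eq_supp, map_sum]
  refine Finset.sum_nbij' (fun n => -n) (fun n => -n) ?_ ?_ ?_ ?_ ?_
  · intro n hn
    rw [Finsupp.mem_support_iff] at hn ⊢
    rw [hf n]
    exact fun h => hn (by simpa using h)
  · intro n hn
    rw [Finsupp.mem_support_iff] at hn ⊢
    rw [hf n]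
    exact fun h => hn (by simpa using h)
  · intro n _; simp
  · intro n _; simp
  · intro n _
    rw [map_mul, hf n, ← Complex.exp_conj]
    congr 2
    simp

theorem cev_real (f : LP) (hf : IsReal f) (x : ℝ) : ((ev f x : ℝ) : ℂ) = cev x f := by
  rw [ev_eq]
  exact Complex.conj_eq_iff_re.1 (cev_conj f hf x)

theorem norm_exp_I (n : ℤ) (x : ℝ) : ‖Complex.exp (Complex.I * n * x)‖ = 1 := by
  have : (Complex.I * n * x : ℂ) = ((n * x : ℝ) : ℂ) * Complex.I := by push_cast; ring
  rw [this, Complex.norm_exp_ofReal_mul_I]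

theorem cev_hasDerivAt (f : LP) (x : ℝ) : HasDerivAt (fun y : ℝ => cev y f) (cev x (D f)) x := by
  have h1 : (fun y : ℝ => cev y f)
      = fun y : ℝ => ∑ n ∈ f.coeff.support, f.coeff n * Complex.exp (Complex.I * n * y) := by
    funext y
    exact cev_eq_supp f y
  have hs : (D f).coeff.support ⊆ f.coeff.support := by
    intro n hn
    rw [Finsupp.mem_support_iff] at hn ⊢
    intro h
    apply hn
    change Complex.I * (n : ℂ) * f.coeff n = 0
    rw [h, mul_zero]
  rw [h1, cev_eq (D f) x _ hs]
  refine HasDerivAt.fun_sum fun n _ => ?_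
  have h2 : HasDerivAt (fun y : ℝ => Complex.I * n * (y : ℂ)) (Complex.I * n) x := by
    have := (Complex.ofRealCLM.hasDerivAt (x := x)).const_mul (Complex.I * (n : ℂ))
    simpa using this
  have h3 := (h2.cexp).const_mul (f.coeff n)
  refine h3.congr_deriv ?_
  change _ = Complex.I * (n : ℂ) * f.coeff n * _
  ring

theorem integral_exp_I (k : ℤ) :
    ∫ x in (0 : ℝ)..(2 * Real.pi), Complex.exp (Complex.I * k * x)
      = if k = 0 then (2 * Real.pi : ℂ) else 0 := by
  split_ifs with h
  · subst h
    simp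
  · have hc : (Complex.I * k : ℂ) ≠ 0 := mul_ne_zero Complex.I_ne_zero (by exact_mod_cast h)
    rw [integral_exp_mul_complex hc]
    have h1 : (Complex.I * k * ((2 * Real.pi : ℝ) : ℂ) : ℂ) = k * (2 * Real.pi * Complex.I) := by
      push_cast; ring
    rw [h1, Complex.exp_int_mul_two_pi_mul_I]
    simp

end EvF

open EvF

theorem evFacts : EvFacts where
  ev_le := by
    intro f x
    rw [ev_eq, cev_eq_supp]
    refine (Complex.abs_re_le_norm _).trans ((norm_sum_le _ _).trans ?_)
    refine Finset.sum_le_sum fun n _ => ?_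
    rw [norm_mul, norm_exp_I, mul_one]
  ev_add := by
    intro f g x
    rw [ev_eq, ev_eq, ev_eq, map_add, Complex.add_re]
  ev_sub := by
    intro f g x
    rw [ev_eq, ev_eq, ev_eq, map_sub, Complex.sub_re]
  ev_smul := by
    intro c f x
    rw [ev_eq, ev_eq, map_smul, smul_eq_mul, Complex.re_ofReal_mul]
  ev_mul := by
    intro f g hf hg x
    have h : ((ev (f * g) x : ℝ) : ℂ) = ((ev f x * ev g x : ℝ) : ℂ) := by
      rw [Complex.ofReal_mul, cev_real f hf, cev_real g hg, ev_eq, map_mul]
      rw [← cev_real f hf, ← cev_real g hg, ← Complex.ofReal_mul, Complex.ofReal_re]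
    exact_mod_cast h
  ev_deriv := by
    intro f x
    have h := Complex.reCLM.hasFDerivAt.comp_hasDerivAt x (cev_hasDerivAt f x)
    have h1 : ev f = (⇑Complex.reCLM ∘ fun y : ℝ => cev y f) := by
      funext y
      exact ev_eq f y
    rw [h1, ev_eq]
    exact h
  ev_periodic := by
    intro f x
    rw [ev_eq, ev_eq, cev_eq_supp, cev_eq_supp]
    congr 1
    refine Finset.sum_congr rfl fun n _ => ?_
    congr 1
    have h1 : (Complex.I * n * ((x + 2 * Real.pi : ℝ) : ℂ) : ℂ)
        = Complex.I * n * x + n * (2 * Real.pi * Complex.I) := by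
      push_cast; ring
    rw [h1, Complex.exp_add, Complex.exp_int_mul_two_pi_mul_I, mul_one]
  ev_sum := by
    intro f s hs x
    rw [ev_eq, cev_eq f x s hs]
  fc_ev := by
    intro f hf c N hN m
    rw [fc]
    have h1 : ∀ x : ℝ, ((c * ev f (N * x) : ℝ) : ℂ) * Complex.exp (-(Complex.I * m * x))
        = ∑ n ∈ f.coeff.support,
          (c * f.coeff n) * Complex.exp (Complex.I * ((N * n - m : ℤ) : ℂ) * x) := by
      intro x
      rw [Complex.ofReal_mul, cev_real f hf, cev_eq_supp, Finset.mul_sum, Finset.sum_mul]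
      refine Finset.sum_congr rfl fun n _ => ?_
      have h2 : (c : ℂ) * (f.coeff n * Complex.exp (Complex.I * n * ((N * x : ℝ) : ℂ)))
          * Complex.exp (-(Complex.I * m * x))
          = (c * f.coeff n) * (Complex.exp (Complex.I * n * ((N * x : ℝ) : ℂ))
            * Complex.exp (-(Complex.I * m * x))) := by ring
      rw [h2, ← Complex.exp_add]
      congr 2
      push_cast
      ring
    simp_rw [h1]
    rw [intervalIntegral.integral_finsetSum]
    swap
    · intro n _
      apply Continuous.intervalIntegrable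
      fun_prop
    simp_rw [intervalIntegral.integral_const_mul, integral_exp_I]
    have hpi : (2 * Real.pi : ℂ) ≠ 0 := by
      exact_mod_cast (by positivity : (2 * Real.pi : ℝ) ≠ 0)
    split_ifs with hd
    · obtain ⟨k, rfl⟩ := hd
      have hN' : (N : ℤ) ≠ 0 := by exact_mod_cast hN.ne'
      rw [Int.mul_ediv_cancel_left k hN']
      have h2 : ∀ n : ℤ, ((N : ℤ) * n - N * k = 0) ↔ n = k := by
        intro n
        rw [sub_eq_zero]
        exact ⟨fun h => mul_left_cancel₀ hN' h, fun h => by rw [h]⟩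
      simp_rw [h2, mul_ite, mul_zero]
      rw [Finset.sum_ite_eq']
      split_ifs with hk
      · field_simp
      · rw [Finsupp.notMem_support_iff.1 hk]
        simp
    · have h2 : ∀ n : ℤ, ¬ ((N : ℤ) * n - m = 0) := by
        intro n h
        exact hd ⟨n, by linarith⟩
      simp [h2]

end GKdV
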