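import Pool.Agent.Lib.MP_cb0de5_an.SpecA

/-!
# Module A6 (filling): induction on the level
-/

open MeasureTheory Filter Topology Set

noncomputable section

namespace GKdV

namespace Fill

lemma Dl_nonneg (g : ℕ) (K R : ℝ) (hK : 3 ≤ K) (hR : 1 ≤ R) (j : ℕ) : 0 ≤ Dl g K R j := by
  unfold Dl
  positivity

lemma Dl_ge (g : ℕ) (K R : ℝ) (hK : 3 ≤ K) (hR : 1 ≤ R) (j : ℕ) : R ≤ Dl g K R j := by
  unfold Dl
  have h1 : (1 : ℝ) ≤ K ^ (g + 1 - j) := one_le_pow₀ (by linarith)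
  nlinarith

lemma st_mono (g : ℕ) (K R : ℝ) (hK : 3 ≤ K) (hR : 1 ≤ R) {i j : ℕ} (hij : i ≤ j) :
    st g K R i ≤ st g K R j := by
  unfold st
  exact Finset.sum_le_sum_of_subset_of_nonneg (Finset.range_mono hij)
    fun n _ _ => Dl_nonneg g K R hK hR _

lemma st_nonneg (g : ℕ) (K R : ℝ) (hK : 3 ≤ K) (hR : 1 ≤ R) (j : ℕ) : 0 ≤ st g K R j := by
  unfold st
  exact Finset.sum_nonneg fun n _ => Dl_nonneg g K R hK hR _

lemma fillAt_mono {g : ℕ} {M Q : Type} (N : Net g M Q) (κ : Q → ℝ) (k K R : ℝ)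
    (x : ℝ → M → ℝ) (A A' : ℝ) (hA : A ≤ A') (q : Q) (t : ℝ) (h : FillAt N κ k K R x A q t) :
    FillAt N κ k K R x A' q t := by
  intro h'
  exact h (by linarith)

lemma exp_le_sinh (θ : ℝ) (h : 1 ≤ θ) : Real.exp θ / 4 ≤ Real.sinh θ := by
  rw [Real.sinh_eq]
  have h1 : 2 ≤ Real.exp θ := by
    have := Real.add_one_le_exp θ
    linarith
  have h2 : Real.exp (-θ) ≤ 1 / 2 := by
    rw [Real.exp_neg]
    rw [inv_eq_one_div]
    exact one_div_le_one_div_of_le (by norm_num) h1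
  linarith

lemma uu_ge (δ ε θ : ℝ) (hδ : 0 ≤ δ) (hε : 0 ≤ ε) (h : 1 ≤ θ) (b : Fin 2) :
    δ * Real.exp θ / 4 ≤ uu δ ε θ b := by
  have h1 := exp_le_sinh θ h
  have h2 : Real.sinh θ ≤ Real.cosh θ := (Real.sinh_lt_cosh θ).le
  have h3 : 0 ≤ Real.sinh θ := le_trans (by positivity) h1
  have h4 : 0 ≤ Real.cosh θ := h3.trans h2
  have h5 : δ * (Real.exp θ / 4) ≤ δ * Real.sinh θ := mul_le_mul_of_nonneg_left h1 hδ
  have h6 : δ * Real.sinh θ ≤ δ * Real.cosh θ := mul_le_mul_of_nonneg_left h2 hδ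
  have h7 : 0 ≤ ε * Real.sinh θ := mul_nonneg hε h3
  have h8 : 0 ≤ ε * Real.cosh θ := mul_nonneg hε h4
  fin_cases b
  · simp only [uu, Fin.zero_eta, Matrix.cons_val_zero]
    linarith
  · simp only [uu, Fin.mk_one, Matrix.cons_val_one, Matrix.cons_val_zero]
    linarith

/-- the claim for the quintets of level at most `j` -/
def Lvl (g : ℕ) (k kk K : ℝ) (j : ℕ) : Prop :=
  ∃ A μ R₀ : ℝ, 0 < A ∧ 0 < μ ∧ μ ≤ 1 ∧ ∀ R ≥ R₀,
  ∀ (M Q : Type) [Fintype M] [DecidableEq M] [Fintype Q] (N : Net g M Q) (κ : Q → ℝ)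
    (x : ℝ → M → ℝ), Run N κ k kk K R x →
    ∀ t ∈ Icc 0 (st g K R (g + 1)), NonnegTo x t → ∀ q, N.ql q ≤ j → st g K R (N.ql q) ≤ t →
      (∀ b, μ ≤ x (st g K R (N.ql q)) (N.chi q b)) ∧
      μ ^ 2 / 2 ≤ N.ta κ x q (st g K R (N.ql q)) ∧ ∀ s ∈ Icc 0 t, FillAt N κ k K R x A q s

lemma lvl_zero (g : ℕ) (k kk K : ℝ) : Lvl g k kk K 0 := by
  refine ⟨1, 1, 0, one_pos, one_pos, le_refl _, ?_⟩
  intro R _ M Q _ _ _ N κ x _ t _ _ q hq
  have h := N.lv_par q 0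
  omega

lemma lvl_succ (h1 : FreshStmt) (h2 : ThLowStmt) (h3 : FillStepStmt) (g : ℕ) (k kk K : ℝ)
    (hk : 0 < k) (hkk : 1 ≤ kk) (hK : 3 ≤ K) (j : ℕ) (ih : Lvl g k kk K j) :
    Lvl g k kk K (j + 1) := by
  obtain ⟨A, μ, R₀, hA, hμ, hμ1, H⟩ := ih
  obtain ⟨R₁, HF⟩ := h1 g k kk K hk hkk hK
  obtain ⟨C, R₂, hC, HT⟩ := h2 g k kk K A hk hkk hK hA
  have hμ' : 0 < min 1 (Real.exp (-C) / 8) := lt_min one_pos (by positivity)
  obtain ⟨A', R₃, hA', HS⟩ := h3 g k kk K A (min 1 (Real.exp (-C) / 8)) hk hkk hK hA hμ'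
    (min_le_left _ _)
  refine ⟨max A A', min μ (min 1 (Real.exp (-C) / 8)),
    max (max R₀ R₁) (max (max R₂ R₃) ((C + 1) / k)), lt_of_lt_of_le hA (le_max_left _ _),
    lt_min hμ hμ', (min_le_left _ _).trans hμ1, ?_⟩
  intro R hR M Q _ _ _ N κ x hrun t ht hnn q hq hqt
  have hR0 : R ≥ R₀ := ((le_max_left _ _).trans (le_max_left _ _)).trans hR
  have hR1 : R ≥ R₁ := ((le_max_right _ _).trans (le_max_left _ _)).trans hR
  have hR2 : R ≥ R₂ := (((le_max_left _ _).trans (le_max_left _ _)).trans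
    (le_max_right _ _)).trans hR
  have hR3 : R ≥ R₃ := (((le_max_right _ _).trans (le_max_left _ _)).trans
    (le_max_right _ _)).trans hR
  have hR4 : (C + 1) / k ≤ R := ((le_max_right _ _).trans (le_max_right _ _)).trans hR
  have hRone : 1 ≤ R := hrun.R_one
  by_cases hqj : N.ql q ≤ j
  · obtain ⟨a1, a2, a3⟩ := H R hR0 M Q N κ x hrun t ht hnn q hqj hqt
    refine ⟨fun b => (min_le_left _ _).trans (a1 b), ?_, ?_⟩
    · refine le_trans ?_ a2
      have h5 : min μ (min 1 (Real.exp (-C) / 8)) ^ 2 ≤ μ ^ 2 :=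
        pow_le_pow_left₀ (le_min hμ.le hμ'.le) (min_le_left _ _) 2
      linarith
    · intro s hs
      exact fillAt_mono N κ k K R x A _ (le_max_left _ _) q s (a3 s hs)
  · have hqj' : N.ql q = j + 1 := by omega
    have hprev : ∀ q', N.ql q' + 1 = N.ql q → ∀ s ∈ Icc 0 t, FillAt N κ k K R x A q' s := by
      intro q' hq' s hs
      have hq'j : N.ql q' ≤ j := by omega
      have hst : st g K R (N.ql q') ≤ t :=
        (st_mono g K R hK hRone (by omega : N.ql q' ≤ N.ql q)).trans hqt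
      exact (H R hR0 M Q N κ x hrun t ht hnn q' hq'j hst).2.2 s hs
    have hθ := HT R hR2 M Q N κ x hrun t ht hnn q hqt hprev
    have hs0 : 0 ≤ st g K R (N.ql q) := st_nonneg g K R hK hRone _
    have hsmem : st g K R (N.ql q) ∈ Icc 0 (st g K R (g + 1)) := ⟨hs0, hqt.trans ht.2⟩
    have hnn' : NonnegTo x (st g K R (N.ql q)) := fun s hs => hnn s ⟨hs.1, hs.2.trans hqt⟩
    have hF := HF R hR1 M Q N κ x hrun (st g K R (N.ql q)) hsmem hnn' q (le_refl _)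
    have hθ1 : 1 ≤ N.th κ x q (st g K R (N.ql q)) := by
      have h6 : R ≤ Dl g K R (N.ql q) := Dl_ge g K R hK hRone _
      have h7 : k ≤ κ q := hrun.κ_lo q
      have h8 : k * R ≤ κ q * Dl g K R (N.ql q) :=
        mul_le_mul h7 h6 (by linarith) (hk.le.trans h7)
      have h9 : C + 1 ≤ k * R := by
        rw [div_le_iff₀ hk] at hR4
        linarith
      linarith
    have hx : ∀ b, min 1 (Real.exp (-C) / 8) ≤ x (st g K R (N.ql q)) (N.chi q b) := by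
      intro b
      refine (min_le_right _ _).trans (le_trans ?_ (hF b))
      have h10 := uu_ge (N.de κ K R q) (es g kk K R) (N.th κ x q (st g K R (N.ql q)))
        (Real.exp_pos _).le (Real.exp_pos _).le hθ1 b
      have h11 : Real.exp (-C) ≤ N.de κ K R q * Real.exp (N.th κ x q (st g K R (N.ql q))) := by
        unfold Net.de
        rw [← Real.exp_add]
        exact Real.exp_le_exp.2 (by linarith)
      linarith
    obtain ⟨b1, b2⟩ := HS R hR3 M Q N κ x hrun t ht hnn q hqt hprev hx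
    refine ⟨fun b => (min_le_right _ _).trans (hx b), ?_, ?_⟩
    · refine le_trans ?_ b1
      have h5 : min μ (min 1 (Real.exp (-C) / 8)) ^ 2 ≤ (min 1 (Real.exp (-C) / 8)) ^ 2 :=
        pow_le_pow_left₀ (le_min hμ.le hμ'.le) (min_le_right _ _) 2
      linarith
    · intro s hs
      exact fillAt_mono N κ k K R x A' _ (le_max_right _ _) q s (b2 s hs)

lemma lvl_all (h1 : FreshStmt) (h2 : ThLowStmt) (h3 : FillStepStmt) (g : ℕ) (k kk K : ℝ)
    (hk : 0 < k) (hkk : 1 ≤ kk) (hK : 3 ≤ K) (j : ℕ) : Lvl g k kk K j := by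
  induction j with
  | zero => exact lvl_zero g k kk K
  | succ j ih => exact lvl_succ h1 h2 h3 g k kk K hk hkk hK j ih

end Fill

theorem fillStmt (h1 : FreshStmt) (h2 : ThLowStmt) (h3 : FillStepStmt) : FillStmt := by
  intro g k kk K hk hkk hK
  obtain ⟨A, μ, R₀, hA, hμ, hμ1, H⟩ := Fill.lvl_all h1 h2 h3 g k kk K hk hkk hK g
  refine ⟨A, μ, R₀, hA, hμ, hμ1, ?_⟩
  intro R hR M Q _ _ _ N κ x hrun t ht hnn q hqt
  have hq : N.ql q ≤ g := by
    rw [← N.lv_chi q 0]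
    exact N.lv_le _
  obtain ⟨a1, a2, a3⟩ := H R hR M Q N κ x hrun t ht hnn q hq hqt
  exact ⟨a1, a2, a3 t ⟨ht.1, le_refl _⟩⟩

end GKdV
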