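import Pool.Agent.Lib.MP_cb0de5_an.SpecA

/-!
# One filling step
-/

open MeasureTheory Filter Topology Set

noncomputable section

namespace GKdV

namespace FillStep

theorem Dl_ge {g : ℕ} {K R : ℝ} (hK : 3 ≤ K) (hR : 0 ≤ R) (j : ℕ) : R ≤ Dl g K R j := by
  unfold Dl
  have : (1 : ℝ) ≤ K ^ (g + 1 - j) := one_le_pow₀ (by linarith)
  nlinarith

theorem Dl_step {g : ℕ} {K R : ℝ} {j : ℕ} (hj : j ≤ g) :
    Dl g K R j = K * Dl g K R (j + 1) := by
  unfold Dl
  have : g + 1 - j = (g + 1 - (j + 1)) + 1 := by omega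
  rw [this, pow_succ]
  ring

theorem st_step (g : ℕ) (K R : ℝ) (j : ℕ) : st g K R (j + 1) = st g K R j + Dl g K R (j + 1) := by
  unfold st
  rw [Finset.sum_range_succ]

theorem st_nonneg {g : ℕ} {K R : ℝ} (hK : 3 ≤ K) (hR : 0 ≤ R) (j : ℕ) : 0 ≤ st g K R j := by
  unfold st
  exact Finset.sum_nonneg fun i _ => hR.trans (Dl_ge hK hR _)

theorem CC_nonneg {k kk : ℝ} (hk : 0 < k) (hkk : 1 ≤ kk) (j : ℕ) : 0 ≤ CC k kk j := by
  cases j with
  | zero => simp [CC]
  | succ j =>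
    simp only [CC]
    have : 0 < Real.exp (3 * CC k kk j) := Real.exp_pos _
    positivity

theorem rpow_three_halves {w : ℝ} (hw : 0 ≤ w) : w ^ (3 / 2 : ℝ) = √w * √w * √w := by
  rw [Real.sqrt_eq_rpow]
  have h : w ^ (1 / 2 : ℝ) * w ^ (1 / 2 : ℝ) * w ^ (1 / 2 : ℝ) = (w ^ (1 / 2 : ℝ)) ^ (3 : ℕ) := by
    ring
  rw [h, ← Real.rpow_natCast, ← Real.rpow_mul hw]
  norm_num

theorem prod_ge {w v a b c d e : ℝ} (hw : 0 ≤ w) (hv : 0 ≤ v) (ha : 0 ≤ a) (hb : 0 ≤ b)
    (hc : 0 ≤ c) (hd : 0 ≤ d) (he : 0 ≤ e) (h1 : w ≤ a ^ 2) (h2 : w ≤ b ^ 2) (h3 : w ≤ c ^ 2)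
    (h4 : v ≤ d ^ 2) (h5 : v ≤ e ^ 2) : w ^ (3 / 2 : ℝ) * v ≤ a * b * c * d * e := by
  have sa : √w ≤ a := Real.sqrt_le_iff.mpr ⟨ha, h1⟩
  have sb : √w ≤ b := Real.sqrt_le_iff.mpr ⟨hb, h2⟩
  have sc : √w ≤ c := Real.sqrt_le_iff.mpr ⟨hc, h3⟩
  have sd : √v ≤ d := Real.sqrt_le_iff.mpr ⟨hd, h4⟩
  have se : √v ≤ e := Real.sqrt_le_iff.mpr ⟨he, h5⟩
  have hv' : v = √v * √v := (Real.mul_self_sqrt hv).symm
  rw [rpow_three_halves hw]
  have e1 : √w * √w * √w ≤ a * b * c := by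
    have := Real.sqrt_nonneg w
    exact mul_le_mul (mul_le_mul sa sb this ha) sc this (mul_nonneg ha hb)
  have e2 : v ≤ d * e := by
    rw [hv']
    exact mul_le_mul sd se (Real.sqrt_nonneg v) hd
  calc √w * √w * √w * v ≤ (a * b * c) * (d * e) :=
        mul_le_mul e1 e2 hv (mul_nonneg (mul_nonneg ha hb) hc)
    _ = a * b * c * d * e := by ring

/-- the thresholds for `R` -/
theorem exists_R (R1 A A' μ Cm k B : ℝ) (hk : 0 < k) (hμ : 0 < μ) :
    ∃ R₀ : ℝ, ∀ R ≥ R₀, R1 ≤ R ∧ 1 ≤ R ∧ 2 * A' ≤ R ∧ 2 * A ≤ R ∧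
      Real.exp (-(2 * R)) ≤ μ ^ 2 / 2 ∧ 4 * Real.exp (2 * Cm - k * R) ≤ μ ^ 2 / 8 ∧
      4 * B / R ^ 2 ≤ 1 / 100 := by
  have h1 : Tendsto (fun R : ℝ => Real.exp (-(2 * R))) atTop (𝓝 0) := by
    refine Real.tendsto_exp_atBot.comp ?_
    exact tendsto_neg_atTop_atBot.comp (tendsto_id.const_mul_atTop (by norm_num))
  have h2 : Tendsto (fun R : ℝ => 4 * Real.exp (2 * Cm - k * R)) atTop (𝓝 0) := by
    have h3 : Tendsto (fun R : ℝ => 2 * Cm - k * R) atTop atBot := by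
      have h4 : Tendsto (fun R : ℝ => k * R) atTop atTop := tendsto_id.const_mul_atTop hk
      simpa [sub_eq_add_neg] using
        tendsto_atBot_add_const_left atTop (2 * Cm) (tendsto_neg_atTop_atBot.comp h4)
    have := (Real.tendsto_exp_atBot.comp h3).const_mul 4
    simpa using this
  have h3 : Tendsto (fun R : ℝ => 4 * B / R ^ 2) atTop (𝓝 0) :=
    tendsto_const_nhds.div_atTop (tendsto_pow_atTop (by norm_num))
  have e1 := h1.eventually_le_const (show (0 : ℝ) < μ ^ 2 / 2 by positivity)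
  have e2 := h2.eventually_le_const (show (0 : ℝ) < μ ^ 2 / 8 by positivity)
  have e3 := h3.eventually_le_const (show (0 : ℝ) < 1 / 100 by norm_num)
  have ev : ∀ᶠ R : ℝ in atTop, R1 ≤ R ∧ 1 ≤ R ∧ 2 * A' ≤ R ∧ 2 * A ≤ R ∧
      Real.exp (-(2 * R)) ≤ μ ^ 2 / 2 ∧ 4 * Real.exp (2 * Cm - k * R) ≤ μ ^ 2 / 8 ∧
      4 * B / R ^ 2 ≤ 1 / 100 := by
    filter_upwards [e1, e2, e3, eventually_ge_atTop R1, eventually_ge_atTop 1,
      eventually_ge_atTop (2 * A'), eventually_ge_atTop (2 * A)] with R a1 a2 a3 a4 a5 a6 a7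
    exact ⟨a4, a5, a6, a7, a1, a2, a3⟩
  exact eventually_atTop.mp ev

end FillStep

open FillStep in
theorem fillStepStmt (h1 : SqStmt) (h2 : CrudeStmt) (h3 : ChildUpStmt) (h4 : UpStmt)
    (h5 : ScalarFillStmt) : FillStepStmt := by
  intro g k kk K A' μ hk hkk hK hA' hμ hμ1
  obtain ⟨R1, hR1⟩ := h4 g k kk K hk hkk hK
  have hBB : 0 < BB k := by unfold BB; positivity
  set m : ℝ := μ ^ 2 / 2 with hm
  have hm0 : 0 < m := by positivity
  have hm1 : m ≤ 1 := by
    have : μ ^ 2 ≤ 1 := pow_le_one₀ hμ.le hμ1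
    rw [hm]; linarith
  have hlog : 0 ≤ Real.log (1 / m) := Real.log_nonneg (by rw [le_div_iff₀ hm0]; linarith)
  set A : ℝ := 2 * (Real.log (1 / m) / (7 / 20 * k)) + 1 with hA
  have hA0 : 0 < A := by positivity
  set Cm : ℝ := ∑ j ∈ Finset.range (g + 2), CC k kk j with hCm
  obtain ⟨R₀, hR₀⟩ := exists_R R1 A A' μ Cm k (BB k) hk hμ
  refine ⟨A, R₀, hA0, fun R hR M Q _ _ _ N κ x hrun t ht hnn q hqt hfill hμx => ?_⟩
  obtain ⟨r1, r2, r3, r4, r5, r6, r7⟩ := hR₀ R hR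
  have hR0 : 0 ≤ R := by linarith
  have hRpos : 0 < R := by linarith
  obtain ⟨hcont, hth, hta, hsq, hsqg, hsq1⟩ := h1 g M Q N κ k kk K R x hrun
  set j := N.ql q with hj
  set sj := st g K R j with hsj
  have hj1 : 1 ≤ j := by have := N.lv_par q 0; omega
  have hjg : j ≤ g := by
    have h := N.lv_chi q 0
    have h' := N.lv_le (N.chi q 0)
    omega
  set D1 := Dl g K R (j + 1) with hD1
  have hD1R : R ≤ D1 := Dl_ge hK hR0 _
  have hD1pos : 0 < D1 := by linarith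
  have hDj : Dl g K R j = K * D1 := Dl_step hjg
  have hDjR : R ≤ Dl g K R j := Dl_ge hK hR0 _
  have hsj0 : 0 ≤ sj := st_nonneg hK hR0 j
  have htend : t ≤ st g K R (g + 1) := ht.2
  have hmem : ∀ s ∈ Icc 0 t, s ∈ Icc 0 (st g K R (g + 1)) := fun s hs => ⟨hs.1, hs.2.trans htend⟩
  have hnns : ∀ s ∈ Icc 0 t, NonnegTo x s := fun s hs u hu mm => hnn u ⟨hu.1, hu.2.trans hs.2⟩ mm
  have hcrude := fun (s : ℝ) (hs : s ∈ Icc 0 t) =>
    h2 g M Q N κ k kk K R x hrun s (hmem s hs) (hnns s hs)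
  have hsjt : sj ∈ Icc 0 t := ⟨hsj0, hqt⟩
  have hκpos : ∀ q', 0 < κ q' := fun q' => lt_of_lt_of_le hk (hrun.κ_lo q')
  -- the seeds
  have hx0 : x 0 (N.chi q 1) ^ 2 ≤ m := by
    rw [hrun.init2, ← Real.exp_nat_mul]
    refine le_trans (Real.exp_le_exp.mpr ?_) r5
    have e1 : R ≤ Dl g K R 1 := Dl_ge hK hR0 1
    have e2 : R ≤ kk * Dl g K R 1 := by nlinarith
    push_cast
    linarith
  -- the lower bound at the time `sj`
  have hlow : m ≤ N.ta κ x q sj := by
    have hx1 : μ ^ 2 ≤ x sj (N.chi q 1) ^ 2 := pow_le_pow_left₀ hμ.le (hμx 1) 2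
    rcases Nat.lt_or_ge j g with hlt | hge
    · obtain ⟨S, i, hS⟩ := N.par_surj (N.chi q 1) (by rw [N.lv_chi]; exact hlt)
      have e1 := hsq sj (hmem sj hsjt) q 1 S i hS
      have e2 := (hcrude sj hsjt).1 S
      have : μ ^ 2 = 2 * m := by rw [hm]; ring
      linarith
    · have e1 := hsqg sj (hmem sj hsjt) q 1 (by omega)
      have : μ ^ 2 = 2 * m := by rw [hm]; ring
      linarith
  have hmono : ∀ s ∈ Icc 0 t, ∀ u ∈ Icc 0 s, N.ta κ x q u ≤ N.ta κ x q s := fun s hs u hu =>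
    (hcrude s hs).2.1 q u hu
  refine ⟨hlow, ?_⟩
  -- `η`
  set η : ℝ := 4 * BB k / Dl g K R j ^ 2 with hη
  have hDjpos : 0 < Dl g K R j := by linarith
  have hη0 : 0 ≤ η := by positivity
  have hη1 : η ≤ 1 / 100 := by
    refine le_trans ?_ r7
    rw [hη]
    exact div_le_div_of_nonneg_left (by positivity) (by positivity)
      (pow_le_pow_left₀ hR0 hDjR 2)
  -- the children
  have hchild : ∀ s ∈ Icc 0 t, s ∈ Icc sj (sj + D1 / 2) → ∀ b,
      N.ta κ x q s / 2 ≤ x s (N.chi q b) ^ 2 := by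
    intro s hs hs2 b
    have hτ : m ≤ N.ta κ x q s := hlow.trans (hmono s hs sj ⟨hsj0, hs2.1⟩)
    have hx0sq : 0 ≤ x 0 (N.chi q b) ^ 2 := sq_nonneg _
    rcases Nat.lt_or_ge j g with hlt | hge
    · obtain ⟨S, i, hS⟩ := N.par_surj (N.chi q b) (by rw [N.lv_chi]; exact hlt)
      have e1 := hsq s (hmem s hs) q b S i hS
      have hSl : N.ql S = j + 1 := by
        have := N.lv_par S i
        rw [hS, N.lv_chi] at this
        omega
      have e2 := (h3 g M Q N κ k kk K R x hrun s (hmem s hs) (hnns s hs) S).2.2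
      have e3 := hR1 R r1 M Q N κ x hrun s (hmem s hs) (hnns s hs) S
      rw [hSl, Nat.add_sub_cancel] at e3
      have e4 : max (s - st g K R j) 0 ≤ D1 / 2 := by
        refine max_le ?_ (by linarith)
        have := hs2.2
        show s - sj ≤ D1 / 2
        linarith
      have e5 : N.th κ x S s ≤ κ S * (D1 / 2) + Cm := by
        have e6 : CC k kk (j + 1) ≤ Cm := by
          rw [hCm]
          exact Finset.single_le_sum (f := fun j => CC k kk j)
            (fun i _ => CC_nonneg hk hkk i) (Finset.mem_range.mpr (by omega))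
        have e7 := mul_le_mul_of_nonneg_left e4 (hκpos S).le
        linarith
      have e8 : N.ta κ x S s ≤ μ ^ 2 / 8 := by
        refine e2.trans (le_trans ?_ r6)
        have e9 : N.de κ K R S = Real.exp (-(κ S * D1)) := by
          unfold Net.de
          rw [hSl]
        rw [e9, ← Real.exp_nat_mul, mul_assoc, ← Real.exp_add]
        refine mul_le_mul_of_nonneg_left (Real.exp_le_exp.mpr ?_) (by norm_num)
        have e10 : k * R ≤ κ S * D1 :=
          mul_le_mul (hrun.κ_lo S) hD1R hR0 (hκpos S).le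
        push_cast
        linarith
      have : μ ^ 2 / 8 = m / 4 := by rw [hm]; ring
      linarith
    · have e1 := hsqg s (hmem s hs) q b (by omega)
      linarith
  -- the parents
  have hparent : ∀ s ∈ Icc 0 t, sj ≤ s → ∀ i,
      1 - η - N.ta κ x q s ≤ x s (N.par q i) ^ 2 := by
    intro s hs hs2 i
    rcases Nat.lt_or_ge 1 j with hlt | hge
    · obtain ⟨q', b, hq'⟩ := N.chi_surj (N.par q i) (by have := N.lv_par q i; omega)
      have e1 := hsq s (hmem s hs) q' b q i hq'.symm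
      rw [hq'] at e1
      have hq'l : N.ql q' + 1 = j := by
        have a1 := N.lv_par q i
        have a2 := N.lv_chi q' b
        rw [hq'] at a2
        omega
      have e2 := hfill q' hq'l s hs
      have hst : st g K R j = st g K R (N.ql q') + Dl g K R j := by
        rw [← hq'l, st_step]
      have hsq' : st g K R (N.ql q') + Dl g K R j ≤ s := by
        rw [← hst]; exact hs2
      have e3 := e2 (by linarith)
      rw [hq'l] at e3
      have hmin : min (s - st g K R (N.ql q')) (Dl g K R j / 2) = Dl g K R j / 2 :=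
        min_eq_right (by linarith)
      rw [hmin] at e3
      have e4 : BB k / (Dl g K R j / 2) ^ 2 = η := by
        rw [hη]
        field_simp
        norm_num
      rw [e4] at e3
      have : 0 ≤ x 0 (N.par q i) ^ 2 := sq_nonneg _
      linarith
    · have e1 := hsq1 s (hmem s hs) q i (by omega)
      linarith
  -- the differential inequality
  have hdiff : ∀ s ∈ Icc 0 t, s ∈ Icc sj (sj + D1 / 2) →
      k * N.ta κ x q s * (max (1 - η - N.ta κ x q s) 0) ^ (3 / 2 : ℝ) ≤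
        2 * κ q * N.P5 (x s) q := by
    intro s hs hs2
    have hτ : m ≤ N.ta κ x q s := hlow.trans (hmono s hs sj ⟨hsj0, hs2.1⟩)
    have hτ0 : 0 ≤ N.ta κ x q s := by linarith
    have hnm : ∀ mm, 0 ≤ x s mm := fun mm => hnn s hs mm
    have hp : ∀ i, max (1 - η - N.ta κ x q s) 0 ≤ x s (N.par q i) ^ 2 := fun i =>
      max_le (hparent s hs hs2.1 i) (sq_nonneg _)
    have hprod := prod_ge (le_max_right (1 - η - N.ta κ x q s) 0)
      (show 0 ≤ N.ta κ x q s / 2 by linarith) (hnm (N.par q 0)) (hnm (N.par q 1))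
      (hnm (N.par q 2)) (hnm (N.chi q 0)) (hnm (N.chi q 1)) (hp 0) (hp 1) (hp 2)
      (hchild s hs hs2 0) (hchild s hs hs2 1)
    have hP5 : N.P5 (x s) q = x s (N.par q 0) * x s (N.par q 1) * x s (N.par q 2) *
        x s (N.chi q 0) * x s (N.chi q 1) := rfl
    rw [hP5]
    set W := (max (1 - η - N.ta κ x q s) 0) ^ (3 / 2 : ℝ) with hW
    have hW0 : 0 ≤ W := Real.rpow_nonneg (le_max_right _ _) _
    calc k * N.ta κ x q s * W ≤ κ q * N.ta κ x q s * W := by
          have := hrun.κ_lo q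
          gcongr
      _ = 2 * κ q * (W * (N.ta κ x q s / 2)) := by ring
      _ ≤ _ := mul_le_mul_of_nonneg_left hprod (by have := hκpos q; positivity)
  have hP5nn : ∀ s ∈ Icc 0 t, 0 ≤ 2 * κ q * N.P5 (x s) q := by
    intro s hs
    have hnm : ∀ mm, 0 ≤ x s mm := fun mm => hnn s hs mm
    have := hκpos q
    have h5 : N.P5 (x s) q = x s (N.par q 0) * x s (N.par q 1) * x s (N.par q 2) *
        x s (N.chi q 0) * x s (N.chi q 1) := rfl
    rw [h5]
    have a1 := hnm (N.par q 0)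
    have a2 := hnm (N.par q 1)
    have a3 := hnm (N.par q 2)
    have a4 := hnm (N.chi q 0)
    have a5 := hnm (N.chi q 1)
    positivity
  -- the scalar lemma on `[sj, b]`
  have hscalar : ∀ s ∈ Icc 0 t, s ∈ Icc sj (sj + D1 / 2) → sj + A ≤ s →
      1 - N.ta κ x q s ≤ BB k / (s - sj) ^ 2 := by
    intro s hs hs2 hsA
    have hsub : Icc sj s ⊆ Icc 0 (st g K R (g + 1)) := fun u hu =>
      ⟨hsj0.trans hu.1, hu.2.trans (hs.2.trans htend)⟩
    have hsub' : ∀ u ∈ Icc sj s, u ∈ Icc 0 t := fun u hu =>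
      ⟨hsj0.trans hu.1, hu.2.trans hs.2⟩
    have hsub'' : ∀ u ∈ Icc sj s, u ∈ Icc sj (sj + D1 / 2) := fun u hu =>
      ⟨hu.1, hu.2.trans hs2.2⟩
    have h := h5 sj s k m η (N.ta κ x q) (fun u => 2 * κ q * N.P5 (x u) q) hs2.1 hk hm0 hm1
      hη0 hη1 (fun u hu => (hta q u (hsub hu)).mono hsub) hlow
      (fun u hu => hdiff u (hsub' u hu) (hsub'' u hu)) (fun u hu => hP5nn u (hsub' u hu))
      s ⟨hs2.1, le_rfl⟩ (by linarith) (by linarith)
    refine h.trans ?_
    have hpos : 0 < s - sj := by linarith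
    have hle : s - sj ≤ D1 / 2 := by have := hs2.2; linarith
    have h67 : η * (s - sj) ^ 2 ≤ 67 / k ^ 2 := by
      have a1 : (s - sj) ^ 2 ≤ (D1 / 2) ^ 2 := pow_le_pow_left₀ hpos.le hle 2
      have a2 : η * (s - sj) ^ 2 ≤ η * (D1 / 2) ^ 2 := mul_le_mul_of_nonneg_left a1 hη0
      refine a2.trans ?_
      have a3 : η * (D1 / 2) ^ 2 = BB k / K ^ 2 := by
        rw [hη, hDj]
        have : K ≠ 0 := by positivity
        field_simp
        ring
      rw [a3]
      unfold BB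
      rw [div_div, div_le_div_iff₀ (by positivity) (by positivity)]
      have : 9 ≤ K ^ 2 := by nlinarith
      nlinarith [sq_nonneg k, hk]
    have hB : BB k / (s - sj) ^ 2 = 67 / (k ^ 2 * (s - sj) ^ 2) + (67 / k ^ 2) / (s - sj) ^ 2 := by
      unfold BB
      field_simp
      norm_num
    rw [hB]
    have : η ≤ (67 / k ^ 2) / (s - sj) ^ 2 := by
      rw [le_div_iff₀ (by positivity)]
      exact h67
    linarith
  -- conclusion
  intro s hs hsA
  have hsA' : sj + A ≤ s := hsA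
  by_cases hcase : s ≤ sj + D1 / 2
  · have hmin : min (s - st g K R (N.ql q)) (Dl g K R (N.ql q + 1) / 2) = s - sj := by
      refine min_eq_left ?_
      show s - sj ≤ D1 / 2
      linarith
    rw [hmin]
    exact hscalar s hs ⟨by linarith, hcase⟩ hsA'
  · push Not at hcase
    have hmin : min (s - st g K R (N.ql q)) (Dl g K R (N.ql q + 1) / 2) = D1 / 2 := by
      refine min_eq_right ?_
      show D1 / 2 ≤ s - sj
      linarith
    rw [hmin]
    have hb0 : sj + D1 / 2 ∈ Icc 0 t := ⟨by linarith, by have := hs.2; linarith⟩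
    have e1 := hscalar (sj + D1 / 2) hb0 ⟨by linarith, le_rfl⟩ (by linarith)
    have e2 := hmono s hs (sj + D1 / 2) ⟨by linarith, hcase.le⟩
    rw [add_sub_cancel_left] at e1
    linarith

end GKdV
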