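import Pool.Agent.Lib.MP_cb0de5_an.SpecD

/-!
# The conclusion: norm inflation contradicts the continuity of the flow at zero
-/

open MeasureTheory Filter Topology Set

noncomputable section

namespace GKdV

theorem finalFromStmt : FinalFromStmt := by
  intro hH hG hR hN
  have main : ∀ σ : ℝ, (σ = 1 ∨ σ = -1) → ∀ s : ℝ, 1 / 4 ≤ s → s < 1 / 3 →
      ¬ UnconditionallyLWP 4 σ s := by
    intro σ hσ s hs1 hs2 hLWP
    obtain ⟨T, hT, ρ, hρ, hA, hB⟩ := hLWP (fun _ => 0) (hH.zero_mem s)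
    have z1 : ∀ f : ℝ → ℝ, (fun x => f x - (fun _ : ℝ => (0 : ℝ)) x) = f := fun f => by
      funext x
      simp
    have z2 : hsNorm s (fun x => (fun _ : ℝ => (0 : ℝ)) x - (fun _ : ℝ => (0 : ℝ)) x) < ρ := by
      rw [z1, hH.norm_zero]
      exact hρ
    obtain ⟨δ, hδ, hcont⟩ := hB (fun _ => 0) (hH.zero_mem s) z2 (ρ / 2) (by linarith)
    obtain ⟨ε, hε, e1, e2, e3, e4⟩ : ∃ ε : ℝ, 0 < ε ∧ ε ≤ T ∧ ε ≤ δ ∧ ε ≤ ρ / 2 ∧ ε ≤ 2 / ρ := by
      refine ⟨min (min T δ) (min (ρ / 2) (2 / ρ)), ?_, ?_, ?_, ?_, ?_⟩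
      · exact lt_min (lt_min hT hδ) (lt_min (by linarith) (by positivity))
      · exact (min_le_left _ _).trans (min_le_left _ _)
      · exact (min_le_left _ _).trans (min_le_right _ _)
      · exact (min_le_right _ _).trans (min_le_left _ _)
      · exact (min_le_right _ _).trans (min_le_right _ _)
    obtain ⟨Tw, hTw, hTwε, w, hw, hw0, hwT⟩ := hN σ hσ s hs1 hs2 ε hε
    have hbig : ρ / 2 < hsNorm s (w Tw) := by
      refine lt_of_le_of_lt ?_ hwT
      have h1 : ε * ρ ≤ 2 := by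
        have := mul_le_mul_of_nonneg_right e4 hρ.le
        rwa [div_mul_cancel₀ _ hρ.ne'] at this
      rw [le_div_iff₀ hε]
      linarith
    have hsmall : hsNorm s (w 0) < ρ / 2 := lt_of_lt_of_le hw0 e3
    have hc := hH.sol_cont 4 σ s Tw w hTw hw
    obtain ⟨ts, hts, htsv⟩ := intermediate_value_Icc hTw.le hc
      (show ρ / 2 ∈ Icc (hsNorm s (w 0)) (hsNorm s (w Tw)) from ⟨hsmall.le, hbig.le⟩)
    have htsv' : hsNorm s (w ts) = ρ / 2 := htsv
    have hts0 : 0 < ts := by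
      rcases hts.1.eq_or_lt with h | h
      · exfalso
        rw [← h] at htsv'
        linarith
      · exact h
    obtain ⟨v, hv, hv0, _⟩ := hA (w ts) (hw.mem ts hts) (by rw [z1, htsv']; linarith)
    have hwr := hR 4 σ s Tw ts w hts0 hts.2 hw
    have hglue := hG 4 σ s ts T w v (by linarith) hts0 hT hwr hv hv0
    have hWT := hR 4 σ s (ts + T) T _ hT (by linarith) hglue
    have hwmem := hw.mem 0 ⟨le_rfl, hTw.le⟩
    have hfin := hcont (w 0) hwmem (by rw [z1]; linarith) (by rw [z1]; linarith)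
      (fun _ _ => 0) (fun t => if t ≤ ts then w t else v (t - ts))
      (hH.zero_sol 4 σ s T (by norm_num)) (ae_eq_refl _) hWT (by
        have h1 : (if (0 : ℝ) ≤ ts then w 0 else v (0 - ts)) = w 0 := if_pos hts0.le
        simp only [h1]
        exact ae_eq_refl _) ts ⟨hts0.le, by linarith [hts.2]⟩
    have h2 : (if ts ≤ ts then w ts else v (ts - ts)) = w ts := if_pos le_rfl
    simp only [h2, sub_zero] at hfin
    have h3 : hsNorm s (fun x => w ts x) = ρ / 2 := htsv'
    linarith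
  refine ⟨main, fun hall => ?_⟩
  exact main 1 (Or.inl rfl) (1 / 4) le_rfl (by norm_num)
    (hall 4 (by norm_num) 1 (Or.inl rfl) (1 / 4) (by norm_num))

end GKdV
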