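import Pool.Agent.Lib.MP_cb0de5_an.SpecA

/-!
# A5: the fresh phase
-/

open MeasureTheory Filter Topology Set

noncomputable section

namespace GKdV

variable {g : ℕ} {M Q : Type}

theorem Fresh.exR (A c G k : ℝ) (hk : 0 < k) :
    ∃ R₀ : ℝ, ∀ R ≥ R₀, c * Real.exp (-(k * R)) * (1 + c * (A * R)) * (A * R) ≤ 1 / 2 ∧
      G * Real.exp (-(2 * k * R)) ≤ 1 := by
  have h1 : Tendsto (fun R : ℝ => c * A * (R ^ (1 : ℝ) * Real.exp (-k * R)) +
      c ^ 2 * A ^ 2 * (R ^ (2 : ℝ) * Real.exp (-k * R))) atTop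
      (𝓝 (c * A * 0 + c ^ 2 * A ^ 2 * 0)) :=
    ((tendsto_rpow_mul_exp_neg_mul_atTop_nhds_zero 1 k hk).const_mul _).add
      ((tendsto_rpow_mul_exp_neg_mul_atTop_nhds_zero 2 k hk).const_mul _)
  have h2 : Tendsto (fun R : ℝ => G * (R ^ (0 : ℝ) * Real.exp (-(2 * k) * R))) atTop
      (𝓝 (G * 0)) :=
    (tendsto_rpow_mul_exp_neg_mul_atTop_nhds_zero 0 (2 * k) (by positivity)).const_mul _
  rw [mul_zero, mul_zero, add_zero] at h1
  rw [mul_zero] at h2
  obtain ⟨R₀, hR₀⟩ := eventually_atTop.1 ((h1.eventually (ge_mem_nhds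
    (show (0 : ℝ) < 1 / 2 by norm_num))).and (h2.eventually (ge_mem_nhds zero_lt_one)))
  refine ⟨R₀, fun R hR => ?_⟩
  obtain ⟨h3, h4⟩ := hR₀ R hR
  rw [Real.rpow_one, Real.rpow_two] at h3
  rw [Real.rpow_zero, one_mul] at h4
  have e1 : -(k * R) = -k * R := by ring
  have e2 : -(2 * k * R) = -(2 * k) * R := by ring
  rw [e1, e2]
  refine ⟨?_, h4⟩
  have h5 : c * Real.exp (-k * R) * (1 + c * (A * R)) * (A * R) =
      c * A * (R * Real.exp (-k * R)) + c ^ 2 * A ^ 2 * (R ^ 2 * Real.exp (-k * R)) := by ring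
  rw [h5]
  exact h3

theorem Fresh.st_succ (g : ℕ) (K R : ℝ) (j : ℕ) :
    st g K R (j + 1) = st g K R j + Dl g K R (j + 1) := by
  unfold st
  rw [Finset.sum_range_succ]

theorem Fresh.R_le_Dl (g : ℕ) {K R : ℝ} (hK : 3 ≤ K) (hR : 1 ≤ R) (j : ℕ) :
    R ≤ Dl g K R j := by
  unfold Dl
  have h : 1 ≤ K ^ (g + 1 - j) := one_le_pow₀ (by linarith)
  nlinarith

theorem Fresh.Dl_le (g : ℕ) {K R : ℝ} (hK : 3 ≤ K) (hR : 1 ≤ R) (j : ℕ) (hj : 1 ≤ j) :
    Dl g K R j ≤ Dl g K R 1 := by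
  unfold Dl
  refine mul_le_mul_of_nonneg_right ?_ (by linarith)
  exact pow_le_pow_right₀ (by linarith) (by omega)

theorem Fresh.CC_nonneg {k kk : ℝ} (hk : 0 < k) (hkk : 1 ≤ kk) (j : ℕ) : 0 ≤ CC k kk j := by
  cases j with
  | zero => exact le_refl _
  | succ j =>
    unfold CC
    positivity

theorem Fresh.uu_mono {δ ε θ θ' : ℝ} (hδ : 0 ≤ δ) (hε : 0 ≤ ε) (h0 : 0 ≤ θ) (h : θ ≤ θ')
    (b : Fin 2) : uu δ ε θ b ≤ uu δ ε θ' b := by
  have h1 : Real.cosh θ ≤ Real.cosh θ' := by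
    rw [Real.cosh_le_cosh, abs_of_nonneg h0, abs_of_nonneg (h0.trans h)]
    exact h
  have h2 : Real.sinh θ ≤ Real.sinh θ' := Real.sinh_le_sinh.2 h
  have h3 := mul_le_mul_of_nonneg_left h1 hδ
  have h4 := mul_le_mul_of_nonneg_left h2 hε
  have h5 := mul_le_mul_of_nonneg_left h2 hδ
  have h6 := mul_le_mul_of_nonneg_left h1 hε
  fin_cases b
  · show δ * Real.cosh θ + ε * Real.sinh θ ≤ δ * Real.cosh θ' + ε * Real.sinh θ'
    linarith
  · show δ * Real.sinh θ + ε * Real.cosh θ ≤ δ * Real.sinh θ' + ε * Real.cosh θ'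
    linarith

theorem Fresh.le_uu {δ ε θ : ℝ} (hε : 0 ≤ ε) (hδ : ε ≤ δ) (h0 : 0 ≤ θ) (b : Fin 2) :
    ε ≤ uu δ ε θ b := by
  have h := Fresh.uu_mono (hε.trans hδ) hε le_rfl h0 b
  refine le_trans ?_ h
  fin_cases b
  · show ε ≤ δ * Real.cosh 0 + ε * Real.sinh 0
    rw [Real.cosh_zero, Real.sinh_zero]
    linarith
  · show ε ≤ δ * Real.sinh 0 + ε * Real.cosh 0
    rw [Real.cosh_zero, Real.sinh_zero]
    linarith

theorem Fresh.split (h1 : NetAlgStmt) [Fintype M] [DecidableEq M] [Fintype Q] (N : Net g M Q)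
    (κ : Q → ℝ) (y : M → ℝ) (hy : ∀ m, 0 ≤ y m) (hy2 : ∀ m, y m ^ 2 ≤ 2) (S : Q) (i : Fin 3) :
    ∃ ρ : ℝ, 0 ≤ ρ ∧ ρ ≤ 2 ∧
      N.loss κ y (N.par S i) = κ S * (ρ * (y (N.chi S 0) * y (N.chi S 1))) ∧
      N.P3 y S = ρ * y (N.par S i) := by
  obtain ⟨-, -, -, -, -, e0, e1, e2, -, -⟩ := h1 g M Q N κ y
  have hp : ∀ a b : M, 0 ≤ y a * y b ∧ y a * y b ≤ 2 := fun a b =>
    ⟨mul_nonneg (hy a) (hy b), by nlinarith [sq_nonneg (y a - y b), hy2 a, hy2 b]⟩
  fin_cases i
  · refine ⟨y (N.par S 1) * y (N.par S 2), (hp _ _).1, (hp _ _).2, ?_, ?_⟩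
    · show N.loss κ y (N.par S 0) = _
      rw [e0]; ring
    · show N.P3 y S = _ * y (N.par S 0)
      unfold Net.P3; ring
  · refine ⟨y (N.par S 0) * y (N.par S 2), (hp _ _).1, (hp _ _).2, ?_, ?_⟩
    · show N.loss κ y (N.par S 1) = _
      rw [e1]; ring
    · show N.P3 y S = _ * y (N.par S 1)
      unfold Net.P3; ring
  · refine ⟨y (N.par S 0) * y (N.par S 1), (hp _ _).1, (hp _ _).2, ?_, ?_⟩
    · show N.loss κ y (N.par S 2) = _
      rw [e2]; ring
    · show N.P3 y S = _ * y (N.par S 2)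
      unfold Net.P3; ring

theorem freshStmt (h1 : NetAlgStmt) (h2 : SqStmt) (h3 : CrudeStmt) (h4 : CompStmt)
    (h5 : ChildUpStmt) (h6 : UpStmt) : FreshStmt := by
  intro g k kk K hk hkk hK
  obtain ⟨R₁, hR₁⟩ := h6 g k kk K hk hkk hK
  set Cm : ℝ := ∑ i ∈ Finset.range (g + 2), CC k kk i with hCm
  set A : ℝ := ∑ i ∈ Finset.range (g + 1), K ^ (g + 1 - (i + 1)) with hA
  set c : ℝ := 4 * kk * Real.exp Cm with hc
  obtain ⟨R₂, hR₂⟩ := Fresh.exR A c ((g : ℝ) + 1) k hk
  refine ⟨max R₁ R₂, ?_⟩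
  intro R hR M Q _ _ _ N κ x hrun t ht hnt q htq
  obtain ⟨hs1, hs2⟩ := hR₂ R ((le_max_right _ _).trans hR)
  have hup := hR₁ R ((le_max_left _ _).trans hR) M Q N κ x hrun
  have hR1 := hrun.R_one
  have hT : st g K R (g + 1) = A * R := by
    unfold st Dl
    rw [hA, Finset.sum_mul]
  rw [← hT] at hs1
  set T := st g K R (g + 1) with hTdef
  have hT0 : 0 ≤ T := ht.1.trans ht.2
  have hc0 : 0 < c := by positivity
  have hom : om g k R ≤ 1 := hs2
  set E := Real.exp (-(k * R)) with hE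
  have hE0 : 0 < E := Real.exp_pos _
  have hE1 : E ≤ 1 := by
    rw [hE, Real.exp_le_one_iff]
    have : 0 ≤ k * R := by positivity
    linarith
  have hκ0 : ∀ q, 0 ≤ κ q := fun q => hk.le.trans (hrun.κ_lo q)
  have hnn : ∀ {s : ℝ}, s ≤ t → NonnegTo x s := fun hst u hu m =>
    hnt u ⟨hu.1, hu.2.trans hst⟩ m
  have hIT : ∀ {s : ℝ}, s ∈ Icc 0 t → s ∈ Icc 0 T := fun hs => ⟨hs.1, hs.2.trans ht.2⟩
  obtain ⟨hcont, hth, -⟩ := h2 g M Q N κ k kk K R x hrun
  have hx2 : ∀ s ∈ Icc 0 t, ∀ m, x s m ^ 2 ≤ 2 := by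
    intro s hs m
    have := (h3 g M Q N κ k kk K R x hrun s (hIT hs) (hnn hs.2)).2.2.2.2.2.2.1 m
    linarith
  set δ := N.de κ K R q with hδ
  set ε := es g kk K R with hε
  have hj1 : 1 ≤ N.ql q := by
    have := N.lv_par q 0
    omega
  have hε0 : 0 ≤ ε := (Real.exp_pos _).le
  have hδε : ε ≤ δ := by
    rw [hε, hδ]
    unfold es Net.de
    rw [Real.exp_le_exp, neg_le_neg_iff]
    have h7 := Fresh.Dl_le g hK hR1 (N.ql q) hj1
    have h8 := Fresh.R_le_Dl g hK hR1 (N.ql q)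
    exact mul_le_mul (hrun.κ_hi q) h7 (by linarith) (by linarith)
  have hth0 : ∀ s ∈ Icc 0 t, 0 ≤ N.th κ x q s := fun s hs =>
    (h3 g M Q N κ k kk K R x hrun s (hIT hs) (hnn hs.2)).2.2.2.1 q
  have hthm : ∀ s ∈ Icc 0 t, ∀ r ∈ Icc 0 s, N.th κ x q r ≤ N.th κ x q s := fun s hs r hr =>
    (h3 g M Q N κ k kk K R x hrun s (hIT hs) (hnn hs.2)).2.2.1 q r hr
  have hU0 : ∀ s ∈ Icc 0 t, ∀ b, ε ≤ uu δ ε (N.th κ x q s) b := fun s hs b =>
    Fresh.le_uu hε0 hδε (hth0 s hs) b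
  -- the loss
  have hloss : ∀ s ∈ Icc 0 t, ∀ b, N.loss κ (x s) (N.chi q b) ≤
      c * E * (1 + c * T) * uu δ ε (N.th κ x q s) b := by
    intro s hs b
    have hub := hU0 s hs b
    rcases Nat.lt_or_ge (N.ql q) g with hlt | hge
    · obtain ⟨S, i, hSi⟩ := N.par_surj (N.chi q b) (by rw [N.lv_chi]; exact hlt)
      have hqS : N.ql S = N.ql q + 1 := by
        rw [← N.lv_par S i, hSi, N.lv_chi]
      -- bounds for the children of `S`
      have hX0 : ∀ r ∈ Icc 0 s, x r (N.chi S 0) ≤ 2 * E * Real.exp Cm := by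
        intro r hr
        have hrt : r ∈ Icc 0 t := ⟨hr.1, hr.2.trans hs.2⟩
        have h7 := (h5 g M Q N κ k kk K R x hrun r (hIT hrt) (hnn hrt.2) S).2.1 0
        have h8 := hup r (hIT hrt) (hnn hrt.2) S
        have h9 : max (r - st g K R (N.ql S - 1)) 0 = 0 := by
          rw [hqS]
          refine max_eq_right ?_
          have : r ≤ st g K R (N.ql q) := hrt.2.trans htq
          simp only [Nat.add_sub_cancel]
          linarith
        rw [h9, mul_zero, zero_add] at h8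
        have h10 : CC k kk (N.ql S) ≤ Cm := by
          rw [hCm]
          refine Finset.single_le_sum (f := fun i => CC k kk i)
            (fun i _ => Fresh.CC_nonneg hk hkk i) (Finset.mem_range.2 (by omega))
        have h11 : N.de κ K R S ≤ E := by
          rw [hE]
          unfold Net.de
          rw [Real.exp_le_exp, neg_le_neg_iff]
          exact mul_le_mul (hrun.κ_lo S) (Fresh.R_le_Dl g hK hR1 _) (by linarith) (hκ0 S)
        have h12 : Real.exp (N.th κ x S r) ≤ Real.exp Cm := Real.exp_le_exp.2 (h8.trans h10)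
        refine h7.trans ?_
        exact mul_le_mul (mul_le_mul_of_nonneg_left h11 (by norm_num)) h12
          (Real.exp_pos _).le (by positivity)
      -- the second child
      have hX1 : x s (N.chi S 1) ≤ ε + c * E * uu δ ε (N.th κ x q s) b * s := by
        set U := uu δ ε (N.th κ x q s) b with hU
        have hanti : AntitoneOn (fun r => x r (N.chi S 1) - c * E * U * r) (Icc 0 s) := by
          have hd : ∀ r ∈ Icc 0 s, HasDerivAt (fun r => x r (N.chi S 1) - c * E * U * r)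
              (N.field κ (x r) (N.chi S 1) - c * E * U * 1) r := by
            intro r hr
            have hrt : r ∈ Icc 0 t := ⟨hr.1, hr.2.trans hs.2⟩
            exact (hrun.ode r (hIT hrt) (N.chi S 1)).sub ((hasDerivAt_id r).const_mul _)
          refine antitoneOn_of_deriv_nonpos (convex_Icc 0 s)
            (fun r hr => (hd r hr).continuousAt.continuousWithinAt) ?_ ?_
          · intro r hr
            rw [interior_Icc] at hr
            exact (hd r (Ioo_subset_Icc_self hr)).differentiableAt.differentiableWithinAt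
          · intro r hr
            rw [interior_Icc] at hr
            have hr' := Ioo_subset_Icc_self hr
            have hrt : r ∈ Icc 0 t := ⟨hr'.1, hr'.2.trans hs.2⟩
            rw [(hd r hr').deriv]
            have hy := fun m => hnt r hrt m
            obtain ⟨ρ, hρ0, hρ2, -, hP⟩ := Fresh.split h1 N κ (x r) hy (hx2 r hrt) S i
            obtain ⟨-, ef1, -, -, -, -, -, -, hl, -⟩ := h1 g M Q N κ (x r)
            have hl' := hl hκ0 hy (N.chi S 1)
            rw [ef1 S, hP, hSi]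
            have h7 : x r (N.chi q b) ≤ U := by
              refine ((h5 g M Q N κ k kk K R x hrun r (hIT hrt) (hnn hrt.2) q).1 b).trans ?_
              exact Fresh.uu_mono (hε0.trans hδε) hε0 (hth0 r hrt) (hthm s hs r hr') b
            have h8 : ρ * x r (N.chi q b) ≤ 2 * U :=
              mul_le_mul hρ2 h7 (hy _) (by norm_num)
            have h9 : κ S * (ρ * x r (N.chi q b)) ≤ kk * (2 * U) :=
              mul_le_mul (hrun.κ_hi S) h8 (mul_nonneg hρ0 (hy _)) (by linarith)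
            have hU0' : 0 ≤ U := hε0.trans hub
            have h10 : κ S * (ρ * x r (N.chi q b)) * x r (N.chi S 0) ≤
                kk * (2 * U) * (2 * E * Real.exp Cm) :=
              mul_le_mul h9 (hX0 r hr') (hy _) (by positivity)
            have h11 : kk * (2 * U) * (2 * E * Real.exp Cm) = c * E * U := by
              rw [hc]; ring
            linarith
        have h7 := hanti (left_mem_Icc.2 hs.1) (right_mem_Icc.2 hs.1) hs.1
        simp only at h7
        rw [hrun.init2 S, mul_zero, sub_zero] at h7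
        have h8 : ε = Real.exp (-(kk * Dl g K R 1)) := rfl
        rw [h8]
        linarith
      have hy := fun m => hnt s hs m
      obtain ⟨ρ, hρ0, hρ2, hL, -⟩ := Fresh.split h1 N κ (x s) hy (hx2 s hs) S i
      rw [hSi] at hL
      rw [hL]
      set U := uu δ ε (N.th κ x q s) b with hU
      have hU0' : 0 ≤ U := hε0.trans hub
      have h7 : x s (N.chi S 1) ≤ (1 + c * T) * U := by
        have h8 : c * E * U * s ≤ c * 1 * U * T := by
          have := ht.2
          have hsT : s ≤ T := hs.2.trans ht.2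
          have h0s : 0 ≤ s := hs.1
          gcongr
        linarith
      have h8 : x s (N.chi S 0) ≤ 2 * E * Real.exp Cm := hX0 s (right_mem_Icc.2 hs.1)
      have h9 : x s (N.chi S 0) * x s (N.chi S 1) ≤ (2 * E * Real.exp Cm) * ((1 + c * T) * U) :=
        mul_le_mul h8 h7 (hy _) (by positivity)
      have h10 : ρ * (x s (N.chi S 0) * x s (N.chi S 1)) ≤
          2 * ((2 * E * Real.exp Cm) * ((1 + c * T) * U)) :=
        mul_le_mul hρ2 h9 (mul_nonneg (hy _) (hy _)) (by norm_num)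
      have h11 : κ S * (ρ * (x s (N.chi S 0) * x s (N.chi S 1))) ≤
          kk * (2 * ((2 * E * Real.exp Cm) * ((1 + c * T) * U))) :=
        mul_le_mul (hrun.κ_hi S) h10 (mul_nonneg hρ0 (mul_nonneg (hy _) (hy _))) (by linarith)
      have h12 : kk * (2 * ((2 * E * Real.exp Cm) * ((1 + c * T) * U))) =
          c * E * (1 + c * T) * U := by
        rw [hc]; ring
      linarith
    · have hlv : N.lv (N.chi q b) = g := by
        have := N.lv_le (N.chi q b)
        rw [N.lv_chi] at this ⊢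
        omega
      rw [(h1 g M Q N κ (x s)).2.2.2.1 _ hlv]
      have : 0 ≤ uu δ ε (N.th κ x q s) b := hε0.trans hub
      positivity
  -- the comparison
  set m := c * E * (1 + c * T) with hm
  have hm0 : 0 ≤ m := by positivity
  have hmT : m * T ≤ 1 / 2 := hs1
  have hthd : ∀ s ∈ Icc 0 t, HasDerivWithinAt (N.th κ x q) (κ q * N.P3 (x s) q) (Icc 0 t) s :=
    fun s hs => (hth q s (hIT hs)).mono (Icc_subset_Icc_right ht.2)
  have hd0 : ∀ s ∈ Icc 0 t, HasDerivWithinAt (fun s => uu δ ε (N.th κ x q s) 0)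
      (uu δ ε (N.th κ x q s) 1 * (κ q * N.P3 (x s) q)) (Icc 0 t) s := by
    intro s hs
    have h7 := ((hthd s hs).cosh.const_mul δ).add ((hthd s hs).sinh.const_mul ε)
    have h8 : δ * (Real.sinh (N.th κ x q s) * (κ q * N.P3 (x s) q)) +
        ε * (Real.cosh (N.th κ x q s) * (κ q * N.P3 (x s) q)) =
        uu δ ε (N.th κ x q s) 1 * (κ q * N.P3 (x s) q) := by
      show _ = (δ * Real.sinh (N.th κ x q s) + ε * Real.cosh (N.th κ x q s)) * _
      ring
    rw [← h8]
    exact h7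
  have hd1 : ∀ s ∈ Icc 0 t, HasDerivWithinAt (fun s => uu δ ε (N.th κ x q s) 1)
      (uu δ ε (N.th κ x q s) 0 * (κ q * N.P3 (x s) q)) (Icc 0 t) s := by
    intro s hs
    have h7 := ((hthd s hs).sinh.const_mul δ).add ((hthd s hs).cosh.const_mul ε)
    have h8 : δ * (Real.cosh (N.th κ x q s) * (κ q * N.P3 (x s) q)) +
        ε * (Real.sinh (N.th κ x q s) * (κ q * N.P3 (x s) q)) =
        uu δ ε (N.th κ x q s) 0 * (κ q * N.P3 (x s) q) := by
      show _ = (δ * Real.cosh (N.th κ x q s) + ε * Real.sinh (N.th κ x q s)) * _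
      ring
    rw [← h8]
    exact h7
  have hlin : ∀ s : ℝ, HasDerivWithinAt (fun s => 1 - m * s) (-(m * 1)) (Icc 0 t) s := fun s =>
    (((hasDerivAt_id s).const_mul m).const_sub 1).hasDerivWithinAt
  have hcomp := h4 t (fun s => κ q * N.P3 (x s) q)
    (fun s => x s (N.chi q 0) - (1 - m * s) * uu δ ε (N.th κ x q s) 0)
    (fun s => x s (N.chi q 1) - (1 - m * s) * uu δ ε (N.th κ x q s) 1)
    (fun s => N.field κ (x s) (N.chi q 0) - (-(m * 1) * uu δ ε (N.th κ x q s) 0 +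
      (1 - m * s) * (uu δ ε (N.th κ x q s) 1 * (κ q * N.P3 (x s) q))))
    (fun s => N.field κ (x s) (N.chi q 1) - (-(m * 1) * uu δ ε (N.th κ x q s) 1 +
      (1 - m * s) * (uu δ ε (N.th κ x q s) 0 * (κ q * N.P3 (x s) q))))
    ht.1 ?_ ?_ ?_ ?_ ?_ ?_ ?_ ?_ t (right_mem_Icc.2 ht.1)
  · have hmt : m * t ≤ 1 / 2 := (mul_le_mul_of_nonneg_left ht.2 hm0).trans hmT
    have hb := fun b => hε0.trans (hU0 t (right_mem_Icc.2 ht.1) b)
    have h7 : ∀ b, (1 / 2) * uu δ ε (N.th κ x q t) b ≤ (1 - m * t) * uu δ ε (N.th κ x q t) b :=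
      fun b => mul_le_mul_of_nonneg_right (by linarith) (hb b)
    exact Fin.forall_fin_two.2 ⟨(h7 0).trans (by linarith [hcomp.1]),
      (h7 1).trans (by linarith [hcomp.2])⟩
  · exact continuousOn_const.mul ((((hcont _).mul (hcont _)).mul (hcont _)).mono
      (Icc_subset_Icc_right ht.2))
  · intro s hs
    have hy := fun m => hnt s hs m
    exact mul_nonneg (hκ0 q) (mul_nonneg (mul_nonneg (hy _) (hy _)) (hy _))
  · intro s hs
    exact (hrun.ode s (hIT hs) (N.chi q 0)).hasDerivWithinAt.sub ((hlin s).mul (hd0 s hs))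
  · intro s hs
    exact (hrun.ode s (hIT hs) (N.chi q 1)).hasDerivWithinAt.sub ((hlin s).mul (hd1 s hs))
  · intro s hs
    have h7 := hloss s hs 0
    rw [(h1 g M Q N κ (x s)).1 q]
    have h8 : κ q * N.P3 (x s) q * (x s (N.chi q 1) - (1 - m * s) * uu δ ε (N.th κ x q s) 1) =
        κ q * N.P3 (x s) q * x s (N.chi q 1) -
          (1 - m * s) * (uu δ ε (N.th κ x q s) 1 * (κ q * N.P3 (x s) q)) := by ring
    rw [h8]
    linarith
  · intro s hs
    have h7 := hloss s hs 1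
    rw [(h1 g M Q N κ (x s)).2.1 q]
    have h8 : κ q * N.P3 (x s) q * (x s (N.chi q 0) - (1 - m * s) * uu δ ε (N.th κ x q s) 0) =
        κ q * N.P3 (x s) q * x s (N.chi q 0) -
          (1 - m * s) * (uu δ ε (N.th κ x q s) 0 * (κ q * N.P3 (x s) q)) := by ring
    rw [h8]
    linarith
  · have h7 : N.th κ x q 0 = 0 := by simp [Net.th]
    have h8 : uu δ ε (0 : ℝ) 0 = δ * Real.cosh 0 + ε * Real.sinh 0 := rfl
    rw [h7, h8, Real.cosh_zero, Real.sinh_zero, hrun.init1 q]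
    have h9 : δ = Real.exp (-(κ q * Dl g K R (N.ql q))) := rfl
    rw [h9]
    simp
  · have h7 : N.th κ x q 0 = 0 := by simp [Net.th]
    have h8 : uu δ ε (0 : ℝ) 1 = δ * Real.sinh 0 + ε * Real.cosh 0 := rfl
    rw [h7, h8, Real.cosh_zero, Real.sinh_zero, hrun.init2 q]
    have h9 : ε = Real.exp (-(kk * Dl g K R 1)) := rfl
    rw [h9]
    simp

end GKdV
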