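import Pool.Agent.Lib.MP_cb0de5_an.SpecC

/-!
# C1: existence of Galerkin solutions
-/

open MeasureTheory Filter Topology Set

noncomputable section

namespace GKdV

open LP

namespace GalExists

/-- the space of the Galerkin equation -/
abbrev V (K : ℕ) := EuclideanSpace ℂ (Fin K)

/-- the coordinate as a real linear map -/
def pr (K : ℕ) (j : Fin K) : V K →L[ℝ] ℂ := PiLp.proj 2 (fun _ => ℂ) j

lemma pr_apply (K : ℕ) (j : Fin K) (y : V K) : pr K j y = y j := rfl

/-- the `n`-th coefficient as a real linear map -/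
def co (K : ℕ) (n : ℤ) : V K →L[ℝ] ℂ :=
  if h : 0 < n ∧ n ≤ K then pr K ⟨n.toNat - 1, by omega⟩
  else if h : n < 0 ∧ -n ≤ K then
    (Complex.conjCLE : ℂ →L[ℝ] ℂ).comp (pr K ⟨(-n).toNat - 1, by omega⟩)
  else 0

lemma co_pos' {K : ℕ} {n : ℤ} (h : 0 < n ∧ n ≤ K) (y : V K) :
    co K n y = y ⟨n.toNat - 1, by omega⟩ := by
  unfold co
  rw [dif_pos h, pr_apply]

lemma co_pos {K : ℕ} (j : Fin K) (y : V K) : co K (((j : ℕ) : ℤ) + 1) y = y j := by
  have hj := j.2
  rw [co_pos' (n := ((j : ℕ) : ℤ) + 1) ⟨by omega, by omega⟩]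
  have h1 : (⟨(((j : ℕ) : ℤ) + 1).toNat - 1, by omega⟩ : Fin K) = j := by
    apply Fin.ext
    simp only
    omega
  rw [h1]

lemma co_neg' {K : ℕ} {n : ℤ} (h : n < 0 ∧ -n ≤ K) (y : V K) :
    co K n y = (starRingEnd ℂ) (y ⟨(-n).toNat - 1, by omega⟩) := by
  unfold co
  rw [dif_neg (by omega), dif_pos h]
  rfl

lemma co_else {K : ℕ} {n : ℤ} (h : ¬ (0 < n ∧ n ≤ K)) (h' : ¬ (n < 0 ∧ -n ≤ K)) (y : V K) :
    co K n y = 0 := by
  unfold co
  rw [dif_neg h, dif_neg h']
  rfl

lemma co_real {K : ℕ} (n : ℤ) (y : V K) : co K (-n) y = (starRingEnd ℂ) (co K n y) := by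
  by_cases h : 0 < n ∧ n ≤ K
  · rw [co_pos' h, co_neg' (n := -n) ⟨by omega, by omega⟩]
    simp only [neg_neg]
  · by_cases h' : n < 0 ∧ -n ≤ K
    · rw [co_neg' h', co_pos' (n := -n) ⟨by omega, by omega⟩, Complex.conj_conj]
    · rw [co_else h h', co_else (n := -n) (by omega) (by omega), map_zero]

lemma co_big {K : ℕ} {n : ℤ} (h : (K : ℤ) < |n|) (y : V K) : co K n y = 0 := by
  apply co_else
  · rintro ⟨h1, h2⟩
    rw [abs_of_pos h1] at h
    omega
  · rintro ⟨h1, h2⟩
    rw [abs_of_neg h1] at h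
    omega

/-- the trigonometric polynomial with the given coefficients -/
def io (K : ℕ) (y : V K) : LP :=
  AddMonoidAlgebra.ofCoeff (Finsupp.onFinset (Finset.Icc (-(K : ℤ)) K) (fun n => co K n y) (by
    intro n hn
    rw [Finset.mem_Icc, ← abs_le]
    by_contra h
    exact hn (co_big (not_le.mp h) y)))

lemma io_coeff (K : ℕ) (y : V K) (n : ℤ) : (io K y).coeff n = co K n y := rfl

lemma io_real (K : ℕ) (y : V K) : IsReal (io K y) := fun n => co_real n y

lemma io_mz (K : ℕ) (y : V K) : MZ (io K y) := by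
  show co K 0 y = 0
  exact co_else (by omega) (by omega) y

lemma io_supp (K : ℕ) (y : V K) : Supp K (io K y) := fun _ hn => co_big hn y

/-- the coordinates of a trigonometric polynomial -/
def ve (K : ℕ) (f : LP) : V K := WithLp.toLp 2 fun j => f.coeff (((j : ℕ) : ℤ) + 1)

lemma ve_apply (K : ℕ) (f : LP) (j : Fin K) : ve K f j = f.coeff (((j : ℕ) : ℤ) + 1) := rfl

lemma co_ve {K : ℕ} {f : LP} (hr : IsReal f) (hm : MZ f) (hs : Supp K f) (n : ℤ) :
    co K n (ve K f) = f.coeff n := by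
  by_cases h : 0 < n ∧ n ≤ K
  · rw [co_pos' h, ve_apply]
    congr 1
    simp only
    omega
  · by_cases h' : n < 0 ∧ -n ≤ K
    · rw [co_neg' h', ve_apply, ← hr]
      congr 1
      simp only
      omega
    · rw [co_else h h']
      by_cases h0 : n = 0
      · rw [h0]
        exact hm.symm
      · refine (hs n ?_).symm
        rcases lt_or_gt_of_ne h0 with h1 | h1
        · rw [abs_of_neg h1]
          omega
        · rw [abs_of_pos h1]
          omega

lemma io_ve {K : ℕ} {f : LP} (hr : IsReal f) (hm : MZ f) (hs : Supp K f) :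
    io K (ve K f) = f := by
  ext n
  exact co_ve hr hm hs n

lemma cut_coeff (K : ℕ) (f : LP) (n : ℤ) :
    (cut K f).coeff n = if |n| ≤ (K : ℤ) then f.coeff n else 0 := by
  show (f.coeff.filter (fun n => |n| ≤ (K : ℤ))) n = _
  rw [Finsupp.filter_apply]

/-- the right hand side of the Galerkin equation -/
def GG (K : ℕ) (lam σ : ℝ) (f : LP) : LP :=
  -D (D (D f)) - ((lam * σ : ℝ) : ℂ) • cut K (D (f ^ 4))

lemma GG_coeff (h : AlgFacts) (K : ℕ) (lam σ : ℝ) (f : LP) (n : ℤ) :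
    (GG K lam σ f).coeff n =
      -(Complex.I * n * (Complex.I * n * (Complex.I * n * f.coeff n))) -
        ((lam * σ : ℝ) : ℂ) * (if |n| ≤ (K : ℤ) then Complex.I * n * (f ^ 4).coeff n else 0) := by
  show -(D (D (D f))).coeff n - ((lam * σ : ℝ) : ℂ) * (cut K (D (f ^ 4))).coeff n = _
  rw [cut_coeff, h.D_coeff, h.D_coeff, h.D_coeff, h.D_coeff]

lemma pow4 (f : LP) : f ^ 4 = f * (f * (f * f)) := by ring

lemma real_pow4 (h : AlgFacts) {f : LP} (hf : IsReal f) : IsReal (f ^ 4) := by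
  rw [pow4]
  exact h.real_mul _ _ hf (h.real_mul _ _ hf (h.real_mul _ _ hf hf))

lemma GG_real (h : AlgFacts) (K : ℕ) (lam σ : ℝ) {f : LP} (hf : IsReal f) :
    IsReal (GG K lam σ f) := by
  intro n
  rw [GG_coeff h, GG_coeff h, hf n, real_pow4 h hf n, abs_neg]
  by_cases hn : |n| ≤ (K : ℤ)
  · simp only [hn, if_true, map_sub, map_neg, map_mul, Complex.conj_I, Complex.conj_ofReal,
      Int.cast_neg, map_intCast]
    ring
  · simp only [hn, if_false, map_sub, map_neg, map_mul, Complex.conj_I, Int.cast_neg, map_intCast,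
      map_zero, mul_zero]
    ring

lemma GG_mz (h : AlgFacts) (K : ℕ) (lam σ : ℝ) (f : LP) : MZ (GG K lam σ f) := by
  show (GG K lam σ f).coeff 0 = 0
  rw [GG_coeff h]
  simp

lemma GG_supp (h : AlgFacts) (K : ℕ) (lam σ : ℝ) {f : LP} (hf : Supp K f) :
    Supp K (GG K lam σ f) := by
  intro n hn
  rw [GG_coeff h, hf n hn, if_neg (not_le.mpr hn)]
  simp

lemma mul_coeff {K : ℕ} {f : LP} (hf : Supp K f) (g : LP) (n : ℤ) :
    (f * g).coeff n = ∑ m ∈ Finset.Icc (-(K : ℤ)) K, f.coeff m * g.coeff (n - m) := by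
  rw [AddMonoidAlgebra.coeff_mul, Finsupp.sum]
  have hin : ∀ m : ℤ, (g.coeff.sum fun m₂ r₂ => if m + m₂ = n then f.coeff m * r₂ else 0) =
      f.coeff m * g.coeff (n - m) := by
    intro m
    rw [Finsupp.sum]
    by_cases hm : n - m ∈ g.coeff.support
    · rw [Finset.sum_eq_single_of_mem (n - m) hm]
      · rw [if_pos (by ring)]
      · intro b _ hb
        rw [if_neg]
        intro e
        exact hb (by omega)
    · rw [Finset.sum_eq_zero]
      · rw [Finsupp.notMem_support_iff.mp hm, mul_zero]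
      · intro b hb
        rw [if_neg]
        intro e
        apply hm
        have : n - m = b := by omega
        rw [this]
        exact hb
  simp only [hin]
  refine Finset.sum_subset ?_ ?_
  · intro m hm
    rw [Finset.mem_Icc, ← abs_le]
    by_contra h
    exact (Finsupp.mem_support_iff.mp hm) (hf m (not_le.mp h))
  · intro m _ hm
    rw [Finsupp.notMem_support_iff.mp hm, zero_mul]

/-! ### smoothness -/

/-- all coefficients are continuously differentiable -/
def Sm {K : ℕ} (f : V K → LP) : Prop := ∀ n : ℤ, ContDiff ℝ 1 fun y => (f y).coeff n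

lemma sm_mul {K : ℕ} {f g : V K → LP} (hs : ∀ y, Supp K (f y)) (hf : Sm f) (hg : Sm g) :
    Sm fun y => f y * g y := by
  intro n
  have h1 : (fun y => (f y * g y).coeff n) = fun y =>
      ∑ m ∈ Finset.Icc (-(K : ℤ)) K, (f y).coeff m * (g y).coeff (n - m) :=
    funext fun y => mul_coeff (hs y) (g y) n
  rw [h1]
  exact ContDiff.sum fun m _ => (hf m).mul (hg (n - m))

lemma sm_io (K : ℕ) : Sm (io K) := fun n => (co K n).contDiff

lemma sm_pow4 (K : ℕ) : Sm fun y => io K y ^ 4 := by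
  have h1 : (fun y => io K y ^ 4) = fun y => io K y * (io K y * (io K y * io K y)) :=
    funext fun y => pow4 _
  rw [h1]
  exact sm_mul (io_supp K) (sm_io K) (sm_mul (io_supp K) (sm_io K)
    (sm_mul (io_supp K) (sm_io K) (sm_io K)))

lemma sm_GG (h : AlgFacts) (K : ℕ) (lam σ : ℝ) : Sm fun y => GG K lam σ (io K y) := by
  intro n
  have h1 : (fun y => (GG K lam σ (io K y)).coeff n) = fun y =>
      -(Complex.I * n * (Complex.I * n * (Complex.I * n * (io K y).coeff n))) -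
        ((lam * σ : ℝ) : ℂ) *
          (if |n| ≤ (K : ℤ) then Complex.I * n * (io K y ^ 4).coeff n else 0) :=
    funext fun y => GG_coeff h K lam σ _ n
  rw [h1]
  have h2 := sm_io K n
  have h3 := sm_pow4 K n
  by_cases hn : |n| ≤ (K : ℤ)
  · simp only [hn, if_true]
    exact (contDiff_const.mul (contDiff_const.mul (contDiff_const.mul h2))).neg.sub
      (contDiff_const.mul (contDiff_const.mul h3))
  · simp only [hn, if_false]
    exact (contDiff_const.mul (contDiff_const.mul (contDiff_const.mul h2))).neg.sub contDiff_const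

/-! ### skewness -/

lemma I0_neg (h : AlgFacts) (f : LP) : I0 (-f) = -I0 f := by
  have h1 := h.I0_sub 0 f
  rw [zero_sub] at h1
  rw [h1]
  simp [I0]

lemma I0_D3 (h : AlgFacts) (f : LP) : I0 (f * D (D (D f))) = 0 := by
  have h1 := h.I0_D (f * D (D f))
  rw [h.D_mul, h.I0_add] at h1
  have h2 := h.I0_D (D f * D f)
  rw [h.D_mul, h.I0_add, mul_comm (D (D f)) (D f)] at h2
  have h3 : I0 (D f * D (D f)) = 0 := by
    have : (2 : ℂ) * I0 (D f * D (D f)) = 0 := by linear_combination h2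
    simpa using this
  rw [h3, zero_add] at h1
  exact h1

lemma I0_D4 (h : AlgFacts) (f : LP) : I0 (f * D (f ^ 4)) = 0 := by
  have h2 : D (f ^ 2) = f * D f + f * D f := by
    rw [sq, h.D_mul]
    ring
  have h4 : D (f ^ 4) = (f ^ 3 * D f + f ^ 3 * D f) + (f ^ 3 * D f + f ^ 3 * D f) := by
    have : f ^ 4 = f ^ 2 * f ^ 2 := by ring
    rw [this, h.D_mul, h2]
    ring
  have h5 : D (f * f ^ 4) = D f * f ^ 4 + f * D (f ^ 4) := h.D_mul _ _
  have h6 := h.I0_D (f * f ^ 4)
  have h7 : D f * f ^ 4 = f ^ 4 * D f := by ring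
  have h8 : f * D (f ^ 4) = (f ^ 4 * D f + f ^ 4 * D f) + (f ^ 4 * D f + f ^ 4 * D f) := by
    rw [h4]
    ring
  rw [h5, h.I0_add, h7] at h6
  have h9 : I0 (f * D (f ^ 4)) = 4 * I0 (f ^ 4 * D f) := by
    rw [h8, h.I0_add, h.I0_add]
    ring
  rw [h9] at h6 ⊢
  have h10 : I0 (f ^ 4 * D f) = 0 := by
    have : (5 : ℂ) * I0 (f ^ 4 * D f) = 0 := by linear_combination h6
    simpa using this
  rw [h10, mul_zero]

lemma I0_GG (h : AlgFacts) (K : ℕ) (lam σ : ℝ) {f : LP} (hf : Supp K f) :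
    I0 (f * GG K lam σ f) = 0 := by
  have h1 : f * GG K lam σ f =
      -(f * D (D (D f))) - ((lam * σ : ℝ) : ℂ) • (f * cut K (D (f ^ 4))) := by
    unfold GG
    rw [mul_sub, mul_neg, mul_smul_comm]
  rw [h1, h.I0_sub, h.I0_smul, I0_neg h, I0_D3 h, ← h.I0_cut, h.cut_of_supp K f hf, I0_D4 h]
  ring

lemma sum_symm (u : ℤ → ℝ) (K : ℕ) : ∑ m ∈ Finset.Icc (-(K : ℤ)) K, u m =
    u 0 + ∑ j ∈ Finset.range K, (u ((j : ℤ) + 1) + u (-((j : ℤ) + 1))) := by
  induction K with
  | zero => simp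
  | succ K ih =>
    have h1 : Finset.Icc (-((K + 1 : ℕ) : ℤ)) ((K + 1 : ℕ) : ℤ) =
        insert ((K : ℤ) + 1) (insert (-((K : ℤ) + 1)) (Finset.Icc (-(K : ℤ)) K)) := by
      ext m
      simp only [Finset.mem_insert, Finset.mem_Icc]
      push_cast
      omega
    rw [h1, Finset.sum_insert, Finset.sum_insert, ih, Finset.sum_range_succ]
    · ring
    · simp only [Finset.mem_Icc]
      omega
    · simp only [Finset.mem_insert, Finset.mem_Icc]
      omega

/-- the vector field -/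
def FF (K : ℕ) (lam σ : ℝ) (y : V K) : V K := ve K (GG K lam σ (io K y))

lemma skew (h : AlgFacts) (K : ℕ) (lam σ : ℝ) (y : V K) :
    inner ℝ (FF K lam σ y) y = 0 := by
  rw [PiLp.inner_apply]
  obtain ⟨f, hf⟩ : ∃ f, f = io K y := ⟨_, rfl⟩
  obtain ⟨G, hG⟩ : ∃ G, G = GG K lam σ f := ⟨_, rfl⟩
  have hfr : IsReal f := hf ▸ io_real K y
  have hfm : MZ f := hf ▸ io_mz K y
  have hfs : Supp K f := hf ▸ io_supp K y
  have hGr : IsReal G := hG ▸ GG_real h K lam σ hfr
  have h0 : I0 (f * G) = 0 := by rw [hG]; exact I0_GG h K lam σ hfs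
  have h1 : (I0 (f * G)).re = ∑ m ∈ Finset.Icc (-(K : ℤ)) K,
      (f.coeff m * (starRingEnd ℂ) (G.coeff m)).re := by
    have : I0 (f * G) = (f * G).coeff 0 := rfl
    rw [this, mul_coeff hfs, Complex.re_sum]
    refine Finset.sum_congr rfl fun m _ => ?_
    rw [zero_sub, hGr m]
  rw [h0, sum_symm] at h1
  have h2 : ∀ m : ℤ, (f.coeff (-m) * (starRingEnd ℂ) (G.coeff (-m))).re =
      (f.coeff m * (starRingEnd ℂ) (G.coeff m)).re := by
    intro m
    rw [hfr m, hGr m, ← map_mul, Complex.conj_re]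
  have h3 : (f.coeff 0 * (starRingEnd ℂ) (G.coeff 0)).re = 0 := by
    have : f.coeff 0 = 0 := hfm
    rw [this]
    simp
  simp only [h2, h3, zero_add, Complex.zero_re, ← two_mul, ← Finset.mul_sum] at h1
  have h4 : ∑ j ∈ Finset.range K, (f.coeff ((j : ℤ) + 1) *
      (starRingEnd ℂ) (G.coeff ((j : ℤ) + 1))).re = 0 := by
    linarith
  rw [← h4, ← Fin.sum_univ_eq_sum_range (fun j => (f.coeff ((j : ℤ) + 1) *
      (starRingEnd ℂ) (G.coeff ((j : ℤ) + 1))).re) K]
  refine Finset.sum_congr rfl fun j _ => ?_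
  have h5 : FF K lam σ y j = G.coeff (((j : ℕ) : ℤ) + 1) := by
    rw [hG, hf]
    rfl
  have h6 : y j = f.coeff (((j : ℕ) : ℤ) + 1) := by
    rw [hf, io_coeff, co_pos]
  rw [h5, h6, Complex.inner, mul_comm]

lemma smooth (h : AlgFacts) (K : ℕ) (lam σ : ℝ) : ContDiff ℝ 1 (FF K lam σ) := by
  rw [contDiff_piLp (𝕜 := ℝ) 2]
  intro j
  exact sm_GG h K lam σ (((j : ℕ) : ℤ) + 1)

end GalExists

open GalExists in
theorem galExistsStmt (h1 : GlobStmt) (h2 : AlgFacts) (_h3 : NormFacts) : GalExistsStmt := by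
  intro K lam σ T φ hT hr hm hs
  obtain ⟨x, hx0, hx, -⟩ := h1 (V K) (FF K lam σ) (smooth h2 K lam σ) (skew h2 K lam σ)
    (ve K φ) T hT
  refine ⟨fun t => io K (x t), ?_, ?_⟩
  · simp only [hx0]
    exact io_ve hr hm hs
  · refine ⟨fun t _ => io_real K _, fun t _ => io_mz K _, fun t _ => io_supp K _, ?_⟩
    intro t ht n
    have ht' : t ∈ Icc (-T) T := ⟨by linarith [ht.1], ht.2⟩
    have h3 := (co K n).hasFDerivAt.comp_hasDerivAt t (hx t ht')
    have h4 : co K n (FF K lam σ (x t)) = (GG K lam σ (io K (x t))).coeff n :=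
      co_ve (GG_real h2 K lam σ (io_real K _)) (GG_mz h2 K lam σ _)
        (GG_supp h2 K lam σ (io_supp K _)) n
    rw [h4] at h3
    exact h3

end GKdV
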