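import Pool.Agent.Lib.MP_cb0de5_an.SpecA

/-!
# Global existence for skew fields
-/

set_option autoImplicit false

open MeasureTheory Filter Topology Set

noncomputable section

namespace GKdV

theorem globStmt : GlobStmt := by
  intro E _ _ _ F hF hskew x₀ T hT
  -- the truncated field
  let b : ContDiffBump (0 : E) := ⟨‖x₀‖ + 1, ‖x₀‖ + 2, by positivity, by linarith⟩
  set G : E → E := fun y => b y • F y with hG
  have hGc : ContDiff ℝ 1 G := b.contDiff.smul hF
  have hGs : HasCompactSupport G := b.hasCompactSupport.smul_right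
  obtain ⟨K, hK⟩ := hGc.lipschitzWith_of_hasCompactSupport hGs (by simp)
  obtain ⟨L₀, hL₀⟩ := hGc.continuous.bounded_above_of_compact_support hGs
  set L : NNReal := Real.toNNReal L₀ with hL
  have hLb : ∀ y, ‖G y‖ ≤ L := fun y => (hL₀ y).trans (Real.le_coe_toNNReal _)
  have ht0 : (0 : ℝ) ∈ Icc (-(T + 1)) (T + 1) := ⟨by linarith, by linarith⟩
  have hP : IsPicardLindelof (fun _ : ℝ => G) (tmin := -(T + 1)) (tmax := T + 1) ⟨0, ht0⟩ x₀
      (L * Real.toNNReal (T + 1)) 0 L K := by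
    refine IsPicardLindelof.of_time_independent (fun y _ => hLb y) hK.lipschitzOnWith ?_
    have h1 : max ((T + 1) - (0 : ℝ)) (0 - -(T + 1)) = T + 1 := by
      rw [sub_zero, zero_sub, neg_neg, max_self]
    rw [h1, NNReal.coe_zero, sub_zero, NNReal.coe_mul,
      Real.coe_toNNReal (T + 1) (by linarith)]
  obtain ⟨x, hx0, hx⟩ := hP.exists_eq_forall_mem_Icc_hasDerivWithinAt₀
  have hd : ∀ t ∈ Ioo (-(T + 1)) (T + 1), HasDerivAt x (G (x t)) t := fun t ht =>
    (hx t (Ioo_subset_Icc_self ht)).hasDerivAt (Icc_mem_nhds ht.1 ht.2)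
  have hGskew : ∀ y, inner ℝ (G y) y = 0 := by
    intro y
    rw [hG]
    simp only
    rw [real_inner_smul_left, hskew, mul_zero]
  have hd2 : ∀ t ∈ Ioo (-(T + 1)) (T + 1), HasDerivAt (fun s => ‖x s‖ ^ 2) 0 t := by
    intro t ht
    have h1 := (hd t ht).norm_sq
    rw [real_inner_comm, hGskew, mul_zero] at h1
    exact h1
  have hn : ∀ t ∈ Ioo (-(T + 1)) (T + 1), ‖x t‖ = ‖x₀‖ := by
    intro t ht
    have h0 : (0 : ℝ) ∈ Ioo (-(T + 1)) (T + 1) := ⟨by linarith, by linarith⟩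
    have h1 : (fun s => ‖x s‖ ^ 2) t = (fun s => ‖x s‖ ^ 2) 0 :=
      isOpen_Ioo.is_const_of_deriv_eq_zero isPreconnected_Ioo
        (fun s hs => (hd2 s hs).differentiableAt.differentiableWithinAt)
        (fun s hs => (hd2 s hs).deriv) ht h0
    have h2 : ‖x t‖ ^ 2 = ‖x₀‖ ^ 2 := by
      have h3 : x 0 = x₀ := hx0
      simpa [h3] using h1
    exact (sq_eq_sq₀ (norm_nonneg _) (norm_nonneg _)).mp h2
  have hsub : ∀ t ∈ Icc (-T) T, t ∈ Ioo (-(T + 1)) (T + 1) := fun t ht =>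
    ⟨by linarith [ht.1], by linarith [ht.2]⟩
  refine ⟨x, hx0, fun t ht => ?_, fun t ht => hn t (hsub t ht)⟩
  have h1 := hd t (hsub t ht)
  have h2 : b (x t) = 1 := by
    refine b.one_of_mem_closedBall ?_
    rw [mem_closedBall_zero_iff, hn t (hsub t ht)]
    show ‖x₀‖ ≤ ‖x₀‖ + 1
    linarith
  have h3 : G (x t) = F (x t) := by
    rw [hG]
    simp only
    rw [h2, one_smul]
  rwa [h3] at h1

end GKdV
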