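import Pool.Agent.Lib.MP_cb0de5_an.SpecD

/-!
# D3d: gluing two solutions in time
-/

open MeasureTheory Filter Topology Set

noncomputable section

namespace GKdV

namespace Glue

/-- the glued function -/
def gl (T₁ : ℝ) (u v : ℝ → ℝ → ℝ) (t : ℝ) : ℝ → ℝ := if t ≤ T₁ then u t else v (t - T₁)

variable {T₁ T₂ : ℝ} {u v : ℝ → ℝ → ℝ}

lemma gl_left {t : ℝ} (h : t ≤ T₁) : gl T₁ u v t = u t := if_pos h

lemma gl_right {t : ℝ} (h : T₁ < t) : gl T₁ u v t = v (t - T₁) := if_neg (not_le.mpr h)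

lemma gl_ae (huv : v 0 =ᵐ[volume] u T₁) {t : ℝ} (h : T₁ ≤ t) :
    gl T₁ u v t =ᵐ[volume] v (t - T₁) := by
  rcases eq_or_lt_of_le h with rfl | h
  · rw [gl_left le_rfl, sub_self]
    exact huv.symm
  · rw [gl_right h]

/-- gluing of continuity statements -/
lemma cont_glue (hT1 : 0 < T₁) (hT2 : 0 < T₂) (huv : v 0 =ᵐ[volume] u T₁)
    (Φ : (ℝ → ℝ) → (ℝ → ℝ) → ℝ)
    (hΦ : ∀ f g f' g' : ℝ → ℝ, f =ᵐ[volume] f' → g =ᵐ[volume] g' → Φ f g = Φ f' g')
    (hu : ∀ t ∈ Icc 0 T₁, Tendsto (fun t' => Φ (u t') (u t)) (𝓝[Icc 0 T₁] t) (𝓝 0))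
    (hv : ∀ t ∈ Icc 0 T₂, Tendsto (fun t' => Φ (v t') (v t)) (𝓝[Icc 0 T₂] t) (𝓝 0)) :
    ∀ t ∈ Icc 0 (T₁ + T₂), Tendsto (fun t' => Φ (gl T₁ u v t') (gl T₁ u v t))
      (𝓝[Icc 0 (T₁ + T₂)] t) (𝓝 0) := by
  intro t ht
  have e : Icc 0 (T₁ + T₂) = Icc 0 T₁ ∪ Icc T₁ (T₁ + T₂) :=
    (Icc_union_Icc_eq_Icc hT1.le (by linarith)).symm
  rw [e, nhdsWithin_union, tendsto_sup]
  constructor
  · by_cases h : t ≤ T₁
    · have h1 := hu t ⟨ht.1, h⟩
      refine h1.congr' ?_
      filter_upwards [self_mem_nhdsWithin] with t' ht'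
      rw [gl_left h, gl_left ht'.2]
    · have h1 : 𝓝[Icc 0 T₁] t = ⊥ := by
        rw [← notMem_closure_iff_nhdsWithin_eq_bot, isClosed_Icc.closure_eq]
        exact fun h2 => h h2.2
      rw [h1]
      exact tendsto_bot
  · by_cases h : T₁ ≤ t
    · have h1 := hv (t - T₁) ⟨by linarith, by linarith [ht.2]⟩
      have h2 : Tendsto (fun t' => t' - T₁) (𝓝[Icc T₁ (T₁ + T₂)] t)
          (𝓝[Icc 0 T₂] (t - T₁)) := by
        apply tendsto_nhdsWithin_of_tendsto_nhds_of_eventually_within
        · exact (tendsto_id.sub_const T₁).mono_left nhdsWithin_le_nhds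
        · filter_upwards [self_mem_nhdsWithin] with t' ht'
          exact ⟨by linarith [ht'.1], by linarith [ht'.2]⟩
      refine (h1.comp h2).congr' ?_
      filter_upwards [self_mem_nhdsWithin] with t' ht'
      exact hΦ _ _ _ _ (gl_ae huv ht'.1).symm (gl_ae huv h).symm
    · have h1 : 𝓝[Icc T₁ (T₁ + T₂)] t = ⊥ := by
        rw [← notMem_closure_iff_nhdsWithin_eq_bot, isClosed_Icc.closure_eq]
        exact fun h2 => h h2.1
      rw [h1]
      exact tendsto_bot

end Glue

open Glue in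
theorem glueStmt (h1 : HsFacts) (h2 : WeakFormStmt) (h3 : PairContStmt) : GlueStmt := by
  intro k σ s T₁ T₂ u v hs hT1 hT2 hu hv huv
  have e0 : (fun t => if t ≤ T₁ then u t else v (t - T₁)) = gl T₁ u v := rfl
  rw [e0]
  refine ⟨?_, ?_, ?_, ?_, ?_⟩
  · intro t ht
    by_cases h : t ≤ T₁
    · rw [gl_left h]
      exact hu.mem t ⟨ht.1, h⟩
    · rw [gl_right (not_le.mp h)]
      exact hv.mem _ ⟨by linarith [not_le.mp h], by linarith [ht.2]⟩
  · refine cont_glue hT1 hT2 huv (fun f g => hsNorm s (fun x => f x - g x)) ?_ hu.cont hv.cont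
    intro f g f' g' hf hg
    exact h1.congr s _ _ (hf.sub hg)
  · intro t ht
    by_cases h : t ≤ T₁
    · rw [gl_left h]
      exact hu.pow_int t ⟨ht.1, h⟩
    · rw [gl_right (not_le.mp h)]
      exact hv.pow_int _ ⟨by linarith [not_le.mp h], by linarith [ht.2]⟩
  · refine cont_glue hT1 hT2 huv
      (fun f g => ∫ x in (0 : ℝ)..(2 * Real.pi), |f x ^ k - g x ^ k|) ?_ hu.pow_cont hv.pow_cont
    intro f g f' g' hf hg
    apply intervalIntegral.integral_congr_ae
    filter_upwards [hf, hg] with x h4 h5 _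
    rw [h4, h5]
  · intro φ hφ
    obtain ⟨a, b, ha, hb, hφ0⟩ := hφ.supp
    -- the shifted test function
    set ψ : ℝ → ℝ → ℝ := fun t => φ (t + T₁) with hψ
    have hψs : ContDiff ℝ (⊤ : ℕ∞) (Function.uncurry ψ) := by
      have : Function.uncurry ψ = Function.uncurry φ ∘ fun p : ℝ × ℝ => (p.1 + T₁, p.2) := rfl
      rw [this]
      exact hφ.smooth.comp ((contDiff_fst.add contDiff_const).prodMk contDiff_snd)
    have hψp : ∀ t, Function.Periodic (ψ t) (2 * Real.pi) := fun t => hφ.periodic _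
    have c1 := (h3 k σ s T₁ u φ hs hT1 hu hφ.smooth hφ.periodic).2
    have c2 := (h3 k σ s T₂ v ψ hs hT2 hv hψs hψp).2
    have w1 := h2 k σ s T₁ u φ hs hT1 hu hφ.smooth hφ.periodic 0 T₁ le_rfl hT1 le_rfl
    have w2 := h2 k σ s T₂ v ψ hs hT2 hv hψs hψp 0 T₂ le_rfl hT2 le_rfl
    -- the boundary terms
    have b1 : pairH u φ 0 = 0 := by
      unfold pairH
      have : ∀ x, u 0 x * φ 0 x = 0 := fun x => by
        rw [hφ0 0 (fun h => by linarith [h.1]), mul_zero]
      simp only [this, intervalIntegral.integral_zero]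
    have b2 : pairH v ψ T₂ = 0 := by
      unfold pairH
      have : ∀ x, v T₂ x * ψ T₂ x = 0 := fun x => by
        rw [hψ]
        simp only
        rw [hφ0 _ (fun h => by linarith [h.2]), mul_zero]
      simp only [this, intervalIntegral.integral_zero]
    have b3 : pairH v ψ 0 = pairH u φ T₁ := by
      unfold pairH
      apply intervalIntegral.integral_congr_ae
      filter_upwards [huv] with x h4 _
      rw [h4, hψ]
      simp only [zero_add]
    -- the two pieces
    have p1 : ∀ t ∈ Icc 0 T₁, pairG k σ (gl T₁ u v) φ t = pairG k σ u φ t := by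
      intro t ht
      unfold pairG
      rw [gl_left ht.2]
    have p2 : ∀ t, T₁ < t → pairG k σ (gl T₁ u v) φ t = pairG k σ v ψ (t - T₁) := by
      intro t ht
      unfold pairG
      rw [gl_right ht]
      apply intervalIntegral.integral_congr
      intro x _
      simp only [hψ]
      rw [deriv_comp_add_const (fun τ => φ τ x) T₁ (t - T₁), sub_add_cancel]
    have i1 : IntervalIntegrable (pairG k σ u φ) volume 0 T₁ := by
      apply ContinuousOn.intervalIntegrable
      rw [uIcc_of_le hT1.le]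
      exact c1
    have i2 : IntervalIntegrable (pairG k σ v ψ) volume 0 T₂ := by
      apply ContinuousOn.intervalIntegrable
      rw [uIcc_of_le hT2.le]
      exact c2
    have i2' : IntervalIntegrable (fun t => pairG k σ v ψ (t - T₁)) volume T₁ (T₁ + T₂) := by
      have := i2.comp_sub_right T₁
      rwa [zero_add, add_comm T₂] at this
    have j1 : IntervalIntegrable (pairG k σ (gl T₁ u v) φ) volume 0 T₁ := by
      refine i1.congr ?_
      intro t ht
      rw [uIoc_of_le hT1.le] at ht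
      exact (p1 t ⟨ht.1.le, ht.2⟩).symm
    have j2 : IntervalIntegrable (pairG k σ (gl T₁ u v) φ) volume T₁ (T₁ + T₂) := by
      refine i2'.congr ?_
      intro t ht
      rw [uIoc_of_le (by linarith)] at ht
      exact (p2 t ht.1).symm
    have goal : ∫ t in (0 : ℝ)..(T₁ + T₂), pairG k σ (gl T₁ u v) φ t = 0 := by
      rw [← intervalIntegral.integral_add_adjacent_intervals j1 j2]
      have k1 : ∫ t in (0 : ℝ)..T₁, pairG k σ (gl T₁ u v) φ t = pairH u φ T₁ := by
        rw [b1, sub_zero] at w1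
        rw [w1]
        apply intervalIntegral.integral_congr
        intro t ht
        rw [uIcc_of_le hT1.le] at ht
        exact p1 t ht
      have k2 : ∫ t in T₁..(T₁ + T₂), pairG k σ (gl T₁ u v) φ t = -pairH u φ T₁ := by
        rw [b2, b3, zero_sub] at w2
        rw [w2]
        have k3 : ∫ t in T₁..(T₁ + T₂), pairG k σ (gl T₁ u v) φ t =
            ∫ t in T₁..(T₁ + T₂), pairG k σ v ψ (t - T₁) := by
          apply intervalIntegral.integral_congr_ae
          refine Eventually.of_forall fun t ht => ?_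
          rw [uIoc_of_le (by linarith)] at ht
          exact p2 t ht.1
        rw [k3, intervalIntegral.integral_comp_sub_right (pairG k σ v ψ) T₁, sub_self,
          add_sub_cancel_left]
      rw [k1, k2, add_neg_cancel]
    exact goal

end GKdV
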