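import Pool.Agent.Lib.MP_cb0de5_an.SpecB

/-!
# AB3: growth in the resonant system, from the cascade, the arithmetic networks and the bridge
-/

open MeasureTheory Filter Topology Set

noncomputable section

namespace GKdV

namespace GrowthFrom

/-- there is a mode of level `0` -/
theorem exists_lv_zero {g : ℕ} {M Q : Type} (N : Net g M Q) :
    ∀ (n : ℕ) (m : M), N.lv m = n → ∃ m', N.lv m' = 0 := by
  intro n
  induction n with
  | zero => intro m hm; exact ⟨m, hm⟩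
  | succ n ih =>
    intro m hm
    obtain ⟨q, b, hq⟩ := N.chi_surj m (by omega)
    have h1 := N.lv_par q 0
    have h2 := N.lv_chi q b
    rw [hq] at h2
    exact ih (N.par q 0) (by omega)

end GrowthFrom

theorem growthFromStmt : GrowthFromStmt := by
  intro hC hA hB σ hσ s hs1 hs2 K
  obtain ⟨g, M, Q, iM, iD, iQ, N, f, hne, hf, hK⟩ :=
    hA (1 + 2 * s) (by linarith) (by linarith) (8 * max K 0)
  obtain ⟨κ, hκ, hbr⟩ := hB g M Q N f hf σ hσ
  set θ : ℝ := 1 + 2 * s with hθ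
  set S0 : ℝ := ∑ m with N.lv m = 0, (f m : ℝ) ^ θ with hS0
  set Sg : ℝ := ∑ m with N.lv m = g, (f m : ℝ) ^ θ with hSg
  set St : ℝ := ∑ m, (f m : ℝ) ^ θ with hSt
  have hfpos : ∀ m, 0 < (f m : ℝ) ^ θ := by
    intro m
    have h1 : (0 : ℝ) < (f m : ℝ) := by exact_mod_cast hf.pos m
    exact Real.rpow_pos_of_pos h1 θ
  have hS0pos : 0 < S0 := by
    obtain ⟨m⟩ := hne
    obtain ⟨m', hm'⟩ := GrowthFrom.exists_lv_zero N (N.lv m) m rfl
    exact Finset.sum_pos (fun i _ => hfpos i) ⟨m', by simp [hm']⟩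
  have hS0St : S0 ≤ St :=
    Finset.sum_le_univ_sum_of_nonneg (fun i => (hfpos i).le)
  have hStpos : 0 < St := lt_of_lt_of_le hS0pos hS0St
  have hSg0 : 0 ≤ Sg := Finset.sum_nonneg (fun i _ => (hfpos i).le)
  set ε : ℝ := S0 / (2 * St) with hε
  have hεpos : 0 < ε := by positivity
  have hεhalf : ε ≤ 1 / 2 := by
    rw [hε, div_le_div_iff₀ (by positivity) (by norm_num)]
    linarith
  have hεSt : ε * St = S0 / 2 := by
    rw [hε]; field_simp
  obtain ⟨T, hT, x, hx, hx0, hx1, hxT⟩ := hC g M Q N κ hκ ε hεpos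
  obtain ⟨A, hRS, hnorm⟩ := hbr T x hT hx
  have hn0 : rsNormSq s (lam f) (A 0) = 2 * ∑ m, (f m : ℝ) ^ θ * x 0 m ^ 2 := hnorm 0 s
  have hnT : rsNormSq s (lam f) (A T) = 2 * ∑ m, (f m : ℝ) ^ θ * x T m ^ 2 := hnorm T s
  -- upper bound at time zero
  have hup : ∑ m, (f m : ℝ) ^ θ * x 0 m ^ 2 ≤ S0 + ε ^ 2 * St := by
    have h1 : ∀ m, (f m : ℝ) ^ θ * x 0 m ^ 2
        ≤ (if N.lv m = 0 then (f m : ℝ) ^ θ else 0) + ε ^ 2 * (f m : ℝ) ^ θ := by
      intro m
      by_cases h : N.lv m = 0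
      · rw [if_pos h, hx0 m h]
        have := hfpos m
        have h3 : 0 ≤ ε ^ 2 * (f m : ℝ) ^ θ := by positivity
        linarith
      · rw [if_neg h]
        obtain ⟨h2, h3⟩ := hx1 m (Nat.pos_of_ne_zero h)
        have h4 : x 0 m ^ 2 ≤ ε ^ 2 := by
          exact pow_le_pow_left₀ h2 h3 2
        have h5 := mul_le_mul_of_nonneg_left h4 (hfpos m).le
        linarith
    calc ∑ m, (f m : ℝ) ^ θ * x 0 m ^ 2
        ≤ ∑ m, ((if N.lv m = 0 then (f m : ℝ) ^ θ else 0) + ε ^ 2 * (f m : ℝ) ^ θ) :=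
          Finset.sum_le_sum (fun m _ => h1 m)
      _ = S0 + ε ^ 2 * St := by
          rw [Finset.sum_add_distrib, ← Finset.mul_sum, hS0, Finset.sum_filter]
  have hε2 : ε ^ 2 * St ≤ S0 := by
    have h1 : ε ^ 2 * St = ε * (S0 / 2) := by rw [← hεSt]; ring
    rw [h1]
    nlinarith
  -- lower bound at time zero
  have hlow0 : S0 ≤ ∑ m, (f m : ℝ) ^ θ * x 0 m ^ 2 := by
    have h1 : ∀ m, (if N.lv m = 0 then (f m : ℝ) ^ θ else 0) ≤ (f m : ℝ) ^ θ * x 0 m ^ 2 := by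
      intro m
      by_cases h : N.lv m = 0
      · rw [if_pos h, hx0 m h]; simp
      · rw [if_neg h]
        have := hfpos m
        positivity
    calc S0 = ∑ m, (if N.lv m = 0 then (f m : ℝ) ^ θ else 0) := by
          rw [hS0, Finset.sum_filter]
      _ ≤ _ := Finset.sum_le_sum (fun m _ => h1 m)
  -- lower bound at time T
  have hlowT : Sg / 4 ≤ ∑ m, (f m : ℝ) ^ θ * x T m ^ 2 := by
    have h1 : ∀ m, (if N.lv m = g then (f m : ℝ) ^ θ else 0) / 4
        ≤ (f m : ℝ) ^ θ * x T m ^ 2 := by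
      intro m
      by_cases h : N.lv m = g
      · rw [if_pos h]
        have h2 := hxT m h
        have h3 : (1 / 2 : ℝ) ≤ x T m := by linarith
        have h4 : (1 / 4 : ℝ) ≤ x T m ^ 2 := by nlinarith
        have h5 := mul_le_mul_of_nonneg_left h4 (hfpos m).le
        linarith
      · rw [if_neg h]
        have := hfpos m
        rw [zero_div]
        positivity
    calc Sg / 4 = ∑ m, (if N.lv m = g then (f m : ℝ) ^ θ else 0) / 4 := by
          rw [hSg, Finset.sum_filter, Finset.sum_div]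
      _ ≤ _ := Finset.sum_le_sum (fun m _ => h1 m)
  refine ⟨T, lam f, A, hT, hRS, ?_, ?_⟩
  · rw [hn0]; linarith
  · rw [hn0, hnT]
    have hK0 : (0 : ℝ) ≤ max K 0 := le_max_right _ _
    have hKK : K ≤ max K 0 := le_max_left _ _
    have h1 : 0 ≤ ∑ m, (f m : ℝ) ^ θ * x 0 m ^ 2 := by linarith
    have h2 : K * (2 * ∑ m, (f m : ℝ) ^ θ * x 0 m ^ 2)
        ≤ max K 0 * (2 * ∑ m, (f m : ℝ) ^ θ * x 0 m ^ 2) :=
      mul_le_mul_of_nonneg_right hKK (by linarith)
    have h3 : max K 0 * (2 * ∑ m, (f m : ℝ) ^ θ * x 0 m ^ 2) ≤ max K 0 * (4 * S0) :=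
      mul_le_mul_of_nonneg_left (by linarith) hK0
    linarith

end GKdV
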