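import Pool.Agent.Lib.MP_cb0de5_an.SpecD

/-!
# Facts on `H^s`
-/

open MeasureTheory Filter Topology Set

noncomputable section

namespace GKdV

namespace HsF

private lemma wpos (s : ℝ) (n : ℤ) : 0 ≤ (1 + (n : ℝ) ^ 2) ^ s :=
  Real.rpow_nonneg (by positivity) _

private lemma mink (w : ℤ → ℝ) (hw : ∀ n, 0 ≤ w n) (a b c : ℤ → ℂ)
    (hc : ∀ n, ‖c n‖ ≤ ‖a n‖ + ‖b n‖)
    (ha : Summable fun n => w n * ‖a n‖ ^ 2) (hb : Summable fun n => w n * ‖b n‖ ^ 2) :
    (Summable fun n => w n * ‖c n‖ ^ 2) ∧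
      Real.sqrt (∑' n, w n * ‖c n‖ ^ 2) ≤
        Real.sqrt (∑' n, w n * ‖a n‖ ^ 2) + Real.sqrt (∑' n, w n * ‖b n‖ ^ 2) := by
  have key : ∀ (x : ℤ → ℂ) (n : ℤ), (Real.sqrt (w n) * ‖x n‖) ^ (2 : ℝ) = w n * ‖x n‖ ^ 2 := by
    intro x n
    rw [Real.rpow_two, mul_pow, Real.sq_sqrt (hw n)]
  have h := Real.Lp_add_le_tsum_of_nonneg (p := 2) (f := fun n => Real.sqrt (w n) * ‖a n‖)
    (g := fun n => Real.sqrt (w n) * ‖b n‖) (by norm_num)
    (fun n => by positivity) (fun n => by positivity)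
    (by simp only [key]; exact ha) (by simp only [key]; exact hb)
  obtain ⟨h1, h2⟩ := h
  simp only [key] at h2
  rw [← Real.sqrt_eq_rpow, ← Real.sqrt_eq_rpow, ← Real.sqrt_eq_rpow] at h2
  have hle : ∀ n, w n * ‖c n‖ ^ 2 ≤
      (Real.sqrt (w n) * ‖a n‖ + Real.sqrt (w n) * ‖b n‖) ^ (2 : ℝ) := by
    intro n
    rw [Real.rpow_two, ← mul_add, mul_pow, Real.sq_sqrt (hw n)]
    have := hc n
    have h0 := norm_nonneg (c n)
    exact mul_le_mul_of_nonneg_left (pow_le_pow_left₀ h0 this 2) (hw n)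
  have hs : Summable fun n => w n * ‖c n‖ ^ 2 :=
    Summable.of_nonneg_of_le (fun n => mul_nonneg (hw n) (by positivity)) hle h1
  refine ⟨hs, le_trans (Real.sqrt_le_sqrt ?_) h2⟩
  exact hs.tsum_le_tsum hle h1

private lemma int_of_sq {f : ℝ → ℝ} (hm : AEStronglyMeasurable f volume)
    (h2 : IntervalIntegrable (fun x => f x ^ 2) volume 0 (2 * Real.pi)) :
    IntervalIntegrable f volume 0 (2 * Real.pi) := by
  have h1 : IntervalIntegrable (fun x => 1 + f x ^ 2) volume 0 (2 * Real.pi) :=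
    (intervalIntegrable_const).add h2
  refine h1.mono_fun (hm.restrict) ?_
  refine Eventually.of_forall fun x => ?_
  show ‖f x‖ ≤ ‖1 + f x ^ 2‖
  rw [Real.norm_eq_abs, Real.norm_eq_abs, abs_of_nonneg (by positivity : (0:ℝ) ≤ 1 + f x ^ 2)]
  have := sq_abs (f x)
  nlinarith [sq_nonneg (|f x| - 1), abs_nonneg (f x)]

private lemma int_mul_exp {f : ℝ → ℝ} (h : IntervalIntegrable f volume 0 (2 * Real.pi)) (n : ℤ) :
    IntervalIntegrable (fun x => (f x : ℂ) * Complex.exp (-(Complex.I * n * x))) volume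
      0 (2 * Real.pi) := by
  have h1 : IntervalIntegrable (fun x => (f x : ℂ)) volume 0 (2 * Real.pi) :=
    ⟨h.1.ofReal, h.2.ofReal⟩
  refine h1.mul_continuousOn (Continuous.continuousOn ?_)
  fun_prop

private lemma fc_add {f g : ℝ → ℝ} (hf : IntervalIntegrable f volume 0 (2 * Real.pi))
    (hg : IntervalIntegrable g volume 0 (2 * Real.pi)) (n : ℤ) :
    fc (fun x => f x + g x) n = fc f n + fc g n := by
  unfold fc
  rw [← mul_add, ← intervalIntegral.integral_add (int_mul_exp hf n) (int_mul_exp hg n)]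
  congr 1
  refine intervalIntegral.integral_congr fun x _ => ?_
  simp only
  push_cast
  ring

private lemma fc_neg (f : ℝ → ℝ) (n : ℤ) : fc (fun x => - f x) n = - fc f n := by
  unfold fc
  rw [← mul_neg, ← intervalIntegral.integral_neg]
  congr 1
  refine intervalIntegral.integral_congr fun x _ => ?_
  simp only
  push_cast
  ring

private lemma fc_sub {f g : ℝ → ℝ} (hf : IntervalIntegrable f volume 0 (2 * Real.pi))
    (hg : IntervalIntegrable g volume 0 (2 * Real.pi)) (n : ℤ) :
    fc (fun x => f x - g x) n = fc f n - fc g n := by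
  have h : fc (fun x => f x + - g x) n = fc f n + fc (fun x => - g x) n := fc_add hf hg.neg n
  rw [fc_neg] at h
  simpa only [sub_eq_add_neg] using h

private lemma fc_zero (n : ℤ) : fc (fun _ => 0) n = 0 := by
  unfold fc
  simp

private lemma fc_congr {f g : ℝ → ℝ} (h : f =ᵐ[volume] g) (n : ℤ) : fc f n = fc g n := by
  unfold fc
  congr 1
  refine intervalIntegral.integral_congr_ae ?_
  filter_upwards [h] with x hx _
  rw [hx]

private lemma memInt {s : ℝ} {f : ℝ → ℝ} (h : MemHs s f) :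
    IntervalIntegrable f volume 0 (2 * Real.pi) := int_of_sq h.meas h.sq_int

private lemma zero_mem (s : ℝ) : MemHs s (fun _ => 0) := by
  refine ⟨fun x => rfl, aestronglyMeasurable_const, ?_, ?_⟩
  · simp
  · simp [fc_zero]

private lemma norm_zero (s : ℝ) : hsNorm s (fun _ => 0) = 0 := by
  unfold hsNorm
  simp [fc_zero]

private lemma sq_add_int {f g : ℝ → ℝ} (hf : AEStronglyMeasurable f volume)
    (hg : AEStronglyMeasurable g volume)
    (hf2 : IntervalIntegrable (fun x => f x ^ 2) volume 0 (2 * Real.pi))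
    (hg2 : IntervalIntegrable (fun x => g x ^ 2) volume 0 (2 * Real.pi)) :
    IntervalIntegrable (fun x => (f x + g x) ^ 2) volume 0 (2 * Real.pi) := by
  have h1 : IntervalIntegrable (fun x => 2 * f x ^ 2 + 2 * g x ^ 2) volume 0 (2 * Real.pi) :=
    (hf2.const_mul 2).add (hg2.const_mul 2)
  refine h1.mono_fun ((hf.add hg).pow 2).restrict ?_
  refine Eventually.of_forall fun x => ?_
  have e1 : ‖((f + g) ^ 2) x‖ = (f x + g x) ^ 2 := by
    simp [Real.norm_eq_abs, sq_abs]
  have e2 : ‖2 * f x ^ 2 + 2 * g x ^ 2‖ = 2 * f x ^ 2 + 2 * g x ^ 2 := by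
    rw [Real.norm_eq_abs, abs_of_nonneg (by positivity)]
  show ‖(f x + g x) ^ 2‖ ≤ ‖2 * f x ^ 2 + 2 * g x ^ 2‖
  rw [e2, Real.norm_eq_abs, abs_of_nonneg (by positivity)]
  nlinarith [sq_nonneg (f x - g x)]

private lemma add_both (s : ℝ) (f g : ℝ → ℝ) (hf : MemHs s f) (hg : MemHs s g) :
    MemHs s (fun x => f x + g x) ∧
      hsNorm s (fun x => f x + g x) ≤ hsNorm s f + hsNorm s g := by
  have h := mink (fun n : ℤ => (1 + (n : ℝ) ^ 2) ^ s) (wpos s) (fc f) (fc g)
    (fc (fun x => f x + g x)) (fun n => by rw [fc_add (memInt hf) (memInt hg) n]; exact norm_add_le _ _)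
    hf.summable hg.summable
  refine ⟨⟨?_, hf.meas.add hg.meas, sq_add_int hf.meas hg.meas hf.sq_int hg.sq_int, h.1⟩, h.2⟩
  intro x
  simp only
  rw [hf.periodic x, hg.periodic x]

private lemma neg_mem {s : ℝ} {g : ℝ → ℝ} (hg : MemHs s g) : MemHs s (fun x => - g x) := by
  refine ⟨fun x => congrArg (fun y => - y) (hg.periodic x), hg.meas.neg, ?_, ?_⟩
  · have := hg.sq_int
    simpa using this
  · have := hg.summable
    simpa [fc_neg] using this

private lemma norm_neg' (s : ℝ) (g : ℝ → ℝ) : hsNorm s (fun x => - g x) = hsNorm s g := by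
  unfold hsNorm
  simp [fc_neg]

private lemma sub_both (s : ℝ) (f g : ℝ → ℝ) (hf : MemHs s f) (hg : MemHs s g) :
    MemHs s (fun x => f x - g x) ∧
      hsNorm s (fun x => f x - g x) ≤ hsNorm s f + hsNorm s g := by
  have h := add_both s f (fun x => - g x) hf (neg_mem hg)
  rw [norm_neg'] at h
  simpa only [sub_eq_add_neg] using h

private lemma norm_sub_comm' (s : ℝ) (f g : ℝ → ℝ) :
    hsNorm s (fun x => f x - g x) = hsNorm s (fun x => g x - f x) := by
  rw [← norm_neg' s (fun x => f x - g x)]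
  congr 1
  funext x
  ring

private lemma congr' (s : ℝ) (f g : ℝ → ℝ) (h : f =ᵐ[volume] g) : hsNorm s f = hsNorm s g := by
  unfold hsNorm
  congr 1
  refine tsum_congr fun n => ?_
  rw [fc_congr h n]

private lemma mem_congr' (s : ℝ) (f g : ℝ → ℝ) (h : f =ᵐ[volume] g)
    (hp : Function.Periodic g (2 * Real.pi)) (hf : MemHs s f) : MemHs s g := by
  refine ⟨hp, hf.meas.congr h, ?_, ?_⟩
  · refine hf.sq_int.congr_ae ?_
    refine ae_restrict_of_ae ?_
    filter_upwards [h] with x hx
    rw [hx]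
  · have := hf.summable
    simpa only [fc_congr h] using this

private lemma abs_diff (s : ℝ) (f g : ℝ → ℝ) (hf : MemHs s f) (hg : MemHs s g) :
    |hsNorm s f - hsNorm s g| ≤ hsNorm s (fun x => f x - g x) := by
  rw [abs_le]
  constructor
  · have h1 := (add_both s (fun x => g x - f x) f (sub_both s g f hg hf).1 hf).2
    simp only [sub_add_cancel] at h1
    rw [norm_sub_comm' s f g]
    have h2 : hsNorm s (fun x => g x) = hsNorm s g := rfl
    linarith
  · have h1 := (add_both s (fun x => f x - g x) g (sub_both s f g hf hg).1 hg).2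
    simp only [sub_add_cancel] at h1
    have h2 : hsNorm s (fun x => f x) = hsNorm s f := rfl
    linarith

private lemma sol_cont' (k : ℕ) (σ s T : ℝ) (u : ℝ → ℝ → ℝ) (h : IsSolution k σ s T u) :
    ContinuousOn (fun t => hsNorm s (u t)) (Icc 0 T) := by
  intro t ht
  have h1 := h.cont t ht
  unfold ContinuousWithinAt
  rw [tendsto_iff_dist_tendsto_zero]
  refine squeeze_zero' (Eventually.of_forall fun _ => dist_nonneg) ?_ h1
  filter_upwards [self_mem_nhdsWithin] with t' ht'
  rw [Real.dist_eq]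
  exact abs_diff s (u t') (u t) (h.mem t' ht') (h.mem t ht)

private lemma zero_sol' (k : ℕ) (σ s T : ℝ) (hk : 0 < k) : IsSolution k σ s T (fun _ _ => 0) := by
  have hk' : k ≠ 0 := by omega
  refine ⟨fun t _ => zero_mem s, ?_, ?_, ?_, ?_⟩
  · intro t _
    simp only [sub_zero]
    rw [norm_zero s]
    exact tendsto_const_nhds
  · intro t _
    simp [hk']
  · intro t _
    simp only [sub_self, abs_zero, intervalIntegral.integral_zero]
    exact tendsto_const_nhds
  · intro φ _
    simp [hk']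

end HsF

open HsF in
/-- **D2** -/
theorem hsFacts : HsFacts where
  zero_mem := HsF.zero_mem
  norm_zero := HsF.norm_zero
  norm_nonneg := fun s f => Real.sqrt_nonneg _
  add_mem := fun s f g hf hg => (add_both s f g hf hg).1
  sub_mem := fun s f g hf hg => (sub_both s f g hf hg).1
  norm_add := fun s f g hf hg => (add_both s f g hf hg).2
  norm_sub := fun s f g hf hg => (sub_both s f g hf hg).2
  norm_sub_comm := norm_sub_comm'
  congr := congr'
  mem_congr := mem_congr'
  sol_cont := fun k σ s T u _ h => sol_cont' k σ s T u h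
  zero_sol := zero_sol'

end GKdV
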