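import Pool.Agent.Lib.MP_cb0de5_an.SpecD

/-!
# Norm inflation from the growth of the resonant system
-/

open MeasureTheory Filter Topology Set

noncomputable section

namespace GKdV

namespace InflationFrom

lemma rsNormSq_scale (s : ℝ) (Λ : Finset ℤ) (a : ℤ → ℂ) (μ : ℝ) :
    rsNormSq s Λ (fun n => (μ : ℂ) * a n) = μ ^ 2 * rsNormSq s Λ a := by
  unfold rsNormSq
  rw [Finset.mul_sum]
  apply Finset.sum_congr rfl
  intro n _
  rw [norm_mul, mul_pow, Complex.norm_real, Real.norm_eq_abs, sq_abs]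
  ring

lemma scale {σ S : ℝ} {Λ : Finset ℤ} {A : ℝ → ℤ → ℂ} (h : RSSol σ S Λ A) {μ : ℝ} (hμ : 0 < μ) :
    RSSol σ (S / μ ^ 3) Λ (fun t n => (μ : ℂ) * A (μ ^ 3 * t) n) where
  zero_notMem := h.zero_notMem
  symm := h.symm
  closed := h.closed
  supp t n hn := by rw [h.supp _ n hn, mul_zero]
  real t n := by
    rw [h.real, map_mul, Complex.conj_ofReal]
  deriv t ht n hn := by
    have hμ3 : 0 < μ ^ 3 := by positivity
    have ht' : μ ^ 3 * t ∈ Icc 0 S := by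
      refine ⟨mul_nonneg hμ3.le ht.1, ?_⟩
      have := (le_div_iff₀ hμ3).1 ht.2
      linarith
    have h1 := h.deriv _ ht' n hn
    have h2 : HasDerivAt (fun τ : ℝ => μ ^ 3 * τ) (μ ^ 3) t := by
      simpa using (hasDerivAt_id t).const_mul (μ ^ 3)
    have h3 := (h1.scomp t h2).const_mul (μ : ℂ)
    refine h3.congr_deriv ?_
    rw [Complex.real_smul]
    have h4 : ∀ p : ℤ × ℤ × ℤ × ℤ, (μ : ℂ) * A (μ ^ 3 * t) p.1 * ((μ : ℂ) * A (μ ^ 3 * t) p.2.1) *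
        ((μ : ℂ) * A (μ ^ 3 * t) p.2.2.1) * ((μ : ℂ) * A (μ ^ 3 * t) p.2.2.2) =
        (μ : ℂ) ^ 4 * (A (μ ^ 3 * t) p.1 * A (μ ^ 3 * t) p.2.1 * A (μ ^ 3 * t) p.2.2.1 *
          A (μ ^ 3 * t) p.2.2.2) := fun p => by ring
    simp only [h4, ← Finset.mul_sum]
    push_cast
    ring

end InflationFrom

theorem inflationFromStmt : InflationFromStmt := by
  intro hG hP σ hσ s hs hs' ε hε
  obtain ⟨S, Λ, A, hS, hA, hpos, hK⟩ := hG σ hσ s hs hs' (4 / ε ^ 4 + 4)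
  set N₀ := rsNormSq s Λ (A 0) with hN₀
  set μ := Real.sqrt (ε ^ 2 / (4 * N₀)) with hμdef
  have hμ : 0 < μ := Real.sqrt_pos.2 (by positivity)
  have hμ2 : μ ^ 2 * N₀ = ε ^ 2 / 4 := by
    rw [hμdef, Real.sq_sqrt (by positivity)]
    field_simp
  have hμ3 : 0 < μ ^ 3 := by positivity
  obtain ⟨T, hT, hTε, u, hu, hu0, huT⟩ := hP σ (S / μ ^ 3) Λ _ hσ (by positivity)
    (InflationFrom.scale hA hμ) s (by linarith) hs' (min ε (ε ^ 2 / 2)) (by positivity)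
  have hT1 : μ ^ 3 * (S / μ ^ 3) = S := by field_simp
  simp only [mul_zero, hT1, InflationFrom.rsNormSq_scale] at hu0 huT
  rw [← hN₀, hμ2] at hu0
  have he1 : min ε (ε ^ 2 / 2) ≤ ε := min_le_left _ _
  have he2 : min ε (ε ^ 2 / 2) ≤ ε ^ 2 / 2 := min_le_right _ _
  have hn0 : 0 ≤ hsNorm s (u 0) := Real.sqrt_nonneg _
  have hnT : 0 ≤ hsNorm s (u T) := Real.sqrt_nonneg _
  have hbig : 1 / ε ^ 2 + ε ^ 2 ≤ μ ^ 2 * rsNormSq s Λ (A S) := by
    have h1 := mul_le_mul_of_nonneg_left hK (sq_nonneg μ)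
    have h2 : μ ^ 2 * ((4 / ε ^ 4 + 4) * N₀) = 1 / ε ^ 2 + ε ^ 2 := by
      have : μ ^ 2 * ((4 / ε ^ 4 + 4) * N₀) = (4 / ε ^ 4 + 4) * (μ ^ 2 * N₀) := by ring
      rw [this, hμ2]
      field_simp
    linarith
  refine ⟨T, hT, by linarith, u, hu, ?_, ?_⟩
  · have h1 := (abs_lt.1 hu0).2
    have h2 : hsNorm s (u 0) ^ 2 < ε ^ 2 := by
      have : 0 < ε ^ 2 := by positivity
      linarith
    exact lt_of_pow_lt_pow_left₀ 2 hε.le h2
  · have h1 := (abs_lt.1 huT).1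
    have h2 : (1 / ε) ^ 2 < hsNorm s (u T) ^ 2 := by
      have h3 : 0 < ε ^ 2 := by positivity
      have h4 : (1 / ε) ^ 2 = 1 / ε ^ 2 := by rw [div_pow, one_pow]
      rw [h4]
      linarith
    exact lt_of_pow_lt_pow_left₀ 2 hnT h2

end GKdV
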