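import Pool.Agent.Lib.MP_cb0de5_an.SpecD

/-!
# C5c: the limit of the Galerkin solutions is a solution
-/

open MeasureTheory Filter Topology Set

noncomputable section

namespace GKdV

open LP

namespace Limit

lemma dil_sub (h3 : EvFacts) (c : ℝ) (N : ℕ) (f g : LP) (x : ℝ) :
    dil c N f x - dil c N g x = dil c N (f - g) x := by
  unfold dil
  rw [h3.ev_sub]
  ring

lemma dil_cont (h3 : EvFacts) (c : ℝ) (N : ℕ) (f : LP) : Continuous (dil c N f) := by
  have h : Continuous (ev f) :=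
    continuous_iff_continuousAt.2 fun x => (h3.ev_deriv f x).continuousAt
  unfold dil
  exact continuous_const.mul (h.comp (continuous_const.mul continuous_id))

/-- a Galerkin solution is continuous in `H¹` -/
lemma gal_cont (h1 : AlgFacts) (h2 : NormFacts) {K : ℕ} {lam σ T : ℝ} {a : ℝ → LP}
    (hg : Gal K lam σ T a) {t : ℝ} (ht : t ∈ Icc 0 T) :
    Tendsto (fun t' => n2 (D (a t' - a t))) (𝓝[Icc 0 T] t) (𝓝 0) := by
  have hc : ∀ n : ℤ, Tendsto (fun t' => (a t').coeff n) (𝓝[Icc 0 T] t) (𝓝 ((a t).coeff n)) :=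
    fun n => ((hg.ode t ht n).continuousAt.tendsto).mono_left nhdsWithin_le_nhds
  have h3 : Tendsto (fun t' => ∑ n ∈ Finset.Icc (-(K : ℤ)) K,
      ‖Complex.I * (n : ℂ) * ((a t').coeff n - (a t).coeff n)‖ ^ 2) (𝓝[Icc 0 T] t)
      (𝓝 (∑ n ∈ Finset.Icc (-(K : ℤ)) K,
      ‖Complex.I * (n : ℂ) * ((a t).coeff n - (a t).coeff n)‖ ^ 2)) := by
    apply tendsto_finsetSum
    intro n _
    exact ((((hc n).sub tendsto_const_nhds).const_mul (Complex.I * (n : ℂ))).norm).pow 2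
  simp only [sub_self, mul_zero, norm_zero, ne_eq, OfNat.ofNat_ne_zero, not_false_eq_true,
    zero_pow, Finset.sum_const_zero] at h3
  have h4 := (Real.continuous_sqrt.tendsto _).comp h3
  rw [Real.sqrt_zero] at h4
  refine h4.congr' ?_
  filter_upwards [self_mem_nhdsWithin] with t' ht'
  have hs : Supp K (D (a t' - a t)) :=
    h1.supp_D _ _ (h1.supp_sub _ _ _ (hg.supp t' ht') (hg.supp t ht))
  have hsup : (D (a t' - a t)).coeff.support ⊆ Finset.Icc (-(K : ℤ)) K := by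
    intro n hn
    rw [Finsupp.mem_support_iff] at hn
    rw [Finset.mem_Icc, ← abs_le]
    by_contra hcon
    exact hn (hs n (not_le.mp hcon))
  have h5 := h2.n2_sq _ _ hsup
  rw [← Real.sqrt_sq (h2.n2_nonneg (D (a t' - a t))), h5]
  simp only [Function.comp_apply]
  congr 1

lemma mz_sub (h1 : AlgFacts) {f g : LP} (hf : MZ f) (hg : MZ g) : MZ (f - g) := by
  have e := h1.I0_sub f g
  have e1 : I0 f = 0 := hf
  have e2 : I0 g = 0 := hg
  rw [e1, e2, sub_zero] at e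
  exact e

/-- bound of the Sobolev norm of a dilation -/
lemma hs_le (h2 : NormFacts) (h4 : DilFacts) {s c : ℝ} (hs0 : 0 ≤ s) (hs1 : s ≤ 1)
    (hc : 0 < c) {N : ℕ} (hN : 0 < N) {f : LP} (hf : IsReal f) (hm : MZ f) :
    hsNorm s (dil c N f) ≤ 2 * c * N * n2 (D f) := by
  have h := h4.le_D s c N f hs0 hs1 hN hf hm
  have hn := h2.n2_nonneg (D f)
  have hN0 : (0 : ℝ) < N := by exact_mod_cast hN
  refine le_of_sq_le_sq ?_ (by positivity)
  refine h.trans ?_
  have : 0 ≤ c ^ 2 * (N : ℝ) ^ 2 * n2 (D f) ^ 2 := by positivity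
  nlinarith

/-- difference of fourth powers -/
lemma pow4_sub {x y B : ℝ} (hx : |x| ≤ B) (hy : |y| ≤ B) : |x ^ 4 - y ^ 4| ≤ 4 * B ^ 3 * |x - y| := by
  have hB : 0 ≤ B := (abs_nonneg x).trans hx
  have e : x ^ 4 - y ^ 4 = (x ^ 3 + x ^ 2 * y + x * y ^ 2 + y ^ 3) * (x - y) := by ring
  rw [e, abs_mul]
  refine mul_le_mul_of_nonneg_right ?_ (abs_nonneg _)
  have a1 : |x ^ 3| ≤ B ^ 3 := by
    rw [abs_pow]; exact pow_le_pow_left₀ (abs_nonneg _) hx 3
  have a2 : |x ^ 2 * y| ≤ B ^ 2 * B := by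
    rw [abs_mul, abs_pow]
    exact mul_le_mul (pow_le_pow_left₀ (abs_nonneg _) hx 2) hy (abs_nonneg _) (by positivity)
  have a3 : |x * y ^ 2| ≤ B * B ^ 2 := by
    rw [abs_mul, abs_pow]
    exact mul_le_mul hx (pow_le_pow_left₀ (abs_nonneg _) hy 2) (by positivity) hB
  have a4 : |y ^ 3| ≤ B ^ 3 := by
    rw [abs_pow]; exact pow_le_pow_left₀ (abs_nonneg _) hy 3
  calc |x ^ 3 + x ^ 2 * y + x * y ^ 2 + y ^ 3| ≤ |x ^ 3 + x ^ 2 * y + x * y ^ 2| + |y ^ 3| :=
        abs_add_le _ _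
    _ ≤ |x ^ 3 + x ^ 2 * y| + |x * y ^ 2| + |y ^ 3| := by
        have := abs_add_le (x ^ 3 + x ^ 2 * y) (x * y ^ 2)
        linarith
    _ ≤ |x ^ 3| + |x ^ 2 * y| + |x * y ^ 2| + |y ^ 3| := by
        have := abs_add_le (x ^ 3) (x ^ 2 * y)
        linarith
    _ ≤ 4 * B ^ 3 := by nlinarith

end Limit

open Limit in
theorem limitStmt (h1 : AlgFacts) (h2 : NormFacts) (h3 : EvFacts) (h4 : DilFacts)
    (h5 : UnifLimStmt) (h6 : UnifHsStmt) (h7 : ApproxEqnStmt) (h8 : HsFacts) : LimitStmt := by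
  intro Mb lam σ T c N K₁ φ a hc hN hlam hseq
  obtain ⟨u, hper, hu⟩ := h5 Mb lam σ T c N K₁ φ a hc hN hseq
  have hN0 : (0 : ℝ) < N := by exact_mod_cast hN
  have hN' : (0 : ℝ) < (N : ℝ) ^ 3 := by positivity
  have hτ : ∀ t ∈ Icc 0 (T / (N : ℝ) ^ 3), (N : ℝ) ^ 3 * t ∈ Icc 0 T := by
    intro t ht
    refine ⟨mul_nonneg hN'.le ht.1, ?_⟩
    have := ht.2
    rw [le_div_iff₀ hN'] at this
    linarith
  have hu1 : ∀ ε > 0, ∃ J ≥ K₁, ∀ K ≥ J, ∀ t ∈ Icc 0 (T / (N : ℝ) ^ 3), ∀ x,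
      |dil c N (a K (N ^ 3 * t)) x - u t x| < ε := by
    intro ε hε
    obtain ⟨J, hJ, hJ'⟩ := hu ε hε
    exact ⟨J, hJ, fun K hK t ht x => (hJ' K hK t ht x).1⟩
  -- continuity of `u t`
  have hcont : ∀ t ∈ Icc 0 (T / (N : ℝ) ^ 3), Continuous (u t) := by
    intro t ht
    have hunif : TendstoUniformly (fun (K : ℕ) x => dil c N (a K (N ^ 3 * t)) x) (u t) atTop := by
      rw [Metric.tendstoUniformly_iff]
      intro ε hε
      obtain ⟨J, -, hJ⟩ := hu1 ε hε
      filter_upwards [eventually_ge_atTop J] with K hK x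
      rw [dist_comm, Real.dist_eq]
      exact hJ K hK t ht x
    exact hunif.continuous (Frequently.of_forall fun K => dil_cont h3 c N _)
  -- continuity of the Galerkin solutions
  have hgc : ∀ K, K₁ ≤ K → ∀ t ∈ Icc 0 (T / (N : ℝ) ^ 3),
      Tendsto (fun t' => n2 (D (a K (N ^ 3 * t') - a K (N ^ 3 * t))))
        (𝓝[Icc 0 (T / (N : ℝ) ^ 3)] t) (𝓝 0) := by
    intro K hK t ht
    have h9 := gal_cont h1 h2 (hseq.gal K hK) (hτ t ht)
    refine h9.comp ?_
    rw [tendsto_nhdsWithin_iff]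
    refine ⟨?_, ?_⟩
    · exact ((continuous_const.mul continuous_id).tendsto t).mono_left nhdsWithin_le_nhds
    · filter_upwards [self_mem_nhdsWithin] with t' ht'
      exact hτ t' ht'
  -- `u` is continuous in time, uniformly in `x`
  have huc : ∀ t ∈ Icc 0 (T / (N : ℝ) ^ 3), ∀ ε > 0,
      ∀ᶠ t' in 𝓝[Icc 0 (T / (N : ℝ) ^ 3)] t, ∀ x, |u t' x - u t x| ≤ ε := by
    intro t ht ε hε
    obtain ⟨J, hJ, hJ'⟩ := hu1 (ε / 3) (by positivity)
    have h9 := (hgc J hJ t ht).const_mul (2 * c)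
    rw [mul_zero] at h9
    have h10 := h9.eventually (gt_mem_nhds (show 0 < ε / 3 by positivity))
    filter_upwards [h10, self_mem_nhdsWithin] with t' h11 ht' x
    have e1 := hJ' J le_rfl t' ht' x
    have e2 := hJ' J le_rfl t ht x
    have e3 : |dil c N (a J (N ^ 3 * t')) x - dil c N (a J (N ^ 3 * t)) x| < ε / 3 := by
      rw [dil_sub h3]
      unfold dil
      rw [abs_mul, abs_of_pos hc]
      have g := hseq.gal J hJ
      have hm : MZ (a J (N ^ 3 * t') - a J (N ^ 3 * t)) :=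
        mz_sub h1 (g.mz _ (hτ t' ht')) (g.mz _ (hτ t ht))
      have b1 := h3.ev_le (a J (N ^ 3 * t') - a J (N ^ 3 * t)) (N * x)
      have b2 := h2.poinc_A _ hm
      have b3 := mul_le_mul_of_nonneg_left (b1.trans b2) hc.le
      linarith
    rw [abs_lt] at e1 e2 e3
    rw [abs_le]
    constructor <;> linarith [e1.1, e1.2, e2.1, e2.2, e3.1, e3.2]
  -- boundedness
  have hub : ∀ t ∈ Icc 0 (T / (N : ℝ) ^ 3), ∃ B : ℝ, ∀ x, |u t x| ≤ B := by
    intro t ht
    obtain ⟨J, hJ, hJ'⟩ := hu1 1 one_pos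
    refine ⟨c * nA (a J (N ^ 3 * t)) + 1, fun x => ?_⟩
    have e1 := hJ' J le_rfl t ht x
    have e2 : |dil c N (a J (N ^ 3 * t)) x| ≤ c * nA (a J (N ^ 3 * t)) := by
      unfold dil
      rw [abs_mul, abs_of_pos hc]
      exact mul_le_mul_of_nonneg_left (h3.ev_le _ _) hc.le
    rw [abs_lt] at e1
    rw [abs_le] at e2 ⊢
    constructor <;> linarith [e1.1, e1.2, e2.1, e2.2]
  refine ⟨u, fun s hs0 hs1 => ?_⟩
  obtain ⟨hmem, hhs⟩ := h6 Mb lam σ T c N K₁ φ a hc hN hseq u hper hu1 s hs0 hs1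
  refine ⟨⟨hmem, ?_, ?_, ?_, ?_⟩, hhs⟩
  · -- continuity in the Sobolev space
    intro t ht
    rw [Metric.tendsto_nhds]
    intro ε hε
    obtain ⟨J, hJ, hJ'⟩ := hhs (ε / 3) (by positivity)
    have h9 := (hgc J hJ t ht).const_mul (2 * c * N)
    rw [mul_zero] at h9
    have h10 := h9.eventually (gt_mem_nhds (show 0 < ε / 3 by positivity))
    filter_upwards [h10, self_mem_nhdsWithin] with t' h11 ht'
    rw [Real.dist_eq, sub_zero, abs_of_nonneg (h8.norm_nonneg _ _)]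
    have g := hseq.gal J hJ
    have r1 := g.real _ (hτ t' ht')
    have r2 := g.real _ (hτ t ht)
    have m1 : MemHs s (dil c N (a J (N ^ 3 * t'))) := h4.mem s c N _ hN r1
    have m2 : MemHs s (dil c N (a J (N ^ 3 * t))) := h4.mem s c N _ hN r2
    have m3 : MemHs s (dil c N (a J (N ^ 3 * t') - a J (N ^ 3 * t))) :=
      h4.mem s c N _ hN (h1.real_sub _ _ r1 r2)
    have m4 := h8.sub_mem s _ _ (hmem t' ht') m1
    have m5 := h8.sub_mem s _ _ m2 (hmem t ht)
    have m6 := h8.add_mem s _ _ m3 m5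
    have e1 : (fun x => u t' x - u t x) = fun x => (u t' x - dil c N (a J (N ^ 3 * t')) x) +
        (dil c N (a J (N ^ 3 * t') - a J (N ^ 3 * t)) x +
          (dil c N (a J (N ^ 3 * t)) x - u t x)) := by
      funext x
      rw [← dil_sub h3]
      ring
    rw [e1]
    have b1 := h8.norm_add s _ _ m4 m6
    have b2 := h8.norm_add s _ _ m3 m5
    have b3 := hJ' J le_rfl t' ht'
    have b4 := hJ' J le_rfl t ht
    rw [h8.norm_sub_comm] at b4
    have b5 := hs_le h2 h4 hs0 hs1 hc hN (h1.real_sub _ _ r1 r2)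
      (mz_sub h1 (g.mz _ (hτ t' ht')) (g.mz _ (hτ t ht)))
    linarith
  · intro t ht
    exact ((hcont t ht).pow 4).intervalIntegrable _ _
  · intro t ht
    obtain ⟨B, hB⟩ := hub t ht
    have hB0 : 0 ≤ B := (abs_nonneg _).trans (hB 0)
    rw [Metric.tendsto_nhds]
    intro ε hε
    set δ : ℝ := min 1 (ε / (2 * (4 * (B + 1) ^ 3 * (2 * Real.pi) + 1))) with hδ
    have hpi := Real.pi_pos
    have hδ0 : 0 < δ := lt_min one_pos (by positivity)
    filter_upwards [huc t ht δ hδ0] with t' ht'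
    have hb : ∀ x, |u t' x ^ 4 - u t x ^ 4| ≤ 4 * (B + 1) ^ 3 * δ := by
      intro x
      have e1 := hB x
      have e2 := ht' x
      have e3 : |u t' x| ≤ B + 1 := by
        have := min_le_left (1 : ℝ) (ε / (2 * (4 * (B + 1) ^ 3 * (2 * Real.pi) + 1)))
        rw [← hδ] at this
        rw [abs_le] at e1 e2 ⊢
        constructor <;> linarith [e1.1, e1.2, e2.1, e2.2]
      exact (pow4_sub e3 (by linarith)).trans (mul_le_mul_of_nonneg_left e2 (by positivity))
    have hint : ‖∫ x in (0 : ℝ)..(2 * Real.pi), |u t' x ^ 4 - u t x ^ 4|‖ ≤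
        4 * (B + 1) ^ 3 * δ * |2 * Real.pi - 0| := by
      apply intervalIntegral.norm_integral_le_of_norm_le_const
      intro x _
      rw [Real.norm_eq_abs, abs_abs]
      exact hb x
    rw [sub_zero, abs_of_pos (by positivity : 0 < 2 * Real.pi)] at hint
    rw [dist_zero_right]
    refine hint.trans_lt ?_
    have h9 : δ ≤ ε / (2 * (4 * (B + 1) ^ 3 * (2 * Real.pi) + 1)) := min_le_right _ _
    rw [le_div_iff₀ (by positivity)] at h9
    have h10 : 0 ≤ 4 * (B + 1) ^ 3 * δ * (2 * Real.pi) := by positivity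
    nlinarith
  · exact h7 Mb lam σ T c N K₁ φ a hc hN hlam hseq u hu

end GKdV
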