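import Pool.Agent.Lib.MP_cb0de5_an.SpecB

/-!
# B2: the ten lines on the surface of shapes
-/

open MeasureTheory Filter Topology Set

noncomputable section

namespace GKdV

namespace Lines

/-- A binary cubic with the given shape which vanishes at infinitely many places. -/
lemma cubic {a b c d : ℚ} (h : ∀ t : ℚ, 5 < t → (a * t + b) ^ 3 = c * t ^ 3 + d) :
    a * b = 0 ∧ c = a ^ 3 ∧ d = b ^ 3 := by
  have h6 := h 6 (by norm_num)
  have h7 := h 7 (by norm_num)
  have h8 := h 8 (by norm_num)
  have h9 := h 9 (by norm_num)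
  have e1 : a ^ 2 * b = 0 := by linarith
  refine ⟨?_, by linarith, by linarith⟩
  rcases mul_eq_zero.1 e1 with h1 | h1
  · rw [pow_eq_zero_iff (by norm_num)] at h1
    simp [h1]
  · simp [h1]

lemma key {B C : Fin 5 → ℚ} (h : ∀ s u : ℚ, FF B C (PP s u) = 0) (s u c : ℚ) (w : Fin 5 → ℚ)
    (hc : c ≠ 0) (h0 : ∀ i, PP s u i = c * w i) :
    (B 0 * w 0 + B 1 * w 1 + B 2 * w 2 + B 3 * w 3 + B 4 * w 4) ^ 3 =
      C 0 * w 0 ^ 3 + C 1 * w 1 ^ 3 + C 2 * w 2 ^ 3 + C 3 * w 3 ^ 3 + C 4 * w 4 ^ 3 := by
  have h1 := h s u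
  have h2 : PP s u = fun i => c * w i := funext h0
  rw [h2] at h1
  simp only [FF, Fin.sum_univ_five] at h1
  have h3 : c ^ 3 * ((B 0 * w 0 + B 1 * w 1 + B 2 * w 2 + B 3 * w 3 + B 4 * w 4) ^ 3 -
      (C 0 * w 0 ^ 3 + C 1 * w 1 ^ 3 + C 2 * w 2 ^ 3 + C 3 * w 3 ^ 3 + C 4 * w 4 ^ 3)) = 0 := by
    linear_combination h1
  rcases mul_eq_zero.1 h3 with h4 | h4
  · exact absurd h4 (pow_ne_zero 3 hc)
  · linarith

/-- The products of differences which vanish force the values to be equal up to one place. -/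
lemma comb {a b c d e : ℚ} (h1 : a = b ∨ c = d) (h2 : b = c ∨ d = e) (h3 : b = d ∨ c = e)
    (h4 : a = b ∨ c = e) (h5 : a = e ∨ b = c) (h6 : a = c ∨ b = e) (h7 : a = e ∨ c = d)
    (h8 : a = d ∨ c = e) (h9 : a = e ∨ b = d) (h10 : a = d ∨ b = e) :
    (b = c ∧ c = d ∧ d = e) ∨ (a = c ∧ c = d ∧ d = e) ∨ (a = b ∧ b = d ∧ d = e) ∨
      (a = b ∧ b = c ∧ c = e) ∨ (a = b ∧ b = c ∧ c = d) := by
  grind

end Lines

open Lines in
theorem linesStmt : LinesStmt := by
  intro B C h
  have l1 := cubic (a := B 0 - B 1) (b := B 2 - B 3) (c := C 0 - C 1) (d := C 2 - C 3) (by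
    intro t ht
    have ht1 : 1 - t ^ 2 ≠ 0 := by nlinarith
    have ht2 : (1 - t) * (1 + t) ^ 2 ≠ 0 := by
      apply mul_ne_zero
      · linarith
      · positivity
    have k := key h t (1 / (1 - t ^ 2)) (1 / ((1 - t) * (1 + t) ^ 2) - 1) ![t, -t, 1, -1, 0] (by
        have : 1 / ((1 - t) * (1 + t) ^ 2) < 0 := by
          apply div_neg_of_pos_of_neg one_pos
          apply mul_neg_of_neg_of_pos
          · linarith
          · positivity
        linarith) (by
        have ht3 : 1 - t ≠ 0 := by linarith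
        have ht4 : 1 + t ≠ 0 := by linarith
        have e1 : 1 - t ^ 2 = (1 - t) * (1 + t) := by ring
        intro i
        fin_cases i <;> simp [PP, e1] <;> field_simp <;> ring)
    simp at k
    linear_combination k)
  have l2 := cubic (a := B 1 - B 2) (b := B 3 - B 4) (c := C 1 - C 2) (d := C 3 - C 4) (by
    intro t ht
    have ht0 : t ≠ 0 := by linarith
    have k := key h (1 - 1 / t ^ 2) t ((1 / t) * (2 - 1 / t ^ 2 - t)) ![0, t, -t, 1, -1] (by
        apply mul_ne_zero
        · positivity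
        · have : 0 < 1 / t ^ 2 := by positivity
          linarith) (by
        intro i
        fin_cases i <;> simp [PP] <;> (try field_simp) <;> (try ring_nf) <;> simp)
    simp at k
    linear_combination k)
  have l3 := cubic (a := B 1 - B 3) (b := B 2 - B 4) (c := C 1 - C 3) (d := C 2 - C 4) (by
    intro t ht
    have k := key h 0 t (t - 1) ![0, t, 1, -t, -1] (by linarith) (by
        intro i
        fin_cases i <;> simp [PP] <;> ring)
    simp at k
    linear_combination k)
  have l4 := cubic (a := B 0 - B 1) (b := B 2 - B 4) (c := C 0 - C 1) (d := C 2 - C 4) (by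
    intro t ht
    have k := key h t 0 (-1) ![t, -t, 1, 0, -1] (by norm_num) (by
        intro i
        fin_cases i <;> simp [PP])
    simp at k
    linear_combination k)
  have l5 := cubic (a := B 1 - B 2) (b := B 0 - B 4) (c := C 1 - C 2) (d := C 0 - C 4) (by
    intro t ht
    have k := key h 1 (t + 1) (-1) ![1, t, -t, 0, -1] (by norm_num) (by
        intro i
        fin_cases i <;> simp [PP])
    simp at k
    linear_combination k)
  have l6 := cubic (a := B 0 - B 2) (b := B 1 - B 4) (c := C 0 - C 2) (d := C 1 - C 4) (by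
    intro t ht
    have k := key h t (1 + t) (t * (1 - t - t ^ 2)) ![t, 1, -t, 0, -1] (by
        apply mul_ne_zero
        · linarith
        · nlinarith) (by
        intro i
        fin_cases i <;> simp [PP] <;> (try ring_nf) <;> simp)
    simp at k
    linear_combination k)
  have l7 := cubic (a := B 0 - B 4) (b := B 2 - B 3) (c := C 0 - C 4) (d := C 2 - C 3) (by
    intro t ht
    have ht0 : t ≠ 0 := by linarith
    have ht1 : 1 + t ≠ 0 := by linarith
    have k := key h (t / (1 + t)) 1 (-(t / (1 + t) ^ 2)) ![t, 0, 1, -1, -t] (by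
        have : 0 < t / (1 + t) ^ 2 := by positivity
        linarith) (by
        intro i
        fin_cases i <;> simp [PP] <;> (try field_simp) <;> (try ring_nf) <;> simp)
    simp at k
    linear_combination k)
  have l8 := cubic (a := B 0 - B 3) (b := B 2 - B 4) (c := C 0 - C 3) (d := C 2 - C 4) (by
    intro t ht
    have ht1 : t + 1 ≠ 0 := by linarith
    have k := key h (t / (t + 1)) t ((t ^ 2 - t - 1) / (t + 1) ^ 2) ![t, 0, 1, -t, -1] (by
        apply div_ne_zero
        · nlinarith
        · positivity) (by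
        intro i
        fin_cases i <;> simp [PP] <;> (try field_simp) <;> (try ring_nf) <;> simp)
    simp at k
    linear_combination k)
  have l9 := cubic (a := B 1 - B 3) (b := B 0 - B 4) (c := C 1 - C 3) (d := C 0 - C 4) (by
    intro t ht
    have ht1 : t + 1 ≠ 0 := by linarith
    have k := key h (1 / (t + 1)) (t + 1) ((t ^ 2 + t - 1) / (t + 1)) ![1, t, 0, -t, -1] (by
        apply div_ne_zero
        · nlinarith
        · positivity) (by
        intro i
        fin_cases i <;> simp [PP] <;> (try field_simp) <;> (try ring_nf) <;> simp)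
    simp at k
    linear_combination k)
  have l10 := cubic (a := B 0 - B 3) (b := B 1 - B 4) (c := C 0 - C 3) (d := C 1 - C 4) (by
    intro t ht
    have ht0 : t ≠ 0 := by linarith
    have ht1 : t + 1 ≠ 0 := by linarith
    have k := key h (t / (t + 1)) (t + 1) (t / (t + 1)) ![t, 1, 0, -t, -1] (by
        positivity) (by
        intro i
        fin_cases i <;> simp [PP] <;> (try field_simp) <;> (try ring_nf) <;> simp)
    simp at k
    linear_combination k)
  obtain ⟨l1, c01, c23⟩ := l1
  obtain ⟨l2, c12, c34⟩ := l2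
  obtain ⟨l3, c13, c24⟩ := l3
  obtain ⟨l4, -, -⟩ := l4
  obtain ⟨l5, -, c04⟩ := l5
  obtain ⟨l6, c02, c14⟩ := l6
  obtain ⟨l7, -, -⟩ := l7
  obtain ⟨l8, c03, -⟩ := l8
  obtain ⟨l9, -, -⟩ := l9
  obtain ⟨l10, -, -⟩ := l10
  have hz : ∀ {a b c d : ℚ}, (a - b) * (c - d) = 0 → a = b ∨ c = d := by
    intro a b c d h
    rcases mul_eq_zero.1 h with h | h
    · exact Or.inl (sub_eq_zero.1 h)
    · exact Or.inr (sub_eq_zero.1 h)
  constructor
  · have hc := comb (hz l1) (hz l2) (hz l3) (hz l4) ((hz l5).symm) (hz l6) (hz l7) (hz l8)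
      ((hz l9).symm) (hz l10)
    rcases hc with ⟨h1, h2, h3⟩ | ⟨h1, h2, h3⟩ | ⟨h1, h2, h3⟩ | ⟨h1, h2, h3⟩ | ⟨h1, h2, h3⟩
    · refine ⟨0, fun i j hi hj => ?_⟩
      fin_cases i <;> fin_cases j <;> simp_all
    · refine ⟨1, fun i j hi hj => ?_⟩
      fin_cases i <;> fin_cases j <;> simp_all
    · refine ⟨2, fun i j hi hj => ?_⟩
      fin_cases i <;> fin_cases j <;> simp_all
    · refine ⟨3, fun i j hi hj => ?_⟩
      fin_cases i <;> fin_cases j <;> simp_all
    · refine ⟨4, fun i j hi hj => ?_⟩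
      fin_cases i <;> fin_cases j <;> simp_all
  · intro i j
    fin_cases i <;> fin_cases j <;> simp <;> linarith

end GKdV
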