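import Pool.Agent.Lib.MP_cb0de5_an.SpecA

/-!
# A0b: algebra of a network
-/

open MeasureTheory Filter Topology Set

noncomputable section

namespace GKdV

namespace NetAlg

variable {g : ℕ} {M Q : Type}

lemma field_eq [DecidableEq M] [Fintype Q] (N : Net g M Q) (κ : Q → ℝ) (y : M → ℝ) (m : M) :
    N.field κ y m =
      (∑ q, if N.chi q 0 = m then
        κ q * (y (N.par q 0) * y (N.par q 1) * y (N.par q 2) * y (N.chi q 1)) else 0) +
      (∑ q, if N.chi q 1 = m then
        κ q * (y (N.par q 0) * y (N.par q 1) * y (N.par q 2) * y (N.chi q 0)) else 0) -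
      N.loss κ y m := by
  unfold Net.field Net.loss
  rw [← Finset.sum_add_distrib, ← Finset.sum_sub_distrib]
  refine Finset.sum_congr rfl fun q _ => ?_
  split_ifs <;> ring

lemma par_ne (N : Net g M Q) {q q' : Q} {i i' : Fin 3} (h : i ≠ i') :
    N.par q i ≠ N.par q' i' := fun e => h (N.par_inj _ _ _ _ e).2

lemma chi_ne (N : Net g M Q) {q q' : Q} {i i' : Fin 2} (h : i ≠ i') :
    N.chi q i ≠ N.chi q' i' := fun e => h (N.chi_inj _ _ _ _ e).2

lemma sum_chi [DecidableEq M] [Fintype Q] (N : Net g M Q) (q : Q) (b : Fin 2) (f : Q → ℝ) :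
    (∑ q', if N.chi q' b = N.chi q b then f q' else 0) = f q := by
  rw [Finset.sum_eq_single q]
  · simp
  · intro q' _ hq
    rw [if_neg]
    intro e
    exact hq (N.chi_inj _ _ _ _ e).1
  · intro h
    exact absurd (Finset.mem_univ q) h

lemma sum_chi_ne [DecidableEq M] [Fintype Q] (N : Net g M Q) (q : Q) {b b' : Fin 2} (h : b' ≠ b)
    (f : Q → ℝ) : (∑ q', if N.chi q' b' = N.chi q b then f q' else 0) = 0 := by
  refine Finset.sum_eq_zero fun q' _ => ?_
  rw [if_neg (chi_ne N h)]

lemma loss_par [DecidableEq M] [Fintype Q] (N : Net g M Q) (κ : Q → ℝ) (y : M → ℝ) (q : Q)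
    (i : Fin 3) : N.loss κ y (N.par q i) = κ q *
    ((if (0 : Fin 3) = i then y (N.par q 1) * y (N.par q 2) * y (N.chi q 0) * y (N.chi q 1) else 0)
    + (if (1 : Fin 3) = i then y (N.par q 0) * y (N.par q 2) * y (N.chi q 0) * y (N.chi q 1) else 0)
    + (if (2 : Fin 3) = i then y (N.par q 0) * y (N.par q 1) * y (N.chi q 0) * y (N.chi q 1)
        else 0)) := by
  unfold Net.loss
  rw [Finset.sum_eq_single q]
  · have h : ∀ j : Fin 3, (N.par q j = N.par q i) ↔ j = i := fun j =>
      ⟨fun e => (N.par_inj _ _ _ _ e).2, fun e => by rw [e]⟩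
    simp only [h]
  · intro q' _ hq
    have h : ∀ j : Fin 3, ¬ (N.par q' j = N.par q i) := fun j e => hq (N.par_inj _ _ _ _ e).1
    simp only [h, if_false]
    ring
  · intro h
    exact absurd (Finset.mem_univ q) h

lemma energy [Fintype M] [DecidableEq M] [Fintype Q] (N : Net g M Q) (κ : Q → ℝ) (y : M → ℝ) :
    ∑ m, (3 / 2 : ℝ) ^ N.lv m * (y m * N.field κ y m) = 0 := by
  unfold Net.field
  simp only [Finset.mul_sum]
  rw [Finset.sum_comm]
  refine Finset.sum_eq_zero fun q _ => ?_
  have e : ∀ m : M, (3 / 2 : ℝ) ^ N.lv m * (y m * (κ q *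
      ((if N.chi q 0 = m then y (N.par q 0) * y (N.par q 1) * y (N.par q 2) * y (N.chi q 1) else 0)
      + (if N.chi q 1 = m then y (N.par q 0) * y (N.par q 1) * y (N.par q 2) * y (N.chi q 0) else 0)
      - (if N.par q 0 = m then y (N.par q 1) * y (N.par q 2) * y (N.chi q 0) * y (N.chi q 1) else 0)
      - (if N.par q 1 = m then y (N.par q 0) * y (N.par q 2) * y (N.chi q 0) * y (N.chi q 1) else 0)
      - (if N.par q 2 = m then y (N.par q 0) * y (N.par q 1) * y (N.chi q 0) * y (N.chi q 1)
          else 0)))) =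
      (if N.chi q 0 = m then (3 / 2 : ℝ) ^ N.lv m * y m * κ q *
        (y (N.par q 0) * y (N.par q 1) * y (N.par q 2) * y (N.chi q 1)) else 0) +
      (if N.chi q 1 = m then (3 / 2 : ℝ) ^ N.lv m * y m * κ q *
        (y (N.par q 0) * y (N.par q 1) * y (N.par q 2) * y (N.chi q 0)) else 0) -
      (if N.par q 0 = m then (3 / 2 : ℝ) ^ N.lv m * y m * κ q *
        (y (N.par q 1) * y (N.par q 2) * y (N.chi q 0) * y (N.chi q 1)) else 0) -
      (if N.par q 1 = m then (3 / 2 : ℝ) ^ N.lv m * y m * κ q *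
        (y (N.par q 0) * y (N.par q 2) * y (N.chi q 0) * y (N.chi q 1)) else 0) -
      (if N.par q 2 = m then (3 / 2 : ℝ) ^ N.lv m * y m * κ q *
        (y (N.par q 0) * y (N.par q 1) * y (N.chi q 0) * y (N.chi q 1)) else 0) := by
    intro m
    split_ifs <;> ring
  rw [Finset.sum_congr rfl fun m _ => e m]
  simp only [Finset.sum_sub_distrib, Finset.sum_add_distrib, Finset.sum_ite_eq,
    Finset.mem_univ, if_true]
  have h0 := N.lv_par q 0
  have h1 := N.lv_par q 1
  have h2 := N.lv_par q 2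
  have c0 := N.lv_chi q 0
  have c1 := N.lv_chi q 1
  have e1 : N.lv (N.par q 1) = N.lv (N.par q 0) := by omega
  have e2 : N.lv (N.par q 2) = N.lv (N.par q 0) := by omega
  have e3 : N.lv (N.chi q 0) = N.lv (N.par q 0) + 1 := by omega
  have e4 : N.lv (N.chi q 1) = N.lv (N.par q 0) + 1 := by omega
  rw [e1, e2, e3, e4, pow_succ]
  ring

end NetAlg

open NetAlg in
theorem netAlgStmt : NetAlgStmt := by
  intro g M Q _ _ _ N κ y
  have hp0 : ∀ q, N.loss κ y (N.par q 0) =
      κ q * (y (N.par q 1) * y (N.par q 2) * y (N.chi q 0) * y (N.chi q 1)) := by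
    intro q
    rw [loss_par]
    simp
  have hp1 : ∀ q, N.loss κ y (N.par q 1) =
      κ q * (y (N.par q 0) * y (N.par q 2) * y (N.chi q 0) * y (N.chi q 1)) := by
    intro q
    rw [loss_par]
    simp
  have hp2 : ∀ q, N.loss κ y (N.par q 2) =
      κ q * (y (N.par q 0) * y (N.par q 1) * y (N.chi q 0) * y (N.chi q 1)) := by
    intro q
    rw [loss_par]
    simp
  refine ⟨?_, ?_, ?_, ?_, ?_, hp0, hp1, hp2, ?_, energy N κ y⟩
  · intro q
    rw [field_eq, sum_chi, sum_chi_ne N q (by decide)]
    unfold Net.P3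
    ring
  · intro q
    rw [field_eq, sum_chi, sum_chi_ne N q (by decide)]
    unfold Net.P3
    ring
  · intro m hm
    have h : ∀ q b, ¬ (N.chi q b = m) := by
      intro q b e
      have h1 := N.lv_chi q b
      have h2 := N.lv_par q 0
      rw [e, hm] at h1
      omega
    rw [field_eq]
    simp only [h, if_false, Finset.sum_const_zero]
    ring
  · intro m hm
    have h : ∀ q i, ¬ (N.par q i = m) := by
      intro q i e
      have h1 := N.lv_chi q 0
      have h2 := N.lv_par q i
      have h3 := N.lv_le (N.chi q 0)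
      rw [e, hm] at h2
      omega
    unfold Net.loss
    simp only [h, if_false]
    simp
  · intro q i
    unfold Net.P5 Net.P3
    fin_cases i
    · simp only [Fin.zero_eta, hp0]
      ring
    · simp only [Fin.mk_one, hp1]
      ring
    · simp only [Fin.reduceFinMk, hp2]
      ring
  · intro hκ hy m
    unfold Net.loss
    refine Finset.sum_nonneg fun q _ => mul_nonneg (hκ q) ?_
    have h : ∀ (P : Prop) [Decidable P] (a b c d : M),
        0 ≤ if P then y a * y b * y c * y d else 0 := by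
      intro P _ a b c d
      split_ifs
      · exact mul_nonneg (mul_nonneg (mul_nonneg (hy a) (hy b)) (hy c)) (hy d)
      · exact le_refl 0
    exact add_nonneg (add_nonneg (h _ _ _ _ _) (h _ _ _ _ _)) (h _ _ _ _ _)

end GKdV
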