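import Pool.Agent.Lib.MP_cb0de5_an.SpecC

/-!
# Norm facts for trigonometric polynomials (module C0b)
-/

noncomputable section

namespace GKdV

namespace NormF

open LP

lemma n2_sq (f : LP) (s : Finset ℤ) (h : f.coeff.support ⊆ s) :
    n2 f ^ 2 = ∑ n ∈ s, ‖f.coeff n‖ ^ 2 := by
  unfold n2
  rw [Real.sq_sqrt (Finset.sum_nonneg fun _ _ => by positivity)]
  apply Finset.sum_subset h
  intro n _ hn
  rw [Finsupp.notMem_support_iff.1 hn]
  simp

lemma nA_eq (f : LP) (s : Finset ℤ) (h : f.coeff.support ⊆ s) :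
    nA f = ∑ n ∈ s, ‖f.coeff n‖ := by
  unfold nA
  apply Finset.sum_subset h
  intro n _ hn
  rw [Finsupp.notMem_support_iff.1 hn]
  simp

lemma nA_nonneg (f : LP) : 0 ≤ nA f := Finset.sum_nonneg fun _ _ => norm_nonneg _

lemma n2_nonneg (f : LP) : 0 ≤ n2 f := Real.sqrt_nonneg _

lemma D_coeff (f : LP) (n : ℤ) : (D f).coeff n = Complex.I * n * f.coeff n := rfl

lemma norm_D_coeff (f : LP) (n : ℤ) : ‖(D f).coeff n‖ = |(n : ℝ)| * ‖f.coeff n‖ := by
  rw [D_coeff, norm_mul, norm_mul, Complex.norm_I, one_mul, Complex.norm_intCast]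

lemma D_supp (f : LP) : (D f).coeff.support ⊆ f.coeff.support := by
  intro n hn
  rw [Finsupp.mem_support_iff] at hn ⊢
  intro h
  apply hn
  rw [D_coeff, h, mul_zero]

lemma cut_coeff (K : ℕ) (f : LP) (n : ℤ) :
    (cut K f).coeff n = if |n| ≤ (K : ℤ) then f.coeff n else 0 := by
  unfold cut
  rw [AddMonoidAlgebra.coeff_ofCoeff, Finsupp.filter_apply]

lemma le_of_sq {a b : ℝ} (hb : 0 ≤ b) (h : a ^ 2 ≤ b ^ 2) : a ≤ b :=
  le_of_sq_le_sq h hb

/-- the vector of coefficients -/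
def vec (s : Finset ℤ) (f : LP) : EuclideanSpace ℂ s := WithLp.toLp 2 (fun i => f.coeff i.1)

lemma n2_vec (f : LP) (s : Finset ℤ) (h : f.coeff.support ⊆ s) : n2 f = ‖vec s f‖ := by
  have h1 : ‖vec s f‖ ^ 2 = ∑ n ∈ s, ‖f.coeff n‖ ^ 2 := by
    rw [EuclideanSpace.norm_sq_eq]
    exact Finset.sum_coe_sort s (fun n => ‖f.coeff n‖ ^ 2)
  have h2 := n2_sq f s h
  rw [← h1] at h2
  exact (sq_eq_sq₀ (n2_nonneg f) (norm_nonneg _)).1 h2

lemma n2_mono (f g : LP) (h : ∀ n, ‖f.coeff n‖ ≤ ‖g.coeff n‖) : n2 f ≤ n2 g := by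
  apply le_of_sq (n2_nonneg g)
  rw [n2_sq f (f.coeff.support ∪ g.coeff.support) Finset.subset_union_left,
    n2_sq g (f.coeff.support ∪ g.coeff.support) Finset.subset_union_right]
  exact Finset.sum_le_sum fun n _ => pow_le_pow_left₀ (norm_nonneg _) (h n) 2

lemma nA_mono (f g : LP) (h : ∀ n, ‖f.coeff n‖ ≤ ‖g.coeff n‖) : nA f ≤ nA g := by
  rw [nA_eq f (f.coeff.support ∪ g.coeff.support) Finset.subset_union_left,
    nA_eq g (f.coeff.support ∪ g.coeff.support) Finset.subset_union_right]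
  exact Finset.sum_le_sum fun n _ => h n

lemma supp_add (f g : LP) : (f + g).coeff.support ⊆ f.coeff.support ∪ g.coeff.support := by
  rw [AddMonoidAlgebra.coeff_add]
  exact Finsupp.support_add

lemma n2_add (f g : LP) : n2 (f + g) ≤ n2 f + n2 g := by
  rw [n2_vec (f + g) _ (supp_add f g),
    n2_vec f (f.coeff.support ∪ g.coeff.support) Finset.subset_union_left,
    n2_vec g (f.coeff.support ∪ g.coeff.support) Finset.subset_union_right]
  have h : vec (f.coeff.support ∪ g.coeff.support) (f + g) =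
      vec (f.coeff.support ∪ g.coeff.support) f + vec (f.coeff.support ∪ g.coeff.support) g := rfl
  rw [h]
  exact norm_add_le (vec _ f) (vec _ g)

lemma nA_add (f g : LP) : nA (f + g) ≤ nA f + nA g := by
  rw [nA_eq (f + g) _ (supp_add f g),
    nA_eq f (f.coeff.support ∪ g.coeff.support) Finset.subset_union_left,
    nA_eq g (f.coeff.support ∪ g.coeff.support) Finset.subset_union_right,
    ← Finset.sum_add_distrib]
  exact Finset.sum_le_sum fun n _ => norm_add_le (f.coeff n) (g.coeff n)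

lemma n2_neg (f : LP) : n2 (-f) = n2 f :=
  le_antisymm (n2_mono _ _ fun n => by simp) (n2_mono _ _ fun n => by simp)

lemma nA_neg (f : LP) : nA (-f) = nA f :=
  le_antisymm (nA_mono _ _ fun n => by simp) (nA_mono _ _ fun n => by simp)

lemma n2_sub (f g : LP) : n2 (f - g) ≤ n2 f + n2 g := by
  have h := n2_add f (-g)
  rwa [n2_neg, ← sub_eq_add_neg] at h

lemma nA_sub (f g : LP) : nA (f - g) ≤ nA f + nA g := by
  have h := nA_add f (-g)
  rwa [nA_neg, ← sub_eq_add_neg] at h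

lemma supp_smul (c : ℂ) (f : LP) : (c • f).coeff.support ⊆ f.coeff.support := by
  intro n hn
  rw [Finsupp.mem_support_iff] at hn ⊢
  intro h
  apply hn
  rw [AddMonoidAlgebra.coeff_smul_apply, h, smul_zero]

lemma nA_smul (c : ℂ) (f : LP) : nA (c • f) = ‖c‖ * nA f := by
  rw [nA_eq (c • f) _ (supp_smul c f), nA_eq f _ (Finset.Subset.refl _), Finset.mul_sum]
  refine Finset.sum_congr rfl fun n _ => ?_
  rw [AddMonoidAlgebra.coeff_smul_apply, norm_smul]

lemma n2_smul (c : ℂ) (f : LP) : n2 (c • f) = ‖c‖ * n2 f := by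
  refine (sq_eq_sq₀ (n2_nonneg _) (mul_nonneg (norm_nonneg _) (n2_nonneg _))).1 ?_
  rw [n2_sq (c • f) _ (supp_smul c f), mul_pow, n2_sq f _ (Finset.Subset.refl _), Finset.mul_sum]
  refine Finset.sum_congr rfl fun n _ => ?_
  rw [AddMonoidAlgebra.coeff_smul_apply, norm_smul, mul_pow]

lemma n2_zero : n2 0 = 0 := by simp [n2]

lemma nA_zero : nA 0 = 0 := by simp [nA]

lemma sum_shift (f : LP) (k : ℤ) (c : ℂ) (F : ℂ → ℝ) (hF : F 0 = 0) :
    ∑ n ∈ (AddMonoidAlgebra.single k c * f : LP).coeff.support,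
      F ((AddMonoidAlgebra.single k c * f : LP).coeff n) =
    ∑ n ∈ f.coeff.support, F (c * f.coeff n) := by
  have h1 : (AddMonoidAlgebra.single k c * f : LP).coeff.support ⊆
      f.coeff.support.image (fun n => k + n) := by
    intro n hn
    rw [Finset.mem_image]
    refine ⟨-k + n, ?_, by ring⟩
    rw [Finsupp.mem_support_iff] at hn ⊢
    intro h
    apply hn
    rw [AddMonoidAlgebra.coeff_single_mul_apply, h, mul_zero]
  rw [Finset.sum_subset h1 (by
    intro n _ hn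
    rw [Finsupp.notMem_support_iff.1 hn, hF])]
  rw [Finset.sum_image (by intro a _ b _ h; simpa using h)]
  refine Finset.sum_congr rfl fun n _ => ?_
  rw [AddMonoidAlgebra.coeff_single_mul_apply]
  congr 3
  ring

lemma n2_shift (f : LP) (k : ℤ) (c : ℂ) :
    n2 (AddMonoidAlgebra.single k c * f) = ‖c‖ * n2 f := by
  have h := sum_shift f k c (fun z => ‖z‖ ^ 2) (by simp)
  unfold n2
  rw [h]
  have h2 : ∑ n ∈ f.coeff.support, ‖c * f.coeff n‖ ^ 2 =
      ‖c‖ ^ 2 * ∑ n ∈ f.coeff.support, ‖f.coeff n‖ ^ 2 := by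
    rw [Finset.mul_sum]
    refine Finset.sum_congr rfl fun n _ => ?_
    rw [norm_mul, mul_pow]
  rw [h2, Real.sqrt_mul (by positivity), Real.sqrt_sq (norm_nonneg _)]

lemma nA_shift (f : LP) (k : ℤ) (c : ℂ) :
    nA (AddMonoidAlgebra.single k c * f) = ‖c‖ * nA f := by
  have h := sum_shift f k c (fun z => ‖z‖) (by simp)
  unfold nA
  rw [h, Finset.mul_sum]
  refine Finset.sum_congr rfl fun n _ => ?_
  rw [norm_mul]

lemma mul_eq_sum (f g : LP) :
    f * g = ∑ n ∈ f.coeff.support, AddMonoidAlgebra.single n (f.coeff n) * g := by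
  conv_lhs => rw [← AddMonoidAlgebra.sum_coeff_single f]
  rw [Finsupp.sum, Finset.sum_mul]

lemma n2_mul (f g : LP) : n2 (f * g) ≤ nA f * n2 g := by
  rw [mul_eq_sum f g]
  refine (Finset.le_sum_of_subadditive n2 n2_zero.le n2_add _ _).trans ?_
  unfold nA
  rw [Finset.sum_mul]
  exact Finset.sum_le_sum fun n _ => (n2_shift g n _).le

lemma nA_mul (f g : LP) : nA (f * g) ≤ nA f * nA g := by
  rw [mul_eq_sum f g]
  refine (Finset.le_sum_of_subadditive nA nA_zero.le nA_add _ _).trans ?_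
  conv_rhs => rw [nA, Finset.sum_mul]
  exact Finset.sum_le_sum fun n _ => (nA_shift g n _).le

lemma coeff_le (f : LP) (n : ℤ) : ‖f.coeff n‖ ≤ n2 f := by
  apply le_of_sq (n2_nonneg f)
  rw [n2_sq f (f.coeff.support ∪ {n}) Finset.subset_union_left]
  exact Finset.single_le_sum (f := fun m => ‖f.coeff m‖ ^ 2) (fun _ _ => by positivity)
    (by simp)

lemma n2_le_nA (f : LP) : n2 f ≤ nA f := by
  apply le_of_sq (nA_nonneg f)
  rw [n2_sq f _ (Finset.Subset.refl _)]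
  unfold nA
  exact Finset.sum_sq_le_sq_sum_of_nonneg fun _ _ => norm_nonneg _

lemma I0_eq (f g : LP) (s : Finset ℤ) (h : f.coeff.support ⊆ s) :
    I0 (f * g) = ∑ n ∈ s, f.coeff n * g.coeff (-n) := by
  unfold I0
  rw [AddMonoidAlgebra.coeff_mul_apply_left, Finsupp.sum]
  simp only [add_zero]
  apply Finset.sum_subset h
  intro n _ hn
  rw [Finsupp.notMem_support_iff.1 hn, zero_mul]

lemma sum_neg_le (g : LP) (s : Finset ℤ) : ∑ n ∈ s, ‖g.coeff (-n)‖ ^ 2 ≤ n2 g ^ 2 := by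
  rw [n2_sq g (g.coeff.support ∪ s.image (fun n => -n)) Finset.subset_union_left]
  rw [← Finset.sum_image (f := fun n => ‖g.coeff n‖ ^ 2) (g := fun n : ℤ => -n) (s := s)
    (by intro a _ b _ h; simpa using h)]
  exact Finset.sum_le_sum_of_subset_of_nonneg Finset.subset_union_right
    fun _ _ _ => by positivity

lemma I0_mul (f g : LP) : ‖I0 (f * g)‖ ≤ n2 f * n2 g := by
  rw [I0_eq f g f.coeff.support (Finset.Subset.refl _)]
  have h1 : ‖∑ n ∈ f.coeff.support, f.coeff n * g.coeff (-n)‖ ≤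
      ∑ n ∈ f.coeff.support, ‖f.coeff n‖ * ‖g.coeff (-n)‖ :=
    (norm_sum_le _ _).trans (Finset.sum_le_sum fun n _ => (norm_mul _ _).le)
  refine h1.trans ?_
  apply le_of_sq (mul_nonneg (n2_nonneg f) (n2_nonneg g))
  refine (Finset.sum_mul_sq_le_sq_mul_sq _ _ _).trans ?_
  rw [mul_pow, ← n2_sq f _ (Finset.Subset.refl _)]
  exact mul_le_mul_of_nonneg_left (sum_neg_le g _) (by positivity)

lemma inv_half (t : Finset ℤ) (h0 : ∀ n ∈ t, n ≠ 0) (hinj : Set.InjOn Int.natAbs (t : Set ℤ)) :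
    ∑ n ∈ t, ((n : ℝ) ^ 2)⁻¹ ≤ 2 := by
  have h1 : ∑ n ∈ t, ((n : ℝ) ^ 2)⁻¹ = ∑ i ∈ t.image Int.natAbs, ((i : ℝ) ^ 2)⁻¹ := by
    rw [Finset.sum_image hinj]
    refine Finset.sum_congr rfl fun n _ => ?_
    congr 1
    have : ((n.natAbs : ℕ) : ℝ) = |(n : ℝ)| := by
      rw [Nat.cast_natAbs, Int.cast_abs]
    rw [this, sq_abs]
  rw [h1]
  have h2 : t.image Int.natAbs ⊆ Finset.Ioo 0 ((t.image Int.natAbs).sup id + 1) := by
    intro i hi
    rw [Finset.mem_Ioo]
    refine ⟨?_, ?_⟩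
    · obtain ⟨n, hn, rfl⟩ := Finset.mem_image.1 hi
      exact Int.natAbs_pos.2 (h0 n hn)
    · exact Nat.lt_succ_of_le (Finset.le_sup (f := id) hi)
  refine (Finset.sum_le_sum_of_subset_of_nonneg h2 fun _ _ _ => by positivity).trans ?_
  have h3 := sum_Ioo_inv_sq_le (α := ℝ) 0 ((t.image Int.natAbs).sup id + 1)
  simpa using h3

lemma inv_sum (s : Finset ℤ) (h0 : ∀ n ∈ s, n ≠ 0) : ∑ n ∈ s, ((n : ℝ) ^ 2)⁻¹ ≤ 4 := by
  rw [← Finset.sum_filter_add_sum_filter_not s (fun n => 0 < n)]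
  have h1 : ∑ n ∈ s.filter (fun n => 0 < n), ((n : ℝ) ^ 2)⁻¹ ≤ 2 := by
    apply inv_half
    · intro n hn
      exact h0 n (Finset.mem_filter.1 hn).1
    · intro a ha b hb h
      have ha' : 0 < a := (Finset.mem_filter.1 (Finset.mem_coe.1 ha)).2
      have hb' : 0 < b := (Finset.mem_filter.1 (Finset.mem_coe.1 hb)).2
      omega
  have h2 : ∑ n ∈ s.filter (fun n => ¬ 0 < n), ((n : ℝ) ^ 2)⁻¹ ≤ 2 := by
    apply inv_half
    · intro n hn
      exact h0 n (Finset.mem_filter.1 hn).1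
    · intro a ha b hb h
      have ha' : ¬ 0 < a := (Finset.mem_filter.1 (Finset.mem_coe.1 ha)).2
      have hb' : ¬ 0 < b := (Finset.mem_filter.1 (Finset.mem_coe.1 hb)).2
      omega
  linarith

lemma poinc_A (f : LP) (h : MZ f) : nA f ≤ 2 * n2 (D f) := by
  have h0 : ∀ n ∈ f.coeff.support, n ≠ 0 := by
    intro n hn hn0
    rw [Finsupp.mem_support_iff] at hn
    apply hn
    rw [hn0]
    exact h
  apply le_of_sq (mul_nonneg (by norm_num) (n2_nonneg _))
  have h1 : nA f = ∑ n ∈ f.coeff.support, |(n : ℝ)|⁻¹ * ‖(D f).coeff n‖ := by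
    unfold nA
    refine Finset.sum_congr rfl fun n hn => ?_
    have hn' : |(n : ℝ)| ≠ 0 := by
      rw [abs_ne_zero]
      exact_mod_cast h0 n hn
    rw [norm_D_coeff, ← mul_assoc, inv_mul_cancel₀ hn', one_mul]
  rw [h1]
  refine (Finset.sum_mul_sq_le_sq_mul_sq _ _ _).trans ?_
  rw [mul_pow, n2_sq (D f) _ (D_supp f)]
  have h2 : ∑ n ∈ f.coeff.support, (|(n : ℝ)|⁻¹) ^ 2 ≤ 2 ^ 2 := by
    have h3 := inv_sum f.coeff.support h0
    have h4 : ∑ n ∈ f.coeff.support, (|(n : ℝ)|⁻¹) ^ 2 =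
        ∑ n ∈ f.coeff.support, ((n : ℝ) ^ 2)⁻¹ := by
      refine Finset.sum_congr rfl fun n _ => ?_
      rw [inv_pow, sq_abs]
    rw [h4]
    linarith
  exact mul_le_mul_of_nonneg_right h2 (Finset.sum_nonneg fun _ _ => by positivity)

lemma poinc_2 (f : LP) (h : MZ f) : n2 f ≤ n2 (D f) := by
  apply n2_mono
  intro n
  rw [norm_D_coeff]
  by_cases hn : n = 0
  · rw [hn]
    have : f.coeff 0 = 0 := h
    rw [this]
    simp
  · have h1 : (1 : ℝ) ≤ |(n : ℝ)| := by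
      have : (1 : ℤ) ≤ |n| := Int.one_le_abs hn
      exact_mod_cast this
    nlinarith [norm_nonneg (f.coeff n)]

lemma interp (f : LP) : n2 (D f) ^ 2 ≤ n2 f * n2 (D (D f)) := by
  have h1 : n2 (D f) ^ 2 = ∑ n ∈ f.coeff.support, ‖f.coeff n‖ * ‖(D (D f)).coeff n‖ := by
    rw [n2_sq (D f) _ (D_supp f)]
    refine Finset.sum_congr rfl fun n _ => ?_
    rw [norm_D_coeff (D f), norm_D_coeff f]
    ring
  rw [h1]
  apply le_of_sq (mul_nonneg (n2_nonneg _) (n2_nonneg _))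
  refine (Finset.sum_mul_sq_le_sq_mul_sq _ _ _).trans ?_
  rw [mul_pow, n2_sq f _ (Finset.Subset.refl _),
    n2_sq (D (D f)) _ ((D_supp (D f)).trans (D_supp f))]

lemma I0_sq (f : LP) (h : IsReal f) : I0 (f * f) = ((n2 f ^ 2 : ℝ) : ℂ) := by
  rw [I0_eq f f f.coeff.support (Finset.Subset.refl _), n2_sq f _ (Finset.Subset.refl _)]
  push_cast
  refine Finset.sum_congr rfl fun n _ => ?_
  rw [h n, Complex.mul_conj, Complex.normSq_eq_norm_sq]
  push_cast
  rfl

lemma cut_le (K : ℕ) (f : LP) (n : ℤ) : ‖(cut K f).coeff n‖ ≤ ‖f.coeff n‖ := by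
  rw [cut_coeff]
  split_ifs
  · exact le_refl _
  · simp

lemma tail_2 (K : ℕ) (f : LP) (hK : 0 < K) : n2 (f - cut K f) ≤ n2 (D f) / K := by
  have hK' : (0 : ℝ) < K := by exact_mod_cast hK
  have h1 : n2 (f - cut K f) ≤ n2 ((((K : ℝ)⁻¹ : ℝ) : ℂ) • D f) := by
    apply n2_mono
    intro n
    rw [AddMonoidAlgebra.coeff_smul_apply, norm_smul, AddMonoidAlgebra.coeff_sub,
      Finsupp.sub_apply, cut_coeff, norm_D_coeff, Complex.norm_real, Real.norm_of_nonneg
      (by positivity)]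
    split_ifs with h
    · rw [sub_self, norm_zero]
      positivity
    · rw [sub_zero]
      have h2 : (K : ℝ) ≤ |(n : ℝ)| := by
        have : (K : ℤ) ≤ |n| := by omega
        exact_mod_cast this
      rw [← mul_assoc]
      have h3 : 1 ≤ (K : ℝ)⁻¹ * |(n : ℝ)| := by
        rw [inv_mul_eq_div, le_div_iff₀ hK', one_mul]
        exact h2
      nlinarith [norm_nonneg (f.coeff n)]
  refine h1.trans (le_of_eq ?_)
  rw [n2_smul, Complex.norm_real, Real.norm_of_nonneg (by positivity)]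
  rw [inv_mul_eq_div]

end NormF

theorem normFacts : NormFacts where
  nA_nonneg := NormF.nA_nonneg
  n2_nonneg := NormF.n2_nonneg
  n2_sq := NormF.n2_sq
  nA_eq := NormF.nA_eq
  coeff_le := NormF.coeff_le
  n2_le_nA := NormF.n2_le_nA
  nA_add := NormF.nA_add
  nA_sub := NormF.nA_sub
  n2_add := NormF.n2_add
  n2_sub := NormF.n2_sub
  nA_smul := NormF.nA_smul
  n2_smul := NormF.n2_smul
  nA_mul := NormF.nA_mul
  n2_mul := NormF.n2_mul
  I0_mul := NormF.I0_mul
  poinc_A := NormF.poinc_A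
  poinc_2 := NormF.poinc_2
  interp := NormF.interp
  I0_sq := NormF.I0_sq
  n2_cut := fun K f => NormF.n2_mono _ _ (NormF.cut_le K f)
  nA_cut := fun K f => NormF.nA_mono _ _ (NormF.cut_le K f)
  tail_2 := NormF.tail_2

end GKdV
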