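import Pool.Agent.Lib.MP_cb0de5_an.SpecD

open MeasureTheory Filter Topology Set

noncomputable section

namespace GKdV

namespace PairCont

/-- the `x`-derivative of a jointly smooth function is jointly smooth -/
lemma smooth_dx {φ : ℝ → ℝ → ℝ} (h : ContDiff ℝ (⊤ : ℕ∞) (Function.uncurry φ)) :
    ContDiff ℝ (⊤ : ℕ∞) (Function.uncurry (fun t x => deriv (φ t) x)) := by
  have h1 : (Function.uncurry (fun t x => deriv (φ t) x)) =
      fun p : ℝ × ℝ => fderiv ℝ (Function.uncurry φ) p (0, 1) := by
    funext p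
    obtain ⟨t, x⟩ := p
    have hd : DifferentiableAt ℝ (Function.uncurry φ) (t, x) :=
      h.contDiffAt.differentiableAt (by simp)
    have h2 : HasDerivAt (fun y : ℝ => (t, y)) ((0 : ℝ), (1 : ℝ)) x :=
      (hasDerivAt_const x t).prodMk (hasDerivAt_id x)
    have h3 := hd.hasFDerivAt.comp_hasDerivAt x h2
    exact h3.deriv
  rw [h1]
  exact (h.fderiv_right (m := (⊤ : ℕ∞)) (by simp)).clm_apply contDiff_const

lemma smooth_dt {φ : ℝ → ℝ → ℝ} (h : ContDiff ℝ (⊤ : ℕ∞) (Function.uncurry φ)) :
    ContDiff ℝ (⊤ : ℕ∞) (Function.uncurry (fun t x => deriv (fun τ => φ τ x) t)) := by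
  have h1 : (Function.uncurry (fun t x => deriv (fun τ => φ τ x) t)) =
      fun p : ℝ × ℝ => fderiv ℝ (Function.uncurry φ) p (1, 0) := by
    funext p
    obtain ⟨t, x⟩ := p
    have hd : DifferentiableAt ℝ (Function.uncurry φ) (t, x) :=
      h.contDiffAt.differentiableAt (by simp)
    have h2 : HasDerivAt (fun y : ℝ => (y, x)) ((1 : ℝ), (0 : ℝ)) t :=
      (hasDerivAt_id t).prodMk (hasDerivAt_const t x)
    have h3 := hd.hasFDerivAt.comp_hasDerivAt t h2
    exact h3.deriv
  rw [h1]
  exact (h.fderiv_right (m := (⊤ : ℕ∞)) (by simp)).clm_apply contDiff_const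

/-- continuity of `∫ v ψ` -/
lemma cont_pair (T : ℝ) (v ψ : ℝ → ℝ → ℝ)
    (hv : ∀ t ∈ Icc 0 T, IntervalIntegrable (v t) volume 0 (2 * Real.pi))
    (hc : ∀ t ∈ Icc 0 T, Tendsto (fun t' => ∫ x in (0 : ℝ)..(2 * Real.pi), |v t' x - v t x|)
      (𝓝[Icc 0 T] t) (𝓝 0))
    (hψ : Continuous (Function.uncurry ψ)) :
    ContinuousOn (fun t => ∫ x in (0 : ℝ)..(2 * Real.pi), v t x * ψ t x) (Icc 0 T) := by
  have hpi : (0 : ℝ) ≤ 2 * Real.pi := by positivity
  obtain ⟨C, hC⟩ := (isCompact_Icc (a := (0 : ℝ)) (b := T)).prod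
    (isCompact_Icc (a := (0 : ℝ)) (b := 2 * Real.pi)) |>.exists_bound_of_continuousOn
      hψ.continuousOn
  have hψt : ∀ t, Continuous (ψ t) := fun t => hψ.comp (by fun_prop : Continuous fun x => (t, x))
  intro t ht
  rw [ContinuousWithinAt, tendsto_iff_norm_sub_tendsto_zero]
  -- the bound
  have hunif : Tendsto (fun t' => ∫ x in (0 : ℝ)..(2 * Real.pi), |v t x| * |ψ t' x - ψ t x|)
      (𝓝[Icc 0 T] t) (𝓝 0) := by
    have h0 : (∫ x in (0 : ℝ)..(2 * Real.pi), |v t x| * |ψ t x - ψ t x|) = 0 := by simp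
    refine Eq.subst (motive := fun z => Tendsto (fun t' => ∫ x in (0 : ℝ)..(2 * Real.pi),
      |v t x| * |ψ t' x - ψ t x|) (𝓝[Icc 0 T] t) (𝓝 z)) h0 ?_
    apply intervalIntegral.tendsto_integral_filter_of_dominated_convergence
      (fun x => |v t x| * (2 * C))
    · filter_upwards [self_mem_nhdsWithin] with t' ht'
      exact (hv t ht).abs.aestronglyMeasurable_restrict_uIoc.mul
        ((((hψt t').sub (hψt t)).abs).aestronglyMeasurable)
    · filter_upwards [self_mem_nhdsWithin] with t' ht'
      refine Eventually.of_forall fun x hx => ?_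
      rw [uIoc_of_le hpi] at hx
      have hx' : x ∈ Icc (0 : ℝ) (2 * Real.pi) := ⟨hx.1.le, hx.2⟩
      rw [Real.norm_eq_abs, abs_mul, abs_abs, abs_abs]
      refine mul_le_mul_of_nonneg_left ?_ (abs_nonneg _)
      have h1 := hC (t', x) ⟨ht', hx'⟩
      have h2 := hC (t, x) ⟨ht, hx'⟩
      rw [Real.norm_eq_abs] at h1 h2
      have h3 := abs_sub (ψ t' x) (ψ t x)
      simp only [Function.uncurry_apply_pair] at h1 h2
      linarith
    · exact (hv t ht).abs.mul_const _
    · refine Eventually.of_forall fun x _ => ?_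
      have h1 : Tendsto (fun t' => ψ t' x) (𝓝[Icc 0 T] t) (𝓝 (ψ t x)) :=
        ((hψ.comp (by fun_prop : Continuous fun t' : ℝ => (t', x))).tendsto t).mono_left
          nhdsWithin_le_nhds
      exact ((h1.sub tendsto_const_nhds).abs).const_mul _
  have hb := ((hc t ht).mul_const C).add hunif
  rw [zero_mul, add_zero] at hb
  refine squeeze_zero' (Eventually.of_forall fun _ => norm_nonneg _) ?_ hb
  filter_upwards [self_mem_nhdsWithin] with t' ht'
  have i1 : IntervalIntegrable (fun x => v t' x * ψ t' x) volume 0 (2 * Real.pi) :=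
    (hv t' ht').mul_continuousOn (hψt t').continuousOn
  have i2 : IntervalIntegrable (fun x => v t x * ψ t x) volume 0 (2 * Real.pi) :=
    (hv t ht).mul_continuousOn (hψt t).continuousOn
  have i3 : IntervalIntegrable (fun x => |v t' x - v t x| * C) volume 0 (2 * Real.pi) :=
    (((hv t' ht').sub (hv t ht)).abs).mul_const _
  have i4 : IntervalIntegrable (fun x => |v t x| * |ψ t' x - ψ t x|) volume 0 (2 * Real.pi) :=
    ((hv t ht).abs).mul_continuousOn (((hψt t').sub (hψt t)).abs).continuousOn
  rw [← intervalIntegral.integral_sub i1 i2, ← intervalIntegral.integral_mul_const,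
    ← intervalIntegral.integral_add i3 i4, Real.norm_eq_abs]
  refine (intervalIntegral.abs_integral_le_integral_abs hpi).trans ?_
  refine intervalIntegral.integral_mono_on hpi (i1.sub i2).abs (i3.add i4) fun x hx => ?_
  have h1 := hC (t', x) ⟨ht', hx⟩
  rw [Real.norm_eq_abs] at h1
  simp only [Function.uncurry_apply_pair] at h1
  have e : v t' x * ψ t' x - v t x * ψ t x =
      (v t' x - v t x) * ψ t' x + v t x * (ψ t' x - ψ t x) := by ring
  rw [e]
  refine (abs_add_le _ _).trans ?_
  rw [abs_mul, abs_mul]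
  gcongr

end PairCont

open PairCont in
theorem pairContStmt (h1 : HsFacts) (h2 : ParsevalStmt) : PairContStmt := by
  intro k σ s T u φ hs hT hu hφ hper
  have hpi : (0 : ℝ) ≤ 2 * Real.pi := by positivity
  -- integrability of `u t`
  have hmeas : ∀ f : ℝ → ℝ, MemHs s f → IntervalIntegrable f volume 0 (2 * Real.pi) := by
    intro f hf
    have h3 : IntervalIntegrable (fun x => (1 + f x ^ 2)) volume 0 (2 * Real.pi) :=
      (intervalIntegrable_const).add hf.sq_int
    refine h3.mono_fun hf.meas.restrict ?_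
    refine Eventually.of_forall fun x => ?_
    beta_reduce
    rw [Real.norm_eq_abs, Real.norm_eq_abs, abs_of_nonneg (a := 1 + f x ^ 2) (by positivity)]
    nlinarith [sq_nonneg (|f x| - 1), sq_abs (f x), abs_nonneg (f x)]
  have hL1 : ∀ f : ℝ → ℝ, MemHs s f →
      ∫ x in (0 : ℝ)..(2 * Real.pi), |f x| ≤ 2 * Real.pi * hsNorm s f := by
    intro f hf
    have key : ∀ η > 0, ∫ x in (0 : ℝ)..(2 * Real.pi), |f x| ≤
        Real.pi * η + Real.pi * hsNorm s f ^ 2 / η := by
      intro η hη
      have i1 := (hmeas f hf).abs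
      have i2 : IntervalIntegrable (fun x => η / 2 + f x ^ 2 * (1 / (2 * η))) volume 0
          (2 * Real.pi) := (intervalIntegrable_const).add (hf.sq_int.mul_const _)
      have h4 := intervalIntegral.integral_mono_on hpi i1 i2 (fun x _ => by
        have : 0 ≤ (|f x| - η) ^ 2 / (2 * η) := by positivity
        have e : (|f x| - η) ^ 2 / (2 * η) = η / 2 + f x ^ 2 * (1 / (2 * η)) - |f x| := by
          rw [sub_sq, sq_abs]
          field_simp
          ring
        linarith)
      rw [intervalIntegral.integral_add intervalIntegrable_const (hf.sq_int.mul_const _),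
        intervalIntegral.integral_const, intervalIntegral.integral_mul_const] at h4
      have h5 := h2 s f hs hf
      have h6 : (∫ x in (0 : ℝ)..(2 * Real.pi), f x ^ 2) * (1 / (2 * η)) ≤
          2 * Real.pi * hsNorm s f ^ 2 * (1 / (2 * η)) :=
        mul_le_mul_of_nonneg_right h5 (by positivity)
      have h7 : 2 * Real.pi * hsNorm s f ^ 2 * (1 / (2 * η)) = Real.pi * hsNorm s f ^ 2 / η := by
        field_simp
      have h8 : (2 * Real.pi - 0) • (η / 2) = Real.pi * η := by
        rw [smul_eq_mul]
        ring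
      rw [h8] at h4
      linarith
    rcases (h1.norm_nonneg s f).eq_or_lt with h0 | h0
    · rw [← h0, mul_zero]
      refine le_of_forall_pos_le_add fun ε hε => ?_
      have := key (ε / Real.pi) (by positivity)
      rw [← h0] at this
      have e : Real.pi * (ε / Real.pi) = ε := by
        field_simp
      rw [e] at this
      simpa using this
    · have := key (hsNorm s f) h0
      have e : Real.pi * hsNorm s f ^ 2 / hsNorm s f = Real.pi * hsNorm s f := by
        field_simp
      rw [e] at this
      linarith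
  have hcu : ∀ t ∈ Icc 0 T, Tendsto (fun t' => ∫ x in (0 : ℝ)..(2 * Real.pi), |u t' x - u t x|)
      (𝓝[Icc 0 T] t) (𝓝 0) := by
    intro t ht
    have h3 := (hu.cont t ht).const_mul (2 * Real.pi)
    rw [mul_zero] at h3
    refine squeeze_zero' (Eventually.of_forall fun t' =>
      intervalIntegral.integral_nonneg hpi fun _ _ => abs_nonneg _) ?_ h3
    filter_upwards [self_mem_nhdsWithin] with t' ht'
    exact hL1 _ (h1.sub_mem s _ _ (hu.mem t' ht') (hu.mem t ht))
  have hdx := smooth_dx hφ
  have hdxx := smooth_dx hdx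
  have hdxxx := smooth_dx hdxx
  have hdt := smooth_dt hφ
  constructor
  · exact cont_pair T u φ (fun t ht => hmeas _ (hu.mem t ht)) hcu hφ.continuous
  · have c1 := cont_pair T u
      (fun t x => deriv (fun τ => φ τ x) t + deriv (deriv (deriv (φ t))) x)
      (fun t ht => hmeas _ (hu.mem t ht)) hcu (hdt.continuous.add hdxxx.continuous)
    have c2 := cont_pair T (fun t x => u t x ^ k) (fun t x => σ * deriv (φ t) x)
      hu.pow_int hu.pow_cont (hdx.continuous.const_mul σ |> fun h => h)
    refine (c1.add c2).congr fun t ht => ?_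
    have hψt1 : Continuous (fun x => deriv (fun τ => φ τ x) t + deriv (deriv (deriv (φ t))) x) :=
      (hdt.continuous.add hdxxx.continuous).comp (by fun_prop : Continuous fun x : ℝ => (t, x))
    have hψt2 : Continuous (fun x => σ * deriv (φ t) x) :=
      (hdx.continuous.comp (by fun_prop : Continuous fun x : ℝ => (t, x))).const_mul σ
    have i1 : IntervalIntegrable (fun x => u t x *
        (deriv (fun τ => φ τ x) t + deriv (deriv (deriv (φ t))) x)) volume 0 (2 * Real.pi) :=
      (hmeas _ (hu.mem t ht)).mul_continuousOn hψt1.continuousOn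
    have i2 : IntervalIntegrable (fun x => u t x ^ k * (σ * deriv (φ t) x)) volume 0
        (2 * Real.pi) := (hu.pow_int t ht).mul_continuousOn hψt2.continuousOn
    show pairG k σ u φ t = _ + _
    rw [← intervalIntegral.integral_add i1 i2]
    unfold pairG
    refine intervalIntegral.integral_congr fun x _ => ?_
    have e3 : iteratedDeriv 3 (φ t) x = deriv (deriv (deriv (φ t))) x := by
      simp only [iteratedDeriv_succ, iteratedDeriv_zero]
    rw [e3]
    ring

end GKdV
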