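import Pool.Agent.Lib.MP_cb0de5_an.SpecD

/-!
# Parseval inequality for periodic functions
-/

open MeasureTheory Filter Topology Set

noncomputable section

namespace GKdV

namespace Parseval

theorem fc_eq (f : ℝ → ℝ) (n : ℤ) :
    fc f n = fourierCoeffOn (Real.two_pi_pos) (fun x => (f x : ℂ)) n := by
  rw [fourierCoeffOn_eq_integral]
  unfold fc
  rw [sub_zero, Complex.real_smul]
  have h1 : ((1 / (2 * Real.pi) : ℝ) : ℂ) = (1 / (2 * Real.pi) : ℂ) := by push_cast; rfl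
  rw [h1]
  congr 1
  refine intervalIntegral.integral_congr fun x _ => ?_
  show (f x : ℂ) * Complex.exp (-(Complex.I * n * x)) = _
  rw [fourier_coe_apply, smul_eq_mul, mul_comm]
  congr 2
  have hpi : (Real.pi : ℂ) ≠ 0 := by exact_mod_cast Real.pi_ne_zero
  push_cast
  field_simp
  try ring

theorem hasSum_fc {f : ℝ → ℝ} (hm : AEStronglyMeasurable f volume)
    (hi : IntervalIntegrable (fun x => f x ^ 2) volume 0 (2 * Real.pi)) :
    HasSum (fun n : ℤ => ‖fc f n‖ ^ 2)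
      ((2 * Real.pi)⁻¹ * ∫ x in (0 : ℝ)..(2 * Real.pi), f x ^ 2) := by
  have hL2 : MemLp (fun x => (f x : ℂ)) 2 (volume.restrict (Ioc 0 (2 * Real.pi))) := by
    rw [memLp_two_iff_integrable_sq_norm]
    · rw [intervalIntegrable_iff_integrableOn_Ioc_of_le Real.two_pi_pos.le] at hi
      refine hi.congr (Eventually.of_forall fun x => ?_)
      simp
    · exact (Complex.continuous_ofReal.comp_aestronglyMeasurable hm).restrict
  have h := hasSum_sq_fourierCoeffOn Real.two_pi_pos hL2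
  have e1 : (fun n : ℤ => ‖fc f n‖ ^ 2) =
      fun n => ‖fourierCoeffOn Real.two_pi_pos (fun x => (f x : ℂ)) n‖ ^ 2 := by
    funext n
    rw [fc_eq]
  rw [e1]
  convert h using 1
  rw [sub_zero, smul_eq_mul]
  congr 1
  refine intervalIntegral.integral_congr fun x _ => ?_
  simp

end Parseval

open Parseval in
theorem parsevalStmt : ParsevalStmt := by
  intro s f hs hf
  have h := hasSum_fc hf.meas hf.sq_int
  have hnn : ∀ n : ℤ, 0 ≤ (1 + (n : ℝ) ^ 2) ^ s * ‖fc f n‖ ^ 2 := fun n => by positivity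
  have hle : ∀ n : ℤ, ‖fc f n‖ ^ 2 ≤ (1 + (n : ℝ) ^ 2) ^ s * ‖fc f n‖ ^ 2 := by
    intro n
    have h1 : (1 : ℝ) ≤ (1 + (n : ℝ) ^ 2) ^ s := Real.one_le_rpow (by nlinarith [sq_nonneg (n : ℝ)]) hs
    nlinarith [sq_nonneg ‖fc f n‖]
  have h2 : (2 * Real.pi)⁻¹ * ∫ x in (0 : ℝ)..(2 * Real.pi), f x ^ 2 ≤ hsNorm s f ^ 2 := by
    unfold hsNorm
    rw [Real.sq_sqrt (tsum_nonneg hnn), ← h.tsum_eq]
    exact h.summable.tsum_le_tsum hle hf.summable
  have hpi := Real.two_pi_pos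
  calc ∫ x in (0 : ℝ)..(2 * Real.pi), f x ^ 2 =
        2 * Real.pi * ((2 * Real.pi)⁻¹ * ∫ x in (0 : ℝ)..(2 * Real.pi), f x ^ 2) := by
        rw [← mul_assoc, mul_inv_cancel₀ hpi.ne', one_mul]
    _ ≤ 2 * Real.pi * hsNorm s f ^ 2 := mul_le_mul_of_nonneg_left h2 hpi.le

end GKdV
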