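import Pool.Agent.Lib.MP_cb0de5_an.SpecD

/-!
# The approximation theorem
-/

set_option autoImplicit false

open MeasureTheory Filter Topology Set

noncomputable section

namespace GKdV

open LP

namespace PdeFrom

variable {σ S : ℝ} {Λ : Finset ℤ} {A : ℝ → ℤ → ℂ}

lemma coeff_Aph (Λ : Finset ℤ) (A : ℝ → ℤ → ℂ) (lam t : ℝ) (n : ℤ) :
    (Aph Λ A lam t).coeff n =
      if n ∈ Λ then Complex.exp (Complex.I * (n : ℂ) ^ 3 * t) * A (lam * t) n else 0 := by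
  unfold Aph
  rw [AddMonoidAlgebra.coeff_sum, Finsupp.finsetSum_apply]
  simp only [AddMonoidAlgebra.coeff_single, Finsupp.single_apply]
  rw [Finset.sum_ite_eq' Λ n]

lemma norm_coeff_Aph {n : ℤ} (hn : n ∈ Λ) (lam t : ℝ) :
    ‖(Aph Λ A lam t).coeff n‖ = ‖A (lam * t) n‖ := by
  rw [coeff_Aph, if_pos hn, norm_mul]
  have h : Complex.I * (n : ℂ) ^ 3 * t = (((n : ℝ) ^ 3 * t : ℝ) : ℂ) * Complex.I := by
    push_cast; ring
  rw [h, Complex.norm_exp_ofReal_mul_I, one_mul]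

lemma support_Aph (lam t : ℝ) : (Aph Λ A lam t).coeff.support ⊆ Λ := by
  intro n hn
  by_contra h
  exact (Finsupp.mem_support_iff.mp hn) (by rw [coeff_Aph, if_neg h])

lemma real_Aph (h : RSSol σ S Λ A) (lam t : ℝ) : IsReal (Aph Λ A lam t) := by
  intro n
  rw [coeff_Aph, coeff_Aph]
  by_cases hn : n ∈ Λ
  · rw [if_pos hn, if_pos (h.symm n hn), h.real, map_mul, ← Complex.exp_conj]
    congr 2
    simp only [map_mul, map_pow, Complex.conj_I, Complex.conj_ofReal, Int.cast_neg]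
    have : (starRingEnd ℂ) (n : ℂ) = (n : ℂ) := by
      rw [← Complex.ofReal_intCast, Complex.conj_ofReal]
    rw [this]
    ring
  · have hn' : -n ∉ Λ := fun h' => hn (by simpa using h.symm _ h')
    rw [if_neg hn, if_neg hn', map_zero]

lemma mz_Aph (h : RSSol σ S Λ A) (lam t : ℝ) : MZ (Aph Λ A lam t) := by
  unfold MZ
  rw [coeff_Aph, if_neg h.zero_notMem]

lemma supp_Aph {L : ℕ} (hL : ∀ n ∈ Λ, |n| ≤ (L : ℤ)) (lam t : ℝ) : Supp L (Aph Λ A lam t) := by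
  intro n hn
  rw [coeff_Aph, if_neg fun h => absurd (hL n h) (not_le.mpr hn)]

/-- the rescaled norm of the approximation -/
def RN (s : ℝ) (Λ : Finset ℤ) (N : ℕ) (X : ℤ → ℂ) : ℝ :=
  ∑ n ∈ Λ, (1 / (N : ℝ) ^ 2 + (n : ℝ) ^ 2) ^ s * ‖X n‖ ^ 2

lemma RN_tendsto (h0 : (0 : ℤ) ∉ Λ) (s : ℝ) (X : ℤ → ℂ) :
    Tendsto (fun N : ℕ => RN s Λ N X) atTop (𝓝 (rsNormSq s Λ X)) := by
  unfold RN rsNormSq
  refine tendsto_finsetSum _ fun n hn => ?_
  refine Tendsto.mul_const _ ?_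
  have hn0 : n ≠ 0 := fun h => h0 (h ▸ hn)
  have hn2 : (n : ℝ) ^ 2 ≠ 0 := pow_ne_zero 2 (by exact_mod_cast hn0)
  have e : |(n : ℝ)| ^ (2 * s) = (0 + (n : ℝ) ^ 2) ^ s := by
    rw [Real.rpow_mul (abs_nonneg _), Real.rpow_two, sq_abs, zero_add]
  rw [e]
  refine Tendsto.rpow_const ?_ (Or.inl (by rwa [zero_add]))
  refine Tendsto.add_const _ ?_
  have h1 : Tendsto (fun N : ℕ => (N : ℝ)) atTop atTop := tendsto_natCast_atTop_atTop
  have h2 : Tendsto (fun N : ℕ => ((N : ℝ) ^ 2)) atTop atTop :=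
    (tendsto_pow_atTop (by norm_num)).comp h1
  have h3 : Tendsto (fun N : ℕ => ((N : ℝ) ^ 2)⁻¹) atTop (𝓝 0) := h2.inv_tendsto_atTop
  simpa only [one_div] using h3

lemma normSq_Aph (h7 : DilFacts) (h : RSSol σ S Λ A) (s : ℝ) {N : ℕ} (hN : 0 < N) (lam t : ℝ) :
    hsNorm s (dil ((N : ℝ) ^ (-s)) N (Aph Λ A lam t)) ^ 2 = RN s Λ N (A (lam * t)) := by
  have hNp : (0 : ℝ) < N := by exact_mod_cast hN
  rw [h7.normSq s _ N _ hN (real_Aph h lam t) Λ (support_Aph lam t)]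
  unfold RN
  refine Finset.sum_congr rfl fun n hn => ?_
  rw [norm_coeff_Aph hn, ← mul_assoc]
  congr 1
  have hc : ((N : ℝ) ^ (-s)) ^ 2 = (((N : ℝ) ^ 2)⁻¹) ^ s := by
    rw [Real.inv_rpow (by positivity), ← Real.rpow_natCast, ← Real.rpow_mul hNp.le,
      ← Real.rpow_natCast (N : ℝ) 2, ← Real.rpow_mul hNp.le, ← Real.rpow_neg hNp.le]
    congr 1
    push_cast
    ring
  rw [hc, ← Real.mul_rpow (by positivity) (by positivity)]
  congr 1
  field_simp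

/-- `λ = c³ / N²` -/
def lamN (s : ℝ) (N : ℕ) : ℝ := ((N : ℝ) ^ (-s)) ^ 3 / (N : ℝ) ^ 2

lemma lamN_pos (s : ℝ) {N : ℕ} (hN : 0 < N) : 0 < lamN s N := by
  have hNp : (0 : ℝ) < N := by exact_mod_cast hN
  unfold lamN
  positivity

lemma lamN_tendsto {s : ℝ} (hs : 0 ≤ s) : Tendsto (lamN s) atTop (𝓝 0) := by
  have h1 : Tendsto (fun N : ℕ => (N : ℝ)) atTop atTop := tendsto_natCast_atTop_atTop
  have h2 : Tendsto (fun N : ℕ => ((N : ℝ) ^ 2)⁻¹) atTop (𝓝 0) :=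
    ((tendsto_pow_atTop (by norm_num)).comp h1).inv_tendsto_atTop
  refine squeeze_zero' ?_ ?_ h2
  · filter_upwards [eventually_gt_atTop 0] with N hN
    exact (lamN_pos s hN).le
  · filter_upwards [eventually_gt_atTop 0] with N hN
    have hN1 : (1 : ℝ) ≤ N := by exact_mod_cast hN
    have h3 : (N : ℝ) ^ (-s) ≤ 1 := Real.rpow_le_one_of_one_le_of_nonpos hN1 (by linarith)
    have h4 : ((N : ℝ) ^ (-s)) ^ 3 ≤ 1 := pow_le_one₀ (by positivity) h3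
    unfold lamN
    rw [div_eq_mul_inv]
    calc _ ≤ 1 * ((N : ℝ) ^ 2)⁻¹ := mul_le_mul_of_nonneg_right h4 (by positivity)
      _ = _ := one_mul _

lemma TN_eq (S s : ℝ) {N : ℕ} (hN : 0 < N) :
    S / lamN s N / (N : ℝ) ^ 3 = S * (N : ℝ) ^ (-(1 - 3 * s)) := by
  have hNp : (0 : ℝ) < N := by exact_mod_cast hN
  have hc : ((N : ℝ) ^ (-s)) ^ 3 = ((N : ℝ) ^ (3 * s))⁻¹ := by
    rw [← Real.rpow_natCast, ← Real.rpow_mul hNp.le, ← Real.rpow_neg hNp.le]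
    congr 1
    push_cast
    ring
  have he : (N : ℝ) ^ (-(1 - 3 * s)) = (N : ℝ) ^ (3 * s) / N := by
    rw [show -(1 - 3 * s) = 3 * s - 1 by ring, Real.rpow_sub_one hNp.ne']
  unfold lamN
  rw [hc, he]
  have h1 : (N : ℝ) ^ (3 * s) ≠ 0 := by positivity
  field_simp

lemma TN_tendsto (S : ℝ) {s : ℝ} (hs : s < 1 / 3) :
    Tendsto (fun N : ℕ => S / lamN s N / (N : ℝ) ^ 3) atTop (𝓝 0) := by
  have h1 : Tendsto (fun N : ℕ => (N : ℝ)) atTop atTop := tendsto_natCast_atTop_atTop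
  have h2 : Tendsto (fun N : ℕ => S * (N : ℝ) ^ (-(1 - 3 * s))) atTop (𝓝 (S * 0)) :=
    ((tendsto_rpow_neg_atTop (by linarith : 0 < 1 - 3 * s)).comp h1).const_mul S
  rw [mul_zero] at h2
  refine h2.congr' ?_
  filter_upwards [eventually_gt_atTop 0] with N hN
  rw [TN_eq S s hN]

/-- comparison of norms -/
lemma abs_norm_sub_le (h8 : HsFacts) {s η : ℝ} {f g : ℝ → ℝ} (hf : MemHs s f) (hg : MemHs s g)
    (h : hsNorm s (fun x => f x - g x) ≤ η) : |hsNorm s f - hsNorm s g| ≤ η := by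
  have hd : MemHs s (fun x => f x - g x) := h8.sub_mem s f g hf hg
  have e1 : hsNorm s f ≤ hsNorm s (fun x => f x - g x) + hsNorm s g := by
    have := h8.norm_add s (fun x => f x - g x) g hd hg
    simpa using this
  have e2 : hsNorm s g ≤ hsNorm s f + hsNorm s (fun x => f x - g x) := by
    have := h8.norm_sub s f (fun x => f x - g x) hf hd
    simpa using this
  rw [abs_le]
  constructor <;> linarith

lemma dil_sub (h3 : EvFacts) (c : ℝ) (N : ℕ) (f g : LP) (x : ℝ) :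
    dil c N (f - g) x = dil c N f x - dil c N g x := by
  unfold dil
  rw [h3.ev_sub]
  ring

/-- the approximation for one value of `N` -/
lemma step (h1 : AlgFacts) (h3 : EvFacts) (h4 : GalExistsStmt) (h6 : LimitStmt) (h7 : DilFacts)
    (h8 : HsFacts) (hS : 0 < S) (hA : RSSol σ S Λ A) {s : ℝ} (hs0 : 0 ≤ s) (hs1 : s < 1 / 3)
    {K₁ : ℕ} {lam₀ C Mb : ℝ} (hMb : 0 < Mb)
    (hU : ∀ lam : ℝ, 0 < lam → lam ≤ lam₀ → ∀ K : ℕ, K₁ ≤ K → ∀ a : ℝ → LP,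
      Gal K lam σ (S / lam) a → a 0 = Aph Λ A lam 0 →
      ∀ t ∈ Icc 0 (S / lam), n2 (D (D (a t - Aph Λ A lam t))) ≤ C * lam ∧ n2 (D (D (a t))) ≤ Mb)
    {N : ℕ} (hN : 0 < N) (hl : lamN s N ≤ lam₀) :
    ∃ u : ℝ → ℝ → ℝ, IsSolution 4 σ s (S / lamN s N / (N : ℝ) ^ 3) u ∧
      |hsNorm s (u 0) - hsNorm s (dil ((N : ℝ) ^ (-s)) N (Aph Λ A (lamN s N) 0))| ≤
        (2 * C + 1) * lamN s N ∧
      |hsNorm s (u (S / lamN s N / (N : ℝ) ^ 3)) -
        hsNorm s (dil ((N : ℝ) ^ (-s)) N (Aph Λ A (lamN s N) (S / lamN s N)))| ≤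
        (2 * C + 1) * lamN s N := by
  have hNp : (0 : ℝ) < N := by exact_mod_cast hN
  set lam : ℝ := lamN s N with hlam
  have hlp : 0 < lam := lamN_pos s hN
  set c : ℝ := (N : ℝ) ^ (-s) with hc
  have hcp : 0 < c := Real.rpow_pos_of_pos hNp _
  set T0 : ℝ := S / lam with hT0
  have hT0p : 0 < T0 := div_pos hS hlp
  set φ : LP := Aph Λ A lam 0 with hφ
  set L : ℕ := Λ.sup fun n => n.natAbs with hL
  have hLb : ∀ n ∈ Λ, |n| ≤ (L : ℤ) := by
    intro n hn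
    rw [Int.abs_eq_natAbs]
    have h : n.natAbs ≤ L := Finset.le_sup (f := fun n : ℤ => n.natAbs) hn
    exact_mod_cast h
  set K₂ : ℕ := max K₁ L + 1 with hK₂
  have hex : ∀ K : ℕ, ∃ a : ℝ → LP, K₂ ≤ K → a 0 = φ ∧ Gal K lam σ T0 a := by
    intro K
    by_cases hK : K₂ ≤ K
    · have hLK : L ≤ K := by omega
      obtain ⟨a, ha⟩ := h4 K lam σ T0 φ hT0p (real_Aph hA lam 0) (mz_Aph hA lam 0)
        (h1.supp_mono L K _ hLK (supp_Aph hLb lam 0))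
      exact ⟨a, fun _ => ha⟩
    · exact ⟨fun _ => 0, fun h => absurd h hK⟩
  choose a ha using hex
  have hGS : GalSeq Mb lam σ T0 K₂ φ a :=
    { Mb_pos := hMb
      T_pos := hT0p
      K_pos := by omega
      gal := fun K hK => (ha K hK).2
      init := fun K hK => (ha K hK).1
      bd := fun K hK t ht =>
        (hU lam hlp hl K (by omega) (a K) (ha K hK).2 (ha K hK).1 t ht).2 }
  obtain ⟨u, hu⟩ := h6 Mb lam σ T0 c N K₂ φ a hcp hN rfl hGS
  obtain ⟨hsol, happ⟩ := hu s hs0 (by linarith)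
  obtain ⟨J, hJ, hJb⟩ := happ lam hlp
  have hclose : ∀ t ∈ Icc 0 (T0 / (N : ℝ) ^ 3), ∀ τ ∈ Icc 0 T0, (N : ℝ) ^ 3 * t = τ →
      |hsNorm s (u t) - hsNorm s (dil c N (Aph Λ A lam τ))| ≤ (2 * C + 1) * lam := by
    intro t ht τ hτ hτt
    have hG := (ha J hJ).2
    have hrealA := real_Aph hA lam τ
    have hreala := hG.real τ hτ
    have hrd : IsReal (a J τ - Aph Λ A lam τ) := h1.real_sub _ _ hreala hrealA
    have hmd : MZ (a J τ - Aph Λ A lam τ) := by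
      have e1 : (a J τ).coeff 0 = 0 := hG.mz τ hτ
      have e2 : (Aph Λ A lam τ).coeff 0 = 0 := mz_Aph hA lam τ
      show ((a J τ - Aph Λ A lam τ).coeff) 0 = 0
      rw [AddMonoidAlgebra.coeff_sub, Finsupp.sub_apply, e1, e2, sub_zero]
    have m1 := hsol.mem t ht
    have m2 := h7.mem s c N (a J τ) hN hreala
    have m3 := h7.mem s c N (Aph Λ A lam τ) hN hrealA
    have m4 := h7.mem s c N (a J τ - Aph Λ A lam τ) hN hrd
    refine abs_norm_sub_le h8 m1 m3 ?_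
    have e1 : (fun x => u t x - dil c N (Aph Λ A lam τ) x) =
        fun x => (u t x - dil c N (a J τ) x) + dil c N (a J τ - Aph Λ A lam τ) x := by
      funext x
      rw [dil_sub h3]
      ring
    rw [e1]
    have e2 := h8.norm_add s _ _ (h8.sub_mem s _ _ m1 m2) m4
    have e3 : hsNorm s (fun x => u t x - dil c N (a J τ) x) < lam := by
      have := hJb J le_rfl t ht
      rwa [hτt] at this
    have e4 := h7.le_DD s N (a J τ - Aph Λ A lam τ) hs0 (by linarith) hN hrd hmd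
    have e5 := (hU lam hlp hl J (by omega) (a J) (ha J hJ).2 (ha J hJ).1 τ hτ).1
    have e6 : hsNorm s (fun x => dil c N (a J τ - Aph Λ A lam τ) x) ≤ 2 * (C * lam) :=
      e4.trans (by linarith)
    linarith
  have hTp : 0 ≤ T0 / (N : ℝ) ^ 3 := by positivity
  refine ⟨u, hsol, ?_, ?_⟩
  · exact hclose 0 ⟨le_rfl, hTp⟩ 0 ⟨le_rfl, hT0p.le⟩ (mul_zero _)
  · refine hclose _ ⟨hTp, le_rfl⟩ T0 ⟨hT0p.le, le_rfl⟩ ?_
    field_simp

/-- the error -/
lemma err_tendsto (h0 : (0 : ℤ) ∉ Λ) {s : ℝ} (hs : 0 ≤ s) (C : ℝ) (X : ℤ → ℂ) :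
    Tendsto (fun N : ℕ => (2 * C + 1) * lamN s N *
      (2 * √(RN s Λ N X) + (2 * C + 1) * lamN s N) + |RN s Λ N X - rsNormSq s Λ X|)
      atTop (𝓝 0) := by
  have h1 : Tendsto (fun N : ℕ => (2 * C + 1) * lamN s N) atTop (𝓝 ((2 * C + 1) * 0)) :=
    (lamN_tendsto hs).const_mul _
  rw [mul_zero] at h1
  have h2 := RN_tendsto h0 s X
  have h3 : Tendsto (fun N : ℕ => 2 * √(RN s Λ N X) + (2 * C + 1) * lamN s N) atTop
      (𝓝 (2 * √(rsNormSq s Λ X) + 0)) := (h2.sqrt.const_mul 2).add h1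
  have h4 : Tendsto (fun N : ℕ => |RN s Λ N X - rsNormSq s Λ X|) atTop (𝓝 |0|) := by
    refine Tendsto.abs ?_
    have := h2.sub_const (rsNormSq s Λ X)
    rwa [sub_self] at this
  have h5 := (h1.mul h3).add h4
  simpa using h5

lemma abs_sq_sub_le {a b η R r ε : ℝ} (ha : 0 ≤ a) (hb : 0 ≤ b) (hab : |a - b| ≤ η)
    (hR : b ^ 2 = R) (hε : η * (2 * √R + η) + |R - r| < ε) : |a ^ 2 - r| < ε := by
  have hs : √R = b := by rw [← hR, Real.sqrt_sq hb]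
  rw [hs] at hε
  have hη : 0 ≤ η := (abs_nonneg _).trans hab
  have h1 : |a ^ 2 - b ^ 2| ≤ η * (2 * b + η) := by
    have e : a ^ 2 - b ^ 2 = (a - b) * (a + b) := by ring
    rw [e, abs_mul, abs_of_nonneg (add_nonneg ha hb)]
    have h2 := (abs_le.mp hab).2
    exact mul_le_mul hab (by linarith) (add_nonneg ha hb) hη
  have h3 : |a ^ 2 - r| ≤ |a ^ 2 - b ^ 2| + |R - r| := by
    rw [← hR]
    exact abs_sub_le _ _ _
  linarith

end PdeFrom

open PdeFrom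

theorem pdeFromStmt : PdeFromStmt := by
  intro h1 _ h3 h4 h5 h6 h7 h8 σ S Λ A hσ hS hA s hs0 hs1 ε hε
  obtain ⟨K₁, lam₀, C, Mb, hl0, _, _, hMb, hU⟩ := h5 σ S Λ A hσ hS hA
  have E0 := err_tendsto hA.zero_notMem hs0 C (A 0)
  have ES := err_tendsto hA.zero_notMem hs0 C (A S)
  obtain ⟨N, hN, hNl, hNT, hN0, hNS⟩ := ((eventually_gt_atTop 0).and
    (((lamN_tendsto hs0).eventually (gt_mem_nhds hl0)).and
    (((TN_tendsto S hs1).eventually (gt_mem_nhds hε)).and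
    ((E0.eventually (gt_mem_nhds hε)).and (ES.eventually (gt_mem_nhds hε)))))).exists
  have hNp : (0 : ℝ) < N := by exact_mod_cast hN
  have hlp := lamN_pos s hN
  obtain ⟨u, hsol, hu0, huT⟩ := step h1 h3 h4 h6 h7 h8 hS hA hs0 hs1 hMb hU hN hNl.le
  refine ⟨S / lamN s N / (N : ℝ) ^ 3, by positivity, hNT, u, hsol, ?_, ?_⟩
  · refine abs_sq_sub_le (h8.norm_nonneg _ _) (h8.norm_nonneg _ _) hu0
      (normSq_Aph h7 hA s hN _ _) ?_
    rw [mul_zero]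
    exact hN0
  · refine abs_sq_sub_le (h8.norm_nonneg _ _) (h8.norm_nonneg _ _) huT
      (normSq_Aph h7 hA s hN _ _) ?_
    rw [mul_div_cancel₀ _ hlp.ne']
    exact hNS

end GKdV
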