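import Pool.Agent.Lib.MP_cb0de5_an.SpecA

/-!
# Positivity of the parents at early times
-/

open MeasureTheory Filter Topology Set

noncomputable section

namespace GKdV

namespace PosEarly

lemma st_succ (g : ℕ) (K R : ℝ) (j : ℕ) : st g K R (j + 1) = st g K R j + Dl g K R (j + 1) := by
  unfold st
  rw [Finset.sum_range_succ]

lemma le_Dl (g : ℕ) {K R : ℝ} (hK : 3 ≤ K) (hR : 1 ≤ R) (j : ℕ) : R ≤ Dl g K R j := by
  unfold Dl
  have h : 1 ≤ K ^ (g + 1 - j) := one_le_pow₀ (by linarith)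
  nlinarith

lemma st_nonneg (g : ℕ) {K R : ℝ} (hK : 3 ≤ K) (hR : 1 ≤ R) (j : ℕ) : 0 ≤ st g K R j := by
  unfold st
  exact Finset.sum_nonneg fun i _ => le_trans (by linarith) (le_Dl g hK hR (i + 1))

lemma CC_nonneg {k kk : ℝ} (hk : 0 < k) (hkk : 1 ≤ kk) (j : ℕ) : 0 ≤ CC k kk j := by
  cases j with
  | zero => exact le_rfl
  | succ j =>
    show 0 ≤ kk * (8 * Real.exp (3 * CC k kk j) * (1 / (3 * k) + 1) + 3)
    positivity

lemma exp_four : Real.exp (-4) ≤ 1 / 9 := by
  have h1 : (3 : ℝ) ≤ Real.exp 2 := by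
    have := Real.add_one_le_exp (2 : ℝ)
    linarith
  have h2 : Real.exp 4 = Real.exp 2 * Real.exp 2 := by
    rw [← Real.exp_add]; norm_num
  have h3 : (9 : ℝ) ≤ Real.exp 4 := by
    rw [h2]; nlinarith
  rw [Real.exp_neg, ← one_div]
  exact one_div_le_one_div_of_le (by norm_num) h3

/-- close to the firing time -/
lemma tau_late {k κ C a t Δ θ : ℝ} (hk : 0 < k) (hκ : k ≤ κ) (hC : 0 ≤ C) (hat : a ≤ t)
    (htb : t ≤ a + Δ - (C + 2) / k) (hθ : θ ≤ κ * max (t - a) 0 + C) :
    4 * Real.exp (-(κ * Δ)) ^ 2 * Real.exp (2 * θ) ≤ 4 / 9 := by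
  have h1 : Real.exp (-(κ * Δ)) ^ 2 * Real.exp (2 * θ) ≤ Real.exp (-4) := by
    rw [← Real.exp_nat_mul, ← Real.exp_add]
    apply Real.exp_le_exp.2
    rw [max_eq_left (by linarith)] at hθ
    have h2 : C + 2 ≤ k * (a + Δ - t) := by
      have h3 : (C + 2) / k ≤ a + Δ - t := by linarith
      rw [div_le_iff₀ hk] at h3
      linarith
    have h4 : 0 ≤ a + Δ - t := by
      have : 0 ≤ (C + 2) / k := by positivity
      linarith
    have h5 : k * (a + Δ - t) ≤ κ * (a + Δ - t) := mul_le_mul_of_nonneg_right hκ h4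
    push_cast
    nlinarith
  have h6 := exp_four
  linarith

/-- far from the firing time -/
lemma tau_early {k κ C a t Δ θ R : ℝ} (hk : 0 < k) (hκ : k ≤ κ) (hR : R ≤ Δ) (hR0 : 0 ≤ R)
    (htb : t ≤ a + Δ / 2) (hθ : θ ≤ κ * max (t - a) 0 + C) :
    4 * Real.exp (-(κ * Δ)) ^ 2 * Real.exp (2 * θ) ≤ 4 * Real.exp (2 * C) * Real.exp (-(k * R)) := by
  have h1 : Real.exp (-(κ * Δ)) ^ 2 * Real.exp (2 * θ) ≤ Real.exp (2 * C) * Real.exp (-(k * R)) := by
    rw [← Real.exp_nat_mul, ← Real.exp_add, ← Real.exp_add]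
    apply Real.exp_le_exp.2
    have h2 : max (t - a) 0 ≤ Δ / 2 := max_le (by linarith) (by linarith)
    have h3 : κ * max (t - a) 0 ≤ κ * (Δ / 2) := mul_le_mul_of_nonneg_left h2 (by linarith)
    have h4 : k * R ≤ κ * Δ := mul_le_mul hκ hR hR0 (by linarith)
    push_cast
    linarith
  linarith

lemma uu_pos {δ ε θ : ℝ} (hδ : 0 < δ) (hε : 0 < ε) (hθ : 0 ≤ θ) (b : Fin 2) : 0 < uu δ ε θ b := by
  have h1 : 0 ≤ Real.sinh θ := Real.sinh_nonneg_iff.2 hθ
  have h2 := Real.cosh_pos θ
  fin_cases b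
  · show 0 < δ * Real.cosh θ + ε * Real.sinh θ
    have := mul_pos hδ h2
    have := mul_nonneg hε.le h1
    linarith
  · show 0 < δ * Real.sinh θ + ε * Real.cosh θ
    have := mul_pos hε h2
    have := mul_nonneg hδ.le h1
    linarith

lemma pos_of_sq {y : ℝ} (h0 : 0 ≤ y) (h : 0 < y ^ 2) : 0 < y := by
  rcases h0.eq_or_lt with h1 | h1
  · rw [← h1] at h
    norm_num at h
  · exact h1

end PosEarly

open PosEarly

theorem posEarlyStmt (h1 : SqStmt) (h2 : CrudeStmt) (h3 : ChildUpStmt) (h4 : UpStmt)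
    (h5 : FreshStmt) (h6 : FillStmt) : PosEarlyStmt := by
  intro g k kk K hk hkk hK
  obtain ⟨RU, hU⟩ := h4 g k kk K hk hkk hK
  obtain ⟨RF, hF⟩ := h5 g k kk K hk hkk hK
  obtain ⟨A, μ, RL, hA, hμ, hμ1, hL⟩ := h6 g k kk K hk hkk hK
  have hev : ∀ᶠ R : ℝ in atTop, ∀ j ∈ Finset.range (g + 1),
      4 * Real.exp (2 * CC k kk j) * Real.exp (-(k * R)) < μ ^ 2 / 2 := by
    rw [Finset.eventually_all]
    intro j _
    have h : Tendsto (fun R : ℝ => 4 * Real.exp (2 * CC k kk j) * Real.exp (-(k * R))) atTop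
        (𝓝 (4 * Real.exp (2 * CC k kk j) * 0)) := by
      apply Tendsto.const_mul
      exact Real.tendsto_exp_neg_atTop_nhds_zero.comp (tendsto_id.const_mul_atTop hk)
    rw [mul_zero] at h
    exact h.eventually (gt_mem_nhds (by positivity))
  obtain ⟨RE, hE⟩ := Filter.eventually_atTop.1 hev
  refine ⟨max (max RU RF) (max (max RL RE) (max (2 * A) (16 * BB k))), fun R hR => ?_⟩
  have r1 : RU ≤ R := le_trans ((le_max_left _ _).trans (le_max_left _ _)) hR
  have r2 : RF ≤ R := le_trans ((le_max_right _ _).trans (le_max_left _ _)) hR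
  have r3 : RL ≤ R :=
    le_trans (((le_max_left _ _).trans (le_max_left _ _)).trans (le_max_right _ _)) hR
  have r4 : RE ≤ R :=
    le_trans (((le_max_right _ _).trans (le_max_left _ _)).trans (le_max_right _ _)) hR
  have r5 : 2 * A ≤ R :=
    le_trans (((le_max_left _ _).trans (le_max_right _ _)).trans (le_max_right _ _)) hR
  have r6 : 16 * BB k ≤ R :=
    le_trans (((le_max_right _ _).trans (le_max_right _ _)).trans (le_max_right _ _)) hR
  intro M Q _ _ _ N κ x hrun t ht hnn q i htq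
  have hR1 : 1 ≤ R := hrun.R_one
  obtain ⟨_, _, _, s4, _, s6⟩ := h1 g M Q N κ k kk K R x hrun
  obtain ⟨c1, c2, _, c4, _, _, _, _⟩ := h2 g M Q N κ k kk K R x hrun t ht hnn
  have hx0 : 0 ≤ x t (N.par q i) := hnn t ⟨ht.1, le_rfl⟩ _
  apply pos_of_sq hx0
  have hup := hU R r1 M Q N κ x hrun t ht hnn q
  have hta := (h3 g M Q N κ k kk K R x hrun t ht hnn q).2.2
  have hlv := N.lv_par q i
  have hqg : N.ql q ≤ g := by
    have e1 := N.lv_chi q 0
    have e2 := N.lv_le (N.chi q 0)
    omega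
  obtain ⟨j, hj⟩ : ∃ j, N.ql q = j + 1 := ⟨N.lv (N.par q i), hlv.symm⟩
  have hlvj : N.lv (N.par q i) = j := by omega
  have hκ := hrun.κ_lo q
  have hCn := CC_nonneg hk hkk (j + 1)
  unfold Net.de at hta
  unfold Ap at htq
  rw [hj] at hup hta htq
  rw [Nat.add_sub_cancel] at hup
  rw [st_succ] at htq
  have hDR := le_Dl g hK hR1 (j + 1)
  have hstj := st_nonneg g hK hR1 j
  -- late bound
  have hlate : st g K R j ≤ t → N.ta κ x q t ≤ 4 / 9 := fun hat =>
    hta.trans (tau_late hk hκ hCn hat htq hup)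
  rcases Nat.eq_zero_or_pos j with hj0 | hj0
  · -- level one
    subst hj0
    have hst0 : st g K R 0 = 0 := by
      unfold st
      simp
    have e1 := s6 t ht q i (by omega)
    have e2 := hlate (by rw [hst0]; exact ht.1)
    rw [e1]
    linarith
  · obtain ⟨q', b, hqb⟩ := N.chi_surj (N.par q i) (by omega)
    have hq' : N.ql q' = j := by
      rw [← N.lv_chi q' b, hqb, hlvj]
    have e1 := s4 t ht q' b q i hqb.symm
    rw [hqb] at e1
    have hsq := sq_nonneg (x 0 (N.par q i))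
    rcases le_total t (st g K R j) with htj | htj
    · -- phase I
      have e2 := hF R r2 M Q N κ x hrun t ht hnn q' (by rw [hq']; exact htj) b
      rw [hqb] at e2
      have e3 : 0 < uu (N.de κ K R q') (es g kk K R) (N.th κ x q' t) b :=
        uu_pos (by unfold Net.de; exact Real.exp_pos _) (by unfold es; exact Real.exp_pos _)
          (c4 q') b
      have e4 : 0 < x t (N.par q i) := by linarith
      positivity
    · have hfill := hL R r3 M Q N κ x hrun t ht hnn q' (by rw [hq']; exact htj)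
      obtain ⟨_, f2, f3⟩ := hfill
      rw [hq'] at f2
      rcases le_total t (st g K R j + Dl g K R (j + 1) / 2) with hth | hth
      · -- phase II
        have e2 : N.ta κ x q' (st g K R j) ≤ N.ta κ x q' t := c2 q' _ ⟨hstj, htj⟩
        have e3 : N.ta κ x q t ≤ 4 * Real.exp (2 * CC k kk (j + 1)) * Real.exp (-(k * R)) :=
          hta.trans (tau_early hk hκ hDR (by linarith) hth hup)
        have e4 := hE R r4 (j + 1) (Finset.mem_range.2 (by omega))
        rw [e1]
        linarith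
      · -- phase III
        unfold FillAt at f3
        rw [hq'] at f3
        have e2 := f3 (by linarith)
        have e3 : min (t - st g K R j) (Dl g K R (j + 1) / 2) = Dl g K R (j + 1) / 2 :=
          min_eq_right (by linarith)
        rw [e3] at e2
        have hB : 0 < BB k := by unfold BB; positivity
        have e4 : BB k / (Dl g K R (j + 1) / 2) ^ 2 ≤ 1 / 4 := by
          have h7 : 0 < Dl g K R (j + 1) := by linarith
          rw [div_le_iff₀ (by positivity)]
          have h8 : R * R ≤ Dl g K R (j + 1) * Dl g K R (j + 1) :=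
            mul_le_mul hDR hDR (by linarith) h7.le
          have h9 : R ≤ R * R := by nlinarith
          nlinarith
        have e5 := hlate htj
        rw [e1]
        linarith

end GKdV
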