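import Pool.Agent.Lib.MP_cb0de5_an.SpecA

/-!
# A7b: positivity of the parents, late times
-/

open MeasureTheory Filter Topology Set

noncomputable section

namespace GKdV

namespace PosLate

theorem CC_nonneg {k kk : ℝ} (hk : 0 < k) (hkk : 1 ≤ kk) : ∀ j, 0 ≤ CC k kk j
  | 0 => le_refl _
  | j + 1 => by
    have := CC_nonneg hk hkk j
    have h1 : (0 : ℝ) ≤ kk := by linarith
    simp only [CC]
    positivity

theorem Ap_nonneg {k kk : ℝ} (hk : 0 < k) (hkk : 1 ≤ kk) (j : ℕ) : 0 ≤ Ap k kk j := by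
  have := CC_nonneg hk hkk j
  unfold Ap
  positivity

theorem Dl_ge {g : ℕ} {K R : ℝ} (hK : 3 ≤ K) (hR : 1 ≤ R) (j : ℕ) : R ≤ Dl g K R j := by
  unfold Dl
  have : 1 ≤ K ^ (g + 1 - j) := one_le_pow₀ (by linarith)
  nlinarith

theorem Dl_succ {g : ℕ} {K R : ℝ} {j : ℕ} (hj : j ≤ g) :
    Dl g K R j = K * Dl g K R (j + 1) := by
  unfold Dl
  have : g + 1 - j = (g + 1 - (j + 1)) + 1 := by omega
  rw [this, pow_succ]
  ring

theorem Dl_le_first {g : ℕ} {K R : ℝ} {j : ℕ} (hK : 3 ≤ K) (hR : 1 ≤ R) (hj : 1 ≤ j) :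
    Dl g K R j ≤ K ^ g * R := by
  unfold Dl
  apply mul_le_mul_of_nonneg_right _ (by linarith)
  exact pow_le_pow_right₀ (by linarith) (by omega)

theorem st_succ (g : ℕ) (K R : ℝ) (j : ℕ) : st g K R (j + 1) = st g K R j + Dl g K R (j + 1) := by
  unfold st
  rw [Finset.sum_range_succ]

theorem st_zero (g : ℕ) (K R : ℝ) : st g K R 0 = 0 := by
  simp [st]

theorem st_mono {g : ℕ} {K R : ℝ} (hK : 3 ≤ K) (hR : 1 ≤ R) : Monotone (st g K R) := by
  apply monotone_nat_of_le_succ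
  intro n
  rw [st_succ]
  have := Dl_ge (g := g) hK hR (n + 1)
  linarith

theorem st_tail {g : ℕ} {K R : ℝ} (hK : 3 ≤ K) (hR : 1 ≤ R) :
    ∀ n j : ℕ, j + n = g → st g K R (g + 1) - st g K R j ≤ 3 / 2 * Dl g K R (j + 1)
  | 0, j, h => by
    have hj : j = g := by omega
    subst hj
    rw [st_succ]
    have := Dl_ge (g := j) hK hR (j + 1)
    linarith
  | n + 1, j, h => by
    have h1 := st_tail (g := g) hK hR n (j + 1) (by omega)
    rw [st_succ g K R j] at h1
    have h2 : Dl g K R (j + 1) = K * Dl g K R (j + 1 + 1) :=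
      Dl_succ (g := g) (K := K) (R := R) (j := j + 1) (by omega)
    have h3 := Dl_ge (g := g) hK hR (j + 1 + 1)
    have h4 : 3 * Dl g K R (j + 1 + 1) ≤ K * Dl g K R (j + 1 + 1) :=
      mul_le_mul_of_nonneg_right hK (by linarith)
    linarith

theorem om_lim (g : ℕ) (k K : ℝ) (hk : 0 < k) :
    ∀ᶠ R in atTop, om g k R ≤ 1 ∧ 2 * om g k R * (K ^ g * R) ^ 2 ≤ 1 := by
  have hl : Tendsto (fun R : ℝ => 2 * k * R) atTop atTop :=
    tendsto_id.const_mul_atTop (by positivity)
  have h0 := (Real.tendsto_pow_mul_exp_neg_atTop_nhds_zero 0).comp hl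
  have h2 := (Real.tendsto_pow_mul_exp_neg_atTop_nhds_zero 2).comp hl
  have e0 : Tendsto (fun R : ℝ => om g k R) atTop (𝓝 0) := by
    have := h0.const_mul ((g : ℝ) + 1)
    rw [mul_zero] at this
    refine this.congr (fun R => ?_)
    simp [om]
  have e2 : Tendsto (fun R : ℝ => 2 * om g k R * (K ^ g * R) ^ 2) atTop (𝓝 0) := by
    have := h2.const_mul (2 * ((g : ℝ) + 1) * (K ^ g) ^ 2 / (2 * k) ^ 2)
    rw [mul_zero] at this
    refine this.congr (fun R => ?_)
    simp only [om, Function.comp]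
    field_simp
  filter_upwards [e0.eventually_le_const (show (0 : ℝ) < 1 by norm_num),
    e2.eventually_le_const (show (0 : ℝ) < 1 by norm_num)] with R h1 h2
  exact ⟨h1, h2⟩

theorem four_exp : 4 * Real.exp (-4) ≤ 1 / 2 := by
  have h1 : (2 : ℝ) ≤ Real.exp 1 := by
    have := Real.add_one_le_exp (1 : ℝ)
    linarith
  have h2 : (16 : ℝ) ≤ Real.exp 4 := by
    have : Real.exp 4 = Real.exp 1 ^ 4 := by
      rw [← Real.exp_nat_mul]
      norm_num
    rw [this]
    calc (16 : ℝ) = 2 ^ 4 := by norm_num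
      _ ≤ Real.exp 1 ^ 4 := pow_le_pow_left₀ (by norm_num) h1 4
  rw [Real.exp_neg]
  have h3 : (Real.exp 4)⁻¹ ≤ (16 : ℝ)⁻¹ := inv_anti₀ (by norm_num) h2
  linarith

theorem prod_le {z a b c : ℝ} (hz : 0 < z) (ha : 0 ≤ a) (hb : 0 ≤ b) (hc : 0 ≤ c)
    (ha2 : a ^ 2 ≤ z) (hb2 : b ^ 2 ≤ z) (hc2 : c ^ 2 ≤ z) : a * b * c ≤ z ^ (3 / 2 : ℝ) := by
  have h1 : a ≤ Real.sqrt z := Real.le_sqrt_of_sq_le ha2
  have h2 : b ≤ Real.sqrt z := Real.le_sqrt_of_sq_le hb2
  have h3 : c ≤ Real.sqrt z := Real.le_sqrt_of_sq_le hc2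
  have h4 : z ^ (3 / 2 : ℝ) = Real.sqrt z * Real.sqrt z * Real.sqrt z := by
    have : z ^ (3 / 2 : ℝ) = (Real.sqrt z) ^ 3 := by
      rw [Real.sqrt_eq_rpow, ← Real.rpow_natCast, ← Real.rpow_mul hz.le]
      norm_num
    rw [this]
    ring
  rw [h4]
  have h0 := Real.sqrt_nonneg z
  exact mul_le_mul (mul_le_mul h1 h2 hb h0) h3 hc (mul_nonneg h0 h0)

end PosLate

open PosLate in
theorem posLateStmt (h1 : SqStmt) (h2 : CrudeStmt) (h3 : ChildUpStmt) (h4 : UpStmt)
    (h5 : FillStmt) (h6 : ScalarLowStmt) : PosLateStmt := by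
  intro g k kk K hk hkk hK hKK
  obtain ⟨R₁, hUp⟩ := h4 g k kk K hk hkk hK
  obtain ⟨A, μ, R₂, hA, -, -, hFill⟩ := h5 g k kk K hk hkk hK
  obtain ⟨R₃, hom⟩ := eventually_atTop.1 (om_lim g k K hk)
  set Am : ℝ := ∑ j ∈ Finset.range (g + 1), Ap k kk j with hAm
  have hApm : ∀ j, j ≤ g → Ap k kk j ≤ Am := fun j hj =>
    Finset.single_le_sum (f := fun j => Ap k kk j) (fun i _ => Ap_nonneg hk hkk i)
      (Finset.mem_range.2 (by omega))
  have hAm0 : 0 ≤ Am := Finset.sum_nonneg (fun i _ => Ap_nonneg hk hkk i)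
  refine ⟨max (max R₁ R₂) (max R₃ (2 * Am + A + 1)), ?_⟩
  intro R hRR M Q _ _ _ N κ x hrun t ht hnn q i hlate
  have hRa : R₁ ≤ R := (le_max_left _ _).trans ((le_max_left _ _).trans hRR)
  have hRb : R₂ ≤ R := (le_max_right _ _).trans ((le_max_left _ _).trans hRR)
  have hRc : R₃ ≤ R := (le_max_left _ _).trans ((le_max_right _ _).trans hRR)
  have hRd : 2 * Am + A + 1 ≤ R := (le_max_right _ _).trans ((le_max_right _ _).trans hRR)
  have hR1 : 1 ≤ R := hrun.R_one
  obtain ⟨hom1, hom2⟩ := hom R hRc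
  have hom0 : 0 ≤ om g k R := by unfold om; positivity
  obtain ⟨-, -, hta, hsq4, -, hsq1⟩ := h1 g M Q N κ k kk K R x hrun
  -- the level
  obtain ⟨j, hj⟩ : ∃ j, N.ql q = j + 1 := ⟨N.lv (N.par q i), (N.lv_par q i).symm⟩
  have hjg : j + 1 ≤ g := by
    rw [← hj, ← N.lv_chi q 0]
    exact N.lv_le _
  have hAp := hApm (j + 1) hjg
  have hAp0 := Ap_nonneg hk hkk (j + 1)
  have hDj := Dl_ge (g := g) hK hR1 (j + 1)
  have hstj := st_succ g K R j
  have hstj0 : 0 ≤ st g K R j := by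
    rw [← st_zero g K R]
    exact st_mono hK hR1 (Nat.zero_le j)
  rw [hj] at hlate
  set a : ℝ := st g K R (j + 1) - Ap k kk (j + 1) with ha
  have ha0 : 0 ≤ a := by linarith
  have hat : a ≤ t := hlate
  have htt := ht.2
  have hnna : NonnegTo x a := fun s hs m => hnn s ⟨hs.1, hs.2.trans hat⟩ m
  have haI : a ∈ Icc 0 (st g K R (g + 1)) := ⟨ha0, hat.trans htt⟩
  -- value at `a`
  have htaua : N.ta κ x q a ≤ 1 / 2 := by
    have e1 := (h3 g M Q N κ k kk K R x hrun a haI hnna q).2.2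
    have e2 := hUp R hRa M Q N κ x hrun a haI hnna q
    rw [hj] at e2
    have e3 : max (a - st g K R (j + 1 - 1)) 0 = Dl g K R (j + 1) - Ap k kk (j + 1) := by
      rw [Nat.add_sub_cancel]
      rw [max_eq_left]
      · linarith
      · linarith
    rw [e3] at e2
    have hκ := hrun.κ_lo q
    have e4 : N.de κ K R q ^ 2 * Real.exp (2 * N.th κ x q a) ≤ Real.exp (-4) := by
      unfold Net.de
      rw [hj, ← Real.exp_nat_mul, ← Real.exp_add]
      apply Real.exp_le_exp.2
      push_cast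
      have e5 : k * Ap k kk (j + 1) = CC k kk (j + 1) + 2 := by
        unfold Ap
        field_simp
      have e6 : k * Ap k kk (j + 1) ≤ κ q * Ap k kk (j + 1) :=
        mul_le_mul_of_nonneg_right hκ hAp0
      nlinarith
    have e7 := four_exp
    calc N.ta κ x q a ≤ 4 * N.de κ K R q ^ 2 * Real.exp (2 * N.th κ x q a) := e1
      _ = 4 * (N.de κ K R q ^ 2 * Real.exp (2 * N.th κ x q a)) := by ring
      _ ≤ 4 * Real.exp (-4) := by linarith
      _ ≤ 1 / 2 := e7
  -- parents are at most `z`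
  have hkkk : k ≤ kk := (hrun.κ_lo q).trans (hrun.κ_hi q)
  have hseed : ∀ q' b, x 0 (N.chi q' b) ^ 2 ≤ om g k R := by
    intro q' b
    have hle : x 0 (N.chi q' b) ≤ Real.exp (-(k * R)) ∧ 0 ≤ x 0 (N.chi q' b) := by
      have hD1 := Dl_ge (g := g) hK hR1 (N.ql q')
      have hD2 := Dl_ge (g := g) hK hR1 1
      have hκ' := hrun.κ_lo q'
      fin_cases b
      · have := hrun.init1 q'
        simp only [Fin.mk_zero]
        rw [this]
        refine ⟨Real.exp_le_exp.2 ?_, (Real.exp_pos _).le⟩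
        have : k * R ≤ κ q' * Dl g K R (N.ql q') :=
          mul_le_mul hκ' hD1 (by linarith) (by linarith)
        linarith
      · have := hrun.init2 q'
        simp only [Fin.mk_one]
        rw [this]
        refine ⟨Real.exp_le_exp.2 ?_, (Real.exp_pos _).le⟩
        have : k * R ≤ kk * Dl g K R 1 := mul_le_mul hkkk hD2 (by linarith) (by linarith)
        linarith
    have hsq : x 0 (N.chi q' b) ^ 2 ≤ Real.exp (-(k * R)) ^ 2 := pow_le_pow_left₀ hle.2 hle.1 2
    have hexp : Real.exp (-(k * R)) ^ 2 = Real.exp (-(2 * k * R)) := by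
      rw [← Real.exp_nat_mul]
      congr 1
      push_cast
      ring
    rw [hexp] at hsq
    unfold om
    have : (0 : ℝ) ≤ g := Nat.cast_nonneg g
    have := (Real.exp_pos (-(2 * k * R))).le
    nlinarith
  have hpar : ∀ s ∈ Icc a t, ∀ i', x s (N.par q i') ^ 2 ≤ 1 + 2 * om g k R - N.ta κ x q s := by
    intro s hs i'
    have hsI : s ∈ Icc 0 (st g K R (g + 1)) := ⟨ha0.trans hs.1, hs.2.trans htt⟩
    have hnns : NonnegTo x s := fun s' hs' m => hnn s' ⟨hs'.1, hs'.2.trans hs.2⟩ m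
    rcases Nat.eq_zero_or_pos (N.lv (N.par q i')) with h0 | h0
    · have hq1 : N.ql q = 1 := by
        have := N.lv_par q i'
        omega
      rw [hsq1 s hsI q i' hq1]
      linarith
    · obtain ⟨q', b, hqb⟩ := N.chi_surj _ h0
      rw [← hqb, hsq4 s hsI q' b q i' hqb.symm]
      have e1 := hseed q' b
      have e2 := (h2 g M Q N κ k kk K R x hrun s hsI hnns).2.2.2.2.1 q'
      linarith
  -- the scalar inequality
  have hz := h6 a t kk (fun s => 1 + 2 * om g k R - N.ta κ x q s)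
    (fun s => -(2 * κ q * N.P5 (x s) q)) hat (by linarith)
    (fun s hs => by
      have hsI : s ∈ Icc 0 (st g K R (g + 1)) := ⟨ha0.trans hs.1, hs.2.trans htt⟩
      have e1 := (hta q s hsI).mono (show Icc a t ⊆ Icc 0 (st g K R (g + 1)) from
        Icc_subset_Icc ha0 htt)
      exact e1.const_sub _)
    (by
      show 1 / 2 ≤ 1 + 2 * om g k R - N.ta κ x q a
      linarith)
    (fun s hs hzs => by
      have hsI : s ∈ Icc 0 (st g K R (g + 1)) := ⟨ha0.trans hs.1, hs.2.trans htt⟩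
      have hnns : NonnegTo x s := fun s' hs' m => hnn s' ⟨hs'.1, hs'.2.trans hs.2⟩ m
      have hns : ∀ m, 0 ≤ x s m := fun m => hnn s ⟨hsI.1, hs.2⟩ m
      have hcr := (h2 g M Q N κ k kk K R x hrun s hsI hnns).2.2.2.2.2.2.1
      have e1 : N.P3 (x s) q ≤ (1 + 2 * om g k R - N.ta κ x q s) ^ (3 / 2 : ℝ) :=
        prod_le hzs (hns _) (hns _) (hns _) (hpar s hs 0) (hpar s hs 1) (hpar s hs 2)
      have e2 : x s (N.chi q 0) * x s (N.chi q 1) ≤ 2 := by
        have f0 := hcr (N.chi q 0)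
        have f1 := hcr (N.chi q 1)
        nlinarith [sq_nonneg (x s (N.chi q 0) - x s (N.chi q 1))]
      have e3 : 0 ≤ N.P3 (x s) q := mul_nonneg (mul_nonneg (hns _) (hns _)) (hns _)
      have e4 : 0 ≤ x s (N.chi q 0) * x s (N.chi q 1) := mul_nonneg (hns _) (hns _)
      have e5 : N.P5 (x s) q ≤ (1 + 2 * om g k R - N.ta κ x q s) ^ (3 / 2 : ℝ) * 2 := by
        unfold Net.P5
        rw [mul_assoc]
        exact mul_le_mul e1 e2 e4 (e3.trans e1)
      have e6 : 0 ≤ N.P5 (x s) q := by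
        unfold Net.P5
        rw [mul_assoc]
        exact mul_nonneg e3 e4
      have e7 := hrun.κ_hi q
      have e8 := hrun.κ_lo q
      have e9 : κ q * N.P5 (x s) q ≤ kk * ((1 + 2 * om g k R - N.ta κ x q s) ^ (3 / 2 : ℝ) * 2) :=
        mul_le_mul e7 e5 e6 (by linarith)
      show -(4 * kk * (1 + 2 * om g k R - N.ta κ x q s) ^ (3 / 2 : ℝ)) ≤
        -(2 * κ q * N.P5 (x s) q)
      nlinarith)
    t ⟨hat, le_refl t⟩
  -- lower bound for `z t`
  set D : ℝ := Dl g K R (j + 1) with hD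
  have hDpos : 0 < D := by linarith
  have hDK : D = K * Dl g K R (j + 1 + 1) := Dl_succ hjg
  have hD2 := Dl_ge (g := g) hK hR1 (j + 1 + 1)
  set D' : ℝ := Dl g K R (j + 1 + 1) with hD'
  have htail := st_tail hK hR1 (g - (j + 1)) (j + 1) (by omega : j + 1 + (g - (j + 1)) = g)
  have hta7 : Real.sqrt 2 + 2 * kk * (t - a) ≤ 7 * kk * D' := by
    have e1 : t - a ≤ 3 / 2 * D' + Am := by linarith
    have e2 : Real.sqrt 2 ≤ 2 := by
      rw [Real.sqrt_le_left (by norm_num)]
      norm_num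
    have e3 : 2 * kk * (t - a) ≤ 2 * kk * (3 / 2 * D' + Am) :=
      mul_le_mul_of_nonneg_left e1 (by linarith)
    have e4 : 2 * Am + 1 ≤ D' := by linarith
    have e5 : 2 * kk * (2 * Am + 1) ≤ 2 * kk * D' :=
      mul_le_mul_of_nonneg_left e4 (by linarith)
    nlinarith
  have hpos1 : 0 < Real.sqrt 2 + 2 * kk * (t - a) := by
    have e1 : 0 < Real.sqrt 2 := Real.sqrt_pos.2 (by norm_num)
    have e2 : 0 ≤ 2 * kk * (t - a) := mul_nonneg (by linarith) (by linarith)
    linarith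
  have hzlow : K ^ 2 / (49 * kk ^ 2 * D ^ 2) ≤ 1 + 2 * om g k R - N.ta κ x q t := by
    refine le_trans ?_ hz
    have e1 : (Real.sqrt 2 + 2 * kk * (t - a)) ^ 2 ≤ (7 * kk * D') ^ 2 :=
      pow_le_pow_left₀ hpos1.le hta7 2
    have e2 : K ^ 2 / (49 * kk ^ 2 * D ^ 2) = 1 / (7 * kk * D') ^ 2 := by
      rw [hDK]
      have : D' ≠ 0 := by linarith
      have : K ≠ 0 := by linarith
      have : kk ≠ 0 := by linarith
      field_simp
      ring
    rw [e2]
    exact one_div_le_one_div_of_le (by positivity) e1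
  have hfin : 4 * BB k / D ^ 2 + 2 * om g k R < K ^ 2 / (49 * kk ^ 2 * D ^ 2) := by
    have e1 : D ≤ K ^ g * R := Dl_le_first hK hR1 (by omega)
    have e2 : 2 * om g k R * D ^ 2 ≤ 1 := by
      refine le_trans ?_ hom2
      apply mul_le_mul_of_nonneg_left _ (by positivity)
      exact pow_le_pow_left₀ hDpos.le e1 2
    have hkk2 : 0 < 49 * kk ^ 2 := by positivity
    have e3 : 4 * BB k + 1 < K ^ 2 / (49 * kk ^ 2) := by
      rw [lt_div_iff₀ hkk2]
      linarith
    have e4 : K ^ 2 / (49 * kk ^ 2 * D ^ 2) = K ^ 2 / (49 * kk ^ 2) / D ^ 2 := by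
      rw [div_div]
    rw [e4, div_add' _ _ _ (by positivity)]
    apply div_lt_div_of_pos_right _ (by positivity)
    linarith
  -- conclusion
  have hkey : 0 < x t (N.par q i) ^ 2 := by
    rcases Nat.eq_zero_or_pos (N.lv (N.par q i)) with h0 | h0
    · have hq1 : N.ql q = 1 := by
        have := N.lv_par q i
        omega
      rw [hsq1 t ht q i hq1]
      have hB : 0 ≤ 4 * BB k / D ^ 2 := by
        unfold BB
        positivity
      linarith
    · obtain ⟨q', b, hqb⟩ := N.chi_surj _ h0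
      rw [← hqb, hsq4 t ht q' b q i hqb.symm]
      have hlq : N.ql q' = j := by
        have e1 := N.lv_chi q' b
        rw [hqb] at e1
        have e2 := N.lv_par q i
        omega
      have hst' : st g K R (N.ql q') ≤ t := by
        rw [hlq]
        linarith
      have e1 := (hFill R hRb M Q N κ x hrun t ht hnn q' hst').2.2
      unfold FillAt at e1
      rw [hlq] at e1
      have e2 := e1 (by linarith)
      have e3 : D / 2 ≤ min (t - st g K R j) (D / 2) := by
        apply le_min _ (le_refl _)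
        linarith
      have e4 : BB k / min (t - st g K R j) (D / 2) ^ 2 ≤ 4 * BB k / D ^ 2 := by
        have hB : 0 ≤ BB k := by
          unfold BB
          positivity
        calc BB k / min (t - st g K R j) (D / 2) ^ 2 ≤ BB k / (D / 2) ^ 2 := by
              apply div_le_div_of_nonneg_left hB (by positivity)
              exact pow_le_pow_left₀ (by linarith) e3 2
          _ = 4 * BB k / D ^ 2 := by
              field_simp
              ring
      have e5 := sq_nonneg (x 0 (N.chi q' b))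
      linarith
  have hge : 0 ≤ x t (N.par q i) := hnn t ⟨ht.1, le_refl t⟩ _
  rcases hge.lt_or_eq with h | h
  · exact h
  · rw [← h] at hkey
    norm_num at hkey

end GKdV
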