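import Pool.Agent.Lib.MP_cb0de5_an.SpecC

/-!
# C0d: the coefficients of the fourth power
-/

open MeasureTheory Filter Topology Set

noncomputable section

namespace GKdV

namespace Pow4

theorem mulsum {α β : Type} (s : Finset α) (t : Finset β) (g : α → LP) (h : β → LP) :
    (∑ a ∈ s, g a) * (∑ b ∈ t, h b) = ∑ p ∈ s ×ˢ t, g p.1 * h p.2 := by
  rw [Finset.sum_mul_sum, Finset.sum_product]

theorem rep (Λ : Finset ℤ) (f : LP) (hf : ∀ n ∉ Λ, f.coeff n = 0) :
    f = ∑ m ∈ Λ, AddMonoidAlgebra.single m (f.coeff m) := by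
  apply AddMonoidAlgebra.coeff_injective
  ext k
  rw [AddMonoidAlgebra.coeff_sum, Finsupp.finsetSum_apply]
  simp only [AddMonoidAlgebra.coeff_single, Finsupp.single_apply]
  rw [Finset.sum_ite_eq']
  split_ifs with h
  · rfl
  · exact hf k h

end Pow4

open Pow4 in
theorem pow4Stmt (h1 : AlgFacts) : Pow4Stmt := by
  intro Λ f hf n
  have hF := rep Λ f hf
  have hpow : f ^ 4 = ∑ p ∈ Λ ×ˢ Λ ×ˢ Λ ×ˢ Λ,
      AddMonoidAlgebra.single (p.1 + (p.2.1 + (p.2.2.1 + p.2.2.2)))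
        (f.coeff p.1 * (f.coeff p.2.1 * (f.coeff p.2.2.1 * f.coeff p.2.2.2))) := by
    have e1 : f ^ 4 = f * (f * (f * f)) := by ring
    have e2 : f * (f * (f * f)) =
        (∑ m ∈ Λ, AddMonoidAlgebra.single m (f.coeff m)) *
        ((∑ m ∈ Λ, AddMonoidAlgebra.single m (f.coeff m)) *
        ((∑ m ∈ Λ, AddMonoidAlgebra.single m (f.coeff m)) *
        (∑ m ∈ Λ, AddMonoidAlgebra.single m (f.coeff m)))) := by
      rw [← hF]
    rw [e1, e2, mulsum, mulsum, mulsum]
    apply Finset.sum_congr rfl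
    intro p _
    rw [AddMonoidAlgebra.single_mul_single, AddMonoidAlgebra.single_mul_single,
      AddMonoidAlgebra.single_mul_single]
  rw [hpow, AddMonoidAlgebra.coeff_sum, Finsupp.finsetSum_apply, Finset.sum_filter]
  apply Finset.sum_congr rfl
  intro p _
  rw [AddMonoidAlgebra.coeff_single, Finsupp.single_apply]
  have e3 : p.1 + (p.2.1 + (p.2.2.1 + p.2.2.2)) = p.1 + p.2.1 + p.2.2.1 + p.2.2.2 := by ring
  rw [e3]
  split_ifs with h
  · ring
  · rfl

end GKdV
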