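import Pool.Agent.Lib.MP_cb0de5_an.SpecB

/-!
# The resonant sum of an arithmetic network
-/

open Finset

noncomputable section

namespace GKdV

namespace ResSum

variable {g : ℕ} {M Q : Type}

/-- the five modes of a quintet -/
def node (N : Net g M Q) (q : Q) : Fin 5 → M :=
  ![N.par q 0, N.par q 1, N.par q 2, N.chi q 0, N.chi q 1]

/-- the signs of the modes of a quintet -/
def sg : Fin 5 → ℤ := ![1, 1, 1, -1, -1]

/-- the signed frequencies of a quintet -/
def sq (N : Net g M Q) (f : M → ℤ) (q : Q) (j : Fin 5) : ℤ := sg j * f (node N q j)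

/-- the other four signed frequencies -/
def ww (N : Net g M Q) (f : M → ℤ) (x : Q × Fin 5) (i : Fin 4) : ℤ :=
  -sg x.2 * sq N f x.1 (x.2.succAbove i)

lemma cases5 (j : Fin 5) :
    (∃ i : Fin 3, j = Fin.castAdd 2 i) ∨ (∃ b : Fin 2, j = Fin.natAdd 3 b) := by
  fin_cases j
  · exact Or.inl ⟨0, rfl⟩
  · exact Or.inl ⟨1, rfl⟩
  · exact Or.inl ⟨2, rfl⟩
  · exact Or.inr ⟨0, rfl⟩
  · exact Or.inr ⟨1, rfl⟩

lemma node_par (N : Net g M Q) (q : Q) (i : Fin 3) : node N q (Fin.castAdd 2 i) = N.par q i := by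
  fin_cases i <;> rfl

lemma node_chi (N : Net g M Q) (q : Q) (b : Fin 2) : node N q (Fin.natAdd 3 b) = N.chi q b := by
  fin_cases b <;> rfl

lemma sg_par (i : Fin 3) : sg (Fin.castAdd 2 i) = 1 := by fin_cases i <;> rfl

lemma sg_chi (b : Fin 2) : sg (Fin.natAdd 3 b) = -1 := by fin_cases b <;> rfl

lemma sg_or (j : Fin 5) : sg j = 1 ∨ sg j = -1 := by
  rcases cases5 j with ⟨i, rfl⟩ | ⟨b, rfl⟩
  · exact Or.inl (sg_par i)
  · exact Or.inr (sg_chi b)

lemma sg_mul (j : Fin 5) : sg j * sg j = 1 := by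
  rcases sg_or j with h | h <;> rw [h] <;> norm_num

lemma node_inj (N : Net g M Q) {q q' : Q} {j j' : Fin 5} (h : node N q j = node N q' j')
    (hs : sg j = sg j') : q = q' ∧ j = j' := by
  rcases cases5 j with ⟨i, rfl⟩ | ⟨b, rfl⟩ <;> rcases cases5 j' with ⟨i', rfl⟩ | ⟨b', rfl⟩
  · rw [node_par, node_par] at h
    obtain ⟨h1, h2⟩ := N.par_inj _ _ _ _ h
    exact ⟨h1, by rw [h2]⟩
  · rw [sg_par, sg_chi] at hs
    norm_num at hs
  · rw [sg_par, sg_chi] at hs
    norm_num at hs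
  · rw [node_chi, node_chi] at h
    obtain ⟨h1, h2⟩ := N.chi_inj _ _ _ _ h
    exact ⟨h1, by rw [h2]⟩

lemma node_inj' (N : Net g M Q) {q : Q} {j j' : Fin 5} (h : node N q j = node N q j') :
    j = j' := by
  rcases cases5 j with ⟨i, rfl⟩ | ⟨b, rfl⟩ <;> rcases cases5 j' with ⟨i', rfl⟩ | ⟨b', rfl⟩
  · exact (node_inj N h (by rw [sg_par, sg_par])).2
  · exfalso
    rw [node_par, node_chi] at h
    have h1 := N.lv_par q i
    have h2 := N.lv_chi q b'
    rw [h] at h1
    omega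
  · exfalso
    rw [node_par, node_chi] at h
    have h1 := N.lv_par q i'
    have h2 := N.lv_chi q b
    rw [← h] at h1
    omega
  · exact (node_inj N h (by rw [sg_chi, sg_chi])).2

lemma abs_ww {N : Net g M Q} {f : M → ℤ} (hf : IsArith N f) (x : Q × Fin 5) (i : Fin 4) :
    |ww N f x i| = f (node N x.1 (x.2.succAbove i)) := by
  unfold ww sq
  have h := hf.pos (node N x.1 (x.2.succAbove i))
  rcases sg_or x.2 with h1 | h1 <;> rcases sg_or (x.2.succAbove i) with h2 | h2 <;>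
    rw [h1, h2] <;> simp [abs_of_pos h]

lemma ww_inj {N : Net g M Q} {f : M → ℤ} (hf : IsArith N f) (x : Q × Fin 5) :
    Function.Injective (ww N f x) := by
  intro i i' h
  have h1 : |ww N f x i| = |ww N f x i'| := by rw [h]
  rw [abs_ww hf, abs_ww hf] at h1
  exact Fin.succAbove_right_injective (node_inj' N (hf.inj h1))

lemma sign_ww {N : Net g M Q} {f : M → ℤ} (hf : IsArith N f) (x : Q × Fin 5) (i : Fin 4) :
    Int.sign (ww N f x i) = -sg x.2 * sg (x.2.succAbove i) := by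
  unfold ww sq
  have h := hf.pos (node N x.1 (x.2.succAbove i))
  rcases sg_or x.2 with h1 | h1 <;> rcases sg_or (x.2.succAbove i) with h2 | h2 <;>
    rw [h1, h2] <;> simp [Int.sign_eq_one_of_pos h]

lemma sum_sg (j : Fin 5) : ∑ i : Fin 4, (-sg j * sg (j.succAbove i)) = 1 - sg j := by
  fin_cases j <;> decide

lemma sum_sign {N : Net g M Q} {f : M → ℤ} (hf : IsArith N f) (x : Q × Fin 5)
    (σ : Equiv.Perm (Fin 4)) : ∑ i, Int.sign (ww N f x (σ i)) = 1 - sg x.2 := by
  rw [Equiv.sum_comp σ (fun i => Int.sign (ww N f x i)), ← sum_sg x.2]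
  exact Finset.sum_congr rfl fun i _ => sign_ww hf x i

lemma sum_sq {N : Net g M Q} {f : M → ℤ} (hf : IsArith N f) (q : Q) :
    ∑ i, sq N f q i = 0 := by
  have h := hf.lin q
  rw [Fin.sum_univ_five]
  show 1 * f (N.par q 0) + 1 * f (N.par q 1) + 1 * f (N.par q 2) + (-1) * f (N.chi q 0) +
    (-1) * f (N.chi q 1) = 0
  linarith

lemma sum_cube {N : Net g M Q} {f : M → ℤ} (hf : IsArith N f) (q : Q) :
    ∑ i, sq N f q i ^ 3 = 0 := by
  have h := hf.cub q
  rw [Fin.sum_univ_five]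
  show (1 * f (N.par q 0)) ^ 3 + (1 * f (N.par q 1)) ^ 3 + (1 * f (N.par q 2)) ^ 3 +
    ((-1) * f (N.chi q 0)) ^ 3 + ((-1) * f (N.chi q 1)) ^ 3 = 0
  linear_combination h

lemma sum_ww {N : Net g M Q} {f : M → ℤ} (hf : IsArith N f) (x : Q × Fin 5) :
    ∑ i, ww N f x i = f (node N x.1 x.2) := by
  have h := sum_sq hf x.1
  rw [Fin.sum_univ_succAbove _ x.2] at h
  unfold ww
  rw [← Finset.mul_sum]
  have h2 : sq N f x.1 x.2 = sg x.2 * f (node N x.1 x.2) := rfl
  rw [h2] at h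
  have h3 := sg_mul x.2
  linear_combination (-sg x.2) * h + f (node N x.1 x.2) * h3

lemma sum_ww3 {N : Net g M Q} {f : M → ℤ} (hf : IsArith N f) (x : Q × Fin 5) :
    ∑ i, ww N f x i ^ 3 = f (node N x.1 x.2) ^ 3 := by
  have h := sum_cube hf x.1
  rw [Fin.sum_univ_succAbove _ x.2] at h
  have h0 : ∑ i, ww N f x i ^ 3 = (-sg x.2) ^ 3 * ∑ i, sq N f x.1 (x.2.succAbove i) ^ 3 := by
    rw [Finset.mul_sum]
    exact Finset.sum_congr rfl fun i _ => by unfold ww; ring
  rw [h0]
  have h2 : sq N f x.1 x.2 = sg x.2 * f (node N x.1 x.2) := rfl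
  rw [h2] at h
  rcases sg_or x.2 with h1 | h1 <;> rw [h1] at h ⊢ <;> linarith

lemma exists_perm {n : ℕ} (p w : Fin n → ℤ) (hw : Function.Injective w)
    (h : (univ : Finset (Fin n)).val.map p = (univ : Finset (Fin n)).val.map w) :
    ∃ σ : Equiv.Perm (Fin n), ∀ i, p i = w (σ i) := by
  have hnd : ((univ : Finset (Fin n)).val.map p).Nodup := by
    rw [h]
    exact Multiset.Nodup.map hw univ.nodup
  have hp : Function.Injective p := fun i i' hi =>
    Multiset.inj_on_of_nodup_map hnd i (Finset.mem_univ_val i) i' (Finset.mem_univ_val i') hi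
  have hmem : ∀ i, ∃ k, w k = p i := by
    intro i
    have h1 : p i ∈ (univ : Finset (Fin n)).val.map p :=
      Multiset.mem_map_of_mem p (Finset.mem_univ_val i)
    rw [h] at h1
    obtain ⟨k, _, hk⟩ := Multiset.mem_map.1 h1
    exact ⟨k, hk⟩
  choose s hs using hmem
  have hsi : Function.Injective s := by
    intro i i' hi
    apply hp
    rw [← hs i, ← hs i', hi]
  exact ⟨Equiv.ofBijective s (Finite.injective_iff_bijective.1 hsi), fun i => (hs i).symm⟩

lemma map_univ5 (G : Fin 5 → ℤ) (j : Fin 5) :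
    (univ : Finset (Fin 5)).val.map G =
      G j ::ₘ (univ : Finset (Fin 4)).val.map (fun i => G (j.succAbove i)) := by
  rw [Fin.univ_succAbove 4 j, Finset.cons_val, Multiset.map_cons, Finset.map_val,
    Multiset.map_map]
  rfl

lemma mem_lam [Fintype M] {N : Net g M Q} {f : M → ℤ} (hf : IsArith N f) {a : ℤ} :
    a ∈ lam f ↔ ∃ m, |a| = f m := by
  unfold lam
  simp only [Finset.mem_union, Finset.mem_image, Finset.mem_univ, true_and]
  constructor
  · rintro (⟨m, rfl⟩ | ⟨m, rfl⟩)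
    · exact ⟨m, abs_of_pos (hf.pos m)⟩
    · exact ⟨m, by rw [abs_neg, abs_of_pos (hf.pos m)]⟩
  · rintro ⟨m, hm⟩
    rcases abs_choice a with h | h
    · exact Or.inl ⟨m, by rw [← hm, h]⟩
    · exact Or.inr ⟨m, by rw [← hm, h, neg_neg]⟩

end ResSum

open ResSum

theorem resSumStmt : ResSumStmt := by
  intro g M Q _ _ _ N f hf A hA m
  classical
  have key : ∑ p ∈ (lam f ×ˢ lam f ×ˢ lam f ×ˢ lam f).filter
      (fun p => p.1 + p.2.1 + p.2.2.1 + p.2.2.2 = f m ∧
        p.1 ^ 3 + p.2.1 ^ 3 + p.2.2.1 ^ 3 + p.2.2.2 ^ 3 = f m ^ 3),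
      A p.1 * A p.2.1 * A p.2.2.1 * A p.2.2.2 =
      ∑ y ∈ ((univ : Finset (Q × Fin 5)).filter (fun x => node N x.1 x.2 = m)) ×ˢ
        (univ : Finset (Equiv.Perm (Fin 4))), ∏ i, A (ww N f y.1 i) := by
    symm
    refine Finset.sum_nbij (fun y => (ww N f y.1 (y.2 0), ww N f y.1 (y.2 1), ww N f y.1 (y.2 2),
      ww N f y.1 (y.2 3))) ?_ ?_ ?_ ?_
    · rintro ⟨x, σ⟩ hy
      simp only [Finset.mem_product, Finset.mem_filter, Finset.mem_univ, true_and, and_true] at hy
      have hl : ∀ i, ww N f x i ∈ lam f := fun i => (mem_lam hf).2 ⟨_, abs_ww hf x i⟩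
      simp only [Finset.mem_filter, Finset.mem_product]
      refine ⟨⟨hl _, hl _, hl _, hl _⟩, ?_, ?_⟩
      · have h1 := sum_ww hf x
        rw [hy, ← Equiv.sum_comp σ, Fin.sum_univ_four] at h1
        exact h1
      · have h1 := sum_ww3 hf x
        rw [hy, ← Equiv.sum_comp σ, Fin.sum_univ_four] at h1
        exact h1
    · rintro ⟨x, σ⟩ hy ⟨x', σ'⟩ hy' h
      simp only [Finset.coe_product, Set.mem_prod, Finset.mem_coe, Finset.mem_filter,
        Finset.mem_univ, true_and, and_true] at hy hy'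
      simp only [Prod.mk.injEq] at h
      obtain ⟨h0, h1, h2, h3⟩ := h
      have hall : ∀ i, ww N f x (σ i) = ww N f x' (σ' i) := by
        intro i
        fin_cases i
        · exact h0
        · exact h1
        · exact h2
        · exact h3
      have hs : sg x.2 = sg x'.2 := by
        have e1 := sum_sign hf x σ
        have e2 := sum_sign hf x' σ'
        have e3 : ∑ i, Int.sign (ww N f x (σ i)) = ∑ i, Int.sign (ww N f x' (σ' i)) :=
          Finset.sum_congr rfl fun i _ => by rw [hall]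
        rw [e1, e2] at e3
        linarith
      obtain ⟨e1, e2⟩ := node_inj N (hy.trans hy'.symm) hs
      have hx : x = x' := Prod.ext e1 e2
      subst hx
      have hσ : σ = σ' := by
        ext i
        rw [ww_inj hf x (hall i)]
      rw [hσ]
    · intro p hp
      simp only [Finset.coe_filter, Finset.mem_product, Set.mem_ofPred_eq] at hp
      obtain ⟨⟨m1, m2, m3, m4⟩, hs, hc⟩ := hp
      obtain ⟨q, e, he, hmul⟩ := hf.closed p.1 p.2.1 p.2.2.1 p.2.2.2 ((mem_lam hf).1 m1)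
        ((mem_lam hf).1 m2) ((mem_lam hf).1 m3) ((mem_lam hf).1 m4)
        (by rw [hs]; exact (hf.pos m).ne') (by rw [hc, hs])
      rw [hs] at hmul
      have hR : ({e * f (N.par q 0), e * f (N.par q 1), e * f (N.par q 2),
          -(e * f (N.chi q 0)), -(e * f (N.chi q 1))} : Multiset ℤ) =
          (univ : Finset (Fin 5)).val.map (fun i => e * sq N f q i) := by
        have h5 : (univ : Finset (Fin 5)).val.map (fun i => e * sq N f q i) =
          {e * (1 * f (N.par q 0)), e * (1 * f (N.par q 1)), e * (1 * f (N.par q 2)),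
            e * ((-1) * f (N.chi q 0)), e * ((-1) * f (N.chi q 1))} := rfl
        rw [h5]
        simp only [one_mul, neg_mul, mul_neg]
      have hL : ({p.1, p.2.1, p.2.2.1, p.2.2.2, -(f m)} : Multiset ℤ) =
          (-(f m)) ::ₘ {p.1, p.2.1, p.2.2.1, p.2.2.2} :=
        Multiset.coe_eq_coe.2 (List.perm_append_singleton (-(f m)) [p.1, p.2.1, p.2.2.1, p.2.2.2])
      rw [hR, hL] at hmul
      have hmem : -(f m) ∈ (univ : Finset (Fin 5)).val.map (fun i => e * sq N f q i) := by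
        rw [← hmul]
        exact Multiset.mem_cons_self _ _
      obtain ⟨j, _, hj⟩ := Multiset.mem_map.1 hmem
      have hpm := hf.pos m
      have hpn := hf.pos (node N q j)
      have hej : e = -sg j ∧ f m = f (node N q j) := by
        have hj' : e * (sg j * f (node N q j)) = -(f m) := hj
        rcases he with he | he <;> rcases sg_or j with h1 | h1 <;> rw [he, h1] at hj' ⊢ <;>
          constructor <;> linarith
      obtain ⟨he1, he2⟩ := hej
      have hnode : node N q j = m := (hf.inj he2).symm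
      rw [map_univ5 _ j, hj, Multiset.cons_inj_right] at hmul
      obtain ⟨σ, hσ⟩ := exists_perm ![p.1, p.2.1, p.2.2.1, p.2.2.2] (ww N f (q, j))
        (ww_inj hf (q, j)) (by
          have h6 : (univ : Finset (Fin 4)).val.map ![p.1, p.2.1, p.2.2.1, p.2.2.2] =
            {p.1, p.2.1, p.2.2.1, p.2.2.2} := rfl
          rw [h6, hmul]
          unfold ww
          rw [he1])
      refine ⟨((q, j), σ), ?_, ?_⟩
      · simp only [Finset.coe_product, Set.mem_prod, Finset.mem_coe, Finset.mem_filter,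
          Finset.mem_univ, true_and, and_true]
        exact hnode
      · have h0 := hσ 0
        have h1 := hσ 1
        have h2 := hσ 2
        have h3 := hσ 3
        simp only
        rw [← h0, ← h1, ← h2, ← h3]
        rfl
    · rintro ⟨x, σ⟩ _
      simp only
      rw [← Equiv.prod_comp σ, Fin.prod_univ_four]
  rw [key, Finset.sum_product]
  have h24 : ∀ x : Q × Fin 5, ∑ _σ : Equiv.Perm (Fin 4), ∏ i, A (ww N f x i) =
      24 * ∏ i, A (ww N f x i) := by
    intro x
    rw [Finset.sum_const, nsmul_eq_mul, Finset.card_univ, Fintype.card_perm, Fintype.card_fin]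
    norm_num [Nat.factorial]
  rw [Finset.sum_congr rfl fun x _ => h24 x, ← Finset.mul_sum, Finset.sum_filter,
    Fintype.sum_prod_type]
  congr 1
  refine Finset.sum_congr rfl fun q _ => ?_
  rw [Fin.sum_univ_five]
  have p0 : ∏ i, A (ww N f (q, 0) i) = (starRingEnd ℂ) (A (f (N.par q 1))) *
      (starRingEnd ℂ) (A (f (N.par q 2))) * A (f (N.chi q 0)) * A (f (N.chi q 1)) := by
    rw [Fin.prod_univ_four, ← hA, ← hA]
    have w0 : ww N f (q, 0) 0 = -1 * (1 * f (N.par q 1)) := rfl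
    have w1 : ww N f (q, 0) 1 = -1 * (1 * f (N.par q 2)) := rfl
    have w2 : ww N f (q, 0) 2 = -1 * (-1 * f (N.chi q 0)) := rfl
    have w3 : ww N f (q, 0) 3 = -1 * (-1 * f (N.chi q 1)) := rfl
    rw [w0, w1, w2, w3]
    simp
  have p1 : ∏ i, A (ww N f (q, 1) i) = (starRingEnd ℂ) (A (f (N.par q 0))) *
      (starRingEnd ℂ) (A (f (N.par q 2))) * A (f (N.chi q 0)) * A (f (N.chi q 1)) := by
    rw [Fin.prod_univ_four, ← hA, ← hA]
    have w0 : ww N f (q, 1) 0 = -1 * (1 * f (N.par q 0)) := rfl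
    have w1 : ww N f (q, 1) 1 = -1 * (1 * f (N.par q 2)) := rfl
    have w2 : ww N f (q, 1) 2 = -1 * (-1 * f (N.chi q 0)) := rfl
    have w3 : ww N f (q, 1) 3 = -1 * (-1 * f (N.chi q 1)) := rfl
    rw [w0, w1, w2, w3]
    simp
  have p2 : ∏ i, A (ww N f (q, 2) i) = (starRingEnd ℂ) (A (f (N.par q 0))) *
      (starRingEnd ℂ) (A (f (N.par q 1))) * A (f (N.chi q 0)) * A (f (N.chi q 1)) := by
    rw [Fin.prod_univ_four, ← hA, ← hA]
    have w0 : ww N f (q, 2) 0 = -1 * (1 * f (N.par q 0)) := rfl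
    have w1 : ww N f (q, 2) 1 = -1 * (1 * f (N.par q 1)) := rfl
    have w2 : ww N f (q, 2) 2 = -1 * (-1 * f (N.chi q 0)) := rfl
    have w3 : ww N f (q, 2) 3 = -1 * (-1 * f (N.chi q 1)) := rfl
    rw [w0, w1, w2, w3]
    simp
  have p3 : ∏ i, A (ww N f (q, 3) i) = A (f (N.par q 0)) * A (f (N.par q 1)) *
      A (f (N.par q 2)) * (starRingEnd ℂ) (A (f (N.chi q 1))) := by
    rw [Fin.prod_univ_four, ← hA]
    have w0 : ww N f (q, 3) 0 = -(-1) * (1 * f (N.par q 0)) := rfl
    have w1 : ww N f (q, 3) 1 = -(-1) * (1 * f (N.par q 1)) := rfl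
    have w2 : ww N f (q, 3) 2 = -(-1) * (1 * f (N.par q 2)) := rfl
    have w3 : ww N f (q, 3) 3 = -(-1) * (-1 * f (N.chi q 1)) := rfl
    rw [w0, w1, w2, w3]
    simp
  have p4 : ∏ i, A (ww N f (q, 4) i) = A (f (N.par q 0)) * A (f (N.par q 1)) *
      A (f (N.par q 2)) * (starRingEnd ℂ) (A (f (N.chi q 0))) := by
    rw [Fin.prod_univ_four, ← hA]
    have w0 : ww N f (q, 4) 0 = -(-1) * (1 * f (N.par q 0)) := rfl
    have w1 : ww N f (q, 4) 1 = -(-1) * (1 * f (N.par q 1)) := rfl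
    have w2 : ww N f (q, 4) 2 = -(-1) * (1 * f (N.par q 2)) := rfl
    have w3 : ww N f (q, 4) 3 = -(-1) * (-1 * f (N.chi q 0)) := rfl
    rw [w0, w1, w2, w3]
    simp
  rw [p0, p1, p2, p3, p4]
  have n0 : node N q 0 = N.par q 0 := rfl
  have n1 : node N q 1 = N.par q 1 := rfl
  have n2 : node N q 2 = N.par q 2 := rfl
  have n3 : node N q 3 = N.chi q 0 := rfl
  have n4 : node N q 4 = N.chi q 1 := rfl
  simp only [n0, n1, n2, n3, n4]
  ring

end GKdV
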