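import Pool.Agent.Lib.MP_cb0de5_an.SpecD

/-!
# Restriction of a solution to a shorter time interval
-/

open MeasureTheory Filter Topology Set

noncomputable section

namespace GKdV

/-- **D3e**: a solution on `[0, T]` restricts to a solution on `[0, T']`, `0 < T' ≤ T`. -/
theorem restrictStmt : RestrictStmt := by
  intro k σ s T T' u hT' hTT' hu
  have hsub : Icc (0 : ℝ) T' ⊆ Icc 0 T := Icc_subset_Icc_right hTT'
  refine ⟨fun t ht => hu.mem t (hsub ht), fun t ht => ?_, fun t ht => hu.pow_int t (hsub ht),
    fun t ht => ?_, fun φ hφ => ?_⟩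
  · exact (hu.cont t (hsub ht)).mono_left (nhdsWithin_mono _ hsub)
  · exact (hu.pow_cont t (hsub ht)).mono_left (nhdsWithin_mono _ hsub)
  · obtain ⟨a, b, ha, hb, hab⟩ := hφ.supp
    have hφT : IsTest T φ := ⟨hφ.smooth, hφ.periodic, a, b, ha, lt_of_lt_of_le hb hTT', hab⟩
    have h0 := hu.eqn φ hφT
    have hvan : ∀ t, t ∉ Icc a b → ∀ x,
        (u t x * (deriv (fun τ => φ τ x) t + iteratedDeriv 3 (φ t) x)
          + σ * u t x ^ k * deriv (φ t) x) = 0 := by
      intro t ht x
      have h1 : deriv (fun τ => φ τ x) t = 0 := by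
        have hev : (fun τ => φ τ x) =ᶠ[𝓝 t] fun _ => 0 := by
          filter_upwards [isClosed_Icc.isOpen_compl.mem_nhds ht] with τ hτ
          exact hab τ hτ x
        rw [hev.deriv_eq]
        simp
      have h2 : φ t = fun _ => 0 := by
        funext y
        exact hab t ht y
      have h3 : iteratedDeriv 3 (φ t) x = 0 := by
        rw [h2]
        simp
      have h4 : deriv (φ t) x = 0 := by
        rw [h2]
        simp
      rw [h1, h3, h4]
      ring
    rw [intervalIntegral.integral_of_le (hT'.le.trans hTT')] at h0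
    rw [intervalIntegral.integral_of_le hT'.le]
    refine Eq.trans (Eq.symm ?_) h0
    refine setIntegral_eq_of_subset_of_forall_sdiff_eq_zero measurableSet_Ioc
      (Ioc_subset_Ioc_right hTT') ?_
    intro t ht
    have ht' : t ∉ Icc a b := by
      intro hmem
      apply ht.2
      exact ⟨ht.1.1, hmem.2.trans hb.le⟩
    have : ∀ x, (u t x * (deriv (fun τ => φ τ x) t + iteratedDeriv 3 (φ t) x)
          + σ * u t x ^ k * deriv (φ t) x) = 0 := hvan t ht'
    simp only [this]
    simp

end GKdV
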