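import Pool.Agent.Lib.MP_cb0de5_an.SpecA

/-!
# Existence of the run
-/

open MeasureTheory Filter Topology Set

noncomputable section

namespace GKdV

namespace RunExists

variable {g : ℕ} {M Q : Type}

/-- square roots of the weights -/
def cw (N : Net g M Q) (m : M) : ℝ := √((3 / 2 : ℝ) ^ N.lv m)

theorem cw_pos (N : Net g M Q) (m : M) : 0 < cw N m := Real.sqrt_pos.mpr (by positivity)

theorem cw_sq (N : Net g M Q) (m : M) : cw N m * cw N m = (3 / 2 : ℝ) ^ N.lv m :=
  Real.mul_self_sqrt (by positivity)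

/-- the initial values -/
def ini [DecidableEq M] [Fintype Q] (N : Net g M Q) (κ : Q → ℝ) (kk K R : ℝ) (m : M) : ℝ :=
  if h : 0 < N.lv m then
    if (N.chi_surj m h).choose_spec.choose = 0 then
      Real.exp (-(κ (N.chi_surj m h).choose * Dl g K R (N.ql (N.chi_surj m h).choose)))
    else Real.exp (-(kk * Dl g K R 1))
  else 1

set_option linter.unusedSectionVars false

variable [Fintype M] [DecidableEq M] [Fintype Q]

theorem ini_zero (N : Net g M Q) (κ : Q → ℝ) (kk K R : ℝ) (m : M) (h : N.lv m = 0) :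
    ini N κ kk K R m = 1 := by
  rw [ini, dif_neg]
  omega

theorem lv_chi_pos (N : Net g M Q) (q : Q) (b : Fin 2) : 0 < N.lv (N.chi q b) := by
  have h1 := N.lv_chi q b
  have h2 := N.lv_par q 0
  omega

theorem ini_chi0 (N : Net g M Q) (κ : Q → ℝ) (kk K R : ℝ) (q : Q) :
    ini N κ kk K R (N.chi q 0) = Real.exp (-(κ q * Dl g K R (N.ql q))) := by
  have h := lv_chi_pos N q 0
  have hs := N.chi_inj _ _ _ _ (N.chi_surj (N.chi q 0) h).choose_spec.choose_spec
  rw [ini, dif_pos h, if_pos hs.2, hs.1]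

theorem ini_chi1 (N : Net g M Q) (κ : Q → ℝ) (kk K R : ℝ) (q : Q) :
    ini N κ kk K R (N.chi q 1) = Real.exp (-(kk * Dl g K R 1)) := by
  have h := lv_chi_pos N q 1
  have hs := N.chi_inj _ _ _ _ (N.chi_surj (N.chi q 1) h).choose_spec.choose_spec
  rw [ini, dif_pos h, if_neg]
  rw [hs.2]
  decide

/-- the values of the modes -/
def val (N : Net g M Q) (z : EuclideanSpace ℝ M) (m : M) : ℝ := z m / cw N m

/-- the weighted field -/
def FE (N : Net g M Q) (κ : Q → ℝ) (z : EuclideanSpace ℝ M) : EuclideanSpace ℝ M :=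
  WithLp.toLp 2 fun m => cw N m * N.field κ (val N z) m

theorem contDiff_val (N : Net g M Q) (m : M) : ContDiff ℝ 1 fun z => val N z m := by
  unfold val
  exact (EuclideanSpace.proj m : EuclideanSpace ℝ M →L[ℝ] ℝ).contDiff.div_const _

theorem contDiff_FE (N : Net g M Q) (κ : Q → ℝ) : ContDiff ℝ 1 (FE N κ) := by
  rw [contDiff_euclidean]
  intro m
  change ContDiff ℝ 1 fun z => cw N m * N.field κ (val N z) m
  refine contDiff_const.mul ?_
  unfold Net.field
  refine ContDiff.sum fun q _ => contDiff_const.mul ?_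
  have hp : ∀ a b c d : M, ContDiff ℝ 1 fun z => val N z a * val N z b * val N z c * val N z d :=
    fun a b c d => (((contDiff_val N a).mul (contDiff_val N b)).mul (contDiff_val N c)).mul
      (contDiff_val N d)
  have hi : ∀ (p : Prop) [Decidable p] (a b c d : M), ContDiff ℝ 1 fun z =>
      if p then val N z a * val N z b * val N z c * val N z d else 0 := by
    intro p _ a b c d
    by_cases h : p
    · simp only [if_pos h]
      exact hp a b c d
    · simp only [if_neg h]
      exact contDiff_const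
  exact ((((hi _ _ _ _ _).add (hi _ _ _ _ _)).sub (hi _ _ _ _ _)).sub (hi _ _ _ _ _)).sub
    (hi _ _ _ _ _)

theorem skew_FE (h2 : NetAlgStmt) (N : Net g M Q) (κ : Q → ℝ) (z : EuclideanSpace ℝ M) :
    inner ℝ (FE N κ z) z = 0 := by
  obtain ⟨_, _, _, _, _, _, _, _, _, h⟩ := h2 g M Q N κ (val N z)
  rw [PiLp.inner_apply, ← h]
  refine Finset.sum_congr rfl fun m _ => ?_
  have h1 : (FE N κ z) m = cw N m * N.field κ (val N z) m := rfl
  have h3 : z m = cw N m * val N z m := by
    rw [val, mul_div_cancel₀ _ (cw_pos N m).ne']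
  rw [real_inner_eq_re_inner, ← cw_sq]
  simp only [RCLike.inner_apply, conj_trivial, RCLike.re_to_real]
  rw [h1, h3]
  ring

end RunExists

open RunExists in
theorem runExistsStmt (h1 : GlobStmt) (h2 : NetAlgStmt) : RunExistsStmt := by
  intro g M Q _ _ _ N κ k kk K R hk hkk hlo hhi hK hR
  obtain ⟨z, hz0, hz, _⟩ := h1 (EuclideanSpace ℝ M) (FE N κ) (contDiff_FE N κ) (skew_FE h2 N κ)
    (WithLp.toLp 2 fun m => cw N m * ini N κ kk K R m) (|st g K R (g + 1)| + 1) (by positivity)
  have hx0 : ∀ m, z 0 m / cw N m = ini N κ kk K R m := by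
    intro m
    rw [hz0]
    change cw N m * ini N κ kk K R m / cw N m = _
    rw [mul_div_cancel_left₀ _ (cw_pos N m).ne']
  refine ⟨fun t m => z t m / cw N m, hk, hkk, hlo, hhi, hK, hR, ?_, ?_, ?_, ?_⟩
  · intro t ht m
    have ht' : t ∈ Icc (-(|st g K R (g + 1)| + 1)) (|st g K R (g + 1)| + 1) := by
      have h3 := le_abs_self (st g K R (g + 1))
      have h4 := abs_nonneg (st g K R (g + 1))
      exact ⟨by linarith [ht.1], by linarith [ht.2]⟩
    have h3 := ((EuclideanSpace.proj m : EuclideanSpace ℝ M →L[ℝ] ℝ).hasFDerivAt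
      (x := z t)).comp_hasDerivAt t (hz t ht')
    have h4 := h3.div_const (cw N m)
    have h5 : (EuclideanSpace.proj m : EuclideanSpace ℝ M →L[ℝ] ℝ) (FE N κ (z t)) / cw N m =
        N.field κ (fun m => z t m / cw N m) m := by
      change cw N m * N.field κ (val N (z t)) m / cw N m = _
      rw [mul_div_cancel_left₀ _ (cw_pos N m).ne']
      rfl
    rw [h5] at h4
    exact h4
  · intro m hm
    change z 0 m / cw N m = 1
    rw [hx0, ini_zero N κ kk K R m hm]
  · intro q
    change z 0 (N.chi q 0) / cw N (N.chi q 0) = _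
    rw [hx0, ini_chi0]
  · intro q
    change z 0 (N.chi q 1) / cw N (N.chi q 1) = _
    rw [hx0, ini_chi1]

end GKdV
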