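import Pool.Agent.Lib.MP_cb0de5_an.SpecA

/-!
# A scalar differential inequality
-/

open MeasureTheory Filter Topology Set

noncomputable section

namespace GKdV

namespace ScalarFill

theorem mono_of_deriv {a b : ℝ} {f f' : ℝ → ℝ}
    (h : ∀ s ∈ Icc a b, HasDerivWithinAt f (f' s) (Icc a b) s) (h0 : ∀ s ∈ Icc a b, 0 ≤ f' s) :
    MonotoneOn f (Icc a b) := by
  refine monotoneOn_of_hasDerivWithinAt_nonneg (f' := f') (convex_Icc a b)
    (fun s hs => (h s hs).continuousWithinAt)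
    (fun s hs => (h s (interior_subset hs)).mono interior_subset)
    (fun s hs => h0 s (interior_subset hs))

/-- exponential growth -/
theorem exp_growth {a b c : ℝ} {τ τ' : ℝ → ℝ} (hab : a ≤ b)
    (h : ∀ s ∈ Icc a b, HasDerivWithinAt τ (τ' s) (Icc a b) s)
    (h0 : ∀ s ∈ Icc a b, c * τ s ≤ τ' s) : τ a * Real.exp (c * (b - a)) ≤ τ b := by
  have hd : ∀ s ∈ Icc a b, HasDerivWithinAt (fun s => τ s * Real.exp (-(c * (s - a))))
      (τ' s * Real.exp (-(c * (s - a))) + τ s * (Real.exp (-(c * (s - a))) * (-c)))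
      (Icc a b) s := by
    intro s hs
    refine (h s hs).mul ?_
    have h1 : HasDerivAt (fun s => -(c * (s - a))) (-c) s := by
      have h2 := ((hasDerivAt_id s).sub_const a).const_mul (-c)
      have h3 : (fun s => -(c * (s - a))) = fun s => -c * (id s - a) := by
        funext u
        simp
      rw [h3]
      simpa using h2
    exact (h1.exp).hasDerivWithinAt
  have hm := mono_of_deriv hd (fun s hs => by
    have h1 := h0 s hs
    have h2 := Real.exp_pos (-(c * (s - a)))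
    nlinarith)
  have h1 := hm (left_mem_Icc.mpr hab) (right_mem_Icc.mpr hab) hab
  simp only [sub_self, mul_zero, neg_zero, Real.exp_zero, mul_one] at h1
  have h2 := mul_le_mul_of_nonneg_right h1 (Real.exp_pos (c * (b - a))).le
  rw [mul_assoc (τ b), ← Real.exp_add] at h2
  simpa using h2

end ScalarFill

open ScalarFill in
theorem scalarFillStmt : ScalarFillStmt := by
  intro a b k m η τ τ' hab hk hm hm1 hη hη1 hd hτa hineq hτ' t ht htA hat
  have hmono : MonotoneOn τ (Icc a b) := mono_of_deriv hd hτ'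
  have hτpos : ∀ s ∈ Icc a b, m ≤ τ s := fun s hs =>
    hτa.trans (hmono (left_mem_Icc.mpr hab) hs hs.1)
  set A₁ : ℝ := Real.log (1 / m) / (7 / 20 * k) with hA₁
  have hlog : 0 ≤ Real.log (1 / m) := Real.log_nonneg (by rw [le_div_iff₀ hm]; linarith)
  have hA₁0 : 0 ≤ A₁ := by positivity
  -- phase 1
  have hp1 : 1 - η - τ (a + A₁) < 1 / 2 := by
    by_contra hcon
    push Not at hcon
    have hsmem : a + A₁ ∈ Icc a b := ⟨by linarith, by have := ht.2; linarith⟩
    have hsub : Icc a (a + A₁) ⊆ Icc a b := Icc_subset_Icc le_rfl hsmem.2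
    have hg : ∀ s ∈ Icc a (a + A₁), 7 / 20 * k * τ s ≤ τ' s := by
      intro s hs
      refine le_trans ?_ (hineq s (hsub hs))
      have hτs : τ s ≤ τ (a + A₁) := hmono (hsub hs) hsmem hs.2
      have hw : 1 / 2 ≤ max (1 - η - τ s) 0 := le_max_of_le_left (by linarith)
      have hτ0 : 0 < τ s := lt_of_lt_of_le hm (hτpos s (hsub hs))
      have h1 : (7 / 20 : ℝ) ≤ (max (1 - η - τ s) 0) ^ (3 / 2 : ℝ) := by
        have h2 : ((1 / 2 : ℝ)) ^ (3 / 2 : ℝ) ≤ (max (1 - η - τ s) 0) ^ (3 / 2 : ℝ) :=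
          Real.rpow_le_rpow (by norm_num) hw (by norm_num)
        refine le_trans ?_ h2
        have h3 : ((1 / 2 : ℝ)) ^ (3 / 2 : ℝ) = √(1 / 8) := by
          rw [Real.sqrt_eq_rpow]
          have : (1 / 8 : ℝ) = (1 / 2) ^ (3 : ℝ) := by
            rw [show (3 : ℝ) = ((3 : ℕ) : ℝ) by norm_num, Real.rpow_natCast]
            norm_num
          rw [this, ← Real.rpow_mul (by norm_num)]
          norm_num
        rw [h3]
        exact Real.le_sqrt_of_sq_le (by norm_num)
      have h4 : 0 < k * τ s := mul_pos hk hτ0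
      nlinarith
    have h1 := exp_growth (c := 7 / 20 * k) hsmem.1
      (fun s hs => (hd s (hsub hs)).mono hsub) hg
    have h2 : 7 / 20 * k * (a + A₁ - a) = Real.log (1 / m) := by
      rw [hA₁]
      field_simp
      ring
    rw [h2, Real.exp_log (by positivity)] at h1
    have h3 : m * (1 / m) ≤ τ a * (1 / m) :=
      mul_le_mul_of_nonneg_right hτa (by positivity)
    have h4 : m * (1 / m) = 1 := by field_simp
    linarith
  -- phase 2
  have hta : 0 < t - a := by linarith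
  have h67 : 0 ≤ 67 / (k ^ 2 * (t - a) ^ 2) := by positivity
  by_cases hwt : 1 - η - τ t ≤ 0
  · linarith
  push Not at hwt
  set t1 := a + A₁ with ht1
  have ht1t : t1 ≤ t := by linarith
  have hsub : Icc t1 t ⊆ Icc a b := Icc_subset_Icc (by linarith) ht.2
  have hw : ∀ s ∈ Icc t1 t, 0 < 1 - η - τ s ∧ 1 - η - τ s < 1 / 2 := by
    intro s hs
    constructor
    · have := hmono (hsub hs) ht hs.2
      linarith
    · have := hmono (hsub (left_mem_Icc.mpr ht1t)) (hsub hs) hs.1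
      linarith
  have hd2 : ∀ s ∈ Icc t1 t, HasDerivWithinAt
      (fun s => (1 - η - τ s) ^ (-(1 / 2) : ℝ) - 49 / 200 * k * s)
      ((-τ' s) * (-(1 / 2)) * (1 - η - τ s) ^ (-(1 / 2) - 1 : ℝ) - 49 / 200 * k)
      (Icc t1 t) s := by
    intro s hs
    have h1 : HasDerivWithinAt (fun s => 1 - η - τ s) (-τ' s) (Icc t1 t) s := by
      have := ((hd s (hsub hs)).mono hsub).const_sub (1 - η)
      simpa using this
    have h2 := h1.rpow_const (p := (-(1 / 2) : ℝ)) (Or.inl (hw s hs).1.ne')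
    refine h2.sub ?_
    have := ((hasDerivAt_id s).const_mul (49 / 200 * k)).hasDerivWithinAt (s := Icc t1 t)
    simpa using this
  have hm2 := mono_of_deriv hd2 (fun s hs => by
    obtain ⟨w0, w1⟩ := hw s hs
    have h1 := hineq s (hsub hs)
    rw [max_eq_left w0.le] at h1
    have h2 : (1 - η - τ s) ^ (3 / 2 : ℝ) * (1 - η - τ s) ^ (-(1 / 2) - 1 : ℝ) = 1 := by
      rw [← Real.rpow_add w0]
      norm_num
    have h3 : 0 < (1 - η - τ s) ^ (-(1 / 2) - 1 : ℝ) := Real.rpow_pos_of_pos w0 _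
    have h4 := mul_le_mul_of_nonneg_right h1 h3.le
    rw [mul_assoc (k * τ s), h2, mul_one] at h4
    have h5 : (49 / 100 : ℝ) ≤ τ s := by linarith
    have h6 : k * (49 / 100) ≤ k * τ s := mul_le_mul_of_nonneg_left h5 hk.le
    linarith)
  have h1 := hm2 (left_mem_Icc.mpr ht1t) (right_mem_Icc.mpr ht1t) ht1t
  simp only at h1
  have h2 : 0 < (1 - η - τ t1) ^ (-(1 / 2) : ℝ) :=
    Real.rpow_pos_of_pos (hw t1 (left_mem_Icc.mpr ht1t)).1 _
  have h3 : 49 / 200 * k * (t - t1) ≤ (1 - η - τ t) ^ (-(1 / 2) : ℝ) := by linarith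
  have h4 : (t - a) / 2 ≤ t - t1 := by rw [ht1]; linarith
  have h5 : 49 / 400 * k * (t - a) ≤ (1 - η - τ t) ^ (-(1 / 2) : ℝ) := by
    refine le_trans ?_ h3
    have := mul_le_mul_of_nonneg_left h4 (show 0 ≤ 49 / 200 * k by positivity)
    linarith
  have h6 : (49 / 400 * k * (t - a)) ^ 2 ≤ ((1 - η - τ t) ^ (-(1 / 2) : ℝ)) ^ 2 :=
    pow_le_pow_left₀ (by positivity) h5 2
  have h7 : ((1 - η - τ t) ^ (-(1 / 2) : ℝ)) ^ 2 = (1 - η - τ t)⁻¹ := by
    rw [← Real.rpow_natCast, ← Real.rpow_mul hwt.le]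
    norm_num
    rw [Real.rpow_neg_one]
  rw [h7] at h6
  have h8 : (49 / 400 * k * (t - a)) ^ 2 * (1 - η - τ t) ≤ 1 := by
    have := mul_le_mul_of_nonneg_right h6 hwt.le
    rwa [inv_mul_cancel₀ hwt.ne'] at this
  have h9 : 1 - η - τ t ≤ 67 / (k ^ 2 * (t - a) ^ 2) := by
    rw [le_div_iff₀ (by positivity)]
    have h10 : (1 - η - τ t) * (k ^ 2 * (t - a) ^ 2) =
        (400 / 49) ^ 2 * ((49 / 400 * k * (t - a)) ^ 2 * (1 - η - τ t)) := by ring
    rw [h10]
    nlinarith
  linarith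

end GKdV
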