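import Pool.Agent.Lib.MP_cb0de5_an.SpecA

/-!
# A7a: a scalar differential inequality
-/

open MeasureTheory Filter Topology Set

noncomputable section

namespace GKdV

namespace ScalarLow

lemma rpow_eq {x : ℝ} (hx : 0 < x) : x ^ (3 / 2 : ℝ) = Real.sqrt x ^ 3 := by
  rw [Real.sqrt_eq_rpow, ← Real.rpow_natCast, ← Real.rpow_mul hx.le]
  norm_num

/-- the estimate as long as `z > 0` -/
lemma aux {a b kk : ℝ} {z z' : ℝ → ℝ}
    (hz : ∀ s ∈ Icc a b, HasDerivWithinAt z (z' s) (Icc a b) s) (ha : 1 / 2 ≤ z a)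
    (hz' : ∀ s ∈ Icc a b, 0 < z s → -(4 * kk * z s ^ (3 / 2 : ℝ)) ≤ z' s) (hkk : 0 < kk)
    {t : ℝ} (ht : t ∈ Icc a b) (hpos : ∀ s ∈ Icc a t, 0 < z s) :
    1 / (Real.sqrt 2 + 2 * kk * (t - a)) ^ 2 ≤ z t := by
  have hsub : Icc a t ⊆ Icc a b := Icc_subset_Icc le_rfl ht.2
  have hsqrt : ∀ s ∈ Icc a t, 0 < Real.sqrt (z s) := fun s hs => Real.sqrt_pos.2 (hpos s hs)
  have hder : ∀ s ∈ Icc a t, HasDerivWithinAt (fun s => (Real.sqrt (z s))⁻¹ - 2 * kk * (s - a))
      (-(z' s / (2 * Real.sqrt (z s))) / (Real.sqrt (z s)) ^ 2 - 2 * kk) (Icc a t) s := by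
    intro s hs
    have h1 : HasDerivWithinAt z (z' s) (Icc a t) s := (hz s (hsub hs)).mono hsub
    have h2 := h1.sqrt (hpos s hs).ne'
    have h3 := h2.inv (hsqrt s hs).ne'
    have h4 : HasDerivWithinAt (fun s : ℝ => 2 * kk * (s - a)) (2 * kk) (Icc a t) s := by
      have h5 := ((hasDerivWithinAt_id s (Icc a t)).sub_const a).const_mul (2 * kk)
      rw [mul_one] at h5
      exact h5
    exact h3.sub h4
  have hanti : AntitoneOn (fun s => (Real.sqrt (z s))⁻¹ - 2 * kk * (s - a)) (Icc a t) := by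
    refine antitoneOn_of_hasDerivWithinAt_nonpos (convex_Icc a t)
      (fun s hs => (hder s hs).continuousWithinAt)
      (fun s hs => (hder s (interior_subset hs)).mono interior_subset) ?_
    intro s hs
    have hs' := interior_subset hs
    have h1 := hz' s (hsub hs') (hpos s hs')
    have h2 := hsqrt s hs'
    rw [rpow_eq (hpos s hs')] at h1
    have h3 : -(z' s / (2 * Real.sqrt (z s))) / (Real.sqrt (z s)) ^ 2 =
        -(z' s) / (2 * Real.sqrt (z s) ^ 3) := by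
      field_simp
    rw [h3, sub_nonpos, div_le_iff₀ (by positivity)]
    nlinarith
  have h1 := hanti (left_mem_Icc.2 ht.1) (right_mem_Icc.2 ht.1) ht.1
  simp only [sub_self, mul_zero, sub_zero] at h1
  have h2 : (Real.sqrt (z a))⁻¹ ≤ Real.sqrt 2 := by
    have h3 : Real.sqrt (1 / 2) ≤ Real.sqrt (z a) := Real.sqrt_le_sqrt ha
    have h4 : Real.sqrt (1 / 2) = (Real.sqrt 2)⁻¹ := by
      rw [one_div, Real.sqrt_inv]
    rw [h4] at h3
    have h5 : 0 < Real.sqrt 2 := Real.sqrt_pos.2 (by norm_num)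
    exact inv_le_of_inv_le₀ h5 h3
  have h3 : (Real.sqrt (z t))⁻¹ ≤ Real.sqrt 2 + 2 * kk * (t - a) := by linarith
  have h4 := hsqrt t (right_mem_Icc.2 ht.1)
  have h5 : 0 < Real.sqrt 2 + 2 * kk * (t - a) := lt_of_lt_of_le (inv_pos.2 h4) h3
  have h6 : (Real.sqrt 2 + 2 * kk * (t - a))⁻¹ ≤ Real.sqrt (z t) := inv_le_of_inv_le₀ h4 h3
  have h7 : Real.sqrt (z t) ^ 2 = z t := Real.sq_sqrt (hpos t (right_mem_Icc.2 ht.1)).le
  rw [← h7, one_div, ← inv_pow]
  exact pow_le_pow_left₀ (inv_pos.2 h5).le h6 2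

end ScalarLow

theorem scalarLowStmt : ScalarLowStmt := by
  intro a b kk z z' hab hkk hz ha hz' t ht
  by_contra hcon
  push Not at hcon
  have hcont : ContinuousOn z (Icc a b) := fun s hs => (hz s hs).continuousWithinAt
  have hsub : Icc a t ⊆ Icc a b := Icc_subset_Icc le_rfl ht.2
  set Z : Set ℝ := Icc a t ∩ z ⁻¹' Iic 0 with hZ
  by_cases hne : Z.Nonempty
  swap
  · have hpos : ∀ s ∈ Icc a t, 0 < z s := by
      intro s hs
      by_contra h
      exact hne ⟨s, hs, not_lt.1 h⟩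
    exact absurd (ScalarLow.aux hz ha hz' hkk ht hpos) (not_le.2 hcon)
  have hclosed : IsClosed Z := (hcont.mono hsub).preimage_isClosed_of_isClosed isClosed_Icc isClosed_Iic
  have hbdd : BddBelow Z := ⟨a, fun s hs => hs.1.1⟩
  have h0 : sInf Z ∈ Z := hclosed.csInf_mem hne hbdd
  set t₀ := sInf Z with ht₀
  have ht₀a : a < t₀ := by
    rcases eq_or_lt_of_le h0.1.1 with h | h
    · exfalso
      have h1 : z t₀ ≤ 0 := h0.2
      rw [← h] at h1
      linarith
    · exact h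
  have ht₀b : t₀ ∈ Icc a b := hsub h0.1
  have hpos : ∀ s ∈ Ico a t₀, 0 < z s := by
    intro s hs
    by_contra h
    have h1 : s ∈ Z := ⟨⟨hs.1, hs.2.le.trans h0.1.2⟩, not_lt.1 h⟩
    exact absurd (csInf_le hbdd h1) (not_le.2 hs.2)
  set c : ℝ := 1 / (Real.sqrt 2 + 2 * kk * (b - a)) ^ 2 with hc
  have h2pos : 0 < Real.sqrt 2 := Real.sqrt_pos.2 (by norm_num)
  have hcpos : 0 < c := by
    have : 0 ≤ kk * (b - a) := mul_nonneg hkk.le (by linarith)
    rw [hc]
    positivity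
  have hlow : ∀ s ∈ Ico a t₀, c ≤ z s := by
    intro s hs
    have hsb : s ∈ Icc a b := ⟨hs.1, hs.2.le.trans ht₀b.2⟩
    have h1 := ScalarLow.aux hz ha hz' hkk hsb
      (fun r hr => hpos r ⟨hr.1, lt_of_le_of_lt hr.2 hs.2⟩)
    refine le_trans ?_ h1
    rw [hc]
    have h2 : 0 ≤ kk * (s - a) := mul_nonneg hkk.le (by linarith [hs.1])
    have h3 : kk * (s - a) ≤ kk * (b - a) := by
      apply mul_le_mul_of_nonneg_left _ hkk.le
      linarith [hsb.2]
    have h4 : 0 < Real.sqrt 2 + 2 * kk * (s - a) := by nlinarith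
    apply one_div_le_one_div_of_le (by positivity)
    apply pow_le_pow_left₀ h4.le
    nlinarith
  have hlim : c ≤ z t₀ := by
    have h1 : ContinuousWithinAt z (Ico a t₀) t₀ :=
      (hcont t₀ ht₀b).mono (fun s hs => ⟨hs.1, hs.2.le.trans ht₀b.2⟩)
    have h2 : t₀ ∈ closure (Ico a t₀) := by
      rw [closure_Ico ht₀a.ne]
      exact right_mem_Icc.2 ht₀a.le
    have h3 : (𝓝[Ico a t₀] t₀).NeBot := mem_closure_iff_nhdsWithin_neBot.1 h2
    exact ge_of_tendsto h1 (eventually_nhdsWithin_of_forall hlow)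
  have h1 : z t₀ ≤ 0 := h0.2
  linarith

end GKdV
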