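import Pool.Agent.Lib.MP_cb0de5_an.SpecB

/-!
# B3: selection of a rational point of the two-parameter family
-/

open MeasureTheory Filter Topology Set

noncomputable section

namespace GKdV

namespace Select

theorem eval_PP (x : Fin 2 → ℚ) (i : Fin 5) :
    MvPolynomial.eval x (PP (MvPolynomial.X 0 : MvPolynomial (Fin 2) ℚ) (MvPolynomial.X 1) i)
      = PP (x 0) (x 1) i := by
  fin_cases i <;> simp [PP]

/-- the polynomial `F_{B,C}(P)` -/
def pol (B C : Fin 5 → ℚ) : MvPolynomial (Fin 2) ℚ :=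
  FF (fun i => MvPolynomial.C (B i)) (fun i => MvPolynomial.C (C i))
    (PP (MvPolynomial.X 0) (MvPolynomial.X 1))

theorem eval_pol (B C : Fin 5 → ℚ) (x : Fin 2 → ℚ) :
    MvPolynomial.eval x (pol B C) = FF B C (PP (x 0) (x 1)) := by
  simp [pol, FF, eval_PP]

/-- the polynomial `x P_i - y P_j` -/
def lin (x y : ℚ) (i j : Fin 5) : MvPolynomial (Fin 2) ℚ :=
  MvPolynomial.C x * PP (MvPolynomial.X 0) (MvPolynomial.X 1) i -
    MvPolynomial.C y * PP (MvPolynomial.X 0) (MvPolynomial.X 1) j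

theorem eval_lin (x y : ℚ) (i j : Fin 5) (z : Fin 2 → ℚ) :
    MvPolynomial.eval z (lin x y i j) = x * PP (z 0) (z 1) i - y * PP (z 0) (z 1) j := by
  simp [lin, eval_PP]

theorem exists_point (S : Finset (MvPolynomial (Fin 2) ℚ)) (hS : (0 : MvPolynomial (Fin 2) ℚ) ∉ S)
    (a b ε : ℚ) (hε : 0 < ε) :
    ∃ s u : ℚ, a < s ∧ s < a + ε ∧ b < u ∧ u < b + ε ∧
      ∀ p ∈ S, MvPolynomial.eval ![s, u] p ≠ 0 := by
  by_contra hcon
  push Not at hcon
  have h0 : ∏ p ∈ S, p = 0 := by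
    refine MvPolynomial.funext_set (![Set.Ioo a (a + ε), Set.Ioo b (b + ε)]) ?_ ?_
    · intro i
      fin_cases i
      · exact Set.Ioo_infinite (by simpa using hε)
      · exact Set.Ioo_infinite (by simpa using hε)
    · intro x hx
      have hx0 : x 0 ∈ Set.Ioo a (a + ε) := hx 0 (Set.mem_univ _)
      have hx1 : x 1 ∈ Set.Ioo b (b + ε) := hx 1 (Set.mem_univ _)
      obtain ⟨p, hp, hp0⟩ := hcon (x 0) (x 1) hx0.1 hx0.2 hx1.1 hx1.2
      have hxe : ![x 0, x 1] = x := by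
        funext i
        fin_cases i <;> rfl
      rw [hxe] at hp0
      rw [map_prod, map_zero]
      exact Finset.prod_eq_zero hp hp0
  rw [Finset.prod_eq_zero_iff] at h0
  obtain ⟨p, hp, hp0⟩ := h0
  rw [hp0] at hp
  exact hS hp

theorem lin_ne_zero (x y : ℚ) (hx : x ≠ 0) (hy : y ≠ 0) (i j : Fin 5) (hij : i ≠ j) :
    lin x y i j ≠ 0 := by
  intro h
  have h1 : ∀ s u : ℚ, x * PP s u i = y * PP s u j := by
    intro s u
    have h2 := eval_lin x y i j ![s, u]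
    rw [h, map_zero] at h2
    simp only [Matrix.cons_val_zero, Matrix.cons_val_one] at h2
    linarith
  have h2 := h1 (1 / 15) (3 / 4)
  have h3 := h1 2 4
  have h4 : x * y * (PP (1 / 15 : ℚ) (3 / 4) i * PP (2 : ℚ) 4 j
      - PP (1 / 15 : ℚ) (3 / 4) j * PP (2 : ℚ) 4 i) = 0 := by
    have e : x * y * (PP (1 / 15 : ℚ) (3 / 4) i * PP (2 : ℚ) 4 j
      - PP (1 / 15 : ℚ) (3 / 4) j * PP (2 : ℚ) 4 i) =
      (x * PP (1 / 15 : ℚ) (3 / 4) i) * (y * PP (2 : ℚ) 4 j) -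
      (y * PP (1 / 15 : ℚ) (3 / 4) j) * (x * PP (2 : ℚ) 4 i) := by ring
    rw [e, h2, h3]
    ring
  have h5 : PP (1 / 15 : ℚ) (3 / 4) i * PP (2 : ℚ) 4 j
      - PP (1 / 15 : ℚ) (3 / 4) j * PP (2 : ℚ) 4 i = 0 := by
    rcases mul_eq_zero.1 h4 with h6 | h6
    · exact absurd h6 (mul_ne_zero hx hy)
    · exact h6
  revert h5
  fin_cases i <;> fin_cases j <;> first | exact absurd rfl hij | (norm_num [PP])

theorem PP_sum (s u : ℚ) : PP s u 0 + PP s u 1 + PP s u 2 + PP s u 3 + PP s u 4 = 0 := by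
  simp only [PP, Matrix.cons_val]
  ring

theorem PP_cub (s u : ℚ) :
    PP s u 0 ^ 3 + PP s u 1 ^ 3 + PP s u 2 ^ 3 + PP s u 3 ^ 3 + PP s u 4 ^ 3 = 0 := by
  simp only [PP, Matrix.cons_val]
  ring

theorem FF_neg (B C w : Fin 5 → ℚ) : FF B C (fun i => - w i) = - FF B C w := by
  simp only [FF, Fin.sum_univ_five]
  ring

/-- `PP` commutes with the cast -/
theorem PP_cast (s u : ℚ) (i : Fin 5) : ((PP s u i : ℚ) : ℝ) = PP (s : ℝ) (u : ℝ) i := by
  fin_cases i <;> simp [PP]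

theorem PP_cont (i : Fin 5) : Continuous (fun z : ℝ × ℝ => PP z.1 z.2 i) := by
  fin_cases i <;> simp only [PP] <;> fun_prop

/-- growth at the base point -/
theorem growth (θ : ℝ) (h1 : 3 / 2 ≤ θ) (h2 : θ ≤ 5 / 3) :
    (101 / 100 : ℝ) * ((1 : ℝ) ^ θ + (5 : ℝ) ^ θ + (9 : ℝ) ^ θ) < (7 : ℝ) ^ θ + (8 : ℝ) ^ θ := by
  have g1 : (1 / 9 : ℝ) ^ θ ≤ 371 / 10000 := by
    have e1 : (1 / 9 : ℝ) ^ θ ≤ (1 / 9 : ℝ) ^ (3 / 2 : ℝ) :=
      Real.rpow_le_rpow_of_exponent_ge (by norm_num) (by norm_num) h1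
    refine e1.trans ?_
    by_contra hc
    push Not at hc
    have e2 : ((1 / 9 : ℝ) ^ (3 / 2 : ℝ)) ^ 2 = (1 / 9 : ℝ) ^ 3 := by
      rw [← Real.rpow_natCast, ← Real.rpow_mul (by norm_num), ← Real.rpow_natCast]
      norm_num
    have e3 := pow_lt_pow_left₀ hc (by norm_num) (n := 2) (by norm_num)
    rw [e2] at e3
    norm_num at e3
  have g2 : (5 / 9 : ℝ) ^ θ ≤ 4142 / 10000 := by
    have e1 : (5 / 9 : ℝ) ^ θ ≤ (5 / 9 : ℝ) ^ (3 / 2 : ℝ) :=
      Real.rpow_le_rpow_of_exponent_ge (by norm_num) (by norm_num) h1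
    refine e1.trans ?_
    by_contra hc
    push Not at hc
    have e2 : ((5 / 9 : ℝ) ^ (3 / 2 : ℝ)) ^ 2 = (5 / 9 : ℝ) ^ 3 := by
      rw [← Real.rpow_natCast, ← Real.rpow_mul (by norm_num), ← Real.rpow_natCast]
      norm_num
    have e3 := pow_lt_pow_left₀ hc (by norm_num) (n := 2) (by norm_num)
    rw [e2] at e3
    norm_num at e3
  have g3 : 657 / 1000 ≤ (7 / 9 : ℝ) ^ θ := by
    have e1 : (7 / 9 : ℝ) ^ (5 / 3 : ℝ) ≤ (7 / 9 : ℝ) ^ θ :=
      Real.rpow_le_rpow_of_exponent_ge (by norm_num) (by norm_num) h2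
    refine le_trans ?_ e1
    by_contra hc
    push Not at hc
    have e2 : ((7 / 9 : ℝ) ^ (5 / 3 : ℝ)) ^ 3 = (7 / 9 : ℝ) ^ 5 := by
      rw [← Real.rpow_natCast, ← Real.rpow_mul (by norm_num), ← Real.rpow_natCast]
      norm_num
    have e3 := pow_lt_pow_left₀ hc (Real.rpow_nonneg (by norm_num) _) (n := 3) (by norm_num)
    rw [e2] at e3
    norm_num at e3
  have g4 : 821 / 1000 ≤ (8 / 9 : ℝ) ^ θ := by
    have e1 : (8 / 9 : ℝ) ^ (5 / 3 : ℝ) ≤ (8 / 9 : ℝ) ^ θ :=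
      Real.rpow_le_rpow_of_exponent_ge (by norm_num) (by norm_num) h2
    refine le_trans ?_ e1
    by_contra hc
    push Not at hc
    have e2 : ((8 / 9 : ℝ) ^ (5 / 3 : ℝ)) ^ 3 = (8 / 9 : ℝ) ^ 5 := by
      rw [← Real.rpow_natCast, ← Real.rpow_mul (by norm_num), ← Real.rpow_natCast]
      norm_num
    have e3 := pow_lt_pow_left₀ hc (Real.rpow_nonneg (by norm_num) _) (n := 3) (by norm_num)
    rw [e2] at e3
    norm_num at e3
  have h9 : (0 : ℝ) < (9 : ℝ) ^ θ := Real.rpow_pos_of_pos (by norm_num) _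
  have f1 : (1 : ℝ) ^ θ = (1 / 9 : ℝ) ^ θ * 9 ^ θ := by
    rw [← Real.mul_rpow (by norm_num) (by norm_num)]; norm_num
  have f2 : (5 : ℝ) ^ θ = (5 / 9 : ℝ) ^ θ * 9 ^ θ := by
    rw [← Real.mul_rpow (by norm_num) (by norm_num)]; norm_num
  have f3 : (7 : ℝ) ^ θ = (7 / 9 : ℝ) ^ θ * 9 ^ θ := by
    rw [← Real.mul_rpow (by norm_num) (by norm_num)]; norm_num
  have f4 : (8 : ℝ) ^ θ = (8 / 9 : ℝ) ^ θ * 9 ^ θ := by
    rw [← Real.mul_rpow (by norm_num) (by norm_num)]; norm_num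
  rw [f1, f2, f3, f4]
  have h10 : (101 / 100 : ℝ) * ((1 / 9 : ℝ) ^ θ + (5 / 9 : ℝ) ^ θ + 1) <
      (7 / 9 : ℝ) ^ θ + (8 / 9 : ℝ) ^ θ := by linarith
  have h11 := mul_lt_mul_of_pos_right h10 h9
  linarith

/-- the conditions on the point which are open -/
def Ok (θ : ℝ) (z : ℝ × ℝ) : Prop :=
  PP z.1 z.2 0 < 0 ∧ PP z.1 z.2 1 < 0 ∧ PP z.1 z.2 2 < 0 ∧ 0 < PP z.1 z.2 3 ∧
    0 < PP z.1 z.2 4 ∧
    (101 / 100 : ℝ) * ((-PP z.1 z.2 0) ^ θ + (-PP z.1 z.2 1) ^ θ + (-PP z.1 z.2 2) ^ θ)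
      < (PP z.1 z.2 3) ^ θ + (PP z.1 z.2 4) ^ θ

theorem ok_nhds (θ : ℝ) (h1 : 3 / 2 ≤ θ) (h2 : θ ≤ 5 / 3) :
    ∀ᶠ z in 𝓝 ((1 / 15 : ℝ), (3 / 4 : ℝ)), Ok θ z := by
  have hθ : 0 ≤ θ := by linarith
  have c0 := PP_cont 0
  have c1 := PP_cont 1
  have c2 := PP_cont 2
  have c3 := PP_cont 3
  have c4 := PP_cont 4
  have v0 : PP (1 / 15 : ℝ) (3 / 4) 0 = - (19 / 600 * 1) := by
    simp only [PP, Matrix.cons_val]; norm_num
  have v1 : PP (1 / 15 : ℝ) (3 / 4) 1 = - (19 / 600 * 5) := by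
    simp only [PP, Matrix.cons_val]; norm_num
  have v2 : PP (1 / 15 : ℝ) (3 / 4) 2 = - (19 / 600 * 9) := by
    simp only [PP, Matrix.cons_val]; norm_num
  have v3 : PP (1 / 15 : ℝ) (3 / 4) 3 = 19 / 600 * 7 := by
    simp only [PP, Matrix.cons_val]; norm_num
  have v4 : PP (1 / 15 : ℝ) (3 / 4) 4 = 19 / 600 * 8 := by
    simp only [PP, Matrix.cons_val]; norm_num
  have d0 : Continuous (fun z : ℝ × ℝ => (-PP z.1 z.2 0) ^ θ) :=
    c0.neg.rpow_const fun _ => Or.inr hθ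
  have d1 : Continuous (fun z : ℝ × ℝ => (-PP z.1 z.2 1) ^ θ) :=
    c1.neg.rpow_const fun _ => Or.inr hθ
  have d2 : Continuous (fun z : ℝ × ℝ => (-PP z.1 z.2 2) ^ θ) :=
    c2.neg.rpow_const fun _ => Or.inr hθ
  have d3 : Continuous (fun z : ℝ × ℝ => (PP z.1 z.2 3) ^ θ) :=
    c3.rpow_const fun _ => Or.inr hθ
  have d4 : Continuous (fun z : ℝ × ℝ => (PP z.1 z.2 4) ^ θ) :=
    c4.rpow_const fun _ => Or.inr hθ
  have hop : IsOpen {z : ℝ × ℝ | Ok θ z} := by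
    refine IsOpen.inter (isOpen_lt c0 continuous_const) ?_
    refine IsOpen.inter (isOpen_lt c1 continuous_const) ?_
    refine IsOpen.inter (isOpen_lt c2 continuous_const) ?_
    refine IsOpen.inter (isOpen_lt continuous_const c3) ?_
    refine IsOpen.inter (isOpen_lt continuous_const c4) ?_
    exact isOpen_lt (continuous_const.mul ((d0.add d1).add d2)) (d3.add d4)
  refine hop.mem_nhds ?_
  change Ok θ ((1 / 15 : ℝ), (3 / 4 : ℝ))
  unfold Ok
  simp only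
  rw [v0, v1, v2, v3, v4]
  refine ⟨by norm_num, by norm_num, by norm_num, by norm_num, by norm_num, ?_⟩
  rw [neg_neg, neg_neg, neg_neg]
  rw [Real.mul_rpow (by norm_num) (by norm_num), Real.mul_rpow (by norm_num) (by norm_num),
    Real.mul_rpow (by norm_num) (by norm_num), Real.mul_rpow (by norm_num) (by norm_num),
    Real.mul_rpow (by norm_num) (by norm_num)]
  have h3 := growth θ h1 h2
  have h4 : (0 : ℝ) < (19 / 600 : ℝ) ^ θ := Real.rpow_pos_of_pos (by norm_num) _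
  have h5 := mul_lt_mul_of_pos_left h3 h4
  linarith

end Select

open Select in
theorem selectStmt (h1 : LinesStmt) : SelectStmt := by
  intro θ hθ1 hθ2 𝓑 X h𝓑 hX
  have hev := ok_nhds θ hθ1 hθ2
  obtain ⟨ε, hε, hball⟩ := Metric.eventually_nhds_iff.1 hev
  obtain ⟨δ, hδ0, hδε⟩ := exists_rat_btwn hε
  have hδ0' : (0 : ℚ) < δ := by exact_mod_cast hδ0
  classical
  -- the set of polynomials
  let S : Finset (MvPolynomial (Fin 2) ℚ) :=
    (𝓑.image (fun p => pol p.1 p.2)) ∪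
      (((X ×ˢ X) ×ˢ ((Finset.univ : Finset (Fin 5 × Fin 5)).filter (fun ij => ij.1 ≠ ij.2))).image
        (fun q => lin q.1.1 q.1.2 q.2.1 q.2.2))
  have hS : (0 : MvPolynomial (Fin 2) ℚ) ∉ S := by
    intro h
    rcases Finset.mem_union.1 h with h | h
    · obtain ⟨p, hp, hp0⟩ := Finset.mem_image.1 h
      refine h𝓑 p hp (h1 p.1 p.2 fun s u => ?_)
      have h2 := eval_pol p.1 p.2 ![s, u]
      rw [hp0, map_zero] at h2
      simpa using h2.symm
    · obtain ⟨q, hq, hq0⟩ := Finset.mem_image.1 h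
      rw [Finset.mem_product, Finset.mem_product, Finset.mem_filter] at hq
      exact lin_ne_zero q.1.1 q.1.2 (fun h => hX (h ▸ hq.1.1)) (fun h => hX (h ▸ hq.1.2)) q.2.1
        q.2.2 hq.2.2 hq0
  obtain ⟨s, u, hs1, hs2, hu1, hu2, hne⟩ := exists_point S hS (1 / 15) (3 / 4) δ hδ0'
  have hok : Ok θ ((s : ℝ), (u : ℝ)) := by
    apply hball
    rw [Prod.dist_eq, max_lt_iff, Real.dist_eq, Real.dist_eq, abs_lt, abs_lt]
    have e1 : (1 / 15 : ℝ) < s := by exact_mod_cast (by simpa using (Rat.cast_lt (K := ℝ)).2 hs1)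
    have e2 : (s : ℝ) < 1 / 15 + δ := by
      have := (Rat.cast_lt (K := ℝ)).2 hs2
      push_cast at this
      exact this
    have e3 : (3 / 4 : ℝ) < u := by
      have := (Rat.cast_lt (K := ℝ)).2 hu1
      push_cast at this
      exact this
    have e4 : (u : ℝ) < 3 / 4 + δ := by
      have := (Rat.cast_lt (K := ℝ)).2 hu2
      push_cast at this
      exact this
    refine ⟨⟨?_, ?_⟩, ⟨?_, ?_⟩⟩ <;> simp only <;> linarith
  obtain ⟨k0, k1, k2, k3, k4, k5⟩ := hok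
  simp only at k0 k1 k2 k3 k4 k5
  rw [← PP_cast, ← PP_cast, ← PP_cast, ← PP_cast, ← PP_cast] at k5
  rw [← PP_cast] at k0 k1 k2 k3 k4
  have k0' : PP s u 0 < 0 := by exact_mod_cast k0
  have k1' : PP s u 1 < 0 := by exact_mod_cast k1
  have k2' : PP s u 2 < 0 := by exact_mod_cast k2
  have k3' : 0 < PP s u 3 := by exact_mod_cast k3
  have k4' : 0 < PP s u 4 := by exact_mod_cast k4
  refine ⟨fun i => - PP s u i, by simpa using k0', by simpa using k1', by simpa using k2',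
    by simpa using k3', by simpa using k4', ?_, ?_, ?_, ?_, ?_⟩
  · have := PP_sum s u
    simp only
    linarith
  · have := PP_cub s u
    have e : ∀ a : ℚ, (-a) ^ 3 = - a ^ 3 := fun a => by ring
    simp only [e]
    linarith
  · intro p hp
    rw [FF_neg, neg_ne_zero]
    have h2 := hne (pol p.1 p.2) (Finset.mem_union_left _ (Finset.mem_image.2 ⟨p, hp, rfl⟩))
    rw [eval_pol] at h2
    simpa using h2
  · intro x hx y hy i j hij h
    have h2 := hne (lin x y i j) (Finset.mem_union_right _ (Finset.mem_image.2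
      ⟨((x, y), (i, j)), by
        rw [Finset.mem_product, Finset.mem_product, Finset.mem_filter]
        exact ⟨⟨hx, hy⟩, Finset.mem_univ _, hij⟩, rfl⟩))
    rw [eval_lin] at h2
    apply h2
    simp only [Matrix.cons_val_zero, Matrix.cons_val_one]
    linarith
  · simp only [neg_neg]
    push_cast
    exact k5.le

end GKdV
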