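import Pool.Agent.Lib.MP_cb0de5_an.Stmt

/-!
# Blueprint of the disproof (quartic gKdV, norm inflation in `H^s(𝕋)`, `1/4 ≤ s < 1/3`)

All interfaces between the modules: networks, arithmetic networks, resonant solutions, the algebra
of trigonometric polynomials, Galerkin solutions.
-/

open MeasureTheory Filter Topology Set

noncomputable section

namespace GKdV

/-! ## Part A: layered networks and the cascade -/

/-- A layered network of quintets.  `M` = modes, `Q` = quintets.  Each quintet `q` of level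
`ql q = j` has three parents of level `j - 1` and two children of level `j`; a mode of level `< g`
is a parent exactly once, a mode of level `> 0` is a child exactly once. -/
structure Net (g : ℕ) (M Q : Type) where
  lv : M → ℕ
  ql : Q → ℕ
  par : Q → Fin 3 → M
  chi : Q → Fin 2 → M
  lv_par : ∀ q i, lv (par q i) + 1 = ql q
  lv_chi : ∀ q b, lv (chi q b) = ql q
  lv_le : ∀ m, lv m ≤ g
  par_inj : ∀ q i q' i', par q i = par q' i' → q = q' ∧ i = i'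
  chi_inj : ∀ q b q' b', chi q b = chi q' b' → q = q' ∧ b = b'
  par_surj : ∀ m, lv m < g → ∃ q i, par q i = m
  chi_surj : ∀ m, 0 < lv m → ∃ q b, chi q b = m

variable {g : ℕ} {M Q : Type}

/-- The vector field of the real resonant system of a network with rates `κ`. -/
def Net.field [DecidableEq M] [Fintype Q] (N : Net g M Q) (κ : Q → ℝ) (y : M → ℝ) (m : M) : ℝ :=
  ∑ q, κ q *
    ((if N.chi q 0 = m then y (N.par q 0) * y (N.par q 1) * y (N.par q 2) * y (N.chi q 1) else 0)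
    + (if N.chi q 1 = m then y (N.par q 0) * y (N.par q 1) * y (N.par q 2) * y (N.chi q 0) else 0)
    - (if N.par q 0 = m then y (N.par q 1) * y (N.par q 2) * y (N.chi q 0) * y (N.chi q 1) else 0)
    - (if N.par q 1 = m then y (N.par q 0) * y (N.par q 2) * y (N.chi q 0) * y (N.chi q 1) else 0)
    - (if N.par q 2 = m then y (N.par q 0) * y (N.par q 1) * y (N.chi q 0) * y (N.chi q 1) else 0))

/-- **Cascade theorem.** From `level 0 full, the rest tiny` to `level g full`. -/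
def CascadeStmt : Prop :=
  ∀ (g : ℕ) (M Q : Type) [Fintype M] [DecidableEq M] [Fintype Q] (N : Net g M Q) (κ : Q → ℝ),
    (∀ q, 0 < κ q) → ∀ ε > 0, ∃ T > 0, ∃ x : ℝ → M → ℝ,
      (∀ t ∈ Icc 0 T, ∀ m, HasDerivAt (fun τ => x τ m) (N.field κ (x t) m) t) ∧
      (∀ m, N.lv m = 0 → x 0 m = 1) ∧ (∀ m, 0 < N.lv m → 0 ≤ x 0 m ∧ x 0 m ≤ ε) ∧
      ∀ m, N.lv m = g → 1 - ε ≤ x T m

/-! ## Part B: arithmetic realisation -/

/-- The modes of the network are realised by distinct positive integers `f m` such that every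
quintet is an exact 5-wave resonance and there are no other resonances: whenever four signed modes
resonate with a nonzero fifth integer, the five numbers are, up to sign, exactly a quintet. -/
structure IsArith (N : Net g M Q) (f : M → ℤ) : Prop where
  pos : ∀ m, 0 < f m
  inj : Function.Injective f
  lin : ∀ q, f (N.par q 0) + f (N.par q 1) + f (N.par q 2) = f (N.chi q 0) + f (N.chi q 1)
  cub : ∀ q, f (N.par q 0) ^ 3 + f (N.par q 1) ^ 3 + f (N.par q 2) ^ 3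
    = f (N.chi q 0) ^ 3 + f (N.chi q 1) ^ 3
  closed : ∀ a b c d : ℤ, (∃ m, |a| = f m) → (∃ m, |b| = f m) → (∃ m, |c| = f m) →
    (∃ m, |d| = f m) → a + b + c + d ≠ 0 →
    a ^ 3 + b ^ 3 + c ^ 3 + d ^ 3 = (a + b + c + d) ^ 3 →
    ∃ q, ∃ e : ℤ, (e = 1 ∨ e = -1) ∧
      ({a, b, c, d, -(a + b + c + d)} : Multiset ℤ) =
        {e * f (N.par q 0), e * f (N.par q 1), e * f (N.par q 2),
          -(e * f (N.chi q 0)), -(e * f (N.chi q 1))}

/-- **Arithmetic networks** with arbitrarily large growth of `∑ n ^ θ`, `3/2 ≤ θ ≤ 5/3`. -/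
def ArithStmt : Prop :=
  ∀ θ : ℝ, 3 / 2 ≤ θ → θ ≤ 5 / 3 → ∀ K : ℝ, ∃ (g : ℕ) (M Q : Type) (_ : Fintype M)
    (_ : DecidableEq M) (_ : Fintype Q) (N : Net g M Q) (f : M → ℤ), Nonempty M ∧ IsArith N f ∧
      K * ∑ m with N.lv m = 0, (f m : ℝ) ^ θ ≤ ∑ m with N.lv m = g, (f m : ℝ) ^ θ

/-! ## The resonant system -/

/-- A solution on `[0, S]` of the resonant system of the quartic gKdV equation with finitely many
modes `Λ`, where `Λ` is closed under resonances. -/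
structure RSSol (σ S : ℝ) (Λ : Finset ℤ) (A : ℝ → ℤ → ℂ) : Prop where
  zero_notMem : (0 : ℤ) ∉ Λ
  symm : ∀ n ∈ Λ, -n ∈ Λ
  closed : ∀ a ∈ Λ, ∀ b ∈ Λ, ∀ c ∈ Λ, ∀ d ∈ Λ, a + b + c + d ≠ 0 →
    a ^ 3 + b ^ 3 + c ^ 3 + d ^ 3 = (a + b + c + d) ^ 3 → a + b + c + d ∈ Λ
  supp : ∀ t, ∀ n ∉ Λ, A t n = 0
  real : ∀ t n, A t (-n) = (starRingEnd ℂ) (A t n)
  deriv : ∀ t ∈ Icc 0 S, ∀ n ∈ Λ, HasDerivAt (fun τ => A τ n)
    (-(Complex.I * σ * n) * ∑ p ∈ (Λ ×ˢ Λ ×ˢ Λ ×ˢ Λ).filter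
      (fun p => p.1 + p.2.1 + p.2.2.1 + p.2.2.2 = n ∧
        p.1 ^ 3 + p.2.1 ^ 3 + p.2.2.1 ^ 3 + p.2.2.2 ^ 3 = n ^ 3),
      A t p.1 * A t p.2.1 * A t p.2.2.1 * A t p.2.2.2) t

/-- The square of the homogeneous Sobolev norm of a finite set of modes. -/
def rsNormSq (s : ℝ) (Λ : Finset ℤ) (a : ℤ → ℂ) : ℝ := ∑ n ∈ Λ, |(n : ℝ)| ^ (2 * s) * ‖a n‖ ^ 2

/-- A + B: the resonant system has unbounded growth in the homogeneous `H^s` norm. -/
def RSGrowthStmt : Prop :=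
  ∀ σ : ℝ, (σ = 1 ∨ σ = -1) → ∀ s : ℝ, 1 / 4 ≤ s → s < 1 / 3 → ∀ K : ℝ, ∃ (S : ℝ) (Λ : Finset ℤ)
    (A : ℝ → ℤ → ℂ), 0 < S ∧ RSSol σ S Λ A ∧ 0 < rsNormSq s Λ (A 0) ∧
      K * rsNormSq s Λ (A 0) ≤ rsNormSq s Λ (A S)

/-! ## Part C: from the resonant system to the equation -/

/-- **Approximation theorem.** -/
def PdeStmt : Prop :=
  ∀ (σ S : ℝ) (Λ : Finset ℤ) (A : ℝ → ℤ → ℂ), (σ = 1 ∨ σ = -1) → 0 < S → RSSol σ S Λ A →
    ∀ s : ℝ, 0 ≤ s → s < 1 / 3 → ∀ ε > 0, ∃ T, 0 < T ∧ T < ε ∧ ∃ u : ℝ → ℝ → ℝ,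
      IsSolution 4 σ s T u ∧ |hsNorm s (u 0) ^ 2 - rsNormSq s Λ (A 0)| < ε ∧
        |hsNorm s (u T) ^ 2 - rsNormSq s Λ (A S)| < ε

/-- **Norm inflation at `0`.** -/
def NormInflationStmt : Prop :=
  ∀ σ : ℝ, (σ = 1 ∨ σ = -1) → ∀ s : ℝ, 1 / 4 ≤ s → s < 1 / 3 → ∀ ε > 0, ∃ T, 0 < T ∧ T < ε ∧
    ∃ u : ℝ → ℝ → ℝ, IsSolution 4 σ s T u ∧ hsNorm s (u 0) < ε ∧ 1 / ε < hsNorm s (u T)

/-- **Final theorem.** -/
def FinalStmt : Prop :=
  (∀ σ : ℝ, (σ = 1 ∨ σ = -1) → ∀ s : ℝ, 1 / 4 ≤ s → s < 1 / 3 → ¬ UnconditionallyLWP 4 σ s) ∧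
  ¬ (∀ k : ℕ, 3 ≤ k → ∀ σ : ℝ, (σ = 1 ∨ σ = -1) → ∀ s : ℝ, 1 / 2 - 1 / (k : ℝ) ≤ s →
      UnconditionallyLWP k σ s)

/-! ## Trigonometric polynomials -/

/-- Trigonometric polynomials `∑ f n e^{inx}`: the group algebra of `ℤ`. -/
abbrev LP := AddMonoidAlgebra ℂ ℤ

end GKdV
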