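import Pool.Agent.Lib.MP_cb0de5_an.Spec

/-!
# Part A: the cascade theorem, modules A0-A8

Every `...Stmt` below is proved in its own file, from the earlier ones named in its docstring.
-/

open MeasureTheory Filter Topology Set

noncomputable section

namespace GKdV

variable {g : ℕ} {M Q : Type}

/-- product of the three parents -/
def Net.P3 (N : Net g M Q) (y : M → ℝ) (q : Q) : ℝ :=
  y (N.par q 0) * y (N.par q 1) * y (N.par q 2)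

/-- product of all five modes -/
def Net.P5 (N : Net g M Q) (y : M → ℝ) (q : Q) : ℝ :=
  N.P3 y q * y (N.chi q 0) * y (N.chi q 1)

/-- the loss term of a mode (its role as a parent) -/
def Net.loss [DecidableEq M] [Fintype Q] (N : Net g M Q) (κ : Q → ℝ) (y : M → ℝ) (m : M) : ℝ :=
  ∑ q, κ q *
    ((if N.par q 0 = m then y (N.par q 1) * y (N.par q 2) * y (N.chi q 0) * y (N.chi q 1) else 0)
    + (if N.par q 1 = m then y (N.par q 0) * y (N.par q 2) * y (N.chi q 0) * y (N.chi q 1) else 0)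
    + (if N.par q 2 = m then y (N.par q 0) * y (N.par q 1) * y (N.chi q 0) * y (N.chi q 1) else 0))

/-- `θ_q(t) = κ_q ∫_0^t P_q`. -/
def Net.th (N : Net g M Q) (κ : Q → ℝ) (x : ℝ → M → ℝ) (q : Q) (t : ℝ) : ℝ :=
  κ q * ∫ s in (0 : ℝ)..t, N.P3 (x s) q

/-- `τ_q(t) = 2 κ_q ∫_0^t (product of the five modes)`: the extent of the reaction `q`. -/
def Net.ta (N : Net g M Q) (κ : Q → ℝ) (x : ℝ → M → ℝ) (q : Q) (t : ℝ) : ℝ :=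
  2 * κ q * ∫ s in (0 : ℝ)..t, N.P5 (x s) q

/-- durations `Δ_j = K^{g+1-j} R`, `1 ≤ j ≤ g + 1` -/
def Dl (g : ℕ) (K R : ℝ) (j : ℕ) : ℝ := K ^ (g + 1 - j) * R

/-- firing times `s_j = Δ_1 + ... + Δ_j`; the final time is `s_{g+1}` -/
def st (g : ℕ) (K R : ℝ) (j : ℕ) : ℝ := ∑ i ∈ Finset.range j, Dl g K R (i + 1)

/-- The solution with seeds `x_{q,0}(0) = e^{-κ_q Δ_{ql q}}`, `x_{q,1}(0) = e^{-κ̄ Δ_1}`. -/
structure Run [DecidableEq M] [Fintype Q] (N : Net g M Q) (κ : Q → ℝ) (k kk K R : ℝ)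
    (x : ℝ → M → ℝ) : Prop where
  k_pos : 0 < k
  kk_one : 1 ≤ kk
  κ_lo : ∀ q, k ≤ κ q
  κ_hi : ∀ q, κ q ≤ kk
  K_three : 3 ≤ K
  R_one : 1 ≤ R
  ode : ∀ t ∈ Icc 0 (st g K R (g + 1)), ∀ m, HasDerivAt (fun τ => x τ m) (N.field κ (x t) m) t
  init0 : ∀ m, N.lv m = 0 → x 0 m = 1
  init1 : ∀ q, x 0 (N.chi q 0) = Real.exp (-(κ q * Dl g K R (N.ql q)))
  init2 : ∀ q, x 0 (N.chi q 1) = Real.exp (-(kk * Dl g K R 1))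

/-- all modes are nonnegative up to time `t` -/
def NonnegTo (x : ℝ → M → ℝ) (t : ℝ) : Prop := ∀ s ∈ Icc 0 t, ∀ m, 0 ≤ x s m

/-- the unperturbed children: `u_0 = δ cosh θ + ε sinh θ`, `u_1 = δ sinh θ + ε cosh θ` -/
def uu (δ ε θ : ℝ) : Fin 2 → ℝ :=
  ![δ * Real.cosh θ + ε * Real.sinh θ, δ * Real.sinh θ + ε * Real.cosh θ]

/-- `δ_q` -/
def Net.de (N : Net g M Q) (κ : Q → ℝ) (K R : ℝ) (q : Q) : ℝ :=
  Real.exp (-(κ q * Dl g K R (N.ql q)))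

/-- `ε_*` -/
def es (g : ℕ) (kk K R : ℝ) : ℝ := Real.exp (-(kk * Dl g K R 1))

/-- `ω` -/
def om (g : ℕ) (k R : ℝ) : ℝ := (g + 1) * Real.exp (-(2 * k * R))

/-- the constants `C_j`: `C_0 = 0`, `C_{j+1} = κ̄ (8 e^{3 C_j} (1/(3k) + 1) + 3)` -/
def CC (k kk : ℝ) : ℕ → ℝ
  | 0 => 0
  | j + 1 => kk * (8 * Real.exp (3 * CC k kk j) * (1 / (3 * k) + 1) + 3)

/-- the constant `B = 134 / k²` -/
def BB (k : ℝ) : ℝ := 134 / k ^ 2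

/-! ### A0: existence -/

/-- **A0a** (global existence for skew fields).  Let `E` be a finite dimensional real inner product
space and `F : E → E` a `C¹` field with `⟪F y, y⟫ = 0`.  Proof: put `r = ‖x₀‖ + 1`,
`pr y` = nearest point of the closed ball of radius `r` (`y` itself or `(r/‖y‖) y`), `F̃ = F ∘ pr`.
`F` is Lipschitz on the (compact, convex) ball, `pr` is 1-Lipschitz, so `F̃` is globally Lipschitz and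
bounded by some `L`; Picard-Lindelöf (`IsPicardLindelof`) on `[-T-1, T+1]` with radius
`a = L (T + 1)`.  `⟪F̃ y, y⟫ = 0` since `pr y` is a nonnegative multiple of `y` (or `y = pr y`), so
`‖x‖²` is constant, so `x` stays in the ball and `F̃ (x t) = F (x t)`. -/
def GlobStmt : Prop :=
  ∀ (E : Type) [NormedAddCommGroup E] [InnerProductSpace ℝ E] [FiniteDimensional ℝ E] (F : E → E),
    ContDiff ℝ 1 F → (∀ y, inner ℝ (F y) y = 0) → ∀ (x₀ : E) (T : ℝ), 0 < T →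
      ∃ x : ℝ → E, x 0 = x₀ ∧ (∀ t ∈ Icc (-T) T, HasDerivAt x (F (x t)) t) ∧
        ∀ t ∈ Icc (-T) T, ‖x t‖ = ‖x₀‖

/-- **A0b** (algebra of a network).  All by unfolding the sums and using `par_inj`, `chi_inj`
(each sum over `q` has at most one nonzero term).  The last item: exchange the sums; quintet `q`
of level `j` contributes `κ_q P5 (2 (3/2)^j - 3 (3/2)^(j-1)) = 0`. -/
def NetAlgStmt : Prop :=
  ∀ (g : ℕ) (M Q : Type) [Fintype M] [DecidableEq M] [Fintype Q] (N : Net g M Q) (κ : Q → ℝ)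
    (y : M → ℝ),
    (∀ q, N.field κ y (N.chi q 0) = κ q * N.P3 y q * y (N.chi q 1) - N.loss κ y (N.chi q 0)) ∧
    (∀ q, N.field κ y (N.chi q 1) = κ q * N.P3 y q * y (N.chi q 0) - N.loss κ y (N.chi q 1)) ∧
    (∀ m, N.lv m = 0 → N.field κ y m = - N.loss κ y m) ∧
    (∀ m, N.lv m = g → N.loss κ y m = 0) ∧
    (∀ q i, y (N.par q i) * N.loss κ y (N.par q i) = κ q * N.P5 y q) ∧
    (∀ q, N.loss κ y (N.par q 0) =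
      κ q * (y (N.par q 1) * y (N.par q 2) * y (N.chi q 0) * y (N.chi q 1))) ∧
    (∀ q, N.loss κ y (N.par q 1) =
      κ q * (y (N.par q 0) * y (N.par q 2) * y (N.chi q 0) * y (N.chi q 1))) ∧
    (∀ q, N.loss κ y (N.par q 2) =
      κ q * (y (N.par q 0) * y (N.par q 1) * y (N.chi q 0) * y (N.chi q 1))) ∧
    ((∀ q, 0 ≤ κ q) → (∀ m, 0 ≤ y m) → ∀ m, 0 ≤ N.loss κ y m) ∧
    ∑ m, (3 / 2 : ℝ) ^ N.lv m * (y m * N.field κ y m) = 0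

/-- **A0c** (existence of the run), from `GlobStmt`, `NetAlgStmt`.  Use
`E = EuclideanSpace ℝ M`, `z_m = √w_m · x_m`, `w_m = (3/2)^{lv m}`: the field
`F z m = √w_m field (z/√w) m` is polynomial and skew. -/
def RunExistsStmt : Prop :=
  ∀ (g : ℕ) (M Q : Type) [Fintype M] [DecidableEq M] [Fintype Q] (N : Net g M Q) (κ : Q → ℝ)
    (k kk K R : ℝ), 0 < k → 1 ≤ kk → (∀ q, k ≤ κ q) → (∀ q, κ q ≤ kk) → 3 ≤ K → 1 ≤ R →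
    ∃ x : ℝ → M → ℝ, Run N κ k kk K R x

/-! ### A1-A3: basic facts about a run -/

/-- **A1** (squares and derivatives), from `NetAlgStmt`.
`(x_m²)' = 2 x_m field_m = r_{src m} - r_{S m}`; integrate (fundamental theorem of calculus). -/
def SqStmt : Prop :=
  ∀ (g : ℕ) (M Q : Type) [Fintype M] [DecidableEq M] [Fintype Q] (N : Net g M Q) (κ : Q → ℝ)
    (k kk K R : ℝ) (x : ℝ → M → ℝ), Run N κ k kk K R x →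
    (∀ m, ContinuousOn (fun t => x t m) (Icc 0 (st g K R (g + 1)))) ∧
    (∀ q, ∀ t ∈ Icc 0 (st g K R (g + 1)),
      HasDerivWithinAt (N.th κ x q) (κ q * N.P3 (x t) q) (Icc 0 (st g K R (g + 1))) t) ∧
    (∀ q, ∀ t ∈ Icc 0 (st g K R (g + 1)),
      HasDerivWithinAt (N.ta κ x q) (2 * κ q * N.P5 (x t) q) (Icc 0 (st g K R (g + 1))) t) ∧
    (∀ t ∈ Icc 0 (st g K R (g + 1)), ∀ q b q' i, N.par q' i = N.chi q b →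
      x t (N.chi q b) ^ 2 = x 0 (N.chi q b) ^ 2 + N.ta κ x q t - N.ta κ x q' t) ∧
    (∀ t ∈ Icc 0 (st g K R (g + 1)), ∀ q b, N.ql q = g →
      x t (N.chi q b) ^ 2 = x 0 (N.chi q b) ^ 2 + N.ta κ x q t) ∧
    (∀ t ∈ Icc 0 (st g K R (g + 1)), ∀ q i, N.ql q = 1 →
      x t (N.par q i) ^ 2 = 1 - N.ta κ x q t)

/-- **A2** (crude bounds), from `NetAlgStmt`, `SqStmt`, on an interval of nonnegativity.
`τ_q` is nondecreasing (nonnegative integrand); induction on the level `j` of `q`: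
`0 ≤ x_{par}² = x_{par}(0)² + τ_{src} - τ_q` gives `τ_q ≤ 1 + (j-1) e^{-2kR}`; seeds are
`≤ e^{-kR}` since `Δ_j ≥ R`.  Then `x_m² ≤ x_m(0)² + τ_{src} ≤ 1 + ω`. -/
def CrudeStmt : Prop :=
  ∀ (g : ℕ) (M Q : Type) [Fintype M] [DecidableEq M] [Fintype Q] (N : Net g M Q) (κ : Q → ℝ)
    (k kk K R : ℝ) (x : ℝ → M → ℝ), Run N κ k kk K R x →
    ∀ t ∈ Icc 0 (st g K R (g + 1)), NonnegTo x t →
    (∀ q, 0 ≤ N.ta κ x q t) ∧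
    (∀ q, ∀ s ∈ Icc 0 t, N.ta κ x q s ≤ N.ta κ x q t) ∧
    (∀ q, ∀ s ∈ Icc 0 t, N.th κ x q s ≤ N.th κ x q t) ∧
    (∀ q, 0 ≤ N.th κ x q t) ∧
    (∀ q, N.ta κ x q t ≤ 1 + om g k R) ∧
    (∀ q, N.ql q = 1 → N.ta κ x q t ≤ 1) ∧
    (∀ m, x t m ^ 2 ≤ 1 + om g k R) ∧
    (∀ m, N.lv m = 0 → x t m ≤ 1)

/-- **A3a** (comparison lemma).  `a = w₁ + w₂` satisfies `a' ≥ f a`, so `a e^{-∫f}` is
nondecreasing and `a ≥ 0`; then `w₁' ≥ f w₂ = f (a - w₁) ≥ - f w₁`, so `w₁ e^{∫f}` is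
nondecreasing; same for `w₂`. -/
def CompStmt : Prop :=
  ∀ (t : ℝ) (f w₁ w₂ w₁' w₂' : ℝ → ℝ), 0 ≤ t → ContinuousOn f (Icc 0 t) → (∀ s ∈ Icc 0 t, 0 ≤ f s) →
    (∀ s ∈ Icc 0 t, HasDerivWithinAt w₁ (w₁' s) (Icc 0 t) s) →
    (∀ s ∈ Icc 0 t, HasDerivWithinAt w₂ (w₂' s) (Icc 0 t) s) →
    (∀ s ∈ Icc 0 t, f s * w₂ s ≤ w₁' s) → (∀ s ∈ Icc 0 t, f s * w₁ s ≤ w₂' s) →
    0 ≤ w₁ 0 → 0 ≤ w₂ 0 → ∀ s ∈ Icc 0 t, 0 ≤ w₁ s ∧ 0 ≤ w₂ s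

/-- **A3b** (upper bound for the children), from `NetAlgStmt`, `SqStmt`, `CrudeStmt`, `CompStmt`.
`u_0' = κP u_1`, `u_1' = κP u_0`, losses are `≥ 0`: comparison for `u - x`.
`τ_q' = 2κ P x_0 x_1 ≤ 2 κ P u_0 u_1 = (u_1²)'`, so `τ_q ≤ u_1²`.  And `ε_* ≤ δ_q`. -/
def ChildUpStmt : Prop :=
  ∀ (g : ℕ) (M Q : Type) [Fintype M] [DecidableEq M] [Fintype Q] (N : Net g M Q) (κ : Q → ℝ)
    (k kk K R : ℝ) (x : ℝ → M → ℝ), Run N κ k kk K R x →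
    ∀ t ∈ Icc 0 (st g K R (g + 1)), NonnegTo x t → ∀ q,
      (∀ b, x t (N.chi q b) ≤ uu (N.de κ K R q) (es g kk K R) (N.th κ x q t) b) ∧
      (∀ b, x t (N.chi q b) ≤ 2 * N.de κ K R q * Real.exp (N.th κ x q t)) ∧
      N.ta κ x q t ≤ 4 * N.de κ K R q ^ 2 * Real.exp (2 * N.th κ x q t)

/-- **A4** (upper bound for `θ`), from `SqStmt`, `CrudeStmt`, `ChildUpStmt`.  Induction on the level
`j = ql q`:  `j = 1`: `P ≤ 1`.  Level `j+1`: the parents are children of level `j` quintets `q_i`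
(`par q i = chi q_i b_i`), so `x_par(s) ≤ 2 δ e^{θ} ≤ 2 e^{C_j} e^{-k (s_j - s)}` on
`[s_{j-1}, s_j]` and `≤ 2 e^{C_j} e^{-k Δ_j}` on `[0, s_{j-1}]`; so
`∫_0^{s_j} P ≤ 8 e^{3 C_j} (1/(3k) + s_{j-1} e^{-3kΔ_j}) ≤ 8 e^{3C_j}(1/(3k)+1)`; after `s_j`,
`P ≤ (1+ω)^{3/2} ≤ 1+3ω`, `ω T ≤ 1`.  (`R₀`: `s_{g} e^{-3kR} ≤ 1`, `ω s_{g+1} ≤ 1`, `ω ≤ 1`.) -/
def UpStmt : Prop :=
  ∀ (g : ℕ) (k kk K : ℝ), 0 < k → 1 ≤ kk → 3 ≤ K → ∃ R₀ : ℝ, ∀ R ≥ R₀,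
  ∀ (M Q : Type) [Fintype M] [DecidableEq M] [Fintype Q] (N : Net g M Q) (κ : Q → ℝ)
    (x : ℝ → M → ℝ), Run N κ k kk K R x →
    ∀ t ∈ Icc 0 (st g K R (g + 1)), NonnegTo x t → ∀ q,
      N.th κ x q t ≤ κ q * max (t - st g K R (N.ql q - 1)) 0 + CC k kk (N.ql q)

/-- **A5** (fresh phase), from `NetAlgStmt`, `SqStmt`, `CrudeStmt`, `CompStmt`, `ChildUpStmt`,
`UpStmt`.  Let `t ≤ s_j`, `j = ql q`, `u_b` the unperturbed children.  For the successor `S` of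
`chi q b` (if `j < g`; no loss if `j = g`): `θ_S ≤ C_{j+1} =: C`, `x_{S0} ≤ 2 e^C δ_S`,
`x_{S1}(t) ≤ ε_* + ∫ κ_S P_S x_{S0} ≤ ε_* + 4 κ̄ e^C δ_S ∫_0^t x_{qb} ≤ ε_* + 4κ̄ e^C δ_S t u_b(t)`
(`u_b` nondecreasing, other parents `≤ √2`), so
`loss ≤ 2 κ̄ x_{S0} x_{S1} ≤ m u_b(t)`, `m = c e^{-kR}(1+s_{g+1})`, because `ε_* ≤ u_b`.
Comparison lemma for `w_b = x_b - (1 - m t) u_b`; `m s_{g+1} ≤ 1/2` for `R ≥ R₀`. -/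
def FreshStmt : Prop :=
  ∀ (g : ℕ) (k kk K : ℝ), 0 < k → 1 ≤ kk → 3 ≤ K → ∃ R₀ : ℝ, ∀ R ≥ R₀,
  ∀ (M Q : Type) [Fintype M] [DecidableEq M] [Fintype Q] (N : Net g M Q) (κ : Q → ℝ)
    (x : ℝ → M → ℝ), Run N κ k kk K R x →
    ∀ t ∈ Icc 0 (st g K R (g + 1)), NonnegTo x t → ∀ q, t ≤ st g K R (N.ql q) → ∀ b,
      (1 / 2) * uu (N.de κ K R q) (es g kk K R) (N.th κ x q t) b ≤ x t (N.chi q b)

/-! ### A6: filling -/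

/-- **A6a** (calculus).  `P ≥ 0` and `P(s) ≥ 1 - 3 (B / min(s-a, D/2)² + E e^{-2k(b-s)})` on
`[a+A, b]`, `D = b - a`: then `∫_a^b P ≥ D - A - 3 (B/A + 4B/D + E/(2k))`.
Proof: `1/min² ≤ 1/(s-a)² + 4/D²`, so `∫_{a+A}^b B/min(s-a,D/2)² ≤ B/A + 4B/D`;
`∫ E e^{-2k(b-s)} ≤ E/(2k)`; if `a + A > b` the claim is trivial. -/
def SupplyStmt : Prop :=
  ∀ (a b A B E k : ℝ) (P : ℝ → ℝ), a < b → 0 < A → 0 ≤ B → 0 ≤ E → 0 < k →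
    ContinuousOn P (Icc a b) → (∀ s ∈ Icc a b, 0 ≤ P s) →
    (∀ s ∈ Icc a b, a + A ≤ s →
      1 - 3 * (B / min (s - a) ((b - a) / 2) ^ 2 + E * Real.exp (-(2 * k * (b - s)))) ≤ P s) →
    (b - a) - A - 3 * (B / A + 4 * B / (b - a) + E / (2 * k)) ≤ ∫ s in a..b, P s

/-- **A6b** (calculus).  `τ' ≥ κ τ (1-η-τ)_+^{3/2}`, `τ(a) ≥ m`, `κ ≥ k`, `η ≤ 1/100`.  While
`1-η-τ ≥ 1/2`: `τ' ≥ 0.35 k τ`; so `1-η-τ < 1/2` from `a + A₁` on, `A₁ = log(1/m)/(0.35 k)`.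
Then `w = 1-η-τ` is either `≤ 0` or `(w^{-1/2})' ≥ 0.245 k`, so
`w(t) ≤ 16.7/(k²(t-a-A₁)²) ≤ 67/(k²(t-a)²)` for `t ≥ a + 2 A₁`. -/
def ScalarFillStmt : Prop :=
  ∀ (a b k m η : ℝ) (τ τ' : ℝ → ℝ), a ≤ b → 0 < k → 0 < m → m ≤ 1 → 0 ≤ η → η ≤ 1 / 100 →
    (∀ s ∈ Icc a b, HasDerivWithinAt τ (τ' s) (Icc a b) s) → m ≤ τ a →
    (∀ s ∈ Icc a b, k * τ s * (max (1 - η - τ s) 0) ^ (3 / 2 : ℝ) ≤ τ' s) →
    (∀ s ∈ Icc a b, 0 ≤ τ' s) →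
    ∀ t ∈ Icc a b, a + 2 * (Real.log (1 / m) / (7 / 20 * k)) ≤ t → a < t →
      1 - τ t ≤ η + 67 / (k ^ 2 * (t - a) ^ 2)

/-- the filling bound for the quintet `q` at time `t`, with waiting time `A` -/
def FillAt (N : Net g M Q) (κ : Q → ℝ) (k K R : ℝ) (x : ℝ → M → ℝ) (A : ℝ) (q : Q) (t : ℝ) : Prop :=
  st g K R (N.ql q) + A ≤ t →
    1 - N.ta κ x q t ≤ BB k / min (t - st g K R (N.ql q)) (Dl g K R (N.ql q + 1) / 2) ^ 2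

/-- **A6c** (lower bound of `θ_q(s_j)`, `j = ql q`), from `SqStmt`, `CrudeStmt`, `ChildUpStmt`,
`UpStmt`, `SupplyStmt`.  Assume the filling bound (waiting time `A`) for the quintets of level
`j - 1`.  On `[s_{j-1}+A, s_j]` each parent `π` of `q` satisfies `x² = X² - τ_q`,
`X² = x(0)² + τ_{src π} ≥ 1 - B/min(s-s_{j-1},Δ_j/2)²` (`X = 1` if `j=1`, level `0` parents),
`τ_q ≤ 4 e^{2C_j} e^{-2k(s_j-s)}` (`ChildUpStmt`, `UpStmt`, `δ_q = e^{-κ_qΔ_j}`).  A nonnegative number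
with square `≥ 1-d` is `≥ 1-d`; the product of three such numbers is `≥ 1-3d` (also if `d > 1`).
`SupplyStmt` on `[s_{j-1}, s_j]` with `E = 4e^{2C_j}` gives `∫ P ≥ Δ_j - C`, and multiply by `κ_q`. -/
def ThLowStmt : Prop :=
  ∀ (g : ℕ) (k kk K A : ℝ), 0 < k → 1 ≤ kk → 3 ≤ K → 0 < A → ∃ C R₀ : ℝ, 0 < C ∧ ∀ R ≥ R₀,
  ∀ (M Q : Type) [Fintype M] [DecidableEq M] [Fintype Q] (N : Net g M Q) (κ : Q → ℝ)
    (x : ℝ → M → ℝ), Run N κ k kk K R x →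
    ∀ t ∈ Icc 0 (st g K R (g + 1)), NonnegTo x t → ∀ q, st g K R (N.ql q) ≤ t →
      (∀ q', N.ql q' + 1 = N.ql q → ∀ s ∈ Icc 0 t, FillAt N κ k K R x A q' s) →
      κ q * Dl g K R (N.ql q) - C ≤ N.th κ x q (st g K R (N.ql q))

/-- **A6d** (one filling step), from `SqStmt`, `CrudeStmt`, `ChildUpStmt`, `UpStmt`,
`ScalarFillStmt`.  `j = ql q`, `x_{qb}(s_j) ≥ μ`.  Then `τ_q(s_j) ≥ μ² - ε_*² ≥ μ²/2`.  On
`[s_j, s_j + Δ_{j+1}/2]` the successors are negligible: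
`τ_S ≤ 4 e^{2C_{j+1}} e^{-kΔ_{j+1}} =: ν ≤ μ²/8` (`S` the quintet having `chi q b` as a parent, `j<g`),
`τ_q ≥ τ_q(s_j) ≥ μ²/2`, `x_{q0} x_{q1} ≥ τ_q - ν ≥ τ_q/2` (`x_{qb}² = x(0)² + τ_q - τ_S`), parents
`x² ≥ 1-η-τ_q`, `η = 4B/Δ_j²` (`0` if `j=1`; from the filling bound of level `j-1`, `A' ≤ Δ_j/2`); so
`τ_q' ≥ κ_q τ_q (1-η-τ_q)_+^{3/2}`: `ScalarFillStmt` (with `m = μ²/2`) gives
`1-τ_q ≤ η + 67/(k²(t-s_j)²) ≤ B/(t-s_j)²` since `t-s_j ≤ Δ_{j+1}/2 = Δ_j/(2K)` and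
`η (t-s_j)² ≤ B/K² ≤ B/9 ≤ 67/k²`.  For `t ≥ s_j + Δ_{j+1}/2` use that `τ_q` is nondecreasing. -/
def FillStepStmt : Prop :=
  ∀ (g : ℕ) (k kk K A' μ : ℝ), 0 < k → 1 ≤ kk → 3 ≤ K → 0 < A' → 0 < μ → μ ≤ 1 →
  ∃ A R₀ : ℝ, 0 < A ∧ ∀ R ≥ R₀,
  ∀ (M Q : Type) [Fintype M] [DecidableEq M] [Fintype Q] (N : Net g M Q) (κ : Q → ℝ)
    (x : ℝ → M → ℝ), Run N κ k kk K R x →
    ∀ t ∈ Icc 0 (st g K R (g + 1)), NonnegTo x t → ∀ q, st g K R (N.ql q) ≤ t →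
      (∀ q', N.ql q' + 1 = N.ql q → ∀ s ∈ Icc 0 t, FillAt N κ k K R x A' q' s) →
      (∀ b, μ ≤ x (st g K R (N.ql q)) (N.chi q b)) →
      μ ^ 2 / 2 ≤ N.ta κ x q (st g K R (N.ql q)) ∧ ∀ s ∈ Icc 0 t, FillAt N κ k K R x A q s

/-- **A6** (filling), from `FreshStmt`, `ThLowStmt`, `FillStepStmt`.  Induction on the level
`j = ql q ≤ g` with constants `A_j, μ_j`, then take the maximum and the minimum (the bound `FillAt` is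
monotone in `A`).  Given level `j-1`: `ThLowStmt` gives `θ_q(s_j) ≥ κ_qΔ_j - C`, so
`u_b(s_j) ≥ ¼ e^{-C}` (`R` large so that `θ_q ≥ 1`; `sinh θ ≥ ¼ e^θ`), `FreshStmt` gives
`x_{qb}(s_j) ≥ μ_j := min(1, ⅛ e^{-C})`, then `FillStepStmt`.  (Level `1`: no quintets of level `0`.) -/
def FillStmt : Prop :=
  ∀ (g : ℕ) (k kk K : ℝ), 0 < k → 1 ≤ kk → 3 ≤ K → ∃ A μ R₀ : ℝ, 0 < A ∧ 0 < μ ∧ μ ≤ 1 ∧ ∀ R ≥ R₀,
  ∀ (M Q : Type) [Fintype M] [DecidableEq M] [Fintype Q] (N : Net g M Q) (κ : Q → ℝ)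
    (x : ℝ → M → ℝ), Run N κ k kk K R x →
    ∀ t ∈ Icc 0 (st g K R (g + 1)), NonnegTo x t → ∀ q, st g K R (N.ql q) ≤ t →
      (∀ b, μ ≤ x (st g K R (N.ql q)) (N.chi q b)) ∧
      μ ^ 2 / 2 ≤ N.ta κ x q (st g K R (N.ql q)) ∧ FillAt N κ k K R x A q t

/-! ### A7, A8 -/

/-- **A7a** (calculus).  `z(a) ≥ 1/2`, `z' ≥ -4κ̄ z^{3/2}`; then `z > 0` on `[a,b]` and
`z(t) ≥ (√2 + 2κ̄(t-a))^{-2}`.  Proof: while `z > 0`, `(z^{-1/2})' ≤ 2κ̄`; a first zero is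
impossible because `z^{-1/2}` stays bounded. -/
def ScalarLowStmt : Prop :=
  ∀ (a b kk : ℝ) (z z' : ℝ → ℝ), a ≤ b → 0 < kk →
    (∀ s ∈ Icc a b, HasDerivWithinAt z (z' s) (Icc a b) s) → 1 / 2 ≤ z a →
    (∀ s ∈ Icc a b, 0 < z s → -(4 * kk * z s ^ (3 / 2 : ℝ)) ≤ z' s) →
    ∀ t ∈ Icc a b, 1 / (Real.sqrt 2 + 2 * kk * (t - a)) ^ 2 ≤ z t

/-- the time `A''_j = (C_j + 2)/k`: `4 e^{2 C_j - 2 k A''_j} ≤ 1/2` -/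
def Ap (k kk : ℝ) (j : ℕ) : ℝ := (CC k kk j + 2) / k

/-- **A7b** (positivity, late times), from `SqStmt`, `CrudeStmt`, `ChildUpStmt`, `UpStmt`,
`FillStmt`, `ScalarLowStmt`.  `π = par q i`, `j = ql q`, `t ≥ s_j - A''_j`, `x_π² = X² - τ_q` where
`X² = x_π(0)² + τ_{src π}` (`X = 1` if `j = 1`).  `z = 1 + 2ω - τ_q` satisfies `z(s_j - A''_j) ≥ 1/2`
(`τ_q ≤ 4e^{2C_j-2kA''_j} ≤ 1/2`), `z' ≥ -4κ̄ z^{3/2}` (`P_q ≤ z^{3/2}` since `x_π² ≤ 1 + 2ω - τ_q`;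
`x_{q0} x_{q1} ≤ 2`), so `z ≥ (√2+2κ̄(t-s_j+A''_j))^{-2} ≥ (7κ̄Δ_{j+1})^{-2} = K²/(49κ̄²Δ_j²)` (since
`s_{g+1}-s_j ≤ 1.5 Δ_{j+1}`, `R` large); for `j ≥ 2`, `X² ≥ 1 - 4B/Δ_j²` (`FillAt` for the source, level
`j-1`, since `s_j - A''_j ≥ s_{j-1} + Δ_j/2`), so `x_π² ≥ z - 2ω - 4B/Δ_j² > 0` since
`49κ̄²(4B+1) < K²` and `2ωΔ_1² ≤ 1` for `R` large.  For `j = 1`, `x_π² = 1 - τ_q ≥ z - 2ω > 0`. -/
def PosLateStmt : Prop :=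
  ∀ (g : ℕ) (k kk K : ℝ), 0 < k → 1 ≤ kk → 3 ≤ K → 49 * kk ^ 2 * (4 * BB k + 1) < K ^ 2 →
  ∃ R₀ : ℝ, ∀ R ≥ R₀,
  ∀ (M Q : Type) [Fintype M] [DecidableEq M] [Fintype Q] (N : Net g M Q) (κ : Q → ℝ)
    (x : ℝ → M → ℝ), Run N κ k kk K R x →
    ∀ t ∈ Icc 0 (st g K R (g + 1)), NonnegTo x t → ∀ q i,
      st g K R (N.ql q) - Ap k kk (N.ql q) ≤ t → 0 < x t (N.par q i)

/-- **A7c** (positivity, early times), from `SqStmt`, `CrudeStmt`, `ChildUpStmt`, `UpStmt`,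
`FreshStmt`, `FillStmt`.  `π = par q i`, `j = ql q`, `t ≤ s_j - A''_j`, `x_π² = X² - τ_q`.
`j = 1`: `x_π² = 1 - τ_q ≥ 1/2`.  `j ≥ 2`, `π` a child of `q'` of level `j-1`:
I `t ≤ s_{j-1}`: `FreshStmt` for `q'` (`u_b > 0`).
II `t ∈ [s_{j-1}, s_{j-1}+Δ_j/2]`: `X² ≥ τ_{q'}(s_{j-1}) ≥ μ²/2 > 4e^{2C_j}e^{-kΔ_j} ≥ τ_q` (`R` large).
II' `t ∈ [s_{j-1}+Δ_j/2, s_j-A''_j]`: `X² ≥ 1-4B/Δ_j² ≥ 3/4` (`FillAt`), `τ_q ≤ 4e^{2C_j-2kA''_j} ≤ 1/2`. -/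
def PosEarlyStmt : Prop :=
  ∀ (g : ℕ) (k kk K : ℝ), 0 < k → 1 ≤ kk → 3 ≤ K →
  ∃ R₀ : ℝ, ∀ R ≥ R₀,
  ∀ (M Q : Type) [Fintype M] [DecidableEq M] [Fintype Q] (N : Net g M Q) (κ : Q → ℝ)
    (x : ℝ → M → ℝ), Run N κ k kk K R x →
    ∀ t ∈ Icc 0 (st g K R (g + 1)), NonnegTo x t → ∀ q i,
      t ≤ st g K R (N.ql q) - Ap k kk (N.ql q) → 0 < x t (N.par q i)

/-- **A8** (cascade), from `RunExistsStmt`, `SqStmt`, `CrudeStmt`, `FillStmt`, `PosLateStmt`,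
`PosEarlyStmt`.  `k ≤ κ_q ≤ κ̄` for suitable `k, κ̄` (finite set), `K ≥ 3` with
`49κ̄²(4B+1) < K²`, `R` large.  All modes are positive at time `0`.  If all modes are `≥ 0` on
`[0,t]` then all are `> 0` on `[0,t]`: modes of level `< g` are parents (late / early), modes of level
`g ≥ 1` satisfy `x² = x(0)² + τ_q ≥ x(0)² > 0`; so by continuity (`IsClosed.Icc_subset_of_forall_exists_gt`)
all are `≥ 0` on `[0, s_{g+1}]`.  At `T = s_{g+1} = s_g + R`, level `g`: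
`x² ≥ τ_q ≥ 1 - 4B/R²`, so `x ≥ 1 - ε`.  Seeds: `≤ e^{-kR} ≤ ε`.  `g = 0`: the constant solution. -/
def CascadeFromStmt : Prop :=
  RunExistsStmt → SqStmt → CrudeStmt → FillStmt → PosLateStmt → PosEarlyStmt → CascadeStmt

end GKdV
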