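import Pool.Agent.Lib.MP_cb0de5_an.Spec

/-!
# Part B: arithmetic networks (modules B1-B6) and the bridge to the resonant system (AB1-AB3)
-/

open MeasureTheory Filter Topology Set

noncomputable section

namespace GKdV

variable {g : ℕ} {M Q : Type}

/-! ## B1-B3: the two-parameter family of shapes -/

/-- The five polynomials `P₁, ..., P₅` of `(s, u)`. -/
def PP {F : Type*} [CommRing F] (s u : F) : Fin 5 → F :=
  ![s * (u ^ 2 - s * u ^ 2 - 1), (u - 1) * (u - s * (u + 1)),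
    (s * u - 1) * (s * u - u + 1), u * (1 - s) * (1 + s - u), u * s ^ 2 - u + 1]

/-- The cubic form `(∑ B_i w_i)³ - ∑ C_i w_i³`. -/
def FF {F : Type*} [CommRing F] (B C w : Fin 5 → F) : F :=
  (∑ i, B i * w i) ^ 3 - ∑ i, C i * w i ^ 3

/-- The special pairs `(B, C)`: `B` is constant except possibly at one place, and
`C_i - C_j = (B_i - B_j)³`. -/
def Special (B C : Fin 5 → ℚ) : Prop :=
  (∃ i₀ : Fin 5, ∀ i j, i ≠ i₀ → j ≠ i₀ → B i = B j) ∧ ∀ i j, C i - C j = (B i - B j) ^ 3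

/-- **B2** (lines).  If `F_{B,C}` vanishes at all points `P(s,u)`, then `(B,C)` is special.
Proof: `P` maps the following curves onto full lines `w_i = x, w_j = -x, w_k = y, w_l = -y, w_m = 0`
(proportionality factor in front; `F` is homogeneous, so for a nonzero factor `F` vanishes at the
vector in brackets):
`u = 1/(1-s²)`: `∝ (s,-s,1,-1,0)`;  `s = 1-1/u²`: `∝ (0,u,-u,1,-1)`;  `s = 0`: `(u-1)(0,u,1,-u,-1)`;
`u = 0`: `(-s,s,-1,0,1)`;  `s = 1`: `(-1,1-u,u-1,0,1)`;  `u = 1+s`: `s(1-s-s²)(s,1,-s,0,-1)`;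
`u = 1`: `s(-s,0,s-1,1-s,s)`;  `s = u/(u+1)`: `(u²-u-1)/(u+1)² · (u,0,1,-u,-1)`;
`s = 1/u`: `(u²-u-1)/u · (1,u-1,0,-(u-1),-1)`;  `s = (u-1)/u`: `(u-1)/u · (u-1,1,0,-(u-1),-1)`.
On such a line `(α x + β y)³ = γ x³ + δ y³` for infinitely many ratios `x : y`, where
`α = B_i - B_j`, `β = B_k - B_l`, `γ = C_i - C_j`, `δ = C_k - C_l`; hence `α β = 0`, `α³ = γ`,
`β³ = δ`.  The ten lines `12|34, 23|45, 24|35, 12|35, 15|23, 13|25, 15|34, 14|35, 15|24, 14|25`
cover all ten pairs, which gives the second claim; for the first: for every 2-element set `{d,e}`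
some line in the list crosses between `{d,e}` and its complement in both pairs, so it is impossible
that all `B`-values on `{d,e}` differ from those on the complement; a finite case check. -/
def LinesStmt : Prop :=
  ∀ B C : Fin 5 → ℚ, (∀ s u : ℚ, FF B C (PP s u) = 0) → Special B C

/-- **B3** (selection), from `LinesStmt`.  For every finite set of non-special pairs and every
finite set `X` of nonzero rationals, and every `θ ∈ [3/2, 5/3]`, there is a rational point of the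
family, `w = -P(s,u)` with signs `(+,+,+,-,-)`, near `(s,u) = (1/15, 3/4)`, where
`-P = (19/600)(1,5,9,-7,-8)`, such that no bad relation holds, `x w_i ≠ y w_j` for `x, y ∈ X`,
`i ≠ j`, and the growth factor is `≥ 1.01`.
Proof: for a non-special pair, `F_{B,C}(P(s,u))` is a nonzero polynomial in `(s,u)` (write it as an
element of `ℚ[X][Y]`; by `LinesStmt` it does not vanish identically); likewise `x P_i - y P_j ≠ 0`
(e.g. look at the zero sets: `P_i` and `P_j` are not proportional).  A nonzero polynomial in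
`ℚ[X][Y]` has, for all but finitely many `u`, a nonzero specialization in `ℚ[X]`, which has finitely
many roots: choose first `u`, then `s`, in any prescribed open intervals.  Growth at the base point:
`(7/9)^θ + (8/9)^θ ≥ (7/9)^{5/3}+(8/9)^{5/3} ≥ 1.479` and
`(1/9)^θ+(5/9)^θ+1 ≤ (1/9)^{3/2}+(5/9)^{3/2}+1 ≤ 1.4513`; continuity. -/
def SelectStmt : Prop :=
  ∀ (θ : ℝ), 3 / 2 ≤ θ → θ ≤ 5 / 3 → ∀ (𝓑 : Finset ((Fin 5 → ℚ) × (Fin 5 → ℚ))) (X : Finset ℚ),
    (∀ p ∈ 𝓑, ¬ Special p.1 p.2) → (0 : ℚ) ∉ X →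
    ∃ w : Fin 5 → ℚ, 0 < w 0 ∧ 0 < w 1 ∧ 0 < w 2 ∧ w 3 < 0 ∧ w 4 < 0 ∧
      w 0 + w 1 + w 2 + w 3 + w 4 = 0 ∧ w 0 ^ 3 + w 1 ^ 3 + w 2 ^ 3 + w 3 ^ 3 + w 4 ^ 3 = 0 ∧
      (∀ p ∈ 𝓑, FF p.1 p.2 w ≠ 0) ∧
      (∀ x ∈ X, ∀ y ∈ X, ∀ i j, i ≠ j → x * w i ≠ y * w j) ∧
      (101 / 100 : ℝ) * (((w 0 : ℚ) : ℝ) ^ θ + ((w 1 : ℚ) : ℝ) ^ θ + ((w 2 : ℚ) : ℝ) ^ θ)
        ≤ ((-(w 3) : ℚ) : ℝ) ^ θ + ((-(w 4) : ℚ) : ℝ) ^ θ

/-! ## B4-B6: the networks -/

/-- Rational version of `IsArith`. -/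
structure IsArithQ (N : Net g M Q) (f : M → ℚ) : Prop where
  pos : ∀ m, 0 < f m
  inj : Function.Injective f
  lin : ∀ q, f (N.par q 0) + f (N.par q 1) + f (N.par q 2) = f (N.chi q 0) + f (N.chi q 1)
  cub : ∀ q, f (N.par q 0) ^ 3 + f (N.par q 1) ^ 3 + f (N.par q 2) ^ 3
    = f (N.chi q 0) ^ 3 + f (N.chi q 1) ^ 3
  closed : ∀ a b c d : ℚ, (∃ m, |a| = f m) → (∃ m, |b| = f m) → (∃ m, |c| = f m) →
    (∃ m, |d| = f m) → a + b + c + d ≠ 0 →
    a ^ 3 + b ^ 3 + c ^ 3 + d ^ 3 = (a + b + c + d) ^ 3 →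
    ∃ q, ∃ e : ℚ, (e = 1 ∨ e = -1) ∧
      ({a, b, c, d, -(a + b + c + d)} : Multiset ℚ) =
        {e * f (N.par q 0), e * f (N.par q 1), e * f (N.par q 2),
          -(e * f (N.chi q 0)), -(e * f (N.chi q 1))}

/-- Modes of level `g` (top modes). -/
abbrev Net.Top (N : Net g M Q) : Type := {m : M // N.lv m = g}

/-- **B4a** (product step, combinatorial part).  Modes `M × Fin 3 ⊕ Top × Fin 2`, quintets
`Q × Fin 3 ⊕ Top`: levels `lv m`, resp. `g + 1`; `(q,k) ↦` parents `(par q i, k)`, children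
`(chi q b, k)`; `m ∈ Top ↦` parents `(m,0),(m,1),(m,2)`, children `(m,0)', (m,1)'`. -/
def Net.step (N : Net g M Q) : Net (g + 1) (M × Fin 3 ⊕ N.Top × Fin 2) (Q × Fin 3 ⊕ N.Top) where
  lv := Sum.elim (fun p => N.lv p.1) (fun _ => g + 1)
  ql := Sum.elim (fun p => N.ql p.1) (fun _ => g + 1)
  par := Sum.elim (fun p i => Sum.inl (N.par p.1 i, p.2)) (fun m i => Sum.inl (m.1, i))
  chi := Sum.elim (fun p b => Sum.inl (N.chi p.1 b, p.2)) (fun m b => Sum.inr (m, b))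
  lv_par := by
    rintro (⟨q, k⟩ | m) i
    · exact N.lv_par q i
    · simp [m.2]
  lv_chi := by
    rintro (⟨q, k⟩ | m) b
    · exact N.lv_chi q b
    · simp
  lv_le := by
    rintro (⟨m, k⟩ | m)
    · exact (N.lv_le m).trans (Nat.le_succ g)
    · simp
  par_inj := by
    rintro (⟨q, k⟩ | m) i (⟨q', k'⟩ | m') i' h
    · simp only [Sum.elim_inl, Sum.inl.injEq, Prod.mk.injEq] at h
      obtain ⟨h1, h2⟩ := N.par_inj q i q' i' h.1
      exact ⟨by rw [h1, h.2], h2⟩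
    · exfalso
      simp only [Sum.elim_inl, Sum.elim_inr, Sum.inl.injEq, Prod.mk.injEq] at h
      have h1 := N.lv_par q i
      have h2 := N.lv_chi q 0
      have h3 := N.lv_le (N.chi q 0)
      rw [h.1, m'.2] at h1
      omega
    · exfalso
      simp only [Sum.elim_inl, Sum.elim_inr, Sum.inl.injEq, Prod.mk.injEq] at h
      have h1 := N.lv_par q' i'
      have h2 := N.lv_chi q' 0
      have h3 := N.lv_le (N.chi q' 0)
      rw [← h.1, m.2] at h1
      omega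
    · simp only [Sum.elim_inr, Sum.inl.injEq, Prod.mk.injEq] at h
      exact ⟨by rw [Sum.inr.injEq]; exact Subtype.ext h.1, h.2⟩
  chi_inj := by
    rintro (⟨q, k⟩ | m) b (⟨q', k'⟩ | m') b' h
    · simp only [Sum.elim_inl, Sum.inl.injEq, Prod.mk.injEq] at h
      obtain ⟨h1, h2⟩ := N.chi_inj q b q' b' h.1
      exact ⟨by rw [h1, h.2], h2⟩
    · simp at h
    · simp at h
    · simp only [Sum.elim_inr, Sum.inr.injEq, Prod.mk.injEq] at h
      exact ⟨by rw [h.1], h.2⟩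
  par_surj := by
    rintro (⟨m, k⟩ | m) h
    · simp only [Sum.elim_inl] at h
      rcases Nat.lt_or_ge (N.lv m) g with h1 | h1
      · obtain ⟨q, i, hq⟩ := N.par_surj m h1
        exact ⟨Sum.inl (q, k), i, by simp [hq]⟩
      · exact ⟨Sum.inr ⟨m, le_antisymm (N.lv_le m) h1⟩, k, by simp⟩
    · simp at h
  chi_surj := by
    rintro (⟨m, k⟩ | ⟨m, b⟩) h
    · simp only [Sum.elim_inl] at h
      obtain ⟨q, b, hq⟩ := N.chi_surj m h
      exact ⟨Sum.inl (q, k), b, by simp [hq]⟩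
    · exact ⟨Sum.inr m, b, by simp⟩

/-- frequencies of the product step; `w` signed with signs `(+,+,+,-,-)` -/
def Net.stepF (N : Net g M Q) (f : M → ℚ) (w : Fin 5 → ℚ) : M × Fin 3 ⊕ N.Top × Fin 2 → ℚ :=
  Sum.elim (fun p => f p.1 * w (Fin.castLE (by norm_num) p.2))
    (fun p => -(f p.1.1 * w (if p.2 = 0 then 3 else 4)))

/-- The finite set of pairs `(B, C)` produced by four signed modes `c_i = (m_i, e_i)`,
`m_i ∈ ± f(M)`, `e_i ∈ Fin 5`: `B_e = ∑_{e_i = e} m_i`, `C_e = ∑_{e_i = e} m_i³`. -/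
def pairOf (c : Fin 4 → ℚ × Fin 5) : (Fin 5 → ℚ) × (Fin 5 → ℚ) :=
  (fun e => ∑ i, if (c i).2 = e then (c i).1 else 0,
    fun e => ∑ i, if (c i).2 = e then (c i).1 ^ 3 else 0)

/-- **B5** (closedness of the product step).  Let `f` realise `N`, let `w` be a shape such that no
non-special pair `pairOf c` (`c_i = (m_i, e_i)`, `|m_i| ∈ f(M)`) satisfies `F(w) = 0`, and
`|m| w_i ≠ ± |m'| w_j` for `i ≠ j`.  Then `stepF` realises `N.step`.
Proof: positivity and the two relations are clear.  Injectivity: `f m w_k = f m' w_{k'}` (up to sign)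
forces `k = k'` and `m = m'`.  Closedness: the four numbers are `a_i = m_i w_{e_i}` with
`m_i ∈ ± f(M)` (for a child entry `e ∈ {3,4}`, `m_i ∈ ± f(Top)`).  With `(B,C) = pairOf`, the
relation says `F_{B,C}(w) = 0`, so `(B,C)` is special: `B = β + c δ_{i₀}`, `C = γ + c³ δ_{i₀}`.
Among the five entries some entry `e` is not used, so `B_e = C_e = 0`.
(1) Suppose some unused `e ≠ i₀`.  Then `β = γ = 0`.  Each group `e' ≠ i₀` has `∑ m = 0`,
`∑ m³ = 0`: size 1 is impossible (`m ≠ 0`); size 3: `m₁+m₂+m₃ = 0` and `∑m³ = 3m₁m₂m₃ = 0`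
impossible; size 2: the two `a_i` cancel; size 4: `n = ∑ a_i = 0`, excluded.  If two of the `a_i`
cancel, the other two satisfy `(x+y)³ = x³+y³`, so `x y (x+y) = 0`, `x+y=0`, `n = 0`, excluded.
So all four are in the group `i₀`: `m₁,...,m₄` is a resonance of `f`, hence with `-(∑m)` it is
`±` a quintet `q` of `N`; if `i₀ ∈ {0,1,2}` this gives the quintet `(q, i₀)` of the step (sign `e`;
`w_{i₀} > 0`); if `i₀ ∈ {3,4}` all four `m_i` are `±` top modes, but four members of a quintet of `N`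
contain a parent, whose level is `< g` (injectivity of `f`): impossible.
(2) Otherwise the only unused entry is `i₀`, each other entry is used once, `m_e = B_e = β` for all
`e ≠ i₀`; a child entry is used, so `|β| = f m` with `m ∈ Top`; the fifth number is
`-∑ a_i = β w_{i₀}` (as `∑ w = 0`): the quintet `m` of the step, sign of `β`. -/
def StepArithStmt : Prop :=
  ∀ (g : ℕ) (M Q : Type) [Fintype M] [DecidableEq M] [Fintype Q] (N : Net g M Q) (f : M → ℚ)
    (w : Fin 5 → ℚ), IsArithQ N f → 0 < w 0 → 0 < w 1 → 0 < w 2 → w 3 < 0 → w 4 < 0 →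
    w 0 + w 1 + w 2 + w 3 + w 4 = 0 → w 0 ^ 3 + w 1 ^ 3 + w 2 ^ 3 + w 3 ^ 3 + w 4 ^ 3 = 0 →
    (∀ c : Fin 4 → ℚ × Fin 5, (∀ i, ∃ m, |(c i).1| = f m) →
      ¬ Special (pairOf c).1 (pairOf c).2 → FF (pairOf c).1 (pairOf c).2 w ≠ 0) →
    (∀ x y : ℚ, (∃ m, |x| = f m) → (∃ m, |y| = f m) → ∀ i j, i ≠ j → x * w i ≠ y * w j) →
    IsArithQ N.step (N.stepF f w)

/-- **B6** (assembly), from `SelectStmt`, `StepArithStmt`.  Induction on `g`, starting with the
network of depth `0` (`M = Unit`, `Q = Empty`, `f = 1`; closed: `a,b,c,d = ±1`, `n = ±4, ±2, 0`,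
`n³ ≠ ∑a³ = n` unless `n = 0`).  Each step multiplies the ratio of the level sums by `≥ 1.01`:
`∑_{level g+1} = ∑_{Top} f^θ (|w₃|^θ + |w₄|^θ)`, `∑_{level 0} = ∑_{level 0} f^θ (w₀^θ+w₁^θ+w₂^θ)`.
(Level `0` of the step: `M₀ × Fin 3`; if `g = 0` top = level 0.)
Finally multiply all frequencies by a common denominator. -/
def ArithFromStmt : Prop := SelectStmt → StepArithStmt → ArithStmt

/-! ## AB: bridge -/

/-- signed modes of an arithmetic network -/
def lam [Fintype M] (f : M → ℤ) : Finset ℤ :=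
  Finset.univ.image f ∪ Finset.univ.image (fun m => -f m)

/-- **AB1** (the resonant sum).  Let `f` realise `N`, `A : ℤ → ℂ` with `A (-n) = conj (A n)`.  For
`n = f m` the resonant sum is `24 ×` (child term) `+ 24 ×` (parent term):
by `closed` the quadruples `p ∈ Λ⁴` with sum `n ≠ 0` and cubes `n³` have
`{p₁,p₂,p₃,p₄,-n} = ± quintet q`, so `n` is (by positivity and injectivity: `-n = -f(chi q b)` with
`e = 1`, or `-n = -f (par q i)` with `e = -1`) a child of `q`, `{p} = {f par0, f par1, f par2,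
-f chi(other)}`, or a parent of `q`, `{p} = {f chi0, f chi1, -f par, -f par'}`; the four entries are
distinct, so there are `24` orderings, all giving the same product; conversely all of them occur. -/
def ResSumStmt : Prop :=
  ∀ (g : ℕ) (M Q : Type) [Fintype M] [DecidableEq M] [Fintype Q] (N : Net g M Q) (f : M → ℤ),
    IsArith N f → ∀ A : ℤ → ℂ, (∀ n, A (-n) = (starRingEnd ℂ) (A n)) → ∀ m,
    ∑ p ∈ (lam f ×ˢ lam f ×ˢ lam f ×ˢ lam f).filter
      (fun p => p.1 + p.2.1 + p.2.2.1 + p.2.2.2 = f m ∧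
        p.1 ^ 3 + p.2.1 ^ 3 + p.2.2.1 ^ 3 + p.2.2.2 ^ 3 = f m ^ 3),
      A p.1 * A p.2.1 * A p.2.2.1 * A p.2.2.2 =
    24 * ∑ q,
      ((if N.chi q 0 = m then A (f (N.par q 0)) * A (f (N.par q 1)) * A (f (N.par q 2)) *
          (starRingEnd ℂ) (A (f (N.chi q 1))) else 0)
      + (if N.chi q 1 = m then A (f (N.par q 0)) * A (f (N.par q 1)) * A (f (N.par q 2)) *
          (starRingEnd ℂ) (A (f (N.chi q 0))) else 0)
      + (if N.par q 0 = m then (starRingEnd ℂ) (A (f (N.par q 1))) *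
          (starRingEnd ℂ) (A (f (N.par q 2))) * A (f (N.chi q 0)) * A (f (N.chi q 1)) else 0)
      + (if N.par q 1 = m then (starRingEnd ℂ) (A (f (N.par q 0))) *
          (starRingEnd ℂ) (A (f (N.par q 2))) * A (f (N.chi q 0)) * A (f (N.chi q 1)) else 0)
      + (if N.par q 2 = m then (starRingEnd ℂ) (A (f (N.par q 0))) *
          (starRingEnd ℂ) (A (f (N.par q 1))) * A (f (N.chi q 0)) * A (f (N.chi q 1)) else 0))

/-- **AB2** (from the real system to the resonant system), from `ResSumStmt`.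
`A_n(t) = √n e^{i α_{lv m}} x_m(t)` for `n = f m`, `A_{-n} = conj A_n`, `κ_q = 24 √(product of the five
frequencies)`, phases with `3 α_{j-1} - 2 α_j = σ π/2`, i.e. `α_0 = 0`,
`α_{j} = (3 α_{j-1} - σπ/2)/2`; then `-iσ e^{i(3α_{j-1}-2α_j)} = 1`, `-iσ e^{-i(3α_{j-1}-2α_j)} = -1`. -/
def BridgeStmt : Prop :=
  ∀ (g : ℕ) (M Q : Type) [Fintype M] [DecidableEq M] [Fintype Q] (N : Net g M Q) (f : M → ℤ),
    IsArith N f → ∀ σ : ℝ, (σ = 1 ∨ σ = -1) → ∃ κ : Q → ℝ, (∀ q, 0 < κ q) ∧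
    ∀ (S : ℝ) (x : ℝ → M → ℝ), 0 < S →
      (∀ t ∈ Icc 0 S, ∀ m, HasDerivAt (fun τ => x τ m) (N.field κ (x t) m) t) →
      ∃ A : ℝ → ℤ → ℂ, RSSol σ S (lam f) A ∧
        ∀ t s, rsNormSq s (lam f) (A t) = 2 * ∑ m, (f m : ℝ) ^ (1 + 2 * s) * x t m ^ 2

/-- **AB3** (growth), from `CascadeStmt`, `ArithStmt`, `BridgeStmt`: `θ = 1 + 2s ∈ [3/2, 5/3]`; take
`ε` small in the cascade theorem; `rsNormSq (A S) ≥ 2 (1-ε)² ∑_{level g} f^θ`,
`rsNormSq (A 0) ≤ 2 ∑_{level 0} f^θ + 2 ε² ∑_m f^θ`, and level `0` is nonempty (a mode of least level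
has level `0` by `chi_surj`, `lv_par`). -/
def GrowthFromStmt : Prop := CascadeStmt → ArithStmt → BridgeStmt → RSGrowthStmt

end GKdV
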