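import Pool.Agent.Lib.MP_cb0de5_an.SpecA

/-!
# Part C: from the resonant system to the equation (modules C0-C6)

Trigonometric polynomials are elements of `LP = AddMonoidAlgebra ℂ ℤ` (`f.coeff n` = coefficient of
`e^{inx}`); integration by parts is the identity `I0 (D f) = 0` plus the Leibniz rule.
-/

open MeasureTheory Filter Topology Set

noncomputable section

namespace GKdV

namespace LP

/-- `d/dx` -/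
def D (f : LP) : LP :=
  AddMonoidAlgebra.ofCoeff (Finsupp.onFinset f.coeff.support
    (fun n => Complex.I * (n : ℂ) * f.coeff n) (by
      intro n h
      rw [Finsupp.mem_support_iff]
      intro h'
      exact h (by rw [h', mul_zero])))

/-- projection to the frequencies `|n| ≤ K` -/
def cut (K : ℕ) (f : LP) : LP :=
  AddMonoidAlgebra.ofCoeff (f.coeff.filter (fun n => |n| ≤ (K : ℤ)))

/-- the mean -/
def I0 (f : LP) : ℂ := f.coeff 0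

/-- Wiener norm -/
def nA (f : LP) : ℝ := ∑ n ∈ f.coeff.support, ‖f.coeff n‖

/-- `L²` norm -/
def n2 (f : LP) : ℝ := Real.sqrt (∑ n ∈ f.coeff.support, ‖f.coeff n‖ ^ 2)

/-- real valued -/
def IsReal (f : LP) : Prop := ∀ n, f.coeff (-n) = (starRingEnd ℂ) (f.coeff n)

/-- mean zero -/
def MZ (f : LP) : Prop := f.coeff 0 = 0

/-- frequencies `|n| ≤ K` only -/
def Supp (K : ℕ) (f : LP) : Prop := ∀ n : ℤ, (K : ℤ) < |n| → f.coeff n = 0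

/-- value of a trigonometric polynomial at `x` (real part) -/
def ev (f : LP) (x : ℝ) : ℝ :=
  (∑ n ∈ f.coeff.support, f.coeff n * Complex.exp (Complex.I * n * x)).re

end LP

open LP

/-! ## C0: toolkit -/

/-- **C0a** algebra of `LP`.  (Leibniz: check on `single m a * single n b`, bilinear induction.) -/
structure AlgFacts : Prop where
  D_coeff : ∀ (f : LP) (n : ℤ), (D f).coeff n = Complex.I * n * f.coeff n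
  D_add : ∀ f g : LP, D (f + g) = D f + D g
  D_sub : ∀ f g : LP, D (f - g) = D f - D g
  D_neg : ∀ f : LP, D (-f) = -D f
  D_smul : ∀ (c : ℂ) (f : LP), D (c • f) = c • D f
  D_mul : ∀ f g : LP, D (f * g) = D f * g + f * D g
  I0_D : ∀ f : LP, I0 (D f) = 0
  I0_add : ∀ f g : LP, I0 (f + g) = I0 f + I0 g
  I0_sub : ∀ f g : LP, I0 (f - g) = I0 f - I0 g
  I0_smul : ∀ (c : ℂ) (f : LP), I0 (c • f) = c * I0 f
  cut_add : ∀ (K : ℕ) (f g : LP), cut K (f + g) = cut K f + cut K g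
  cut_sub : ∀ (K : ℕ) (f g : LP), cut K (f - g) = cut K f - cut K g
  cut_smul : ∀ (K : ℕ) (c : ℂ) (f : LP), cut K (c • f) = c • cut K f
  D_cut : ∀ (K : ℕ) (f : LP), D (cut K f) = cut K (D f)
  cut_of_supp : ∀ (K : ℕ) (f : LP), Supp K f → cut K f = f
  supp_cut : ∀ (K : ℕ) (f : LP), Supp K (cut K f)
  cut_cut : ∀ (K L : ℕ) (f : LP), K ≤ L → cut L (cut K f) = cut K f
  I0_cut : ∀ (K : ℕ) (f g : LP), I0 (cut K f * g) = I0 (f * cut K g)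
  real_add : ∀ f g : LP, IsReal f → IsReal g → IsReal (f + g)
  real_sub : ∀ f g : LP, IsReal f → IsReal g → IsReal (f - g)
  real_mul : ∀ f g : LP, IsReal f → IsReal g → IsReal (f * g)
  real_D : ∀ f : LP, IsReal f → IsReal (D f)
  real_cut : ∀ (K : ℕ) (f : LP), IsReal f → IsReal (cut K f)
  real_smul : ∀ (c : ℝ) (f : LP), IsReal f → IsReal ((c : ℂ) • f)
  mz_D : ∀ f : LP, MZ (D f)
  supp_D : ∀ (K : ℕ) (f : LP), Supp K f → Supp K (D f)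
  supp_mul : ∀ (K L : ℕ) (f g : LP), Supp K f → Supp L g → Supp (K + L) (f * g)
  supp_mono : ∀ (K L : ℕ) (f : LP), K ≤ L → Supp K f → Supp L f
  supp_add : ∀ (K : ℕ) (f g : LP), Supp K f → Supp K g → Supp K (f + g)
  supp_sub : ∀ (K : ℕ) (f g : LP), Supp K f → Supp K g → Supp K (f - g)
  supp_smul : ∀ (K : ℕ) (c : ℂ) (f : LP), Supp K f → Supp K (c • f)

/-- **C0b** norms.  `nA (f*g) ≤ nA f nA g`, `n2 (f*g) ≤ nA f n2 g`: write `f = ∑ single n (f n)`;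
multiplication by `single n c` is a shift.  `‖I0 (f*g)‖ = |∑ f_n g_{-n}| ≤ n2 f n2 g`.
Poincaré: `nA f = ∑_{n≠0} |n|⁻¹ |n f_n| ≤ (∑_{n≠0} n⁻²)^{1/2} n2 (D f)`, `π²/3 ≤ 4`.
Interpolation `n2 (D f)² = ∑ n²|f_n|² ≤ n2 f · n2 (D (D f))`. -/
structure NormFacts : Prop where
  nA_nonneg : ∀ f : LP, 0 ≤ nA f
  n2_nonneg : ∀ f : LP, 0 ≤ n2 f
  n2_sq : ∀ (f : LP) (s : Finset ℤ), f.coeff.support ⊆ s → n2 f ^ 2 = ∑ n ∈ s, ‖f.coeff n‖ ^ 2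
  nA_eq : ∀ (f : LP) (s : Finset ℤ), f.coeff.support ⊆ s → nA f = ∑ n ∈ s, ‖f.coeff n‖
  coeff_le : ∀ (f : LP) (n : ℤ), ‖f.coeff n‖ ≤ n2 f
  n2_le_nA : ∀ f : LP, n2 f ≤ nA f
  nA_add : ∀ f g : LP, nA (f + g) ≤ nA f + nA g
  nA_sub : ∀ f g : LP, nA (f - g) ≤ nA f + nA g
  n2_add : ∀ f g : LP, n2 (f + g) ≤ n2 f + n2 g
  n2_sub : ∀ f g : LP, n2 (f - g) ≤ n2 f + n2 g
  nA_smul : ∀ (c : ℂ) (f : LP), nA (c • f) = ‖c‖ * nA f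
  n2_smul : ∀ (c : ℂ) (f : LP), n2 (c • f) = ‖c‖ * n2 f
  nA_mul : ∀ f g : LP, nA (f * g) ≤ nA f * nA g
  n2_mul : ∀ f g : LP, n2 (f * g) ≤ nA f * n2 g
  I0_mul : ∀ f g : LP, ‖I0 (f * g)‖ ≤ n2 f * n2 g
  poinc_A : ∀ f : LP, MZ f → nA f ≤ 2 * n2 (D f)
  poinc_2 : ∀ f : LP, MZ f → n2 f ≤ n2 (D f)
  interp : ∀ f : LP, n2 (D f) ^ 2 ≤ n2 f * n2 (D (D f))
  I0_sq : ∀ f : LP, IsReal f → I0 (f * f) = ((n2 f ^ 2 : ℝ) : ℂ)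
  n2_cut : ∀ (K : ℕ) (f : LP), n2 (cut K f) ≤ n2 f
  nA_cut : ∀ (K : ℕ) (f : LP), nA (cut K f) ≤ nA f
  tail_2 : ∀ (K : ℕ) (f : LP), 0 < K → n2 (f - cut K f) ≤ n2 (D f) / K

/-- **C0d** (fourth power), from `AlgFacts`: if `f` is supported in the finite set `Λ`, then
`(f⁴)_n = ∑_{p ∈ Λ⁴, p₁+p₂+p₃+p₄ = n} f_{p₁} f_{p₂} f_{p₃} f_{p₄}`. -/
def Pow4Stmt : Prop :=
  ∀ (Λ : Finset ℤ) (f : LP), (∀ n ∉ Λ, f.coeff n = 0) → ∀ n : ℤ,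
    (f ^ 4).coeff n = ∑ p ∈ (Λ ×ˢ Λ ×ˢ Λ ×ˢ Λ).filter
      (fun p => p.1 + p.2.1 + p.2.2.1 + p.2.2.2 = n),
      f.coeff p.1 * f.coeff p.2.1 * f.coeff p.2.2.1 * f.coeff p.2.2.2

/-- **C0c** evaluation.  For the Fourier coefficients: orthogonality of the exponentials
(`f` real, so `ev f x = ∑ f_n e^{inx}` is really real). -/
structure EvFacts : Prop where
  ev_le : ∀ (f : LP) (x : ℝ), |ev f x| ≤ nA f
  ev_add : ∀ (f g : LP) (x : ℝ), ev (f + g) x = ev f x + ev g x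
  ev_sub : ∀ (f g : LP) (x : ℝ), ev (f - g) x = ev f x - ev g x
  ev_smul : ∀ (c : ℝ) (f : LP) (x : ℝ), ev ((c : ℂ) • f) x = c * ev f x
  ev_mul : ∀ (f g : LP), IsReal f → IsReal g → ∀ x : ℝ, ev (f * g) x = ev f x * ev g x
  ev_deriv : ∀ (f : LP) (x : ℝ), HasDerivAt (ev f) (ev (D f) x) x
  ev_periodic : ∀ f : LP, Function.Periodic (ev f) (2 * Real.pi)
  ev_sum : ∀ (f : LP) (s : Finset ℤ), f.coeff.support ⊆ s → ∀ x : ℝ,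
    ev f x = (∑ n ∈ s, f.coeff n * Complex.exp (Complex.I * n * x)).re
  fc_ev : ∀ (f : LP), IsReal f → ∀ (c : ℝ) (N : ℕ), 0 < N → ∀ m : ℤ,
    fc (fun x => c * ev f (N * x)) m = if (N : ℤ) ∣ m then c * f.coeff (m / N) else 0

/-! ## C1: Galerkin solutions -/

/-- A Galerkin solution `∂ₜ a = - D³ a - λ σ π_K D (a⁴)` on `[0, T]`. -/
structure Gal (K : ℕ) (lam σ T : ℝ) (a : ℝ → LP) : Prop where
  real : ∀ t ∈ Icc 0 T, IsReal (a t)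
  mz : ∀ t ∈ Icc 0 T, MZ (a t)
  supp : ∀ t ∈ Icc 0 T, Supp K (a t)
  ode : ∀ t ∈ Icc 0 T, ∀ n, HasDerivAt (fun τ => (a τ).coeff n)
    ((-D (D (D (a t))) - ((lam * σ : ℝ) : ℂ) • cut K (D (a t ^ 4))).coeff n) t

/-- **C1** (existence of Galerkin solutions), from `GlobStmt`, `AlgFacts`, `NormFacts`.
`E = EuclideanSpace ℂ (Fin K)` (as a real inner product space; `Fin K ∋ j ↦` frequency `j+1`),
`ι y = ∑_j (single (j+1) (y j) + single (-(j+1)) (conj (y j)))` (real, mean zero, `Supp K`),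
`F y j = (-D³ ι y - λσ π_K D((ι y)⁴)).coeff (j+1)`: polynomial in real and imaginary parts, so `C¹`;
the field at `-n` is the conjugate.  Skew: `⟪F y, y⟫ = Re ∑_j conj(y_j) F_j = ½ Re I0(ιy · G)`,
`G = -D³ιy - λσ D((ιy)⁴)` (`π_K` drops by `I0_cut`), `I0(f D³ f) = 0`,
`I0(f D(f⁴)) = (4/5) I0(D(f⁵)) = 0`. -/
def GalExistsStmt : Prop :=
  ∀ (K : ℕ) (lam σ T : ℝ) (φ : LP), 0 < T → IsReal φ → MZ φ → Supp K φ →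
    ∃ a : ℝ → LP, a 0 = φ ∧ Gal K lam σ T a

/-! ## C2: the approximate solution -/

/-- `A^{ph}_n(τ) = e^{i n³ τ} A_n(λ τ)`, `n ∈ Λ`. -/
def Aph (Λ : Finset ℤ) (A : ℝ → ℤ → ℂ) (lam t : ℝ) : LP :=
  ∑ n ∈ Λ, AddMonoidAlgebra.single n (Complex.exp (Complex.I * (n : ℂ) ^ 3 * t) * A (lam * t) n)

/-- An approximate solution with residual `r`, bounds `B`, and `‖D² r‖ ≤ ρ`. -/
structure Approx (L : ℕ) (lam σ T B ρ : ℝ) (b r : ℝ → LP) : Prop where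
  real : ∀ t ∈ Icc 0 T, IsReal (b t)
  mz : ∀ t ∈ Icc 0 T, MZ (b t)
  supp : ∀ t ∈ Icc 0 T, Supp L (b t)
  rsupp : ∀ t ∈ Icc 0 T, Supp L (r t)
  bound0 : ∀ t ∈ Icc 0 T, nA (b t) ≤ B
  bound1 : ∀ t ∈ Icc 0 T, nA (D (b t)) ≤ B
  bound2 : ∀ t ∈ Icc 0 T, nA (D (D (b t))) ≤ B
  bound3 : ∀ t ∈ Icc 0 T, nA (D (D (D (b t)))) ≤ B
  res : ∀ t ∈ Icc 0 T, n2 (D (D (r t))) ≤ ρ
  ode : ∀ t ∈ Icc 0 T, ∀ n, HasDerivAt (fun τ => (b τ).coeff n)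
    ((-D (D (D (b t))) - ((lam * σ : ℝ) : ℂ) • D (b t ^ 4) + r t).coeff n) t

/-- **C2** (approximate solution), from `AlgFacts`, `NormFacts`, `Pow4Stmt`.
`b_n(τ) = e^{in³τ} (A_n(λτ) + λ W_n(τ))`,
`W_n(τ) = -σ n ∑_{(a,b,c,d) ∈ Λ⁴, a+b+c+d = n, Ω ≠ 0} (e^{iΩτ}/Ω) A_a A_b A_c A_d (λτ)`,
`Ω = a³+b³+c³+d³-n³`.  Then `(e^{-in³τ} b_n)' = λ A_n'(λτ) - iλσn ∑_{Ω≠0} e^{iΩτ} AAAA + λ² (bounded)`
`= -iλσ n ∑_{all} e^{iΩτ} A A A A + λ²(bounded)`: for `n ∈ Λ` by the resonant system, for `n ∉ Λ`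
because there is no resonant quadruple (`closed`) unless `n = 0`, where the factor `n` vanishes.
The sum over all quadruples is `e^{-in³τ} (-λσ D((A^{ph})⁴)).coeff n`, and
`(A^{ph} + λ W^{ph})⁴ - (A^{ph})⁴ = λ (bounded)`.  All sums are finite, `A` and `A'` are bounded on
`[0,S]`.  `L = 4 max |Λ|` suffices for `b` (and for the residual take `L = 16 max|Λ|`).
At `τ = 0` and always `b - A^{ph} = λ W^{ph}`. -/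
def ApproxExistsStmt : Prop :=
  ∀ (σ S : ℝ) (Λ : Finset ℤ) (A : ℝ → ℤ → ℂ), 0 < S → RSSol σ S Λ A →
    ∃ (L : ℕ) (B C : ℝ), 0 < B ∧ 0 < C ∧ ∀ lam : ℝ, 0 < lam → lam ≤ 1 → ∃ b r : ℝ → LP,
      Approx L lam σ (S / lam) B (C * lam ^ 2) b r ∧
      ∀ t ∈ Icc 0 (S / lam), n2 (D (D (b t - Aph Λ A lam t))) ≤ C * lam

/-! ## C3: energy estimate -/

/-- **C3a** (identity), from `AlgFacts`.  `D³(f⁴) = 4f³D³f + 36 f² Df D²f + 24 f (Df)³`,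
`I0(4a³ D³z D²z) = 2 I0(a³ D((D²z)²)) = -6 I0(a² Da (D²z)²)`. -/
def EnergyIdStmt : Prop :=
  ∀ a b z : LP, z = a - b →
    I0 (D (D z) * D (D (D (a ^ 4 - b ^ 4)))) =
      30 * I0 (a ^ 2 * D a * (D (D z) * D (D z))) +
      4 * I0 ((a ^ 3 - b ^ 3) * D (D (D b)) * D (D z)) +
      36 * I0 ((a ^ 2 * D a - b ^ 2 * D b) * D (D b) * D (D z)) +
      24 * I0 ((a * D a ^ 3 - b * D b ^ 3) * D (D z))

/-- **C3b** (bound), from `AlgFacts`, `NormFacts`, `EnergyIdStmt`.  `e = n2 (D²z)`;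
`n2 z ≤ n2 (Dz) ≤ e`, `nA z, nA (Dz) ≤ 2e`, `nA a, nA (Da) ≤ B + 2e`.  The four terms are bounded by
`30, 12, 108, 96` times `(B+2e)³e²`: `a³-b³ = z(a²+ab+b²)`, `a²Da-b²Db = a²Dz + z(a+b)Db`,
`a(Da)³-b(Db)³ = z(Da)³ + b Dz((Da)²+Da Db+(Db)²)`. -/
def EnergyBoundStmt : Prop :=
  ∀ (a b z : LP) (B : ℝ), z = a - b → MZ z → 0 ≤ B → nA b ≤ B → nA (D b) ≤ B →
    nA (D (D b)) ≤ B → nA (D (D (D b))) ≤ B →
    ‖I0 (D (D z) * D (D (D (a ^ 4 - b ^ 4))))‖ ≤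
      250 * (B + 2 * n2 (D (D z))) ^ 3 * n2 (D (D z)) ^ 2

/-- **C3c** (Gronwall + bootstrap, calculus).  While `E ≤ 1`:
`E' ≤ λ (500 (B+2)³ + 1) E + C² λ³` (`2√E·Cλ² ≤ λE + C²λ³`), so
`E(t) ≤ (C²λ² + C²λ³ t) e^{λ c t} ≤ C²λ²(1+S)e^{cS} < 1` for `λ ≤ λ₀`: continuity argument. -/
def BootStmt : Prop :=
  ∀ (B C S : ℝ), 0 < B → 0 < C → 0 < S → ∃ lam₀ C' : ℝ, 0 < lam₀ ∧ lam₀ ≤ 1 ∧ 0 < C' ∧
    ∀ lam : ℝ, 0 < lam → lam ≤ lam₀ → ∀ E E' : ℝ → ℝ,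
      (∀ t ∈ Icc 0 (S / lam), HasDerivWithinAt E (E' t) (Icc 0 (S / lam)) t) →
      (∀ t ∈ Icc 0 (S / lam), 0 ≤ E t) → E 0 ≤ (C * lam) ^ 2 →
      (∀ t ∈ Icc 0 (S / lam), E' t ≤ 2 * lam * (250 * (B + 2 * Real.sqrt (E t)) ^ 3 * E t)
        + 2 * Real.sqrt (E t) * (C * lam ^ 2)) →
      ∀ t ∈ Icc 0 (S / lam), E t ≤ (C' * lam) ^ 2

/-- **C3d** (closeness, uniformly in `K`), from `AlgFacts`, `NormFacts`, `ApproxExistsStmt`,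
`EnergyBoundStmt`, `BootStmt`.  `z = a - b`, `E = n2 (D²z)² = I0(D²z D²z) = ∑ n⁴|z_n|²` (finite sum
over `|n| ≤ K`), `E' = 2 Re I0(D²z D²ż)`, `ż = -D³z - λσ π_K D(a⁴-b⁴) - r`
(`K ≥ K₁ = 5L`: `π_K D(b⁴) = D(b⁴)`), `I0(D²z D⁵z) = 0`, `π_K z = z`. -/
def UniformStmt : Prop :=
  ∀ (σ S : ℝ) (Λ : Finset ℤ) (A : ℝ → ℤ → ℂ), (σ = 1 ∨ σ = -1) → 0 < S → RSSol σ S Λ A →
    ∃ (K₁ : ℕ) (lam₀ C Mb : ℝ), 0 < lam₀ ∧ lam₀ ≤ 1 ∧ 0 < C ∧ 0 < Mb ∧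
    ∀ lam : ℝ, 0 < lam → lam ≤ lam₀ → ∀ K : ℕ, K₁ ≤ K → ∀ a : ℝ → LP,
      Gal K lam σ (S / lam) a → a 0 = Aph Λ A lam 0 →
      ∀ t ∈ Icc 0 (S / lam), n2 (D (D (a t - Aph Λ A lam t))) ≤ C * lam ∧ n2 (D (D (a t))) ≤ Mb

/-! ## C4: Cauchy estimate -/

/-- **C4**, from `AlgFacts`, `NormFacts`.  `d = a' - a` (`K ≤ K'`),
`ḋ = -D³d - λσ π_{K'}D(a'⁴-a⁴) - λσ(π_{K'}-π_K)D(a⁴)`.  `(n2 d)²' = 2 Re I0(d ḋ)`;
`I0(d D(dG)) = ½ I0(d² DG)`, `G = a'³+a'²a+a'a²+a³` (`π_{K'}d = d`); second term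
`≤ n2 d · n2((1-π_K)D(a⁴)) ≤ n2 d · n2(D²(a⁴))/K` (apply `tail_2` to `D(a⁴)`; use
`(π_{K'}-π_K)f = π_{K'}(f - π_K f)`); everything is bounded by a constant depending on `Mb` since
`nA a, nA (Da) ≤ 2 n2 (D²a)`.  Gronwall on `[0,T]`. -/
def CauchyStmt : Prop :=
  ∀ (Mb lam σ T : ℝ), 0 < Mb → 0 < T → ∃ C : ℝ, 0 < C ∧ ∀ (K K' : ℕ), 0 < K → K ≤ K' →
    ∀ a a' : ℝ → LP, Gal K lam σ T a → Gal K' lam σ T a' → a 0 = a' 0 →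
      (∀ t ∈ Icc 0 T, n2 (D (D (a t))) ≤ Mb) → (∀ t ∈ Icc 0 T, n2 (D (D (a' t))) ≤ Mb) →
      ∀ t ∈ Icc 0 T, n2 (a' t - a t) ≤ C / K

/-! ## C5: the limit -/

/-- **C5a** (uniform limits of classical solutions are weak solutions).  For fixed `j`:
`h(t) = ∫ U φ dx`, `h' = ∫ (U_t φ + U φ_t)`, `∫_0^T h' = 0`; insert the equation and integrate by
parts in `x` (periodicity): `∫∫ (U(φ_t + φ_xxx) + σ W φ_x) = 0`; pass to the limit (all derivatives of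
`φ` are bounded on `[0,T] × [0,2π]`, `u` is a uniform limit of continuous functions). -/
def WeakLimitStmt : Prop :=
  ∀ (σ T : ℝ) (U Ut U3 W W1 : ℕ → ℝ → ℝ → ℝ) (u : ℝ → ℝ → ℝ), 0 < T →
    (∀ j, ∀ t ∈ Icc 0 T, ∀ x, HasDerivWithinAt (fun τ => U j τ x) (Ut j t x) (Icc 0 T) t) →
    (∀ j, ∀ t ∈ Icc 0 T, ContDiff ℝ 3 (U j t) ∧ ∀ x, iteratedDeriv 3 (U j t) x = U3 j t x) →
    (∀ j, ∀ t ∈ Icc 0 T, ContDiff ℝ 1 (W j t) ∧ ∀ x, deriv (W j t) x = W1 j t x) →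
    (∀ j, ∀ t ∈ Icc 0 T, Function.Periodic (U j t) (2 * Real.pi)) →
    (∀ j, ∀ t ∈ Icc 0 T, Function.Periodic (W j t) (2 * Real.pi)) →
    (∀ j, ContinuousOn (Function.uncurry (U j)) (Icc 0 T ×ˢ univ)) →
    (∀ j, ContinuousOn (Function.uncurry (Ut j)) (Icc 0 T ×ˢ univ)) →
    (∀ j, ContinuousOn (Function.uncurry (U3 j)) (Icc 0 T ×ˢ univ)) →
    (∀ j, ContinuousOn (Function.uncurry (W j)) (Icc 0 T ×ˢ univ)) →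
    (∀ j, ContinuousOn (Function.uncurry (W1 j)) (Icc 0 T ×ˢ univ)) →
    (∀ j, ∀ t ∈ Icc 0 T, ∀ x, Ut j t x + U3 j t x + σ * W1 j t x = 0) →
    (∀ ε > 0, ∃ J, ∀ j ≥ J, ∀ t ∈ Icc 0 T, ∀ x, |U j t x - u t x| < ε ∧
      |W j t x - u t x ^ 4| < ε) →
    ∀ φ : ℝ → ℝ → ℝ, IsTest T φ →
      ∫ t in (0 : ℝ)..T, ∫ x in (0 : ℝ)..(2 * Real.pi),
        (u t x * (deriv (fun τ => φ τ x) t + iteratedDeriv 3 (φ t) x)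
          + σ * u t x ^ 4 * deriv (φ t) x) = 0

/-- the dilated function `x ↦ c · f(N x)` -/
def dil (c : ℝ) (N : ℕ) (f : LP) (x : ℝ) : ℝ := c * ev f (N * x)

/-- **C5b** (norms of dilated trigonometric polynomials), from `AlgFacts`, `NormFacts`, `EvFacts`.
For real `f`: the exact formula; and for mean-zero `f`, `0 ≤ s ≤ 1`, `N ≥ 1`, `c = N^{-s}`:
`(1+N²n²)^s N^{-2s} ≤ (2n²)^s ≤ 2 n⁴` (`|n| ≥ 1`), so `hsNorm ≤ 2 n2 (D²f)`.  For general `c`: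
`(1+N²n²)^s ≤ 1 + N²n² ≤ 2N²n²` so `hsNorm² ≤ 2 c² N² n2(D f)²`. -/
structure DilFacts : Prop where
  mem : ∀ (s c : ℝ) (N : ℕ) (f : LP), 0 < N → IsReal f → MemHs s (dil c N f)
  normSq : ∀ (s c : ℝ) (N : ℕ) (f : LP), 0 < N → IsReal f → ∀ F : Finset ℤ, f.coeff.support ⊆ F →
    hsNorm s (dil c N f) ^ 2 = ∑ n ∈ F, (1 + ((N : ℝ) * n) ^ 2) ^ s * (c ^ 2 * ‖f.coeff n‖ ^ 2)
  le_D : ∀ (s c : ℝ) (N : ℕ) (f : LP), 0 ≤ s → s ≤ 1 → 0 < N → IsReal f → MZ f →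
    hsNorm s (dil c N f) ^ 2 ≤ 2 * c ^ 2 * N ^ 2 * n2 (D f) ^ 2
  le_DD : ∀ (s : ℝ) (N : ℕ) (f : LP), 0 ≤ s → s ≤ 1 → 0 < N → IsReal f → MZ f →
    hsNorm s (dil ((N : ℝ) ^ (-s)) N f) ≤ 2 * n2 (D (D f))

/-- A sequence of Galerkin solutions with the same data and uniform `H²` bound. -/
structure GalSeq (Mb lam σ T : ℝ) (K₁ : ℕ) (φ : LP) (a : ℕ → ℝ → LP) : Prop where
  Mb_pos : 0 < Mb
  T_pos : 0 < T
  K_pos : 0 < K₁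
  gal : ∀ K ≥ K₁, Gal K lam σ T (a K)
  init : ∀ K ≥ K₁, a K 0 = φ
  bd : ∀ K ≥ K₁, ∀ t ∈ Icc 0 T, n2 (D (D (a K t))) ≤ Mb

/-- **C5c1** (uniform limit), from `AlgFacts`, `NormFacts`, `EvFacts`, `CauchyStmt`.
`nA(a_{K'}-a_K) ≤ 2 n2(D(a_{K'}-a_K)) ≤ 2 (n2(a_{K'}-a_K) · 2Mb)^{1/2} → 0` uniformly in `t ∈ [0,T]`
(`CauchyStmt`, `interp`).  So `dil c N (a_K(N³t))` is uniformly Cauchy; `u` is the limit.
`|ev(π_K(a⁴)) - ev(a)⁴| ≤ nA(a⁴ - π_K(a⁴)) ≤ 2 n2(D(a⁴) - π_K D(a⁴)) ≤ 2 n2(D²(a⁴))/K` with `D²(a⁴)`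
bounded in `n2` by a constant depending on `Mb`; and `(dil c N a_K)⁴ → u⁴` uniformly. -/
def UnifLimStmt : Prop :=
  ∀ (Mb lam σ T c : ℝ) (N K₁ : ℕ) (φ : LP) (a : ℕ → ℝ → LP), 0 < c → 0 < N →
    GalSeq Mb lam σ T K₁ φ a → ∃ u : ℝ → ℝ → ℝ,
    (∀ t, Function.Periodic (u t) (2 * Real.pi)) ∧
    ∀ ε > 0, ∃ J ≥ K₁, ∀ K ≥ J, ∀ t ∈ Icc 0 (T / (N : ℝ) ^ 3), ∀ x,
      |dil c N (a K (N ^ 3 * t)) x - u t x| < ε ∧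
      |dil (c ^ 4) N (cut K (a K (N ^ 3 * t) ^ 4)) x - u t x ^ 4| < ε

/-- **C5c2** (Sobolev part of the limit), from `AlgFacts`, `NormFacts`, `EvFacts`, `CauchyStmt`,
`DilFacts`.  `hsNorm(dil c N a_{K'} - dil c N a_K)² ≤ 2c²N² n2(D(a_{K'}-a_K))² → 0` uniformly; the
Fourier coefficients of `u t` are the limits of those of `dil c N a_{K'}` (uniform convergence); Fatou
(finite partial sums): `MemHs s (u t)` and `hsNorm s (u t - dil c N (a_K(N³t))) ≤ ε` uniformly in `t`. -/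
def UnifHsStmt : Prop :=
  ∀ (Mb lam σ T c : ℝ) (N K₁ : ℕ) (φ : LP) (a : ℕ → ℝ → LP), 0 < c → 0 < N →
    GalSeq Mb lam σ T K₁ φ a → ∀ u : ℝ → ℝ → ℝ,
    (∀ t, Function.Periodic (u t) (2 * Real.pi)) →
    (∀ ε > 0, ∃ J ≥ K₁, ∀ K ≥ J, ∀ t ∈ Icc 0 (T / (N : ℝ) ^ 3), ∀ x,
      |dil c N (a K (N ^ 3 * t)) x - u t x| < ε) →
    ∀ s : ℝ, 0 ≤ s → s ≤ 1 → (∀ t ∈ Icc 0 (T / (N : ℝ) ^ 3), MemHs s (u t)) ∧
      ∀ ε > 0, ∃ J ≥ K₁, ∀ K ≥ J, ∀ t ∈ Icc 0 (T / (N : ℝ) ^ 3),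
        hsNorm s (fun x => u t x - dil c N (a K (N ^ 3 * t)) x) < ε

/-- **C5c3** (the approximants satisfy the equation), from `AlgFacts`, `NormFacts`, `EvFacts`,
`WeakLimitStmt`.  `U_K(t,x) = dil c N (a_K(N³t)) x`, `W_K = dil (c⁴) N (π_K((a_K(N³t))⁴)) x`:
`∂ₜU_K = c N³ ev(∂_τ a)(Nx)`, `∂ₓ³U_K = cN³ ev(D³a)(Nx)`, `∂ₓW_K = c⁴N ev(Dπ_K(a⁴))(Nx)`, and
`∂_τ a = -D³a - λσ π_K D(a⁴)`, `λ = c³/N²`, so `∂ₜU_K + ∂ₓ³U_K + σ∂ₓW_K = 0`.  All are finite sums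
(`|n| ≤ K` resp. `4K`) of continuous coefficients times exponentials: joint continuity. -/
def ApproxEqnStmt : Prop :=
  ∀ (Mb lam σ T c : ℝ) (N K₁ : ℕ) (φ : LP) (a : ℕ → ℝ → LP), 0 < c → 0 < N →
    lam = c ^ 3 / (N : ℝ) ^ 2 → GalSeq Mb lam σ T K₁ φ a → ∀ u : ℝ → ℝ → ℝ,
    (∀ ε > 0, ∃ J ≥ K₁, ∀ K ≥ J, ∀ t ∈ Icc 0 (T / (N : ℝ) ^ 3), ∀ x,
      |dil c N (a K (N ^ 3 * t)) x - u t x| < ε ∧
      |dil (c ^ 4) N (cut K (a K (N ^ 3 * t) ^ 4)) x - u t x ^ 4| < ε) →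
    ∀ ψ : ℝ → ℝ → ℝ, IsTest (T / (N : ℝ) ^ 3) ψ →
      ∫ t in (0 : ℝ)..(T / (N : ℝ) ^ 3), ∫ x in (0 : ℝ)..(2 * Real.pi),
        (u t x * (deriv (fun τ => ψ τ x) t + iteratedDeriv 3 (ψ t) x)
          + σ * u t x ^ 4 * deriv (ψ t) x) = 0

/-- **C5c** (the limit `K → ∞` is a solution), from `AlgFacts`, `NormFacts`, `EvFacts`, `DilFacts`,
`UnifLimStmt`, `UnifHsStmt`, `ApproxEqnStmt`, and `HsFacts` (part D, file SpecD).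
`mem`: `UnifHsStmt`; `cont`: `3ε` argument, `t ↦ dil c N (a_K(N³t))` is continuous into `H^s` (finite
sum; `DilFacts.le_D`); `pow_int`: `u t` is continuous (uniform limit) and periodic; `pow_cont`:
`u` is uniformly continuous in `t` uniformly in `x` (uniform limit of such) and bounded; `eqn`:
`ApproxEqnStmt`. -/
def LimitStmt : Prop :=
  ∀ (Mb lam σ T c : ℝ) (N K₁ : ℕ) (φ : LP) (a : ℕ → ℝ → LP), 0 < c → 0 < N →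
    lam = c ^ 3 / (N : ℝ) ^ 2 → GalSeq Mb lam σ T K₁ φ a →
    ∃ u : ℝ → ℝ → ℝ, ∀ s : ℝ, 0 ≤ s → s ≤ 1 → IsSolution 4 σ s (T / (N : ℝ) ^ 3) u ∧
      ∀ ε > 0, ∃ J ≥ K₁, ∀ K ≥ J, ∀ t ∈ Icc 0 (T / (N : ℝ) ^ 3),
        hsNorm s (fun x => u t x - dil c N (a K (N ^ 3 * t)) x) < ε

end GKdV
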