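import Pool.Agent.Lib.MP_cb0de5_an.SpecC
import Pool.Agent.Lib.MP_cb0de5_an.SpecB

/-!
# Part D: Sobolev norms, gluing, conclusion
-/

open MeasureTheory Filter Topology Set

noncomputable section

namespace GKdV

open LP

/-- **D2a** (Parseval).  `fc f n` is the Mathlib Fourier coefficient of the lift of `f` to
`AddCircle (2π)` (`fourierCoeff`, `fourierCoeffOn`); `tsum_sq_fourierCoeff` and `(1+n²)^s ≥ 1`. -/
def ParsevalStmt : Prop :=
  ∀ (s : ℝ) (f : ℝ → ℝ), 0 ≤ s → MemHs s f →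
    ∫ x in (0 : ℝ)..(2 * Real.pi), f x ^ 2 ≤ 2 * Real.pi * hsNorm s f ^ 2

/-- **D2** (facts on `H^s`).  `fc` is additive on square integrable functions; the triangle
inequality is Minkowski in the weighted `ℓ²` (`Real.Lp_add_le_tsum_of_nonneg` or Cauchy-Schwarz). -/
structure HsFacts : Prop where
  zero_mem : ∀ s : ℝ, MemHs s (fun _ => 0)
  norm_zero : ∀ s : ℝ, hsNorm s (fun _ => 0) = 0
  norm_nonneg : ∀ (s : ℝ) (f : ℝ → ℝ), 0 ≤ hsNorm s f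
  add_mem : ∀ (s : ℝ) (f g : ℝ → ℝ), MemHs s f → MemHs s g → MemHs s (fun x => f x + g x)
  sub_mem : ∀ (s : ℝ) (f g : ℝ → ℝ), MemHs s f → MemHs s g → MemHs s (fun x => f x - g x)
  norm_add : ∀ (s : ℝ) (f g : ℝ → ℝ), MemHs s f → MemHs s g →
    hsNorm s (fun x => f x + g x) ≤ hsNorm s f + hsNorm s g
  norm_sub : ∀ (s : ℝ) (f g : ℝ → ℝ), MemHs s f → MemHs s g →
    hsNorm s (fun x => f x - g x) ≤ hsNorm s f + hsNorm s g
  norm_sub_comm : ∀ (s : ℝ) (f g : ℝ → ℝ),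
    hsNorm s (fun x => f x - g x) = hsNorm s (fun x => g x - f x)
  congr : ∀ (s : ℝ) (f g : ℝ → ℝ), f =ᵐ[volume] g → hsNorm s f = hsNorm s g
  mem_congr : ∀ (s : ℝ) (f g : ℝ → ℝ), f =ᵐ[volume] g → Function.Periodic g (2 * Real.pi) →
    MemHs s f → MemHs s g
  sol_cont : ∀ (k : ℕ) (σ s T : ℝ) (u : ℝ → ℝ → ℝ), 0 < T → IsSolution k σ s T u →
    ContinuousOn (fun t => hsNorm s (u t)) (Icc 0 T)
  zero_sol : ∀ (k : ℕ) (σ s T : ℝ), 0 < k → IsSolution k σ s T (fun _ _ => 0)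

/-- **D3a** (du Bois-Reymond).  `h, G` continuous on `[a,b]` with `∫ (χ' h + χ G) = 0` for all
smooth `χ` with compact support in `(a,b)`; then `h(b) - h(a) = ∫_a^b G`.  Proof: `H = h - ∫_a^t G` is
continuous and `∫ χ' H = 0`; for smooth compactly supported `ψ` and a fixed `ρ` with `∫ρ = 1`,
`ψ - (∫ψ)ρ = χ'`, so `∫ ψ (H - c) = 0` for all `ψ`, so `H = c` on `[a,b]`. -/
def DuBoisStmt : Prop :=
  ∀ (a b : ℝ) (h G : ℝ → ℝ), a < b → ContinuousOn h (Icc a b) → ContinuousOn G (Icc a b) →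
    (∀ χ : ℝ → ℝ, ContDiff ℝ (⊤ : ℕ∞) χ → (∃ a' b', a < a' ∧ b' < b ∧ ∀ t ∉ Icc a' b', χ t = 0) →
      ∫ t in a..b, (deriv χ t * h t + χ t * G t) = 0) →
    h b - h a = ∫ t in a..b, G t

/-- pairing `∫ u(t) φ(t) dx` -/
def pairH (u φ : ℝ → ℝ → ℝ) (t : ℝ) : ℝ := ∫ x in (0 : ℝ)..(2 * Real.pi), u t x * φ t x

/-- pairing `∫ (u (φ_t + φ_xxx) + σ u^k φ_x) dx` -/
def pairG (k : ℕ) (σ : ℝ) (u φ : ℝ → ℝ → ℝ) (t : ℝ) : ℝ :=
  ∫ x in (0 : ℝ)..(2 * Real.pi),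
    (u t x * (deriv (fun τ => φ τ x) t + iteratedDeriv 3 (φ t) x)
      + σ * u t x ^ k * deriv (φ t) x)

/-- **D3b** (continuity of the pairings), from `HsFacts`, `ParsevalStmt`.  `u ∈ C([0,T];L²)` by Parseval,
`u^k ∈ C([0,T];L¹)` by `pow_cont`; all derivatives of `φ` are uniformly continuous on
`[0,T] × [0,2π]`. -/
def PairContStmt : Prop :=
  ∀ (k : ℕ) (σ s T : ℝ) (u φ : ℝ → ℝ → ℝ), 0 ≤ s → 0 < T → IsSolution k σ s T u →
    ContDiff ℝ (⊤ : ℕ∞) (Function.uncurry φ) → (∀ t, Function.Periodic (φ t) (2 * Real.pi)) →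
    ContinuousOn (pairH u φ) (Icc 0 T) ∧ ContinuousOn (pairG k σ u φ) (Icc 0 T)

/-- **D3c** (integrated weak form), from `PairContStmt`, `DuBoisStmt`: test the equation with
`χ(t) φ(t,x)`, `χ` smooth compactly supported in `(0,T)` (for `[0,T]`; for a subinterval use
`DuBoisStmt` there). -/
def WeakFormStmt : Prop :=
  ∀ (k : ℕ) (σ s T : ℝ) (u φ : ℝ → ℝ → ℝ), 0 ≤ s → 0 < T → IsSolution k σ s T u →
    ContDiff ℝ (⊤ : ℕ∞) (Function.uncurry φ) → (∀ t, Function.Periodic (φ t) (2 * Real.pi)) →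
    ∀ a b, 0 ≤ a → a < b → b ≤ T → pairH u φ b - pairH u φ a = ∫ t in a..b, pairG k σ u φ t

/-- **D3d** (gluing and restriction), from `HsFacts`, `WeakFormStmt`, `PairContStmt`.  For a test
function `φ` on `(0,T₁+T₂)` apply `WeakFormStmt` on `[0,T₁]` (to `u, φ`) and on `[0,T₂]` (to
`v, φ(· + T₁)`) and add: `∫_0^{T₁+T₂} G = h(T₁+T₂) - h(0) = 0`. -/
def GlueStmt : Prop :=
  ∀ (k : ℕ) (σ s T₁ T₂ : ℝ) (u v : ℝ → ℝ → ℝ), 0 ≤ s → 0 < T₁ → 0 < T₂ →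
    IsSolution k σ s T₁ u → IsSolution k σ s T₂ v → v 0 =ᵐ[volume] u T₁ →
    IsSolution k σ s (T₁ + T₂) (fun t => if t ≤ T₁ then u t else v (t - T₁))

/-- **D3e** (restriction): a test function on `(0,T')` is a test function on `(0,T)`. -/
def RestrictStmt : Prop :=
  ∀ (k : ℕ) (σ s T T' : ℝ) (u : ℝ → ℝ → ℝ), 0 < T' → T' ≤ T → IsSolution k σ s T u →
    IsSolution k σ s T' u

/-- **C6** (approximation theorem), from `AlgFacts`, `NormFacts`, `EvFacts`, `GalExistsStmt`,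
`UniformStmt`, `LimitStmt`, `DilFacts`, `HsFacts`.
`c = N^{-s}`, `λ = c³/N² = N^{-3s-2} ≤ λ₀` for `N` large, `T = (S/λ)/N³ = S N^{3s-1} → 0`.  With
`u` from `LimitStmt`: `hsNorm(u(t) - dil c N (A^{ph}(N³t))) ≤ lim_K hsNorm(dil c N (a_K - A^{ph})) ≤ 2Cλ`
(`DilFacts.le_DD`), and
`hsNorm(dil c N A^{ph}(N³t))² = ∑_{n∈Λ} (1+N²n²)^s N^{-2s} |A_n(λN³t)|² → rsNormSq` as `N → ∞`; at
`t = 0`, and `t = T` where `λN³T = S`. -/
def PdeFromStmt : Prop :=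
  AlgFacts → NormFacts → EvFacts → GalExistsStmt → UniformStmt → LimitStmt → DilFacts → HsFacts →
    PdeStmt

/-- **D1** (norm inflation), from `RSGrowthStmt`, `PdeStmt`, `HsFacts`.  If `A` is a solution of the
resonant system on `[0,S]` then `μ A(μ³ t)` is one on `[0, S/μ³]`, and `rsNormSq` is multiplied by
`μ²`.  Given `ε`: choose `K = 4/ε⁴ + 4` (say), `μ` with `μ² rsNormSq(A 0) = ε²/4`, and apply `PdeStmt`
with a small `ε'`. -/
def InflationFromStmt : Prop := RSGrowthStmt → PdeStmt → NormInflationStmt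

/-- **D4** (conclusion), from `HsFacts`, `GlueStmt`, `RestrictStmt`, `NormInflationStmt`.
Suppose LWP at `u₀ = 0`: `T, ρ`.  Continuity at `v₀ = 0` with `ε = ρ/2`: `δ`.  Take an inflation
solution `w` on `[0,T_w]`, `T_w < T`, `hsNorm(w 0) < min(δ, ρ/2)`, `hsNorm(w T_w) > ρ/2`.  By continuity
`hsNorm(w t⋆) = ρ/2` for some `t⋆ ∈ (0,T_w)`; LWP gives a solution `v` on `[0,T]` with
`v 0 =ᵐ w t⋆`; glue (restricting `w` to `[0,t⋆]`), restrict to `[0,T]`: a solution on `[0,T]` with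
data `w 0` and norm `ρ/2` at `t⋆`; compare with the zero solution: contradiction.  Second part:
`k = 4`, `σ = 1`, `s = 1/4`. -/
def FinalFromStmt : Prop :=
  HsFacts → GlueStmt → RestrictStmt → NormInflationStmt → FinalStmt

end GKdV
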