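import Pool.Agent.Lib.MP_cb0de5_an.SpecA

/-!
# A1: squares and derivatives
-/

open MeasureTheory Filter Topology Set

noncomputable section

namespace GKdV

namespace Sq

/-- The fundamental theorem of calculus on a closed interval. -/
theorem ftc {T : ℝ} {f : ℝ → ℝ} (hf : ContinuousOn f (Icc 0 T)) {t : ℝ} (ht : t ∈ Icc 0 T) :
    HasDerivWithinAt (fun t => ∫ s in (0 : ℝ)..t, f s) (f t) (Icc 0 T) t := by
  have hfact : Fact (t ∈ Icc 0 T) := ⟨ht⟩
  have hint : IntervalIntegrable f volume 0 t := by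
    apply ContinuousOn.intervalIntegrable_of_Icc ht.1
    exact hf.mono (Icc_subset_Icc_right ht.2)
  exact intervalIntegral.integral_hasDerivWithinAt_right hint
    (hf.stronglyMeasurableAtFilter_nhdsWithin measurableSet_Icc t) (hf t ht)

/-- Functions with the same derivative. -/
theorem const {T : ℝ} {f f' h : ℝ → ℝ} (hf : ∀ s ∈ Icc 0 T, HasDerivWithinAt f (f' s) (Icc 0 T) s)
    (hh : ∀ s ∈ Icc 0 T, HasDerivWithinAt h (f' s) (Icc 0 T) s) {t : ℝ} (ht : t ∈ Icc 0 T) :
    f t - h t = f 0 - h 0 := by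
  have h1 : ∀ s ∈ Icc 0 T, HasDerivWithinAt (fun s => f s - h s) 0 (Icc 0 T) s := by
    intro s hs
    have := (hf s hs).sub (hh s hs)
    rwa [sub_self] at this
  exact constant_of_derivWithin_zero (f := fun s => f s - h s)
    (fun s hs => (h1 s hs).differentiableWithinAt)
    (fun s hs => (h1 s ⟨hs.1, hs.2.le⟩).derivWithin
      (uniqueDiffOn_Icc (lt_of_le_of_lt hs.1 hs.2) s ⟨hs.1, hs.2.le⟩)) t ht

end Sq

open Sq in
theorem sqStmt (h1 : NetAlgStmt) : SqStmt := by
  intro g M Q _ _ _ N κ k kk K R x hR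
  have hc : ∀ m, ContinuousOn (fun t => x t m) (Icc 0 (st g K R (g + 1))) := fun m t ht =>
    (hR.ode t ht m).continuousAt.continuousWithinAt
  have hP3 : ∀ q, ContinuousOn (fun t => N.P3 (x t) q) (Icc 0 (st g K R (g + 1))) := fun q =>
    ((hc _).mul (hc _)).mul (hc _)
  have hP5 : ∀ q, ContinuousOn (fun t => N.P5 (x t) q) (Icc 0 (st g K R (g + 1))) := fun q =>
    ((hP3 q).mul (hc _)).mul (hc _)
  have hth : ∀ q, ∀ t ∈ Icc 0 (st g K R (g + 1)),
      HasDerivWithinAt (N.th κ x q) (κ q * N.P3 (x t) q) (Icc 0 (st g K R (g + 1))) t :=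
    fun q t ht => (ftc (hP3 q) ht).const_mul (κ q)
  have hta : ∀ q, ∀ t ∈ Icc 0 (st g K R (g + 1)),
      HasDerivWithinAt (N.ta κ x q) (2 * κ q * N.P5 (x t) q) (Icc 0 (st g K R (g + 1))) t :=
    fun q t ht => (ftc (hP5 q) ht).const_mul (2 * κ q)
  have hta0 : ∀ q, N.ta κ x q 0 = 0 := by
    intro q
    unfold Net.ta
    simp
  have hsq : ∀ m, ∀ t ∈ Icc 0 (st g K R (g + 1)),
      HasDerivWithinAt (fun t => x t m ^ 2) (2 * (x t m * N.field κ (x t) m))
        (Icc 0 (st g K R (g + 1))) t := by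
    intro m t ht
    refine ((hR.ode t ht m).hasDerivWithinAt.pow 2).congr_deriv ?_
    simp
    ring
  have hchi : ∀ q b, ∀ t, x t (N.chi q b) * N.field κ (x t) (N.chi q b) =
      κ q * N.P5 (x t) q - x t (N.chi q b) * N.loss κ (x t) (N.chi q b) := by
    intro q b t
    obtain ⟨a1, a2, -⟩ := h1 g M Q N κ (x t)
    fin_cases b
    · simp only [Fin.zero_eta, Fin.isValue]
      rw [a1 q]
      unfold Net.P5
      ring
    · simp only [Fin.mk_one, Fin.isValue]
      rw [a2 q]
      unfold Net.P5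
      ring
  refine ⟨hc, hth, hta, ?_, ?_, ?_⟩
  · intro t ht q b q' i hq
    have h2 := const (hsq (N.chi q b)) (h := fun t => N.ta κ x q t - N.ta κ x q' t) (by
      intro s hs
      refine ((hta q s hs).sub (hta q' s hs)).congr_deriv ?_
      obtain ⟨-, -, -, -, a5, -⟩ := h1 g M Q N κ (x s)
      have h3 := a5 q' i
      rw [hq] at h3
      rw [hchi, h3]
      ring) ht
    rw [hta0, hta0] at h2
    linarith
  · intro t ht q b hq
    have h2 := const (hsq (N.chi q b)) (h := fun t => N.ta κ x q t) (by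
      intro s hs
      refine (hta q s hs).congr_deriv ?_
      obtain ⟨-, -, -, a4, -⟩ := h1 g M Q N κ (x s)
      rw [hchi, a4 (N.chi q b) ((N.lv_chi q b).trans hq)]
      ring) ht
    rw [hta0] at h2
    linarith
  · intro t ht q i hq
    have hlv : N.lv (N.par q i) = 0 := by
      have := N.lv_par q i
      omega
    have h2 := const (hsq (N.par q i)) (h := fun t => - N.ta κ x q t) (by
      intro s hs
      refine (hta q s hs).neg.congr_deriv ?_
      obtain ⟨-, -, a3, -, a5, -⟩ := h1 g M Q N κ (x s)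
      have h3 := a5 q i
      rw [a3 _ hlv]
      linear_combination 2 * h3) ht
    rw [hta0, hR.init0 _ hlv] at h2
    linarith

end GKdV
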