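import Pool.Agent.Lib.MP_cb0de5_an.SpecB

/-!
# Closedness of the product step
-/

open MeasureTheory Filter Topology Set

noncomputable section

namespace GKdV

namespace StepArith

variable {g : ℕ} {M Q : Type}

theorem w_pos {w : Fin 5 → ℚ} (h0 : 0 < w 0) (h1 : 0 < w 1) (h2 : 0 < w 2) (k : Fin 3) :
    0 < w (Fin.castLE (by norm_num) k) := by
  fin_cases k
  · exact h0
  · exact h1
  · exact h2

theorem w_neg {w : Fin 5 → ℚ} (h3 : w 3 < 0) (h4 : w 4 < 0) (b : Fin 2) :
    w (if b = 0 then 3 else 4) < 0 := by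
  fin_cases b
  · exact h3
  · exact h4

theorem castLE_ne (k : Fin 3) (b : Fin 2) :
    (Fin.castLE (by norm_num) k : Fin 5) ≠ if b = 0 then 3 else 4 := by
  revert k b
  decide

theorem castLE_ne' (k : Fin 3) :
    (Fin.castLE (by norm_num) k : Fin 5) ≠ 3 ∧ (Fin.castLE (by norm_num) k : Fin 5) ≠ 4 := by
  revert k
  decide

theorem stepF_inl (N : Net g M Q) (f : M → ℚ) (w : Fin 5 → ℚ) (m : M) (k : Fin 3) :
    N.stepF f w (Sum.inl (m, k)) = f m * w (Fin.castLE (by norm_num) k) := rfl

theorem stepF_inr (N : Net g M Q) (f : M → ℚ) (w : Fin 5 → ℚ) (m : N.Top) (b : Fin 2) :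
    N.stepF f w (Sum.inr (m, b)) = -(f m.1 * w (if b = 0 then 3 else 4)) := rfl

theorem rep (N : Net g M Q) (f : M → ℚ) (w : Fin 5 → ℚ) (h0 : 0 < w 0)
    (h1 : 0 < w 1) (h2 : 0 < w 2) (h3 : w 3 < 0) (h4 : w 4 < 0) (a : ℚ)
    (ha : ∃ x, |a| = N.stepF f w x) :
    ∃ (p : ℚ × Fin 5) (m : M), a = p.1 * w p.2 ∧ |p.1| = f m ∧
      (p.2 = 3 ∨ p.2 = 4 → N.lv m = g) := by
  obtain ⟨x, hx⟩ := ha
  rcases x with ⟨m, k⟩ | ⟨m, b⟩
  · have hw := w_pos h0 h1 h2 k
    rw [stepF_inl] at hx
    refine ⟨(a / w (Fin.castLE (by norm_num) k), Fin.castLE (by norm_num) k), m, ?_, ?_, ?_⟩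
    · simp only
      rw [div_mul_cancel₀ _ hw.ne']
    · simp only
      rw [abs_div, hx, abs_of_pos hw, mul_div_cancel_right₀ _ hw.ne']
    · intro h
      have := castLE_ne' k
      rcases h with h | h
      · exact absurd h this.1
      · exact absurd h this.2
  · have hw := w_neg h3 h4 b
    rw [stepF_inr] at hx
    refine ⟨(a / w (if b = 0 then 3 else 4), if b = 0 then 3 else 4), m.1, ?_, ?_, fun _ => m.2⟩
    · simp only
      rw [div_mul_cancel₀ _ hw.ne]
    · simp only
      rw [abs_div, hx, abs_of_neg hw, ← mul_neg, mul_div_cancel_right₀ _ (neg_ne_zero.mpr hw.ne)]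

/-- the pair produced by four signed modes -/
theorem sum_pairOf (c : Fin 4 → ℚ × Fin 5) (w : Fin 5 → ℚ) :
    ∑ e, (pairOf c).1 e * w e = ∑ i, (c i).1 * w (c i).2 := by
  simp only [pairOf, Finset.sum_mul]
  rw [Finset.sum_comm]
  refine Finset.sum_congr rfl fun i _ => ?_
  rw [Finset.sum_eq_single (c i).2]
  · rw [if_pos rfl]
  · intro e _ he
    rw [if_neg (Ne.symm he), zero_mul]
  · intro h
    exact absurd (Finset.mem_univ _) h

theorem sum_pairOf_cube (c : Fin 4 → ℚ × Fin 5) (w : Fin 5 → ℚ) :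
    ∑ e, (pairOf c).2 e * w e ^ 3 = ∑ i, ((c i).1 * w (c i).2) ^ 3 := by
  simp only [pairOf, Finset.sum_mul]
  rw [Finset.sum_comm]
  refine Finset.sum_congr rfl fun i _ => ?_
  rw [Finset.sum_eq_single (c i).2]
  · rw [if_pos rfl, mul_pow]
  · intro e _ he
    rw [if_neg (Ne.symm he), zero_mul]
  · intro h
    exact absurd (Finset.mem_univ _) h

/-- case (1): if the group of `i` has vanishing sums there is a contradiction -/
theorem group_false {a : Fin 4 → ℚ} (ha : ∀ i, a i ≠ 0) (hn : ∑ i, a i ≠ 0)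
    (hc : ∑ i, a i ^ 3 = (∑ i, a i) ^ 3) (S : Finset (Fin 4)) (hS : S.Nonempty)
    (h1 : ∑ i ∈ S, a i = 0) (h3 : ∑ i ∈ S, a i ^ 3 = 0) : False := by
  have hT1 : ∑ i ∈ Sᶜ, a i = ∑ i, a i := by
    rw [← Finset.sum_add_sum_compl S, h1, zero_add]
  have hT3 : ∑ i ∈ Sᶜ, a i ^ 3 = ∑ i, a i ^ 3 := by
    rw [← Finset.sum_add_sum_compl S (fun i => a i ^ 3), h3, zero_add]
  have hcard : S.card ≤ 4 := (Finset.card_le_univ S).trans_eq (by simp)
  have hpos : 0 < S.card := Finset.card_pos.mpr hS
  have hcases : S.card = 1 ∨ S.card = 2 ∨ S.card = 3 ∨ S.card = 4 := by omega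
  rcases hcases with h | h | h | h
  · obtain ⟨x, rfl⟩ := Finset.card_eq_one.mp h
    rw [Finset.sum_singleton] at h1
    exact ha x h1
  · have hT : Sᶜ.card = 2 := by
      rw [Finset.card_compl, h]
      simp
    obtain ⟨x, y, hxy, hTxy⟩ := Finset.card_eq_two.mp hT
    rw [hTxy, Finset.sum_pair hxy] at hT1 hT3
    rw [← hT1, ← hT3] at hc
    rw [← hT1] at hn
    have h5 : 3 * (a x * a y * (a x + a y)) = 0 := by linear_combination -hc
    have h6 : a x * a y * (a x + a y) = 0 := by linarith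
    rcases mul_eq_zero.mp h6 with h7 | h7
    · rcases mul_eq_zero.mp h7 with h8 | h8
      · exact ha x h8
      · exact ha y h8
    · exact hn h7
  · obtain ⟨x, y, z, hxy, hxz, hyz, rfl⟩ := Finset.card_eq_three.mp h
    have hs : ∀ F : Fin 4 → ℚ, ∑ i ∈ ({x, y, z} : Finset (Fin 4)), F i = F x + F y + F z := by
      intro F
      rw [Finset.sum_insert, Finset.sum_pair hyz, add_assoc]
      simp [hxy, hxz]
    rw [hs] at h1
    rw [hs] at h3
    have h5 : 3 * (a x * a y * a z) = 0 := by
      have hz : a z = -(a x + a y) := by linarith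
      rw [hz] at h3 ⊢
      linear_combination h3
    have h6 : a x * a y * a z = 0 := by linarith
    rcases mul_eq_zero.mp h6 with h7 | h7
    · rcases mul_eq_zero.mp h7 with h8 | h8
      · exact ha x h8
      · exact ha y h8
    · exact ha z h7
  · have : S = Finset.univ := by
      rw [← Finset.card_eq_iff_eq_univ, h]
      simp
    rw [this] at h1
    exact hn h1

theorem core (N : Net g M Q) (f : M → ℚ) (w : Fin 5 → ℚ) (hA : IsArithQ N f)
    (h0 : 0 < w 0) (h1 : 0 < w 1) (h2 : 0 < w 2) (h3 : w 3 < 0) (h4 : w 4 < 0)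
    (hs : w 0 + w 1 + w 2 + w 3 + w 4 = 0)
    (hF : ∀ c : Fin 4 → ℚ × Fin 5, (∀ i, ∃ m, |(c i).1| = f m) →
      ¬ Special (pairOf c).1 (pairOf c).2 → FF (pairOf c).1 (pairOf c).2 w ≠ 0)
    (a : Fin 4 → ℚ) (ha : ∀ i, ∃ x, |a i| = N.stepF f w x) (hn : ∑ i, a i ≠ 0)
    (hc : ∑ i, a i ^ 3 = (∑ i, a i) ^ 3) :
    ∃ q, ∃ e : ℚ, (e = 1 ∨ e = -1) ∧
      ({a 0, a 1, a 2, a 3, -(∑ i, a i)} : Multiset ℚ) =
        {e * N.stepF f w (N.step.par q 0), e * N.stepF f w (N.step.par q 1),
          e * N.stepF f w (N.step.par q 2), -(e * N.stepF f w (N.step.chi q 0)),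
          -(e * N.stepF f w (N.step.chi q 1))} := by
  have hrep := fun i => rep N f w h0 h1 h2 h3 h4 (a i) (ha i)
  choose c mm hac hcm hlv using hrep
  have hw : ∀ e, w e ≠ 0 := by
    intro e
    fin_cases e
    · exact h0.ne'
    · exact h1.ne'
    · exact h2.ne'
    · exact h3.ne
    · exact h4.ne
  have hc0 : ∀ i, (c i).1 ≠ 0 := by
    intro i h
    have h5 := hcm i
    rw [h, abs_zero] at h5
    exact (hA.pos (mm i)).ne h5
  have ha0 : ∀ i, a i ≠ 0 := by
    intro i
    rw [hac i]
    exact mul_ne_zero (hc0 i) (hw _)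
  have hFF : FF (pairOf c).1 (pairOf c).2 w = 0 := by
    rw [FF, sum_pairOf, sum_pairOf_cube]
    simp only [← hac]
    rw [hc, sub_self]
  have hsp : Special (pairOf c).1 (pairOf c).2 := by
    by_contra hns
    exact hF c (fun i => ⟨mm i, hcm i⟩) hns hFF
  obtain ⟨⟨i₀, hB⟩, hC⟩ := hsp
  by_cases hun : ∃ e, e ≠ i₀ ∧ ∀ i, (c i).2 ≠ e
  · -- case (1)
    obtain ⟨e, hei, hue⟩ := hun
    have hBe : (pairOf c).1 e = 0 := by
      simp only [pairOf]
      exact Finset.sum_eq_zero fun i _ => if_neg (hue i)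
    have hCe : (pairOf c).2 e = 0 := by
      simp only [pairOf]
      exact Finset.sum_eq_zero fun i _ => if_neg (hue i)
    have hB0 : ∀ j, j ≠ i₀ → (pairOf c).1 j = 0 := fun j hj => (hB j e hj hei).trans hBe
    have hC0 : ∀ j, j ≠ i₀ → (pairOf c).2 j = 0 := by
      intro j hj
      have h5 := hC j e
      rw [hB0 j hj, hBe, hCe] at h5
      linarith
    have hall : ∀ i, (c i).2 = i₀ := by
      intro i
      by_contra hi
      have h5 := hB0 _ hi
      have h6 := hC0 _ hi
      simp only [pairOf] at h5 h6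
      rw [← Finset.sum_filter] at h5 h6
      refine group_false ha0 hn hc (Finset.univ.filter fun j => (c j).2 = (c i).2)
        ⟨i, Finset.mem_filter.mpr ⟨Finset.mem_univ _, rfl⟩⟩ ?_ ?_
      · have h7 : ∑ j ∈ Finset.univ.filter (fun j => (c j).2 = (c i).2), a j =
            (∑ j ∈ Finset.univ.filter (fun j => (c j).2 = (c i).2), (c j).1) * w (c i).2 := by
          rw [Finset.sum_mul]
          refine Finset.sum_congr rfl fun j hj => ?_
          rw [hac j, (Finset.mem_filter.mp hj).2]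
        rw [h7, h5, zero_mul]
      · have h7 : ∑ j ∈ Finset.univ.filter (fun j => (c j).2 = (c i).2), a j ^ 3 =
            (∑ j ∈ Finset.univ.filter (fun j => (c j).2 = (c i).2), (c j).1 ^ 3) *
              w (c i).2 ^ 3 := by
          rw [Finset.sum_mul]
          refine Finset.sum_congr rfl fun j hj => ?_
          rw [hac j, (Finset.mem_filter.mp hj).2, mul_pow]
        rw [h7, h6, zero_mul]
    have hai : ∀ i, a i = (c i).1 * w i₀ := fun i => by rw [hac i, hall i]
    have hsum : ∑ i, a i = (∑ i, (c i).1) * w i₀ := by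
      rw [Finset.sum_mul]
      exact Finset.sum_congr rfl fun i _ => hai i
    have hn' : ∑ i, (c i).1 ≠ 0 := by
      intro h
      rw [hsum, h, zero_mul] at hn
      exact hn rfl
    have hc' : ∑ i, (c i).1 ^ 3 = (∑ i, (c i).1) ^ 3 := by
      have h5 : (∑ i, (c i).1 ^ 3) * w i₀ ^ 3 = (∑ i, (c i).1) ^ 3 * w i₀ ^ 3 := by
        rw [← mul_pow, ← hsum, ← hc, Finset.sum_mul]
        refine Finset.sum_congr rfl fun i _ => ?_
        rw [hai i, mul_pow]
      exact mul_right_cancel₀ (pow_ne_zero 3 (hw i₀)) h5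
    rw [Fin.sum_univ_four] at hn'
    rw [Fin.sum_univ_four, Fin.sum_univ_four] at hc'
    obtain ⟨q, e', he', hq⟩ := hA.closed (c 0).1 (c 1).1 (c 2).1 (c 3).1 ⟨_, hcm 0⟩ ⟨_, hcm 1⟩
      ⟨_, hcm 2⟩ ⟨_, hcm 3⟩ hn' hc'
    have hi₀ : i₀ ≠ 3 ∧ i₀ ≠ 4 := by
      by_contra hcon
      have h34 : i₀ = 3 ∨ i₀ = 4 := by
        by_contra h5
        push Not at h5
        exact hcon h5
      have htop : ∀ i, N.lv (mm i) = g := fun i => hlv i (by rw [hall i]; exact h34)
      -- a parent among the four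
      have hpar : ∀ j : Fin 3, ∀ i, (c i).1 ≠ e' * f (N.par q j) := by
        intro j i h5
        have h6 : f (mm i) = f (N.par q j) := by
          rw [← hcm i, h5, abs_mul]
          rcases he' with rfl | rfl
          · rw [abs_one, one_mul, abs_of_pos (hA.pos _)]
          · rw [abs_neg, abs_one, one_mul, abs_of_pos (hA.pos _)]
        have h7 := hA.inj h6
        have h8 := N.lv_par q j
        have h9 := N.lv_chi q 0
        have h10 := N.lv_le (N.chi q 0)
        rw [← h7, htop i] at h8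
        omega
      have hmem : ∀ j : Fin 3, e' * f (N.par q j) =
          -((c 0).1 + (c 1).1 + (c 2).1 + (c 3).1) := by
        intro j
        have h5 : e' * f (N.par q j) ∈
            ({(c 0).1, (c 1).1, (c 2).1, (c 3).1,
              -((c 0).1 + (c 1).1 + (c 2).1 + (c 3).1)} : Multiset ℚ) := by
          rw [hq]
          fin_cases j <;> simp
        simp only [Multiset.insert_eq_cons, Multiset.mem_cons, Multiset.mem_singleton] at h5
        rcases h5 with h5 | h5 | h5 | h5 | h5
        · exact absurd h5.symm (hpar j 0)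
        · exact absurd h5.symm (hpar j 1)
        · exact absurd h5.symm (hpar j 2)
        · exact absurd h5.symm (hpar j 3)
        · exact h5
      have h5 : e' * f (N.par q 0) = e' * f (N.par q 1) := (hmem 0).trans (hmem 1).symm
      have he0 : e' ≠ 0 := by rcases he' with rfl | rfl <;> norm_num
      have h6 := hA.inj (mul_left_cancel₀ he0 h5)
      have h7 := (N.par_inj q 0 q 1 h6).2
      exact absurd h7 (by decide)
    obtain ⟨k, hk⟩ : ∃ k : Fin 3, (Fin.castLE (by norm_num) k : Fin 5) = i₀ := by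
      clear * - hi₀
      revert i₀
      decide
    refine ⟨Sum.inl (q, k), e', he', ?_⟩
    have hmap := congrArg (Multiset.map fun x => x * w i₀) hq
    simp only [Multiset.insert_eq_cons, Multiset.map_cons, Multiset.map_singleton] at hmap
    have hp : ∀ j, N.step.par (Sum.inl (q, k)) j = Sum.inl (N.par q j, k) := fun j => rfl
    have hch : ∀ j, N.step.chi (Sum.inl (q, k)) j = Sum.inl (N.chi q j, k) := fun j => rfl
    simp only [Multiset.insert_eq_cons, hp, hch, stepF_inl, hk]
    rw [hai 0, hai 1, hai 2, hai 3, hsum, Fin.sum_univ_four]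
    have e1 : ∀ x : ℚ, e' * (x * w i₀) = e' * x * w i₀ := fun x => by ring
    have e3 : ∀ x : ℚ, -(e' * (x * w i₀)) = -(e' * x) * w i₀ := fun x => by ring
    rw [e3, e3, e1, e1, e1, ← neg_mul]
    exact hmap
  · -- case (2)
    push Not at hun
    have himg : Finset.univ.erase i₀ ⊆ Finset.univ.image fun i => (c i).2 := by
      intro e he
      obtain ⟨i, hi⟩ := hun e (Finset.ne_of_mem_erase he)
      exact Finset.mem_image.mpr ⟨i, Finset.mem_univ _, hi⟩
    have hcard1 : (Finset.univ.erase i₀ : Finset (Fin 5)).card = 4 := by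
      rw [Finset.card_erase_of_mem (Finset.mem_univ _)]
      simp
    have hcard2 : (Finset.univ.image fun i => (c i).2).card ≤ 4 :=
      Finset.card_image_le.trans_eq (by simp)
    have heq : Finset.univ.erase i₀ = Finset.univ.image fun i => (c i).2 :=
      Finset.eq_of_subset_of_card_le himg (by omega)
    have hinj : Function.Injective fun i => (c i).2 := by
      have h5 : (Finset.univ.image fun i => (c i).2).card = (Finset.univ : Finset (Fin 4)).card := by
        rw [← heq, hcard1]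
        simp
      have h6 := Finset.card_image_iff.mp h5
      intro x y hxy
      exact h6 (Finset.mem_coe.mpr (Finset.mem_univ _)) (Finset.mem_coe.mpr (Finset.mem_univ _)) hxy
    have hne : ∀ i, (c i).2 ≠ i₀ := by
      intro i
      have : (c i).2 ∈ Finset.univ.erase i₀ := by
        rw [heq]
        exact Finset.mem_image.mpr ⟨i, Finset.mem_univ _, rfl⟩
      exact Finset.ne_of_mem_erase this
    have hBi : ∀ i, (pairOf c).1 (c i).2 = (c i).1 := by
      intro i
      simp only [pairOf]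
      rw [Finset.sum_eq_single i]
      · rw [if_pos rfl]
      · intro j _ hj
        exact if_neg fun h => hj (hinj h)
      · intro h
        exact absurd (Finset.mem_univ _) h
    have hβ : ∀ i, (c i).1 = (c 0).1 := by
      intro i
      rw [← hBi i, ← hBi 0]
      exact hB _ _ (hne i) (hne 0)
    set β := (c 0).1 with hβdef
    -- a child entry
    obtain ⟨m, hm, hmβ⟩ : ∃ m : M, N.lv m = g ∧ |β| = f m := by
      have h34 : (3 : Fin 5) ≠ i₀ ∨ (4 : Fin 5) ≠ i₀ := by
        by_contra h5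
        push Not at h5
        exact absurd (h5.1.trans h5.2.symm) (by decide)
      rcases h34 with h5 | h5
      · obtain ⟨i, hi⟩ := hun 3 h5
        exact ⟨mm i, hlv i (Or.inl hi), by rw [← hβ i]; exact hcm i⟩
      · obtain ⟨i, hi⟩ := hun 4 h5
        exact ⟨mm i, hlv i (Or.inr hi), by rw [← hβ i]; exact hcm i⟩
    obtain ⟨e', he', heβ⟩ : ∃ e' : ℚ, (e' = 1 ∨ e' = -1) ∧ β = e' * f m := by
      rcases abs_choice β with h5 | h5
      · exact ⟨1, Or.inl rfl, by rw [one_mul, ← hmβ, h5]⟩
      · exact ⟨-1, Or.inr rfl, by rw [← hmβ, h5]; ring⟩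
    have hai : ∀ i, a i = β * w (c i).2 := fun i => by rw [hac i, hβ i]
    -- the permutation
    have hnd : ({(c 0).2, (c 1).2, (c 2).2, (c 3).2, i₀} : Multiset (Fin 5)).Nodup := by
      simp only [Multiset.insert_eq_cons, Multiset.nodup_cons, Multiset.mem_cons,
        Multiset.mem_singleton, Multiset.nodup_singleton, not_or, and_true]
      have hd : ∀ i j : Fin 4, i ≠ j → (c i).2 ≠ (c j).2 := fun i j hij h => hij (hinj h)
      exact ⟨⟨hd 0 1 (by decide), hd 0 2 (by decide), hd 0 3 (by decide), hne 0⟩,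
        ⟨hd 1 2 (by decide), hd 1 3 (by decide), hne 1⟩, ⟨hd 2 3 (by decide), hne 2⟩, hne 3⟩
    have huniv : ({(c 0).2, (c 1).2, (c 2).2, (c 3).2, i₀} : Multiset (Fin 5)) =
        {0, 1, 2, 3, 4} := by
      have h5 : ({0, 1, 2, 3, 4} : Multiset (Fin 5)) = (Finset.univ : Finset (Fin 5)).val := rfl
      rw [h5]
      refine Multiset.eq_of_le_of_card_le ((Multiset.le_iff_subset hnd).mpr
        fun x _ => Finset.mem_univ_val x) ?_
      simp
    have hmap := congrArg (Multiset.map fun e => β * w e) huniv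
    simp only [Multiset.insert_eq_cons, Multiset.map_cons, Multiset.map_singleton] at hmap
    -- the fifth number
    have hsum5 : ∑ i, w (c i).2 + w i₀ = 0 := by
      have h5 := congrArg (fun s => (Multiset.map w s).sum) huniv
      simp only [Multiset.insert_eq_cons, Multiset.map_cons, Multiset.map_singleton,
        Multiset.sum_cons, Multiset.sum_singleton] at h5
      rw [Fin.sum_univ_four]
      linarith
    have hfifth : -(∑ i, a i) = β * w i₀ := by
      have h5 : ∑ i, a i = β * ∑ i, w (c i).2 := by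
        rw [Finset.mul_sum]
        exact Finset.sum_congr rfl fun i _ => hai i
      rw [h5]
      linear_combination (-β) * hsum5
    refine ⟨Sum.inr ⟨m, hm⟩, e', he', ?_⟩
    have hp : ∀ j, N.step.par (Sum.inr ⟨m, hm⟩) j = Sum.inl (m, j) := fun j => rfl
    have hch : ∀ j, N.step.chi (Sum.inr ⟨m, hm⟩) j = Sum.inr (⟨m, hm⟩, j) := fun j => rfl
    simp only [Multiset.insert_eq_cons, hp, hch, stepF_inl, stepF_inr]
    rw [hfifth, hai 0, hai 1, hai 2, hai 3]
    have e1 : ∀ x : ℚ, e' * (f m * x) = β * x := fun x => by rw [heβ]; ring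
    have e2 : ∀ x : ℚ, -(e' * -(f m * x)) = β * x := fun x => by rw [heβ]; ring
    rw [e1, e1, e1, e2, e2]
    exact hmap

end StepArith

open StepArith in
theorem stepArithStmt : StepArithStmt := by
  intro g M Q _ _ _ N f w hA h0 h1 h2 h3 h4 hs hcu hF hX
  have hwne : ∀ k : Fin 3, w (Fin.castLE (by norm_num) k) ≠ 0 := fun k => (w_pos h0 h1 h2 k).ne'
  refine ⟨?_, ?_, ?_, ?_, ?_⟩
  · rintro (⟨m, k⟩ | ⟨m, b⟩)
    · rw [stepF_inl]
      exact mul_pos (hA.pos m) (w_pos h0 h1 h2 k)
    · rw [stepF_inr, ← mul_neg]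
      exact mul_pos (hA.pos m.1) (neg_pos.mpr (w_neg h3 h4 b))
  · have hab : ∀ m, |f m| = f m := fun m => abs_of_pos (hA.pos m)
    have hab' : ∀ m, |(-f m)| = f m := fun m => by rw [abs_neg, hab]
    rintro (⟨m, k⟩ | ⟨m, b⟩) (⟨m', k'⟩ | ⟨m', b'⟩) h
    · rw [stepF_inl, stepF_inl] at h
      by_cases hk : k = k'
      · subst hk
        rw [hA.inj (mul_right_cancel₀ (hwne k) h)]
      · exfalso
        refine hX (f m) (f m') ⟨m, hab m⟩ ⟨m', hab m'⟩ _ _ ?_ h
        intro h5
        exact hk (Fin.castLE_injective _ h5)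
    · exfalso
      rw [stepF_inl, stepF_inr] at h
      exact hX (f m) (-f m'.1) ⟨m, hab m⟩ ⟨m'.1, hab' m'.1⟩ _ _ (castLE_ne k b')
        (by rw [h]; ring)
    · exfalso
      rw [stepF_inl, stepF_inr] at h
      exact hX (f m') (-f m.1) ⟨m', hab m'⟩ ⟨m.1, hab' m.1⟩ _ _ (castLE_ne k' b)
        (by rw [← h]; ring)
    · rw [stepF_inr, stepF_inr] at h
      by_cases hb : b = b'
      · subst hb
        have h5 := hA.inj (mul_right_cancel₀ (w_neg h3 h4 b).ne (neg_injective h))
        rw [Subtype.ext h5]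
      · exfalso
        refine hX (f m.1) (f m'.1) ⟨m.1, hab m.1⟩ ⟨m'.1, hab m'.1⟩ _ _ ?_ (neg_injective h)
        clear * - hb
        revert b b'
        decide
  · rintro (⟨q, k⟩ | m)
    · have hp : ∀ j, N.step.par (Sum.inl (q, k)) j = Sum.inl (N.par q j, k) := fun j => rfl
      have hch : ∀ j, N.step.chi (Sum.inl (q, k)) j = Sum.inl (N.chi q j, k) := fun j => rfl
      simp only [hp, hch, stepF_inl]
      linear_combination w (Fin.castLE (by norm_num) k) * hA.lin q
    · have hp : ∀ j, N.step.par (Sum.inr m) j = Sum.inl (m.1, j) := fun j => rfl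
      have hch : ∀ j, N.step.chi (Sum.inr m) j = Sum.inr (m, j) := fun j => rfl
      simp only [hp, hch, stepF_inl, stepF_inr]
      have e0 : (Fin.castLE (by norm_num) (0 : Fin 3) : Fin 5) = 0 := rfl
      have e1 : (Fin.castLE (by norm_num) (1 : Fin 3) : Fin 5) = 1 := rfl
      have e2 : (Fin.castLE (by norm_num) (2 : Fin 3) : Fin 5) = 2 := rfl
      rw [e0, e1, e2, if_pos trivial, if_neg (by decide)]
      linear_combination f m.1 * hs
  · rintro (⟨q, k⟩ | m)
    · have hp : ∀ j, N.step.par (Sum.inl (q, k)) j = Sum.inl (N.par q j, k) := fun j => rfl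
      have hch : ∀ j, N.step.chi (Sum.inl (q, k)) j = Sum.inl (N.chi q j, k) := fun j => rfl
      simp only [hp, hch, stepF_inl]
      linear_combination w (Fin.castLE (by norm_num) k) ^ 3 * hA.cub q
    · have hp : ∀ j, N.step.par (Sum.inr m) j = Sum.inl (m.1, j) := fun j => rfl
      have hch : ∀ j, N.step.chi (Sum.inr m) j = Sum.inr (m, j) := fun j => rfl
      simp only [hp, hch, stepF_inl, stepF_inr]
      have e0 : (Fin.castLE (by norm_num) (0 : Fin 3) : Fin 5) = 0 := rfl
      have e1 : (Fin.castLE (by norm_num) (1 : Fin 3) : Fin 5) = 1 := rfl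
      have e2 : (Fin.castLE (by norm_num) (2 : Fin 3) : Fin 5) = 2 := rfl
      rw [e0, e1, e2, if_pos trivial, if_neg (by decide)]
      linear_combination f m.1 ^ 3 * hcu
  · intro a b c d ha hb hc hd hn hcub
    have key := core N f w hA h0 h1 h2 h3 h4 hs hF ![a, b, c, d] (by
        intro i
        fin_cases i
        · exact ha
        · exact hb
        · exact hc
        · exact hd) (by
        rw [Fin.sum_univ_four]
        exact hn) (by
        rw [Fin.sum_univ_four, Fin.sum_univ_four]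
        exact hcub)
    rw [Fin.sum_univ_four] at key
    exact key

end GKdV
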