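import Mathlib

/-!
# Unconditional well-posedness of the periodic generalized KdV equation: definitions

Functions on the torus `ℝ / 2πℤ` are represented by `2π`-periodic functions `f : ℝ → ℝ`
(identified when equal almost everywhere); the `k`-gKdV equation is
`∂ₜ u + ∂ₓₓₓ u + σ ∂ₓ(u ^ k) = 0`.
-/

open MeasureTheory Filter Topology Set

noncomputable section

namespace GKdV

/-- The `n`-th Fourier coefficient `(1 / 2π) ∫_0^{2π} f(x) e^{-inx} dx`. -/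
def fc (f : ℝ → ℝ) (n : ℤ) : ℂ :=
  (1 / (2 * Real.pi) : ℂ) * ∫ x in (0 : ℝ)..(2 * Real.pi), (f x : ℂ) * Complex.exp (-(Complex.I * n * x))

/-- `f ∈ H^s(𝕋)`, `s ≥ 0`: `f` is `2π`-periodic, measurable, square integrable over a period, and
`∑ (1 + n²)^s |f̂(n)|² < ∞`. -/
structure MemHs (s : ℝ) (f : ℝ → ℝ) : Prop where
  periodic : Function.Periodic f (2 * Real.pi)
  meas : AEStronglyMeasurable f volume
  sq_int : IntervalIntegrable (fun x => f x ^ 2) volume 0 (2 * Real.pi)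
  summable : Summable fun n : ℤ => (1 + (n : ℝ) ^ 2) ^ s * ‖fc f n‖ ^ 2

/-- The `H^s(𝕋)` norm. -/
def hsNorm (s : ℝ) (f : ℝ → ℝ) : ℝ :=
  Real.sqrt (∑' n : ℤ, (1 + (n : ℝ) ^ 2) ^ s * ‖fc f n‖ ^ 2)

/-- Test functions on `(0, T) × 𝕋`: smooth, `2π`-periodic in `x`, with compact support in the time
interval `(0, T)`. -/
structure IsTest (T : ℝ) (φ : ℝ → ℝ → ℝ) : Prop where
  smooth : ContDiff ℝ (⊤ : ℕ∞) (Function.uncurry φ)
  periodic : ∀ t, Function.Periodic (φ t) (2 * Real.pi)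
  supp : ∃ a b : ℝ, 0 < a ∧ b < T ∧ ∀ t, t ∉ Icc a b → ∀ x, φ t x = 0

/-- `u ∈ C([0, T]; H^s(𝕋))` is a solution of `k`-gKdV in the sense of distributions on
`(0, T) × 𝕋`.  (`pow_int` and `pow_cont` say that `u^k ∈ C([0, T]; L¹(𝕋))`; they follow from `mem`
and `cont` by the Sobolev embedding `H^s(𝕋) ⊂ L^k(𝕋)` when `s ≥ 1/2 - 1/k`.) -/
structure IsSolution (k : ℕ) (σ s T : ℝ) (u : ℝ → ℝ → ℝ) : Prop where
  mem : ∀ t ∈ Icc 0 T, MemHs s (u t)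
  cont : ∀ t ∈ Icc 0 T,
    Tendsto (fun t' => hsNorm s (fun x => u t' x - u t x)) (𝓝[Icc 0 T] t) (𝓝 0)
  pow_int : ∀ t ∈ Icc 0 T, IntervalIntegrable (fun x => u t x ^ k) volume 0 (2 * Real.pi)
  pow_cont : ∀ t ∈ Icc 0 T,
    Tendsto (fun t' => ∫ x in (0 : ℝ)..(2 * Real.pi), |u t' x ^ k - u t x ^ k|)
      (𝓝[Icc 0 T] t) (𝓝 0)
  eqn : ∀ φ : ℝ → ℝ → ℝ, IsTest T φ →
    ∫ t in (0 : ℝ)..T, ∫ x in (0 : ℝ)..(2 * Real.pi),
      (u t x * (deriv (fun τ => φ τ x) t + iteratedDeriv 3 (φ t) x)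
        + σ * u t x ^ k * deriv (φ t) x) = 0

/-- Unconditional local well-posedness of `k`-gKdV in `H^s(𝕋)`: locally in the data there is a
common time of existence `T > 0`, a solution in `C([0, T]; H^s)`, unique in this class, and the
data-to-solution map into `C([0, T]; H^s)` is continuous. -/
def UnconditionallyLWP (k : ℕ) (σ s : ℝ) : Prop :=
  ∀ u₀ : ℝ → ℝ, MemHs s u₀ → ∃ T > 0, ∃ ρ > 0,
    (∀ v₀ : ℝ → ℝ, MemHs s v₀ → hsNorm s (fun x => v₀ x - u₀ x) < ρ →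
      ∃ v : ℝ → ℝ → ℝ, IsSolution k σ s T v ∧ v 0 =ᵐ[volume] v₀ ∧
        ∀ w : ℝ → ℝ → ℝ, IsSolution k σ s T w → w 0 =ᵐ[volume] v₀ →
          ∀ t ∈ Icc 0 T, w t =ᵐ[volume] v t) ∧
    (∀ v₀ : ℝ → ℝ, MemHs s v₀ → hsNorm s (fun x => v₀ x - u₀ x) < ρ →
      ∀ ε > 0, ∃ δ > 0, ∀ w₀ : ℝ → ℝ, MemHs s w₀ → hsNorm s (fun x => w₀ x - u₀ x) < ρ →
        hsNorm s (fun x => w₀ x - v₀ x) < δ →
        ∀ v w : ℝ → ℝ → ℝ, IsSolution k σ s T v → v 0 =ᵐ[volume] v₀ →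
          IsSolution k σ s T w → w 0 =ᵐ[volume] w₀ →
          ∀ t ∈ Icc 0 T, hsNorm s (fun x => w t x - v t x) < ε)

end GKdV
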