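import Pool.Agent.Lib.MP_cb0de5_an.SpecA

open MeasureTheory Filter Topology Set

noncomputable section

namespace GKdV

private lemma Supply.inv_min_sq (x y : ℝ) (hx : 0 < x) (hy : 0 < y) (B : ℝ) (hB : 0 ≤ B) :
    B / (min x y) ^ 2 ≤ B / x ^ 2 + B / y ^ 2 := by
  rcases min_choice x y with h | h <;> rw [h]
  · have : 0 ≤ B / y ^ 2 := by positivity
    linarith
  · have : 0 ≤ B / x ^ 2 := by positivity
    linarith

theorem supplyStmt : SupplyStmt := by
  intro a b A B E k P hab hA hB hE hk hP hP0 hlow
  have hba : 0 < b - a := by linarith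
  rcases lt_or_ge b (a + A) with h | h
  · have h1 : 0 ≤ ∫ s in a..b, P s := intervalIntegral.integral_nonneg hab.le hP0
    have h2 : 0 ≤ B / A + 4 * B / (b - a) + E / (2 * k) := by positivity
    linarith
  -- main case
  set G : ℝ → ℝ := fun s => s - 3 * (-(B / (s - a)) + 4 * B / (b - a) ^ 2 * s +
    E / (2 * k) * Real.exp (-(2 * k * (b - s)))) with hG
  have hder : ∀ s, a < s → HasDerivAt G (1 - 3 * (B / (s - a) ^ 2 + 4 * B / (b - a) ^ 2 +
      E * Real.exp (-(2 * k * (b - s))))) s := by
    intro s hs
    have hsa : s - a ≠ 0 := ne_of_gt (sub_pos.2 hs)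
    have d1 : HasDerivAt (fun s : ℝ => B / (s - a)) (-(B / (s - a) ^ 2)) s := by
      refine ((hasDerivAt_const s B).div ((hasDerivAt_id s).sub_const a) hsa).congr_deriv ?_
      simp only [id]
      field_simp
      ring
    have d2 : HasDerivAt (fun s : ℝ => Real.exp (-(2 * k * (b - s))))
        (Real.exp (-(2 * k * (b - s))) * (2 * k)) s := by
      have h1 : HasDerivAt (fun s : ℝ => -(2 * k * (b - s))) (2 * k) s := by
        refine ((((hasDerivAt_id s).const_sub b).const_mul (2 * k)).neg).congr_deriv ?_
        ring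
      exact h1.exp
    have d3 : HasDerivAt (fun s : ℝ => 4 * B / (b - a) ^ 2 * s) (4 * B / (b - a) ^ 2) s := by
      simpa using (hasDerivAt_id s).const_mul (4 * B / (b - a) ^ 2)
    refine ((hasDerivAt_id s).sub
      (((d1.neg.add d3).add (d2.const_mul (E / (2 * k)))).const_mul 3)).congr_deriv ?_
    have e : E / (2 * k) * (Real.exp (-(2 * k * (b - s))) * (2 * k)) =
        E * Real.exp (-(2 * k * (b - s))) := by
      field_simp
    rw [e]
    ring
  have hcont : ContinuousOn G (Icc (a + A) b) := fun s hs =>
    (hder s (by linarith [hs.1])).continuousAt.continuousWithinAt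
  have hint : IntegrableOn P (Icc (a + A) b) :=
    (hP.mono (Icc_subset_Icc_left (by linarith))).integrableOn_Icc
  have key := intervalIntegral.sub_le_integral_of_hasDeriv_right_of_le h hcont
    (fun s hs => (hder s (by linarith [hs.1])).hasDerivWithinAt) hint (fun s hs => by
      have h1 := hlow s ⟨by linarith [hs.1], hs.2.le⟩ hs.1.le
      have h2 := Supply.inv_min_sq (s - a) ((b - a) / 2) (by linarith [hs.1]) (by linarith) B hB
      have h3 : B / ((b - a) / 2) ^ 2 = 4 * B / (b - a) ^ 2 := by
        field_simp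
        norm_num
      rw [h3] at h2
      linarith)
  have hsplit : ∫ s in a..b, P s = (∫ s in a..(a + A), P s) + ∫ s in (a + A)..b, P s := by
    rw [intervalIntegral.integral_add_adjacent_intervals]
    · exact (hP.mono (by rw [uIcc_of_le (by linarith)]; exact Icc_subset_Icc_right h)).intervalIntegrable
    · exact (hP.mono (by rw [uIcc_of_le h]; exact Icc_subset_Icc_left (by linarith))).intervalIntegrable
  have hfirst : 0 ≤ ∫ s in a..(a + A), P s :=
    intervalIntegral.integral_nonneg (by linarith) (fun s hs => hP0 s ⟨hs.1, hs.2.trans h⟩)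
  have hGval : (b - a) - A - 3 * (B / A + 4 * B / (b - a) + E / (2 * k)) ≤ G b - G (a + A) := by
    simp only [hG]
    have e1 : a + A - a = A := by ring
    rw [e1, sub_self, mul_zero, neg_zero, Real.exp_zero]
    have e2 : 4 * B / (b - a) ^ 2 * b - 4 * B / (b - a) ^ 2 * (a + A) ≤ 4 * B / (b - a) := by
      have : 4 * B / (b - a) ^ 2 * b - 4 * B / (b - a) ^ 2 * (a + A)
          = 4 * B / (b - a) - 4 * B / (b - a) ^ 2 * A := by
        field_simp
        ring
      rw [this]
      have : 0 ≤ 4 * B / (b - a) ^ 2 * A := by positivity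
      linarith
    have e3 : 0 ≤ B / (b - a) := by positivity
    have e4 : 0 ≤ E / (2 * k) * Real.exp (-(2 * k * (b - (a + A)))) := by positivity
    linarith
  linarith

end GKdV
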