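import Pool.Agent.Lib.MP_cb0de5_an.SpecA

/-!
# Lower bound of theta at the firing time
-/

open MeasureTheory Filter Topology Set

noncomputable section

namespace GKdV

namespace ThLow

lemma Dl_ge {g : ℕ} {K R : ℝ} (hK : 3 ≤ K) (hR : 1 ≤ R) (j : ℕ) : 1 ≤ Dl g K R j := by
  unfold Dl
  have h1 : (1 : ℝ) ≤ K ^ (g + 1 - j) := one_le_pow₀ (by linarith)
  nlinarith

lemma st_nonneg {g : ℕ} {K R : ℝ} (hK : 3 ≤ K) (hR : 1 ≤ R) (j : ℕ) : 0 ≤ st g K R j := by
  unfold st
  exact Finset.sum_nonneg fun i _ => by linarith [Dl_ge (g := g) hK hR (i + 1)]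

lemma st_succ (g : ℕ) (K R : ℝ) (j : ℕ) : st g K R (j + 1) = st g K R j + Dl g K R (j + 1) := by
  unfold st
  exact Finset.sum_range_succ _ _

lemma ge_of_sq {x d : ℝ} (hx : 0 ≤ x) (hd : 0 ≤ d) (h : 1 - d ≤ x ^ 2) : 1 - d ≤ x := by
  by_contra hc
  push Not at hc
  nlinarith [mul_nonneg hx (by linarith : 0 ≤ 1 - x)]

lemma prod3 {a b c d : ℝ} (ha : 0 ≤ a) (hb : 0 ≤ b) (hc : 0 ≤ c) (_hd : 0 ≤ d)
    (h1 : 1 - d ≤ a) (h2 : 1 - d ≤ b) (h3 : 1 - d ≤ c) : 1 - 3 * d ≤ a * b * c := by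
  rcases le_or_gt 1 d with h | h
  · have := mul_nonneg (mul_nonneg ha hb) hc
    linarith
  · have h4 : (1 - d) * (1 - d) ≤ a * b := mul_le_mul h1 h2 (by linarith) ha
    have h5 : (1 - d) * (1 - d) * (1 - d) ≤ a * b * c :=
      mul_le_mul h4 h3 (by linarith) (mul_nonneg ha hb)
    nlinarith [mul_nonneg (sq_nonneg d) (by linarith : 0 ≤ 3 - d)]

end ThLow

open ThLow in
theorem thLowStmt (h1 : SqStmt) (h2 : CrudeStmt) (h3 : ChildUpStmt) (h4 : UpStmt)
    (h5 : SupplyStmt) : ThLowStmt := by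
  intro g k kk K A hk hkk hK hA
  obtain ⟨R₀, hR₀⟩ := h4 g k kk K hk hkk hK
  set E : ℝ := 4 * ∑ i ∈ Finset.range (g + 1), Real.exp (2 * CC k kk i) with hE
  have hE0 : 0 ≤ E := by
    rw [hE]
    exact mul_nonneg (by norm_num) (Finset.sum_nonneg fun i _ => (Real.exp_pos _).le)
  have hB0 : 0 ≤ BB k := by unfold BB; positivity
  refine ⟨kk * (A + 3 * (BB k / A + 4 * BB k + E / (2 * k))) + 1, R₀, ?_, ?_⟩
  · have : 0 ≤ kk * (A + 3 * (BB k / A + 4 * BB k + E / (2 * k))) := by positivity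
    linarith
  intro R hR M Q _ _ _ N κ x hrun t ht hnn q hqt hfill
  have hRone := hrun.R_one
  obtain ⟨hcont, -, -, hsqA, -, hsqC⟩ := h1 g M Q N κ k kk K R x hrun
  -- the level of `q`
  obtain ⟨j, hj⟩ : ∃ j, N.ql q = j + 1 := ⟨N.lv (N.par q 0), (N.lv_par q 0).symm⟩
  have hjg : j + 1 ≤ g := by
    rw [← hj, ← N.lv_chi q 0]
    exact N.lv_le _
  set a : ℝ := st g K R j with ha
  set b : ℝ := st g K R (j + 1) with hb
  have hab : b = a + Dl g K R (j + 1) := st_succ g K R j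
  have hD1 : 1 ≤ Dl g K R (j + 1) := Dl_ge hK hRone _
  have ha0 : 0 ≤ a := st_nonneg hK hRone _
  have hbt : b ≤ t := by rw [hj] at hqt; exact hqt
  have hκ1 := hrun.κ_lo q
  have hκ2 := hrun.κ_hi q
  have hκ0 : 0 < κ q := lt_of_lt_of_le hk hκ1
  have hlt : a < b := by linarith
  -- continuity of the product
  have hcP : ContinuousOn (fun s => N.P3 (x s) q) (Icc 0 (st g K R (g + 1))) := by
    unfold Net.P3
    exact ((hcont _).mul (hcont _)).mul (hcont _)
  have hnnP : ∀ s ∈ Icc 0 t, 0 ≤ N.P3 (x s) q := by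
    intro s hs
    unfold Net.P3
    exact mul_nonneg (mul_nonneg (hnn s hs _) (hnn s hs _)) (hnn s hs _)
  have hsub : Icc 0 b ⊆ Icc 0 (st g K R (g + 1)) := Icc_subset_Icc le_rfl (hbt.trans ht.2)
  have hsub2 : Icc a b ⊆ Icc 0 (st g K R (g + 1)) :=
    (Icc_subset_Icc_left ha0).trans hsub
  -- the bound of `τ_q`
  have hta : ∀ s ∈ Icc a b, N.ta κ x q s ≤ E * Real.exp (-(2 * k * (b - s))) := by
    intro s hs
    have hs0 : s ∈ Icc 0 (st g K R (g + 1)) := hsub2 hs
    have hnns : NonnegTo x s := fun r hr => hnn r ⟨hr.1, hr.2.trans (hs.2.trans hbt)⟩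
    have e1 := (h3 g M Q N κ k kk K R x hrun s hs0 hnns q).2.2
    have e2 := hR₀ R hR M Q N κ x hrun s hs0 hnns q
    have e3 : N.ql q - 1 = j := by omega
    rw [e3, hj, ← ha, max_eq_left (by linarith [hs.1])] at e2
    have e4 : N.de κ K R q = Real.exp (-(κ q * Dl g K R (j + 1))) := by
      unfold Net.de
      rw [hj]
    have e5 : 4 * N.de κ K R q ^ 2 * Real.exp (2 * N.th κ x q s) ≤
        4 * Real.exp (2 * CC k kk (j + 1)) * Real.exp (-(2 * k * (b - s))) := by
      rw [e4, ← Real.exp_nat_mul, mul_assoc, mul_assoc, ← Real.exp_add, ← Real.exp_add]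
      have e6 : ((2 : ℕ) : ℝ) * -(κ q * Dl g K R (j + 1)) + 2 * N.th κ x q s ≤
          2 * CC k kk (j + 1) + -(2 * k * (b - s)) := by
        have e7 : Dl g K R (j + 1) = b - a := by linarith
        rw [e7]
        push_cast
        nlinarith [mul_nonneg (sub_nonneg.2 hκ1) (sub_nonneg.2 hs.2)]
      have := Real.exp_le_exp.2 e6
      linarith
    have e8 : 4 * Real.exp (2 * CC k kk (j + 1)) ≤ E := by
      rw [hE]
      have := Finset.single_le_sum (f := fun i => Real.exp (2 * CC k kk i))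
        (fun i _ => (Real.exp_pos _).le) (Finset.mem_range.2 (by omega : j + 1 < g + 1))
      linarith
    calc N.ta κ x q s ≤ 4 * N.de κ K R q ^ 2 * Real.exp (2 * N.th κ x q s) := e1
      _ ≤ 4 * Real.exp (2 * CC k kk (j + 1)) * Real.exp (-(2 * k * (b - s))) := e5
      _ ≤ E * Real.exp (-(2 * k * (b - s))) :=
        mul_le_mul_of_nonneg_right e8 (Real.exp_pos _).le
  -- the bound of the parents
  have hpar : ∀ s ∈ Icc a b, a + A ≤ s → ∀ i,
      1 - (BB k / min (s - a) ((b - a) / 2) ^ 2 + E * Real.exp (-(2 * k * (b - s)))) ≤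
        x s (N.par q i) := by
    intro s hs has i
    have hs0 : s ∈ Icc 0 (st g K R (g + 1)) := hsub2 hs
    have hst : s ∈ Icc 0 t := ⟨hs0.1, hs.2.trans hbt⟩
    have hBm : 0 ≤ BB k / min (s - a) ((b - a) / 2) ^ 2 := by positivity
    apply ge_of_sq (hnn s hst _)
    · have := (Real.exp_pos (-(2 * k * (b - s)))).le
      positivity
    have hq := hta s hs
    rcases Nat.eq_zero_or_pos j with hj0 | hj0
    · have e1 := hsqC s hs0 q i (by omega)
      rw [e1]
      linarith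
    · have e2 : 0 < N.lv (N.par q i) := by
        have := N.lv_par q i
        omega
      obtain ⟨q', b', hq'⟩ := N.chi_surj _ e2
      have e3 := hsqA s hs0 q' b' q i hq'.symm
      have e4 : N.ql q' + 1 = N.ql q := by
        rw [← N.lv_par q i, ← N.lv_chi q' b', hq']
      have e5 := hfill q' e4 s hst
      have e6 : N.ql q' = j := by omega
      unfold FillAt at e5
      rw [e6, ← ha] at e5
      have e7 := e5 has
      have e8 : Dl g K R (j + 1) = b - a := by linarith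
      rw [e8] at e7
      rw [← hq', e3]
      have := sq_nonneg (x 0 (N.chi q' b'))
      linarith
  have hsupply := h5 a b A (BB k) E k (fun s => N.P3 (x s) q) hlt hA hB0 hE0 hk
    (hcP.mono hsub2) (fun s hs => hnnP s ⟨ha0.trans hs.1, hs.2.trans hbt⟩) (by
      intro s hs has
      have hst : s ∈ Icc 0 t := ⟨ha0.trans hs.1, hs.2.trans hbt⟩
      have hBm : 0 ≤ BB k / min (s - a) ((b - a) / 2) ^ 2 := by positivity
      unfold Net.P3
      apply prod3 (hnn s hst _) (hnn s hst _) (hnn s hst _) _ (hpar s hs has 0) (hpar s hs has 1)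
        (hpar s hs has 2)
      have := (Real.exp_pos (-(2 * k * (b - s)))).le
      positivity)
  -- conclusion
  have hi1 : IntervalIntegrable (fun s => N.P3 (x s) q) volume 0 a := by
    apply ContinuousOn.intervalIntegrable
    rw [uIcc_of_le ha0]
    exact hcP.mono ((Icc_subset_Icc_right hlt.le).trans hsub)
  have hi2 : IntervalIntegrable (fun s => N.P3 (x s) q) volume a b := by
    apply ContinuousOn.intervalIntegrable
    rw [uIcc_of_le hlt.le]
    exact hcP.mono hsub2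
  have hint : ∫ s in (0 : ℝ)..b, N.P3 (x s) q =
      (∫ s in (0 : ℝ)..a, N.P3 (x s) q) + ∫ s in a..b, N.P3 (x s) q :=
    (intervalIntegral.integral_add_adjacent_intervals hi1 hi2).symm
  have hpos : 0 ≤ ∫ s in (0 : ℝ)..a, N.P3 (x s) q :=
    intervalIntegral.integral_nonneg ha0 fun s hs =>
      hnnP s ⟨hs.1, hs.2.trans (hlt.le.trans hbt)⟩
  rw [hj]
  change κ q * Dl g K R (j + 1) - _ ≤ κ q * ∫ s in (0 : ℝ)..b, N.P3 (x s) q
  have h6 : 4 * BB k / (b - a) ≤ 4 * BB k := by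
    apply div_le_self (by positivity)
    linarith
  have h7 : Dl g K R (j + 1) - (A + 3 * (BB k / A + 4 * BB k + E / (2 * k))) ≤
      ∫ s in (0 : ℝ)..b, N.P3 (x s) q := by
    rw [hint]
    have e8 : Dl g K R (j + 1) = b - a := by linarith
    rw [e8]
    linarith
  have h8 := mul_le_mul_of_nonneg_left h7 hκ0.le
  have h9 : κ q * (A + 3 * (BB k / A + 4 * BB k + E / (2 * k))) ≤
      kk * (A + 3 * (BB k / A + 4 * BB k + E / (2 * k))) :=
    mul_le_mul_of_nonneg_right hκ2 (by positivity)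
  rw [mul_sub] at h8
  linarith

end GKdV
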