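import Pool.Agent.Lib.MP_cb0de5_an.SpecC

/-!
# C5c2: the Sobolev part of the limit
-/

open MeasureTheory Filter Topology Set

noncomputable section

namespace GKdV

open LP

namespace UnifHs

lemma fc_le {g : ℝ → ℝ} {ε : ℝ} (h : ∀ x, |g x| ≤ ε) (m : ℤ) : ‖fc g m‖ ≤ ε := by
  unfold fc
  have hpi : 0 < 2 * Real.pi := by positivity
  have h1 : ‖∫ x in (0 : ℝ)..(2 * Real.pi), (g x : ℂ) * Complex.exp (-(Complex.I * m * x))‖ ≤
      ε * |2 * Real.pi - 0| := by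
    apply intervalIntegral.norm_integral_le_of_norm_le_const
    intro x _
    rw [norm_mul, Complex.norm_real, Real.norm_eq_abs]
    have h2 : ‖Complex.exp (-(Complex.I * m * x))‖ = 1 := by
      rw [Complex.norm_exp]
      have : (-(Complex.I * m * x)).re = 0 := by simp
      rw [this, Real.exp_zero]
    rw [h2, mul_one]
    exact h x
  rw [norm_mul]
  have h3 : ‖(1 / (2 * Real.pi) : ℂ)‖ = 1 / (2 * Real.pi) := by
    rw [norm_div, norm_one, norm_mul, Complex.norm_real, Real.norm_eq_abs, abs_of_pos Real.pi_pos]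
    norm_num
  rw [h3]
  rw [sub_zero, abs_of_pos hpi] at h1
  calc 1 / (2 * Real.pi) * _ ≤ 1 / (2 * Real.pi) * (ε * (2 * Real.pi)) :=
        mul_le_mul_of_nonneg_left h1 (by positivity)
    _ = ε := by field_simp

lemma fc_add {g h : ℝ → ℝ} (hg : Continuous g) (hh : Continuous h) (m : ℤ) :
    fc (fun x => g x + h x) m = fc g m + fc h m := by
  unfold fc
  rw [← mul_add, ← intervalIntegral.integral_add]
  · congr 1
    apply intervalIntegral.integral_congr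
    intro x _
    simp only []
    push_cast
    ring
  · apply Continuous.intervalIntegrable
    fun_prop
  · apply Continuous.intervalIntegrable
    fun_prop

lemma dil_sub (h3 : EvFacts) (c : ℝ) (N : ℕ) (f g : LP) (x : ℝ) :
    dil c N f x - dil c N g x = dil c N (f - g) x := by
  unfold dil
  rw [h3.ev_sub]
  ring

lemma dil_cont (h3 : EvFacts) (c : ℝ) (N : ℕ) (f : LP) : Continuous (dil c N f) := by
  have h : Continuous (ev f) :=
    continuous_iff_continuousAt.2 fun x => (h3.ev_deriv f x).continuousAt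
  unfold dil
  exact continuous_const.mul (h.comp (continuous_const.mul continuous_id))

lemma hsNorm_sq {s : ℝ} {f : ℝ → ℝ} :
    hsNorm s f ^ 2 = ∑' n : ℤ, (1 + (n : ℝ) ^ 2) ^ s * ‖fc f n‖ ^ 2 := by
  unfold hsNorm
  rw [Real.sq_sqrt]
  exact tsum_nonneg fun n => by positivity

/-- finite sums for the differences of approximants -/
lemma partSum (h1 : AlgFacts) (h2 : NormFacts) (h3 : EvFacts) (h5 : DilFacts)
    {Mb lam σ T c C : ℝ} {N K₁ : ℕ} {φ : LP} {a : ℕ → ℝ → LP} (hN : 0 < N)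
    (hseq : GalSeq Mb lam σ T K₁ φ a) {s : ℝ} (hs0 : 0 ≤ s) (hs1 : s ≤ 1)
    (hC : ∀ (K K' : ℕ), 0 < K → K ≤ K' →
      ∀ a a' : ℝ → LP, Gal K lam σ T a → Gal K' lam σ T a' → a 0 = a' 0 →
      (∀ t ∈ Icc 0 T, n2 (D (D (a t))) ≤ Mb) → (∀ t ∈ Icc 0 T, n2 (D (D (a' t))) ≤ Mb) →
      ∀ t ∈ Icc 0 T, n2 (a' t - a t) ≤ C / K)
    {K K' : ℕ} (hK : K₁ ≤ K) (hKK : K ≤ K') {τ : ℝ} (hτ : τ ∈ Icc 0 T) (F : Finset ℤ) :
    ∑ m ∈ F, (1 + (m : ℝ) ^ 2) ^ s *
      ‖fc (fun x => dil c N (a K' τ) x - dil c N (a K τ) x) m‖ ^ 2 ≤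
      2 * c ^ 2 * N ^ 2 * (C / K * (2 * Mb)) := by
  have hK0 : 0 < K := lt_of_lt_of_le hseq.K_pos hK
  have g1 := hseq.gal K hK
  have g2 := hseq.gal K' (hK.trans hKK)
  have hreal : IsReal (a K' τ - a K τ) := h1.real_sub _ _ (g2.real τ hτ) (g1.real τ hτ)
  have hmz : MZ (a K' τ - a K τ) := by
    have e := h1.I0_sub (a K' τ) (a K τ)
    have e1 : I0 (a K' τ) = 0 := g2.mz τ hτ
    have e2 : I0 (a K τ) = 0 := g1.mz τ hτ
    rw [e1, e2, sub_zero] at e
    exact e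
  have e0 : (fun x => dil c N (a K' τ) x - dil c N (a K τ) x) = dil c N (a K' τ - a K τ) := by
    funext x
    exact dil_sub h3 c N _ _ x
  rw [e0]
  have hmem := h5.mem s c N _ hN hreal
  have hle := h5.le_D s c N _ hs0 hs1 hN hreal hmz
  rw [hsNorm_sq] at hle
  have hpart : ∑ m ∈ F, (1 + (m : ℝ) ^ 2) ^ s * ‖fc (dil c N (a K' τ - a K τ)) m‖ ^ 2 ≤
      ∑' m : ℤ, (1 + (m : ℝ) ^ 2) ^ s * ‖fc (dil c N (a K' τ - a K τ)) m‖ ^ 2 :=
    hmem.summable.sum_le_tsum F fun i _ => by positivity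
  refine hpart.trans (hle.trans ?_)
  have hc1 : n2 (a K' τ - a K τ) ≤ C / K :=
    hC K K' hK0 hKK (a K) (a K') g1 g2 (by rw [hseq.init K hK, hseq.init K' (hK.trans hKK)])
      (hseq.bd K hK) (hseq.bd K' (hK.trans hKK)) τ hτ
  have hc2 : n2 (D (D (a K' τ - a K τ))) ≤ 2 * Mb := by
    rw [h1.D_sub, h1.D_sub]
    have := h2.n2_sub (D (D (a K' τ))) (D (D (a K τ)))
    have b1 := hseq.bd K hK τ hτ
    have b2 := hseq.bd K' (hK.trans hKK) τ hτ
    linarith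
  have hc3 : n2 (D (a K' τ - a K τ)) ^ 2 ≤ C / K * (2 * Mb) := by
    refine (h2.interp _).trans ?_
    exact mul_le_mul hc1 hc2 (h2.n2_nonneg _) ((h2.n2_nonneg _).trans hc1)
  exact mul_le_mul_of_nonneg_left hc3 (by positivity)

end UnifHs

open UnifHs in
theorem unifHsStmt (h1 : AlgFacts) (h2 : NormFacts) (h3 : EvFacts) (h4 : CauchyStmt)
    (h5 : DilFacts) : UnifHsStmt := by
  intro Mb lam σ T c N K₁ φ a hc hN hseq u hper hU s hs0 hs1
  obtain ⟨C, hCpos, hC⟩ := h4 Mb lam σ T hseq.Mb_pos hseq.T_pos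
  have hN' : (0 : ℝ) < (N : ℝ) ^ 3 := by
    have : (0 : ℝ) < N := by exact_mod_cast hN
    positivity
  have hτ : ∀ t ∈ Icc 0 (T / (N : ℝ) ^ 3), (N : ℝ) ^ 3 * t ∈ Icc 0 T := by
    intro t ht
    refine ⟨mul_nonneg hN'.le ht.1, ?_⟩
    have := ht.2
    rw [le_div_iff₀ hN'] at this
    linarith
  -- continuity
  have hcont : ∀ t ∈ Icc 0 (T / (N : ℝ) ^ 3), Continuous (u t) := by
    intro t ht
    have hunif : TendstoUniformly (fun (K : ℕ) x => dil c N (a K (N ^ 3 * t)) x) (u t) atTop := by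
      rw [Metric.tendstoUniformly_iff]
      intro ε hε
      obtain ⟨J, -, hJ⟩ := hU ε hε
      filter_upwards [eventually_ge_atTop J] with K hK x
      rw [dist_comm, Real.dist_eq]
      exact hJ K hK t ht x
    exact hunif.continuous (Frequently.of_forall fun K => dil_cont h3 c N _)
  -- the limit of the finite sums
  have hpart : ∀ K, K₁ ≤ K → ∀ t ∈ Icc 0 (T / (N : ℝ) ^ 3), ∀ F : Finset ℤ,
      ∑ m ∈ F, (1 + (m : ℝ) ^ 2) ^ s *
        ‖fc (fun x => u t x - dil c N (a K (N ^ 3 * t)) x) m‖ ^ 2 ≤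
        2 * c ^ 2 * N ^ 2 * (C / K * (2 * Mb)) := by
    intro K hK t ht F
    have hlim : ∀ m : ℤ, Tendsto (fun K' : ℕ =>
        fc (fun x => dil c N (a K' (N ^ 3 * t)) x - dil c N (a K (N ^ 3 * t)) x) m) atTop
        (𝓝 (fc (fun x => u t x - dil c N (a K (N ^ 3 * t)) x) m)) := by
      intro m
      rw [Metric.tendsto_atTop]
      intro ε hε
      obtain ⟨J, -, hJ⟩ := hU (ε / 2) (by positivity)
      refine ⟨J, fun K' hK' => ?_⟩
      have e1 : (fun x => dil c N (a K' (N ^ 3 * t)) x - dil c N (a K (N ^ 3 * t)) x) =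
          fun x => (u t x - dil c N (a K (N ^ 3 * t)) x) +
            (dil c N (a K' (N ^ 3 * t)) x - u t x) := by
        funext x; ring
      have e0 := UnifHs.fc_add (g := fun x => u t x - dil c N (a K (N ^ 3 * t)) x)
        (h := fun x => dil c N (a K' (N ^ 3 * t)) x - u t x)
        ((hcont t ht).sub (dil_cont h3 c N _)) ((dil_cont h3 c N _).sub (hcont t ht)) m
      rw [e1, e0, dist_eq_norm, add_sub_cancel_left]
      have e2 : ‖fc (fun x => dil c N (a K' (N ^ 3 * t)) x - u t x) m‖ ≤ ε / 2 :=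
        UnifHs.fc_le (fun x => (hJ K' hK' t ht x).le) m
      linarith
    have hlim2 : Tendsto (fun K' : ℕ => ∑ m ∈ F, (1 + (m : ℝ) ^ 2) ^ s *
        ‖fc (fun x => dil c N (a K' (N ^ 3 * t)) x - dil c N (a K (N ^ 3 * t)) x) m‖ ^ 2) atTop
        (𝓝 (∑ m ∈ F, (1 + (m : ℝ) ^ 2) ^ s *
        ‖fc (fun x => u t x - dil c N (a K (N ^ 3 * t)) x) m‖ ^ 2)) := by
      apply tendsto_finsetSum
      intro m _
      exact ((hlim m).norm.pow 2).const_mul _
    refine le_of_tendsto hlim2 ?_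
    filter_upwards [eventually_ge_atTop K] with K' hK'
    exact partSum h1 h2 h3 h5 hN hseq hs0 hs1 hC hK hK' (hτ t ht) F
  have hsum : ∀ K, K₁ ≤ K → ∀ t ∈ Icc 0 (T / (N : ℝ) ^ 3), Summable fun m : ℤ =>
      (1 + (m : ℝ) ^ 2) ^ s * ‖fc (fun x => u t x - dil c N (a K (N ^ 3 * t)) x) m‖ ^ 2 := by
    intro K hK t ht
    exact summable_of_sum_le (fun m => by positivity) (hpart K hK t ht)
  have hbound : ∀ K, K₁ ≤ K → ∀ t ∈ Icc 0 (T / (N : ℝ) ^ 3),
      hsNorm s (fun x => u t x - dil c N (a K (N ^ 3 * t)) x) ^ 2 ≤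
        2 * c ^ 2 * N ^ 2 * (C / K * (2 * Mb)) := by
    intro K hK t ht
    rw [UnifHs.hsNorm_sq]
    exact (hsum K hK t ht).tsum_le_of_sum_le (hpart K hK t ht)
  refine ⟨?_, ?_⟩
  · intro t ht
    have hct := hcont t ht
    refine ⟨hper t, hct.aestronglyMeasurable, (hct.pow 2).intervalIntegrable _ _, ?_⟩
    have hm := h5.mem s c N _ hN ((hseq.gal K₁ le_rfl).real _ (hτ t ht))
    have hs1 := hsum K₁ le_rfl t ht
    refine Summable.of_nonneg_of_le (fun m => by positivity) (fun m => ?_)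
      ((hs1.mul_left 2).add (hm.summable.mul_left 2))
    have e1 : u t = fun x => (u t x - dil c N (a K₁ (N ^ 3 * t)) x) +
        dil c N (a K₁ (N ^ 3 * t)) x := by
      funext x; ring
    have e2 : fc (u t) m = fc (fun x => u t x - dil c N (a K₁ (N ^ 3 * t)) x) m +
        fc (dil c N (a K₁ (N ^ 3 * t))) m := by
      conv_lhs => rw [e1]
      exact UnifHs.fc_add (hct.sub (dil_cont h3 c N _)) (dil_cont h3 c N _) m
    rw [e2]
    set p := fc (fun x => u t x - dil c N (a K₁ (N ^ 3 * t)) x) m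
    set q := fc (dil c N (a K₁ (N ^ 3 * t))) m
    have e3 : ‖p + q‖ ^ 2 ≤ 2 * ‖p‖ ^ 2 + 2 * ‖q‖ ^ 2 := by
      have h6 := norm_add_le p q
      have h7 : ‖p + q‖ ^ 2 ≤ (‖p‖ + ‖q‖) ^ 2 := pow_le_pow_left₀ (norm_nonneg _) h6 2
      nlinarith [sq_nonneg (‖p‖ - ‖q‖)]
    have e4 : (0 : ℝ) ≤ (1 + (m : ℝ) ^ 2) ^ s := by positivity
    calc (1 + (m : ℝ) ^ 2) ^ s * ‖p + q‖ ^ 2
        ≤ (1 + (m : ℝ) ^ 2) ^ s * (2 * ‖p‖ ^ 2 + 2 * ‖q‖ ^ 2) := mul_le_mul_of_nonneg_left e3 e4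
      _ = 2 * ((1 + (m : ℝ) ^ 2) ^ s * ‖p‖ ^ 2) + 2 * ((1 + (m : ℝ) ^ 2) ^ s * ‖q‖ ^ 2) := by ring
  · intro ε hε
    obtain ⟨J, hJ⟩ := exists_nat_gt (4 * c ^ 2 * N ^ 2 * C * Mb / ε ^ 2)
    refine ⟨max J K₁, le_max_right _ _, ?_⟩
    intro K hK t ht
    have hK1 : K₁ ≤ K := (le_max_right _ _).trans hK
    have hKJ : (J : ℝ) ≤ K := by exact_mod_cast (le_max_left _ _).trans hK
    have hK0 : (0 : ℝ) < K := by exact_mod_cast lt_of_lt_of_le hseq.K_pos hK1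
    have hb := hbound K hK1 t ht
    have h6 : 4 * c ^ 2 * N ^ 2 * C * Mb < ε ^ 2 * K := by
      have h7 := hJ.trans_le hKJ
      rw [div_lt_iff₀ (by positivity)] at h7
      linarith
    have h7 : 2 * c ^ 2 * N ^ 2 * (C / K * (2 * Mb)) < ε ^ 2 := by
      have h8 : 2 * c ^ 2 * (N : ℝ) ^ 2 * (C / K * (2 * Mb)) =
          4 * c ^ 2 * N ^ 2 * C * Mb / K := by ring
      rw [h8, div_lt_iff₀ hK0]
      exact h6
    exact lt_of_pow_lt_pow_left₀ 2 hε.le (hb.trans_lt h7)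

end GKdV
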