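import Pool.Agent.Lib.MP_cb0de5_an.SpecC

/-!
# C5c1: the uniform limit of the Galerkin solutions
-/

open MeasureTheory Filter Topology Set

noncomputable section

namespace GKdV

open LP

private lemma unifLim_bounds (h1 : AlgFacts) (h2 : NormFacts) (f : LP) (M : ℝ) (hf : MZ f)
    (hM : n2 (D (D f)) ≤ M) : nA f ≤ 2 * M ∧ nA (D f) ≤ 2 * M ∧ n2 (D f) ≤ M := by
  have e1 := h2.poinc_2 (D f) (h1.mz_D f)
  have e2 := h2.poinc_A f hf
  have e3 := h2.poinc_A (D f) (h1.mz_D f)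
  refine ⟨?_, ?_, ?_⟩ <;> linarith

private lemma unifLim_n2_mul' (h2 : NormFacts) (f g : LP) (x y : ℝ) (hf : nA f ≤ x)
    (hg : n2 g ≤ y) : n2 (f * g) ≤ x * y :=
  (h2.n2_mul f g).trans (mul_le_mul hf hg (h2.n2_nonneg _) ((h2.nA_nonneg _).trans hf))

private lemma unifLim_nA_mul' (h2 : NormFacts) (f g : LP) (x y : ℝ) (hf : nA f ≤ x)
    (hg : nA g ≤ y) : nA (f * g) ≤ x * y :=
  (h2.nA_mul f g).trans (mul_le_mul hf hg (h2.nA_nonneg _) ((h2.nA_nonneg _).trans hf))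

private lemma unifLim_DD (h1 : AlgFacts) (h2 : NormFacts) (f : LP) (M : ℝ) (hf : MZ f)
    (hM : n2 (D (D f)) ≤ M) : n2 (D (D (f ^ 4))) ≤ 128 * M ^ 4 := by
  obtain ⟨b1, b2, b3⟩ := unifLim_bounds h1 h2 f M hf hM
  have hM0 : 0 ≤ M := (h2.n2_nonneg _).trans hM
  set P : LP := f * f with hP
  have hDP : D P = D f * f + f * D f := h1.D_mul f f
  have hDDP : D (D P) = D (D f) * f + D f * D f + (D f * D f + f * D (D f)) := by
    rw [hDP, h1.D_add, h1.D_mul, h1.D_mul]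
  have p1 : nA P ≤ 4 * M ^ 2 := (unifLim_nA_mul' h2 f f _ _ b1 b1).trans (le_of_eq (by ring))
  have p2 : nA (D P) ≤ 8 * M ^ 2 := by
    rw [hDP]
    calc _ ≤ _ := h2.nA_add _ _
      _ ≤ (2 * M) * (2 * M) + (2 * M) * (2 * M) :=
        add_le_add (unifLim_nA_mul' h2 _ _ _ _ b2 b1) (unifLim_nA_mul' h2 _ _ _ _ b1 b2)
      _ = 8 * M ^ 2 := by ring
  have p3 : n2 (D P) ≤ 4 * M ^ 2 := by
    rw [hDP, mul_comm (D f) f]
    calc _ ≤ _ := h2.n2_add _ _
      _ ≤ (2 * M) * M + (2 * M) * M :=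
        add_le_add (unifLim_n2_mul' h2 _ _ _ _ b1 b3) (unifLim_n2_mul' h2 _ _ _ _ b1 b3)
      _ = 4 * M ^ 2 := by ring
  have p4 : n2 (D (D P)) ≤ 8 * M ^ 2 := by
    rw [hDDP, mul_comm (D (D f)) f]
    calc _ ≤ _ := h2.n2_add _ _
      _ ≤ (n2 (f * D (D f)) + n2 (D f * D f)) + (n2 (D f * D f) + n2 (f * D (D f))) :=
        add_le_add (h2.n2_add _ _) (h2.n2_add _ _)
      _ ≤ ((2 * M) * M + (2 * M) * M) + ((2 * M) * M + (2 * M) * M) :=
        add_le_add (add_le_add (unifLim_n2_mul' h2 _ _ _ _ b1 hM)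
          (unifLim_n2_mul' h2 _ _ _ _ b2 b3)) (add_le_add (unifLim_n2_mul' h2 _ _ _ _ b2 b3)
          (unifLim_n2_mul' h2 _ _ _ _ b1 hM))
      _ = 8 * M ^ 2 := by ring
  have hf4 : f ^ 4 = P * P := by rw [hP]; ring
  have h6 : D (D (f ^ 4)) = D (D P) * P + D P * D P + (D P * D P + P * D (D P)) := by
    rw [hf4, h1.D_mul P P, h1.D_add, h1.D_mul (D P) P, h1.D_mul P (D P)]
  rw [h6, mul_comm (D (D P)) P]
  calc _ ≤ _ := h2.n2_add _ _
    _ ≤ (n2 (P * D (D P)) + n2 (D P * D P)) + (n2 (D P * D P) + n2 (P * D (D P))) :=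
      add_le_add (h2.n2_add _ _) (h2.n2_add _ _)
    _ ≤ ((4 * M ^ 2) * (8 * M ^ 2) + (8 * M ^ 2) * (4 * M ^ 2)) +
        ((8 * M ^ 2) * (4 * M ^ 2) + (4 * M ^ 2) * (8 * M ^ 2)) :=
      add_le_add (add_le_add (unifLim_n2_mul' h2 _ _ _ _ p1 p4)
        (unifLim_n2_mul' h2 _ _ _ _ p2 p3)) (add_le_add (unifLim_n2_mul' h2 _ _ _ _ p2 p3)
        (unifLim_n2_mul' h2 _ _ _ _ p1 p4))
    _ = 128 * M ^ 4 := by ring

private lemma unifLim_cut (h1 : AlgFacts) (h2 : NormFacts) (f : LP) (M : ℝ) (K : ℕ) (hK : 0 < K)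
    (hM : n2 (D (D f)) ≤ M) : nA (f - cut K f) ≤ 2 * (M / K) := by
  have e0 : MZ (f - cut K f) := by
    unfold MZ
    rw [AddMonoidAlgebra.coeff_sub, Finsupp.sub_apply]
    have : (cut K f).coeff 0 = f.coeff 0 := by
      unfold cut
      rw [AddMonoidAlgebra.coeff_ofCoeff, Finsupp.filter_apply_pos]
      simp
    rw [this, sub_self]
  have e1 := h2.poinc_A _ e0
  rw [h1.D_sub, h1.D_cut] at e1
  have e2 := h2.tail_2 K (D f) hK
  have hK0 : (0 : ℝ) < K := by exact_mod_cast hK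
  have e3 : n2 (D (D f)) / K ≤ M / K := div_le_div_of_nonneg_right hM hK0.le
  linarith

private lemma unifLim_pow (u v R : ℝ) (hu : |u| ≤ R) (hv : |v| ≤ R) :
    |v ^ 4 - u ^ 4| ≤ 4 * R ^ 3 * |v - u| := by
  have hR : 0 ≤ R := (abs_nonneg _).trans hu
  have e1 : v ^ 4 - u ^ 4 = (v - u) * (v ^ 3 + v ^ 2 * u + v * u ^ 2 + u ^ 3) := by ring
  rw [e1, abs_mul, mul_comm]
  apply mul_le_mul_of_nonneg_right _ (abs_nonneg _)
  have e2 : |v ^ 3| ≤ R ^ 3 := by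
    rw [abs_pow]
    exact pow_le_pow_left₀ (abs_nonneg _) hv 3
  have e3 : |v ^ 2 * u| ≤ R ^ 3 := by
    rw [abs_mul, abs_pow, pow_succ R 2]
    exact mul_le_mul (pow_le_pow_left₀ (abs_nonneg _) hv 2) hu (abs_nonneg _) (by positivity)
  have e4 : |v * u ^ 2| ≤ R ^ 3 := by
    rw [abs_mul, abs_pow, show R ^ 3 = R * R ^ 2 by ring]
    exact mul_le_mul hv (pow_le_pow_left₀ (abs_nonneg _) hu 2) (by positivity) hR
  have e5 : |u ^ 3| ≤ R ^ 3 := by
    rw [abs_pow]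
    exact pow_le_pow_left₀ (abs_nonneg _) hu 3
  calc |v ^ 3 + v ^ 2 * u + v * u ^ 2 + u ^ 3|
      ≤ |v ^ 3 + v ^ 2 * u + v * u ^ 2| + |u ^ 3| := abs_add_le _ _
    _ ≤ |v ^ 3 + v ^ 2 * u| + |v * u ^ 2| + |u ^ 3| := by gcongr; exact abs_add_le _ _
    _ ≤ |v ^ 3| + |v ^ 2 * u| + |v * u ^ 2| + |u ^ 3| := by gcongr; exact abs_add_le _ _
    _ ≤ 4 * R ^ 3 := by linarith

theorem unifLimStmt (h1 : AlgFacts) (h2 : NormFacts) (h3 : EvFacts) (h4 : CauchyStmt) :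
    UnifLimStmt := by
  intro Mb lam σ T c N K₁ φ a hc hN hseq
  have hMb := hseq.Mb_pos
  have hT := hseq.T_pos
  obtain ⟨C, hC, hcau⟩ := h4 Mb lam σ T hMb hT
  have hNr : (0 : ℝ) < (N : ℝ) ^ 3 := by
    have : (0 : ℝ) < N := by exact_mod_cast hN
    positivity
  have hI : ∀ t ∈ Icc 0 (T / (N : ℝ) ^ 3), (N : ℝ) ^ 3 * t ∈ Icc 0 T := by
    intro t ht
    refine ⟨mul_nonneg hNr.le ht.1, ?_⟩
    have := (le_div_iff₀ hNr).1 ht.2
    linarith
  let δ : ℕ → ℝ := fun K => 2 * Real.sqrt (C / K * (2 * Mb))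
  let R : ℝ := c * (2 * Mb)
  have hR : 0 ≤ R := by positivity
  have hδ0 : ∀ K, 0 ≤ δ K := fun K => by positivity
  let v : ℕ → ℝ → ℝ → ℝ := fun K t x => dil c N (a K ((N : ℝ) ^ 3 * t)) x
  -- differences
  have hdiff : ∀ K ≥ K₁, ∀ K' ≥ K, ∀ t ∈ Icc 0 T, nA (a K' t - a K t) ≤ δ K := by
    intro K hK K' hK' t ht
    have hKp : 0 < K := lt_of_lt_of_le hseq.K_pos hK
    have g := hseq.gal K hK
    have g' := hseq.gal K' (hK.trans hK')
    have m : MZ (a K' t - a K t) := by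
      have m1 := g.mz t ht
      have m2 := g'.mz t ht
      unfold MZ at m1 m2 ⊢
      rw [AddMonoidAlgebra.coeff_sub, Finsupp.sub_apply, m1, m2, sub_zero]
    have e1 := h2.poinc_A _ m
    have e2 := h2.interp (a K' t - a K t)
    have e3 := hcau K K' hKp hK' (a K) (a K') g g'
      ((hseq.init K hK).trans (hseq.init K' (hK.trans hK')).symm) (hseq.bd K hK)
      (hseq.bd K' (hK.trans hK')) t ht
    have e4 : n2 (D (D (a K' t - a K t))) ≤ 2 * Mb := by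
      rw [h1.D_sub, h1.D_sub]
      calc _ ≤ _ := h2.n2_sub _ _
        _ ≤ Mb + Mb := add_le_add (hseq.bd K' (hK.trans hK') t ht) (hseq.bd K hK t ht)
        _ = 2 * Mb := by ring
    have e5 : n2 (D (a K' t - a K t)) ≤ Real.sqrt (C / K * (2 * Mb)) := by
      apply Real.le_sqrt_of_sq_le
      refine e2.trans ?_
      exact mul_le_mul e3 e4 (h2.n2_nonneg _) (by positivity)
    change _ ≤ 2 * Real.sqrt (C / K * (2 * Mb))
    linarith
  have hv : ∀ K ≥ K₁, ∀ K' ≥ K, ∀ t ∈ Icc 0 (T / (N : ℝ) ^ 3), ∀ x,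
      |v K' t x - v K t x| ≤ c * δ K := by
    intro K hK K' hK' t ht x
    have e1 : v K' t x - v K t x =
        c * ev (a K' ((N : ℝ) ^ 3 * t) - a K ((N : ℝ) ^ 3 * t)) (N * x) := by
      change c * ev _ _ - c * ev _ _ = _
      rw [h3.ev_sub]
      ring
    rw [e1, abs_mul, abs_of_pos hc]
    exact mul_le_mul_of_nonneg_left ((h3.ev_le _ _).trans (hdiff K hK K' hK' _ (hI t ht))) hc.le
  have hvR : ∀ K ≥ K₁, ∀ t ∈ Icc 0 (T / (N : ℝ) ^ 3), ∀ x, |v K t x| ≤ R := by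
    intro K hK t ht x
    change |c * ev _ _| ≤ c * (2 * Mb)
    rw [abs_mul, abs_of_pos hc]
    exact mul_le_mul_of_nonneg_left ((h3.ev_le _ _).trans
      (unifLim_bounds h1 h2 _ Mb ((hseq.gal K hK).mz _ (hI t ht))
        (hseq.bd K hK _ (hI t ht))).1) hc.le
  -- the error
  let err : ℕ → ℝ := fun K => c ^ 4 * (2 * (128 * Mb ^ 4 / K)) + (1 + 4 * R ^ 3) * (c * δ K)
  have hδ : Tendsto δ atTop (𝓝 0) := by
    have e1 : Tendsto (fun K : ℕ => C / (K : ℝ)) atTop (𝓝 0) :=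
      tendsto_const_div_atTop_nhds_zero_nat C
    have e2 := (e1.mul_const (2 * Mb)).sqrt.const_mul 2
    simpa using e2
  have herr : Tendsto err atTop (𝓝 0) := by
    have e1 : Tendsto (fun K : ℕ => 128 * Mb ^ 4 / (K : ℝ)) atTop (𝓝 0) :=
      tendsto_const_div_atTop_nhds_zero_nat _
    have e2 := ((e1.const_mul 2).const_mul (c ^ 4)).add
      ((hδ.const_mul c).const_mul (1 + 4 * R ^ 3))
    simpa using e2
  have herr1 : ∀ K, c * δ K ≤ err K := by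
    intro K
    have e1 : 0 ≤ c ^ 4 * (2 * (128 * Mb ^ 4 / (K : ℝ))) := by positivity
    have e2 : 0 ≤ 4 * R ^ 3 * (c * δ K) := by
      have := hδ0 K
      positivity
    change c * δ K ≤ c ^ 4 * (2 * (128 * Mb ^ 4 / K)) + (1 + 4 * R ^ 3) * (c * δ K)
    linarith
  -- the limit
  have hcs : ∀ t ∈ Icc 0 (T / (N : ℝ) ^ 3), ∀ x, CauchySeq (fun K => v K t x) := by
    intro t ht x
    rw [Metric.cauchySeq_iff']
    intro ε hε
    obtain ⟨J, hJ⟩ := eventually_atTop.1 (herr.eventually (gt_mem_nhds hε))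
    refine ⟨max J K₁, fun K hK => ?_⟩
    rw [Real.dist_eq]
    calc _ ≤ c * δ (max J K₁) := hv _ (le_max_right _ _) K hK t ht x
      _ ≤ err (max J K₁) := herr1 _
      _ < ε := hJ _ (le_max_left _ _)
  classical
  let u : ℝ → ℝ → ℝ := fun t x => if t ∈ Icc 0 (T / (N : ℝ) ^ 3) then
    limUnder atTop (fun K => v K t x) else 0
  have hu : ∀ t ∈ Icc 0 (T / (N : ℝ) ^ 3), ∀ x, Tendsto (fun K => v K t x) atTop (𝓝 (u t x)) := by
    intro t ht x
    have : u t x = limUnder atTop (fun K => v K t x) := if_pos ht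
    rw [this]
    exact CauchySeq.tendsto_limUnder (hcs t ht x)
  have huv : ∀ K ≥ K₁, ∀ t ∈ Icc 0 (T / (N : ℝ) ^ 3), ∀ x, |v K t x - u t x| ≤ c * δ K := by
    intro K hK t ht x
    have e1 : Tendsto (fun K' => |v K' t x - v K t x|) atTop (𝓝 |u t x - v K t x|) :=
      ((hu t ht x).sub_const _).abs
    rw [abs_sub_comm]
    apply le_of_tendsto e1
    filter_upwards [eventually_ge_atTop K] with K' hK'
    exact hv K hK K' hK' t ht x
  have huR : ∀ t ∈ Icc 0 (T / (N : ℝ) ^ 3), ∀ x, |u t x| ≤ R := by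
    intro t ht x
    apply le_of_tendsto (hu t ht x).abs
    filter_upwards [eventually_ge_atTop K₁] with K hK
    exact hvR K hK t ht x
  refine ⟨u, ?_, ?_⟩
  · intro t x
    have e1 : ∀ K, v K t (x + 2 * Real.pi) = v K t x := by
      intro K
      change c * ev _ (N * (x + 2 * Real.pi)) = c * ev _ (N * x)
      rw [mul_add]
      congr 1
      exact (h3.ev_periodic _).nat_mul N _
    simp only [u, e1]
  · intro ε hε
    obtain ⟨J, hJ⟩ := eventually_atTop.1 (herr.eventually (gt_mem_nhds hε))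
    refine ⟨max J K₁, le_max_right _ _, fun K hK t ht x => ?_⟩
    have hKJ : J ≤ K := (le_max_left _ _).trans hK
    have hKK : K₁ ≤ K := (le_max_right _ _).trans hK
    have hKp : 0 < K := lt_of_lt_of_le hseq.K_pos hKK
    have hlt := hJ K hKJ
    have e1 := huv K hKK t ht x
    refine ⟨lt_of_le_of_lt (e1.trans (herr1 K)) hlt, ?_⟩
    set f : LP := a K ((N : ℝ) ^ 3 * t) with hf
    have hfr : IsReal f := (hseq.gal K hKK).real _ (hI t ht)
    have hfm : MZ f := (hseq.gal K hKK).mz _ (hI t ht)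
    have hfb : n2 (D (D f)) ≤ Mb := hseq.bd K hKK _ (hI t ht)
    have hvf : v K t x = c * ev f (N * x) := rfl
    have e2 : ev (f ^ 4) (N * x) = ev f (N * x) ^ 4 := by
      have h7 : f ^ 4 = f * f * (f * f) := by ring
      rw [h7, h3.ev_mul _ _ (h1.real_mul _ _ hfr hfr) (h1.real_mul _ _ hfr hfr),
        h3.ev_mul _ _ hfr hfr]
      ring
    have e3 : dil (c ^ 4) N (cut K (f ^ 4)) x - u t x ^ 4 =
        -(c ^ 4 * ev (f ^ 4 - cut K (f ^ 4)) (N * x)) + (v K t x ^ 4 - u t x ^ 4) := by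
      rw [h3.ev_sub, hvf, e2]
      change c ^ 4 * ev _ _ - _ = _
      ring
    have e4 : |c ^ 4 * ev (f ^ 4 - cut K (f ^ 4)) (N * x)| ≤ c ^ 4 * (2 * (128 * Mb ^ 4 / K)) := by
      rw [abs_mul, abs_of_pos (by positivity)]
      exact mul_le_mul_of_nonneg_left ((h3.ev_le _ _).trans
        (unifLim_cut h1 h2 _ _ K hKp (unifLim_DD h1 h2 f Mb hfm hfb))) (by positivity)
    have e5 := unifLim_pow (u t x) (v K t x) R (huR t ht x) (hvR K hKK t ht x)
    have e6 : 4 * R ^ 3 * |v K t x - u t x| ≤ 4 * R ^ 3 * (c * δ K) :=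
      mul_le_mul_of_nonneg_left e1 (by positivity)
    have e7 : 0 ≤ c * δ K := mul_nonneg hc.le (hδ0 K)
    rw [e3]
    calc _ ≤ |(-(c ^ 4 * ev (f ^ 4 - cut K (f ^ 4)) (N * x)))| + |v K t x ^ 4 - u t x ^ 4| :=
          abs_add_le _ _
      _ ≤ c ^ 4 * (2 * (128 * Mb ^ 4 / K)) + 4 * R ^ 3 * (c * δ K) := by
          rw [abs_neg]
          exact add_le_add e4 (e5.trans e6)
      _ ≤ err K := by
          change _ ≤ c ^ 4 * (2 * (128 * Mb ^ 4 / K)) + (1 + 4 * R ^ 3) * (c * δ K)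
          linarith
      _ < ε := hlt

end GKdV
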