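import Pool.Agent.Lib.MP_cb0de5_an.SpecC

/-!
# C3d: closeness of the Galerkin solutions to the approximate solution
-/

open MeasureTheory Filter Topology Set

noncomputable section

namespace GKdV

open LP

/-- the support of a trigonometric polynomial with frequencies `|n| ≤ K` -/
private lemma uniform_supp_sub {K : ℕ} {f : LP} (hf : Supp K f) :
    f.coeff.support ⊆ Finset.Icc (-(K : ℤ)) K := by
  intro n hn
  rw [Finsupp.mem_support_iff] at hn
  rw [Finset.mem_Icc, ← abs_le]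
  by_contra h
  exact hn (hf n (not_le.1 h))

private lemma uniform_polar (h1 : AlgFacts) (h2 : NormFacts) (f g : LP) (hf : IsReal f) (hg : IsReal g)
    (s : Finset ℤ) (hfs : f.coeff.support ⊆ s) (hgs : g.coeff.support ⊆ s) :
    ∑ n ∈ s, 2 * inner ℝ (f.coeff n) (g.coeff n) = 2 * (I0 (f * g)).re := by
  have e1 := h2.I0_sq (f + g) (h1.real_add f g hf hg)
  have e2 := h2.I0_sq f hf
  have e3 := h2.I0_sq g hg
  have hs : (f + g).coeff.support ⊆ s := by
    intro n hn
    by_contra h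
    have h4 : f.coeff n = 0 := by
      by_contra h'
      exact h (hfs (Finsupp.mem_support_iff.2 h'))
    have h5 : g.coeff n = 0 := by
      by_contra h'
      exact h (hgs (Finsupp.mem_support_iff.2 h'))
    rw [Finsupp.mem_support_iff] at hn
    apply hn
    rw [AddMonoidAlgebra.coeff_add, Finsupp.add_apply, h4, h5, add_zero]
  rw [h2.n2_sq _ s hs] at e1
  rw [h2.n2_sq _ s hfs] at e2
  rw [h2.n2_sq _ s hgs] at e3
  have e4 : (f + g) * (f + g) = f * f + (f * g + (f * g + g * g)) := by ring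
  rw [e4, h1.I0_add, h1.I0_add, h1.I0_add, e2, e3] at e1
  have e5 := congrArg Complex.re e1
  simp only [Complex.add_re, Complex.ofReal_re] at e5
  have e6 : ∀ n, ‖(f + g).coeff n‖ ^ 2 =
      ‖f.coeff n‖ ^ 2 + 2 * inner ℝ (f.coeff n) (g.coeff n) + ‖g.coeff n‖ ^ 2 := by
    intro n
    rw [AddMonoidAlgebra.coeff_add, Finsupp.add_apply]
    exact norm_add_sq_real _ _
  simp only [e6, Finset.sum_add_distrib] at e5
  linarith

private lemma uniform_skew (h1 : AlgFacts) (w : LP) : I0 (w * D (D (D w))) = 0 := by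
  have e1 := h1.I0_D (w * D (D w))
  rw [h1.D_mul, h1.I0_add] at e1
  have e2 := h1.I0_D (D w * D w)
  rw [h1.D_mul, h1.I0_add, mul_comm (D (D w)) (D w)] at e2
  have e3 : I0 (D w * D (D w)) = 0 := by
    have : (2 : ℂ) * I0 (D w * D (D w)) = 0 := by linear_combination e2
    simpa using this
  rw [e3, zero_add] at e1
  exact e1

private lemma uniform_real_pow4 (h1 : AlgFacts) (f : LP) (hf : IsReal f) : IsReal (f ^ 4) := by
  have : f ^ 4 = f * f * (f * f) := by ring
  rw [this]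
  exact h1.real_mul _ _ (h1.real_mul _ _ hf hf) (h1.real_mul _ _ hf hf)

private lemma uniform_supp_pow4 (h1 : AlgFacts) (L : ℕ) (f : LP) (hf : Supp L f) :
    Supp (4 * L) (f ^ 4) := by
  have : f ^ 4 = f * f * (f * f) := by ring
  rw [this]
  have h := h1.supp_mul _ _ _ _ (h1.supp_mul _ _ _ _ hf hf) (h1.supp_mul _ _ _ _ hf hf)
  exact h1.supp_mono _ _ _ (by omega) h

private lemma uniform_cs (h2 : NormFacts) (f g : LP) (s : Finset ℤ) (hfs : f.coeff.support ⊆ s)
    (hgs : g.coeff.support ⊆ s) :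
    |∑ n ∈ s, 2 * inner ℝ (f.coeff n) (g.coeff n)| ≤ 2 * n2 f * n2 g := by
  have hf : n2 f = Real.sqrt (∑ n ∈ s, ‖f.coeff n‖ ^ 2) := by
    rw [← h2.n2_sq f s hfs, Real.sqrt_sq (h2.n2_nonneg f)]
  have hg : n2 g = Real.sqrt (∑ n ∈ s, ‖g.coeff n‖ ^ 2) := by
    rw [← h2.n2_sq g s hgs, Real.sqrt_sq (h2.n2_nonneg g)]
  calc |∑ n ∈ s, 2 * inner ℝ (f.coeff n) (g.coeff n)|
      ≤ ∑ n ∈ s, |2 * inner ℝ (f.coeff n) (g.coeff n)| := Finset.abs_sum_le_sum_abs _ _
    _ ≤ ∑ n ∈ s, 2 * (‖f.coeff n‖ * ‖g.coeff n‖) := by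
        refine Finset.sum_le_sum fun n _ => ?_
        rw [abs_mul, abs_two]
        exact mul_le_mul_of_nonneg_left (abs_real_inner_le_norm _ _) (by norm_num)
    _ = 2 * ∑ n ∈ s, ‖f.coeff n‖ * ‖g.coeff n‖ := by rw [Finset.mul_sum]
    _ ≤ 2 * (Real.sqrt (∑ n ∈ s, ‖f.coeff n‖ ^ 2) * Real.sqrt (∑ n ∈ s, ‖g.coeff n‖ ^ 2)) :=
        mul_le_mul_of_nonneg_left (Real.sum_mul_le_sqrt_mul_sqrt _ _ _) (by norm_num)
    _ = 2 * n2 f * n2 g := by rw [← hf, ← hg]; ring

theorem uniformStmt (h1 : AlgFacts) (h2 : NormFacts) (h3 : ApproxExistsStmt)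
    (h4 : EnergyBoundStmt) (h5 : BootStmt) : UniformStmt := by
  intro σ S Λ A hσ hS hA
  obtain ⟨L, B, C, hB, hC, happ⟩ := h3 σ S Λ A hS hA
  obtain ⟨lam₀, C', hl0, hl1, hC', hboot⟩ := h5 B C S hB hC hS
  refine ⟨5 * L, lam₀, C' + C, C' + B, hl0, hl1, by positivity, by positivity, ?_⟩
  intro lam hlam hlam0 K hK a ha ha0
  obtain ⟨b, r, hb, hbA⟩ := happ lam hlam (hlam0.trans hl1)
  set T : ℝ := S / lam with hT
  have hT0 : 0 ≤ T := by positivity
  set s : Finset ℤ := Finset.Icc (-(K : ℤ)) K with hs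
  set c : ℂ := ((lam * σ : ℝ) : ℂ) with hc
  -- the derivative of `a - b`
  let zd : ℝ → LP := fun t => (-D (D (D (a t))) - c • cut K (D (a t ^ 4))) -
    (-D (D (D (b t))) - c • D (b t ^ 4) + r t)
  let E : ℝ → ℝ := fun t => n2 (D (D (a t - b t))) ^ 2
  let E' : ℝ → ℝ := fun t => ∑ n ∈ s,
    2 * inner ℝ ((D (D (a t - b t))).coeff n) ((D (D (zd t))).coeff n)
  have hLK : L ≤ K := by omega
  have hzK : ∀ t ∈ Icc 0 T, Supp K (a t - b t) := fun t ht =>
    h1.supp_sub _ _ _ (ha.supp t ht) (h1.supp_mono _ _ _ hLK (hb.supp t ht))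
  have hwK : ∀ t ∈ Icc 0 T, Supp K (D (D (a t - b t))) := fun t ht =>
    h1.supp_D _ _ (h1.supp_D _ _ (hzK t ht))
  have hzr : ∀ t ∈ Icc 0 T, IsReal (a t - b t) := fun t ht =>
    h1.real_sub _ _ (ha.real t ht) (hb.real t ht)
  have hwr : ∀ t ∈ Icc 0 T, IsReal (D (D (a t - b t))) := fun t ht =>
    h1.real_D _ (h1.real_D _ (hzr t ht))
  have hEs : ∀ t ∈ Icc 0 T, E t = ∑ n ∈ s, ‖(D (D (a t - b t))).coeff n‖ ^ 2 := fun t ht =>
    h2.n2_sq _ s (uniform_supp_sub (hwK t ht))
  have hsqrt : ∀ t, Real.sqrt (E t) = n2 (D (D (a t - b t))) := fun t =>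
    Real.sqrt_sq (h2.n2_nonneg _)
  have hderiv : ∀ t ∈ Icc 0 T, HasDerivWithinAt E (E' t) (Icc 0 T) t := by
    intro t ht
    have hn : ∀ n, HasDerivAt (fun τ => (D (D (a τ - b τ))).coeff n)
        ((D (D (zd t))).coeff n) t := by
      intro n
      have e1 := ((ha.ode t ht n).sub (hb.ode t ht n)).const_mul (Complex.I * n)
      have e2 := e1.const_mul (Complex.I * n)
      refine HasDerivAt.congr_deriv (f := fun τ => (D (D (a τ - b τ))).coeff n)
        (f' := Complex.I * n * (Complex.I * n * ((-D (D (D (a t))) - c • cut K (D (a t ^ 4))).coeff n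
          - (-D (D (D (b t))) - c • D (b t ^ 4) + r t).coeff n))) ?_ ?_
      · refine HasDerivAt.congr_of_eventuallyEq e2 (Eventually.of_forall fun τ => ?_)
        dsimp only
        rw [h1.D_coeff, h1.D_coeff, AddMonoidAlgebra.coeff_sub, Finsupp.sub_apply]
        rfl
      · rw [h1.D_coeff, h1.D_coeff]
        simp only [zd]
        rw [AddMonoidAlgebra.coeff_sub _ (-D (D (D (b t))) - c • D (b t ^ 4) + r t),
          Finsupp.sub_apply]
    have hsum : HasDerivAt (fun τ => ∑ n ∈ s, ‖(D (D (a τ - b τ))).coeff n‖ ^ 2) (E' t) t :=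
      HasDerivAt.fun_sum fun n _ => (hn n).norm_sq
    exact hsum.hasDerivWithinAt.congr (fun y hy => hEs y hy) (hEs t ht)
  -- the bound of the derivative
  have hbd : ∀ t ∈ Icc 0 T, E' t ≤ 2 * lam * (250 * (B + 2 * Real.sqrt (E t)) ^ 3 * E t)
      + 2 * Real.sqrt (E t) * (C * lam ^ 2) := by
    intro t ht
    set z : LP := a t - b t with hz
    set w : LP := D (D z) with hw
    set G : LP := a t ^ 4 - b t ^ 4 with hG
    have hbcut : cut K (D (b t ^ 4)) = D (b t ^ 4) := by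
      apply h1.cut_of_supp
      apply h1.supp_D
      exact h1.supp_mono _ _ _ (by omega) (uniform_supp_pow4 h1 L _ (hb.supp t ht))
    have hGr : IsReal G := h1.real_sub _ _ (uniform_real_pow4 h1 _ (ha.real t ht))
      (uniform_real_pow4 h1 _ (hb.real t ht))
    have hzd : zd t = -D (D (D z)) - c • cut K (D G) - r t := by
      simp only [zd]
      rw [hz, hG, h1.D_sub (a t) (b t), h1.D_sub (D (a t)) (D (b t)),
        h1.D_sub (D (D (a t))) (D (D (b t))), h1.D_sub (a t ^ 4), h1.cut_sub, hbcut, smul_sub]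
      abel
    have hDzd : D (D (zd t)) = -D (D (D w)) - c • cut K (D (D (D G))) - D (D (r t)) := by
      rw [hzd, hw]
      simp only [h1.D_sub, h1.D_neg, h1.D_smul, h1.D_cut]
    have hE' : E' t = -(∑ n ∈ s, 2 * inner ℝ (w.coeff n) ((D (D (D w))).coeff n)) -
        (lam * σ) * (∑ n ∈ s, 2 * inner ℝ (w.coeff n) ((cut K (D (D (D G)))).coeff n)) -
        ∑ n ∈ s, 2 * inner ℝ (w.coeff n) ((D (D (r t))).coeff n) := by
      simp only [E']
      rw [hDzd, ← Finset.sum_neg_distrib, Finset.mul_sum, ← Finset.sum_sub_distrib,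
        ← Finset.sum_sub_distrib]
      refine Finset.sum_congr rfl fun n _ => ?_
      rw [AddMonoidAlgebra.coeff_sub, Finsupp.sub_apply, AddMonoidAlgebra.coeff_sub,
        Finsupp.sub_apply, AddMonoidAlgebra.coeff_neg, Finsupp.neg_apply,
        AddMonoidAlgebra.coeff_smul, Finsupp.smul_apply, inner_sub_right, inner_sub_right,
        inner_neg_right]
      have : inner ℝ (w.coeff n) (c • (cut K (D (D (D G)))).coeff n) =
          (lam * σ) * inner ℝ (w.coeff n) ((cut K (D (D (D G)))).coeff n) := by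
        rw [hc, smul_eq_mul, ← real_inner_smul_right]
        congr 1
      rw [this]
      ring
    have hwK' := hwK t ht
    have hws := uniform_supp_sub hwK'
    have hwr' := hwr t ht
    have t1 : ∑ n ∈ s, 2 * inner ℝ (w.coeff n) ((D (D (D w))).coeff n) = 0 := by
      rw [uniform_polar h1 h2 w _ hwr' (h1.real_D _ (h1.real_D _ (h1.real_D _ hwr'))) s hws
        (uniform_supp_sub (h1.supp_D _ _ (h1.supp_D _ _ (h1.supp_D _ _ hwK')))), uniform_skew h1]
      simp
    have t2 : ∑ n ∈ s, 2 * inner ℝ (w.coeff n) ((cut K (D (D (D G)))).coeff n) =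
        2 * (I0 (w * D (D (D G)))).re := by
      rw [uniform_polar h1 h2 w _ hwr' (h1.real_cut _ _ (h1.real_D _ (h1.real_D _ (h1.real_D _ hGr)))) s hws
        (uniform_supp_sub (h1.supp_cut _ _)), ← h1.I0_cut, h1.cut_of_supp _ _ hwK']
    have t3 : |∑ n ∈ s, 2 * inner ℝ (w.coeff n) ((D (D (r t))).coeff n)| ≤
        2 * n2 w * n2 (D (D (r t))) :=
      uniform_cs h2 _ _ s hws (uniform_supp_sub (h1.supp_D _ _ (h1.supp_D _ _
        (h1.supp_mono _ _ _ hLK (hb.rsupp t ht)))))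
    have hmz : MZ z := by
      have m1 := ha.mz t ht
      have m2 := hb.mz t ht
      unfold MZ at m1 m2 ⊢
      rw [hz, AddMonoidAlgebra.coeff_sub, Finsupp.sub_apply, m1, m2, sub_zero]
    have t4 := h4 (a t) (b t) z B hz hmz hB.le (hb.bound0 t ht) (hb.bound1 t ht)
      (hb.bound2 t ht) (hb.bound3 t ht)
    have t5 := hb.res t ht
    have hn0 : 0 ≤ n2 w := h2.n2_nonneg w
    have hEt : E t = n2 w ^ 2 := rfl
    have hst : Real.sqrt (E t) = n2 w := hsqrt t
    rw [hE', t1, t2, hst, hEt]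
    have t6 := Complex.abs_re_le_norm (I0 (w * D (D (D G))))
    have t7 : -((lam * σ) * (2 * (I0 (w * D (D (D G)))).re)) ≤
        2 * lam * (250 * (B + 2 * n2 w) ^ 3 * n2 w ^ 2) := by
      have h6 := (abs_le.1 (t6.trans t4))
      rcases hσ with h | h <;> rw [h] <;> nlinarith [h6.1, h6.2]
    have t8 := (abs_le.1 t3).1
    have t9 : 2 * n2 w * n2 (D (D (r t))) ≤ 2 * n2 w * (C * lam ^ 2) :=
      mul_le_mul_of_nonneg_left t5 (by positivity)
    linarith
  have hneg : ∀ f : LP, n2 (-f) = n2 f := by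
    intro f
    have h6 := h2.n2_smul (-1) f
    rw [norm_neg, norm_one, one_mul, neg_smul, one_smul] at h6
    exact h6
  have hinit : E 0 ≤ (C * lam) ^ 2 := by
    have e1 := hbA 0 ⟨le_rfl, hT0⟩
    have e2 : D (D (a 0 - b 0)) = -(D (D (b 0 - Aph Λ A lam 0))) := by
      rw [ha0, ← h1.D_neg, ← h1.D_neg]
      congr 2
      abel
    have e3 : n2 (D (D (a 0 - b 0))) ≤ C * lam := by
      rw [e2, hneg]
      exact e1
    exact pow_le_pow_left₀ (h2.n2_nonneg _) e3 2
  have hfin := hboot lam hlam hlam0 E E' hderiv (fun t _ => sq_nonneg _) hinit hbd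
  intro t ht
  have e1 : n2 (D (D (a t - b t))) ≤ C' * lam :=
    (abs_le_of_sq_le_sq' (hfin t ht) (by positivity)).2
  constructor
  · have e2 : D (D (a t - Aph Λ A lam t)) =
        D (D (a t - b t)) + D (D (b t - Aph Λ A lam t)) := by
      rw [← h1.D_add, ← h1.D_add]
      congr 2
      abel
    rw [e2]
    calc _ ≤ _ := h2.n2_add _ _
      _ ≤ C' * lam + C * lam := add_le_add e1 (hbA t ht)
      _ = (C' + C) * lam := by ring
  · have e2 : D (D (a t)) = D (D (a t - b t)) + D (D (b t)) := by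
      rw [← h1.D_add, ← h1.D_add]
      congr 2
      abel
    rw [e2]
    calc _ ≤ _ := h2.n2_add _ _
      _ ≤ C' * lam + B := add_le_add e1 ((h2.n2_le_nA _).trans (hb.bound2 t ht))
      _ ≤ C' + B := by
        have h6 := hlam0.trans hl1
        nlinarith

end GKdV
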