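import Pool.Agent.Lib.MP_cb0de5_an.SpecA

/-!
# A4: the upper bound of `θ`
-/

open MeasureTheory Filter Topology Set

noncomputable section

namespace GKdV

variable {g : ℕ} {M Q : Type}

theorem Up.exR (A k c : ℝ) (hk : 0 < k) :
    ∃ R₀ : ℝ, ∀ R ≥ R₀, A * R * Real.exp (-(2 * k * R)) * c ≤ 1 := by
  have h1 : Tendsto (fun R : ℝ => A * c * (R ^ (1 : ℝ) * Real.exp (-(2 * k) * R))) atTop
      (𝓝 (A * c * 0)) :=
    (tendsto_rpow_mul_exp_neg_mul_atTop_nhds_zero 1 (2 * k) (by positivity)).const_mul _
  rw [mul_zero] at h1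
  obtain ⟨R₀, hR₀⟩ := eventually_atTop.1 (h1.eventually (ge_mem_nhds zero_lt_one))
  refine ⟨R₀, fun R hR => ?_⟩
  have h2 := hR₀ R hR
  rw [Real.rpow_one] at h2
  have h3 : A * R * Real.exp (-(2 * k * R)) * c = A * c * (R * Real.exp (-(2 * k) * R)) := by
    rw [show -(2 * k * R) = -(2 * k) * R by ring]
    ring
  rw [h3]
  exact h2

theorem Up.st_succ (g : ℕ) (K R : ℝ) (j : ℕ) :
    st g K R (j + 1) = st g K R j + Dl g K R (j + 1) := by
  unfold st
  rw [Finset.sum_range_succ]

theorem Up.R_le_Dl (g : ℕ) {K R : ℝ} (hK : 3 ≤ K) (hR : 1 ≤ R) (j : ℕ) : R ≤ Dl g K R j := by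
  unfold Dl
  have h : 1 ≤ K ^ (g + 1 - j) := one_le_pow₀ (by linarith)
  nlinarith

theorem Up.st_nonneg (g : ℕ) {K R : ℝ} (hK : 3 ≤ K) (hR : 1 ≤ R) (j : ℕ) : 0 ≤ st g K R j := by
  unfold st
  refine Finset.sum_nonneg fun i _ => ?_
  have := Up.R_le_Dl g hK hR (i + 1)
  linarith

theorem Up.CC_nonneg {k kk : ℝ} (hk : 0 < k) (hkk : 1 ≤ kk) (j : ℕ) : 0 ≤ CC k kk j := by
  cases j with
  | zero => exact le_refl _
  | succ j =>
    unfold CC
    positivity

/-- The integral of the exponential bound. -/
theorem Up.integ (k c e t : ℝ) (hk : 0 < k) (htc : t ≤ c) :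
    ∫ s in (0 : ℝ)..t, (Real.exp (-(3 * k * (c - s))) + e) ≤ 1 / (3 * k) + e * t := by
  have hd : ∀ s : ℝ, HasDerivAt (fun s => Real.exp (-(3 * k * (c - s))) / (3 * k) + e * s)
      (Real.exp (-(3 * k * (c - s))) + e) s := by
    intro s
    have h1 : HasDerivAt (fun s : ℝ => -(3 * k * (c - s))) (3 * k) s := by
      have h := (((hasDerivAt_id s).const_sub c).const_mul (3 * k)).neg
      have h' : -(3 * k * -1) = 3 * k := by ring
      rw [h'] at h
      exact h
    have h2 := (h1.exp.div_const (3 * k)).add ((hasDerivAt_id s).const_mul e)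
    have h3 : Real.exp (-(3 * k * (c - s))) * (3 * k) / (3 * k) + e * 1 =
        Real.exp (-(3 * k * (c - s))) + e := by
      field_simp
    rw [← h3]
    exact h2
  rw [intervalIntegral.integral_eq_sub_of_hasDerivAt (fun s _ => hd s)
    (Continuous.intervalIntegrable (by fun_prop) _ _)]
  have h1 : Real.exp (-(3 * k * (c - t))) ≤ 1 := by
    rw [Real.exp_le_one_iff]
    have : 0 ≤ 3 * k * (c - t) := by
      have : 0 ≤ c - t := by linarith
      positivity
    linarith
  have h2 : Real.exp (-(3 * k * (c - t))) / (3 * k) ≤ 1 / (3 * k) := by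
    gcongr
  have h3 : 0 ≤ Real.exp (-(3 * k * (c - 0))) / (3 * k) := by positivity
  linarith

theorem upStmt (h1 : SqStmt) (h2 : CrudeStmt) (h3 : ChildUpStmt) : UpStmt := by
  intro g k kk K hk hkk hK
  obtain ⟨R₀, hR₀⟩ := Up.exR (∑ i ∈ Finset.range (g + 1), K ^ (g + 1 - (i + 1))) k
    (7 * ((g : ℝ) + 1)) hk
  refine ⟨R₀, ?_⟩
  intro R hR M Q _ _ _ N κ x hrun
  have hR1 := hrun.R_one
  have hT : st g K R (g + 1) = (∑ i ∈ Finset.range (g + 1), K ^ (g + 1 - (i + 1))) * R := by
    unfold st Dl
    rw [Finset.sum_mul]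
  have hsmall := hR₀ R hR
  rw [← hT] at hsmall
  set T := st g K R (g + 1) with hTdef
  have hT1 : 1 ≤ T := by
    rw [hTdef, Up.st_succ]
    have h4 := Up.R_le_Dl g hK hR1 (g + 1)
    have h5 := Up.st_nonneg g hK hR1 g
    linarith
  have hg0 : (0 : ℝ) ≤ g := Nat.cast_nonneg g
  set w := om g k R with hw
  have hw' : w = ((g : ℝ) + 1) * Real.exp (-(2 * k * R)) := rfl
  have hw0 : 0 ≤ w := by rw [hw']; positivity
  have hwT : 7 * w * T ≤ 1 := by
    rw [hw']
    linarith [hsmall]
  have hw1 : w ≤ 1 := by nlinarith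
  have hexp : T * Real.exp (-(3 * k * R)) ≤ 1 := by
    have h4 : Real.exp (-(3 * k * R)) ≤ Real.exp (-(2 * k * R)) := by
      rw [Real.exp_le_exp]
      have : 0 ≤ k * R := by positivity
      linarith
    have h5 : T * Real.exp (-(3 * k * R)) ≤ T * Real.exp (-(2 * k * R)) :=
      mul_le_mul_of_nonneg_left h4 (by linarith)
    have h6 : 0 ≤ T * Real.exp (-(2 * k * R)) := by positivity
    have h7 : T * Real.exp (-(2 * k * R)) * 1 ≤
        T * Real.exp (-(2 * k * R)) * (7 * ((g : ℝ) + 1)) :=
      mul_le_mul_of_nonneg_left (by linarith) h6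
    linarith
  obtain ⟨hcont, -⟩ := h1 g M Q N κ k kk K R x hrun
  have hPc : ∀ q, ContinuousOn (fun s => N.P3 (x s) q) (Icc 0 T) := fun q =>
    ((hcont _).mul (hcont _)).mul (hcont _)
  have hκ0 : ∀ q, 0 ≤ κ q := fun q => hk.le.trans (hrun.κ_lo q)
  have hnn : ∀ {t s : ℝ}, NonnegTo x t → s ≤ t → NonnegTo x s := fun h hst u hu m =>
    h u ⟨hu.1, hu.2.trans hst⟩ m
  have key : ∀ j : ℕ, ∀ q, N.ql q = j + 1 → ∀ t ∈ Icc 0 T, NonnegTo x t →
      N.th κ x q t ≤ κ q * max (t - st g K R j) 0 + CC k kk (j + 1) := by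
    intro j
    induction j with
    | zero =>
      intro q hq t ht hnt
      have hP : ∀ s ∈ Icc 0 t, N.P3 (x s) q ≤ 1 := by
        intro s hs
        have hx : ∀ i, 0 ≤ x s (N.par q i) ∧ x s (N.par q i) ≤ 1 := by
          intro i
          have hlv : N.lv (N.par q i) = 0 := by
            have := N.lv_par q i
            omega
          exact ⟨hnt s hs _, (h2 g M Q N κ k kk K R x hrun s ⟨hs.1, hs.2.trans ht.2⟩
            (hnn hnt hs.2)).2.2.2.2.2.2.2 _ hlv⟩
        unfold Net.P3
        have h4 : x s (N.par q 0) * x s (N.par q 1) ≤ 1 :=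
          mul_le_one₀ (hx 0).2 (hx 1).1 (hx 1).2
        exact mul_le_one₀ h4 (hx 2).1 (hx 2).2
      have h4 : ∫ s in (0 : ℝ)..t, N.P3 (x s) q ≤ ∫ s in (0 : ℝ)..t, (1 : ℝ) := by
        refine intervalIntegral.integral_mono_on ht.1 ?_ (by simp) hP
        exact ((hPc q).mono (Icc_subset_Icc_right ht.2)).intervalIntegrable_of_Icc ht.1
      rw [intervalIntegral.integral_const, smul_eq_mul, mul_one, sub_zero] at h4
      have h5 : st g K R 0 = 0 := by simp [st]
      have h6 := Up.CC_nonneg hk hkk (0 + 1)
      have h7 : N.th κ x q t = κ q * ∫ s in (0 : ℝ)..t, N.P3 (x s) q := rfl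
      rw [h7, h5, sub_zero, max_eq_left ht.1]
      have h8 := mul_le_mul_of_nonneg_left h4 (hκ0 q)
      linarith
    | succ j ih =>
      intro q hq t ht hnt
      set c := st g K R (j + 1) with hc
      have hc0 : 0 ≤ c := Up.st_nonneg g hK hR1 (j + 1)
      set C := CC k kk (j + 1) with hC
      have hC0 : 0 ≤ C := Up.CC_nonneg hk hkk (j + 1)
      have hcsucc : c = st g K R j + Dl g K R (j + 1) := Up.st_succ g K R j
      have hDl : R ≤ Dl g K R (j + 1) := Up.R_le_Dl g hK hR1 (j + 1)
      -- the parents in the early phase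
      have hpar : ∀ s ∈ Icc 0 t, s ≤ c → ∀ i, x s (N.par q i) ≤
          2 * Real.exp (C - k * min (c - s) (Dl g K R (j + 1))) := by
        intro s hs hsc i
        have hlv : N.lv (N.par q i) = j + 1 := by
          have := N.lv_par q i
          omega
        obtain ⟨q', b, hqb⟩ := N.chi_surj (N.par q i) (by omega)
        have hql : N.ql q' = j + 1 := by
          rw [← N.lv_chi q' b, hqb, hlv]
        have hsT : s ∈ Icc 0 T := ⟨hs.1, hs.2.trans ht.2⟩
        have h4 := (h3 g M Q N κ k kk K R x hrun s hsT (hnn hnt hs.2) q').2.1 b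
        have h5 := ih q' hql s hsT (hnn hnt hs.2)
        rw [hqb] at h4
        refine h4.trans ?_
        have h6 : N.de κ K R q' = Real.exp (-(κ q' * Dl g K R (j + 1))) := by
          unfold Net.de
          rw [hql]
        rw [h6, mul_assoc, ← Real.exp_add]
        refine mul_le_mul_of_nonneg_left (Real.exp_le_exp.2 ?_) (by norm_num)
        have h7 : min (c - s) (Dl g K R (j + 1)) =
            Dl g K R (j + 1) - max (s - st g K R j) 0 := by
          rcases le_total (s - st g K R j) 0 with h | h
          · rw [max_eq_right h, min_eq_right (by linarith), sub_zero]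
          · rw [max_eq_left h, min_eq_left (by linarith)]
            linarith
        have h8 : 0 ≤ min (c - s) (Dl g K R (j + 1)) :=
          le_min (by linarith) (by linarith)
        have h9 := mul_le_mul_of_nonneg_right (hrun.κ_lo q') h8
        rw [h7] at h9 ⊢
        have h10 : κ q' * (Dl g K R (j + 1) - max (s - st g K R j) 0) =
            κ q' * Dl g K R (j + 1) - κ q' * max (s - st g K R j) 0 := by ring
        rw [h10] at h9
        linarith
      have hPe : ∀ s ∈ Icc 0 t, s ≤ c → N.P3 (x s) q ≤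
          8 * Real.exp (3 * C) * (Real.exp (-(3 * k * (c - s))) + Real.exp (-(3 * k * R))) := by
        intro s hs hsc
        set μ := min (c - s) (Dl g K R (j + 1)) with hμ
        have h4 := hpar s hs hsc
        have h5 : N.P3 (x s) q ≤ (2 * Real.exp (C - k * μ)) * (2 * Real.exp (C - k * μ)) *
            (2 * Real.exp (C - k * μ)) := by
          unfold Net.P3
          have hn := fun i => hnt s hs (N.par q i)
          exact mul_le_mul (mul_le_mul (h4 0) (h4 1) (hn 1) (by positivity)) (h4 2) (hn 2)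
            (by positivity)
        have h6 : (2 * Real.exp (C - k * μ)) * (2 * Real.exp (C - k * μ)) *
            (2 * Real.exp (C - k * μ)) = 8 * Real.exp (3 * C) * Real.exp (-(3 * k * μ)) := by
          have h7 : Real.exp (C - k * μ) * Real.exp (C - k * μ) * Real.exp (C - k * μ) =
              Real.exp (3 * C) * Real.exp (-(3 * k * μ)) := by
            rw [← Real.exp_add, ← Real.exp_add, ← Real.exp_add]
            congr 1
            ring
          calc _ = 8 * (Real.exp (C - k * μ) * Real.exp (C - k * μ) * Real.exp (C - k * μ)) := by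
                ring
            _ = _ := by rw [h7]; ring
        rw [h6] at h5
        refine h5.trans (mul_le_mul_of_nonneg_left ?_ (by positivity))
        rcases min_choice (c - s) (Dl g K R (j + 1)) with h | h
        · rw [hμ, h]
          have := Real.exp_pos (-(3 * k * R))
          linarith
        · rw [hμ, h]
          have h8 : Real.exp (-(3 * k * Dl g K R (j + 1))) ≤ Real.exp (-(3 * k * R)) := by
            rw [Real.exp_le_exp]
            have := mul_le_mul_of_nonneg_left hDl (show 0 ≤ 3 * k by positivity)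
            linarith
          have := Real.exp_pos (-(3 * k * (c - s)))
          linarith
      have hPl : ∀ s ∈ Icc 0 t, N.P3 (x s) q ≤ 1 + 7 * w := by
        intro s hs
        have hx : ∀ i, 0 ≤ x s (N.par q i) ∧ x s (N.par q i) ≤ 1 + w := by
          intro i
          have h4 := (h2 g M Q N κ k kk K R x hrun s ⟨hs.1, hs.2.trans ht.2⟩
            (hnn hnt hs.2)).2.2.2.2.2.2.1 (N.par q i)
          refine ⟨hnt s hs _, ?_⟩
          by_contra hcon
          rw [not_le] at hcon
          have h5 : 0 ≤ x s (N.par q i) := hnt s hs _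
          nlinarith
        have h4 : N.P3 (x s) q ≤ (1 + w) * (1 + w) * (1 + w) := by
          unfold Net.P3
          exact mul_le_mul (mul_le_mul (hx 0).2 (hx 1).2 (hx 1).1 (by positivity)) (hx 2).2
            (hx 2).1 (by positivity)
        have h5 : w * w ≤ w := by nlinarith
        have h6 : w * w * w ≤ w := by nlinarith
        nlinarith
      have hint : ∀ a b, 0 ≤ a → a ≤ b → b ≤ t →
          IntervalIntegrable (fun s => N.P3 (x s) q) volume a b := fun a b ha hab hb =>
        ((hPc q).mono (Icc_subset_Icc ha (hb.trans ht.2))).intervalIntegrable_of_Icc hab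
      -- early part
      have hearly : ∀ t', 0 ≤ t' → t' ≤ t → t' ≤ c → ∫ s in (0 : ℝ)..t', N.P3 (x s) q ≤
          8 * Real.exp (3 * C) * (1 / (3 * k) + 1) := by
        intro t' h0 htt htc
        have h4 : ∫ s in (0 : ℝ)..t', N.P3 (x s) q ≤ ∫ s in (0 : ℝ)..t',
            8 * Real.exp (3 * C) *
              (Real.exp (-(3 * k * (c - s))) + Real.exp (-(3 * k * R))) := by
          refine intervalIntegral.integral_mono_on h0 (hint 0 t' le_rfl h0 htt)
            (Continuous.intervalIntegrable (by fun_prop) _ _) ?_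
          intro s hs
          exact hPe s ⟨hs.1, hs.2.trans htt⟩ (hs.2.trans htc)
        rw [intervalIntegral.integral_const_mul] at h4
        refine h4.trans (mul_le_mul_of_nonneg_left ?_ (by positivity))
        refine (Up.integ k c (Real.exp (-(3 * k * R))) t' hk htc).trans ?_
        have h5 : Real.exp (-(3 * k * R)) * t' ≤ Real.exp (-(3 * k * R)) * T :=
          mul_le_mul_of_nonneg_left (htt.trans ht.2) (Real.exp_pos _).le
        linarith
      have hI : ∫ s in (0 : ℝ)..t, N.P3 (x s) q ≤ max (t - c) 0 +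
          (8 * Real.exp (3 * C) * (1 / (3 * k) + 1) + 3) := by
        rcases le_total t c with htc | htc
        · have h4 := hearly t ht.1 le_rfl htc
          have h5 : 0 ≤ max (t - c) 0 := le_max_right _ _
          linarith
        · have h4 := hearly c hc0 htc le_rfl
          have h5 : ∫ s in c..t, N.P3 (x s) q ≤ ∫ s in c..t, (1 + 7 * w) := by
            refine intervalIntegral.integral_mono_on htc (hint c t hc0 htc le_rfl) (by simp) ?_
            intro s hs
            exact hPl s ⟨hc0.trans hs.1, hs.2⟩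
          rw [intervalIntegral.integral_const, smul_eq_mul] at h5
          have h6 := intervalIntegral.integral_add_adjacent_intervals
            (hint 0 c le_rfl hc0 htc) (hint c t hc0 htc le_rfl)
          rw [max_eq_left (by linarith)]
          have h7 : (t - c) * (7 * w) ≤ T * (7 * w) :=
            mul_le_mul_of_nonneg_right (by linarith [ht.2]) (by positivity)
          linarith
      have h7 : N.th κ x q t = κ q * ∫ s in (0 : ℝ)..t, N.P3 (x s) q := rfl
      have h8 : CC k kk (j + 1 + 1) = kk * (8 * Real.exp (3 * C) * (1 / (3 * k) + 1) + 3) := rfl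
      rw [h7, h8]
      have h9 := mul_le_mul_of_nonneg_left hI (hκ0 q)
      have h10 : κ q * (8 * Real.exp (3 * C) * (1 / (3 * k) + 1) + 3) ≤
          kk * (8 * Real.exp (3 * C) * (1 / (3 * k) + 1) + 3) :=
        mul_le_mul_of_nonneg_right (hrun.κ_hi q) (by positivity)
      linarith
  intro t ht hnt q
  have hq : N.ql q = (N.ql q - 1) + 1 := by
    have := N.lv_par q 0
    omega
  have := key (N.ql q - 1) q hq t ht hnt
  rw [← hq] at this
  exact this

end GKdV
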