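import Pool.Agent.Lib.MP_cb0de5_an.SpecD

/-!
# D3c: the time integrated weak form
-/

open MeasureTheory Filter Topology Set

noncomputable section

namespace GKdV

namespace WeakForm

theorem intble_u {s : ℝ} {f : ℝ → ℝ} (h : MemHs s f) :
    IntervalIntegrable f volume 0 (2 * Real.pi) := by
  have h1 : IntervalIntegrable (fun x => 1 + f x ^ 2) volume 0 (2 * Real.pi) :=
    (intervalIntegrable_const).add h.sq_int
  refine h1.mono_fun' (h.meas.mono_measure Measure.restrict_le_self) ?_
  refine Eventually.of_forall fun x => ?_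
  change ‖f x‖ ≤ 1 + f x ^ 2
  rw [Real.norm_eq_abs]
  nlinarith [abs_nonneg (f x), sq_abs (f x), sq_nonneg (|f x| - 1)]

variable {φ : ℝ → ℝ → ℝ}

theorem smooth_t (h : ContDiff ℝ (⊤ : ℕ∞) (Function.uncurry φ)) (x : ℝ) :
    ContDiff ℝ (⊤ : ℕ∞) (fun τ => φ τ x) :=
  h.comp (contDiff_id.prodMk contDiff_const)

theorem smooth_x (h : ContDiff ℝ (⊤ : ℕ∞) (Function.uncurry φ)) (t : ℝ) :
    ContDiff ℝ (⊤ : ℕ∞) (φ t) :=
  h.comp (contDiff_const.prodMk contDiff_id)

theorem cont_dt (h : ContDiff ℝ (⊤ : ℕ∞) (Function.uncurry φ)) (t : ℝ) :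
    Continuous (fun x => deriv (fun τ => φ τ x) t) := by
  have e : (fun x => deriv (fun τ => φ τ x) t) =
      fun x => fderiv ℝ (Function.uncurry φ) (t, x) (1, 0) := by
    funext x
    have hd : HasFDerivAt (Function.uncurry φ) (fderiv ℝ (Function.uncurry φ) (t, x)) (t, x) :=
      ((h.differentiable (by simp)) (t, x)).hasFDerivAt
    have hl : HasDerivAt (fun τ : ℝ => (τ, x)) ((1 : ℝ), (0 : ℝ)) t :=
      (hasDerivAt_id t).prodMk (hasDerivAt_const t x)
    exact (hd.comp_hasDerivAt t hl).deriv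
  rw [e]
  have hc : Continuous (fun p : ℝ × ℝ => fderiv ℝ (Function.uncurry φ) p) :=
    h.continuous_fderiv (by simp)
  exact (hc.comp (by fun_prop : Continuous fun x : ℝ => (t, x))).clm_apply continuous_const

theorem test_mul {T a b : ℝ} {χ : ℝ → ℝ} (ha : 0 ≤ a) (hb : b ≤ T)
    (h : ContDiff ℝ (⊤ : ℕ∞) (Function.uncurry φ))
    (hp : ∀ t, Function.Periodic (φ t) (2 * Real.pi)) (hχ : ContDiff ℝ (⊤ : ℕ∞) χ)
    (hs : ∃ a' b', a < a' ∧ b' < b ∧ ∀ t ∉ Icc a' b', χ t = 0) :
    IsTest T (fun t x => χ t * φ t x) where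
  smooth := by
    have : Function.uncurry (fun t x => χ t * φ t x) =
        fun p : ℝ × ℝ => χ p.1 * Function.uncurry φ p := by
      funext p
      rfl
    rw [this]
    exact (hχ.comp contDiff_fst).mul h
  periodic := by
    intro t x
    change χ t * φ t (x + 2 * Real.pi) = χ t * φ t x
    rw [hp t x]
  supp := by
    obtain ⟨a', b', h1, h2, h3⟩ := hs
    refine ⟨a', b', by linarith, by linarith, fun t ht x => ?_⟩
    rw [h3 t ht, zero_mul]

theorem inner_eq {k : ℕ} {σ s T t : ℝ} {u : ℝ → ℝ → ℝ} {χ : ℝ → ℝ}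
    (hu : IsSolution k σ s T u) (ht : t ∈ Icc 0 T)
    (h : ContDiff ℝ (⊤ : ℕ∞) (Function.uncurry φ)) (hχ : ContDiff ℝ (⊤ : ℕ∞) χ) :
    ∫ x in (0 : ℝ)..(2 * Real.pi),
      (u t x * (deriv (fun τ => χ τ * φ τ x) t + iteratedDeriv 3 (fun y => χ t * φ t y) x)
        + σ * u t x ^ k * deriv (fun y => χ t * φ t y) x) =
      deriv χ t * pairH u φ t + χ t * pairG k σ u φ t := by
  have hui := intble_u (hu.mem t ht)
  have hpi := hu.pow_int t ht
  have hcx : Continuous (φ t) := (smooth_x h t).continuous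
  have hc3 : Continuous (iteratedDeriv 3 (φ t)) :=
    ContDiff.continuous_iteratedDeriv' 3 (contDiff_infty.mp (smooth_x h t) 3)
  have hc1 : Continuous (deriv (φ t)) := (smooth_x h t).continuous_deriv (by simp)
  have hct := cont_dt h t
  have hI1 : IntervalIntegrable (fun x => u t x * φ t x) volume 0 (2 * Real.pi) :=
    hui.mul_continuousOn hcx.continuousOn
  have hI2 : IntervalIntegrable (fun x =>
      u t x * (deriv (fun τ => φ τ x) t + iteratedDeriv 3 (φ t) x)
      + σ * u t x ^ k * deriv (φ t) x) volume 0 (2 * Real.pi) := by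
    apply IntervalIntegrable.add
    · exact hui.mul_continuousOn (hct.add hc3).continuousOn
    · exact (hpi.const_mul σ).mul_continuousOn hc1.continuousOn
  unfold pairH pairG
  rw [← intervalIntegral.integral_const_mul, ← intervalIntegral.integral_const_mul,
    ← intervalIntegral.integral_add (hI1.const_mul _) (hI2.const_mul _)]
  apply intervalIntegral.integral_congr
  intro x _
  have e1 : deriv (fun τ => χ τ * φ τ x) t =
      deriv χ t * φ t x + χ t * deriv (fun τ => φ τ x) t :=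
    deriv_fun_mul ((hχ.differentiable (by simp)) t) (((smooth_t h x).differentiable (by simp)) t)
  have e2 : iteratedDeriv 3 (fun y => χ t * φ t y) x = χ t * iteratedDeriv 3 (φ t) x :=
    iteratedDeriv_const_mul_field (χ t) (φ t)
  have e3 : deriv (fun y => χ t * φ t y) x = χ t * deriv (φ t) x :=
    deriv_const_mul_field (χ t)
  change u t x * (deriv (fun τ => χ τ * φ τ x) t + iteratedDeriv 3 (fun y => χ t * φ t y) x)
        + σ * u t x ^ k * deriv (fun y => χ t * φ t y) x = _
  rw [e1, e2, e3]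
  ring

end WeakForm

open WeakForm in
theorem weakFormStmt (h1 : PairContStmt) (h2 : DuBoisStmt) : WeakFormStmt := by
  intro k σ s T u φ hs hT hu hφ hper a b ha hab hbT
  obtain ⟨hH, hG⟩ := h1 k σ s T u φ hs hT hu hφ hper
  have hsub : Icc a b ⊆ Icc 0 T := Icc_subset_Icc ha hbT
  refine h2 a b (pairH u φ) (pairG k σ u φ) hab (hH.mono hsub) (hG.mono hsub) ?_
  intro χ hχ hsupp
  have heq := hu.eqn _ (test_mul ha hbT hφ hper hχ hsupp)
  obtain ⟨a', b', h3, h4, h5⟩ := hsupp
  have hder : ∀ t ∉ Icc a' b', deriv χ t = 0 := by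
    intro t ht
    have hev : χ =ᶠ[𝓝 t] fun _ => 0 := by
      filter_upwards [isClosed_Icc.isOpen_compl.mem_nhds ht] with y hy
      exact h5 y hy
    rw [hev.deriv_eq]
    simp
  set f : ℝ → ℝ := fun t => deriv χ t * pairH u φ t + χ t * pairG k σ u φ t with hf
  have hsup : Function.support f ⊆ Icc a' b' := by
    intro t ht
    by_contra hc
    apply ht
    simp only [hf]
    rw [hder t hc, h5 t hc]
    ring
  have hs1 : Function.support f ⊆ Ioc a b := fun t ht =>
    ⟨lt_of_lt_of_le h3 (hsup ht).1, ((hsup ht).2.trans_lt h4).le⟩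
  have hs2 : Function.support f ⊆ Ioc 0 T := fun t ht =>
    ⟨lt_of_le_of_lt ha (hs1 ht).1, (hs1 ht).2.trans hbT⟩
  have e1 : ∫ t in a..b, f t = ∫ t in (0 : ℝ)..T, f t := by
    rw [intervalIntegral.integral_eq_integral_of_support_subset hs1,
      intervalIntegral.integral_eq_integral_of_support_subset hs2]
  have e2 : ∫ t in (0 : ℝ)..T, f t = 0 := by
    refine Eq.trans ?_ heq
    apply intervalIntegral.integral_congr
    intro t ht
    rw [uIcc_of_le hT.le] at ht
    exact (inner_eq hu ht hφ hχ).symm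
  rw [e1, e2]

end GKdV
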