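import Pool.Agent.Lib.MP_cb0de5_an.SpecC

/-!
# WeakLimit: uniform limits of classical solutions are weak solutions
-/

open MeasureTheory Filter Topology Set

noncomputable section

namespace GKdV

namespace WeakLimit

theorem periodic_deriv {f : ℝ → ℝ} {P : ℝ} (h : Function.Periodic f P) :
    Function.Periodic (deriv f) P := by
  intro x
  have h1 : deriv (fun y => f (y + P)) x = deriv f (x + P) := deriv_comp_add_const f P x
  have h2 : (fun y => f (y + P)) = f := funext h
  rw [← h1, h2]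

theorem by_parts {f g : ℝ → ℝ} {P : ℝ} (hf : ContDiff ℝ 1 f) (hg : ContDiff ℝ 1 g)
    (pf : Function.Periodic f P) (pg : Function.Periodic g P) :
    ∫ x in (0 : ℝ)..P, f x * deriv g x = -∫ x in (0 : ℝ)..P, deriv f x * g x := by
  have h := intervalIntegral.integral_mul_deriv_eq_deriv_mul (a := 0) (b := P) (u := f) (v := g)
    (u' := deriv f) (v' := deriv g)
    (fun x _ => (hf.differentiable (by norm_num) x).hasDerivAt)
    (fun x _ => (hg.differentiable (by norm_num) x).hasDerivAt)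
    ((hf.continuous_deriv le_rfl).intervalIntegrable _ _)
    ((hg.continuous_deriv le_rfl).intervalIntegrable _ _)
  rw [h]
  have h1 : f P = f 0 := by simpa using pf 0
  have h2 : g P = g 0 := by simpa using pg 0
  rw [h1, h2]
  ring

theorem iter3 (f : ℝ → ℝ) : iteratedDeriv 3 f = deriv (deriv (deriv f)) := by
  rw [iteratedDeriv_succ, iteratedDeriv_succ, iteratedDeriv_succ, iteratedDeriv_zero]

theorem s3 {f : ℝ → ℝ} (h : ContDiff ℝ (⊤ : ℕ∞) f) : ContDiff ℝ 3 f := by
  have := contDiff_infty.1 h 3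
  exact_mod_cast this

theorem s1 {f : ℝ → ℝ} (h : ContDiff ℝ (⊤ : ℕ∞) f) : ContDiff ℝ 1 f := by
  have := contDiff_infty.1 h 1
  exact_mod_cast this

theorem slice {φ : ℝ → ℝ → ℝ} (hs : ContDiff ℝ (⊤ : ℕ∞) (Function.uncurry φ)) (t : ℝ) :
    ContDiff ℝ (⊤ : ℕ∞) (φ t) := by
  have h1 : ContDiff ℝ (⊤ : ℕ∞) (fun x : ℝ => (t, x)) := contDiff_const.prodMk contDiff_id
  exact hs.comp h1

theorem cd1 {f : ℝ → ℝ} (hf : ContDiff ℝ 3 f) : ContDiff ℝ 1 f := hf.of_le (by norm_num)

theorem cd_succ {f : ℝ → ℝ} {n : ℕ} (hf : ContDiff ℝ ((n + 1 : ℕ) : WithTop ℕ∞) f) :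
    ContDiff ℝ (n : WithTop ℕ∞) (deriv f) := by
  have := ContDiff.iterate_deriv' n 1 hf
  simpa using this

theorem by_parts3 {f g : ℝ → ℝ} {P : ℝ} (hf : ContDiff ℝ 3 f) (hg : ContDiff ℝ 3 g)
    (pf : Function.Periodic f P) (pg : Function.Periodic g P) :
    ∫ x in (0 : ℝ)..P, f x * iteratedDeriv 3 g x =
      -∫ x in (0 : ℝ)..P, iteratedDeriv 3 f x * g x := by
  have hf1 : ContDiff ℝ 2 (deriv f) := cd_succ (n := 2) (by exact_mod_cast hf)
  have hf2 : ContDiff ℝ 1 (deriv (deriv f)) := cd_succ (n := 1) (by exact_mod_cast hf1)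
  have hg1 : ContDiff ℝ 2 (deriv g) := cd_succ (n := 2) (by exact_mod_cast hg)
  have hg2 : ContDiff ℝ 1 (deriv (deriv g)) := cd_succ (n := 1) (by exact_mod_cast hg1)
  rw [iter3, iter3]
  rw [by_parts (cd1 hf) hg2 pf (periodic_deriv (periodic_deriv pg))]
  rw [by_parts (hf1.of_le (by norm_num)) (hg1.of_le (by norm_num)) (periodic_deriv pf)
    (periodic_deriv pg)]
  rw [by_parts hf2 (cd1 hg) (periodic_deriv (periodic_deriv pf)) pg]
  ring

theorem dx_eq {ψ : ℝ → ℝ → ℝ} (h : Differentiable ℝ (Function.uncurry ψ)) (t x : ℝ) :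
    deriv (ψ t) x = fderiv ℝ (Function.uncurry ψ) (t, x) (0, 1) := by
  have h1 : HasDerivAt (fun y : ℝ => (t, y)) ((0 : ℝ), (1 : ℝ)) x :=
    (hasDerivAt_const x t).prodMk (hasDerivAt_id x)
  have h2 : HasFDerivAt (Function.uncurry ψ) (fderiv ℝ (Function.uncurry ψ) (t, x)) (t, x) :=
    (h (t, x)).hasFDerivAt
  exact (h2.comp_hasDerivAt x h1).deriv

theorem dt_eq {ψ : ℝ → ℝ → ℝ} (h : Differentiable ℝ (Function.uncurry ψ)) (t x : ℝ) :
    HasDerivAt (fun τ => ψ τ x) (fderiv ℝ (Function.uncurry ψ) (t, x) (1, 0)) t := by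
  have h1 : HasDerivAt (fun τ : ℝ => (τ, x)) ((1 : ℝ), (0 : ℝ)) t :=
    (hasDerivAt_id t).prodMk (hasDerivAt_const t x)
  have h2 : HasFDerivAt (Function.uncurry ψ) (fderiv ℝ (Function.uncurry ψ) (t, x)) (t, x) :=
    (h (t, x)).hasFDerivAt
  exact h2.comp_hasDerivAt t h1

theorem dx_smooth {ψ : ℝ → ℝ → ℝ} (h : ContDiff ℝ (⊤ : ℕ∞) (Function.uncurry ψ)) :
    ContDiff ℝ (⊤ : ℕ∞) (Function.uncurry (fun t x => deriv (ψ t) x)) := by
  have hd : Differentiable ℝ (Function.uncurry ψ) := h.differentiable (by simp)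
  have h1 : Function.uncurry (fun t x => deriv (ψ t) x) =
      fun p : ℝ × ℝ => fderiv ℝ (Function.uncurry ψ) p (0, 1) := by
    funext p
    obtain ⟨t, x⟩ := p
    exact dx_eq hd t x
  rw [h1]
  exact (h.fderiv_right (m := (⊤ : ℕ∞)) (by simp)).clm_apply contDiff_const

theorem dt_cont {ψ : ℝ → ℝ → ℝ} (h : ContDiff ℝ (⊤ : ℕ∞) (Function.uncurry ψ)) :
    Continuous (Function.uncurry (fun t x => deriv (fun τ => ψ τ x) t)) := by
  have hd : Differentiable ℝ (Function.uncurry ψ) := h.differentiable (by simp)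
  have h1 : Function.uncurry (fun t x => deriv (fun τ => ψ τ x) t) =
      fun p : ℝ × ℝ => fderiv ℝ (Function.uncurry ψ) p (1, 0) := by
    funext p
    obtain ⟨t, x⟩ := p
    exact (dt_eq hd t x).deriv
  rw [h1]
  exact ((h.fderiv_right (m := (⊤ : ℕ∞)) (by simp)).clm_apply contDiff_const).continuous

theorem slice_cont {F : ℝ → ℝ → ℝ} {T : ℝ} (h : ContinuousOn (Function.uncurry F)
    (Icc 0 T ×ˢ univ)) {t : ℝ} (ht : t ∈ Icc 0 T) : Continuous (F t) := by
  have h1 : Continuous fun x : ℝ => (t, x) := by fun_prop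
  exact h.comp_continuous h1 (fun x => ⟨ht, mem_univ _⟩)

theorem slc {F : ℝ → ℝ → ℝ} (h : Continuous (Function.uncurry F)) (t : ℝ) :
    Continuous (F t) := by
  have h1 : Continuous fun x : ℝ => (t, x) := by fun_prop
  exact h.comp h1

theorem inner_int {F : ℝ → ℝ → ℝ} {T : ℝ} (hT : 0 < T) (h : ContinuousOn (Function.uncurry F)
    (Icc 0 T ×ˢ univ)) (a b : ℝ) :
    IntervalIntegrable (fun t => ∫ x in a..b, F t x) volume 0 T := by
  have h1 : Continuous (Function.uncurry (fun t x => F (max 0 (min T t)) x)) := by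
    have h2 : Continuous fun p : ℝ × ℝ => (max 0 (min T p.1), p.2) := by fun_prop
    refine h.comp_continuous h2 (fun p => ⟨⟨le_max_left _ _, ?_⟩, mem_univ _⟩)
    exact max_le hT.le (min_le_left _ _)
  have h3 := intervalIntegral.continuous_parametric_intervalIntegral_of_continuous' (μ := volume)
    h1 a b
  refine (h3.intervalIntegrable 0 T).congr ?_
  intro t ht
  rw [uIoc_of_le hT.le] at ht
  have h4 : max 0 (min T t) = t := by
    rw [min_eq_right ht.2, max_eq_right ht.1.le]
  simp only [h4]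

theorem rect_int {F : ℝ → ℝ → ℝ} {T P : ℝ} (hT : 0 < T) (hP : 0 < P)
    (h : ContinuousOn (Function.uncurry F) (Icc 0 T ×ˢ univ)) :
    ∫ t in (0 : ℝ)..T, ∫ x in (0 : ℝ)..P, F t x = ∫ x in (0 : ℝ)..P, ∫ t in (0 : ℝ)..T, F t x := by
  apply intervalIntegral_intervalIntegral_swap
  rw [uIoc_of_le hT.le, uIoc_of_le hP.le]
  have h1 : IntegrableOn (Function.uncurry F) (Icc 0 T ×ˢ Icc 0 P) := by
    apply ContinuousOn.integrableOn_compact (isCompact_Icc.prod isCompact_Icc)
    exact h.mono (prod_mono le_rfl (subset_univ _))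
  exact h1.mono_set (prod_mono Ioc_subset_Icc_self Ioc_subset_Icc_self)

/-- Classical solutions are weak solutions. -/
theorem classical {σ T : ℝ} {U Ut U3 W W1 : ℝ → ℝ → ℝ} (hT : 0 < T)
    (hU : ∀ t ∈ Icc 0 T, ∀ x, HasDerivWithinAt (fun τ => U τ x) (Ut t x) (Icc 0 T) t)
    (h3 : ∀ t ∈ Icc 0 T, ContDiff ℝ 3 (U t) ∧ ∀ x, iteratedDeriv 3 (U t) x = U3 t x)
    (hW : ∀ t ∈ Icc 0 T, ContDiff ℝ 1 (W t) ∧ ∀ x, deriv (W t) x = W1 t x)
    (pU : ∀ t ∈ Icc 0 T, Function.Periodic (U t) (2 * Real.pi))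
    (pW : ∀ t ∈ Icc 0 T, Function.Periodic (W t) (2 * Real.pi))
    (cU : ContinuousOn (Function.uncurry U) (Icc 0 T ×ˢ univ))
    (cUt : ContinuousOn (Function.uncurry Ut) (Icc 0 T ×ˢ univ))
    (cU3 : ContinuousOn (Function.uncurry U3) (Icc 0 T ×ˢ univ))
    (cW1 : ContinuousOn (Function.uncurry W1) (Icc 0 T ×ˢ univ))
    (eq : ∀ t ∈ Icc 0 T, ∀ x, Ut t x + U3 t x + σ * W1 t x = 0)
    {φ : ℝ → ℝ → ℝ} (hφ : IsTest T φ) :
    ∫ t in (0 : ℝ)..T, ∫ x in (0 : ℝ)..(2 * Real.pi),
        (U t x * (deriv (fun τ => φ τ x) t + iteratedDeriv 3 (φ t) x)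
          + σ * W t x * deriv (φ t) x) = 0 := by
  have hs := hφ.smooth
  have hsd : Differentiable ℝ (Function.uncurry φ) := hs.differentiable (by simp)
  have hslice : ∀ t, ContDiff ℝ (⊤ : ℕ∞) (φ t) := slice hs
  have cφ : Continuous (Function.uncurry φ) := hs.continuous
  have cφt := dt_cont hs
  have cφ1 : Continuous (Function.uncurry (fun t x => deriv (φ t) x)) := (dx_smooth hs).continuous
  have cφ3 : Continuous (Function.uncurry (fun t x => iteratedDeriv 3 (φ t) x)) := by
    have := (dx_smooth (dx_smooth (dx_smooth hs))).continuous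
    refine this.congr ?_
    rintro ⟨t, x⟩
    simp only [Function.uncurry]
    rw [iter3]
  have hpi : 0 < 2 * Real.pi := by positivity
  -- inner identity
  have inner : ∀ t ∈ Icc 0 T, ∫ x in (0 : ℝ)..(2 * Real.pi),
        (U t x * (deriv (fun τ => φ τ x) t + iteratedDeriv 3 (φ t) x)
          + σ * W t x * deriv (φ t) x) =
      ∫ x in (0 : ℝ)..(2 * Real.pi), (U t x * deriv (fun τ => φ τ x) t + Ut t x * φ t x) := by
    intro t ht
    have kU : Continuous (U t) := slice_cont cU ht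
    have kUt : Continuous (Ut t) := slice_cont cUt ht
    have kU3 : Continuous (U3 t) := slice_cont cU3 ht
    have kW1 : Continuous (W1 t) := slice_cont cW1 ht
    have kW : Continuous (W t) := (hW t ht).1.continuous
    have kφ : Continuous (φ t) := (hslice t).continuous
    have kφt : Continuous (fun x => deriv (fun τ => φ τ x) t) :=
      slc (F := fun t x => deriv (fun τ => φ τ x) t) cφt t
    have kφ1 : Continuous (fun x => deriv (φ t) x) :=
      slc (F := fun t x => deriv (φ t) x) cφ1 t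
    have kφ3 : Continuous (fun x => iteratedDeriv 3 (φ t) x) :=
      slc (F := fun t x => iteratedDeriv 3 (φ t) x) cφ3 t
    have e1 : ∫ x in (0 : ℝ)..(2 * Real.pi), U t x * iteratedDeriv 3 (φ t) x =
        -∫ x in (0 : ℝ)..(2 * Real.pi), U3 t x * φ t x := by
      rw [by_parts3 (h3 t ht).1 (s3 (hslice t)) (pU t ht) (hφ.periodic t)]
      simp only [(h3 t ht).2]
    have e2 : ∫ x in (0 : ℝ)..(2 * Real.pi), W t x * deriv (φ t) x =
        -∫ x in (0 : ℝ)..(2 * Real.pi), W1 t x * φ t x := by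
      rw [by_parts (hW t ht).1 (s1 (hslice t)) (pW t ht) (hφ.periodic t)]
      simp only [(hW t ht).2]
    have i1 : IntervalIntegrable (fun x => U t x * deriv (fun τ => φ τ x) t) volume 0
        (2 * Real.pi) := (kU.mul kφt).intervalIntegrable _ _
    have i2 : IntervalIntegrable (fun x => U t x * iteratedDeriv 3 (φ t) x) volume 0
        (2 * Real.pi) := (kU.mul kφ3).intervalIntegrable _ _
    have i3 : IntervalIntegrable (fun x => W t x * deriv (φ t) x) volume 0
        (2 * Real.pi) := (kW.mul kφ1).intervalIntegrable _ _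
    have i4 : IntervalIntegrable (fun x => U3 t x * φ t x) volume 0
        (2 * Real.pi) := (kU3.mul kφ).intervalIntegrable _ _
    have i5 : IntervalIntegrable (fun x => W1 t x * φ t x) volume 0
        (2 * Real.pi) := (kW1.mul kφ).intervalIntegrable _ _
    have e3 : ∫ x in (0 : ℝ)..(2 * Real.pi),
        (U t x * (deriv (fun τ => φ τ x) t + iteratedDeriv 3 (φ t) x)
          + σ * W t x * deriv (φ t) x) =
        (∫ x in (0 : ℝ)..(2 * Real.pi), U t x * deriv (fun τ => φ τ x) t) +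
        (∫ x in (0 : ℝ)..(2 * Real.pi), U t x * iteratedDeriv 3 (φ t) x) +
        σ * ∫ x in (0 : ℝ)..(2 * Real.pi), W t x * deriv (φ t) x := by
      rw [← intervalIntegral.integral_const_mul, ← intervalIntegral.integral_add i1 i2,
        ← intervalIntegral.integral_add (i1.add i2) (i3.const_mul σ)]
      apply intervalIntegral.integral_congr
      intro x _
      simp only
      ring
    have e4 : ∫ x in (0 : ℝ)..(2 * Real.pi),
        (U t x * deriv (fun τ => φ τ x) t + Ut t x * φ t x) =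
        (∫ x in (0 : ℝ)..(2 * Real.pi), U t x * deriv (fun τ => φ τ x) t) -
        (∫ x in (0 : ℝ)..(2 * Real.pi), U3 t x * φ t x) -
        σ * ∫ x in (0 : ℝ)..(2 * Real.pi), W1 t x * φ t x := by
      rw [← intervalIntegral.integral_const_mul, ← intervalIntegral.integral_sub i1 i4,
        ← intervalIntegral.integral_sub (i1.sub i4) (i5.const_mul σ)]
      apply intervalIntegral.integral_congr
      intro x _
      simp only
      have := eq t ht x
      have h5 : Ut t x = -U3 t x - σ * W1 t x := by linarith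
      rw [h5]
      ring
    rw [e3, e4, e1, e2]
    ring
  have outer : ∫ t in (0 : ℝ)..T, ∫ x in (0 : ℝ)..(2 * Real.pi),
        (U t x * (deriv (fun τ => φ τ x) t + iteratedDeriv 3 (φ t) x)
          + σ * W t x * deriv (φ t) x) =
      ∫ t in (0 : ℝ)..T, ∫ x in (0 : ℝ)..(2 * Real.pi),
        (U t x * deriv (fun τ => φ τ x) t + Ut t x * φ t x) := by
    apply intervalIntegral.integral_congr
    intro t ht
    rw [uIcc_of_le hT.le] at ht
    exact inner t ht
  rw [outer]
  have cF : ContinuousOn (Function.uncurry (fun t x =>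
      (U t x * deriv (fun τ => φ τ x) t + Ut t x * φ t x))) (Icc 0 T ×ˢ univ) :=
    (cU.mul cφt.continuousOn).add (cUt.mul cφ.continuousOn)
  rw [rect_int hT hpi cF]
  have hzero : ∀ x : ℝ, ∫ t in (0 : ℝ)..T,
      (U t x * deriv (fun τ => φ τ x) t + Ut t x * φ t x) = 0 := by
    intro x
    obtain ⟨a, b, ha, hb, hab⟩ := hφ.supp
    have h0 : φ 0 x = 0 := hab 0 (fun h => by linarith [h.1]) x
    have hTT : φ T x = 0 := hab T (fun h => by linarith [h.2]) x
    have cl : Continuous fun t : ℝ => (t, x) := by fun_prop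
    have m1 : ContinuousOn (fun t => U t x * φ t x) (Icc 0 T) := by
      have := (cU.mul cφ.continuousOn).comp cl.continuousOn
        (fun t ht => (⟨ht, mem_univ _⟩ : (t, x) ∈ Icc 0 T ×ˢ univ))
      exact this
    have m2 : ContinuousOn (fun t => U t x * deriv (fun τ => φ τ x) t + Ut t x * φ t x)
        (Icc 0 T) := by
      have := cF.comp cl.continuousOn
        (fun t ht => (⟨ht, mem_univ _⟩ : (t, x) ∈ Icc 0 T ×ˢ univ))
      exact this
    rw [intervalIntegral.integral_eq_sub_of_hasDerivAt_of_le hT.le m1]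
    · rw [h0, hTT]
      ring
    · intro t ht
      have d1 : HasDerivAt (fun τ => U τ x) (Ut t x) t :=
        (hU t (Ioo_subset_Icc_self ht) x).hasDerivAt (Icc_mem_nhds ht.1 ht.2)
      have d2 : HasDerivAt (fun τ => φ τ x) (deriv (fun τ => φ τ x) t) t :=
        (dt_eq hsd t x).differentiableAt.hasDerivAt
      have d3 : HasDerivAt (fun τ => U τ x * φ τ x)
          (Ut t x * φ t x + U t x * deriv (fun τ => φ τ x) t) t := d1.mul d2
      rw [add_comm] at d3
      exact d3
    · exact m2.intervalIntegrable_of_Icc hT.le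
  simp only [hzero]
  simp

end WeakLimit

open WeakLimit in
theorem weakLimitStmt : WeakLimitStmt := by
  intro σ T U Ut U3 W W1 u hT hU h3 hW pU pW cU cUt cU3 cW cW1 eq hlim φ hφ
  have hs := hφ.smooth
  have cφt := dt_cont hs
  have cφ1 : Continuous (Function.uncurry (fun t x => deriv (φ t) x)) := (dx_smooth hs).continuous
  have cφ3 : Continuous (Function.uncurry (fun t x => iteratedDeriv 3 (φ t) x)) := by
    have := (dx_smooth (dx_smooth (dx_smooth hs))).continuous
    refine this.congr ?_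
    rintro ⟨t, x⟩
    simp only [Function.uncurry]
    rw [iter3]
  have hpi : 0 < 2 * Real.pi := by positivity
  -- the limit is continuous
  have cu : ContinuousOn (Function.uncurry u) (Icc 0 T ×ˢ univ) := by
    have hun : TendstoUniformlyOn (fun j => Function.uncurry (U j)) (Function.uncurry u) atTop
        (Icc 0 T ×ˢ univ) := by
      rw [Metric.tendstoUniformlyOn_iff]
      intro ε hε
      obtain ⟨J, hJ⟩ := hlim ε hε
      filter_upwards [eventually_ge_atTop J] with j hj
      rintro ⟨t, x⟩ ⟨ht, _⟩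
      rw [dist_comm, Real.dist_eq]
      exact (hJ j hj t ht x).1
    exact hun.continuousOn (Frequently.of_forall fun j => cU j)
  -- bounds for the test function
  obtain ⟨M1, hM1⟩ := (isCompact_Icc.prod isCompact_Icc :
    IsCompact (Icc (0 : ℝ) T ×ˢ Icc (0 : ℝ) (2 * Real.pi))).exists_bound_of_continuousOn
      (f := fun p : ℝ × ℝ => deriv (fun τ => φ τ p.2) p.1 + iteratedDeriv 3 (φ p.1) p.2)
      ((cφt.add cφ3).continuousOn)
  obtain ⟨M2, hM2⟩ := (isCompact_Icc.prod isCompact_Icc :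
    IsCompact (Icc (0 : ℝ) T ×ˢ Icc (0 : ℝ) (2 * Real.pi))).exists_bound_of_continuousOn
      (f := fun p : ℝ × ℝ => deriv (φ p.1) p.2) (cφ1.continuousOn)
  have hM1' : 0 ≤ M1 := (norm_nonneg _).trans (hM1 (0, 0) ⟨⟨le_rfl, hT.le⟩, ⟨le_rfl, hpi.le⟩⟩)
  have hM2' : 0 ≤ M2 := (norm_nonneg _).trans (hM2 (0, 0) ⟨⟨le_rfl, hT.le⟩, ⟨le_rfl, hpi.le⟩⟩)
  have cG : ContinuousOn (Function.uncurry (fun t x =>
      (u t x * (deriv (fun τ => φ τ x) t + iteratedDeriv 3 (φ t) x)
          + σ * u t x ^ 4 * deriv (φ t) x))) (Icc 0 T ×ˢ univ) :=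
    (cu.mul (cφt.add cφ3).continuousOn).add
      ((continuousOn_const.mul (cu.pow 4)).mul cφ1.continuousOn)
  set I := ∫ t in (0 : ℝ)..T, ∫ x in (0 : ℝ)..(2 * Real.pi),
        (u t x * (deriv (fun τ => φ τ x) t + iteratedDeriv 3 (φ t) x)
          + σ * u t x ^ 4 * deriv (φ t) x) with hI
  have key : ∀ ε > 0, |I| ≤ ε * ((M1 + |σ| * M2) * (2 * Real.pi) * T) := by
    intro ε hε
    obtain ⟨J, hJ⟩ := hlim ε hε
    have hJ := hJ J le_rfl
    have cGJ : ContinuousOn (Function.uncurry (fun t x =>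
        (U J t x * (deriv (fun τ => φ τ x) t + iteratedDeriv 3 (φ t) x)
          + σ * W J t x * deriv (φ t) x))) (Icc 0 T ×ˢ univ) :=
      ((cU J).mul (cφt.add cφ3).continuousOn).add
        ((continuousOn_const.mul (cW J)).mul cφ1.continuousOn)
    have hz := classical hT (hU J) (h3 J) (hW J) (pU J) (pW J) (cU J) (cUt J) (cU3 J) (cW1 J)
      (eq J) hφ
    have hdiff : I = ∫ t in (0 : ℝ)..T, ((∫ x in (0 : ℝ)..(2 * Real.pi),
        (u t x * (deriv (fun τ => φ τ x) t + iteratedDeriv 3 (φ t) x)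
          + σ * u t x ^ 4 * deriv (φ t) x)) -
        ∫ x in (0 : ℝ)..(2 * Real.pi),
        (U J t x * (deriv (fun τ => φ τ x) t + iteratedDeriv 3 (φ t) x)
          + σ * W J t x * deriv (φ t) x)) := by
      rw [intervalIntegral.integral_sub (inner_int hT cG 0 (2 * Real.pi))
        (inner_int hT cGJ 0 (2 * Real.pi)), hz, sub_zero]
    rw [hdiff, ← Real.norm_eq_abs]
    have hb : ∀ t ∈ uIoc 0 T, ‖(∫ x in (0 : ℝ)..(2 * Real.pi),
        (u t x * (deriv (fun τ => φ τ x) t + iteratedDeriv 3 (φ t) x)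
          + σ * u t x ^ 4 * deriv (φ t) x)) -
        ∫ x in (0 : ℝ)..(2 * Real.pi),
        (U J t x * (deriv (fun τ => φ τ x) t + iteratedDeriv 3 (φ t) x)
          + σ * W J t x * deriv (φ t) x)‖ ≤ ε * (M1 + |σ| * M2) * (2 * Real.pi) := by
      intro t ht
      rw [uIoc_of_le hT.le] at ht
      have ht' : t ∈ Icc 0 T := Ioc_subset_Icc_self ht
      rw [← intervalIntegral.integral_sub ((slice_cont cG ht').intervalIntegrable _ _)
        ((slice_cont cGJ ht').intervalIntegrable _ _)]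
      have hb2 : ∀ x ∈ uIoc 0 (2 * Real.pi),
          ‖(u t x * (deriv (fun τ => φ τ x) t + iteratedDeriv 3 (φ t) x)
            + σ * u t x ^ 4 * deriv (φ t) x) -
          (U J t x * (deriv (fun τ => φ τ x) t + iteratedDeriv 3 (φ t) x)
            + σ * W J t x * deriv (φ t) x)‖ ≤ ε * (M1 + |σ| * M2) := by
        intro x hx
        rw [uIoc_of_le hpi.le] at hx
        have hp : (t, x) ∈ Icc (0 : ℝ) T ×ˢ Icc (0 : ℝ) (2 * Real.pi) :=
          ⟨ht', Ioc_subset_Icc_self hx⟩
        have b1 := hM1 (t, x) hp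
        have b2 := hM2 (t, x) hp
        simp only [Real.norm_eq_abs] at b1 b2 ⊢
        obtain ⟨c1, c2⟩ := hJ t ht' x
        have e : (u t x * (deriv (fun τ => φ τ x) t + iteratedDeriv 3 (φ t) x)
            + σ * u t x ^ 4 * deriv (φ t) x) -
          (U J t x * (deriv (fun τ => φ τ x) t + iteratedDeriv 3 (φ t) x)
            + σ * W J t x * deriv (φ t) x) =
            -((U J t x - u t x) * (deriv (fun τ => φ τ x) t + iteratedDeriv 3 (φ t) x)
              + σ * ((W J t x - u t x ^ 4) * deriv (φ t) x)) := by ring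
        rw [e, abs_neg]
        refine (abs_add_le _ _).trans ?_
        rw [abs_mul, abs_mul, abs_mul]
        have f1 : |U J t x - u t x| * |deriv (fun τ => φ τ x) t + iteratedDeriv 3 (φ t) x| ≤
            ε * M1 := mul_le_mul c1.le b1 (abs_nonneg _) hε.le
        have f2 : |W J t x - u t x ^ 4| * |deriv (φ t) x| ≤ ε * M2 :=
          mul_le_mul c2.le b2 (abs_nonneg _) hε.le
        have f3 := mul_le_mul_of_nonneg_left f2 (abs_nonneg σ)
        nlinarith
      have := intervalIntegral.norm_integral_le_of_norm_le_const hb2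
      rw [sub_zero, abs_of_pos hpi] at this
      exact this
    have := intervalIntegral.norm_integral_le_of_norm_le_const hb
    rw [sub_zero, abs_of_pos hT] at this
    refine this.trans (le_of_eq ?_)
    ring
  by_contra hne
  have hpos : 0 < |I| := abs_pos.2 hne
  have hK : 0 ≤ (M1 + |σ| * M2) * (2 * Real.pi) * T := by positivity
  have h1 := key (|I| / (2 * ((M1 + |σ| * M2) * (2 * Real.pi) * T + 1))) (by positivity)
  have h2 : |I| / (2 * ((M1 + |σ| * M2) * (2 * Real.pi) * T + 1)) *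
      ((M1 + |σ| * M2) * (2 * Real.pi) * T) ≤ |I| / 2 := by
    rw [div_mul_eq_mul_div, div_le_div_iff₀ (by positivity) (by norm_num)]
    nlinarith
  linarith

end GKdV
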